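import Pool.Agent.NH12.RS.Stm
import Pool.Agent.R399.TW.Shift
import Pool.Agent.Y772.DK.Main

/-!
# Project RS, AFE: the approximate functional equation
-/

set_option autoImplicit false

open NumberField Complex

namespace Pool.Agent.NH12.RS

open Pool.Agent.Y773 (LI)

namespace Afe

open Filter Topology MeasureTheory
open Pool.Agent.R399.TW (pt pt_re pt_im pt_cont gauss_int kernel_id Ph gd gd_half gd_even strip
  vert_int vshift bd_of_eventually norm_gauss)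

lemma Ph_zero : Ph 0 = 1 / 2 := by
  unfold Ph
  rw [← gd_half]
  congr 1
  funext u
  rw [zero_sub, gd_even]

/-! ### The Gaussian -/

/-- the function `exp(z²)` -/
noncomputable def EE (z : ℂ) : ℂ := cexp (z ^ 2)

lemma EE_diff : Differentiable ℂ EE := by
  unfold EE
  fun_prop

lemma EE_neg (z : ℂ) : EE (-z) = EE z := by
  unfold EE
  rw [neg_sq]

lemma EE_zero : EE 0 = 1 := by
  unfold EE
  simp

lemma deriv_EE : deriv EE 0 = 0 := by
  have h1 : HasDerivAt EE (cexp ((0 : ℂ) ^ 2) * (2 * (0 : ℂ))) 0 := by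
    unfold EE
    have h2 := ((hasDerivAt_id (0 : ℂ)).pow 2).cexp
    refine h2.congr_deriv ?_
    simp
  rw [h1.deriv]
  simp

lemma norm_EE (z : ℂ) : ‖EE z‖ = Real.exp (z.re ^ 2 - z.im ^ 2) := by
  unfold EE
  rw [Complex.norm_exp]
  congr 1
  simp [pow_two]

lemma EE_bd {z : ℂ} (hz : z ∈ strip (-3 / 2) (3 / 2)) :
    (3 + |z.im|) ^ 2 * ‖EE z‖ ≤ 9 * Real.exp 4 * Real.exp (-|z.im|) := by
  rw [norm_EE]
  have h1 : z.re ^ 2 ≤ 9 / 4 := by
    have := hz.1
    have := hz.2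
    nlinarith
  have h2 : z.im ^ 2 = |z.im| ^ 2 := (sq_abs _).symm
  obtain ⟨y, hy⟩ : ∃ y, y = |z.im| := ⟨_, rfl⟩
  have hy0 : 0 ≤ y := by rw [hy]; exact abs_nonneg _
  rw [h2, ← hy]
  have h3 : (3 + y) ^ 2 ≤ 9 * Real.exp y := by
    have h4 := Real.add_one_le_exp (y / 2)
    have h5 : Real.exp y = Real.exp (y / 2) ^ 2 := by
      rw [← Real.exp_nat_mul]
      congr 1
      push_cast
      ring
    rw [h5]
    have h6 : 0 ≤ y / 2 + 1 := by linarith
    have h7 : (y / 2 + 1) ^ 2 ≤ Real.exp (y / 2) ^ 2 := by gcongr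
    nlinarith
  calc (3 + y) ^ 2 * Real.exp (z.re ^ 2 - y ^ 2) ≤
        (9 * Real.exp y) * Real.exp (4 - 2 * y) := by
        refine mul_le_mul h3 ?_ (Real.exp_pos _).le (by positivity)
        apply Real.exp_le_exp.2
        nlinarith [sq_nonneg (y - 1)]
    _ = 9 * (Real.exp y * Real.exp (4 - 2 * y)) := by ring
    _ = 9 * (Real.exp 4 * Real.exp (-y)) := by
        rw [← Real.exp_add, ← Real.exp_add]
        congr 2
        ring
    _ = _ := by ring

/-- functions which are bounded by a square times the Gaussian -/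
lemma bdE {F : ℂ → ℂ} {C : ℝ} (hC : 0 ≤ C)
    (hF : ∀ z ∈ strip (-3 / 2) (3 / 2), ‖F z‖ ≤ C * (3 + |z.im|) ^ 2 * ‖EE z‖) :
    ∀ z ∈ strip (-3 / 2) (3 / 2), ‖F z‖ ≤ (C * (9 * Real.exp 4)) * Real.exp (-|z.im|) := by
  intro z hz
  refine (hF z hz).trans ?_
  rw [mul_assoc, mul_assoc]
  exact mul_le_mul_of_nonneg_left (EE_bd hz) hC

/-! ### Dividing by `z` -/

lemma dsl {F : ℂ → ℂ} (hd : Differentiable ℂ F) {C : ℝ}
    (hC : ∀ z ∈ strip (-3 / 2) (3 / 2), ‖F z‖ ≤ C * Real.exp (-|z.im|)) (h0 : F 0 = 0) :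
    Differentiable ℂ (dslope F 0) ∧
    (∃ C' : ℝ, ∀ z ∈ strip (-3 / 2) (3 / 2), ‖dslope F 0 z‖ ≤ C' * Real.exp (-|z.im|)) ∧
    ∀ z : ℂ, z ≠ 0 → dslope F 0 z = F z / z := by
  have h1 : Differentiable ℂ (dslope F 0) := by
    rw [← differentiableOn_univ]
    exact (Complex.differentiableOn_dslope Filter.univ_mem).2 hd.differentiableOn
  have h2 : ∀ z : ℂ, z ≠ 0 → dslope F 0 z = F z / z := by
    intro z hz
    rw [dslope_of_ne _ hz, slope_def_field, h0, sub_zero, sub_zero]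
  refine ⟨h1, ?_, h2⟩
  refine bd_of_eventually (C := C) (T₀ := 1) h1.continuous.continuousOn fun z hz hT => ?_
  have hz1 : 1 ≤ ‖z‖ := hT.trans (Complex.abs_im_le_norm z)
  have hz2 : z ≠ 0 := by
    intro h
    rw [h, norm_zero] at hz1
    linarith
  rw [h2 z hz2, norm_div]
  exact (div_le_self (norm_nonneg _) hz1).trans (hC z hz)

lemma pt_ne (t : ℝ) : pt (3 / 2) t ≠ 0 := by
  intro h
  have := congrArg Complex.re h
  rw [pt_re] at this
  norm_num at this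

lemma pt_ne' (t : ℝ) : pt (-3 / 2) t ≠ 0 := by
  intro h
  have := congrArg Complex.re h
  rw [pt_re] at this
  norm_num at this

lemma pt_neg (t : ℝ) : pt (-3 / 2) t = -pt (3 / 2) (-t) := by
  unfold pt
  push_cast
  ring

lemma pt_norm (t : ℝ) : 1 ≤ ‖pt (3 / 2) t‖ := by
  have h3 := (le_abs_self _).trans (Complex.abs_re_le_norm (pt (3 / 2) t))
  rw [pt_re] at h3
  linarith

/-- the Gaussian over powers, on the right -/
lemma K_int (k : ℕ) : Integrable fun t : ℝ => EE (pt (3 / 2) t) / pt (3 / 2) t ^ k := by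
  refine (gauss_int (3 / 2) 0).norm.mono' ?_ (Eventually.of_forall fun t => ?_)
  · have h1 : Continuous fun t : ℝ => EE (pt (3 / 2) t) / pt (3 / 2) t ^ k := by
      refine Continuous.div (EE_diff.continuous.comp (pt_cont _)) ((pt_cont _).pow k) fun t => ?_
      exact pow_ne_zero _ (pt_ne t)
    exact h1.aestronglyMeasurable
  · rw [norm_div, norm_pow]
    have h1 : EE (pt (3 / 2) t) = cexp (pt (3 / 2) t ^ 2 + ((0 : ℝ) : ℂ) * pt (3 / 2) t) := by
      unfold EE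
      simp
    rw [← h1]
    exact div_le_self (norm_nonneg _) (one_le_pow₀ (pt_norm t))

lemma K_int' (k : ℕ) : Integrable fun t : ℝ => EE (pt (-3 / 2) t) / pt (-3 / 2) t ^ k := by
  have h1 : (fun t : ℝ => EE (pt (-3 / 2) t) / pt (-3 / 2) t ^ k) =
      fun t : ℝ => (-1) ^ k * (EE (pt (3 / 2) (-t)) / pt (3 / 2) (-t) ^ k) := by
    funext t
    rw [pt_neg, EE_neg, neg_pow (pt (3 / 2) (-t)) k]
    rcases neg_one_pow_eq_or ℂ k with h | h <;> rw [h] <;> simp [div_neg]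
  rw [h1]
  exact (K_int k).comp_neg.const_mul _

lemma K_one : ∫ t : ℝ, EE (pt (3 / 2) t) / pt (3 / 2) t ^ 1 = Real.pi := by
  have h1 := kernel_id (c := 3 / 2) (by norm_num) 0
  rw [Ph_zero] at h1
  have h2 : (fun t : ℝ => EE (pt (3 / 2) t) / pt (3 / 2) t ^ 1) =
      fun t : ℝ => cexp (pt (3 / 2) t ^ 2 + ((0 : ℝ) : ℂ) * pt (3 / 2) t) / pt (3 / 2) t := by
    funext t
    unfold EE
    simp
  rw [h2, h1]
  push_cast
  ring

lemma K_one' : ∫ t : ℝ, EE (pt (-3 / 2) t) / pt (-3 / 2) t ^ 1 = -Real.pi := by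
  rw [← K_one, ← integral_neg_eq_self (fun t : ℝ => EE (pt (3 / 2) t) / pt (3 / 2) t ^ 1),
    ← integral_neg]
  congr 1
  funext t
  rw [pt_neg, EE_neg, pow_one, pow_one, div_neg]

lemma K_two : ∫ t : ℝ, EE (pt (-3 / 2) t) / pt (-3 / 2) t ^ 2 =
    ∫ t : ℝ, EE (pt (3 / 2) t) / pt (3 / 2) t ^ 2 := by
  rw [← integral_neg_eq_self (fun t : ℝ => EE (pt (3 / 2) t) / pt (3 / 2) t ^ 2)]
  congr 1
  funext t
  rw [pt_neg, EE_neg, neg_sq]

/-! ### The residues -/

theorem res0 {g : ℂ → ℂ} (hg : Differentiable ℂ g) {C : ℝ} (hC0 : 0 ≤ C)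
    (hC : ∀ z ∈ strip (-3 / 2) (3 / 2), ‖g z‖ ≤ C * (3 + |z.im|) ^ 2 * ‖EE z‖) :
    (∫ t : ℝ, g (pt (3 / 2) t) / pt (3 / 2) t ^ 1) -
      (∫ t : ℝ, g (pt (-3 / 2) t) / pt (-3 / 2) t ^ 1) = 2 * Real.pi * g 0 := by
  obtain ⟨G, hG⟩ : ∃ G : ℂ → ℂ, G = fun z => g z - g 0 * EE z := ⟨_, rfl⟩
  have hGd : Differentiable ℂ G := by
    rw [hG]
    exact hg.sub (EE_diff.const_mul _)
  have hG0 : G 0 = 0 := by rw [hG]; simp [EE_zero]
  have hGb := bdE (F := G) (C := C + ‖g 0‖) (by positivity) (fun z hz => by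
    rw [hG]
    refine (norm_sub_le _ _).trans ?_
    rw [norm_mul]
    have h1 := hC z hz
    have h2 : ‖EE z‖ ≤ (3 + |z.im|) ^ 2 * ‖EE z‖ := by
      have h3 : 1 ≤ (3 + |z.im|) ^ 2 := by
        have := abs_nonneg z.im
        nlinarith
      nlinarith [norm_nonneg (EE z)]
    nlinarith [norm_nonneg (g 0)])
  obtain ⟨d1, ⟨C', d2⟩, d3⟩ := dsl hGd hGb hG0
  have s := vshift (by norm_num : (-3 / 2 : ℝ) ≤ 3 / 2) d1.continuous.continuousOn
    d1.differentiableOn d2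
  have i1 : Integrable fun t : ℝ => dslope G 0 (pt (3 / 2) t) :=
    vert_int (by norm_num) le_rfl d1.continuous.continuousOn d2
  have i2 : Integrable fun t : ℝ => dslope G 0 (pt (-3 / 2) t) :=
    vert_int le_rfl (by norm_num) d1.continuous.continuousOn d2
  have e1 : (fun t : ℝ => g (pt (3 / 2) t) / pt (3 / 2) t ^ 1) =
      fun t : ℝ => dslope G 0 (pt (3 / 2) t) + g 0 * (EE (pt (3 / 2) t) / pt (3 / 2) t ^ 1) := by
    funext t
    rw [d3 _ (pt_ne t), hG]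
    simp only [pow_one]
    ring
  have e2 : (fun t : ℝ => g (pt (-3 / 2) t) / pt (-3 / 2) t ^ 1) =
      fun t : ℝ => dslope G 0 (pt (-3 / 2) t) +
        g 0 * (EE (pt (-3 / 2) t) / pt (-3 / 2) t ^ 1) := by
    funext t
    rw [d3 _ (pt_ne' t), hG]
    simp only [pow_one]
    ring
  rw [e1, e2, integral_add i1 ((K_int 1).const_mul _), integral_add i2 ((K_int' 1).const_mul _),
    integral_const_mul, integral_const_mul, K_one, K_one', s]
  ring

theorem res1 {g : ℂ → ℂ} (hg : Differentiable ℂ g) {C : ℝ} (hC0 : 0 ≤ C)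
    (hC : ∀ z ∈ strip (-3 / 2) (3 / 2), ‖g z‖ ≤ C * (3 + |z.im|) ^ 2 * ‖EE z‖) :
    (∫ t : ℝ, g (pt (3 / 2) t) / pt (3 / 2) t ^ 2) -
      (∫ t : ℝ, g (pt (-3 / 2) t) / pt (-3 / 2) t ^ 2) = 2 * Real.pi * deriv g 0 := by
  obtain ⟨G, hG⟩ : ∃ G : ℂ → ℂ, G = fun z => g z - (g 0 + deriv g 0 * z) * EE z := ⟨_, rfl⟩
  have hlin : Differentiable ℂ fun z : ℂ => g 0 + deriv g 0 * z := by fun_prop
  have hGd : Differentiable ℂ G := by
    rw [hG]
    exact hg.sub (hlin.mul EE_diff)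
  have hG0 : G 0 = 0 := by rw [hG]; simp [EE_zero]
  have hG1 : deriv G 0 = 0 := by
    have h1 : HasDerivAt (fun z : ℂ => g 0 + deriv g 0 * z) (deriv g 0) 0 := by
      have h2 := ((hasDerivAt_id (0 : ℂ)).const_mul (deriv g 0)).const_add (g 0)
      simpa using h2
    have h2 : HasDerivAt EE 0 0 := by
      have h3 := (EE_diff 0).hasDerivAt
      rwa [deriv_EE] at h3
    have h4 := ((hg 0).hasDerivAt).sub (h1.mul h2)
    have h5 : HasDerivAt G (deriv g 0 - (deriv g 0 * EE 0 + (g 0 + deriv g 0 * 0) * 0)) 0 := by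
      rw [hG]
      exact h4
    rw [h5.deriv, EE_zero]
    ring
  have hGb := bdE (F := G) (C := C + (‖g 0‖ + ‖deriv g 0‖)) (by positivity) (fun z hz => by
    rw [hG]
    refine (norm_sub_le _ _).trans ?_
    rw [norm_mul]
    have h1 := hC z hz
    have h2 : ‖g 0 + deriv g 0 * z‖ ≤ (‖g 0‖ + ‖deriv g 0‖) * (3 + |z.im|) ^ 2 := by
      refine (norm_add_le _ _).trans ?_
      rw [norm_mul]
      have h3 : ‖z‖ ≤ (3 + |z.im|) ^ 2 := by
        have h4 := Complex.norm_le_abs_re_add_abs_im z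
        have h5 : |z.re| ≤ 3 / 2 := by
          rw [abs_le]
          exact ⟨by linarith [hz.1], hz.2⟩
        nlinarith [abs_nonneg z.im]
      have h6 : 1 ≤ (3 + |z.im|) ^ 2 := by
        have := abs_nonneg z.im
        nlinarith
      nlinarith [norm_nonneg (g 0), norm_nonneg (deriv g 0)]
    have h7 : ‖g 0 + deriv g 0 * z‖ * ‖EE z‖ ≤
        (‖g 0‖ + ‖deriv g 0‖) * (3 + |z.im|) ^ 2 * ‖EE z‖ :=
      mul_le_mul_of_nonneg_right h2 (norm_nonneg _)
    linarith)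
  obtain ⟨d1, ⟨C', d2⟩, d3⟩ := dsl hGd hGb hG0
  obtain ⟨f1, ⟨C'', f2⟩, f3⟩ := dsl d1 d2 (by rw [dslope_same, hG1])
  have s := vshift (by norm_num : (-3 / 2 : ℝ) ≤ 3 / 2) f1.continuous.continuousOn
    f1.differentiableOn f2
  have i1 : Integrable fun t : ℝ => dslope (dslope G 0) 0 (pt (3 / 2) t) :=
    vert_int (by norm_num) le_rfl f1.continuous.continuousOn f2
  have i2 : Integrable fun t : ℝ => dslope (dslope G 0) 0 (pt (-3 / 2) t) :=
    vert_int le_rfl (by norm_num) f1.continuous.continuousOn f2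
  have e1 : (fun t : ℝ => g (pt (3 / 2) t) / pt (3 / 2) t ^ 2) =
      fun t : ℝ => dslope (dslope G 0) 0 (pt (3 / 2) t) +
        (g 0 * (EE (pt (3 / 2) t) / pt (3 / 2) t ^ 2) +
          deriv g 0 * (EE (pt (3 / 2) t) / pt (3 / 2) t ^ 1)) := by
    funext t
    have hne := pt_ne t
    rw [f3 _ hne, d3 _ hne, hG]
    field_simp
    ring
  have e2 : (fun t : ℝ => g (pt (-3 / 2) t) / pt (-3 / 2) t ^ 2) =
      fun t : ℝ => dslope (dslope G 0) 0 (pt (-3 / 2) t) +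
        (g 0 * (EE (pt (-3 / 2) t) / pt (-3 / 2) t ^ 2) +
          deriv g 0 * (EE (pt (-3 / 2) t) / pt (-3 / 2) t ^ 1)) := by
    funext t
    have hne := pt_ne' t
    rw [f3 _ hne, d3 _ hne, hG]
    field_simp
    ring
  have i3 : Integrable fun t : ℝ => g 0 * (EE (pt (3 / 2) t) / pt (3 / 2) t ^ 2) +
      deriv g 0 * (EE (pt (3 / 2) t) / pt (3 / 2) t ^ 1) :=
    ((K_int 2).const_mul _).add ((K_int 1).const_mul _)
  have i4 : Integrable fun t : ℝ => g 0 * (EE (pt (-3 / 2) t) / pt (-3 / 2) t ^ 2) +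
      deriv g 0 * (EE (pt (-3 / 2) t) / pt (-3 / 2) t ^ 1) :=
    ((K_int' 2).const_mul _).add ((K_int' 1).const_mul _)
  rw [e1, e2, integral_add i1 i3, integral_add i2 i4,
    integral_add ((K_int 2).const_mul _) ((K_int 1).const_mul _),
    integral_add ((K_int' 2).const_mul _) ((K_int' 1).const_mul _),
    integral_const_mul, integral_const_mul, integral_const_mul, integral_const_mul, K_one, K_one',
    K_two, s]
  ring

/-! ### The Gamma factor -/

lemma norm_Gamma_le {z : ℂ} (hz : 0 < z.re) : ‖Complex.Gamma z‖ ≤ Real.Gamma z.re := by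
  rw [Complex.Gamma_eq_integral hz, Real.Gamma_eq_integral hz]
  unfold Complex.GammaIntegral
  refine (norm_integral_le_integral_norm _).trans (le_of_eq ?_)
  refine setIntegral_congr_fun measurableSet_Ioi (fun t ht => ?_)
  have ht' : (0 : ℝ) < t := ht
  simp only [norm_mul]
  rw [Complex.norm_cpow_eq_rpow_re_of_pos ht', Complex.norm_real, Real.norm_eq_abs,
    abs_of_pos (Real.exp_pos _)]
  simp

/-- the Gamma factor on the line -/
noncomputable def GG (a : ℕ) (t : ℝ) : ℂ := Complex.Gammaℝ (1 / 2 + a + pt (3 / 2) t) ^ 2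

lemma GG_cont (a : ℕ) : Continuous (GG a) := by
  unfold GG
  refine Continuous.pow ?_ 2
  rw [continuous_iff_continuousAt]
  intro t
  have h1 : 0 < ((1 / 2 + a + pt (3 / 2) t : ℂ) / 2).re := by
    have h2 : ((1 / 2 + a + pt (3 / 2) t : ℂ) / 2).re = (1 / 2 + a + 3 / 2) / 2 := by
      unfold pt
      simp
    rw [h2]
    positivity
  have h2 : ContinuousAt (fun t : ℝ => (1 / 2 + a + pt (3 / 2) t : ℂ)) t :=
    ((continuous_const.add (pt_cont _))).continuousAt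
  have h3 : (fun t : ℝ => Complex.Gammaℝ (1 / 2 + a + pt (3 / 2) t)) = fun t : ℝ =>
      (Real.pi : ℂ) ^ (-(1 / 2 + a + pt (3 / 2) t) / 2) *
        Complex.Gamma ((1 / 2 + a + pt (3 / 2) t) / 2) := by
    funext t
    rw [Complex.Gammaℝ_def]
  rw [h3]
  refine ContinuousAt.mul ?_ ?_
  · refine ContinuousAt.const_cpow ?_ (Or.inl ?_)
    · exact (h2.neg.div_const 2)
    · exact_mod_cast Real.pi_ne_zero
  · have h4 : ContinuousAt Complex.Gamma ((1 / 2 + a + pt (3 / 2) t : ℂ) / 2) := by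
      refine (Complex.differentiableAt_Gamma _ fun m h => ?_).continuousAt
      rw [h] at h1
      simp at h1
      have : (0 : ℝ) ≤ m := Nat.cast_nonneg m
      linarith
    exact ContinuousAt.comp (f := fun t : ℝ => ((1 / 2 + a + pt (3 / 2) t : ℂ) / 2)) h4
      (h2.div_const 2)

lemma GG_bd (a : ℕ) : ∃ M : ℝ, ∀ t, ‖GG a t‖ ≤ M := by
  refine ⟨(Real.pi ^ (-((1 / 2 + a + 3 / 2) / 2) : ℝ) *
    Real.Gamma ((1 / 2 + a + 3 / 2) / 2)) ^ 2, fun t => ?_⟩
  unfold GG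
  rw [norm_pow]
  refine pow_le_pow_left₀ (norm_nonneg _) ?_ 2
  rw [Complex.Gammaℝ_def, norm_mul]
  have h2 : ((1 / 2 + a + pt (3 / 2) t : ℂ) / 2).re = (1 / 2 + a + 3 / 2) / 2 := by
    unfold pt
    simp
  have h3 : (-(1 / 2 + a + pt (3 / 2) t : ℂ) / 2).re = -((1 / 2 + a + 3 / 2) / 2) := by
    rw [← h2, ← Complex.neg_re]
    congr 1
    ring
  refine mul_le_mul ?_ ?_ (norm_nonneg _) (by positivity)
  · rw [Complex.norm_cpow_eq_rpow_re_of_pos Real.pi_pos, h3]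
  · rw [← h2]
    refine norm_Gamma_le ?_
    rw [h2]
    positivity

/-- the weight on the line -/
noncomputable def WW (a j : ℕ) (R : ℝ) (t : ℝ) : ℂ :=
  (R : ℂ) ^ (pt (3 / 2) t / 2) * GG a t * (EE (pt (3 / 2) t) / pt (3 / 2) t ^ (j + 1))

lemma WW_int (a j : ℕ) {R : ℝ} (hR : 0 < R) : Integrable (WW a j R) := by
  obtain ⟨M, hM⟩ := GG_bd a
  have hc : Continuous fun t : ℝ => (R : ℂ) ^ (pt (3 / 2) t / 2) * GG a t := by
    refine Continuous.mul ?_ (GG_cont a)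
    refine Continuous.const_cpow ((pt_cont _).div_const 2) (Or.inl ?_)
    exact_mod_cast hR.ne'
  refine (K_int (j + 1)).bdd_mul (c := R ^ (3 / 4 : ℝ) * M) hc.aestronglyMeasurable
    (Eventually.of_forall fun t => ?_)
  rw [norm_mul, Complex.norm_cpow_eq_rpow_re_of_pos hR]
  have h1 : (pt (3 / 2) t / 2).re = 3 / 4 := by
    unfold pt
    simp
    norm_num
  rw [h1]
  exact mul_le_mul_of_nonneg_left (hM t) (by positivity)

/-! ### Countability -/

theorem countable_ideals (K : Type) [Field K] [NumberField K] : Countable (Ideal (𝓞 K)) := by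
  have h1 : Countable K := (Module.finBasis ℚ K).equivFun.injective.countable
  have h2 : Countable (𝓞 K) := (FaithfulSMul.algebraMap_injective (𝓞 K) K).countable
  have h3 : Function.Surjective (fun s : Finset (𝓞 K) => Ideal.span (s : Set (𝓞 K))) := fun I =>
    (isNoetherian_def.1 inferInstance I)
  exact h3.countable

end Afe

open Afe MeasureTheory in
open Pool.Agent.R399.TW (pt pt_re pt_im pt_cont strip) in
theorem t_afe : S_afe := by
  intro K _ _ hK R a ψ X w ha hψ hX hw j v hj hv hvc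
  have hR : 0 < R := lt_of_lt_of_le one_pos hX.one_le
  have hR' : (R : ℂ) ≠ 0 := by exact_mod_cast hR.ne'
  -- the function
  obtain ⟨g, hg⟩ : ∃ g : ℂ → ℂ, g = fun z => X (1 / 2 + z) * EE z := ⟨_, rfl⟩
  have hXd : Differentiable ℂ fun z => X (1 / 2 + z) :=
    hX.diff.comp ((differentiable_const _).add differentiable_id)
  have hgd : Differentiable ℂ g := by
    rw [hg]
    exact hXd.mul EE_diff
  obtain ⟨C, hC0, hC⟩ := hX.strip (-1) 2
  have hgb : ∀ z ∈ strip (-3 / 2) (3 / 2), ‖g z‖ ≤ C * (3 + |z.im|) ^ 2 * ‖EE z‖ := by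
    intro z hz
    rw [hg]
    beta_reduce
    rw [norm_mul]
    refine mul_le_mul_of_nonneg_right ?_ (norm_nonneg _)
    have h1 : (1 / 2 + z : ℂ).re = 1 / 2 + z.re := by simp
    have h2 : (1 / 2 + z : ℂ).im = z.im := by simp
    refine (hC (1 / 2 + z) (by rw [h1]; linarith [hz.1]) (by rw [h1]; linarith [hz.2])).trans ?_
    refine mul_le_mul_of_nonneg_left ?_ hC0
    have h3 := Complex.norm_le_abs_re_add_abs_im (1 / 2 + z)
    rw [h1, h2] at h3
    have h5 : |1 / 2 + z.re| ≤ 2 := by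
      rw [abs_le]
      exact ⟨by linarith [hz.1], by linarith [hz.2]⟩
    have h6 : 0 ≤ 1 + ‖1 / 2 + z‖ := by positivity
    exact pow_le_pow_left₀ h6 (by linarith) 2
  have hgw : ∀ z, g (-z) = w * g z := by
    intro z
    rw [hg]
    beta_reduce
    rw [EE_neg]
    have h1 : (1 / 2 + -z : ℂ) = 1 - (1 / 2 + z) := by ring
    rw [h1, hw, mul_assoc]
  -- the left line
  have hleft : ∫ t : ℝ, g (pt (-3 / 2) t) / pt (-3 / 2) t ^ (j + 1) =
      w * (-1) ^ (j + 1) * ∫ t : ℝ, g (pt (3 / 2) t) / pt (3 / 2) t ^ (j + 1) := by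
    rw [← integral_neg_eq_self (fun t : ℝ => g (pt (3 / 2) t) / pt (3 / 2) t ^ (j + 1)),
      ← integral_const_mul]
    congr 1
    funext t
    rw [pt_neg, hgw, neg_pow (pt (3 / 2) (-t)) (j + 1)]
    rcases neg_one_pow_eq_or ℂ (j + 1) with h | h
    · rw [h, one_mul, mul_one, mul_div_assoc]
    · rw [h, neg_one_mul, div_neg, mul_div_assoc]
      ring
  -- the derivative
  have hres : 2 * Real.pi * iteratedDeriv j X (1 / 2) =
      (1 - w * (-1) ^ (j + 1)) * ∫ t : ℝ, g (pt (3 / 2) t) / pt (3 / 2) t ^ (j + 1) := by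
    have hX0 : g 0 = X (1 / 2) := by
      rw [hg]
      beta_reduce
      rw [add_zero, EE_zero, mul_one]
    rcases Nat.le_one_iff_eq_zero_or_eq_one.1 hj with rfl | rfl
    · have h1 := res0 hgd hC0 hgb
      rw [hleft] at h1
      rw [iteratedDeriv_zero, ← hX0, ← h1]
      ring
    · have h1 := res1 hgd hC0 hgb
      rw [hleft] at h1
      have h2 : deriv g 0 = deriv X (1 / 2) := by
        have e1 : HasDerivAt (fun z => X (1 / 2 + z)) (deriv X (1 / 2)) 0 := by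
          have e2 : HasDerivAt X (deriv X (1 / 2)) (1 / 2 + 0) := by
            rw [add_zero]
            exact (hX.diff (1 / 2)).hasDerivAt
          exact e2.comp_const_add (1 / 2) 0
        have e3 : HasDerivAt EE 0 0 := by
          have h3 := (EE_diff 0).hasDerivAt
          rwa [deriv_EE] at h3
        have e4 := e1.mul e3
        have e5 : HasDerivAt g (deriv X (1 / 2) * EE 0 + X (1 / 2 + 0) * 0) 0 := by
          rw [hg]
          exact e4
        rw [e5.deriv, EE_zero]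
        ring
      rw [iteratedDeriv_one, ← h2, ← h1]
      ring
  -- the right line
  have hcount := countable_ideals K
  obtain ⟨A, -, hA⟩ := Pool.Agent.Y772.DK.t_dirK K
  have hsum := (hA ψ hψ).1 2 (by norm_num)
  obtain ⟨F, hF⟩ : ∃ F : Ideal (𝓞 K) → ℝ → ℂ, F = fun 𝔞 t =>
      (ψ 𝔞 * ((Ideal.absNorm 𝔞 : ℕ) : ℂ) ^ (-(1 / 2 + pt (3 / 2) t))) * WW a j R t := ⟨_, rfl⟩
  have hnorm : ∀ 𝔞 t, ‖ψ 𝔞 * ((Ideal.absNorm 𝔞 : ℕ) : ℂ) ^ (-(1 / 2 + pt (3 / 2) t))‖ =
      ‖ψ 𝔞 * ((Ideal.absNorm 𝔞 : ℕ) : ℂ) ^ (-(2 : ℂ))‖ := by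
    intro 𝔞 t
    by_cases h0 : Ideal.absNorm 𝔞 = 0
    · have h1 : 𝔞 = 0 := by
        rw [Ideal.zero_eq_bot]
        exact Ideal.absNorm_eq_zero_iff.1 h0
      rw [h1, map_zero, zero_mul, zero_mul]
    · rw [norm_mul, norm_mul, Complex.norm_natCast_cpow_of_pos (Nat.pos_of_ne_zero h0),
        Complex.norm_natCast_cpow_of_pos (Nat.pos_of_ne_zero h0)]
      congr 2
      rw [Complex.neg_re, Complex.neg_re, Complex.add_re, pt_re]
      norm_num
  have hFi : ∀ 𝔞, Integrable (F 𝔞) := by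
    intro 𝔞
    rw [hF]
    by_cases h0 : Ideal.absNorm 𝔞 = 0
    · have h1 : ψ 𝔞 = 0 := by
        rw [Ideal.absNorm_eq_zero_iff.1 h0, ← Ideal.zero_eq_bot, map_zero]
      simp [h1]
    · refine (WW_int a j hR).bdd_mul
        (c := ‖ψ 𝔞 * ((Ideal.absNorm 𝔞 : ℕ) : ℂ) ^ (-(2 : ℂ))‖) ?_
        (Filter.Eventually.of_forall fun t => (hnorm 𝔞 t).le)
      refine Continuous.aestronglyMeasurable ?_
      refine continuous_const.mul (Continuous.const_cpow
        ((continuous_const.add (pt_cont _)).neg) (Or.inl ?_))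
      exact_mod_cast h0
  have hFs : Summable fun 𝔞 => ∫ t : ℝ, ‖F 𝔞 t‖ := by
    have h1 : (fun 𝔞 => ∫ t : ℝ, ‖F 𝔞 t‖) = fun 𝔞 =>
        ‖ψ 𝔞 * ((Ideal.absNorm 𝔞 : ℕ) : ℂ) ^ (-(2 : ℂ))‖ * ∫ t : ℝ, ‖WW a j R t‖ := by
      funext 𝔞
      rw [← integral_const_mul]
      congr 1
      funext t
      rw [hF]
      beta_reduce
      rw [norm_mul, hnorm]
    rw [h1]
    exact hsum.mul_right _
  have key := hasSum_integral_of_summable_integral_norm hFi hFs
  have e1 : ∀ t : ℝ, g (pt (3 / 2) t) / pt (3 / 2) t ^ (j + 1) =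
      (R : ℂ) ^ (1 / 4 : ℂ) * ∑' 𝔞, F 𝔞 t := by
    intro t
    have h1 : 1 < (1 / 2 + pt (3 / 2) t : ℂ).re := by
      rw [Complex.add_re, pt_re]
      norm_num
    have h2 : (R : ℂ) ^ ((1 / 2 + pt (3 / 2) t) / 2) =
        (R : ℂ) ^ (1 / 4 : ℂ) * (R : ℂ) ^ (pt (3 / 2) t / 2) := by
      rw [← Complex.cpow_add _ _ hR']
      congr 1
      ring
    rw [hF]
    simp only []
    rw [tsum_mul_right, hg]
    beta_reduce
    rw [hX.eq _ h1, h2]
    have h3 : (1 / 2 + pt (3 / 2) t + a : ℂ) = 1 / 2 + a + pt (3 / 2) t := by ring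
    rw [h3]
    unfold WW GG LI
    ring
  have e2 : ∀ 𝔞, ∫ t : ℝ, F 𝔞 t = ψ 𝔞 *
      (((Ideal.absNorm 𝔞 : ℝ) ^ (-(1 / 2) : ℝ) *
        v ((Ideal.absNorm 𝔞 : ℝ) / Real.sqrt R) : ℝ) : ℂ) := by
    intro 𝔞
    by_cases h0 : Ideal.absNorm 𝔞 = 0
    · have h1 : ψ 𝔞 = 0 := by
        rw [Ideal.absNorm_eq_zero_iff.1 h0, ← Ideal.zero_eq_bot, map_zero]
      rw [hF]
      simp [h1]
    · have hN : (0 : ℝ) < Ideal.absNorm 𝔞 := by exact_mod_cast Nat.pos_of_ne_zero h0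
      have hN' : ((Ideal.absNorm 𝔞 : ℕ) : ℂ) ≠ 0 := by exact_mod_cast h0
      have hy : 0 < (Ideal.absNorm 𝔞 : ℝ) / Real.sqrt R := div_pos hN (Real.sqrt_pos.2 hR)
      have h3 : ∀ t : ℝ, F 𝔞 t = (ψ 𝔞 * ((Ideal.absNorm 𝔞 : ℕ) : ℂ) ^ (-(1 / 2) : ℂ)) *
          (Complex.Gammaℝ (1 / 2 + a + (3 / 2 + t * I)) ^ 2 * cexp ((3 / 2 + t * I) ^ 2) *
            (((Ideal.absNorm 𝔞 : ℝ) / Real.sqrt R : ℝ) : ℂ) ^ (-(3 / 2 + t * I : ℂ)) /
              (3 / 2 + t * I) ^ (j + 1)) := by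
        intro t
        have hp : (3 / 2 + t * I : ℂ) = pt (3 / 2) t := by
          unfold pt
          push_cast
          ring
        rw [hp, hF]
        beta_reduce
        have h4 : (((Ideal.absNorm 𝔞 : ℝ) / Real.sqrt R : ℝ) : ℂ) ^ (-pt (3 / 2) t) =
            ((Ideal.absNorm 𝔞 : ℕ) : ℂ) ^ (-pt (3 / 2) t) * (R : ℂ) ^ (pt (3 / 2) t / 2) := by
          have h5 : ((Ideal.absNorm 𝔞 : ℝ) / Real.sqrt R) =
              (Ideal.absNorm 𝔞 : ℝ) * R ^ (-(1 / 2) : ℝ) := by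
            rw [Real.rpow_neg hR.le, ← Real.sqrt_eq_rpow, div_eq_mul_inv]
          rw [h5, Complex.ofReal_mul, Complex.mul_cpow_ofReal_nonneg hN.le (by positivity)]
          congr 1
          have h9 : 0 < R ^ (-(1 / 2) : ℝ) := by positivity
          have h10 : ((R ^ (-(1 / 2) : ℝ) : ℝ) : ℂ) ≠ 0 := by exact_mod_cast h9.ne'
          rw [Complex.cpow_def_of_ne_zero h10, Complex.cpow_def_of_ne_zero hR',
            ← Complex.ofReal_log h9.le, ← Complex.ofReal_log hR.le, Real.log_rpow hR]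
          congr 1
          push_cast
          ring
        have h6 : ((Ideal.absNorm 𝔞 : ℕ) : ℂ) ^ (-(1 / 2 + pt (3 / 2) t)) =
            ((Ideal.absNorm 𝔞 : ℕ) : ℂ) ^ (-(1 / 2) : ℂ) *
              ((Ideal.absNorm 𝔞 : ℕ) : ℂ) ^ (-pt (3 / 2) t) := by
          rw [← Complex.cpow_add _ _ hN']
          congr 1
          ring
        rw [h4, h6]
        unfold WW GG EE
        ring
      have h7 := hvc _ hy
      unfold vc at h7
      have h8 : (fun t : ℝ => F 𝔞 t) = fun t : ℝ => _ := funext h3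
      rw [h8, integral_const_mul, h7, mul_assoc]
      congr 1
      push_cast
      congr 1
      rw [Complex.ofReal_cpow hN.le]
      push_cast
      rfl
  unfold AA
  rw [hres]
  simp only [e1]
  rw [integral_const_mul, ← key.tsum_eq]
  simp only [e2]
  ring

end Pool.Agent.NH12.RS
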