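import Pool.Agent.NH12.RS.Stm

/-!
# Project RS: the data of a real quadratic field

Proof of `Pool.Agent.NH12.RS.S_base` (helper45).
-/

set_option autoImplicit false

open NumberField

namespace Pool.Agent.NH12.RS

namespace BaseP

variable {K : Type} [Field K] [NumberField K]

/-- a basis `1, ω` -/
theorem exists_omega (h2 : Module.finrank ℚ K = 2) :
    ∃ ω : 𝓞 K, (∀ x : 𝓞 K, ∃ a b : ℤ, x = a + b * ω) ∧
      ∀ a b : ℤ, (a : 𝓞 K) + b * ω = 0 → a = 0 ∧ b = 0 := by
  have hr : Module.finrank ℤ (𝓞 K) = 2 := by rw [RingOfIntegers.rank, h2]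
  let B : Module.Basis (Fin 2) ℤ (𝓞 K) := Module.finBasisOfFinrankEq ℤ (𝓞 K) hr
  have hrep : ∀ x : 𝓞 K, x = (B.repr x 0 : 𝓞 K) * B 0 + (B.repr x 1 : 𝓞 K) * B 1 := by
    intro x
    have := B.sum_repr x
    rw [Fin.sum_univ_two] at this
    rw [← zsmul_eq_mul, ← zsmul_eq_mul, this]
  have hind : ∀ a b : ℤ, (a : 𝓞 K) * B 0 + (b : 𝓞 K) * B 1 = 0 → a = 0 ∧ b = 0 := by
    intro a b h
    have hl := B.linearIndependent
    rw [Fintype.linearIndependent_iff] at hl
    have := hl ![a, b] (by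
      rw [Fin.sum_univ_two]
      simp only [Matrix.cons_val_zero, Matrix.cons_val_one]
      rw [zsmul_eq_mul, zsmul_eq_mul]
      exact h)
    exact ⟨this 0, this 1⟩
  set u := B.repr 1 0 with hu
  set v := B.repr 1 1 with hv
  have h1 : (1 : 𝓞 K) = (u : 𝓞 K) * B 0 + (v : 𝓞 K) * B 1 := hrep 1
  have hg : IsCoprime u v := by
    rw [Int.isCoprime_iff_gcd_eq_one]
    by_contra hne
    obtain ⟨u', hu'⟩ := Int.gcd_dvd_left u v
    obtain ⟨v', hv'⟩ := Int.gcd_dvd_right u v
    have hun : IsUnit ((Int.gcd u v : ℤ) : 𝓞 K) := by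
      refine IsUnit.of_mul_eq_one ((u' : 𝓞 K) * B 0 + (v' : 𝓞 K) * B 1) ?_
      have e1 : (u : 𝓞 K) = ((Int.gcd u v : ℤ) : 𝓞 K) * (u' : 𝓞 K) := by
        rw [← Int.cast_mul, ← hu']
      have e2 : (v : 𝓞 K) = ((Int.gcd u v : ℤ) : 𝓞 K) * (v' : 𝓞 K) := by
        rw [← Int.cast_mul, ← hv']
      rw [mul_add, ← mul_assoc, ← mul_assoc, ← e1, ← e2, ← h1]
    have hn := hun.map (Algebra.norm ℤ)
    rw [← eq_intCast (algebraMap ℤ (𝓞 K)), Algebra.norm_algebraMap] at hn
    have hn' : IsUnit ((Int.gcd u v : ℤ)) := isUnit_pow_iff (by rw [hr]; norm_num) |>.1 hn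
    rw [Int.isUnit_iff] at hn'
    rcases hn' with h | h
    · exact hne (by exact_mod_cast h)
    · have : (0 : ℤ) ≤ (Int.gcd u v : ℤ) := by positivity
      omega
  obtain ⟨s, t, hst⟩ := hg
  have hst' : (s : 𝓞 K) * u + t * v = 1 := by
    exact_mod_cast congrArg (Int.cast : ℤ → 𝓞 K) hst
  refine ⟨-t * B 0 + s * B 1, fun x => ?_, fun a b h => ?_⟩
  · refine ⟨B.repr x 0 * s + B.repr x 1 * t, B.repr x 1 * u - B.repr x 0 * v, ?_⟩
    push_cast
    have e0 : (s : 𝓞 K) - v * (-t * B 0 + s * B 1) = B 0 := by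
      have : (s : 𝓞 K) = s * 1 := (mul_one _).symm
      calc (s : 𝓞 K) - v * (-t * B 0 + s * B 1)
          = s * 1 - v * (-t * B 0 + s * B 1) := by rw [mul_one]
        _ = s * (u * B 0 + v * B 1) - v * (-t * B 0 + s * B 1) := by rw [← h1]
        _ = (s * u + t * v) * B 0 := by ring
        _ = B 0 := by rw [hst', one_mul]
    have e1 : (t : 𝓞 K) + u * (-t * B 0 + s * B 1) = B 1 := by
      calc (t : 𝓞 K) + u * (-t * B 0 + s * B 1)
          = t * 1 + u * (-t * B 0 + s * B 1) := by rw [mul_one]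
        _ = t * (u * B 0 + v * B 1) + u * (-t * B 0 + s * B 1) := by rw [← h1]
        _ = (s * u + t * v) * B 1 := by ring
        _ = B 1 := by rw [hst', one_mul]
    calc x = (B.repr x 0 : 𝓞 K) * B 0 + (B.repr x 1 : 𝓞 K) * B 1 := hrep x
      _ = (B.repr x 0 : 𝓞 K) * (s - v * (-t * B 0 + s * B 1)) +
            (B.repr x 1 : 𝓞 K) * (t + u * (-t * B 0 + s * B 1)) := by rw [e0, e1]
      _ = _ := by ring
  · have h' : ((a * u - b * t : ℤ) : 𝓞 K) * B 0 + ((a * v + b * s : ℤ) : 𝓞 K) * B 1 = 0 := by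
      push_cast
      calc ((a : 𝓞 K) * u - b * t) * B 0 + (a * v + b * s) * B 1
          = a * (u * B 0 + v * B 1) + b * (-t * B 0 + s * B 1) := by ring
        _ = a * 1 + b * (-t * B 0 + s * B 1) := by rw [← h1]
        _ = 0 := by rw [mul_one, h]
    obtain ⟨ha, hb⟩ := hind _ _ h'
    constructor
    · linear_combination (-a) * hst + s * ha + t * hb
    · linear_combination (-b) * hst + u * hb - v * ha

/-- the nontrivial automorphism over `ℚ` -/
theorem gal (h2 : Module.finrank ℚ K = 2) (σ' : K ≃+* K) (hσ : ∃ x, σ' x ≠ x) :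
    (∀ x, σ' (σ' x) = x) ∧ (∀ x, σ' x = x → ∃ r : ℚ, (r : K) = x) ∧
    (∀ x, ((Algebra.norm ℚ x : ℚ) : K) = x * σ' x) ∧
    (∀ x, ((Algebra.trace ℚ K x : ℚ) : K) = x + σ' x) := by
  classical
  let φ : K ≃ₐ[ℚ] K := AlgEquiv.ofRingEquiv (f := σ') (fun r => by
    rw [eq_ratCast, map_ratCast])
  have hφ : ∀ x, φ x = σ' x := fun x => rfl
  have : Algebra.IsQuadraticExtension ℚ K := ⟨h2⟩
  have : IsGalois ℚ K := inferInstance
  have hcard : Nat.card (K ≃ₐ[ℚ] K) = 2 := by rw [IsGalois.card_aut_eq_finrank, h2]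
  have hne : φ ≠ 1 := by
    intro h
    obtain ⟨x, hx⟩ := hσ
    apply hx
    rw [← hφ, h]
    rfl
  have huniv : (Finset.univ : Finset (K ≃ₐ[ℚ] K)) = {1, φ} := by
    symm
    apply Finset.eq_of_subset_of_card_le (Finset.subset_univ _)
    rw [Finset.card_univ, ← Nat.card_eq_fintype_card, hcard, Finset.card_pair hne.symm]
  have hφ2 : φ * φ = 1 := by
    have := pow_card_eq_one' (x := φ)
    rwa [hcard, pow_two] at this
  refine ⟨fun x => ?_, fun x hx => ?_, fun x => ?_, fun x => ?_⟩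
  · have := congrArg (fun f : K ≃ₐ[ℚ] K => f x) hφ2
    exact this
  · have := (IsGalois.mem_bot_iff_fixed (F := ℚ) (E := K) x).2 (fun f => by
      have hf : f ∈ (Finset.univ : Finset (K ≃ₐ[ℚ] K)) := Finset.mem_univ _
      rw [huniv, Finset.mem_insert, Finset.mem_singleton] at hf
      rcases hf with rfl | rfl
      · rfl
      · exact hx)
    obtain ⟨r, hr⟩ := IntermediateField.mem_bot.1 this
    exact ⟨r, by rw [← hr, eq_ratCast]⟩
  · have := Algebra.norm_eq_prod_automorphisms ℚ x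
    rw [huniv, Finset.prod_pair hne.symm, eq_ratCast] at this
    exact this
  · have := trace_eq_sum_automorphisms (K := ℚ) x
    rw [huniv, Finset.sum_pair hne.symm, eq_ratCast] at this
    exact this

/-- the fundamental unit -/
theorem exists_unit [IsTotallyReal K] (h2 : Module.finrank ℚ K = 2) (τ : 𝓞 K →+* ℝ)
    (hτ : Function.Injective τ) :
    ∃ ε : (𝓞 K)ˣ, (∀ u : (𝓞 K)ˣ, ∃ k : ℤ, u = ε ^ k ∨ u = -ε ^ k) ∧ 1 < τ ε := by
  have hr : Units.rank K = 1 := by
    rw [Units.rank, InfinitePlace.card_eq_nrRealPlaces_add_nrComplexPlaces,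
      IsTotallyReal.nrComplexPlaces_eq_zero, add_zero, ← IsTotallyReal.finrank, h2]
  have htor : ∀ ζ : (𝓞 K)ˣ, ζ ∈ Units.torsion K → ζ = 1 ∨ ζ = -1 := by
    intro ζ hζ
    rw [Units.torsion, CommGroup.mem_torsion, isOfFinOrder_iff_pow_eq_one] at hζ
    obtain ⟨n, hn, h⟩ := hζ
    have h' : (τ ζ) ^ n = 1 := by
      rw [← map_pow, ← Units.val_pow_eq_pow_val, h, Units.val_one, map_one]
    have hab : |τ ζ| = 1 := by
      have : |τ ζ| ^ n = 1 := by rw [← abs_pow, h', abs_one]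
      exact (pow_eq_one_iff_of_nonneg (abs_nonneg _) hn.ne').1 this
    rcases eq_or_eq_neg_of_abs_eq hab with h | h
    · left
      apply Units.ext
      apply hτ
      rw [h, Units.val_one, map_one]
    · right
      apply Units.ext
      apply hτ
      rw [h, Units.val_neg, Units.val_one, map_neg, map_one]
  let i0 : Fin (Units.rank K) := ⟨0, by rw [hr]; norm_num⟩
  let _ : Unique (Fin (Units.rank K)) := by
    rw [hr]; infer_instance
  have hi0 : ∀ i, i = i0 := fun i => Subsingleton.elim _ _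
  set u₀ : (𝓞 K)ˣ := Units.fundSystem K i0 with hu₀
  have hgen : ∀ u : (𝓞 K)ˣ, ∃ k : ℤ, u = u₀ ^ k ∨ u = -u₀ ^ k := by
    intro u
    obtain ⟨⟨ζ, e⟩, he, -⟩ := Units.exist_unique_eq_mul_prod K u
    refine ⟨e i0, ?_⟩
    have hp : ∏ i, (Units.fundSystem K i) ^ (e i) = u₀ ^ (e i0) := by
      rw [Fintype.prod_unique]
      rw [hi0 default]
    rw [hp] at he
    rcases htor ζ.1 ζ.2 with h | h
    · left; rw [he]; simp only [h, one_mul]
    · right; rw [he]; simp only [h, neg_mul, one_mul]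
  have hnt : ¬ (u₀ ∈ Units.torsion K) := by
    intro hmem
    obtain ⟨ζe, -, huni⟩ := Units.exist_unique_eq_mul_prod K u₀
    have a1 := huni (⟨u₀, hmem⟩, fun _ => 0) (by simp)
    have a2 := huni (1, fun _ => 1) (by
      simp only [Fintype.prod_unique, zpow_one, OneMemClass.coe_one, one_mul]
      rw [hi0 default])
    have a3 := a1.trans a2.symm
    have a4 := congrFun (congrArg Prod.snd a3) i0
    simp at a4
  have hne0 : τ u₀ ≠ 0 := by
    intro h
    have : (u₀ : 𝓞 K) = 0 := hτ (by rw [h, map_zero])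
    exact u₀.ne_zero this
  have hne1 : |τ u₀| ≠ 1 := by
    intro hab
    apply hnt
    rcases eq_or_eq_neg_of_abs_eq hab with h | h
    · have : u₀ = 1 := by
        apply Units.ext
        apply hτ
        rw [h, Units.val_one, map_one]
      rw [this]
      exact one_mem _
    · have : u₀ = -1 := by
        apply Units.ext
        apply hτ
        rw [h, Units.val_neg, Units.val_one, map_neg, map_one]
      rw [this, Units.torsion, CommGroup.mem_torsion, isOfFinOrder_iff_pow_eq_one]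
      exact ⟨2, by norm_num, by simp⟩
  have hinv : τ ((u₀⁻¹ : (𝓞 K)ˣ) : 𝓞 K) = (τ u₀)⁻¹ := by
    apply eq_inv_of_mul_eq_one_left
    rw [← map_mul, ← Units.val_mul, inv_mul_cancel, Units.val_one, map_one]
  rcases lt_or_gt_of_ne hne1 with hlt | hgt
  · have h1 : 1 < |(τ u₀)⁻¹| := by
      rw [abs_inv]
      exact one_lt_inv_iff₀.2 ⟨abs_pos.2 hne0, hlt⟩
    rcases lt_or_gt_of_ne hne0 with hs | hs
    · refine ⟨-u₀⁻¹, fun u => ?_, ?_⟩
      · obtain ⟨k, hk⟩ := hgen u
        refine ⟨-k, ?_⟩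
        have e : (-u₀⁻¹ : (𝓞 K)ˣ) ^ (-k) = u₀ ^ k ∨ (-u₀⁻¹ : (𝓞 K)ˣ) ^ (-k) = -u₀ ^ k := by
          rcases Int.even_or_odd (-k) with he | ho
          · left; rw [he.neg_zpow, inv_zpow', neg_neg]
          · right; rw [ho.neg_zpow, inv_zpow', neg_neg]
        rcases e with e | e <;> rw [e]
        · exact hk
        · rw [neg_neg]; exact hk.symm
      · rw [Units.val_neg, map_neg, hinv]
        rwa [abs_of_neg (inv_lt_zero.2 hs)] at h1
    · refine ⟨u₀⁻¹, fun u => ?_, ?_⟩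
      · obtain ⟨k, hk⟩ := hgen u
        refine ⟨-k, ?_⟩
        rw [inv_zpow', neg_neg]
        exact hk
      · rw [hinv]
        rwa [abs_of_pos (inv_pos.2 hs)] at h1
  · rcases lt_or_gt_of_ne hne0 with hs | hs
    · refine ⟨-u₀, fun u => ?_, ?_⟩
      · obtain ⟨k, hk⟩ := hgen u
        refine ⟨k, ?_⟩
        rcases Int.even_or_odd k with he | ho
        · rw [he.neg_zpow]; exact hk
        · rw [ho.neg_zpow, neg_neg]; exact hk.symm
      · rw [Units.val_neg, map_neg]
        rwa [abs_of_neg hs] at hgt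
    · refine ⟨u₀, hgen, ?_⟩
      rwa [abs_of_pos hs] at hgt

open Polynomial in
/-- the different -/
theorem different (ω : 𝓞 K) (σ : 𝓞 K ≃+* 𝓞 K)
    (hb : ∀ x : 𝓞 K, ∃ a b : ℤ, x = a + b * ω)
    (hi : ∀ a b : ℤ, (a : 𝓞 K) + b * ω = 0 → a = 0 ∧ b = 0) (t n : ℤ)
    (ht : (t : 𝓞 K) = ω + σ ω) (hn : (n : 𝓞 K) = ω * σ ω) :
    differentIdeal ℤ (𝓞 K) = Ideal.span {ω - σ ω} := by
  have hmin : (X ^ 2 - C t * X + C n : ℤ[X]) = minpoly ℤ ω := by
    have hdeg : (X ^ 2 - C t * X + C n : ℤ[X]).degree = 2 := by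
      compute_degree!
    apply minpoly.unique'
    · monicity!
    · simp only [map_add, map_sub, map_mul, map_pow, aeval_X, eq_intCast, map_intCast]
      rw [ht, hn]
      ring
    · intro q hq
      rw [hdeg] at hq
      have hq' : q.degree ≤ 1 := by
        have := Polynomial.degree_lt_iff_coeff_zero q 2 |>.1 (by exact_mod_cast hq)
        rw [Polynomial.degree_le_iff_coeff_zero]
        intro m hm
        exact this m (by
          have : (1 : WithBot ℕ) < (m : WithBot ℕ) := hm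
          have h1 : 1 < m := by exact_mod_cast this
          omega)
      rw [Polynomial.eq_X_add_C_of_degree_le_one hq']
      by_cases h0 : (C (q.coeff 1) * X + C (q.coeff 0) : ℤ[X]) = 0
      · exact Or.inl h0
      right
      intro h
      apply h0
      simp only [map_add, map_mul, aeval_X, eq_intCast, map_intCast] at h
      obtain ⟨h1, h2⟩ := hi (q.coeff 0) (q.coeff 1) (by rw [add_comm]; exact h)
      rw [h1, h2]
      simp
  have hadj : Algebra.adjoin ℚ {algebraMap (𝓞 K) K ω} = ⊤ := by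
    rw [eq_top_iff]
    intro x _
    have hx : IsAlgebraic ℤ x := by
      have : IsAlgebraic ℚ x := Algebra.IsAlgebraic.isAlgebraic x
      exact (IsFractionRing.isAlgebraic_iff ℤ ℚ K).2 this
    obtain ⟨y, hy, hint⟩ := hx.exists_integral_multiple
    obtain ⟨a, b, hab⟩ := hb ⟨y • x, hint⟩
    have h1 : y • x = (a : K) + b * algebraMap (𝓞 K) K ω := by
      have := congrArg (algebraMap (𝓞 K) K) hab
      rw [map_add, map_mul, map_intCast, map_intCast] at this
      exact this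
    have h2 : x = ((y : ℚ)⁻¹) • ((a : K) + b * algebraMap (𝓞 K) K ω) := by
      rw [← h1, zsmul_eq_mul, Algebra.smul_def, eq_ratCast, Rat.cast_inv, Rat.cast_intCast,
        inv_mul_cancel_left₀]
      exact_mod_cast hy
    rw [h2]
    apply Subalgebra.smul_mem
    apply add_mem (intCast_mem _ _)
    exact mul_mem (intCast_mem _ _) (Algebra.subset_adjoin rfl)
  have hcond : conductor ℤ ω = ⊤ := by
    apply conductor_eq_top_of_adjoin_eq_top
    rw [eq_top_iff]
    intro x _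
    obtain ⟨a, b, rfl⟩ := hb x
    apply add_mem (intCast_mem _ _)
    exact mul_mem (intCast_mem _ _) (Algebra.subset_adjoin rfl)
  have := conductor_mul_differentIdeal ℤ ℚ K ω hadj
  rw [hcond, Ideal.top_mul] at this
  rw [this, ← hmin]
  congr 1
  have hd : derivative (X ^ 2 - C t * X + C n : ℤ[X]) = C 2 * X - C t := by
    simp only [derivative_add, derivative_sub, derivative_mul, derivative_C, derivative_X,
      derivative_X_pow, zero_mul, zero_add, mul_one, add_zero, Nat.cast_ofNat,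
      Nat.add_one_sub_one, pow_one]
  rw [hd]
  simp only [map_sub, map_mul, aeval_X, eq_intCast, map_intCast, ht]
  congr 1
  push_cast
  ring

end BaseP

theorem t_base : S_base := by
  intro K _ _ _ h2 σ' hσ
  obtain ⟨hinv, hfix, hnorm, htrace⟩ := BaseP.gal h2 σ' hσ
  obtain ⟨ω, hb, hi⟩ := BaseP.exists_omega h2
  let σ : 𝓞 K ≃+* 𝓞 K := RingOfIntegers.mapRingEquiv σ'
  have hσc : ∀ x : 𝓞 K, ((σ x : 𝓞 K) : K) = σ' (x : K) := fun x => rfl
  have hσσ : ∀ x, σ (σ x) = x := fun x => RingOfIntegers.ext (by rw [hσc, hσc, hinv])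
  have hσn : ∀ x : 𝓞 K, ((Algebra.norm ℤ x : ℤ) : 𝓞 K) = x * σ x := by
    intro x
    apply RingOfIntegers.ext
    have h1 : ((Algebra.norm ℤ x : ℤ) : K) = ((x : K) * σ' (x : K)) := by
      rw [← hnorm, ← Algebra.coe_norm_int, Rat.cast_intCast]
    have h2 : (((x * σ x : 𝓞 K)) : K) = (x : K) * ((σ x : 𝓞 K) : K) := rfl
    rw [h2, hσc, ← h1]
    exact map_intCast (algebraMap (𝓞 K) K) _
  have hσt : ∀ x : 𝓞 K, ((Algebra.trace ℤ (𝓞 K) x : ℤ) : 𝓞 K) = x + σ x := by
    intro x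
    apply RingOfIntegers.ext
    have h1 : ((Algebra.trace ℤ (𝓞 K) x : ℤ) : K) = ((x : K) + σ' (x : K)) := by
      rw [← htrace, ← Algebra.coe_trace_int, Rat.cast_intCast]
    have h2 : (((x + σ x : 𝓞 K)) : K) = (x : K) + ((σ x : 𝓞 K) : K) := rfl
    rw [h2, hσc, ← h1]
    exact map_intCast (algebraMap (𝓞 K) K) _
  have hσf : ∀ x : 𝓞 K, σ x = x → ∃ a : ℤ, x = a := by
    intro x hx
    obtain ⟨r, hr⟩ := hfix (x : K) (by rw [← hσc, hx])
    have hint : IsIntegral ℤ (algebraMap ℚ K r) := by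
      rw [eq_ratCast, hr]
      exact RingOfIntegers.isIntegral_coe x
    rw [isIntegral_algebraMap_iff (algebraMap ℚ K).injective] at hint
    obtain ⟨a, ha⟩ := IsIntegrallyClosed.isIntegral_iff.1 hint
    refine ⟨a, RingOfIntegers.ext ?_⟩
    rw [← hr, ← ha, eq_intCast, Rat.cast_intCast]
    exact (map_intCast (algebraMap (𝓞 K) K) _).symm
  obtain ⟨w⟩ := (inferInstance : Nonempty (InfinitePlace K))
  let τ : 𝓞 K →+* ℝ := (Pool.Agent.Y773.rl w).comp (algebraMap (𝓞 K) K)
  have hτ : Function.Injective τ :=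
    (Pool.Agent.Y773.rl w).injective.comp RingOfIntegers.coe_injective
  obtain ⟨ε, hu, hlt⟩ := BaseP.exists_unit h2 τ hτ
  have hne : τ (ω - σ ω) ≠ 0 := by
    intro h
    have h' : ω - σ ω = 0 := hτ (by rw [h, map_zero])
    obtain ⟨a, ha⟩ := hσf ω (sub_eq_zero.1 h').symm
    have := (hi (-a) 1 (by rw [ha]; push_cast; ring)).2
    exact one_ne_zero this
  -- choose the sign
  have key : ∃ ω' : 𝓞 K, (∀ x : 𝓞 K, ∃ a b : ℤ, x = a + b * ω') ∧
      (∀ a b : ℤ, (a : 𝓞 K) + b * ω' = 0 → a = 0 ∧ b = 0) ∧ 0 < τ (ω' - σ ω') := by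
    rcases lt_or_gt_of_ne hne with h | h
    · refine ⟨-ω, fun x => ?_, fun a b hab => ?_, ?_⟩
      · obtain ⟨a, b, hx⟩ := hb x
        exact ⟨a, -b, by rw [hx]; push_cast; ring⟩
      · obtain ⟨h1, h2⟩ := hi a (-b) (by rw [← hab]; push_cast; ring)
        exact ⟨h1, by linarith⟩
      · rw [map_neg, ← neg_sub', map_neg]
        linarith
    · exact ⟨ω, hb, hi, h⟩
  obtain ⟨ω', hb', hi', hpos⟩ := key
  refine ⟨{ σ := σ, ω := ω', τ := τ, ε := ε, inv := hσσ, fix := hσf, basis := hb', indep := hi',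
            norm := hσn, trace := hσt, inj := hτ, diff := ?_, pos := hpos, unit := hu,
            one_lt := hlt }, fun x => rfl⟩
  exact BaseP.different ω' σ hb' hi' (Algebra.trace ℤ (𝓞 K) ω') (Algebra.norm ℤ ω') (hσt ω')
    (hσn ω')

end Pool.Agent.NH12.RS
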