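import Pool.Agent.NH12.RS.Stm2

/-!
# Project RS, BOX: points of a plane lattice in a box
-/

set_option autoImplicit false

namespace Pool.Agent.NH12.RS

/-- separated values in an interval -/
lemma sep68 {α : Type*} (T : Finset α) (g : α → ℝ) (D L : ℝ) (hD : 0 < D) (hL : 0 ≤ L)
    (h1 : ∀ x ∈ T, ∀ y ∈ T, x ≠ y → D ≤ |g x - g y|)
    (h2 : ∀ x ∈ T, ∀ y ∈ T, |g x - g y| ≤ L) : (T.card : ℝ) ≤ 1 + L / D := by
  classical
  rcases T.eq_empty_or_nonempty with rfl | hne
  · simp only [Finset.card_empty, Nat.cast_zero]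
    positivity
  obtain ⟨a, ha, hmin⟩ := Finset.exists_min_image T g hne
  have hcard : T.card ≤ (Finset.range (⌊L / D⌋₊ + 1)).card := by
    apply Finset.card_le_card_of_injOn (fun x => ⌊(g x - g a) / D⌋₊)
    · intro x hx
      have hx' : x ∈ T := hx
      simp only [Finset.coe_range, Set.mem_Iio]
      apply Nat.lt_succ_of_le
      apply Nat.floor_le_floor
      apply div_le_div_of_nonneg_right _ hD.le
      exact (le_abs_self _).trans (h2 x hx' a ha)
    · intro x hx y hy hxy
      have hx' : x ∈ T := hx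
      have hy' : y ∈ T := hy
      by_contra hne'
      have h3 := h1 x hx' y hy' hne'
      have hx0 : 0 ≤ (g x - g a) / D := div_nonneg (by linarith [hmin x hx']) hD.le
      have hy0 : 0 ≤ (g y - g a) / D := div_nonneg (by linarith [hmin y hy']) hD.le
      have e1 := Nat.floor_le hx0
      have e2 := Nat.lt_floor_add_one ((g x - g a) / D)
      have e3 := Nat.floor_le hy0
      have e4 := Nat.lt_floor_add_one ((g y - g a) / D)
      have hxy' : ⌊(g x - g a) / D⌋₊ = ⌊(g y - g a) / D⌋₊ := hxy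
      rw [hxy'] at e1 e2
      have h4 : |(g x - g a) / D - (g y - g a) / D| < 1 := by
        rw [abs_lt]
        constructor <;> linarith
      have h5 : (g x - g a) / D - (g y - g a) / D = (g x - g y) / D := by ring
      rw [h5, abs_div, abs_of_pos hD, div_lt_one hD] at h4
      linarith
  rw [Finset.card_range] at hcard
  have h6 : (T.card : ℝ) ≤ (⌊L / D⌋₊ : ℝ) + 1 := by exact_mod_cast hcard
  have h7 := Nat.floor_le (div_nonneg hL hD.le)
  linarith

/-- the scaled norm -/
noncomputable def nm68 (P Q : ℝ) (v : ℝ × ℝ) : ℝ := max (|v.1| / P) (|v.2| / Q)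

lemma fib68 (P Q : ℝ) (hP : 0 < P) (hQ : 0 < Q) (v : ℝ × ℝ) (hv : 0 < nm68 P Q v)
    (F : Finset (ℝ × ℝ))
    (h1 : ∀ w ∈ F, ∀ w' ∈ F, v.1 * (w - w').2 = v.2 * (w - w').1)
    (hmin : ∀ w ∈ F, ∀ w' ∈ F, w ≠ w' → nm68 P Q v ≤ nm68 P Q (w - w'))
    (hb : ∀ w ∈ F, |w.1| ≤ P ∧ |w.2| ≤ Q) : (F.card : ℝ) ≤ 1 + 2 / nm68 P Q v := by
  rcases le_total (|v.2| / Q) (|v.1| / P) with hc | hc
  · have hl : nm68 P Q v = |v.1| / P := max_eq_left hc
    have hv1 : |v.1| = nm68 P Q v * P := by rw [hl]; field_simp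
    have hv1pos : 0 < |v.1| := by rw [hv1]; positivity
    have hk := sep68 F (fun w => w.1) (nm68 P Q v * P) (2 * P) (by positivity) (by positivity)
      (by
        intro w hw w' hw' hne
        have h2 := hmin w hw w' hw' hne
        have h3 := h1 w hw w' hw'
        have h4 : |(w - w').2| / Q ≤ |(w - w').1| / P := by
          rw [div_le_div_iff₀ hQ hP]
          rw [div_le_div_iff₀ hQ hP] at hc
          have h5 : |v.1| * |(w - w').2| = |v.2| * |(w - w').1| := by
            rw [← abs_mul, ← abs_mul, h3]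
          have h6 : |v.1| * (|(w - w').2| * P) ≤ |v.1| * (|(w - w').1| * Q) := by
            calc |v.1| * (|(w - w').2| * P) = (|v.1| * |(w - w').2|) * P := by ring
              _ = (|v.2| * P) * |(w - w').1| := by rw [h5]; ring
              _ ≤ (|v.1| * Q) * |(w - w').1| :=
                mul_le_mul_of_nonneg_right hc (abs_nonneg _)
              _ = |v.1| * (|(w - w').1| * Q) := by ring
          exact le_of_mul_le_mul_left h6 hv1pos
        have h7 : nm68 P Q (w - w') = |(w - w').1| / P := max_eq_left h4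
        rw [h7, le_div_iff₀ hP] at h2
        exact h2)
      (by
        intro w hw w' hw'
        have h2 := (hb w hw).1
        have h3 := (hb w' hw').1
        calc |w.1 - w'.1| ≤ |w.1| + |w'.1| := abs_sub _ _
          _ ≤ 2 * P := by linarith)
    calc (F.card : ℝ) ≤ 1 + 2 * P / (nm68 P Q v * P) := hk
      _ = 1 + 2 / nm68 P Q v := by
        rw [mul_div_mul_right _ _ hP.ne']
  · have hl : nm68 P Q v = |v.2| / Q := max_eq_right hc
    have hv1 : |v.2| = nm68 P Q v * Q := by rw [hl]; field_simp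
    have hv1pos : 0 < |v.2| := by rw [hv1]; positivity
    have hk := sep68 F (fun w => w.2) (nm68 P Q v * Q) (2 * Q) (by positivity) (by positivity)
      (by
        intro w hw w' hw' hne
        have h2 := hmin w hw w' hw' hne
        have h3 := h1 w hw w' hw'
        have h4 : |(w - w').1| / P ≤ |(w - w').2| / Q := by
          rw [div_le_div_iff₀ hP hQ]
          rw [div_le_div_iff₀ hP hQ] at hc
          have h5 : |v.1| * |(w - w').2| = |v.2| * |(w - w').1| := by
            rw [← abs_mul, ← abs_mul, h3]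
          have h6 : |v.2| * (|(w - w').1| * Q) ≤ |v.2| * (|(w - w').2| * P) := by
            calc |v.2| * (|(w - w').1| * Q) = (|v.2| * |(w - w').1|) * Q := by ring
              _ = (|v.1| * Q) * |(w - w').2| := by rw [← h5]; ring
              _ ≤ (|v.2| * P) * |(w - w').2| :=
                mul_le_mul_of_nonneg_right hc (abs_nonneg _)
              _ = |v.2| * (|(w - w').2| * P) := by ring
          exact le_of_mul_le_mul_left h6 hv1pos
        have h7 : nm68 P Q (w - w') = |(w - w').2| / Q := max_eq_right h4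
        rw [h7, le_div_iff₀ hQ] at h2
        exact h2)
      (by
        intro w hw w' hw'
        have h2 := (hb w hw).2
        have h3 := (hb w' hw').2
        calc |w.2 - w'.2| ≤ |w.2| + |w'.2| := abs_sub _ _
          _ ≤ 2 * Q := by linarith)
    calc (F.card : ℝ) ≤ 1 + 2 * Q / (nm68 P Q v * Q) := hk
      _ = 1 + 2 / nm68 P Q v := by
        rw [mul_div_mul_right _ _ hQ.ne']

theorem t_box : S_box := by
  classical
  intro Λ P Q D hP hQ hD hdet T hT hxy
  obtain ⟨x, hx, y, hy, hxyd⟩ := hxy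
  -- add zero
  obtain ⟨T', hT'⟩ : ∃ T', T' = insert (0 : ℝ × ℝ) T := ⟨_, rfl⟩
  have hsub : T ⊆ T' := by
    rw [hT']
    exact Finset.subset_insert _ _
  have hT'' : ∀ t ∈ T', t ∈ Λ ∧ |t.1| ≤ P ∧ |t.2| ≤ Q := by
    intro t ht
    rw [hT', Finset.mem_insert] at ht
    rcases ht with rfl | ht
    · exact ⟨Λ.zero_mem, by simpa using hP.le, by simpa using hQ.le⟩
    · exact hT t ht
  have h0 : (0 : ℝ × ℝ) ∈ T' := by rw [hT']; exact Finset.mem_insert_self _ _
  have hx0 : x ≠ 0 := by
    rintro rfl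
    apply hxyd
    simp
  obtain ⟨𝒟, h𝒟⟩ : ∃ 𝒟, 𝒟 = T'.offDiag.image (fun p : (ℝ × ℝ) × (ℝ × ℝ) => p.1 - p.2) :=
    ⟨_, rfl⟩
  have hmem : ∀ w ∈ T', ∀ w' ∈ T', w ≠ w' → w - w' ∈ 𝒟 := by
    intro w hw w' hw' hne
    rw [h𝒟, Finset.mem_image]
    exact ⟨(w, w'), Finset.mem_offDiag.mpr ⟨hw, hw', hne⟩, rfl⟩
  have hx𝒟 : x ∈ 𝒟 := by
    have := hmem x (hsub hx) 0 h0 hx0
    rwa [sub_zero] at this
  obtain ⟨v, hv, hmin⟩ := Finset.exists_min_image 𝒟 (nm68 P Q) ⟨x, hx𝒟⟩
  have hvΛ : v ∈ Λ ∧ v ≠ 0 := by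
    rw [h𝒟, Finset.mem_image] at hv
    obtain ⟨⟨w, w'⟩, hw, rfl⟩ := hv
    rw [Finset.mem_offDiag] at hw
    exact ⟨Λ.sub_mem (hT'' _ hw.1).1 (hT'' _ hw.2.1).1, sub_ne_zero.mpr hw.2.2⟩
  obtain ⟨l, hl⟩ : ∃ l, l = nm68 P Q v := ⟨_, rfl⟩
  have hlpos : 0 < l := by
    rw [hl]
    by_contra hcon
    rw [not_lt] at hcon
    have e1 : |v.1| / P ≤ 0 := (le_max_left _ _).trans hcon
    have e2 : |v.2| / Q ≤ 0 := (le_max_right _ _).trans hcon
    rw [div_le_iff₀ hP, zero_mul] at e1
    rw [div_le_iff₀ hQ, zero_mul] at e2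
    apply hvΛ.2
    exact Prod.ext (abs_nonpos_iff.mp e1) (abs_nonpos_iff.mp e2)
  have hl1 : l ≤ 1 := by
    rw [hl]
    refine (hmin x hx𝒟).trans ?_
    have := hT x hx
    apply max_le
    · rw [div_le_one hP]
      exact this.2.1
    · rw [div_le_one hQ]
      exact this.2.2
  have hv1 : |v.1| ≤ l * P := by
    rw [hl, ← div_le_iff₀ hP]
    exact le_max_left _ _
  have hv2 : |v.2| ≤ l * Q := by
    rw [hl, ← div_le_iff₀ hQ]
    exact le_max_right _ _
  obtain ⟨f, hf⟩ : ∃ f : ℝ × ℝ → ℝ, f = fun w => v.1 * w.2 - v.2 * w.1 := ⟨_, rfl⟩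
  have hfb : ∀ w ∈ T', |f w| ≤ 2 * l * P * Q := by
    intro w hw
    have h1 := (hT'' w hw).2
    rw [hf]
    calc |v.1 * w.2 - v.2 * w.1| ≤ |v.1 * w.2| + |v.2 * w.1| := abs_sub _ _
      _ = |v.1| * |w.2| + |v.2| * |w.1| := by rw [abs_mul, abs_mul]
      _ ≤ (l * P) * Q + (l * Q) * P := by
        apply add_le_add
        · exact mul_le_mul hv1 h1.2 (abs_nonneg _) (by positivity)
        · exact mul_le_mul hv2 h1.1 (abs_nonneg _) (by positivity)
      _ = _ := by ring
  have hfΛ : ∀ w ∈ Λ, f w ≠ 0 → D ≤ |f w| := by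
    intro w hw hne
    rw [hf] at hne ⊢
    exact hdet v hvΛ.1 w hw hne
  have hfs : ∀ w w' : ℝ × ℝ, f w - f w' = f (w - w') := by
    intro w w'
    simp only [hf, Prod.fst_sub, Prod.snd_sub]
    ring
  -- the values
  have hvals : (((T'.image f).card : ℕ) : ℝ) ≤ 1 + 4 * l * P * Q / D := by
    have := sep68 (T'.image f) id D (4 * l * P * Q) hD (by positivity)
      (by
        intro a ha b hb hab
        rw [Finset.mem_image] at ha hb
        obtain ⟨w, hw, rfl⟩ := ha
        obtain ⟨w', hw', rfl⟩ := hb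
        simp only [id]
        rw [hfs]
        apply hfΛ _ (Λ.sub_mem (hT'' _ hw).1 (hT'' _ hw').1)
        rw [← hfs]
        exact sub_ne_zero.mpr hab)
      (by
        intro a ha b hb
        rw [Finset.mem_image] at ha hb
        obtain ⟨w, hw, rfl⟩ := ha
        obtain ⟨w', hw', rfl⟩ := hb
        simp only [id]
        calc |f w - f w'| ≤ |f w| + |f w'| := abs_sub _ _
          _ ≤ 4 * l * P * Q := by linarith [hfb w hw, hfb w' hw'])
    exact this
  have hfib : ∀ a ∈ T'.image f, (T'.filter (fun w => f w = a)).card ≤ ⌊1 + 2 / l⌋₊ := by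
    intro a _
    apply Nat.le_floor
    rw [hl]
    apply fib68 P Q hP hQ v (hl ▸ hlpos)
    · intro w hw w' hw'
      rw [Finset.mem_filter] at hw hw'
      have h1 : f (w - w') = 0 := by rw [← hfs, hw.2, hw'.2, sub_self]
      rw [hf] at h1
      exact sub_eq_zero.mp h1
    · intro w hw w' hw' hne
      rw [Finset.mem_filter] at hw hw'
      exact hmin _ (hmem w hw.1 w' hw'.1 hne)
    · intro w hw
      rw [Finset.mem_filter] at hw
      exact (hT'' w hw.1).2
  have hmul := Finset.card_le_mul_card_image T' _ hfib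
  have hcard : (T'.card : ℝ) ≤ (1 + 2 / l) * (1 + 4 * l * P * Q / D) := by
    have h1 : (T'.card : ℝ) ≤ (⌊1 + 2 / l⌋₊ : ℝ) * ((T'.image f).card : ℝ) := by
      exact_mod_cast hmul
    refine h1.trans ?_
    apply mul_le_mul _ hvals (Nat.cast_nonneg _) (by positivity)
    exact Nat.floor_le (by positivity)
  -- `D ≤ 2 l P Q`
  have hD2 : D ≤ 2 * l * P * Q := by
    by_cases hfx : f x = 0
    · by_cases hfy : f y = 0
      · exfalso
        rw [hf] at hfx hfy
        simp only at hfx hfy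
        have e1 : v.1 * (x.1 * y.2 - x.2 * y.1) = 0 := by
          linear_combination x.1 * hfy - y.1 * hfx
        have e2 : v.2 * (x.1 * y.2 - x.2 * y.1) = 0 := by
          linear_combination x.2 * hfy - y.2 * hfx
        apply hvΛ.2
        exact Prod.ext ((mul_eq_zero.mp e1).resolve_right hxyd)
          ((mul_eq_zero.mp e2).resolve_right hxyd)
      · exact (hfΛ y (hT y hy).1 hfy).trans (hfb y (hsub hy))
    · exact (hfΛ x (hT x hx).1 hfx).trans (hfb x (hsub hx))
  have e1 : 1 + 2 / l ≤ 3 / l := by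
    rw [le_div_iff₀ hlpos]
    field_simp
    linarith
  have e2 : 1 + 4 * l * P * Q / D ≤ 6 * l * P * Q / D := by
    rw [le_div_iff₀ hD]
    field_simp
    linarith
  calc (T.card : ℝ) ≤ T'.card := by exact_mod_cast Finset.card_le_card hsub
    _ ≤ (1 + 2 / l) * (1 + 4 * l * P * Q / D) := hcard
    _ ≤ (3 / l) * (6 * l * P * Q / D) := by
      apply mul_le_mul e1 e2 (by positivity) (by positivity)
    _ = 18 * (P * Q / D) := by
      field_simp
      ring
    _ ≤ 20 * (P * Q / D) := by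
      apply mul_le_mul_of_nonneg_right (by norm_num) (by positivity)

end Pool.Agent.NH12.RS
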