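import Pool.Agent.NH12.RS.Stm

/-!
# RS10: a lower bound for the number of the ring class characters of conductor `q`
-/

set_option autoImplicit false
set_option linter.unusedSectionVars false

open NumberField Complex Finset

namespace Pool.Agent.NH12.RS.CardLow

variable {K : Type} [Field K] [NumberField K]

/-! ### values of the characters -/

/-- powers of a character -/
noncomputable def pw (χ : Ideal (𝓞 K) →*₀ ℂ) (k : ℕ) : Ideal (𝓞 K) →*₀ ℂ where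
  toFun 𝔞 := χ 𝔞 ^ (k + 1)
  map_zero' := by rw [map_zero, zero_pow (Nat.succ_ne_zero k)]
  map_one' := by rw [map_one, one_pow]
  map_mul' 𝔞 𝔟 := by rw [map_mul, mul_pow]

theorem pw_apply (χ : Ideal (𝓞 K) →*₀ ℂ) (k : ℕ) (𝔞 : Ideal (𝓞 K)) : pw χ k 𝔞 = χ 𝔞 ^ (k + 1) := rfl

theorem pw_mem {q d : ℕ} {χ : Ideal (𝓞 K) →*₀ ℂ} (h : χ ∈ XX K q d) (k : ℕ) : pw χ k ∈ XX K q d := by
  obtain ⟨h1, h2⟩ := h
  refine ⟨⟨fun 𝔞 => ?_, fun x h3 h4 => ?_⟩, fun x h3 h4 => ?_⟩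
  · rw [pw_apply, ← h1.supp, pow_ne_zero_iff (Nat.succ_ne_zero k)]
  · rw [pw_apply, h1.one x h3 h4, one_pow]
  · rw [pw_apply, h2 x h3 h4, one_pow]

theorem norm_one {q d : ℕ} (hfin : (XX K q d).Finite) {χ : Ideal (𝓞 K) →*₀ ℂ} (h : χ ∈ XX K q d)
    {𝔞 : Ideal (𝓞 K)} (ha : Cop q 𝔞) : ‖χ 𝔞‖ = 1 := by
  have h0 : 0 < ‖χ 𝔞‖ := norm_pos_iff.2 ((h.1.supp 𝔞).2 ha)
  obtain ⟨x, -, y, -, hne, he⟩ := Set.infinite_univ.exists_ne_map_eq_of_mapsTo
    (f := fun k : ℕ => pw χ k) (t := XX K q d) (fun k _ => pw_mem h k) hfin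
  have key : ∀ x y : ℕ, x < y → pw χ x = pw χ y → ‖χ 𝔞‖ = 1 := by
    intro x y hxy he
    have h1 : ‖χ 𝔞‖ ^ (x + 1) = ‖χ 𝔞‖ ^ (y + 1) := by
      rw [← norm_pow, ← norm_pow, ← pw_apply, ← pw_apply, he]
    obtain ⟨z, rfl⟩ := Nat.exists_eq_add_of_lt hxy
    have h2 : ‖χ 𝔞‖ ^ (x + 1) * 1 = ‖χ 𝔞‖ ^ (x + 1) * ‖χ 𝔞‖ ^ (z + 1) := by
      rw [mul_one, ← pow_add, show x + 1 + (z + 1) = x + z + 1 + 1 by ring]
      exact h1
    have h3 := mul_left_cancel₀ (pow_pos h0 (x + 1)).ne' h2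
    exact (pow_eq_one_iff_of_nonneg h0.le (Nat.succ_ne_zero z)).1 h3.symm
  rcases lt_or_gt_of_ne hne with h1 | h1
  · exact key x y h1 he
  · exact key y x h1 he.symm

/-- the trivial character -/
noncomputable def tr (χ : Ideal (𝓞 K) →*₀ ℂ) : Ideal (𝓞 K) →*₀ ℂ where
  toFun 𝔞 := χ 𝔞 * (starRingEnd ℂ) (χ 𝔞)
  map_zero' := by rw [map_zero, zero_mul]
  map_one' := by rw [map_one, map_one, mul_one]
  map_mul' 𝔞 𝔟 := by
    simp only [map_mul]
    ring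

theorem tr_apply (χ : Ideal (𝓞 K) →*₀ ℂ) (𝔞 : Ideal (𝓞 K)) :
    tr χ 𝔞 = χ 𝔞 * (starRingEnd ℂ) (χ 𝔞) := rfl

theorem mul_conj_one {z : ℂ} (h : ‖z‖ = 1) : z * (starRingEnd ℂ) z = 1 := by
  rw [Complex.mul_conj, Complex.normSq_eq_norm_sq, h]
  norm_num

theorem tr_mem {q d : ℕ} {χ : Ideal (𝓞 K) →*₀ ℂ} (h : χ ∈ XX K q d) : tr χ ∈ XX K q d := by
  obtain ⟨h1, h2⟩ := h
  refine ⟨⟨fun 𝔞 => ?_, fun x h3 h4 => ?_⟩, fun x h3 h4 => ?_⟩
  · rw [tr_apply, ← h1.supp, mul_ne_zero_iff]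
    constructor
    · exact fun h => h.1
    · exact fun h => ⟨h, (map_ne_zero _).2 h⟩
  · rw [tr_apply, h1.one x h3 h4, map_one, one_mul]
  · rw [tr_apply, h2 x h3 h4, map_one, one_mul]

theorem tr_val {q d : ℕ} (hfin : (XX K q d).Finite) {χ : Ideal (𝓞 K) →*₀ ℂ} (h : χ ∈ XX K q d)
    {𝔞 : Ideal (𝓞 K)} (ha : Cop q 𝔞) : tr χ 𝔞 = 1 := mul_conj_one (norm_one hfin h ha)

theorem cop_cj (hc : S_conj) (S : RQ K) {q : ℕ} {𝔞 : Ideal (𝓞 K)} (h : Cop q 𝔞) :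
    Cop q (S.cj 𝔞) := by
  unfold Cop at h ⊢
  rw [Ideal.isCoprime_iff_sup_eq] at h ⊢
  have h1 : S.cj (Ideal.span {(q : 𝓞 K)}) = Ideal.span {(q : 𝓞 K)} := by
    rw [(hc K S).2.2.2.1, map_natCast]
  rw [← h1]
  unfold RQ.cj
  rw [← Ideal.map_sup, h, Ideal.map_top]

theorem chi_cj (hc : S_conj) (S : RQ K) {q d : ℕ} (hfin : (XX K q d).Finite)
    {χ : Ideal (𝓞 K) →*₀ ℂ} (h : χ ∈ XX K q d) {𝔞 : Ideal (𝓞 K)} (ha : Cop q 𝔞) :
    χ (S.cj 𝔞) = (starRingEnd ℂ) (χ 𝔞) := by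
  have h1 : Cop q (𝔞 * S.cj 𝔞) := IsCoprime.mul_left ha (cop_cj hc S ha)
  have h2 : χ (𝔞 * S.cj 𝔞) = 1 := by
    rw [(hc K S).2.2.2.2] at h1 ⊢
    exact h.1.one _ ⟨(Ideal.absNorm 𝔞 : ℤ), by simp⟩ h1
  rw [map_mul] at h2
  have h3 := mul_conj_one (norm_one hfin h ha)
  have h4 : χ 𝔞 ≠ 0 := (h.1.supp 𝔞).2 ha
  exact mul_left_cancel₀ h4 (h2.trans h3.symm)

open Classical in
/-- the mean square of a sum -/
theorem ident (hc : S_conj) (ho : S_orth) (S : RQ K) {q : ℕ} (hq : 2 ≤ q)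
    (hfin : (XX K q q).Finite) {ι : Type} (F : Finset ι) (𝔞 : ι → Ideal (𝓞 K))
    (h : ∀ i ∈ F, Cop q (𝔞 i)) :
    ∑ χ ∈ hfin.toFinset, ‖∑ i ∈ F, χ (𝔞 i)‖ ^ 2 =
      ((XX K q q).ncard : ℝ) * ((F ×ˢ F).filter fun x => Pr q (𝔞 x.1 * S.cj (𝔞 x.2))).card := by
  have e1 : ∀ χ ∈ hfin.toFinset, ((‖∑ i ∈ F, χ (𝔞 i)‖ ^ 2 : ℝ) : ℂ) =
      ∑ x ∈ F ×ˢ F, χ (𝔞 x.1 * S.cj (𝔞 x.2)) := by
    intro χ hχ
    rw [Set.Finite.mem_toFinset] at hχ
    rw [← Complex.normSq_eq_norm_sq, ← Complex.mul_conj, map_sum, sum_mul_sum, ← sum_product']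
    refine sum_congr rfl fun x hx => ?_
    rw [mem_product] at hx
    rw [map_mul, chi_cj hc S hfin hχ (h _ hx.2)]
  have e2 : ((∑ χ ∈ hfin.toFinset, ‖∑ i ∈ F, χ (𝔞 i)‖ ^ 2 : ℝ) : ℂ) =
      ((((XX K q q).ncard : ℝ) * ((F ×ˢ F).filter fun x =>
        Pr q (𝔞 x.1 * S.cj (𝔞 x.2))).card : ℝ) : ℂ) := by
    rw [Complex.ofReal_sum, sum_congr rfl e1, sum_comm]
    have e3 : ∀ x ∈ F ×ˢ F, ∑ χ ∈ hfin.toFinset, χ (𝔞 x.1 * S.cj (𝔞 x.2)) =
        if Pr q (𝔞 x.1 * S.cj (𝔞 x.2)) then ((XX K q q).ncard : ℂ) else 0 := by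
      intro x hx
      rw [mem_product] at hx
      have h1 : Cop q (𝔞 x.1 * S.cj (𝔞 x.2)) := IsCoprime.mul_left (h _ hx.1)
        (cop_cj hc S (h _ hx.2))
      obtain ⟨-, -, h2⟩ := ho K S q q hq dvd_rfl
      obtain ⟨h3, h4⟩ := h2 _ h1
      rw [← finsum_mem_eq_finite_toFinset_sum _ hfin]
      split_ifs with h5
      · exact h3 h5
      · exact h4 h5
    rw [sum_congr rfl e3, ← sum_filter, sum_const, nsmul_eq_mul]
    push_cast
    ring
  exact_mod_cast e2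

/-! ### congruences -/

theorem zd_one (d : ℕ) : Zd d (1 : 𝓞 K) := ⟨1, by simp⟩

theorem zd_int (d : ℕ) (a : ℤ) : Zd d (a : 𝓞 K) := ⟨a, by simp⟩

theorem zd_mul {d : ℕ} {x y : 𝓞 K} (hx : Zd d x) (hy : Zd d y) : Zd d (x * y) := by
  obtain ⟨a, u, hu⟩ := hx
  obtain ⟨b, v, hv⟩ := hy
  refine ⟨a * b, u * y + a * v, ?_⟩
  push_cast
  linear_combination y * hu + (a : 𝓞 K) * hv

theorem zd_mono {d e : ℕ} (h : d ∣ e) {x : 𝓞 K} (hx : Zd e x) : Zd d x := by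
  obtain ⟨a, ha⟩ := hx
  exact ⟨a, (by exact_mod_cast (Nat.cast_dvd_cast (α := 𝓞 K) h) : (d : 𝓞 K) ∣ e).trans ha⟩

/-- the coefficients -/
theorem coef (S : RQ K) {q : ℕ} {a b : ℤ} (h : (q : 𝓞 K) ∣ (a : 𝓞 K) + b * S.ω) :
    (q : ℤ) ∣ a ∧ (q : ℤ) ∣ b := by
  obtain ⟨z, hz⟩ := h
  obtain ⟨c, e, rfl⟩ := S.basis z
  have h1 := S.indep (a - q * c) (b - q * e) (by push_cast; linear_combination hz)
  exact ⟨⟨c, by linarith [h1.1]⟩, ⟨e, by linarith [h1.2]⟩⟩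

theorem int_of_dvd (S : RQ K) {q : ℕ} {a : ℤ} (h : (q : 𝓞 K) ∣ (a : 𝓞 K)) : (q : ℤ) ∣ a :=
  (coef S (b := 0) (by simpa using h)).1

/-- coprimality of integers -/
theorem cop_int (S : RQ K) {q : ℕ} {a : ℤ} : IsCoprime (a : 𝓞 K) (q : 𝓞 K) ↔ IsCoprime a (q : ℤ) := by
  constructor
  · rintro ⟨u, v, h⟩
    obtain ⟨c, e, rfl⟩ := S.basis u
    have h1 : (q : 𝓞 K) ∣ ((c * a - 1 : ℤ) : 𝓞 K) + (e * a : ℤ) * S.ω :=
      ⟨-v, by push_cast; linear_combination h⟩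
    obtain ⟨k, hk⟩ := (coef S h1).1
    exact ⟨c, -k, by linarith⟩
  · intro h
    have := h.map (Int.castRingHom (𝓞 K))
    simpa using this

theorem cop_iff {q : ℕ} {x : 𝓞 K} : Cop q (Ideal.span {x}) ↔ IsCoprime x (q : 𝓞 K) := by
  unfold Cop
  exact Ideal.isCoprime_span_singleton_iff x _

/-- the inverse modulo `q` -/
theorem inv_int {q : ℕ} {a : ℤ} (h : IsCoprime a (q : ℤ)) : ∃ b : ℤ, (q : 𝓞 K) ∣ (b : 𝓞 K) * a - 1 := by
  obtain ⟨u, v, h⟩ := h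
  refine ⟨u, -v, ?_⟩
  have h1 : ((u * a + v * q : ℤ) : 𝓞 K) = 1 := by rw [h]; simp
  push_cast at h1
  linear_combination h1

theorem zd_unit (S : RQ K) {q : ℕ} {u : (𝓞 K)ˣ} (h : Zd q (u : 𝓞 K)) :
    Zd q ((u⁻¹ : (𝓞 K)ˣ) : 𝓞 K) := by
  obtain ⟨a, ha⟩ := h
  have h1 : IsCoprime (a : 𝓞 K) (q : 𝓞 K) := by
    obtain ⟨z, hz⟩ := ha
    refine ⟨((u⁻¹ : (𝓞 K)ˣ) : 𝓞 K), ((u⁻¹ : (𝓞 K)ˣ) : 𝓞 K) * z, ?_⟩
    have h2 : ((u⁻¹ : (𝓞 K)ˣ) : 𝓞 K) * u = 1 := by simp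
    linear_combination h2 - ((u⁻¹ : (𝓞 K)ˣ) : 𝓞 K) * hz
  obtain ⟨b, hb⟩ := inv_int (K := K) ((cop_int S).1 h1)
  refine ⟨b, ?_⟩
  have h3 : ((u⁻¹ : (𝓞 K)ˣ) : 𝓞 K) - b = -((u⁻¹ : (𝓞 K)ˣ) : 𝓞 K) * ((b : 𝓞 K) * a - 1) -
      ((u⁻¹ : (𝓞 K)ˣ) : 𝓞 K) * b * (u - a) := by
    have h2 : ((u⁻¹ : (𝓞 K)ˣ) : 𝓞 K) * u = 1 := by simp
    linear_combination (b : 𝓞 K) * h2
  rw [h3]
  exact dvd_sub (hb.mul_left _) (ha.mul_left _)

theorem zd_zpow (S : RQ K) {q : ℕ} {u : (𝓞 K)ˣ} (h : Zd q (u : 𝓞 K)) (k : ℤ) :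
    Zd q ((u ^ k : (𝓞 K)ˣ) : 𝓞 K) := by
  have hn : ∀ (v : (𝓞 K)ˣ), Zd q (v : 𝓞 K) → ∀ m : ℕ, Zd q ((v ^ m : (𝓞 K)ˣ) : 𝓞 K) := by
    intro v hv m
    induction m with
    | zero => simpa using zd_one (K := K) q
    | succ m ih =>
      rw [pow_succ, Units.val_mul]
      exact zd_mul ih hv
  rcases Int.eq_nat_or_neg k with ⟨m, rfl | rfl⟩
  · rw [zpow_natCast]
    exact hn u h m
  · rw [zpow_neg, zpow_natCast, ← inv_pow]
    exact hn _ (zd_unit S h) m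

/-- the norm is an integer prime to `q` -/
theorem cop_norm (S : RQ K) {q : ℕ} {x : 𝓞 K} (h : IsCoprime x (q : 𝓞 K)) :
    ∃ m : ℤ, (m : 𝓞 K) = x * S.σ x ∧ IsCoprime m (q : ℤ) := by
  refine ⟨_, S.norm x, ?_⟩
  rw [← cop_int S, S.norm x]
  refine IsCoprime.mul_left h ?_
  have := h.map (S.σ : 𝓞 K →+* 𝓞 K)
  simpa using this

theorem cop_of_norm (S : RQ K) {q : ℕ} {x : 𝓞 K} {m : ℤ} (hm : (m : 𝓞 K) = x * S.σ x)
    (h : IsCoprime m (q : ℤ)) : IsCoprime x (q : 𝓞 K) := by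
  rw [← cop_int S, hm] at h
  exact IsCoprime.of_mul_left_left h

/-- two ideals in the same class -/
theorem pr_pair (hc : S_conj) (S : RQ K) {q : ℕ} {x y : 𝓞 K} (hy : IsCoprime y (q : 𝓞 K))
    (h : Pr q (Ideal.span {x} * S.cj (Ideal.span {y}))) :
    ∃ j a : ℤ, (q : 𝓞 K) ∣ ((S.ε ^ j : (𝓞 K)ˣ) : 𝓞 K) * x - a * y := by
  obtain ⟨z, ⟨a, ha⟩, hz⟩ := h
  rw [(hc K S).2.2.2.1, Ideal.span_singleton_mul_span_singleton,
    Ideal.span_singleton_eq_span_singleton] at hz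
  obtain ⟨u, hu⟩ := hz
  obtain ⟨m, hm, hmc⟩ := cop_norm S hy
  obtain ⟨b, hb⟩ := inv_int (K := K) hmc
  have h1 : (q : 𝓞 K) ∣ (u : 𝓞 K) * x - (a * b : ℤ) * y := by
    have e : (u : 𝓞 K) * x - (a * b : ℤ) * y = (b : 𝓞 K) * y * (z - a) -
        (u : 𝓞 K) * x * ((b : 𝓞 K) * m - 1) := by
      rw [← hu, hm]
      push_cast
      ring
    rw [e]
    exact dvd_sub (ha.mul_left _) (hb.mul_left _)
  obtain ⟨k, hk | hk⟩ := S.unit u
  · exact ⟨k, a * b, by rw [← hk]; exact h1⟩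
  · refine ⟨k, -(a * b), ?_⟩
    have e : ((S.ε ^ k : (𝓞 K)ˣ) : 𝓞 K) * x - ((-(a * b) : ℤ) : 𝓞 K) * y =
        -((u : 𝓞 K) * x - (a * b : ℤ) * y) := by
      rw [hk]
      push_cast
      ring
    rw [e, dvd_neg]
    exact h1

/-! ### quadratic polynomials -/

theorem roots_le {p : ℕ} [Fact p.Prime] (a b c : ZMod p) (h : a ≠ 0 ∨ b ≠ 0 ∨ c ≠ 0) :
    (univ.filter fun t : ZMod p => a * t ^ 2 + b * t + c = 0).card ≤ 2 := by
  classical
  set P : Polynomial (ZMod p) := Polynomial.C a * Polynomial.X ^ 2 + Polynomial.C b * Polynomial.X +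
    Polynomial.C c with hP
  have hP0 : P ≠ 0 := by
    intro h0
    have c0 : P.coeff 0 = c := by rw [hP]; simp
    have c1 : P.coeff 1 = b := by rw [hP]; simp [Polynomial.coeff_C]
    have c2 : P.coeff 2 = a := by rw [hP]; simp [Polynomial.coeff_X]
    rw [h0, Polynomial.coeff_zero] at c0 c1 c2
    rcases h with h | h | h
    · exact h c2.symm
    · exact h c1.symm
    · exact h c0.symm
  have hsub : (univ.filter fun t : ZMod p => a * t ^ 2 + b * t + c = 0) ⊆ P.roots.toFinset := by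
    intro t ht
    rw [mem_filter] at ht
    rw [Multiset.mem_toFinset, Polynomial.mem_roots hP0, Polynomial.IsRoot, hP]
    simpa using ht.2
  calc _ ≤ P.roots.toFinset.card := card_le_card hsub
    _ ≤ Multiset.card P.roots := Multiset.toFinset_card_le _
    _ ≤ P.natDegree := Polynomial.card_roots' _
    _ ≤ 2 := Polynomial.natDegree_quadratic_le

theorem count_mod {p m : ℕ} (hp : p.Prime) (a b c : ℤ)
    (h : ¬ (p : ℤ) ∣ a ∨ ¬ (p : ℤ) ∣ b ∨ ¬ (p : ℤ) ∣ c) :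
    ((range (p * m)).filter fun t : ℕ => (p : ℤ) ∣ a * (t : ℤ) ^ 2 + b * t + c).card ≤ 2 * m := by
  classical
  have : Fact p.Prime := ⟨hp⟩
  have h1 : (a : ZMod p) ≠ 0 ∨ (b : ZMod p) ≠ 0 ∨ (c : ZMod p) ≠ 0 := by
    simp only [Ne, ZMod.intCast_zmod_eq_zero_iff_dvd]
    exact h
  have h2 := roots_le _ _ _ h1
  calc _ ≤ ((univ.filter fun t : ZMod p => (a : ZMod p) * t ^ 2 + b * t + c = 0) ×ˢ range m).card := by
        refine card_le_card_of_injOn (fun t : ℕ => ((t : ZMod p), t / p)) ?_ ?_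
        · intro t ht
          rw [coe_filter, Set.mem_ofPred_eq, mem_range] at ht
          rw [coe_product, Set.mem_prod, mem_coe, mem_coe, mem_filter, mem_range]
          refine ⟨⟨mem_univ _, ?_⟩, ?_⟩
          · have := (ZMod.intCast_zmod_eq_zero_iff_dvd _ p).2 ht.2
            push_cast at this
            exact this
          · exact Nat.div_lt_of_lt_mul ht.1
        · intro t _ t' _ he
          simp only [Prod.mk.injEq] at he
          obtain ⟨e1, e2⟩ := he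
          rw [ZMod.natCast_eq_natCast_iff'] at e1
          rw [← Nat.div_add_mod t p, ← Nat.div_add_mod t' p, e1, e2]
    _ = (univ.filter fun t : ZMod p => (a : ZMod p) * t ^ 2 + b * t + c = 0).card * m := by
        rw [card_product, card_range]
    _ ≤ 2 * m := Nat.mul_le_mul_right m h2

/-! ### the first family -/

open Classical in
/-- the numbers `t < q` with `t + ω` prime to `q` -/
noncomputable def F1 (S : RQ K) (q : ℕ) : Finset ℕ :=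
  (range q).filter fun t => IsCoprime ((t : 𝓞 K) + S.ω) (q : 𝓞 K)

theorem exists_prime {q : ℕ} {m : ℤ} (h : ¬ IsCoprime m (q : ℤ)) :
    ∃ p : ℕ, p.Prime ∧ p ∣ q ∧ (p : ℤ) ∣ m := by
  rw [Int.isCoprime_iff_gcd_eq_one] at h
  obtain ⟨p, hp, h2⟩ := Nat.exists_prime_and_dvd h
  refine ⟨p, hp, ?_, ?_⟩
  · have : (p : ℤ) ∣ (q : ℤ) := (Int.natCast_dvd_natCast.2 h2).trans (Int.gcd_dvd_right ..)
    exact_mod_cast this
  · exact (Int.natCast_dvd_natCast.2 h2).trans (Int.gcd_dvd_left ..)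

theorem F1_card (S : RQ K) {q : ℕ} (hq : 0 < q)
    (hs : ∑ d ∈ q.divisors.erase 1, (1 : ℝ) / d ≤ 1 / 4) : (q : ℝ) / 2 ≤ (F1 S q).card := by
  classical
  set T : ℤ := Algebra.trace ℤ (𝓞 K) S.ω with hT
  set N0 : ℤ := Algebra.norm ℤ S.ω with hN0
  have e1 : (T : 𝓞 K) = S.ω + S.σ S.ω := S.trace _
  have e2 : (N0 : 𝓞 K) = S.ω * S.σ S.ω := S.norm _
  have hsub : range q ⊆ F1 S q ∪ q.primeFactors.biUnion fun p =>
      (range (p * (q / p))).filter fun t : ℕ => (p : ℤ) ∣ 1 * (t : ℤ) ^ 2 + T * t + N0 := by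
    intro t ht
    rw [mem_union]
    by_cases h : IsCoprime ((t : 𝓞 K) + S.ω) (q : 𝓞 K)
    · left
      unfold F1
      rw [mem_filter]
      exact ⟨ht, h⟩
    · right
      have h1 : ¬ IsCoprime (1 * (t : ℤ) ^ 2 + T * t + N0) (q : ℤ) := by
        intro h2
        apply h
        refine cop_of_norm S (m := 1 * (t : ℤ) ^ 2 + T * t + N0) ?_ h2
        rw [map_add, map_natCast]
        push_cast
        rw [e1, e2]
        ring
      obtain ⟨p, hp, hpq, hpt⟩ := exists_prime h1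
      rw [mem_biUnion]
      refine ⟨p, Nat.mem_primeFactors.2 ⟨hp, hpq, hq.ne'⟩, ?_⟩
      rw [mem_filter, Nat.mul_div_cancel' hpq]
      exact ⟨ht, hpt⟩
  have h1 : q ≤ (F1 S q).card + ∑ p ∈ q.primeFactors, 2 * (q / p) := by
    calc q = (range q).card := (card_range q).symm
      _ ≤ _ := card_le_card hsub
      _ ≤ _ := card_union_le _ _
      _ ≤ _ := Nat.add_le_add_left (card_biUnion_le.trans (sum_le_sum fun p hp => by
          refine count_mod (Nat.prime_of_mem_primeFactors hp) 1 T N0 (Or.inl ?_)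
          intro h
          have h2 := Int.natAbs_dvd_natAbs.2 h
          rw [Int.natAbs_natCast, Int.natAbs_one, Nat.dvd_one] at h2
          exact (Nat.prime_of_mem_primeFactors hp).one_lt.ne' h2)) _
  have h2 : (∑ p ∈ q.primeFactors, 2 * ((q / p : ℕ) : ℝ)) ≤ q / 2 := by
    have h3 : ∀ p ∈ q.primeFactors, 2 * ((q / p : ℕ) : ℝ) ≤ 2 * q * (1 / (p : ℝ)) := by
      intro p hp
      have h4 : ((q / p : ℕ) : ℝ) ≤ (q : ℝ) / p := Nat.cast_div_le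
      calc 2 * ((q / p : ℕ) : ℝ) ≤ 2 * ((q : ℝ) / p) := by linarith
        _ = _ := by ring
    calc _ ≤ ∑ p ∈ q.primeFactors, 2 * q * (1 / (p : ℝ)) := sum_le_sum h3
      _ = 2 * q * ∑ p ∈ q.primeFactors, (1 / (p : ℝ)) := by rw [mul_sum]
      _ ≤ 2 * q * ∑ d ∈ q.divisors.erase 1, (1 : ℝ) / d := by
          refine mul_le_mul_of_nonneg_left ?_ (by positivity)
          refine sum_le_sum_of_subset_of_nonneg ?_ fun d _ _ => by positivity
          intro p hp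
          rw [mem_erase, Nat.mem_divisors]
          exact ⟨(Nat.prime_of_mem_primeFactors hp).one_lt.ne', Nat.dvd_of_mem_primeFactors hp, hq.ne'⟩
      _ ≤ 2 * q * (1 / 4) := mul_le_mul_of_nonneg_left hs (by positivity)
      _ = q / 2 := by ring
  have h3 : (q : ℝ) ≤ (F1 S q).card + ∑ p ∈ q.primeFactors, 2 * ((q / p : ℕ) : ℝ) := by
    exact_mod_cast h1
  linarith

theorem pr_red (hc : S_conj) (S : RQ K) {n q : ℕ} (hn : 0 < n) (hz : Zd q ((S.ε : 𝓞 K) ^ n))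
    {x y : 𝓞 K} (hy : IsCoprime y (q : 𝓞 K))
    (h : Pr q (Ideal.span {x} * S.cj (Ideal.span {y}))) :
    ∃ r, r < n ∧ ∃ a : ℤ, (q : 𝓞 K) ∣ (S.ε : 𝓞 K) ^ r * x - a * y := by
  obtain ⟨j, a, ha⟩ := pr_pair hc S hy h
  have hn' : (0 : ℤ) < n := by exact_mod_cast hn
  have hr0 := Int.emod_nonneg j hn'.ne'
  have hr1 := Int.emod_lt_of_pos j hn'
  have hz' : Zd q ((S.ε ^ n : (𝓞 K)ˣ) : 𝓞 K) := by simpa using hz
  obtain ⟨b, hb⟩ := zd_zpow S hz' (-(j / n))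
  refine ⟨(j % n).toNat, by omega, b * a, ?_⟩
  have e1 : (S.ε : 𝓞 K) ^ (j % n).toNat = (((S.ε ^ n) ^ (-(j / n)) : (𝓞 K)ˣ) : 𝓞 K) *
      ((S.ε ^ j : (𝓞 K)ˣ) : 𝓞 K) := by
    rw [← Units.val_mul, ← Units.val_pow_eq_pow_val]
    congr 1
    rw [← zpow_natCast, ← zpow_natCast, ← zpow_mul, ← zpow_add, Int.toNat_of_nonneg hr0]
    congr 1
    have := Int.mul_ediv_add_emod j n
    linarith
  have e2 : (S.ε : 𝓞 K) ^ (j % n).toNat * x - ((b * a : ℤ) : 𝓞 K) * y =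
      (((S.ε ^ n) ^ (-(j / n)) : (𝓞 K)ˣ) : 𝓞 K) *
        (((S.ε ^ j : (𝓞 K)ˣ) : 𝓞 K) * x - a * y) +
      (a : 𝓞 K) * y * ((((S.ε ^ n) ^ (-(j / n)) : (𝓞 K)ˣ) : 𝓞 K) - b) := by
    rw [e1]
    push_cast
    ring
  rw [e2]
  exact dvd_add (ha.mul_left _) (hb.mul_left _)

theorem uniq1 (S : RQ K) {q r t t' : ℕ} {a a' : ℤ} {y : 𝓞 K}
    (hx : IsCoprime ((t : 𝓞 K) + S.ω) (q : 𝓞 K)) (ht : t < q) (ht' : t' < q)
    (h : (q : 𝓞 K) ∣ (S.ε : 𝓞 K) ^ r * ((t : 𝓞 K) + S.ω) - a * y)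
    (h' : (q : 𝓞 K) ∣ (S.ε : 𝓞 K) ^ r * ((t' : 𝓞 K) + S.ω) - a' * y) : t = t' := by
  have hu : IsUnit ((S.ε : 𝓞 K) ^ r) := (Units.isUnit _).pow r
  have h1 : (q : 𝓞 K) ∣ (S.ε : 𝓞 K) ^ r * ((a' : 𝓞 K) * ((t : 𝓞 K) + S.ω) -
      a * ((t' : 𝓞 K) + S.ω)) := by
    have e : (S.ε : 𝓞 K) ^ r * ((a' : 𝓞 K) * ((t : 𝓞 K) + S.ω) - a * ((t' : 𝓞 K) + S.ω)) =
        (a' : 𝓞 K) * ((S.ε : 𝓞 K) ^ r * ((t : 𝓞 K) + S.ω) - a * y) -
        a * ((S.ε : 𝓞 K) ^ r * ((t' : 𝓞 K) + S.ω) - a' * y) := by ring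
    rw [e]
    exact dvd_sub (h.mul_left _) (h'.mul_left _)
  rw [hu.dvd_mul_left] at h1
  have h2 : (q : 𝓞 K) ∣ ((a' * t - a * t' : ℤ) : 𝓞 K) + (a' - a : ℤ) * S.ω := by
    have e : ((a' * t - a * t' : ℤ) : 𝓞 K) + (a' - a : ℤ) * S.ω =
        (a' : 𝓞 K) * ((t : 𝓞 K) + S.ω) - a * ((t' : 𝓞 K) + S.ω) := by
      push_cast
      ring
    rw [e]
    exact h1
  obtain ⟨h3, h4⟩ := coef S h2
  have h5 : IsCoprime (a : 𝓞 K) (q : 𝓞 K) := by
    have h6 : IsCoprime ((S.ε : 𝓞 K) ^ r * ((t : 𝓞 K) + S.ω)) (q : 𝓞 K) :=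
      IsCoprime.mul_left (IsCoprime.of_isCoprime_of_dvd_left isCoprime_one_left hu.dvd) hx
    obtain ⟨z, hz⟩ := h
    have h7 : (S.ε : 𝓞 K) ^ r * ((t : 𝓞 K) + S.ω) = (a : 𝓞 K) * y + z * q := by
      linear_combination hz
    rw [h7] at h6
    exact IsCoprime.of_mul_left_left (IsCoprime.of_add_mul_right_left h6)
  have h6 : (q : ℤ) ∣ a * ((t : ℤ) - t') := by
    have e : a * ((t : ℤ) - t') = (a' * t - a * t') - (a' - a) * t := by ring
    rw [e]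
    exact dvd_sub h3 (h4.mul_right _)
  have h7 : (q : ℤ) ∣ (t : ℤ) - t' := ((cop_int S).1 h5).symm.dvd_of_dvd_mul_left h6
  obtain ⟨k, hk⟩ := h7
  have h8 : k = 0 := by
    by_contra h0
    rcases lt_or_gt_of_ne h0 with h9 | h9
    · have : k ≤ -1 := by omega
      nlinarith
    · have : 1 ≤ k := by omega
      nlinarith
  rw [h8, mul_zero] at hk
  omega

open Classical in
theorem pairs1 (hc : S_conj) (S : RQ K) {n q : ℕ} (hn : 0 < n) (hz : Zd q ((S.ε : 𝓞 K) ^ n)) :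
    ((F1 S q ×ˢ F1 S q).filter fun x => Pr q (Ideal.span {((x.1 : ℕ) : 𝓞 K) + S.ω} *
      S.cj (Ideal.span {((x.2 : ℕ) : 𝓞 K) + S.ω}))).card ≤ n * (F1 S q).card := by
  refine card_le_mul_card_image_of_maps_to (f := fun x => x.2) ?_ n ?_
  · intro x hx
    rw [mem_filter, mem_product] at hx
    exact hx.1.2
  · intro s hs
    have hs' := hs
    unfold F1 at hs'
    rw [mem_filter] at hs'
    have hex : ∀ x : ℕ × ℕ, x ∈ ((F1 S q ×ˢ F1 S q).filter fun x =>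
        Pr q (Ideal.span {((x.1 : ℕ) : 𝓞 K) + S.ω} *
        S.cj (Ideal.span {((x.2 : ℕ) : 𝓞 K) + S.ω}))).filter (fun x => x.2 = s) →
        ∃ r, r < n ∧ ∃ a : ℤ, (q : 𝓞 K) ∣ (S.ε : 𝓞 K) ^ r * (((x.1 : ℕ) : 𝓞 K) + S.ω) -
          a * ((s : 𝓞 K) + S.ω) := by
      intro x hx
      rw [mem_filter, mem_filter] at hx
      obtain ⟨⟨h1, h2⟩, h3⟩ := hx
      rw [h3] at h2
      exact pr_red hc S hn hz hs'.2 h2
    rw [← card_range n]
    refine card_le_card_of_injOn (fun x => if h : ∃ r, r < n ∧ ∃ a : ℤ, (q : 𝓞 K) ∣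
      (S.ε : 𝓞 K) ^ r * (((x.1 : ℕ) : 𝓞 K) + S.ω) - a * ((s : 𝓞 K) + S.ω) then
        Classical.choose h else 0) ?_ ?_
    · intro x hx
      have h := hex x hx
      simp only [dif_pos h, coe_range, Set.mem_Iio]
      exact (Classical.choose_spec h).1
    · intro x hx x' hx' he
      have h := hex x hx
      have h' := hex x' hx'
      simp only [dif_pos h, dif_pos h'] at he
      obtain ⟨-, a, ha⟩ := Classical.choose_spec h
      obtain ⟨-, a', ha'⟩ := Classical.choose_spec h'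
      rw [← he] at ha'
      rw [mem_coe, mem_filter, mem_filter, mem_product] at hx hx'
      have m1 := hx.1.1.1
      have m2 := hx'.1.1.1
      unfold F1 at m1 m2
      rw [mem_filter, mem_range] at m1 m2
      exact Prod.ext (uniq1 S m1.2 m1.1 m2.1 ha ha') (hx.2.trans hx'.2.symm)

/-- the first lower bound -/
theorem low1 (hc : S_conj) (ho : S_orth) (S : RQ K) {n q : ℕ} (hq : 2 ≤ q) (hn : 0 < n)
    (hz : Zd q ((S.ε : 𝓞 K) ^ n)) (hs : ∑ d ∈ q.divisors.erase 1, (1 : ℝ) / d ≤ 1 / 4) :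
    (q : ℝ) ≤ 2 * n * ((XX K q q).ncard : ℝ) := by
  classical
  obtain ⟨hfin, ⟨χ, hχ⟩, -⟩ := ho K S q q hq dvd_rfl
  have h1 := F1_card S (by omega : 0 < q) hs
  set F := F1 S q with hF
  have hcop : ∀ t ∈ F, Cop q (Ideal.span {(t : 𝓞 K) + S.ω}) := by
    intro t ht
    rw [hF] at ht
    unfold F1 at ht
    rw [mem_filter] at ht
    exact cop_iff.2 ht.2
  have h2 := ident hc ho S hq hfin F (fun t : ℕ => Ideal.span {(t : 𝓞 K) + S.ω}) hcop
  have h3 := pairs1 hc S hn hz (q := q)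
  rw [← hF] at h3
  have h4 : (F.card : ℝ) ^ 2 ≤ ∑ χ ∈ hfin.toFinset, ‖∑ t ∈ F, χ (Ideal.span {(t : 𝓞 K) + S.ω})‖ ^ 2 := by
    have h5 : ‖∑ t ∈ F, tr χ (Ideal.span {(t : 𝓞 K) + S.ω})‖ ^ 2 = (F.card : ℝ) ^ 2 := by
      rw [sum_congr rfl fun t ht => tr_val hfin hχ (hcop t ht), sum_const, nsmul_eq_mul, mul_one]
      simp
    rw [← h5]
    refine single_le_sum (f := fun χ : Ideal (𝓞 K) →*₀ ℂ =>
      ‖∑ t ∈ F, χ (Ideal.span {(t : 𝓞 K) + S.ω})‖ ^ 2) (fun _ _ => by positivity) ?_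
    rw [Set.Finite.mem_toFinset]
    exact tr_mem hχ
  have hF0 : (0 : ℝ) < F.card := by
    have : (2 : ℝ) ≤ q := by exact_mod_cast hq
    linarith
  have h5 : (F.card : ℝ) ^ 2 ≤ ((XX K q q).ncard : ℝ) * (n * F.card) := by
    refine h4.trans (h2.le.trans ?_)
    refine mul_le_mul_of_nonneg_left ?_ (by positivity)
    exact_mod_cast h3
  have h6 : (F.card : ℝ) ≤ n * ((XX K q q).ncard : ℝ) := by
    have h7 : (F.card : ℝ) * F.card ≤ (n * ((XX K q q).ncard : ℝ)) * F.card := by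
      calc (F.card : ℝ) * F.card = (F.card : ℝ) ^ 2 := by ring
        _ ≤ _ := h5
        _ = _ := by ring
    exact le_of_mul_le_mul_right h7 hF0
  linarith

/-! ### the second family -/

open Classical in
/-- the numbers `t < p` with `1 + d t ω` prime to `q` -/
noncomputable def F2 (S : RQ K) (p d q : ℕ) : Finset ℕ :=
  (range p).filter fun t => IsCoprime (1 + ((d * t : ℕ) : 𝓞 K) * S.ω) (q : 𝓞 K)

theorem F2_card (S : RQ K) {p d q : ℕ} (hp : p.Prime) (hq : q = d * p) :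
    p ≤ (F2 S p d q).card + 2 := by
  classical
  set T : ℤ := Algebra.trace ℤ (𝓞 K) S.ω with hT
  set N0 : ℤ := Algebra.norm ℤ S.ω with hN0
  have e1 : (T : 𝓞 K) = S.ω + S.σ S.ω := S.trace _
  have e2 : (N0 : 𝓞 K) = S.ω * S.σ S.ω := S.norm _
  have hsub : range p ⊆ F2 S p d q ∪ (range (p * 1)).filter fun t : ℕ =>
      (p : ℤ) ∣ ((d : ℤ) ^ 2 * N0) * (t : ℤ) ^ 2 + ((d : ℤ) * T) * t + 1 := by
    intro t ht
    rw [mem_union]
    by_cases h : IsCoprime (1 + ((d * t : ℕ) : 𝓞 K) * S.ω) (q : 𝓞 K)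
    · left
      unfold F2
      rw [mem_filter]
      exact ⟨ht, h⟩
    · right
      have h1 : ¬ IsCoprime (((d : ℤ) ^ 2 * N0) * (t : ℤ) ^ 2 + ((d : ℤ) * T) * t + 1) (q : ℤ) := by
        intro h2
        apply h
        refine cop_of_norm S (m := ((d : ℤ) ^ 2 * N0) * (t : ℤ) ^ 2 + ((d : ℤ) * T) * t + 1) ?_ h2
        rw [map_add, map_mul, map_natCast, map_one]
        push_cast
        rw [e1, e2]
        ring
      obtain ⟨l, hl, hlq, hlt⟩ := exists_prime h1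
      have hlp : l = p := by
        rw [hq] at hlq
        rcases hl.dvd_mul.1 hlq with h2 | h2
        · exfalso
          have h3 : (l : ℤ) ∣ (d : ℤ) := by exact_mod_cast h2
          have h4 : (l : ℤ) ∣ 1 := by
            have h5 : (1 : ℤ) = (((d : ℤ) ^ 2 * N0) * (t : ℤ) ^ 2 + ((d : ℤ) * T) * t + 1) -
                (d : ℤ) * ((d : ℤ) * N0 * (t : ℤ) ^ 2 + T * t) := by ring
            rw [h5]
            exact dvd_sub hlt (h3.mul_right _)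
          have h5 := Int.natAbs_dvd_natAbs.2 h4
          rw [Int.natAbs_natCast, Int.natAbs_one, Nat.dvd_one] at h5
          exact hl.one_lt.ne' h5
        · exact (Nat.prime_dvd_prime_iff_eq hl hp).1 h2
      rw [hlp] at hlt
      rw [mem_filter, mul_one]
      exact ⟨ht, hlt⟩
  have h1 : ¬ (p : ℤ) ∣ 1 := by
    intro h
    have h5 := Int.natAbs_dvd_natAbs.2 h
    rw [Int.natAbs_natCast, Int.natAbs_one, Nat.dvd_one] at h5
    exact hp.one_lt.ne' h5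
  calc p = (range p).card := (card_range p).symm
    _ ≤ _ := card_le_card hsub
    _ ≤ _ := card_union_le _ _
    _ ≤ (F2 S p d q).card + 2 * 1 :=
        Nat.add_le_add_left (count_mod hp _ _ 1 (Or.inr (Or.inr h1))) _
    _ = _ := by ring

theorem uniq2 (hc : S_conj) (S : RQ K) {n q p d t s : ℕ} (hp : p.Prime) (hd : 1 < d)
    (hq : q = d * p) (hz : Zd q ((S.ε : 𝓞 K) ^ n))
    (hz2 : ∀ k : ℤ, Zd d (((S.ε ^ k : (𝓞 K)ˣ) : 𝓞 K)) → (n : ℤ) ∣ k)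
    (hx : IsCoprime (1 + ((d * t : ℕ) : 𝓞 K) * S.ω) (q : 𝓞 K))
    (hy : IsCoprime (1 + ((d * s : ℕ) : 𝓞 K) * S.ω) (q : 𝓞 K)) (ht : t < p) (hs : s < p)
    (h : Pr q (Ideal.span {1 + ((d * t : ℕ) : 𝓞 K) * S.ω} *
      S.cj (Ideal.span {1 + ((d * s : ℕ) : 𝓞 K) * S.ω}))) : t = s := by
  obtain ⟨j, a, ha⟩ := pr_pair hc S hy h
  have hdq : (d : 𝓞 K) ∣ (q : 𝓞 K) := ⟨(p : 𝓞 K), by rw [hq]; push_cast; ring⟩
  have h1 : Zd d ((S.ε ^ j : (𝓞 K)ˣ) : 𝓞 K) := by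
    refine ⟨a, ?_⟩
    have e : ((S.ε ^ j : (𝓞 K)ˣ) : 𝓞 K) - a =
        (((S.ε ^ j : (𝓞 K)ˣ) : 𝓞 K) * (1 + ((d * t : ℕ) : 𝓞 K) * S.ω) -
          a * (1 + ((d * s : ℕ) : 𝓞 K) * S.ω)) -
        (d : 𝓞 K) * (((S.ε ^ j : (𝓞 K)ˣ) : 𝓞 K) * t * S.ω - a * s * S.ω) := by
      push_cast
      ring
    rw [e]
    exact dvd_sub (hdq.trans ha) (dvd_mul_right _ _)
  obtain ⟨k, hk⟩ := hz2 j h1
  have hz' : Zd q ((S.ε ^ n : (𝓞 K)ˣ) : 𝓞 K) := by simpa using hz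
  obtain ⟨b, hb⟩ := zd_zpow S hz' k
  have e0 : ((S.ε ^ n) ^ k : (𝓞 K)ˣ) = S.ε ^ j := by
    rw [hk, zpow_mul, zpow_natCast]
  rw [e0] at hb
  have h2 : (q : 𝓞 K) ∣ ((b - a : ℤ) : 𝓞 K) + (b * (d * t) - a * (d * s) : ℤ) * S.ω := by
    have e : ((b - a : ℤ) : 𝓞 K) + (b * (d * t) - a * (d * s) : ℤ) * S.ω =
        (((S.ε ^ j : (𝓞 K)ˣ) : 𝓞 K) * (1 + ((d * t : ℕ) : 𝓞 K) * S.ω) -
          a * (1 + ((d * s : ℕ) : 𝓞 K) * S.ω)) -
        (1 + ((d * t : ℕ) : 𝓞 K) * S.ω) * (((S.ε ^ j : (𝓞 K)ˣ) : 𝓞 K) - b) := by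
      push_cast
      ring
    rw [e]
    exact dvd_sub ha (hb.mul_left _)
  obtain ⟨h3, h4⟩ := coef S h2
  have h5 : IsCoprime (a : 𝓞 K) (q : 𝓞 K) := by
    have hu : IsUnit (((S.ε ^ j : (𝓞 K)ˣ) : 𝓞 K)) := Units.isUnit _
    have h6 : IsCoprime (((S.ε ^ j : (𝓞 K)ˣ) : 𝓞 K) * (1 + ((d * t : ℕ) : 𝓞 K) * S.ω)) (q : 𝓞 K) :=
      IsCoprime.mul_left (IsCoprime.of_isCoprime_of_dvd_left isCoprime_one_left hu.dvd) hx
    obtain ⟨z, hz⟩ := ha
    have h7 : ((S.ε ^ j : (𝓞 K)ˣ) : 𝓞 K) * (1 + ((d * t : ℕ) : 𝓞 K) * S.ω) =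
        (a : 𝓞 K) * (1 + ((d * s : ℕ) : 𝓞 K) * S.ω) + z * q := by
      linear_combination hz
    rw [h7] at h6
    exact IsCoprime.of_mul_left_left (IsCoprime.of_add_mul_right_left h6)
  have h6 : (q : ℤ) ∣ a * ((d : ℤ) * ((t : ℤ) - s)) := by
    have e : a * ((d : ℤ) * ((t : ℤ) - s)) = (b * (d * t) - a * (d * s)) - (b - a) * (d * t) := by
      ring
    rw [e]
    exact dvd_sub h4 (h3.mul_right _)
  have h7 : (q : ℤ) ∣ (d : ℤ) * ((t : ℤ) - s) := ((cop_int S).1 h5).symm.dvd_of_dvd_mul_left h6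
  have hd0 : (0 : ℤ) < d := by exact_mod_cast (by omega : 0 < d)
  have h8 : (p : ℤ) ∣ (t : ℤ) - s := by
    rw [hq] at h7
    push_cast at h7
    exact (mul_dvd_mul_iff_left hd0.ne').1 h7
  obtain ⟨c, hcc⟩ := h8
  have h9 : c = 0 := by
    by_contra h0
    rcases lt_or_gt_of_ne h0 with h9 | h9
    · have : c ≤ -1 := by omega
      nlinarith
    · have : 1 ≤ c := by omega
      nlinarith
  rw [h9, mul_zero] at hcc
  omega

/-- the second lower bound -/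
theorem low2 (hc : S_conj) (ho : S_orth) (S : RQ K) {n q p d : ℕ} (hq2 : 2 ≤ q) (hp : p.Prime)
    (hp3 : 3 ≤ p) (hd : 1 < d) (hq : q = d * p) (hz : Zd q ((S.ε : 𝓞 K) ^ n))
    (hz2 : ∀ k : ℤ, Zd d (((S.ε ^ k : (𝓞 K)ˣ) : 𝓞 K)) → (n : ℤ) ∣ k) :
    ((p : ℝ) - 2) * ((XX K q d).ncard : ℝ) ≤ ((XX K q q).ncard : ℝ) := by
  classical
  obtain ⟨hfin, -, -⟩ := ho K S q q hq2 dvd_rfl
  obtain ⟨hfind, -, -⟩ := ho K S q d hq2 ⟨p, hq⟩
  have h1 := F2_card S (q := q) hp hq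
  set F := F2 S p d q with hF
  have hmem : ∀ t ∈ F, t < p ∧ IsCoprime (1 + ((d * t : ℕ) : 𝓞 K) * S.ω) (q : 𝓞 K) := by
    intro t ht
    rw [hF] at ht
    unfold F2 at ht
    rw [mem_filter, mem_range] at ht
    exact ht
  have hcop : ∀ t ∈ F, Cop q (Ideal.span {1 + ((d * t : ℕ) : 𝓞 K) * S.ω}) := fun t ht =>
    cop_iff.2 (hmem t ht).2
  have h2 := ident hc ho S hq2 hfin F (fun t : ℕ => Ideal.span {1 + ((d * t : ℕ) : 𝓞 K) * S.ω}) hcop
  have h3 : ((F ×ˢ F).filter fun x : ℕ × ℕ => Pr q (Ideal.span {1 + ((d * x.1 : ℕ) : 𝓞 K) * S.ω} *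
      S.cj (Ideal.span {1 + ((d * x.2 : ℕ) : 𝓞 K) * S.ω}))).card ≤ F.card := by
    refine card_le_card_of_injOn (fun x => x.1) ?_ ?_
    · intro x hx
      rw [mem_coe, mem_filter, mem_product] at hx
      exact hx.1.1
    · intro x hx y hy he
      rw [mem_coe, mem_filter, mem_product] at hx hy
      have u := uniq2 hc S hp hd hq hz hz2 (hmem _ hx.1.1).2 (hmem _ hx.1.2).2 (hmem _ hx.1.1).1
        (hmem _ hx.1.2).1 hx.2
      have v := uniq2 hc S hp hd hq hz hz2 (hmem _ hy.1.1).2 (hmem _ hy.1.2).2 (hmem _ hy.1.1).1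
        (hmem _ hy.1.2).1 hy.2
      simp only at he
      exact Prod.ext he (by rw [← u, ← v, he])
  have hsub : hfind.toFinset ⊆ hfin.toFinset := by
    intro χ hχ
    rw [Set.Finite.mem_toFinset] at hχ ⊢
    exact ⟨hχ.1, fun x h3 h4 => hχ.1.one x h3 h4⟩
  have h4 : ((XX K q d).ncard : ℝ) * (F.card : ℝ) ^ 2 ≤
      ∑ χ ∈ hfin.toFinset, ‖∑ t ∈ F, χ (Ideal.span {1 + ((d * t : ℕ) : 𝓞 K) * S.ω})‖ ^ 2 := by
    have h5 : ∀ χ ∈ hfind.toFinset,
        ‖∑ t ∈ F, χ (Ideal.span {1 + ((d * t : ℕ) : 𝓞 K) * S.ω})‖ ^ 2 = (F.card : ℝ) ^ 2 := by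
      intro χ hχ
      rw [Set.Finite.mem_toFinset] at hχ
      have h6 : ∀ t ∈ F, χ (Ideal.span {1 + ((d * t : ℕ) : 𝓞 K) * S.ω}) = 1 := fun t ht =>
        hχ.2 _ ⟨1, ⟨(t : 𝓞 K) * S.ω, by push_cast; ring⟩⟩ (hcop t ht)
      rw [sum_congr rfl h6, sum_const, nsmul_eq_mul, mul_one]
      simp
    have h6 : ((XX K q d).ncard : ℝ) * (F.card : ℝ) ^ 2 =
        ∑ χ ∈ hfind.toFinset, ‖∑ t ∈ F, χ (Ideal.span {1 + ((d * t : ℕ) : 𝓞 K) * S.ω})‖ ^ 2 := by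
      rw [sum_congr rfl h5, sum_const, nsmul_eq_mul, Set.ncard_eq_toFinset_card _ hfind]
    rw [h6]
    exact sum_le_sum_of_subset_of_nonneg hsub fun _ _ _ => by positivity
  have hF0 : (0 : ℝ) < F.card := by
    have : 0 < F.card := by omega
    exact_mod_cast this
  have h5 : ((XX K q d).ncard : ℝ) * (F.card : ℝ) ^ 2 ≤ ((XX K q q).ncard : ℝ) * F.card := by
    refine h4.trans (h2.le.trans ?_)
    refine mul_le_mul_of_nonneg_left ?_ (by positivity)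
    exact_mod_cast h3
  have h6 : ((XX K q d).ncard : ℝ) * F.card ≤ ((XX K q q).ncard : ℝ) := by
    have h7 : (((XX K q d).ncard : ℝ) * F.card) * F.card ≤ ((XX K q q).ncard : ℝ) * F.card := by
      calc (((XX K q d).ncard : ℝ) * F.card) * F.card =
          ((XX K q d).ncard : ℝ) * (F.card : ℝ) ^ 2 := by ring
        _ ≤ _ := h5
    exact le_of_mul_le_mul_right h7 hF0
  have h7 : (p : ℝ) - 2 ≤ F.card := by
    have : (p : ℝ) ≤ F.card + 2 := by exact_mod_cast h1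
    linarith
  calc ((p : ℝ) - 2) * ((XX K q d).ncard : ℝ) ≤ (F.card : ℝ) * ((XX K q d).ncard : ℝ) :=
        mul_le_mul_of_nonneg_right h7 (by positivity)
    _ = ((XX K q d).ncard : ℝ) * F.card := by ring
    _ ≤ _ := h6

/-- the characters which are not of conductor `q` -/
theorem cover (ho : S_orth) (S : RQ K) {q : ℕ} (hq : 2 ≤ q) :
    ((XX K q q).ncard : ℝ) ≤ ((PP K q).ncard : ℝ) +
      ∑ p ∈ q.primeFactors, ((XX K q (q / p)).ncard : ℝ) := by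
  classical
  obtain ⟨hfin, -, -⟩ := ho K S q q hq dvd_rfl
  have hfp : (PP K q).Finite := hfin.subset fun χ hχ => ⟨hχ.toIsRC, fun x h1 h2 => hχ.one x h1 h2⟩
  have hfd : ∀ p ∈ q.primeFactors, (XX K q (q / p)).Finite := fun p hp =>
    (ho K S q (q / p) hq (Nat.div_dvd_of_dvd (Nat.dvd_of_mem_primeFactors hp))).1
  have hsub : XX K q q ⊆ PP K q ∪ ⋃ p ∈ q.primeFactors, XX K q (q / p) := by
    intro χ hχ
    by_cases h : χ ∈ PP K q
    · exact Or.inl h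
    · right
      have h1 : ∃ d : ℕ, d ∣ q ∧ d ≠ q ∧ Thr q d χ := by
        by_contra hcon
        push Not at hcon
        exact h ⟨hχ.1, hcon⟩
      obtain ⟨d, ⟨e, he⟩, hdq, hth⟩ := h1
      have he1 : e ≠ 1 := by
        rintro rfl
        rw [mul_one] at he
        exact hdq he.symm
      obtain ⟨p, hp, hpe⟩ := Nat.exists_prime_and_dvd he1
      have hpq : p ∣ q := hpe.trans ⟨d, by rw [he]; ring⟩
      rw [Set.mem_iUnion₂]
      refine ⟨p, Nat.mem_primeFactors.2 ⟨hp, hpq, by omega⟩, hχ.1, ?_⟩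
      intro x hx hcx
      refine hth x (zd_mono ?_ hx) hcx
      obtain ⟨f, hf⟩ := hpe
      refine ⟨f, ?_⟩
      rw [he, hf]
      rw [show d * (p * f) = p * (d * f) by ring]
      exact Nat.mul_div_cancel_left _ hp.pos
  have hfu : (⋃ p ∈ q.primeFactors, XX K q (q / p)).Finite :=
    Set.Finite.biUnion (Finset.finite_toSet _) fun p hp => hfd p hp
  have h1 : (XX K q q).ncard ≤ (PP K q).ncard + (⋃ p ∈ q.primeFactors, XX K q (q / p)).ncard :=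
    (Set.ncard_le_ncard hsub (hfp.union hfu)).trans (Set.ncard_union_le _ _)
  have h2 : (⋃ p ∈ q.primeFactors, XX K q (q / p)).ncard ≤
      ∑ p ∈ q.primeFactors, (XX K q (q / p)).ncard := by
    have key : ∀ R : Finset ℕ, (⋃ p ∈ R, XX K q (q / p)).ncard ≤
        ∑ p ∈ R, (XX K q (q / p)).ncard := by
      intro R
      induction R using Finset.induction_on with
      | empty => simp
      | insert a R ha ih =>
        rw [Finset.sum_insert ha, Finset.set_biUnion_insert]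
        exact (Set.ncard_union_le _ _).trans (Nat.add_le_add_left ih _)
    exact key _
  have h3 := h1.trans (Nat.add_le_add_left h2 _)
  exact_mod_cast h3

end Pool.Agent.NH12.RS.CardLow

namespace Pool.Agent.NH12.RS

open CardLow

/-- CARDL -/
theorem t_cardL (h : S_seq) (h2 : S_seq2) (hc : S_conj) (ho : S_orth) (hu : S_cardU) : S_cardL := by
  intro K _ _ S
  obtain ⟨-, C1, n1, -, hseq⟩ := h K S
  obtain ⟨hsum, -, hpow, hlarge, -⟩ := h2 K S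
  obtain ⟨CU, hCU, hU⟩ := hu K S
  obtain ⟨n2, hs⟩ := hsum (1 / 4) (by norm_num)
  obtain ⟨n3, hpw⟩ := hpow (1 / 2) (by norm_num)
  obtain ⟨n4, hM⟩ := hlarge (⌈(4 * CU) ^ 2⌉₊ + 2)
  refine ⟨4, n1 + n2 + n3 + n4 + 5, by norm_num, fun n q hn hU' => ?_⟩
  have hq1 := hM n q (by omega) hU'
  have hq2 : 2 ≤ q := by omega
  obtain ⟨hz, hz2, hpn, -, -⟩ := hseq n q (by omega) hU'
  have hsq := hs n q (by omega) hU'
  have hn0 : 0 < n := by omega
  have hN := low1 hc ho S hq2 hn0 hz hsq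
  have hcov := cover ho S hq2
  set N : ℝ := ((XX K q q).ncard : ℝ) with hNdef
  have hn5 : (0 : ℝ) < n := by exact_mod_cast hn0
  have hN0 : 0 ≤ N := by positivity
  have key : N / 2 ≤ ((PP K q).ncard : ℝ) := by
    by_cases hpr : q.Prime
    · -- `q` is prime
      have e1 : q.primeFactors = {q} := hpr.primeFactors
      rw [e1, sum_singleton, Nat.div_self hpr.pos] at hcov
      have h5 := hU q 1 hq2 (one_dvd _)
      rw [Nat.totient_one] at h5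
      have h6 : ((XX K q 1).ncard : ℝ) ≤ CU := by
        simpa using h5
      have h7 : CU ≤ N / 2 := by
        have h8 := (hpw n q (by omega) hU').1
        have hq0 : (0 : ℝ) ≤ q := by positivity
        rw [← Real.sqrt_eq_rpow] at h8
        have h9 : 4 * CU ≤ Real.sqrt q := by
          apply Real.le_sqrt_of_sq_le
          have h10 : (⌈(4 * CU) ^ 2⌉₊ : ℝ) ≤ q := by
            exact_mod_cast (by omega : ⌈(4 * CU) ^ 2⌉₊ ≤ q)
          exact (Nat.le_ceil _).trans h10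
        have h10 : Real.sqrt q * Real.sqrt q = q := Real.mul_self_sqrt hq0
        have h11 : Real.sqrt q * Real.sqrt q ≤ 2 * Real.sqrt q * N := by
          rw [h10]
          refine hN.trans ?_
          have : 2 * (n : ℝ) * N ≤ 2 * Real.sqrt q * N := by
            apply mul_le_mul_of_nonneg_right _ hN0
            linarith
          exact this
        have hs0 : 0 < Real.sqrt q := lt_of_lt_of_le (by positivity) h9
        have h12 : Real.sqrt q ≤ 2 * N := by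
          have h13 : Real.sqrt q * Real.sqrt q ≤ (2 * N) * Real.sqrt q := by linarith
          exact le_of_mul_le_mul_right h13 hs0
        linarith
      linarith
    · -- `q` is not prime
      have h5 : ∑ p ∈ q.primeFactors, ((XX K q (q / p)).ncard : ℝ) ≤ N / 2 := by
        have h6 : ∀ p ∈ q.primeFactors, ((XX K q (q / p)).ncard : ℝ) ≤ 2 * N * (1 / (p : ℝ)) := by
          intro p hp
          have hpp := Nat.prime_of_mem_primeFactors hp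
          have hpq := Nat.dvd_of_mem_primeFactors hp
          have h7 := hpn p hpp hpq
          have hp4 : 4 ≤ p := by omega
          have e : q = (q / p) * p := (Nat.div_mul_cancel hpq).symm
          have hd1 : 1 < q / p := by
            have h8 : q / p ≠ 0 := by
              intro h0
              rw [h0, zero_mul] at e
              omega
            have h9 : q / p ≠ 1 := by
              intro h0
              rw [h0, one_mul] at e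
              rw [e] at hpr
              exact hpr hpp
            exact Nat.one_lt_iff_ne_zero_and_ne_one.2 ⟨h8, h9⟩
          have h8 := low2 hc ho S hq2 hpp (by omega) hd1 e hz
            (fun k hk => hz2 (q / p) k ⟨p, e⟩ hd1 hk)
          have hp4' : (4 : ℝ) ≤ p := by exact_mod_cast hp4
          have h9 : (p : ℝ) / 2 * ((XX K q (q / p)).ncard : ℝ) ≤ N := by
            refine le_trans ?_ h8
            apply mul_le_mul_of_nonneg_right _ (by positivity)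
            linarith
          rw [show 2 * N * (1 / (p : ℝ)) = 2 * N / p by ring, le_div_iff₀ (by linarith)]
          linarith
        calc _ ≤ ∑ p ∈ q.primeFactors, 2 * N * (1 / (p : ℝ)) := sum_le_sum h6
          _ = 2 * N * ∑ p ∈ q.primeFactors, (1 / (p : ℝ)) := by rw [mul_sum]
          _ ≤ 2 * N * ∑ d ∈ q.divisors.erase 1, (1 : ℝ) / d := by
              refine mul_le_mul_of_nonneg_left ?_ (by positivity)
              refine sum_le_sum_of_subset_of_nonneg ?_ fun d _ _ => by positivity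
              intro p hp
              rw [mem_erase, Nat.mem_divisors]
              exact ⟨(Nat.prime_of_mem_primeFactors hp).one_lt.ne', Nat.dvd_of_mem_primeFactors hp,
                by omega⟩
          _ ≤ 2 * N * (1 / 4) := mul_le_mul_of_nonneg_left hsq (by positivity)
          _ = N / 2 := by ring
      linarith
  calc (q : ℝ) ≤ 2 * n * N := hN
    _ = 4 * n * (N / 2) := by ring
    _ ≤ 4 * n * ((PP K q).ncard : ℝ) := mul_le_mul_of_nonneg_left key (by positivity)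

end Pool.Agent.NH12.RS
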