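import Pool.Agent.NH12.RS.Stm

/-! RS9 CARDU (helper92): upper bound for the number of the ring class characters. -/

set_option autoImplicit false

open NumberField Complex

namespace Pool.Agent.NH12.RS.CU92

variable {K : Type} [Field K] [NumberField K]

theorem cop_span {q : ℕ} {x : 𝓞 K} : Cop q (Ideal.span {x}) ↔ IsCoprime x (q : 𝓞 K) :=
  Ideal.isCoprime_span_singleton_iff _ _

theorem chi_congr {q : ℕ} {χ : Ideal (𝓞 K) →*₀ ℂ} (hχ : IsRC q χ) {x y : 𝓞 K}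
    (hx : IsCoprime x (q : 𝓞 K)) (h : (q : 𝓞 K) ∣ x - y) :
    χ (Ideal.span {x}) = χ (Ideal.span {y}) := by
  obtain ⟨z, w, hz⟩ := hx
  obtain ⟨c, hc⟩ := h
  have h1 : χ (Ideal.span {z * x}) = 1 :=
    hχ.one _ ⟨1, -w, by push_cast; linear_combination hz⟩
      (cop_span.2 ⟨1, w, by linear_combination hz⟩)
  have h2 : χ (Ideal.span {z * y}) = 1 :=
    hχ.one _ ⟨1, -w - z * c, by push_cast; linear_combination hz - z * hc⟩
      (cop_span.2 ⟨1, w + z * c, by linear_combination hz - z * hc⟩)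
  rw [← Ideal.span_singleton_mul_span_singleton, map_mul] at h1 h2
  have hz0 : χ (Ideal.span {z}) ≠ 0 := left_ne_zero_of_mul_eq_one h1
  exact mul_left_cancel₀ hz0 (h1.trans h2.symm)

/-- the residue ring modulo `q` -/
abbrev Qt (K : Type) [Field K] [NumberField K] (q : ℕ) : Type :=
  𝓞 K ⧸ Ideal.span {(q : 𝓞 K)}

theorem dvd_of_mk (q : ℕ) {x y : 𝓞 K} (h : Ideal.Quotient.mk (Ideal.span {(q : 𝓞 K)}) x =
    Ideal.Quotient.mk (Ideal.span {(q : 𝓞 K)}) y) : (q : 𝓞 K) ∣ x - y := by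
  rw [← Ideal.mem_span_singleton]
  exact Ideal.Quotient.eq.1 h

/-- a representative -/
noncomputable def lf (q : ℕ) (u : (Qt K q)ˣ) : 𝓞 K :=
  (Ideal.Quotient.mk_surjective (u : Qt K q)).choose

theorem lf_spec (q : ℕ) (u : (Qt K q)ˣ) :
    Ideal.Quotient.mk (Ideal.span {(q : 𝓞 K)}) (lf q u) = (u : Qt K q) :=
  (Ideal.Quotient.mk_surjective (u : Qt K q)).choose_spec

theorem lf_cop (q : ℕ) (u : (Qt K q)ˣ) : IsCoprime (lf q u) (q : 𝓞 K) := by
  obtain ⟨c, hc⟩ := dvd_of_mk q (x := lf q u * lf q u⁻¹) (y := 1) (by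
    rw [map_mul, lf_spec, lf_spec, map_one]
    exact u.mul_inv)
  exact ⟨lf q u⁻¹, -c, by linear_combination hc⟩

/-- the character of the units modulo `q` -/
noncomputable def lam {q : ℕ} {χ : Ideal (𝓞 K) →*₀ ℂ} (hχ : IsRC q χ) : (Qt K q)ˣ →* ℂ where
  toFun u := χ (Ideal.span {lf q u})
  map_one' := by
    refine hχ.one _ ⟨1, ?_⟩ (cop_span.2 (lf_cop q 1))
    have h := dvd_of_mk q (x := lf q (1 : (Qt K q)ˣ)) (y := 1) (by rw [lf_spec]; simp)
    simpa using h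
  map_mul' u v := by
    rw [← map_mul, Ideal.span_singleton_mul_span_singleton]
    exact chi_congr hχ (lf_cop q _)
      (dvd_of_mk q (by rw [map_mul, lf_spec, lf_spec, lf_spec, Units.val_mul]))

theorem sum_chi {q : ℕ} [Fintype (Qt K q)ˣ] {χ : Ideal (𝓞 K) →*₀ ℂ} (hχ : IsRC q χ)
    [Decidable (∀ u : (Qt K q)ˣ, χ (Ideal.span {lf q u}) = 1)] :
    ∑ u : (Qt K q)ˣ, χ (Ideal.span {lf q u}) =
      if ∀ u : (Qt K q)ˣ, χ (Ideal.span {lf q u}) = 1 then (Fintype.card (Qt K q)ˣ : ℂ) else 0 := by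
  split_ifs with h
  · rw [Finset.sum_congr rfl fun u _ => h u]
    simp
  · have h1 : lam hχ ≠ 1 := by
      intro h1
      apply h
      intro u
      have := DFunLike.congr_fun h1 u
      exact this
    exact sum_hom_units_eq_zero (lam hχ) h1

/-- the number of the characters which are trivial on the principal ideals -/
theorem card_triv (q : ℕ) (X : Finset (Ideal (𝓞 K) →*₀ ℂ))
    (hX : ∀ χ ∈ X, IsRC q χ ∧ ∀ x : 𝓞 K, IsCoprime x (q : 𝓞 K) → χ (Ideal.span {x}) = 1) :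
    X.card ≤ (Fintype.card (ClassGroup (𝓞 K))) ^ (Fintype.card (ClassGroup (𝓞 K))) := by
  classical
  set h := Fintype.card (ClassGroup (𝓞 K)) with hh
  have hpos : 0 < h := Fintype.card_pos
  have hn0 : ∀ χ ∈ X, ∀ 𝔞 : Ideal (𝓞 K), Cop q 𝔞 → 𝔞 ∈ nonZeroDivisors (Ideal (𝓞 K)) := by
    intro χ hχ 𝔞 h𝔞
    rw [mem_nonZeroDivisors_iff_ne_zero]
    rintro rfl
    exact ((hX χ hχ).1.supp 0).2 h𝔞 (map_zero χ)
  have hone : ∀ χ ∈ X, ∀ (𝔞 : Ideal (𝓞 K)) (h0 : 𝔞 ∈ nonZeroDivisors (Ideal (𝓞 K))), Cop q 𝔞 →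
      ClassGroup.mk0 ⟨𝔞, h0⟩ = 1 → χ 𝔞 = 1 := by
    intro χ hχ 𝔞 h0 h𝔞 h1
    rw [ClassGroup.mk0_eq_one_iff] at h1
    obtain ⟨x, hx⟩ := h1
    have hx' : 𝔞 = Ideal.span {x} := hx
    rw [hx'] at h𝔞 ⊢
    exact (hX χ hχ).2 x (cop_span.1 h𝔞)
  let P : ClassGroup (𝓞 K) → Ideal (𝓞 K) → Prop := fun c 𝔯 =>
    Cop q 𝔯 ∧ ∃ h0 : 𝔯 ∈ nonZeroDivisors (Ideal (𝓞 K)), ClassGroup.mk0 ⟨𝔯, h0⟩ = c
  let r : ClassGroup (𝓞 K) → Ideal (𝓞 K) := fun c => if h : ∃ 𝔯, P c 𝔯 then h.choose else ⊤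
  have hr : ∀ c, (∃ 𝔯, P c 𝔯) → P c (r c) := by
    intro c hc
    have : r c = hc.choose := dif_pos hc
    rw [this]
    exact hc.choose_spec
  have hcop : ∀ c, Cop q (r c) := by
    intro c
    by_cases hc : ∃ 𝔯, P c 𝔯
    · exact (hr c hc).1
    · have : r c = ⊤ := dif_neg hc
      rw [this]
      unfold Cop
      rw [← Ideal.one_eq_top]
      exact isCoprime_one_left
  have hpow : ∀ χ ∈ X, ∀ 𝔞 : Ideal (𝓞 K), Cop q 𝔞 → χ 𝔞 ^ h = 1 := by
    intro χ hχ 𝔞 h𝔞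
    have h0 := hn0 χ hχ 𝔞 h𝔞
    have h1 : Cop q (𝔞 ^ h) := IsCoprime.pow_left h𝔞
    rw [← map_pow]
    refine hone χ hχ _ (pow_mem h0 h) h1 ?_
    have h2 : (⟨𝔞 ^ h, pow_mem h0 h⟩ : nonZeroDivisors (Ideal (𝓞 K))) = ⟨𝔞, h0⟩ ^ h := rfl
    rw [h2, map_pow, hh]
    exact pow_card_eq_one
  have hval : ∀ (χ : Ideal (𝓞 K) →*₀ ℂ) (hχ : χ ∈ X) (𝔞 : Ideal (𝓞 K)) (h𝔞 : Cop q 𝔞),
      χ 𝔞 = χ (r (ClassGroup.mk0 ⟨𝔞, hn0 χ hχ 𝔞 h𝔞⟩)) := by
    intro χ hχ 𝔞 h𝔞
    have h0 := hn0 χ hχ 𝔞 h𝔞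
    obtain ⟨h1, h2, h3⟩ := hr (ClassGroup.mk0 ⟨𝔞, h0⟩) ⟨𝔞, h𝔞, h0, rfl⟩
    set 𝔯 := r (ClassGroup.mk0 ⟨𝔞, h0⟩) with h𝔯
    have h4 : Cop q (𝔯 ^ (h - 1) * 𝔞) := IsCoprime.mul_left (IsCoprime.pow_left h1) h𝔞
    have h5 : χ (𝔯 ^ (h - 1) * 𝔞) = 1 := by
      refine hone χ hχ _ (mul_mem (pow_mem h2 _) h0) h4 ?_
      have h6 : (⟨𝔯 ^ (h - 1) * 𝔞, mul_mem (pow_mem h2 _) h0⟩ : nonZeroDivisors (Ideal (𝓞 K))) =
          ⟨𝔯, h2⟩ ^ (h - 1) * ⟨𝔞, h0⟩ := rfl
      rw [h6, map_mul, map_pow, h3, ← pow_succ, Nat.sub_add_cancel hpos, hh]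
      exact pow_card_eq_one
    have h6 := hpow χ hχ 𝔯 h1
    have h7 : χ 𝔯 ^ (h - 1) * χ 𝔯 = 1 := by
      rw [← pow_succ, Nat.sub_add_cancel hpos]
      exact h6
    rw [map_mul, map_pow] at h5
    have h8 : χ 𝔯 ^ (h - 1) ≠ 0 := left_ne_zero_of_mul_eq_one h7
    exact mul_left_cancel₀ h8 (h5.trans h7.symm)
  have hle : X.card ≤ (Fintype.piFinset fun _ : ClassGroup (𝓞 K) =>
      (Polynomial.nthRoots h (1 : ℂ)).toFinset).card := by
    refine Finset.card_le_card_of_injOn (fun χ c => χ (r c)) ?_ ?_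
    · intro χ hχ
      rw [Finset.mem_coe, Fintype.mem_piFinset]
      intro c
      rw [Multiset.mem_toFinset, Polynomial.mem_nthRoots hpos]
      exact hpow χ (Finset.mem_coe.1 hχ) _ (hcop c)
    · intro χ hχ χ' hχ' he
      rw [Finset.mem_coe] at hχ hχ'
      ext 𝔞
      by_cases h𝔞 : Cop q 𝔞
      · rw [hval χ hχ 𝔞 h𝔞, hval χ' hχ' 𝔞 h𝔞]
        exact congrFun he _
      · have e1 : χ 𝔞 = 0 := by
          by_contra h1
          exact h𝔞 (((hX χ hχ).1.supp 𝔞).1 h1)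
        have e2 : χ' 𝔞 = 0 := by
          by_contra h1
          exact h𝔞 (((hX χ' hχ').1.supp 𝔞).1 h1)
        rw [e1, e2]
  refine hle.trans ?_
  rw [Fintype.card_piFinset, Finset.prod_const, Finset.card_univ]
  exact Nat.pow_le_pow_left ((Multiset.toFinset_card_le _).trans (Polynomial.card_nthRoots _ _)) _

theorem cast_dvd (S : RQ K) {d : ℕ} {a : ℤ} (h : (d : 𝓞 K) ∣ (a : 𝓞 K)) : (d : ℤ) ∣ a := by
  obtain ⟨c, hc⟩ := h
  obtain ⟨s, t, rfl⟩ := S.basis c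
  have h1 := S.indep (a - d * s) (-(d * t)) (by push_cast; linear_combination hc)
  exact ⟨s, by linarith [h1.1]⟩

theorem card_qt (S : RQ K) (d : ℕ) : Nat.card (Qt K d) = d ^ 2 := by
  have h1 : Nat.card (Qt K d) = Ideal.absNorm (Ideal.span {(d : 𝓞 K)}) := by
    rw [Ideal.absNorm_apply, Submodule.cardQuot_apply]
  rw [h1, Ideal.absNorm_span_singleton]
  have h2 := S.norm (d : 𝓞 K)
  rw [map_natCast S.σ d] at h2
  have h3 : ((Algebra.norm ℤ (d : 𝓞 K) : ℤ) : 𝓞 K) = (((d : ℤ) ^ 2 : ℤ) : 𝓞 K) := by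
    rw [h2]
    push_cast
    ring
  have h4 : Algebra.norm ℤ (d : 𝓞 K) = (d : ℤ) ^ 2 := Int.cast_injective h3
  rw [h4, Int.natAbs_pow, Int.natAbs_natCast]

/-- the units modulo `d` which are represented by the integers prime to `d` -/
theorem exists_units (S : RQ K) {q d : ℕ} (hq : 2 ≤ q) (hd : d ∣ q)
    (F : (Qt K q)ˣ →* (Qt K d)ˣ)
    (hF : ∀ u, ((F u : (Qt K d)ˣ) : Qt K d) = Ideal.Quotient.mk _ (lf q u)) :
    ∃ w : (ZMod d)ˣ → (Qt K d)ˣ, Function.Injective w ∧ ∀ a, w a ∈ Set.range F ∧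
      ∀ u, F u = w a → Pr d (Ideal.span {lf q u}) := by
  haveI : NeZero q := ⟨by omega⟩
  have hsur := ZMod.unitsMap_surjective hd
  choose b hb using hsur
  have hcop : ∀ a : (ZMod d)ˣ, IsUnit (((b a : ZMod q).val : ℕ) : Qt K q) := by
    intro a
    have h1 : Nat.Coprime (b a : ZMod q).val q := ZMod.val_coe_unit_coprime (b a)
    have h2 : IsCoprime (((b a : ZMod q).val : ℕ) : ℤ) (q : ℤ) := Nat.isCoprime_iff_coprime.2 h1
    obtain ⟨s, t, hst⟩ := h2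
    refine IsUnit.of_mul_eq_one ((s : ℤ) : Qt K q) ?_
    have h3 : ((q : ℕ) : Qt K q) = 0 := by
      have : ((q : ℕ) : Qt K q) = Ideal.Quotient.mk (Ideal.span {(q : 𝓞 K)}) (q : 𝓞 K) := by simp
      rw [this, Ideal.Quotient.eq_zero_iff_mem]
      exact Ideal.mem_span_singleton_self _
    have h4 := congrArg (fun n : ℤ => (n : Qt K q)) hst
    push_cast at h4
    rw [h3, mul_zero, add_zero] at h4
    rw [mul_comm]
    exact h4
  let u : (ZMod d)ˣ → (Qt K q)ˣ := fun a => (hcop a).unit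
  have hu : ∀ a, (q : 𝓞 K) ∣ lf q (u a) - (((b a : ZMod q).val : ℕ) : 𝓞 K) := by
    intro a
    apply dvd_of_mk
    rw [lf_spec, map_natCast]
    exact IsUnit.unit_spec _
  have hdq : (d : 𝓞 K) ∣ (q : 𝓞 K) := by exact_mod_cast (Nat.cast_dvd_cast hd)
  have hud : ∀ a, (d : 𝓞 K) ∣ lf q (u a) - (((b a : ZMod q).val : ℕ) : 𝓞 K) :=
    fun a => hdq.trans (hu a)
  refine ⟨fun a => F (u a), ?_, fun a => ⟨⟨u a, rfl⟩, ?_⟩⟩
  · intro a a' h
    have h1 : (d : 𝓞 K) ∣ lf q (u a) - lf q (u a') := by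
      apply dvd_of_mk
      rw [← hF, ← hF]
      exact congrArg _ h
    have h2 : (d : 𝓞 K) ∣ (((((b a : ZMod q).val : ℕ) : ℤ) - (((b a' : ZMod q).val : ℕ) : ℤ) : ℤ) :
        𝓞 K) := by
      have h3 := dvd_add (dvd_sub h1 (hud a)) (hud a')
      refine h3.trans (dvd_of_eq ?_)
      push_cast
      ring
    have h4 := cast_dvd S h2
    rw [← hb a, ← hb a']
    ext
    rw [ZMod.unitsMap_val, ZMod.unitsMap_val]
    rw [ZMod.cast_eq_val, ZMod.cast_eq_val]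
    have h5 := (ZMod.intCast_zmod_eq_zero_iff_dvd _ d).2 h4
    push_cast at h5
    exact sub_eq_zero.1 h5
  · intro v hv
    refine ⟨_, ⟨(((b a : ZMod q).val : ℕ) : ℤ), ?_⟩, rfl⟩
    have h1 : (d : 𝓞 K) ∣ lf q v - lf q (u a) := by
      apply dvd_of_mk
      rw [← hF, ← hF]
      exact congrArg _ hv
    refine (dvd_add h1 (hud a)).trans (dvd_of_eq ?_)
    push_cast
    ring

theorem main (ho : S_orth) (S : RQ K) {q d : ℕ} (hq : 2 ≤ q) (hd : d ∣ q) :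
    (XX K q d).ncard * Nat.totient d ≤
      (Fintype.card (ClassGroup (𝓞 K))) ^ (Fintype.card (ClassGroup (𝓞 K))) * d ^ 2 := by
  classical
  obtain ⟨hfin, -, horth⟩ := ho K S q d hq hd
  have hd0 : 0 < d := Nat.pos_of_dvd_of_pos hd (by omega)
  haveI : NeZero d := ⟨by omega⟩
  have hfA : Finite (Qt K q) := Ideal.finiteQuotientOfFreeOfNeBot _ (by
    rw [Ne, Ideal.span_singleton_eq_bot]
    exact_mod_cast (show q ≠ 0 by omega))
  have hfB : Finite (Qt K d) := Ideal.finiteQuotientOfFreeOfNeBot _ (by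
    rw [Ne, Ideal.span_singleton_eq_bot]
    exact_mod_cast (show d ≠ 0 by omega))
  haveI : Fintype (Qt K q)ˣ := Fintype.ofFinite _
  haveI : Fintype (Qt K d)ˣ := Fintype.ofFinite _
  have hdq : (d : 𝓞 K) ∣ (q : 𝓞 K) := by exact_mod_cast (Nat.cast_dvd_cast hd)
  have hle : Ideal.span {(q : 𝓞 K)} ≤ Ideal.span {(d : 𝓞 K)} :=
    Ideal.span_singleton_le_span_singleton.2 hdq
  let F : (Qt K q)ˣ →* (Qt K d)ˣ := Units.map (Ideal.Quotient.factor hle : Qt K q →* Qt K d)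
  have hF : ∀ u, ((F u : (Qt K d)ˣ) : Qt K d) = Ideal.Quotient.mk _ (lf q u) := by
    intro u
    show Ideal.Quotient.factor hle (u : Qt K q) = _
    rw [← lf_spec q u, Ideal.Quotient.factor_mk]
  obtain ⟨w, hw, hw2⟩ := exists_units S hq hd F hF
  set X := hfin.toFinset with hX
  have hXn : (XX K q d).ncard = X.card := Set.ncard_eq_toFinset_card _ hfin
  set κ := (Finset.univ.filter fun u : (Qt K q)ˣ => F u = 1).card with hκ
  have hκ0 : 0 < κ := Finset.card_pos.2 ⟨1, by simp⟩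
  have hfib : ∀ v ∈ Set.range F, (Finset.univ.filter fun u : (Qt K q)ˣ => F u = v).card = κ := by
    intro v hv
    exact MonoidHom.card_fiber_eq_of_mem_range F hv ⟨1, map_one F⟩
  set T := Finset.univ.filter fun u : (Qt K q)ˣ => Pr d (Ideal.span {lf q u}) with hT
  have hT1 : Nat.totient d * κ ≤ T.card := by
    have h1 : (Finset.univ.biUnion fun a : (ZMod d)ˣ =>
        Finset.univ.filter fun u : (Qt K q)ˣ => F u = w a) ⊆ T := by
      intro u hu
      rw [Finset.mem_biUnion] at hu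
      obtain ⟨a, -, ha⟩ := hu
      rw [hT, Finset.mem_filter]
      exact ⟨Finset.mem_univ _, (hw2 a).2 u (Finset.mem_filter.1 ha).2⟩
    refine le_trans (le_of_eq ?_) (Finset.card_le_card h1)
    rw [Finset.card_biUnion]
    · rw [Finset.sum_congr rfl fun a _ => hfib (w a) (hw2 a).1]
      rw [Finset.sum_const, Finset.card_univ, ZMod.card_units_eq_totient, smul_eq_mul]
    · intro a _ b _ hab
      rw [Function.onFun, Finset.disjoint_left]
      intro u hu hu'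
      exact hab (hw ((Finset.mem_filter.1 hu).2.symm.trans (Finset.mem_filter.1 hu').2))
  have hU1 : Fintype.card (Qt K q)ˣ ≤ d ^ 2 * κ := by
    have h1 : Fintype.card (Qt K q)ˣ =
        ∑ v : (Qt K d)ˣ, (Finset.univ.filter fun u : (Qt K q)ˣ => F u = v).card := by
      rw [← Finset.card_univ]
      exact Finset.card_eq_sum_card_fiberwise fun u _ => Finset.mem_coe.2 (Finset.mem_univ _)
    rw [h1]
    have h2 : ∀ v ∈ (Finset.univ : Finset (Qt K d)ˣ),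
        (Finset.univ.filter fun u : (Qt K q)ˣ => F u = v).card ≤ κ := by
      intro v _
      by_cases hv : v ∈ Set.range F
      · exact (hfib v hv).le
      · have : (Finset.univ.filter fun u : (Qt K q)ˣ => F u = v) = ∅ := by
          rw [Finset.filter_eq_empty_iff]
          intro u _ hu
          exact hv ⟨u, hu⟩
        rw [this]
        exact Nat.zero_le _
    refine (Finset.sum_le_sum h2).trans ?_
    rw [Finset.sum_const, smul_eq_mul]
    refine Nat.mul_le_mul_right _ ?_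
    rw [Finset.card_univ, ← card_qt S d, ← Nat.card_eq_fintype_card]
    exact Nat.card_le_card_of_injective _ Units.val_injective
  set X0 := X.filter fun χ => ∀ u : (Qt K q)ˣ, χ (Ideal.span {lf q u}) = 1 with hX0
  have hmem : ∀ χ ∈ X, IsRC q χ := fun χ hχ => (hfin.mem_toFinset.1 hχ).1
  have hX0c : X0.card ≤ (Fintype.card (ClassGroup (𝓞 K))) ^ (Fintype.card (ClassGroup (𝓞 K))) := by
    refine card_triv q X0 fun χ hχ => ?_
    rw [hX0, Finset.mem_filter] at hχ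
    refine ⟨hmem χ hχ.1, fun x hx => ?_⟩
    have hux : IsUnit (Ideal.Quotient.mk (Ideal.span {(q : 𝓞 K)}) x) := by
      obtain ⟨a, b, hab⟩ := hx
      refine IsUnit.of_mul_eq_one (Ideal.Quotient.mk _ a) ?_
      rw [← map_mul, ← map_one (Ideal.Quotient.mk (Ideal.span {(q : 𝓞 K)})), Ideal.Quotient.eq,
        Ideal.mem_span_singleton]
      exact ⟨-b, by linear_combination hab⟩
    rw [chi_congr (hmem χ hχ.1) hx (y := lf q hux.unit)]
    · exact hχ.2 _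
    · apply dvd_of_mk
      rw [lf_spec, IsUnit.unit_spec]
  have hsum1 : ∑ u : (Qt K q)ˣ, ∑ χ ∈ X, χ (Ideal.span {lf q u}) = (X.card : ℂ) * T.card := by
    have h1 : ∀ u : (Qt K q)ˣ, ∑ χ ∈ X, χ (Ideal.span {lf q u}) =
        if Pr d (Ideal.span {lf q u}) then (X.card : ℂ) else 0 := by
      intro u
      have h2 := horth (Ideal.span {lf q u}) (cop_span.2 (lf_cop q u))
      rw [finsum_mem_eq_finite_toFinset_sum _ hfin, hXn] at h2
      split_ifs with h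
      · exact h2.1 h
      · exact h2.2 h
    rw [Finset.sum_congr rfl fun u _ => h1 u, ← Finset.sum_filter, Finset.sum_const, nsmul_eq_mul,
      mul_comm]
  have hsum2 : ∑ u : (Qt K q)ˣ, ∑ χ ∈ X, χ (Ideal.span {lf q u}) =
      (Fintype.card (Qt K q)ˣ : ℂ) * X0.card := by
    rw [Finset.sum_comm]
    rw [Finset.sum_congr rfl fun χ hχ => sum_chi (hmem χ hχ), ← Finset.sum_filter, Finset.sum_const,
      nsmul_eq_mul, mul_comm]
  have heq : X.card * T.card = Fintype.card (Qt K q)ˣ * X0.card := by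
    exact_mod_cast hsum1.symm.trans hsum2
  rw [hXn]
  refine Nat.le_of_mul_le_mul_right ?_ hκ0
  calc X.card * Nat.totient d * κ = X.card * (Nat.totient d * κ) := by ring
    _ ≤ X.card * T.card := Nat.mul_le_mul_left _ hT1
    _ = Fintype.card (Qt K q)ˣ * X0.card := heq
    _ ≤ (d ^ 2 * κ) * (Fintype.card (ClassGroup (𝓞 K))) ^ (Fintype.card (ClassGroup (𝓞 K))) :=
        Nat.mul_le_mul hU1 hX0c
    _ = _ := by ring

end Pool.Agent.NH12.RS.CU92

namespace Pool.Agent.NH12.RS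

theorem t_cardU (ho : S_orth) : S_cardU := by
  intro K _ _ S
  refine ⟨((Fintype.card (ClassGroup (𝓞 K)) : ℝ)) ^ (Fintype.card (ClassGroup (𝓞 K))), ?_, ?_⟩
  · have : 0 < Fintype.card (ClassGroup (𝓞 K)) := Fintype.card_pos
    positivity
  · intro q d hq hd
    exact_mod_cast CU92.main ho S hq hd

end Pool.Agent.NH12.RS
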