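import Pool.Agent.NH12.RS.Stm

/-! # Ideals generated by rational integers -/

set_option autoImplicit false
set_option linter.unusedSectionVars false

open NumberField

namespace Pool.Agent.NH12.RS

variable {K : Type} [Field K] [NumberField K]

lemma ideal_sq_inj {𝔞 𝔟 : Ideal (𝓞 K)} (ha : 𝔞 ≠ ⊥) (hb : 𝔟 ≠ ⊥) (h : 𝔞 ^ 2 = 𝔟 ^ 2) : 𝔞 = 𝔟 := by
  classical
  have h1 := congrArg UniqueFactorizationMonoid.normalizedFactors h
  rw [UniqueFactorizationMonoid.normalizedFactors_pow,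
    UniqueFactorizationMonoid.normalizedFactors_pow] at h1
  have h2 : UniqueFactorizationMonoid.normalizedFactors 𝔞 =
      UniqueFactorizationMonoid.normalizedFactors 𝔟 := by
    ext p
    have h3 := congrArg (Multiset.count p) h1
    rw [Multiset.count_nsmul, Multiset.count_nsmul] at h3
    omega
  rw [← Ideal.prod_normalizedFactors_eq_self ha, ← Ideal.prod_normalizedFactors_eq_self hb, h2]

lemma absNorm_nat (m : ℕ) :
    Ideal.absNorm (Ideal.span {(m : 𝓞 K)}) = m ^ Module.finrank ℤ (𝓞 K) := by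
  rw [Ideal.absNorm_span_singleton, Algebra.norm_natCast, Int.natAbs_pow, Int.natAbs_natCast]

lemma rank_pos : 0 < Module.finrank ℤ (𝓞 K) := by
  rw [RingOfIntegers.rank K]
  exact Module.finrank_pos

lemma natCast_dvd_of_mem {p : ℕ} (hp : p.Prime) {A B : ℕ} (hA : p ∣ A) (hB : p ∣ B) {x y : 𝓞 K}
    (h : x * (A : 𝓞 K) + y * (B : 𝓞 K) = 1) : False := by
  have h1 : (p : 𝓞 K) ∣ 1 := by
    rw [← h]
    exact dvd_add (Dvd.dvd.mul_left (Nat.cast_dvd_cast (α := 𝓞 K) hA) _)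
      (Dvd.dvd.mul_left (Nat.cast_dvd_cast (α := 𝓞 K) hB) _)
  have h2 : Ideal.span {(p : 𝓞 K)} = ⊤ :=
    Ideal.span_singleton_eq_top.mpr (isUnit_of_dvd_one h1)
  have h3 := absNorm_nat (K := K) p
  rw [h2, Ideal.absNorm_top] at h3
  have h4 : 1 < p ^ Module.finrank ℤ (𝓞 K) := Nat.one_lt_pow rank_pos.ne' hp.one_lt
  omega

theorem t_diag (hc : S_conj) : S_diag := by
  intro K _ _ S 𝔣₀ 𝔞 hf hinv hco hR
  obtain ⟨hmul, hcc, hN, hsp, hnorm⟩ := hc K S
  obtain ⟨b, hb0, hb⟩ := hR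
  have hb1 : Ideal.span {(b : 𝓞 K)} ≠ ⊥ := by
    rw [Ne, Ideal.span_singleton_eq_bot]
    exact_mod_cast hb0.ne'
  have ha : 𝔞 ≠ ⊥ := by
    rintro rfl
    rw [Ideal.mul_bot] at hb
    exact hb1 hb.symm
  -- `𝔞` is invariant
  have h1 : S.cj 𝔞 = 𝔞 := by
    have h2 : S.cj (𝔣₀ * 𝔞) = 𝔣₀ * 𝔞 := by
      rw [hb, hsp, map_natCast]
    rw [hmul, hinv] at h2
    exact mul_left_cancel₀ hf h2
  have hA := hnorm 𝔞
  have hF := hnorm 𝔣₀
  rw [h1] at hA
  rw [hinv] at hF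
  set A := Ideal.absNorm 𝔞 with hAdef
  set F := Ideal.absNorm 𝔣₀ with hFdef
  have hA0 : A ≠ 0 := fun h => ha (Ideal.absNorm_eq_zero_iff.mp h)
  have hF0 : F ≠ 0 := fun h => hf (Ideal.absNorm_eq_zero_iff.mp h)
  have hcop : Nat.Coprime A F := by
    have h3 : IsCoprime (𝔞 * 𝔞) (𝔣₀ * 𝔣₀) := by
      exact IsCoprime.mul_left (IsCoprime.mul_right hco hco) (IsCoprime.mul_right hco hco)
    rw [hA, hF, Ideal.isCoprime_span_singleton_iff] at h3
    obtain ⟨x, y, hxy⟩ := h3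
    by_contra hn
    obtain ⟨p, hp, hpA, hpF⟩ := Nat.Prime.not_coprime_iff_dvd.mp hn
    exact natCast_dvd_of_mem hp hpA hpF hxy
  -- the square
  have hFA : F * A = b ^ 2 := by
    have h5 : Ideal.span {((F * A : ℕ) : 𝓞 K)} = Ideal.span {((b ^ 2 : ℕ) : 𝓞 K)} := by
      push_cast
      rw [← Ideal.span_singleton_mul_span_singleton, ← hF, ← hA, sq (b : 𝓞 K),
        ← Ideal.span_singleton_mul_span_singleton, ← hb]
      ring
    have h6 := congrArg Ideal.absNorm h5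
    rw [absNorm_nat, absNorm_nat] at h6
    exact Nat.pow_left_injective rank_pos.ne' h6
  -- `F` is a square
  have hFsq : ∃ c : ℕ, F = c ^ 2 := by
    have h3 : IsCoprime (F : ℤ) (A : ℤ) := Nat.isCoprime_iff_coprime.mpr hcop.symm
    have h4 : (F : ℤ) * A = (b : ℤ) ^ 2 := by exact_mod_cast hFA
    obtain ⟨c, hc⟩ := Int.sq_of_isCoprime h3 h4
    refine ⟨c.natAbs, ?_⟩
    rcases hc with hc | hc
    · have : (F : ℤ) = ((c.natAbs ^ 2 : ℕ) : ℤ) := by
        rw [hc]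
        push_cast
        rw [sq_abs]
      exact_mod_cast this
    · exfalso
      have h5 : (0 : ℤ) < F := by exact_mod_cast Nat.pos_of_ne_zero hF0
      nlinarith [sq_nonneg c]
  obtain ⟨c, hc⟩ := hFsq
  have hc0 : c ≠ 0 := by
    rintro rfl
    exact hF0 (by rw [hc]; norm_num)
  refine ⟨c, Nat.pos_of_ne_zero hc0, ?_⟩
  refine ideal_sq_inj hf ?_ ?_
  · rw [Ne, Ideal.span_singleton_eq_bot]
    exact_mod_cast hc0
  · rw [sq, hF, hc, Ideal.span_singleton_pow]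
    push_cast
    rfl

end Pool.Agent.NH12.RS
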