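import Pool.Agent.NH12.RS.Stm

/-!
# Project RS, job RS5: the lattice count (helper48)
-/

set_option autoImplicit false
set_option linter.unusedSectionVars false

open NumberField Complex

namespace Pool.Agent.NH12.RS

namespace Lat48

variable {K : Type} [Field K] [NumberField K]

theorem zd_mul {d : ℕ} {x y : 𝓞 K} (hx : Zd d x) (hy : Zd d y) : Zd d (x * y) := by
  obtain ⟨a, u, hu⟩ := hx
  obtain ⟨b, v, hv⟩ := hy
  have h1 : x = a + d * u := by rw [← hu]; ring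
  have h2 : y = b + d * v := by rw [← hv]; ring
  refine ⟨a * b, a * v + b * u + d * u * v, ?_⟩
  rw [h1, h2]
  push_cast
  ring

theorem zd_one (d : ℕ) : Zd d (1 : 𝓞 K) := ⟨1, by simp⟩

theorem zd_neg {d : ℕ} {x : 𝓞 K} (hx : Zd d x) : Zd d (-x) := by
  obtain ⟨a, u, hu⟩ := hx
  refine ⟨-a, -u, ?_⟩
  push_cast
  rw [mul_neg, ← hu]
  ring

theorem zd_pow {d : ℕ} {x : 𝓞 K} (hx : Zd d x) (n : ℕ) : Zd d (x ^ n) := by
  induction n with
  | zero => rw [pow_zero]; exact zd_one d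
  | succ n ih => rw [pow_succ]; exact zd_mul ih hx

theorem zd_mono {d q : ℕ} (h : d ∣ q) {x : 𝓞 K} (hx : Zd q x) : Zd d x := by
  obtain ⟨a, ha⟩ := hx
  refine ⟨a, dvd_trans ?_ ha⟩
  obtain ⟨c, rfl⟩ := h
  exact ⟨c, by push_cast; ring⟩

variable (S : RQ K)

theorem zd_sig {d : ℕ} {x : 𝓞 K} (hx : Zd d x) : Zd d (S.σ x) := by
  obtain ⟨a, u, hu⟩ := hx
  refine ⟨a, S.σ u, ?_⟩
  have h := congrArg S.σ hu
  rwa [map_sub, map_mul, map_intCast, map_natCast] at h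

theorem unit_norm (u : (𝓞 K)ˣ) : (u : 𝓞 K) * S.σ u = 1 ∨ (u : 𝓞 K) * S.σ u = -1 := by
  have h1 : IsUnit (Algebra.norm ℤ (u : 𝓞 K)) := u.isUnit.map (Algebra.norm ℤ)
  rw [← S.norm]
  rcases Int.isUnit_iff.1 h1 with h | h
  · left
    rw [h]
    norm_num
  · right
    rw [h]
    norm_num

include S in
theorem zd_inv {d : ℕ} {u : (𝓞 K)ˣ} (hu : Zd d (u : 𝓞 K)) : Zd d ((u⁻¹ : (𝓞 K)ˣ) : 𝓞 K) := by
  rcases unit_norm S u with h | h
  · rw [Units.inv_eq_of_mul_eq_one_right h]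
    exact zd_sig S hu
  · have h1 : (u : 𝓞 K) * -S.σ u = 1 := by rw [mul_neg, h, neg_neg]
    rw [Units.inv_eq_of_mul_eq_one_right h1]
    exact zd_neg (zd_sig S hu)

include S in
theorem zd_zpow {d : ℕ} {u : (𝓞 K)ˣ} (hu : Zd d (u : 𝓞 K)) (k : ℤ) :
    Zd d ((u ^ k : (𝓞 K)ˣ) : 𝓞 K) := by
  rcases k with k | k
  · rw [Int.ofNat_eq_natCast, zpow_natCast, Units.val_pow_eq_pow_val]
    exact zd_pow hu k
  · rw [zpow_negSucc, ← inv_pow, Units.val_pow_eq_pow_val]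
    exact zd_pow (zd_inv S hu) _

theorem abs_norm (x : 𝓞 K) :
    |S.τ x| * |S.τ (S.σ x)| = (Ideal.absNorm (Ideal.span {x}) : ℝ) := by
  rw [Ideal.absNorm_span_singleton, Nat.cast_natAbs, Int.cast_abs, ← abs_mul, ← map_mul, ← S.norm,
    map_intCast]

theorem tau_pos {x : 𝓞 K} (hx : x ≠ 0) : 0 < |S.τ x| := by
  rw [abs_pos]
  intro h
  exact hx (S.inj (h.trans (map_zero S.τ).symm))

theorem sig_ne {x : 𝓞 K} (hx : x ≠ 0) : S.σ x ≠ 0 := by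
  intro h
  exact hx (by rw [← S.inv x, h, map_zero])

theorem tau_unit (u : (𝓞 K)ˣ) : |S.τ (u : 𝓞 K)| * |S.τ (S.σ (u : 𝓞 K))| = 1 := by
  rw [← abs_mul, ← map_mul]
  rcases unit_norm S u with h | h
  · rw [h, map_one, abs_one]
  · rw [h, map_neg, map_one, abs_neg, abs_one]

theorem tau_zpow (u : (𝓞 K)ˣ) (k : ℤ) :
    |S.τ ((u ^ k : (𝓞 K)ˣ) : 𝓞 K)| = |S.τ (u : 𝓞 K)| ^ k := by
  have h1 : ∀ v : (𝓞 K)ˣ, S.τ (v : 𝓞 K) = ((Units.map (S.τ : 𝓞 K →* ℝ) v : ℝˣ) : ℝ) := fun _ => rfl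
  rw [h1, map_zpow, Units.val_zpow_eq_zpow_val, abs_zpow]
  rfl

/-- A balanced generator. -/
theorem exists_bal {n q d : ℕ} (hn : 0 < n) (hdq : d ∣ q) (hε : Zd q ((S.ε : 𝓞 K) ^ n))
    {x : 𝓞 K} (hx : x ≠ 0) (hd : Zd d x) : ∃ y : 𝓞 K, Ideal.span {y} = Ideal.span {x} ∧ y ≠ 0 ∧
      Zd d y ∧ |S.τ y| ≤ S.τ S.ε ^ n * |S.τ (S.σ y)| ∧ |S.τ (S.σ y)| ≤ S.τ S.ε ^ n * |S.τ y| := by
  set E : ℝ := S.τ S.ε ^ n with hE
  have hE1 : 1 < E := one_lt_pow₀ S.one_lt hn.ne'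
  have hE0 : 0 < E := zero_lt_one.trans hE1
  have hx1 := tau_pos S hx
  have hx2 := tau_pos S (sig_ne S hx)
  obtain ⟨m, hm1, hm2⟩ := exists_mem_Ico_zpow
    (show 0 < |S.τ x| / |S.τ (S.σ x)| * E by positivity) (show 1 < E ^ 2 by nlinarith)
  let u : (𝓞 K)ˣ := (S.ε ^ n) ^ (-m)
  have hu0 : Zd d (((S.ε ^ n : (𝓞 K)ˣ)) : 𝓞 K) := by
    rw [Units.val_pow_eq_pow_val]
    exact zd_mono hdq hε
  have hu1 : Zd d (u : 𝓞 K) := zd_zpow S hu0 (-m)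
  have hu2 : |S.τ (u : 𝓞 K)| = E ^ (-m) := by
    change |S.τ (((S.ε ^ n) ^ (-m) : (𝓞 K)ˣ) : 𝓞 K)| = E ^ (-m)
    rw [tau_zpow, Units.val_pow_eq_pow_val, map_pow, abs_of_pos (by rw [← hE]; exact hE0)]
  have hu3 : |S.τ (S.σ (u : 𝓞 K))| = E ^ m := by
    have h1 := tau_unit S u
    rw [hu2, zpow_neg] at h1
    have h2 : E ^ m ≠ 0 := (zpow_pos hE0 m).ne'
    field_simp at h1
    linarith
  have hEm : 0 < E ^ m := zpow_pos hE0 m
  have h2m : (E ^ 2) ^ m = E ^ m * E ^ m := by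
    rw [← mul_zpow]
    congr 1
    ring
  rw [zpow_add_one₀ (by positivity), h2m] at hm2
  rw [h2m] at hm1
  refine ⟨x * u, ?_, mul_ne_zero hx u.ne_zero, zd_mul hd hu1, ?_, ?_⟩
  · exact Ideal.span_singleton_mul_right_unit u.isUnit x
  · rw [map_mul, map_mul, abs_mul, hu2, map_mul, abs_mul, hu3, zpow_neg]
    have h1 : |S.τ x| / |S.τ (S.σ x)| * E < E ^ m * E ^ m * E ^ 2 := hm2
    rw [div_mul_eq_mul_div, div_lt_iff₀ hx2] at h1
    have h2 : |S.τ x| ≤ E ^ m * E ^ m * E * |S.τ (S.σ x)| := by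
      have h3 : |S.τ x| * E < E ^ m * E ^ m * E * |S.τ (S.σ x)| * E := by linarith
      exact (lt_of_mul_lt_mul_right h3 hE0.le).le
    rw [mul_inv_le_iff₀ hEm]
    linarith
  · rw [map_mul, map_mul, abs_mul, hu3, map_mul, abs_mul, hu2, zpow_neg]
    have h1 : E ^ m * E ^ m ≤ |S.τ x| / |S.τ (S.σ x)| * E := hm1
    rw [div_mul_eq_mul_div, le_div_iff₀ hx2] at h1
    have h2 : E * (|S.τ x| * (E ^ m)⁻¹) = |S.τ x| * E * (E ^ m)⁻¹ := by ring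
    rw [h2, le_mul_inv_iff₀ hEm]
    linarith

/-- The pairs to be counted. -/
noncomputable def PW (w δ : ℝ) (d : ℕ) (Y : ℝ) (B : ℕ) : Finset (ℤ × ℕ) :=
  (Finset.Icc 1 B).biUnion fun m =>
    (Finset.Icc ⌈-(m * d * w) - 2 * Y / (m * d * δ)⌉ ⌊-(m * d * w) + 2 * Y / (m * d * δ)⌋).image
      fun A => (A, m)

theorem mem_PW {w δ : ℝ} {d : ℕ} {Y : ℝ} {B : ℕ} {A : ℤ} {m : ℕ} (hm : 1 ≤ m) (hmB : m ≤ B)
    (h : |(A : ℝ) + m * d * w| ≤ 2 * Y / (m * d * δ)) : (A, m) ∈ PW w δ d Y B := by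
  unfold PW
  rw [Finset.mem_biUnion]
  refine ⟨m, Finset.mem_Icc.2 ⟨hm, hmB⟩, Finset.mem_image.2 ⟨A, ?_, rfl⟩⟩
  rw [abs_le] at h
  rw [Finset.mem_Icc, Int.ceil_le, Int.le_floor]
  constructor <;> linarith [h.1, h.2]

theorem card_int (y M : ℝ) (hM : 0 ≤ M) :
    ((Finset.Icc ⌈y - M⌉ ⌊y + M⌋).card : ℝ) ≤ 2 * M + 1 := by
  rw [Int.card_Icc]
  rcases le_or_gt 0 (⌊y + M⌋ + 1 - ⌈y - M⌉) with h | h
  · have h1 : ((⌊y + M⌋ + 1 - ⌈y - M⌉).toNat : ℝ) = ((⌊y + M⌋ + 1 - ⌈y - M⌉ : ℤ) : ℝ) := by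
      rw [← Int.cast_natCast, Int.toNat_of_nonneg h]
    rw [h1]
    push_cast
    have h2 := Int.floor_le (y + M)
    have h3 := Int.le_ceil (y - M)
    linarith
  · rw [Int.toNat_of_nonpos h.le, Nat.cast_zero]
    linarith

theorem card_PW {w δ : ℝ} {d : ℕ} {Y : ℝ} {B : ℕ} (hδ : 0 < δ) (hd : 0 < d) (hY : 0 ≤ Y) :
    ((PW w δ d Y B).card : ℝ) ≤ 4 * Y / (d * δ) * (1 + Real.log B) + B := by
  have hd' : (0 : ℝ) < d := Nat.cast_pos.2 hd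
  have h1 : ((PW w δ d Y B).card : ℝ) ≤ ∑ m ∈ Finset.Icc 1 B, (2 * (2 * Y / (m * d * δ)) + 1) := by
    have h2 : (PW w δ d Y B).card ≤ ∑ m ∈ Finset.Icc 1 B,
        (Finset.Icc ⌈-(m * d * w) - 2 * Y / (m * d * δ)⌉
          ⌊-(m * d * w) + 2 * Y / (m * d * δ)⌋).card := by
      refine Finset.card_biUnion_le.trans (Finset.sum_le_sum fun m _ => Finset.card_image_le)
    refine (Nat.cast_le.2 h2).trans ?_
    rw [Nat.cast_sum]
    refine Finset.sum_le_sum fun m _ => card_int _ _ (by positivity)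
  refine h1.trans ?_
  rw [Finset.sum_add_distrib, Finset.sum_const, Nat.card_Icc, Nat.add_sub_cancel, nsmul_eq_mul,
    mul_one]
  have h3 : ∑ m ∈ Finset.Icc 1 B, 2 * (2 * Y / ((m : ℝ) * d * δ)) =
      4 * Y / (d * δ) * ∑ m ∈ Finset.Icc 1 B, ((m : ℝ))⁻¹ := by
    rw [Finset.mul_sum]
    refine Finset.sum_congr rfl fun m hm => ?_
    have hm' : (0 : ℝ) < m := Nat.cast_pos.2 (Finset.mem_Icc.1 hm).1
    field_simp
    ring
  rw [h3]
  have h4 : ∑ m ∈ Finset.Icc 1 B, ((m : ℝ))⁻¹ ≤ 1 + Real.log B := by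
    have h5 := harmonic_le_one_add_log B
    rw [harmonic_eq_sum_Icc] at h5
    push_cast at h5
    exact h5
  have h6 : 0 ≤ 4 * Y / ((d : ℝ) * δ) := by positivity
  have h7 := mul_le_mul_of_nonneg_left h4 h6
  linarith

/-- The estimate for one generator. -/
theorem one_gen {u v E Y δ : ℝ} {d m : ℕ} (hδ : 0 < δ) (hd : 0 < d) (hm : 1 ≤ m) (hE : 0 ≤ E)
    (huv : |v| ≤ |u|) (hu : |u| ≤ E * |v|) (hY : |u| * |v| ≤ Y)
    (h : (m : ℝ) * d * δ ≤ |u| + |v|) :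
    m ≤ ⌊2 * Real.sqrt (E * Y) / (d * δ)⌋₊ ∧ |v| ≤ 2 * Y / (m * d * δ) := by
  have hd' : (0 : ℝ) < d := Nat.cast_pos.2 hd
  have hm' : (0 : ℝ) < m := Nat.cast_pos.2 hm
  have h1 : (m : ℝ) * d * δ ≤ 2 * |u| := by linarith
  have hY0 : 0 ≤ Y := le_trans (by positivity) hY
  constructor
  · rw [Nat.le_floor_iff (by positivity), le_div_iff₀ (by positivity)]
    have h2 : |u| ≤ Real.sqrt (E * Y) := by
      apply Real.le_sqrt_of_sq_le
      calc |u| ^ 2 = |u| * |u| := sq _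
        _ ≤ |u| * (E * |v|) := mul_le_mul_of_nonneg_left hu (abs_nonneg _)
        _ = E * (|u| * |v|) := by ring
        _ ≤ E * Y := mul_le_mul_of_nonneg_left hY hE
    calc (m : ℝ) * (d * δ) = m * d * δ := by ring
      _ ≤ 2 * |u| := h1
      _ ≤ 2 * Real.sqrt (E * Y) := by linarith
  · rw [le_div_iff₀ (by positivity)]
    calc |v| * (m * d * δ) ≤ |v| * (2 * |u|) := mul_le_mul_of_nonneg_left h1 (abs_nonneg _)
      _ = 2 * (|u| * |v|) := by ring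
      _ ≤ 2 * Y := by linarith

/-- A positive generator. -/
theorem exists_gen {d : ℕ} {y : 𝓞 K} (hy : Zd d y) (hR : ¬ Rat (Ideal.span {y})) (hy0 : y ≠ 0) :
    ∃ (A : ℤ) (m : ℕ), 1 ≤ m ∧ Ideal.span {y} = Ideal.span {(A : 𝓞 K) + m * d * S.ω} ∧
      (|S.τ y| = |(A : ℝ) + m * d * S.τ S.ω|) ∧
      |S.τ (S.σ y)| = |(A : ℝ) + m * d * S.τ (S.σ S.ω)| := by
  obtain ⟨a, z, hz⟩ := hy
  obtain ⟨a', b, rfl⟩ := S.basis z
  have hy1 : y = ((a + d * a' : ℤ) : 𝓞 K) + b * d * S.ω := by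
    have : y = a + d * (a' + b * S.ω) := by rw [← hz]; ring
    rw [this]
    push_cast
    ring
  generalize hA : a + d * a' = A at hy1
  have hb : b ≠ 0 := by
    rintro rfl
    apply hR
    rw [Int.cast_zero, zero_mul, zero_mul, add_zero] at hy1
    have hA0 : A ≠ 0 := by
      rintro rfl
      rw [Int.cast_zero] at hy1
      exact hy0 hy1
    refine ⟨A.natAbs, Int.natAbs_pos.2 hA0, ?_⟩
    rw [hy1]
    rcases Int.natAbs_eq A with h | h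
    · conv_lhs => rw [h]
      rw [Int.cast_natCast]
    · conv_lhs => rw [h]
      rw [Int.cast_neg, Int.cast_natCast, Ideal.span_singleton_neg]
  have ht : ∀ (A b : ℤ), S.τ ((A : 𝓞 K) + b * d * S.ω) = (A : ℝ) + b * d * S.τ S.ω := by
    intro A b
    rw [map_add, map_mul, map_mul, map_intCast, map_intCast, map_natCast]
  have hs : ∀ (A b : ℤ), S.τ (S.σ ((A : 𝓞 K) + b * d * S.ω)) =
      (A : ℝ) + b * d * S.τ (S.σ S.ω) := by
    intro A b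
    rw [map_add, map_mul, map_mul, map_intCast, map_intCast, map_natCast, map_add, map_mul,
      map_mul, map_intCast, map_intCast, map_natCast]
  rcases lt_or_gt_of_ne hb with h | h
  · obtain ⟨m, hm⟩ := Int.eq_ofNat_of_zero_le (show 0 ≤ -b by omega)
    have hb' : b = -(m : ℤ) := by omega
    have hneg : y = -(((-A : ℤ) : 𝓞 K) + m * d * S.ω) := by
      rw [hy1, hb']
      push_cast
      ring
    have h1 : S.τ y = -((((-A : ℤ) : ℝ)) + m * d * S.τ S.ω) := by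
      rw [hy1, ht, hb']
      push_cast
      ring
    have h2 : S.τ (S.σ y) = -((((-A : ℤ) : ℝ)) + m * d * S.τ (S.σ S.ω)) := by
      rw [hy1, hs, hb']
      push_cast
      ring
    refine ⟨-A, m, by omega, ?_, ?_, ?_⟩
    · rw [hneg, Ideal.span_singleton_neg]
    · rw [h1, abs_neg]
    · rw [h2, abs_neg]
  · obtain ⟨m, hm⟩ := Int.eq_ofNat_of_zero_le (show 0 ≤ b by omega)
    have hb' : b = (m : ℤ) := by omega
    refine ⟨A, m, by omega, ?_, ?_, ?_⟩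
    · rw [hy1, hb', Int.cast_natCast]
    · rw [hy1, ht, hb', Int.cast_natCast]
    · rw [hy1, hs, hb', Int.cast_natCast]

/-- The ideals are among finitely many. -/
theorem subset_img {n q d : ℕ} (hn : 0 < n) (hd0 : 0 < d) (hdq : d ∣ q)
    (hε : Zd q ((S.ε : 𝓞 K) ^ n)) (Y : ℝ) (𝔞 : Ideal (𝓞 K)) (h0 : 𝔞 ≠ ⊥) (hp : Pr d 𝔞)
    (hR : ¬ Rat 𝔞) (hN : (Ideal.absNorm 𝔞 : ℝ) ≤ Y) :
    ∃ x ∈ PW (S.τ S.ω) (S.τ (S.ω - S.σ S.ω)) d Y
        ⌊2 * Real.sqrt (S.τ S.ε ^ n * Y) / (d * S.τ (S.ω - S.σ S.ω))⌋₊ ∪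
      PW (S.τ (S.σ S.ω)) (S.τ (S.ω - S.σ S.ω)) d Y
        ⌊2 * Real.sqrt (S.τ S.ε ^ n * Y) / (d * S.τ (S.ω - S.σ S.ω))⌋₊,
      𝔞 = Ideal.span {((x.1 : ℤ) : 𝓞 K) + (x.2 : 𝓞 K) * d * S.ω} := by
  obtain ⟨x, hx, rfl⟩ := hp
  have hx0 : x ≠ 0 := by
    rintro rfl
    exact h0 Ideal.span_singleton_zero
  obtain ⟨y, hy1, hy2, hy3, hy4, hy5⟩ := exists_bal S hn hdq hε hx0 hx
  rw [← hy1] at hR hN ⊢
  obtain ⟨A, m, hm, h1, h2, h3⟩ := exists_gen S hy3 hR hy2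
  rw [← abs_norm S, h2, h3] at hN
  rw [h2, h3] at hy4 hy5
  have hE : 0 ≤ S.τ S.ε ^ n := pow_nonneg (zero_le_one.trans S.one_lt.le) n
  have hkey : (m : ℝ) * d * S.τ (S.ω - S.σ S.ω) ≤
      |(A : ℝ) + m * d * S.τ S.ω| + |(A : ℝ) + m * d * S.τ (S.σ S.ω)| := by
    have h4 : (m : ℝ) * d * S.τ (S.ω - S.σ S.ω) =
        ((A : ℝ) + m * d * S.τ S.ω) - ((A : ℝ) + m * d * S.τ (S.σ S.ω)) := by
      rw [map_sub]
      ring
    rw [h4]
    have h5 := le_abs_self ((A : ℝ) + m * d * S.τ S.ω)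
    have h6 := neg_abs_le ((A : ℝ) + m * d * S.τ (S.σ S.ω))
    linarith
  refine ⟨(A, m), ?_, h1⟩
  rw [Finset.mem_union]
  rcases le_total |(A : ℝ) + m * d * S.τ (S.σ S.ω)| |(A : ℝ) + m * d * S.τ S.ω| with h | h
  · right
    obtain ⟨h7, h8⟩ := one_gen S.pos hd0 hm hE h hy4 hN hkey
    exact mem_PW hm h7 h8
  · left
    obtain ⟨h7, h8⟩ := one_gen (Y := Y) S.pos hd0 hm hE h hy5 (by rw [mul_comm]; exact hN)
      (by rw [add_comm]; exact hkey)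
    exact mem_PW hm h7 h8

end Lat48

open Lat48 in
/-- LAT. -/
theorem t_lat (h : S_seq) (_hc : S_conj) : S_lat := by
  intro K _ _ S
  obtain ⟨-, C₀, n₀, hC₀, hS⟩ := h K S
  set δ : ℝ := S.τ (S.ω - S.σ S.ω) with hδ'
  have hδ : 0 < δ := S.pos
  set L : ℝ := |Real.log (2 * Real.sqrt C₀ / δ)| with hL
  have hL0 : 0 ≤ L := abs_nonneg _
  have hs0 : 0 < Real.sqrt C₀ := Real.sqrt_pos.2 (by linarith)
  refine ⟨8 * (1 + L) / δ + 4 * Real.sqrt C₀ / δ, n₀, by positivity, ?_⟩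
  intro n q hn hU d hdq Y hY
  obtain ⟨hε, -, -, hE, -⟩ := hS n q hn hU
  have hn0 : 0 < n := hU.prime.pos
  have hE1 : 1 < S.τ S.ε ^ n := one_lt_pow₀ S.one_lt hn0.ne'
  have hq : 0 < q := by
    rcases Nat.eq_zero_or_pos q with h0 | h0
    · rw [h0, Nat.cast_zero, mul_zero] at hE
      linarith
    · exact h0
  have hd0 : 0 < d := Nat.pos_of_dvd_of_pos hdq hq
  have hq' : (1 : ℝ) ≤ q := Nat.one_le_cast.2 hq
  have hd' : (1 : ℝ) ≤ d := Nat.one_le_cast.2 hd0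
  set B : ℕ := ⌊2 * Real.sqrt (S.τ S.ε ^ n * Y) / (d * δ)⌋₊ with hB
  set T : Finset (ℤ × ℕ) := PW (S.τ S.ω) δ d Y B ∪ PW (S.τ (S.σ S.ω)) δ d Y B with hT
  let f : ℤ × ℕ → Ideal (𝓞 K) := fun x => Ideal.span {((x.1 : ℤ) : 𝓞 K) + (x.2 : 𝓞 K) * d * S.ω}
  have hsub : {𝔞 : Ideal (𝓞 K) | 𝔞 ≠ ⊥ ∧ Pr d 𝔞 ∧ ¬ Rat 𝔞 ∧ (Ideal.absNorm 𝔞 : ℝ) ≤ Y} ⊆
      f '' (T : Set (ℤ × ℕ)) := by
    rintro 𝔞 ⟨h1, h2, h3, h4⟩
    obtain ⟨x, hx, hx'⟩ := subset_img S hn0 hd0 hdq hε Y 𝔞 h1 h2 h3 h4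
    exact ⟨x, hx, hx'.symm⟩
  have hfin : (f '' (T : Set (ℤ × ℕ))).Finite := T.finite_toSet.image f
  refine ⟨hfin.subset hsub, ?_⟩
  have h1 : ({𝔞 : Ideal (𝓞 K) | 𝔞 ≠ ⊥ ∧ Pr d 𝔞 ∧ ¬ Rat 𝔞 ∧
      (Ideal.absNorm 𝔞 : ℝ) ≤ Y}.ncard : ℝ) ≤ T.card := by
    refine Nat.cast_le.2 ?_
    refine (Set.ncard_le_ncard hsub hfin).trans ?_
    refine (Set.ncard_image_le T.finite_toSet).trans ?_
    rw [Set.ncard_coe_finset]
  have h2 : (T.card : ℝ) ≤ 2 * (4 * Y / (d * δ) * (1 + Real.log B) + B) := by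
    have h3 : (T.card : ℝ) ≤ (PW (S.τ S.ω) δ d Y B).card + (PW (S.τ (S.σ S.ω)) δ d Y B).card := by
      exact_mod_cast Finset.card_union_le _ _
    have h4 := card_PW (w := S.τ S.ω) (B := B) hδ hd0 (zero_le_one.trans hY)
    have h5 := card_PW (w := S.τ (S.σ S.ω)) (B := B) hδ hd0 (zero_le_one.trans hY)
    linarith
  refine (h1.trans h2).trans ?_
  have hlog : 0 ≤ Real.log (q * Y) := Real.log_nonneg (by nlinarith)
  have hqY : 0 < (q : ℝ) * Y := by positivity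
  -- the bound for `B`
  have hB1 : (B : ℝ) ≤ 2 * Real.sqrt C₀ / δ * (Real.sqrt (q * Y) / d) := by
    have h3 : (B : ℝ) ≤ 2 * Real.sqrt (S.τ S.ε ^ n * Y) / (d * δ) :=
      Nat.floor_le (by positivity)
    have h4 : Real.sqrt (S.τ S.ε ^ n * Y) ≤ Real.sqrt C₀ * Real.sqrt (q * Y) := by
      rw [← Real.sqrt_mul (by linarith)]
      apply Real.sqrt_le_sqrt
      rw [← mul_assoc]
      exact mul_le_mul_of_nonneg_right hE (by linarith)
    refine h3.trans ?_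
    rw [div_le_iff₀ (by positivity)]
    have h5 : 2 * Real.sqrt C₀ / δ * (Real.sqrt (q * Y) / d) * (d * δ) =
        2 * (Real.sqrt C₀ * Real.sqrt (q * Y)) := by
      field_simp
    rw [h5]
    linarith
  have hB2 : Real.log B ≤ L + Real.log (q * Y) := by
    rcases Nat.eq_zero_or_pos B with h0 | h0
    · rw [h0, Nat.cast_zero, Real.log_zero]
      linarith
    · have hB' : (0 : ℝ) < B := Nat.cast_pos.2 h0
      have h3 : (B : ℝ) ≤ 2 * Real.sqrt C₀ / δ * Real.sqrt (q * Y) := by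
        refine hB1.trans (mul_le_mul_of_nonneg_left ?_ (by positivity))
        exact div_le_self (Real.sqrt_nonneg _) hd'
      have h4 := Real.log_le_log hB' h3
      rw [Real.log_mul (by positivity) (by positivity), Real.log_sqrt hqY.le] at h4
      have h5 : Real.log (2 * Real.sqrt C₀ / δ) ≤ L := le_abs_self _
      linarith
  have hX : 0 ≤ Real.sqrt (q * Y) / d := by positivity
  have h3 : 2 * (4 * Y / (d * δ) * (1 + Real.log B)) ≤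
      8 * (1 + L) / δ * (Y / d) * (1 + Real.log (q * Y)) := by
    have h4 : 1 + Real.log B ≤ (1 + L) * (1 + Real.log (q * Y)) := by nlinarith
    have h5 : 2 * (4 * Y / (d * δ) * (1 + Real.log B)) =
        8 / δ * (Y / d) * (1 + Real.log B) := by
      field_simp
      ring
    have h6 : 0 ≤ 8 / δ * (Y / d) := by positivity
    rw [h5]
    refine (mul_le_mul_of_nonneg_left h4 h6).trans (le_of_eq ?_)
    ring
  have h4 : 2 * (B : ℝ) ≤ 4 * Real.sqrt C₀ / δ * (Real.sqrt (q * Y) / d) *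
      (1 + Real.log (q * Y)) := by
    have h5 : 2 * (B : ℝ) ≤ 4 * Real.sqrt C₀ / δ * (Real.sqrt (q * Y) / d) := by
      have h6 : 4 * Real.sqrt C₀ / δ * (Real.sqrt (q * Y) / d) =
          2 * (2 * Real.sqrt C₀ / δ * (Real.sqrt (q * Y) / d)) := by ring
      rw [h6]
      linarith
    have h6 : 0 ≤ 4 * Real.sqrt C₀ / δ * (Real.sqrt (q * Y) / d) := by positivity
    nlinarith
  have h5 : 0 ≤ 8 * (1 + L) / δ * (Real.sqrt (q * Y) / d) * (1 + Real.log (q * Y)) := by positivity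
  have h6 : 0 ≤ 4 * Real.sqrt C₀ / δ * (Y / d) * (1 + Real.log (q * Y)) := by positivity
  have h7 : (8 * (1 + L) / δ + 4 * Real.sqrt C₀ / δ) * ((Y + Real.sqrt (q * Y)) / d) *
      (1 + Real.log (q * Y)) =
      8 * (1 + L) / δ * (Y / d) * (1 + Real.log (q * Y)) +
      4 * Real.sqrt C₀ / δ * (Real.sqrt (q * Y) / d) * (1 + Real.log (q * Y)) +
      8 * (1 + L) / δ * (Real.sqrt (q * Y) / d) * (1 + Real.log (q * Y)) +
      4 * Real.sqrt C₀ / δ * (Y / d) * (1 + Real.log (q * Y)) := by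
    rw [add_div]
    ring
  rw [h7]
  linarith

end Pool.Agent.NH12.RS
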