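import Pool.Agent.NH12.RS.Stm2
import Pool.Agent.NH12.RS.Lat
import Pool.Agent.NH12.RS.Diag

/-!
# Project RS, job RS21: primitive ideals of small norm in a class (helper45)
-/

set_option autoImplicit false
set_option linter.unusedSectionVars false

open NumberField Complex

namespace Pool.Agent.NH12.RS

namespace Cls45

open Lat48

variable {K : Type} [Field K] [NumberField K]

theorem zd_add {d : ℕ} {x y : 𝓞 K} (hx : Zd d x) (hy : Zd d y) : Zd d (x + y) := by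
  obtain ⟨a, u, hu⟩ := hx
  obtain ⟨b, v, hv⟩ := hy
  refine ⟨a + b, u + v, ?_⟩
  push_cast
  rw [mul_add, ← hu, ← hv]
  ring

theorem zd_zero (d : ℕ) : Zd d (0 : 𝓞 K) := ⟨0, by simp⟩

theorem span_ne_bot {c : ℕ} (hc : 0 < c) : Ideal.span {(c : 𝓞 K)} ≠ ⊥ := by
  rw [Ne, Ideal.span_singleton_eq_bot]
  exact_mod_cast hc.ne'

theorem cop_span {s c : ℕ} (h : Nat.Coprime s c) :
    IsCoprime (Ideal.span {(s : 𝓞 K)}) (Ideal.span {(c : 𝓞 K)}) := by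
  rw [Ideal.isCoprime_span_singleton_iff]
  have h1 : IsCoprime (s : ℤ) (c : ℤ) := Nat.isCoprime_iff_coprime.mpr h
  have h2 := h1.map (Int.castRingHom (𝓞 K))
  simpa using h2

/-- Two primitive ideals with the same class modulo rational ideals are equal. -/
theorem prim_unique {𝔞 𝔞' : Ideal (𝓞 K)} (ha : Prm 𝔞) (ha' : Prm 𝔞') {s c : ℕ} (hs : 0 < s)
    (hc : 0 < c) (h : Ideal.span {(s : 𝓞 K)} * 𝔞 = Ideal.span {(c : 𝓞 K)} * 𝔞') : 𝔞 = 𝔞' := by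
  obtain ⟨g, s', c', hg, hcop, rfl, rfl⟩ := Nat.exists_coprime' (Nat.gcd_pos_of_pos_left c hs)
  have hs' : 0 < s' := Nat.pos_of_mul_pos_right hs |> fun h => h
  have hc' : 0 < c' := Nat.pos_of_mul_pos_right hc |> fun h => h
  have e : ∀ m : ℕ, Ideal.span {((m * g : ℕ) : 𝓞 K)} =
      Ideal.span {(g : 𝓞 K)} * Ideal.span {(m : 𝓞 K)} := fun m => by
    rw [Ideal.span_singleton_mul_span_singleton]
    push_cast
    rw [mul_comm]
  rw [e, e, mul_assoc, mul_assoc] at h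
  have h1 := mul_left_cancel₀ (span_ne_bot hg) h
  have h2 : Ideal.span {(s' : 𝓞 K)} ∣ 𝔞' :=
    (cop_span hcop).dvd_of_dvd_mul_left (Dvd.intro _ h1)
  have h3 : Ideal.span {(c' : 𝓞 K)} ∣ 𝔞 :=
    (cop_span hcop).symm.dvd_of_dvd_mul_left (Dvd.intro _ h1.symm)
  rw [ha'.2 s' hs' h2, ha.2 c' hc' h3] at h1
  exact mul_left_cancel₀ (span_ne_bot one_pos) h1

theorem box_id {B Y E q δ : ℝ} (j : ℕ) (hB : B ≠ 0) (hE : E ≠ 0) (hq : q ≠ 0) (hδ : δ ≠ 0) :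
    20 * ((2 : ℝ) ^ (j + 1) / E * (B * Y * E / 2 ^ j) / (B * q * δ)) = 40 / δ * (Y / q) := by
  have h2 : (2 : ℝ) ^ j ≠ 0 := by positivity
  rw [pow_succ]
  field_simp
  ring

variable (S : RQ K)

/-- the two real embeddings -/
def emb : 𝓞 K →+ ℝ × ℝ where
  toFun x := (S.τ x, S.τ (S.σ x))
  map_zero' := by simp
  map_add' x y := by simp

theorem emb_apply (x : 𝓞 K) : emb S x = (S.τ x, S.τ (S.σ x)) := rfl

/-- the additive group of the elements of `𝔠` in `ℤ + q 𝓞 K` -/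
def MM (𝔠 : Ideal (𝓞 K)) (q : ℕ) : AddSubgroup (𝓞 K) where
  carrier := {x | x ∈ 𝔠 ∧ Zd q x}
  zero_mem' := ⟨𝔠.zero_mem, zd_zero q⟩
  add_mem' := fun hx hy => ⟨𝔠.add_mem hx.1 hy.1, zd_add hx.2 hy.2⟩
  neg_mem' := fun hx => ⟨𝔠.neg_mem hx.1, zd_neg hx.2⟩

theorem mem_MM {𝔠 : Ideal (𝓞 K)} {q : ℕ} {x : 𝓞 K} : x ∈ MM 𝔠 q ↔ x ∈ 𝔠 ∧ Zd q x := Iff.rfl

theorem key {q B : ℕ} (hcop : Nat.Coprime B q) {z : 𝓞 K} (hz : (B : 𝓞 K) ∣ z) (hZ : Zd q z) :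
    ∃ a b : ℤ, z = ((B * a : ℤ) : 𝓞 K) + ((B * q * b : ℤ) : 𝓞 K) * S.ω := by
  obtain ⟨w, rfl⟩ := hz
  obtain ⟨a, b, rfl⟩ := S.basis w
  obtain ⟨c, v, hv⟩ := hZ
  obtain ⟨a', b', rfl⟩ := S.basis v
  have h1 : ((B * a - c - q * a' : ℤ) : 𝓞 K) + ((B * b - q * b' : ℤ) : 𝓞 K) * S.ω = 0 := by
    push_cast
    linear_combination hv
  obtain ⟨-, h2⟩ := S.indep _ _ h1
  have h3 : (q : ℤ) ∣ B * b := ⟨b', by linarith⟩
  have h4 : (q : ℤ) ∣ b := by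
    refine IsCoprime.dvd_of_dvd_mul_left ?_ h3
    exact (Nat.isCoprime_iff_coprime.mpr hcop).symm
  obtain ⟨b'', rfl⟩ := h4
  refine ⟨a, b'', ?_⟩
  push_cast
  ring

/-- the determinant -/
theorem det_eq {q B : ℕ} (hcop : Nat.Coprime B q) {x y : 𝓞 K} (hz : (B : 𝓞 K) ∣ x * S.σ y)
    (hx : Zd q x) (hy : Zd q y) : ∃ a b : ℤ,
      x * S.σ y = ((B * a : ℤ) : 𝓞 K) + ((B * q * b : ℤ) : 𝓞 K) * S.ω ∧
      (emb S x).1 * (emb S y).2 - (emb S x).2 * (emb S y).1 =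
        (B : ℝ) * q * b * S.τ (S.ω - S.σ S.ω) := by
  obtain ⟨a, b, h⟩ := key S hcop hz (zd_mul hx (zd_sig S hy))
  refine ⟨a, b, h, ?_⟩
  have h1 : S.σ (x * S.σ y) = S.σ x * y := by rw [map_mul, S.inv]
  have h2 := congrArg S.τ h
  have h3 := congrArg (fun t => S.τ (S.σ t)) h
  simp only [h1] at h3
  rw [map_mul, map_add, map_intCast, map_mul, map_intCast] at h2
  rw [map_mul, map_add, map_intCast, map_mul, map_intCast, map_add, map_intCast, map_mul,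
    map_intCast] at h3
  rw [emb_apply, emb_apply, map_sub]
  push_cast at h2 h3
  change S.τ x * S.τ (S.σ y) - S.τ (S.σ x) * S.τ y = _
  rw [h2, h3]
  ring

include S in
/-- the norm of an ideal prime to `q` is prime to `q` -/
theorem cop_norm (hc : S_conj) {q : ℕ} {𝔟 : Ideal (𝓞 K)} (h : Cop q 𝔟) :
    Nat.Coprime (Ideal.absNorm 𝔟) q := by
  obtain ⟨-, -, -, -, hnorm⟩ := hc K S
  obtain ⟨i, hi, j, hj, hij⟩ := Ideal.isCoprime_iff_exists.1 h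
  obtain ⟨w, rfl⟩ := Ideal.mem_span_singleton'.1 hj
  have h1 : i * S.σ i ∈ 𝔟 * S.cj 𝔟 := Ideal.mul_mem_mul hi (Ideal.mem_map_of_mem _ hi)
  rw [hnorm] at h1
  obtain ⟨v, hv⟩ := Ideal.mem_span_singleton'.1 h1
  have hi' : i = 1 - w * q := by rw [← hij]; ring
  have h2 : v * ((Ideal.absNorm 𝔟 : ℕ) : 𝓞 K) + (w + S.σ w - w * S.σ w * q) * (q : 𝓞 K) = 1 := by
    rw [hv, hi', map_sub, map_one, map_mul, map_natCast]
    ring
  by_contra hn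
  obtain ⟨p, hp, hpA, hpF⟩ := Nat.Prime.not_coprime_iff_dvd.mp hn
  exact natCast_dvd_of_mem hp hpA hpF h2

end Cls45

open Lat48 Cls45 in
/-- CLS. -/
theorem t_cls (hb : S_box) (h : S_seq) (hc : S_conj) : S_cls := by
  intro K _ _ S
  classical
  obtain ⟨-, C₀, n₀, hC₀, hS⟩ := h K S
  obtain ⟨hmul, hcc, hcN, hsp, hnorm⟩ := hc K S
  set δ : ℝ := S.τ (S.ω - S.σ S.ω) with hδ'
  have hδ : 0 < δ := S.pos
  have hlC : 0 ≤ Real.log C₀ := Real.log_nonneg hC₀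
  refine ⟨(8 + 8 * Real.log C₀) * (1 + 40 / δ), n₀, by positivity, ?_⟩
  intro n q hn hU 𝔟 hb0 hcb Y hY
  obtain ⟨hε, -, -, hE, -⟩ := hS n q hn hU
  have hn0 : 0 < n := hU.prime.pos
  have hE1 : 1 < S.τ S.ε ^ n := one_lt_pow₀ S.one_lt hn0.ne'
  have hq : 0 < q := by
    rcases Nat.eq_zero_or_pos q with h0 | h0
    · rw [h0, Nat.cast_zero, mul_zero] at hE
      linarith
    · exact h0
  have hq' : (1 : ℝ) ≤ q := Nat.one_le_cast.2 hq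
  set E : ℝ := S.τ S.ε ^ n with hEdef
  have hE0 : 0 < E := by linarith
  obtain ⟨B, hB⟩ : ∃ B, B = Ideal.absNorm 𝔟 := ⟨_, rfl⟩
  have hB0 : 0 < B := by
    rw [hB]
    exact Nat.pos_of_ne_zero fun h => hb0 (Ideal.absNorm_eq_zero_iff.mp h)
  have hB1 : (1 : ℝ) ≤ B := Nat.one_le_cast.2 hB0
  have hBq : Nat.Coprime B q := by rw [hB]; exact cop_norm S hc hcb
  have hcb0 : S.cj 𝔟 ≠ ⊥ := by
    intro h0
    have := hcc 𝔟
    rw [h0] at this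
    apply hb0
    rw [← this]
    exact Ideal.map_bot
  rw [← hB]
  set A : Set (Ideal (𝓞 K)) :=
    {𝔞 : Ideal (𝓞 K) | Prm 𝔞 ∧ Pr q (𝔞 * S.cj 𝔟) ∧ (Ideal.absNorm 𝔞 : ℝ) ≤ Y} with hA
  have hfin : A.Finite := by
    refine (Ideal.finite_setOfPred_absNorm_le ⌊Y⌋₊).subset ?_
    rintro 𝔞 ⟨-, -, h3⟩
    exact Nat.le_floor h3
  refine ⟨hfin, ?_⟩
  -- the generators
  have hex : ∀ 𝔞 ∈ A, ∃ x : 𝓞 K, Ideal.span {x} = 𝔞 * S.cj 𝔟 ∧ x ≠ 0 ∧ Zd q x ∧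
      |S.τ x| ≤ E * |S.τ (S.σ x)| ∧ |S.τ (S.σ x)| ≤ E * |S.τ x| := by
    rintro 𝔞 ⟨h1, ⟨x, hx, hx'⟩, -⟩
    have hx0 : x ≠ 0 := by
      rintro rfl
      rw [Ideal.span_singleton_zero] at hx'
      rcases mul_eq_zero.1 hx' with h | h
      · exact h1.1 h
      · exact hcb0 h
    obtain ⟨y, hy1, hy2, hy3, hy4, hy5⟩ := exists_bal S hn0 (dvd_refl q) hε hx0 hx
    exact ⟨y, by rw [hy1, hx'], hy2, hy3, hy4, hy5⟩
  choose! g hg1 hg2 hg3 hg4 hg5 using hex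
  have hprod : ∀ 𝔞 ∈ A, 1 ≤ |S.τ (g 𝔞)| * |S.τ (S.σ (g 𝔞))| ∧
      |S.τ (g 𝔞)| * |S.τ (S.σ (g 𝔞))| ≤ B * Y := by
    intro 𝔞 ha
    rw [Lat48.abs_norm, hg1 𝔞 ha, map_mul, hcN, ← hB]
    have h1 : 1 ≤ Ideal.absNorm 𝔞 :=
      Nat.pos_of_ne_zero fun h => ha.1.1 (Ideal.absNorm_eq_zero_iff.mp h)
    have h2 : (1 : ℝ) ≤ (Ideal.absNorm 𝔞 : ℝ) := by exact_mod_cast h1
    push_cast
    constructor
    · nlinarith
    · rw [mul_comm]
      exact mul_le_mul_of_nonneg_left ha.2.2 (by linarith)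
  have hinj : ∀ 𝔞 ∈ A, ∀ 𝔞' ∈ A, Ideal.span {g 𝔞} = Ideal.span {g 𝔞'} → 𝔞 = 𝔞' := by
    intro 𝔞 ha 𝔞' ha' he
    rw [hg1 𝔞 ha, hg1 𝔞' ha'] at he
    exact mul_right_cancel₀ hcb0 he
  -- the buckets
  let jj : Ideal (𝓞 K) → ℕ := fun 𝔞 => Nat.log 2 ⌊|S.τ (g 𝔞)| * E⌋₊
  have hpos1 : ∀ 𝔞 ∈ A, 0 < |S.τ (g 𝔞)| := fun 𝔞 ha => tau_pos S (hg2 𝔞 ha)
  have hpos2 : ∀ 𝔞 ∈ A, 0 < |S.τ (S.σ (g 𝔞))| := fun 𝔞 ha => tau_pos S (sig_ne S (hg2 𝔞 ha))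
  have hge1 : ∀ 𝔞 ∈ A, 1 ≤ |S.τ (g 𝔞)| * E := by
    intro 𝔞 ha
    have h1 := (hprod 𝔞 ha).1
    have h2 := hg5 𝔞 ha
    have h3 := hpos1 𝔞 ha
    have h4 : 1 ≤ |S.τ (g 𝔞)| * |S.τ (g 𝔞)| * E := by
      calc 1 ≤ |S.τ (g 𝔞)| * |S.τ (S.σ (g 𝔞))| := h1
        _ ≤ |S.τ (g 𝔞)| * (E * |S.τ (g 𝔞)|) := mul_le_mul_of_nonneg_left h2 h3.le
        _ = _ := by ring
    by_contra hcon
    push Not at hcon
    nlinarith [mul_pos h3 hE0]
  have hjlow : ∀ 𝔞 ∈ A, (2 : ℝ) ^ jj 𝔞 ≤ |S.τ (g 𝔞)| * E := by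
    intro 𝔞 ha
    have h1 : 1 ≤ ⌊|S.τ (g 𝔞)| * E⌋₊ := Nat.le_floor (by exact_mod_cast hge1 𝔞 ha)
    have h2 : 2 ^ jj 𝔞 ≤ ⌊|S.τ (g 𝔞)| * E⌋₊ := Nat.pow_log_le_self 2 (by omega)
    calc (2 : ℝ) ^ jj 𝔞 ≤ (⌊|S.τ (g 𝔞)| * E⌋₊ : ℝ) := by exact_mod_cast h2
      _ ≤ _ := Nat.floor_le (by linarith [hge1 𝔞 ha])
  have hjup : ∀ 𝔞 ∈ A, |S.τ (g 𝔞)| * E ≤ 2 ^ (jj 𝔞 + 1) := by
    intro 𝔞 _
    have h2 : ⌊|S.τ (g 𝔞)| * E⌋₊ < 2 ^ (jj 𝔞 + 1) := Nat.lt_pow_succ_log_self (by norm_num) _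
    have h3 := Nat.lt_floor_add_one (|S.τ (g 𝔞)| * E)
    have h4 : ((⌊|S.τ (g 𝔞)| * E⌋₊ + 1 : ℕ) : ℝ) ≤ ((2 ^ (jj 𝔞 + 1) : ℕ) : ℝ) := by
      exact_mod_cast h2
    push_cast at h4
    linarith
  obtain ⟨J, hJ⟩ : ∃ J : ℕ, J = Nat.log 2 ⌊E ^ 2 * (B * Y)⌋₊ := ⟨_, rfl⟩
  have hjJ : ∀ 𝔞 ∈ A, jj 𝔞 ≤ J := by
    intro 𝔞 ha
    rw [hJ]
    refine Nat.log_mono_right (Nat.floor_le_floor ?_)
    have h1 := (hprod 𝔞 ha).2
    have h2 := hg4 𝔞 ha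
    have h3 := hpos1 𝔞 ha
    have h4 : |S.τ (g 𝔞)| * |S.τ (g 𝔞)| ≤ E * (B * Y) := by
      calc |S.τ (g 𝔞)| * |S.τ (g 𝔞)| ≤ |S.τ (g 𝔞)| * (E * |S.τ (S.σ (g 𝔞))|) :=
            mul_le_mul_of_nonneg_left h2 h3.le
        _ = E * (|S.τ (g 𝔞)| * |S.τ (S.σ (g 𝔞))|) := by ring
        _ ≤ E * (B * Y) := mul_le_mul_of_nonneg_left h1 hE0.le
    have h5 : 1 ≤ E * (B * Y) := by
      have : 1 ≤ (B : ℝ) * Y := by nlinarith
      nlinarith
    have h6 : |S.τ (g 𝔞)| ≤ E * (B * Y) := by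
      by_contra hcon
      push Not at hcon
      nlinarith
    calc |S.τ (g 𝔞)| * E ≤ E * (B * Y) * E := mul_le_mul_of_nonneg_right h6 hE0.le
      _ = E ^ 2 * (B * Y) := by ring
  -- one bucket
  have hone : ∀ j : ℕ, (((hfin.toFinset.filter fun 𝔞 => jj 𝔞 = j).card : ℕ) : ℝ) ≤
      1 + 40 / δ * (Y / q) := by
    intro j
    set F := hfin.toFinset.filter fun 𝔞 => jj 𝔞 = j with hF
    have hFA : ∀ 𝔞 ∈ F, 𝔞 ∈ A ∧ jj 𝔞 = j := by
      intro 𝔞 ha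
      rw [hF, Finset.mem_filter, Set.Finite.mem_toFinset] at ha
      exact ha
    set T : Finset (ℝ × ℝ) := F.image fun 𝔞 => emb S (g 𝔞) with hT
    have hcard : T.card = F.card := by
      rw [hT]
      refine Finset.card_image_of_injOn ?_
      intro 𝔞 ha 𝔞' ha' he
      refine hinj 𝔞 (hFA 𝔞 ha).1 𝔞' (hFA 𝔞' ha').1 ?_
      have : g 𝔞 = g 𝔞' := S.inj (congrArg Prod.fst he)
      rw [this]
    have hmem : ∀ 𝔞 ∈ A, g 𝔞 ∈ MM (S.cj 𝔟) q := by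
      intro 𝔞 ha
      refine ⟨?_, hg3 𝔞 ha⟩
      have h1 : g 𝔞 ∈ 𝔞 * S.cj 𝔟 := by
        rw [← hg1 𝔞 ha]
        exact Ideal.mem_span_singleton_self _
      exact Ideal.mul_le_right h1
    have hdiv : ∀ x ∈ MM (S.cj 𝔟) q, ∀ y ∈ MM (S.cj 𝔟) q, (B : 𝓞 K) ∣ x * S.σ y := by
      intro x hx y hy
      have h1 : S.σ y ∈ 𝔟 := by
        rw [← hcc 𝔟]
        exact Ideal.mem_map_of_mem _ hy.1
      have h2 : S.σ y * x ∈ 𝔟 * S.cj 𝔟 := Ideal.mul_mem_mul h1 hx.1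
      rw [hnorm, ← hB, Ideal.mem_span_singleton] at h2
      rw [mul_comm]
      exact h2
    have h40 : 0 ≤ 40 / δ * (Y / q) := by positivity
    by_cases hnp : ∃ x ∈ T, ∃ y ∈ T, x.1 * y.2 - x.2 * y.1 ≠ 0
    · have hD : 0 < (B : ℝ) * q * δ := by positivity
      have hbox := hb ((MM (S.cj 𝔟) q).map (emb S)) (2 ^ (j + 1) / E) (B * Y * E / 2 ^ j)
        (B * q * δ) (by positivity) (by positivity) hD ?_ T ?_ hnp
      · rw [← hcard]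
        rw [box_id j (by positivity) hE0.ne' (by positivity) hδ.ne'] at hbox
        linarith
      · rintro _ ⟨x, hx, rfl⟩ _ ⟨y, hy, rfl⟩ hne
        obtain ⟨a, b, -, hdet⟩ := det_eq S hBq (hdiv x hx y hy) hx.2 hy.2
        rw [hdet] at hne ⊢
        have hb1 : b ≠ 0 := by
          rintro rfl
          apply hne
          simp
        have hb2 : (1 : ℝ) ≤ |(b : ℝ)| := by
          exact_mod_cast Int.one_le_abs hb1
        have e2 : |(B : ℝ) * q * b * S.τ (S.ω - S.σ S.ω)| = B * q * δ * |(b : ℝ)| := by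
          rw [← hδ', abs_mul, abs_mul, abs_mul, abs_of_pos hδ, Nat.abs_cast, Nat.abs_cast]
          ring
        rw [e2]
        nlinarith
      · intro t ht
        rw [hT, Finset.mem_image] at ht
        obtain ⟨𝔞, ha, rfl⟩ := ht
        obtain ⟨ha1, ha2⟩ := hFA 𝔞 ha
        have l1 := hjlow 𝔞 ha1
        have l2 := hjup 𝔞 ha1
        rw [ha2] at l1 l2
        refine ⟨⟨g 𝔞, hmem 𝔞 ha1, rfl⟩, ?_, ?_⟩
        · rw [le_div_iff₀ hE0]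
          exact l2
        · rw [le_div_iff₀ (by positivity)]
          change |S.τ (S.σ (g 𝔞))| * 2 ^ j ≤ _
          have h1 := (hprod 𝔞 ha1).2
          calc |S.τ (S.σ (g 𝔞))| * 2 ^ j ≤ |S.τ (S.σ (g 𝔞))| * (|S.τ (g 𝔞)| * E) :=
                mul_le_mul_of_nonneg_left l1 (abs_nonneg _)
            _ = |S.τ (g 𝔞)| * |S.τ (S.σ (g 𝔞))| * E := by ring
            _ ≤ B * Y * E := mul_le_mul_of_nonneg_right h1 hE0.le
    · have hle : F.card ≤ 1 := by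
        rw [Finset.card_le_one]
        intro 𝔞 ha 𝔞' ha'
        obtain ⟨ha1, -⟩ := hFA 𝔞 ha
        obtain ⟨ha1', -⟩ := hFA 𝔞' ha'
        push Not at hnp
        have h0 := hnp (emb S (g 𝔞)) (Finset.mem_image_of_mem _ ha) (emb S (g 𝔞'))
          (Finset.mem_image_of_mem _ ha')
        obtain ⟨a, b, hz, hdet⟩ := det_eq S hBq (hdiv _ (hmem 𝔞 ha1) _ (hmem 𝔞' ha1'))
          (hg3 𝔞 ha1) (hg3 𝔞' ha1')
        rw [hdet] at h0
        have hb1 : b = 0 := by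
          by_contra hb1
          have hb2 : (b : ℝ) ≠ 0 := by exact_mod_cast hb1
          have hq2 : (q : ℝ) ≠ 0 := by positivity
          have hB2 : (B : ℝ) ≠ 0 := by positivity
          exact (mul_ne_zero (mul_ne_zero (mul_ne_zero hB2 hq2) hb2) hδ.ne') h0
        rw [hb1, mul_zero, Int.cast_zero, zero_mul, add_zero] at hz
        -- `x N(y) = c y`
        have h3 : g 𝔞 * ((Algebra.norm ℤ (g 𝔞') : ℤ) : 𝓞 K) = ((B * a : ℤ) : 𝓞 K) * g 𝔞' := by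
          rw [S.norm, ← hz]
          ring
        have hNy : Algebra.norm ℤ (g 𝔞') ≠ 0 := by
          rw [Ne, Algebra.norm_eq_zero_iff]
          exact hg2 𝔞' ha1'
        have hc0 : (B * a : ℤ) ≠ 0 := by
          intro h4
          rw [h4, Int.cast_zero, zero_mul] at h3
          rcases mul_eq_zero.1 h3 with h5 | h5
          · exact hg2 𝔞 ha1 h5
          · exact hNy (by exact_mod_cast h5)
        have hspan : ∀ z : ℤ, Ideal.span {((z : ℤ) : 𝓞 K)} = Ideal.span {((z.natAbs : ℕ) : 𝓞 K)} := by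
          intro z
          rcases Int.natAbs_eq z with h | h
          · conv_lhs => rw [h]
            rw [Int.cast_natCast]
          · conv_lhs => rw [h]
            rw [Int.cast_neg, Int.cast_natCast, Ideal.span_singleton_neg]
        have h4 : Ideal.span {g 𝔞 * ((Algebra.norm ℤ (g 𝔞') : ℤ) : 𝓞 K)} =
            Ideal.span {((B * a : ℤ) : 𝓞 K) * g 𝔞'} := by rw [h3]
        rw [← Ideal.span_singleton_mul_span_singleton, ← Ideal.span_singleton_mul_span_singleton,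
          hg1 𝔞 ha1, hg1 𝔞' ha1', hspan, hspan] at h4
        refine prim_unique ha1.1 ha1'.1 (Int.natAbs_pos.2 hNy) (Int.natAbs_pos.2 hc0) ?_
        apply mul_right_cancel₀ hcb0
        rw [mul_assoc, mul_assoc, ← h4, mul_comm]
      have : (F.card : ℝ) ≤ 1 := by exact_mod_cast hle
      linarith
  -- the sum
  have hsum : (A.ncard : ℝ) ≤ (J + 1) * (1 + 40 / δ * (Y / q)) := by
    have h1 : A.ncard = hfin.toFinset.card := by
      rw [Set.ncard_eq_toFinset_card A hfin]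
    have h2 : hfin.toFinset.card = ∑ j ∈ Finset.range (J + 1),
        (hfin.toFinset.filter fun 𝔞 => jj 𝔞 = j).card := by
      refine Finset.card_eq_sum_card_fiberwise ?_
      intro 𝔞 ha
      have ha' : 𝔞 ∈ A := by
        have := Finset.mem_coe.1 ha
        rwa [Set.Finite.mem_toFinset] at this
      have := hjJ 𝔞 ha'
      simp only [Finset.coe_range, Set.mem_Iio]
      omega
    rw [h1, h2]
    push_cast
    refine (Finset.sum_le_sum fun j _ => hone j).trans ?_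
    rw [Finset.sum_const, Finset.card_range, nsmul_eq_mul]
    push_cast
    exact le_rfl
  -- the number of buckets
  have hqBY : 1 ≤ (q : ℝ) * B * Y := by
    have h1 : 1 ≤ (q : ℝ) * B := by nlinarith
    nlinarith
  have hLog : 0 ≤ Real.log (q * B * Y) := Real.log_nonneg hqBY
  have hJb : (J : ℝ) + 1 ≤ (8 + 8 * Real.log C₀) * (1 + Real.log (q * B * Y)) := by
    have hBY : 1 ≤ (B : ℝ) * Y := by nlinarith
    have h0 : 1 ≤ E ^ 2 * ((B : ℝ) * Y) := by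
      have : 1 ≤ E ^ 2 := by nlinarith
      nlinarith
    have h1 : (2 : ℝ) ^ J ≤ E ^ 2 * (B * Y) := by
      have h2 : 1 ≤ ⌊E ^ 2 * ((B : ℝ) * Y)⌋₊ := Nat.le_floor (by exact_mod_cast h0)
      have h3 : 2 ^ J ≤ ⌊E ^ 2 * ((B : ℝ) * Y)⌋₊ := by
        rw [hJ]
        exact Nat.pow_log_le_self 2 (by omega)
      calc (2 : ℝ) ^ J ≤ (⌊E ^ 2 * ((B : ℝ) * Y)⌋₊ : ℝ) := by exact_mod_cast h3
        _ ≤ _ := Nat.floor_le (by linarith)
    have h2 := Real.log_le_log (by positivity) h1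
    have hBY0 : (B : ℝ) * Y ≠ 0 := by positivity
    rw [Real.log_pow, Real.log_mul (by positivity) hBY0, Real.log_pow] at h2
    have h3 : Real.log E ≤ Real.log C₀ + Real.log q := by
      rw [← Real.log_mul (by positivity) (by positivity)]
      exact Real.log_le_log hE0 hE
    have h4 : Real.log (q * B * Y) = Real.log q + Real.log (B * Y) := by
      rw [mul_assoc, Real.log_mul (by positivity) hBY0]
    have h5 : 0 ≤ Real.log (B * Y) := Real.log_nonneg hBY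
    have h6 : 0 ≤ Real.log (q : ℝ) := Real.log_nonneg hq'
    have h7 := Real.log_two_gt_d9
    have hJ0 : (0 : ℝ) ≤ J := Nat.cast_nonneg _
    push_cast at h2
    have h8 : (J : ℝ) * (1 / 2) ≤ 2 * Real.log E + Real.log (B * Y) := by nlinarith
    rw [h4]
    nlinarith [mul_nonneg hlC h6, mul_nonneg hlC h5]
  refine hsum.trans ?_
  have hYq : 0 ≤ Y / q := by positivity
  have h9 : 1 + 40 / δ * (Y / q) ≤ (1 + 40 / δ) * (1 + Y / q) := by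
    have : 0 ≤ 40 / δ := by positivity
    nlinarith
  calc ((J : ℝ) + 1) * (1 + 40 / δ * (Y / q))
      ≤ ((8 + 8 * Real.log C₀) * (1 + Real.log (q * B * Y))) * ((1 + 40 / δ) * (1 + Y / q)) := by
        apply mul_le_mul hJb h9 (by positivity) (by positivity)
    _ = _ := by ring

end Pool.Agent.NH12.RS
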