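import Pool.Agent.NH12.RS.Mod

/-! # The conductor of a ring class character, and the sum over the primitive characters -/

set_option autoImplicit false
set_option linter.unusedSectionVars false

open NumberField Complex

namespace Pool.Agent.NH12.RS.Cd

open Pool.Agent.Y773.IQ (exists_unit_lift)
open Pool.Agent.NH12.RS.Md (cop_iff cop_mono cop_one cop_congr exists_cop_lift)

section

variable {K : Type} [Field K] [NumberField K] {q : ℕ} {χ : Ideal (𝓞 K) →*₀ ℂ}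

lemma chi_int (h : IsRC q χ) {a : ℤ} (ha : Cop q (Ideal.span {(a : 𝓞 K)})) :
    χ (Ideal.span {(a : 𝓞 K)}) = 1 := by
  refine h.one _ ⟨a, ?_⟩ ha
  rw [sub_self]
  exact dvd_zero _

/-- `χ` is trivial on the elements which are `≡ 1` modulo `I` -/
def Qp (q : ℕ) (I : Ideal (𝓞 K)) (χ : Ideal (𝓞 K) →*₀ ℂ) : Prop :=
  ∀ x : 𝓞 K, x - 1 ∈ I → Cop q (Ideal.span {x}) → χ (Ideal.span {x}) = 1

lemma Qp_q (h : IsRC q χ) : Qp q (Ideal.span {(q : 𝓞 K)}) χ := by
  intro x hx hc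
  refine h.one x ⟨1, ?_⟩ hc
  rw [Int.cast_one]
  exact Ideal.mem_span_singleton.mp hx

lemma Qp_congr {I : Ideal (𝓞 K)} (hI : Ideal.span {(q : 𝓞 K)} ≤ I) (h : Qp q I χ) {x y : 𝓞 K}
    (hxy : x - y ∈ I) (hx : Cop q (Ideal.span {x})) (hy : Cop q (Ideal.span {y})) :
    χ (Ideal.span {x}) = χ (Ideal.span {y}) := by
  obtain ⟨w, hw⟩ := cop_iff.mp hy
  have hwc : Cop q (Ideal.span {w}) := cop_iff.mpr ⟨y, by rwa [mul_comm]⟩
  have h1 : χ (Ideal.span {w * y}) = 1 := by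
    refine h _ (hI hw) ?_
    rw [← Ideal.span_singleton_mul_span_singleton]
    exact IsCoprime.mul_left hwc hy
  have h2 : χ (Ideal.span {w * x}) = 1 := by
    refine h _ ?_ ?_
    · have : w * x - 1 = w * (x - y) + (w * y - 1) := by ring
      rw [this]
      exact add_mem (Ideal.mul_mem_left _ _ hxy) (hI hw)
    · rw [← Ideal.span_singleton_mul_span_singleton]
      exact IsCoprime.mul_left hwc hx
  rw [← Ideal.span_singleton_mul_span_singleton, map_mul] at h1 h2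
  have h3 : χ (Ideal.span {w}) ≠ 0 := by
    intro h4
    rw [h4, zero_mul] at h1
    exact zero_ne_one h1
  exact mul_left_cancel₀ h3 (h2.trans h1.symm)

lemma Qp_sup (hq : q ≠ 0) {I J : Ideal (𝓞 K)} (hI : Ideal.span {(q : 𝓞 K)} ≤ I)
    (hJ : Ideal.span {(q : 𝓞 K)} ≤ J) (h1 : Qp q I χ) (h2 : Qp q J χ) : Qp q (I ⊔ J) χ := by
  intro x hx hc
  obtain ⟨u, hu, v, hv, huv⟩ := Submodule.mem_sup.mp hx
  have hq0 : Ideal.span {(q : 𝓞 K)} ≠ ⊥ := by
    rw [Ne, Ideal.span_singleton_eq_bot]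
    exact_mod_cast hq
  have hz1 : IsCoprime (Ideal.span {x - u}) I := cop_congr (by
    have : x - u - x = -u := by ring
    rw [this]; exact neg_mem hu) (cop_mono hI hc)
  have hz2 : IsCoprime (Ideal.span {x - u}) J := by
    apply cop_one
    have : x - u - 1 = v := by rw [← add_sub_cancel_left u v, huv]; ring
    rw [this]
    exact hv
  have hz3 : IsCoprime (Ideal.span {x - u}) (I ⊓ J) :=
    cop_mono Ideal.mul_le_inf (IsCoprime.mul_right hz1 hz2)
  obtain ⟨z, hz4, hz5⟩ := exists_cop_lift (le_inf hI hJ) hq0 hz3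
  have hz6 : x - z ∈ I := by
    have : x - z = -(z - (x - u)) + u := by ring
    rw [this]
    exact add_mem (neg_mem (inf_le_left (b := J) hz5)) hu
  have hz7 : z - 1 ∈ J := by
    have : z - 1 = (z - (x - u)) + (x - u - 1) := by ring
    rw [this]
    refine add_mem (inf_le_right (a := I) hz5) ?_
    have : x - u - 1 = v := by rw [← add_sub_cancel_left u v, huv]; ring
    rw [this]
    exact hv
  rw [Qp_congr hI h1 hz6 hc hz4]
  exact h2 z hz7 hz4

lemma thr_of_Qp (S : RQ K) (hq : q ≠ 0) (hRC : IsRC q χ) {h : ℕ} (hh : h ∣ q)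
    (hQ : Qp q (Ideal.span {(h : 𝓞 K)}) χ) : Thr q h χ := by
  rintro x ⟨a, ha⟩ hc
  have hqh : Ideal.span {(q : 𝓞 K)} ≤ Ideal.span {(h : 𝓞 K)} := by
    rw [Ideal.span_singleton_le_span_singleton]
    exact Nat.cast_dvd_cast hh
  -- an inverse of `a` modulo `h`
  obtain ⟨w, hw⟩ := cop_iff.mp (cop_mono hqh hc)
  obtain ⟨c, d, hcd⟩ := S.basis w
  obtain ⟨e, he⟩ : (h : 𝓞 K) ∣ w * a - 1 := by
    have h1 : w * a - 1 = (w * x - 1) - w * (x - a) := by ring
    rw [h1]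
    exact dvd_sub (Ideal.mem_span_singleton.mp hw) (ha.mul_left _)
  obtain ⟨e1, e2, hee⟩ := S.basis e
  have hca : c * a - 1 = h * e1 := by
    have h1 : ((c * a - 1 - h * e1 : ℤ) : 𝓞 K) + ((d * a - h * e2 : ℤ) : 𝓞 K) * S.ω = 0 := by
      push_cast
      rw [hcd, hee] at he
      linear_combination he
    have h2 := (S.indep _ _ h1).1
    linarith
  have : NeZero q := ⟨hq⟩
  have hcu : IsUnit ((c : ℤ) : ZMod h) := by
    refine IsUnit.of_mul_eq_one ((a : ℤ) : ZMod h) ?_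
    have h1 : ((c * a - 1 : ℤ) : ZMod h) = 0 := by
      rw [hca]
      push_cast
      simp
    push_cast at h1
    linear_combination h1
  obtain ⟨v, hv, hvc⟩ := exists_unit_lift (ZMod.castHom hh (ZMod h)) (ZMod.castHom_surjective hh) hcu
  obtain ⟨b, hb⟩ : ∃ b : ℤ, b = (v.val : ℤ) := ⟨_, rfl⟩
  have hbq : ((b : ℤ) : ZMod q) = v := by
    rw [hb]
    push_cast
    exact ZMod.natCast_zmod_val v
  have hbh : ((b : ℤ) : ZMod h) = ((c : ℤ) : ZMod h) := by
    rw [← hvc, ← hbq]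
    simp
  have hbcop : Cop q (Ideal.span {(b : 𝓞 K)}) := by
    obtain ⟨v', hv'⟩ := hv.exists_left_inv
    apply cop_iff.mpr
    refine ⟨((v'.val : ℤ) : 𝓞 K), ?_⟩
    have h1 : (((v'.val : ℤ) * b - 1 : ℤ) : ZMod q) = 0 := by
      push_cast
      rw [hbq, ZMod.natCast_zmod_val, hv', sub_self]
    rw [ZMod.intCast_zmod_eq_zero_iff_dvd] at h1
    obtain ⟨k, hk⟩ := h1
    rw [Ideal.mem_span_singleton]
    refine ⟨(k : 𝓞 K), ?_⟩
    exact_mod_cast congrArg (Int.cast : ℤ → 𝓞 K) hk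
  have hbc : Cop q (Ideal.span {(b : 𝓞 K) * x}) := by
    rw [← Ideal.span_singleton_mul_span_singleton]
    exact IsCoprime.mul_left hbcop hc
  have h1 := hQ ((b : 𝓞 K) * x) (by
    rw [Ideal.mem_span_singleton]
    have h2 : (b : ℤ) - c = (b - c) := rfl
    have h3 : (h : ℤ) ∣ b - c := by
      rw [← ZMod.intCast_zmod_eq_zero_iff_dvd]
      push_cast
      rw [hbh, sub_self]
    obtain ⟨k, hk⟩ := h3
    obtain ⟨l, hl⟩ := ha
    refine ⟨b * l + k * a + e1, ?_⟩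
    have hk' : (b : 𝓞 K) - c = h * k := by exact_mod_cast congrArg (Int.cast : ℤ → 𝓞 K) hk
    have hca' : (c : 𝓞 K) * a - 1 = h * e1 := by
      exact_mod_cast congrArg (Int.cast : ℤ → 𝓞 K) hca
    linear_combination (b : 𝓞 K) * hl + (a : 𝓞 K) * hk' + hca') hbc
  rw [← Ideal.span_singleton_mul_span_singleton, map_mul, chi_int hRC hbcop, one_mul] at h1
  exact h1


lemma Qp_of_thr {d : ℕ} (h : Thr q d χ) : Qp q (Ideal.span {(d : 𝓞 K)}) χ := by
  intro x hx hc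
  refine h x ⟨1, ?_⟩ hc
  rw [Int.cast_one]
  exact Ideal.mem_span_singleton.mp hx

lemma thr_q (h : IsRC q χ) : Thr q q χ := h.one

lemma thr_mono {d d' : ℕ} (h : d ∣ d') (h1 : Thr q d χ) : Thr q d' χ := by
  rintro x ⟨a, ha⟩ hc
  exact h1 x ⟨a, (Nat.cast_dvd_cast h).trans ha⟩ hc

lemma thr_gcd (S : RQ K) (hq : q ≠ 0) (hRC : IsRC q χ) {d d' : ℕ} (hd : d ∣ q) (hd' : d' ∣ q)
    (h : Thr q d χ) (h' : Thr q d' χ) : Thr q (Nat.gcd d d') χ := by
  have hle : ∀ e : ℕ, e ∣ q → Ideal.span {(q : 𝓞 K)} ≤ Ideal.span {(e : 𝓞 K)} := by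
    intro e he
    rw [Ideal.span_singleton_le_span_singleton]
    exact Nat.cast_dvd_cast he
  apply thr_of_Qp S hq hRC ((Nat.gcd_dvd_left d d').trans hd)
  have h1 := Qp_sup hq (hle d hd) (hle d' hd') (Qp_of_thr h) (Qp_of_thr h')
  intro x hx hc
  refine h1 x ?_ hc
  obtain ⟨w, hw⟩ := Ideal.mem_span_singleton'.mp hx
  have h2 : ((Nat.gcd d d' : ℕ) : ℤ) = (d : ℤ) * Nat.gcdA d d' + (d' : ℤ) * Nat.gcdB d d' :=
    Nat.gcd_eq_gcd_ab d d'
  have h3 : ((Nat.gcd d d' : ℕ) : 𝓞 K) = (d : 𝓞 K) * (Nat.gcdA d d' : 𝓞 K) +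
      (d' : 𝓞 K) * (Nat.gcdB d d' : 𝓞 K) := by
    have := congrArg (Int.cast : ℤ → 𝓞 K) h2
    push_cast at this
    exact this
  rw [Submodule.mem_sup]
  refine ⟨w * Nat.gcdA d d' * d, Ideal.mul_mem_left _ _ (Ideal.mem_span_singleton_self _),
    w * Nat.gcdB d d' * d', Ideal.mul_mem_left _ _ (Ideal.mem_span_singleton_self _), ?_⟩
  rw [← hw, h3]
  ring

lemma exists_cond (S : RQ K) (hq : q ≠ 0) (hRC : IsRC q χ) :
    ∃ f : ℕ, f ∣ q ∧ ∀ d : ℕ, d ∣ q → (Thr q d χ ↔ f ∣ d) := by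
  classical
  have hex : ∃ f : ℕ, f ∣ q ∧ Thr q f χ := ⟨q, dvd_rfl, thr_q hRC⟩
  obtain ⟨hf1, hf2⟩ := Nat.find_spec hex
  refine ⟨Nat.find hex, hf1, fun d hd => ⟨fun h => ?_, fun h => thr_mono h hf2⟩⟩
  have h1 := thr_gcd S hq hRC hf1 hd hf2 h
  have h2 : Nat.find hex ≤ Nat.gcd (Nat.find hex) d :=
    Nat.find_min' hex ⟨(Nat.gcd_dvd_left _ _).trans hf1, h1⟩
  have h3 : Nat.gcd (Nat.find hex) d ∣ Nat.find hex := Nat.gcd_dvd_left _ _
  have h4 : 0 < Nat.find hex := Nat.pos_of_dvd_of_pos hf1 (Nat.pos_of_ne_zero hq)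
  have h5 : Nat.gcd (Nat.find hex) d = Nat.find hex := le_antisymm (Nat.le_of_dvd h4 h3) h2
  rw [← h5]
  exact Nat.gcd_dvd_right _ _

end

/-- the Moebius sum -/
lemma moeb {q f : ℕ} (hq : q ≠ 0) (hf : f ∣ q) :
    ∑ d ∈ q.divisors, (if f ∣ d then ArithmeticFunction.moebius (q / d) else 0) =
      if f = q then 1 else 0 := by
  have hf0 : f ≠ 0 := fun h => hq (zero_dvd_iff.mp (h ▸ hf))
  have h1 := Nat.sum_div_divisors q
    (fun e => if f ∣ q / e then ArithmeticFunction.moebius e else 0)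
  have h2 : ∑ d ∈ q.divisors, (if f ∣ d then ArithmeticFunction.moebius (q / d) else 0) =
      ∑ d ∈ q.divisors, (if f ∣ q / (q / d) then ArithmeticFunction.moebius (q / d) else 0) := by
    apply Finset.sum_congr rfl
    intro d hd
    rw [Nat.div_div_self (Nat.dvd_of_mem_divisors hd) hq]
  rw [h2, h1]
  rw [← Finset.sum_filter]
  have h3 : q.divisors.filter (fun e => f ∣ q / e) = (q / f).divisors := by
    obtain ⟨m, rfl⟩ := hf
    have hm0 : m ≠ 0 := by rintro rfl; exact hq (mul_zero _)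
    rw [Nat.mul_div_cancel_left m (Nat.pos_of_ne_zero hf0)]
    ext e
    rw [Finset.mem_filter, Nat.mem_divisors, Nat.mem_divisors]
    constructor
    · rintro ⟨⟨he, _⟩, hfe⟩
      refine ⟨?_, hm0⟩
      obtain ⟨k, hk⟩ := he
      have he0 : 0 < e := Nat.pos_of_ne_zero (by rintro rfl; rw [zero_mul] at hk; exact hq hk)
      rw [hk, Nat.mul_div_cancel_left k he0] at hfe
      obtain ⟨l, rfl⟩ := hfe
      refine ⟨l, ?_⟩
      have : f * m = f * (e * l) := by rw [hk]; ring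
      exact Nat.eq_of_mul_eq_mul_left (Nat.pos_of_ne_zero hf0) this
    · rintro ⟨⟨l, rfl⟩, _⟩
      have he0 : 0 < e := Nat.pos_of_ne_zero (by rintro rfl; simp at hm0)
      refine ⟨⟨⟨f * l, by ring⟩, hq⟩, ?_⟩
      have : f * (e * l) = e * (f * l) := by ring
      rw [this, Nat.mul_div_cancel_left _ he0]
      exact ⟨l, rfl⟩
  rw [h3]
  have h4 := ArithmeticFunction.coe_mul_zeta_apply (f := ArithmeticFunction.moebius) (x := q / f)
  rw [ArithmeticFunction.moebius_mul_coe_zeta, ArithmeticFunction.one_apply] at h4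
  rw [← h4]
  congr 1
  apply propext
  obtain ⟨m, rfl⟩ := hf
  rw [Nat.mul_div_cancel_left m (Nat.pos_of_ne_zero hf0)]
  constructor
  · rintro rfl
    rw [mul_one]
  · intro h
    have : f * m = f * 1 := by rw [mul_one]; exact h.symm
    exact Nat.eq_of_mul_eq_mul_left (Nat.pos_of_ne_zero hf0) this

end Pool.Agent.NH12.RS.Cd

namespace Pool.Agent.NH12.RS

open Pool.Agent.NH12.RS.Cd

theorem t_cond (ho : S_orth) : S_cond := by
  classical
  intro K _ _ S q hq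
  have hq0 : q ≠ 0 := by omega
  refine ⟨fun χ h => exists_cond S hq0 h, fun F => ?_⟩
  have hfin : (XX K q q).Finite := (ho K S q q hq dvd_rfl).1
  set T := hfin.toFinset with hT
  have hmem : ∀ χ, χ ∈ T ↔ IsRC q χ := by
    intro χ
    rw [hT, Set.Finite.mem_toFinset]
    exact ⟨fun h => h.1, fun h => ⟨h, thr_q h⟩⟩
  have hXX : ∀ d : ℕ, XX K q d = ↑(T.filter (fun χ => Thr q d χ)) := by
    intro d
    ext χ
    rw [Finset.coe_filter]
    show IsRC q χ ∧ Thr q d χ ↔ χ ∈ T ∧ Thr q d χ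
    rw [hmem]
  have hPP : PP K q = ↑(T.filter (fun χ => IsPr q χ)) := by
    ext χ
    rw [Finset.coe_filter]
    show IsPr q χ ↔ χ ∈ T ∧ IsPr q χ
    rw [hmem]
    exact ⟨fun h => ⟨h.toIsRC, h⟩, fun h => h.2⟩
  rw [hPP, finsum_mem_coe_finset, Finset.sum_filter]
  have h1 : ∀ d ∈ q.divisors, ((ArithmeticFunction.moebius (q / d) : ℤ) : ℂ) *
      ∑ᶠ χ ∈ XX K q d, F χ = ∑ χ ∈ T, (if Thr q d χ then
        ((ArithmeticFunction.moebius (q / d) : ℤ) : ℂ) * F χ else 0) := by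
    intro d _
    rw [hXX, finsum_mem_coe_finset, Finset.sum_filter, Finset.mul_sum]
    apply Finset.sum_congr rfl
    intro χ _
    rw [mul_ite, mul_zero]
  rw [Finset.sum_congr rfl h1, Finset.sum_comm]
  apply Finset.sum_congr rfl
  intro χ hχ
  have hRC := (hmem χ).mp hχ
  obtain ⟨f, hf1, hf2⟩ := exists_cond S hq0 hRC
  have h2 : ∀ d ∈ q.divisors, (if Thr q d χ then
        ((ArithmeticFunction.moebius (q / d) : ℤ) : ℂ) * F χ else 0) =
      ((if f ∣ d then ArithmeticFunction.moebius (q / d) else 0 : ℤ) : ℂ) * F χ := by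
    intro d hd
    by_cases h : f ∣ d
    · rw [if_pos h, if_pos ((hf2 d (Nat.dvd_of_mem_divisors hd)).mpr h)]
    · rw [if_neg h, if_neg (fun h' => h ((hf2 d (Nat.dvd_of_mem_divisors hd)).mp h'))]
      rw [Int.cast_zero, zero_mul]
  rw [Finset.sum_congr rfl h2, ← Finset.sum_mul, ← Int.cast_sum, moeb hq0 hf1]
  by_cases h : f = q
  · rw [if_pos h, Int.cast_one, one_mul, if_pos]
    refine ⟨hRC, fun d hd hne hthr => hne ?_⟩
    have := (hf2 d hd).mp hthr
    rw [h] at this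
    exact Nat.dvd_antisymm hd this
  · rw [if_neg h, Int.cast_zero, zero_mul, if_neg]
    intro hpr
    exact hpr.prim f hf1 h ((hf2 f hf1).mpr dvd_rfl)

end Pool.Agent.NH12.RS
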