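import Pool.Agent.NH12.RS.Stm

/-!
# Project RS, CONJ: conjugate ideals (helper49)
-/

set_option autoImplicit false

open NumberField Ideal

namespace Pool.Agent.NH12.RS

namespace CJ

variable {K : Type} [Field K] [NumberField K] (S : RQ K)

theorem mul (𝔞 𝔟 : Ideal (𝓞 K)) : S.cj (𝔞 * 𝔟) = S.cj 𝔞 * S.cj 𝔟 := Ideal.map_mul _ _ _

theorem cjcj (𝔞 : Ideal (𝓞 K)) : S.cj (S.cj 𝔞) = 𝔞 := by
  unfold RQ.cj
  rw [Ideal.map_map]
  have : (S.σ : 𝓞 K →+* 𝓞 K).comp (S.σ : 𝓞 K →+* 𝓞 K) = RingHom.id _ :=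
    RingHom.ext fun x => S.inv x
  rw [this, Ideal.map_id]

theorem norm (𝔞 : Ideal (𝓞 K)) : absNorm (S.cj 𝔞) = absNorm 𝔞 := by
  rw [Ideal.absNorm_apply, Ideal.absNorm_apply, Submodule.cardQuot_apply,
    Submodule.cardQuot_apply]
  exact (Nat.card_congr (Ideal.quotientEquiv 𝔞 (S.cj 𝔞) S.σ rfl).toEquiv).symm

theorem sp (x : 𝓞 K) : S.cj (Ideal.span {x}) = Ideal.span {S.σ x} := by
  unfold RQ.cj
  rw [Ideal.map_span, Set.image_singleton]
  rfl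

theorem divis {u : 𝓞 K} {m t n : ℤ} (hm : m ≠ 0) (h1 : u + S.σ u = ((m * t : ℤ) : 𝓞 K))
    (h2 : u * S.σ u = ((m ^ 2 * n : ℤ) : 𝓞 K)) : ∃ w : 𝓞 K, u = m * w := by
  have hm' : (m : K) ≠ 0 := by exact_mod_cast hm
  have h3 : u ^ 2 - ((m * t : ℤ) : 𝓞 K) * u + ((m ^ 2 * n : ℤ) : 𝓞 K) = 0 := by
    rw [← h1, ← h2]; ring
  have h4 : (u : K) ^ 2 - (m * t) * u + m ^ 2 * n = 0 := by
    have := congrArg (fun x : 𝓞 K => (x : K)) h3
    push_cast at this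
    simpa using this
  have h5 : IsIntegral ℤ ((u : K) / m) := by
    refine ⟨Polynomial.X ^ 2 - Polynomial.C t * Polynomial.X + Polynomial.C n, ?_, ?_⟩
    · have : Polynomial.X ^ 2 - Polynomial.C t * Polynomial.X + Polynomial.C n =
          Polynomial.X ^ 2 + (-Polynomial.C t * Polynomial.X + Polynomial.C n) := by ring
      rw [this]
      refine Polynomial.monic_X_pow_add ?_
      have : (-Polynomial.C t * Polynomial.X + Polynomial.C n : Polynomial ℤ) =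
          Polynomial.C (-t) * Polynomial.X + Polynomial.C n := by
        rw [map_neg]
      rw [this]
      exact lt_of_le_of_lt Polynomial.degree_linear_le (by norm_num)
    · simp only [Polynomial.eval₂_add, Polynomial.eval₂_sub, Polynomial.eval₂_mul,
        Polynomial.eval₂_pow, Polynomial.eval₂_X, Polynomial.eval₂_C]
      rw [eq_intCast, eq_intCast]
      field_simp
      linear_combination h4
  refine ⟨⟨(u : K) / m, h5⟩, ?_⟩
  apply NumberField.RingOfIntegers.ext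
  show (u : K) = m * ((u : K) / m)
  field_simp

theorem mem_m {𝔞 : Ideal (𝓞 K)} (h0 : 𝔞 ≠ ⊥) {x y : 𝓞 K} (hx : x ∈ 𝔞) (hy : y ∈ 𝔞) :
    x * S.σ y ∈ Ideal.span {((absNorm 𝔞 : ℕ) : 𝓞 K)} := by
  have hm : ((absNorm 𝔞 : ℕ) : ℤ) ≠ 0 := by
    exact_mod_cast fun h => h0 (Ideal.absNorm_eq_zero_iff.1 h)
  obtain ⟨a, ha⟩ := Ideal.absNorm_dvd_norm_of_mem hx
  obtain ⟨b, hb⟩ := Ideal.absNorm_dvd_norm_of_mem hy
  obtain ⟨c, hc⟩ := Ideal.absNorm_dvd_norm_of_mem (𝔞.add_mem hx hy)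
  have nx := S.norm x
  have ny := S.norm y
  have nxy := S.norm (x + y)
  rw [ha] at nx
  rw [hb] at ny
  rw [hc, map_add] at nxy
  obtain ⟨w, hw⟩ := divis S (u := x * S.σ y) (m := ((absNorm 𝔞 : ℕ) : ℤ)) (t := c - a - b)
    (n := a * b) hm (by
      rw [map_mul, S.inv]
      push_cast at nx ny nxy ⊢
      linear_combination nx + ny - nxy) (by
      rw [map_mul, S.inv]
      push_cast at nx ny ⊢
      linear_combination (-(y * S.σ y)) * nx - ((absNorm 𝔞 : 𝓞 K) * a) * ny)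
  rw [Ideal.mem_span_singleton, hw]
  exact ⟨w, by push_cast; rfl⟩

theorem nn (𝔞 : Ideal (𝓞 K)) : 𝔞 * S.cj 𝔞 = Ideal.span {((absNorm 𝔞 : ℕ) : 𝓞 K)} := by
  by_cases h0 : 𝔞 = ⊥
  · subst h0
    rw [Ideal.bot_mul, Ideal.absNorm_bot, Nat.cast_zero, Ideal.span_singleton_eq_bot.2 rfl]
  · have hm : absNorm 𝔞 ≠ 0 := fun h => h0 (Ideal.absNorm_eq_zero_iff.1 h)
    have h1 : 𝔞 * S.cj 𝔞 ≤ Ideal.span {((absNorm 𝔞 : ℕ) : 𝓞 K)} := by
      rw [Ideal.mul_le]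
      intro x hx z hz
      unfold RQ.cj at hz
      obtain ⟨y, hy, rfl⟩ := (Ideal.mem_map_iff_of_surjective (S.σ : 𝓞 K →+* 𝓞 K)
        S.σ.surjective).1 hz
      exact mem_m S h0 hx hy
    obtain ⟨𝔠, hc⟩ := Ideal.dvd_iff_le.2 h1
    have h2 : absNorm (Ideal.span {((absNorm 𝔞 : ℕ) : 𝓞 K)}) = absNorm 𝔞 * absNorm 𝔞 := by
      rw [Ideal.absNorm_span_singleton]
      have h3 := S.norm ((absNorm 𝔞 : ℕ) : 𝓞 K)
      rw [map_natCast S.σ] at h3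
      have h4 : Algebra.norm ℤ ((absNorm 𝔞 : ℕ) : 𝓞 K) = ((absNorm 𝔞 * absNorm 𝔞 : ℕ) : ℤ) := by
        have : ((Algebra.norm ℤ ((absNorm 𝔞 : ℕ) : 𝓞 K) : ℤ) : 𝓞 K) =
            (((absNorm 𝔞 * absNorm 𝔞 : ℕ) : ℤ) : 𝓞 K) := by
          rw [h3]; push_cast; rfl
        exact_mod_cast this
      rw [h4, Int.natAbs_natCast]
    have h3 := congrArg absNorm hc
    rw [map_mul, norm, map_mul, h2] at h3
    have h4 : absNorm 𝔠 = 1 := by
      have : 0 < absNorm 𝔞 * absNorm 𝔞 := by positivity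
      exact (Nat.eq_of_mul_eq_mul_left this (by rw [mul_one]; exact h3)).symm
    rw [Ideal.absNorm_eq_one_iff] at h4
    rw [hc, h4, Ideal.mul_top]

end CJ

theorem t_conj : S_conj := by
  intro K _ _ S
  exact ⟨CJ.mul S, CJ.cjcj S, CJ.norm S, CJ.sp S, CJ.nn S⟩

end Pool.Agent.NH12.RS
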