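import Pool.Agent.NH12.RS.Stm

/-!
# Project RS, DIV: ideals of bounded norm, divisors of an ideal (helper49)
-/

set_option autoImplicit false

open NumberField Ideal Filter Topology

namespace Pool.Agent.NH12.RS

namespace DV

open nonZeroDivisors in
theorem upper_card (K : Type) [Field K] [NumberField K] (n : ℕ) :
    Set.ncard {I : Ideal (𝓞 K) | I ≠ ⊥ ∧ absNorm I ≤ n} =
      Nat.card {I : (Ideal (𝓞 K))⁰ // (absNorm (I : Ideal (𝓞 K)) : ℝ) ≤ (n : ℝ)} := by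
  rw [← Nat.card_coe_set_eq]
  refine Nat.card_congr
    { toFun := fun I => ⟨⟨I.1, mem_nonZeroDivisors_of_ne_zero I.2.1⟩, by exact_mod_cast I.2.2⟩
      invFun := fun I => ⟨I.1.1, nonZeroDivisors.ne_zero I.1.2, by exact_mod_cast I.2⟩
      left_inv := fun I => rfl
      right_inv := fun I => rfl }

theorem upper (K : Type) [Field K] [NumberField K] :
    ∃ C : ℝ, 0 < C ∧ ∀ n : ℕ,
      (Set.ncard {I : Ideal (𝓞 K) | I ≠ ⊥ ∧ absNorm I ≤ n} : ℝ) ≤ C * n := by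
  have h1 := (NumberField.Ideal.tendsto_norm_le_div_atTop₀ K).comp
    (tendsto_natCast_atTop_atTop (R := ℝ))
  obtain ⟨C, hC⟩ := h1.bddAbove_range
  refine ⟨max C 1, lt_of_lt_of_le one_pos (le_max_right _ _), ?_⟩
  intro n
  rcases Nat.eq_zero_or_pos n with hn | hn
  · subst hn
    have h2 : {I : Ideal (𝓞 K) | I ≠ ⊥ ∧ absNorm I ≤ 0} = ∅ := by
      rw [Set.eq_empty_iff_forall_notMem]
      rintro I ⟨hI, hI0⟩
      exact hI (Ideal.absNorm_eq_zero_iff.1 (Nat.le_zero.1 hI0))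
    rw [h2]
    simp
  · have h2 := hC ⟨n, rfl⟩
    have hn' : (0 : ℝ) < n := by exact_mod_cast hn
    rw [upper_card]
    have h3 : (Nat.card {I : nonZeroDivisors (Ideal (𝓞 K)) //
      (absNorm (I : Ideal (𝓞 K)) : ℝ) ≤ (n : ℝ)} : ℝ) / n ≤ C := h2
    rw [div_le_iff₀ hn'] at h3
    exact h3.trans (mul_le_mul_of_nonneg_right (le_max_left _ _) hn'.le)

variable {K : Type} [Field K] [NumberField K]

/-- the divisors -/
def dv (𝔠 : Ideal (𝓞 K)) : Set (Ideal (𝓞 K)) := {𝔞 | 𝔞 ∣ 𝔠}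

theorem norm_pos {𝔠 : Ideal (𝓞 K)} (h : 𝔠 ≠ ⊥) : 0 < absNorm 𝔠 :=
  Nat.pos_of_ne_zero fun h0 => h (Ideal.absNorm_eq_zero_iff.1 h0)

theorem dv_fin {𝔠 : Ideal (𝓞 K)} (h : 𝔠 ≠ ⊥) : (dv 𝔠).Finite := by
  refine (Ideal.finite_setOfPred_absNorm_le (S := 𝓞 K) (absNorm 𝔠)).subset ?_
  intro 𝔞 h𝔞
  exact Nat.le_of_dvd (norm_pos h) (map_dvd Ideal.absNorm h𝔞)

theorem dv_mul {𝔞 𝔟 : Ideal (𝓞 K)} (ha : 𝔞 ≠ ⊥) (hb : 𝔟 ≠ ⊥) :
    (dv (𝔞 * 𝔟)).ncard ≤ (dv 𝔞).ncard * (dv 𝔟).ncard := by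
  have h1 : dv (𝔞 * 𝔟) ⊆ (fun p : Ideal (𝓞 K) × Ideal (𝓞 K) => p.1 * p.2) '' (dv 𝔞 ×ˢ dv 𝔟) := by
    intro 𝔡 hd
    obtain ⟨x, y, hx, hy, rfl⟩ := exists_dvd_and_dvd_of_dvd_mul hd
    exact ⟨(x, y), ⟨hx, hy⟩, rfl⟩
  have hf : (dv 𝔞 ×ˢ dv 𝔟).Finite := (dv_fin ha).prod (dv_fin hb)
  calc (dv (𝔞 * 𝔟)).ncard ≤ _ := Set.ncard_le_ncard h1 (hf.image _)
    _ ≤ (dv 𝔞 ×ˢ dv 𝔟).ncard := Set.ncard_image_le hf
    _ = _ := Set.ncard_prod

theorem dv_pow {𝔭 : Ideal (𝓞 K)} (hp : Prime 𝔭) (k : ℕ) : (dv (𝔭 ^ k)).ncard ≤ k + 1 := by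
  have h1 : dv (𝔭 ^ k) ⊆ ((Finset.range (k+1)).image fun j => 𝔭 ^ j : Set (Ideal (𝓞 K))) := by
    intro 𝔡 hd
    obtain ⟨j, hj, h2⟩ := (dvd_prime_pow hp k).1 hd
    rw [associated_iff_eq] at h2
    rw [Finset.coe_image]
    exact ⟨j, Finset.mem_coe.2 (Finset.mem_range.2 (by omega)), h2.symm⟩
  calc (dv (𝔭 ^ k)).ncard ≤ _ := Set.ncard_le_ncard h1 (Finset.finite_toSet _)
    _ = _ := Set.ncard_coe_finset _
    _ ≤ _ := Finset.card_image_le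
    _ = _ := Finset.card_range _

theorem large {η : ℝ} {𝔠 : Ideal (𝓞 K)} (h : 𝔠 ≠ ⊥)
    (hl : ∀ 𝔭 : Ideal (𝓞 K), Prime 𝔭 → 𝔭 ∣ 𝔠 → 2 ≤ (absNorm 𝔭 : ℝ) ^ η) :
    ((dv 𝔠).ncard : ℝ) ≤ (absNorm 𝔠 : ℝ) ^ η := by
  induction 𝔠 using UniqueFactorizationMonoid.induction_on_prime with
  | h₁ => exact absurd rfl h
  | h₂ x hx =>
    rw [Ideal.isUnit_iff] at hx
    subst hx
    have h1 : dv (⊤ : Ideal (𝓞 K)) = {⊤} := by
      ext 𝔡
      rw [Set.mem_singleton_iff]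
      constructor
      · intro hd
        have : IsUnit 𝔡 := isUnit_of_dvd_unit hd (Ideal.isUnit_iff.2 rfl)
        exact Ideal.isUnit_iff.1 this
      · rintro rfl
        exact dvd_refl _
    rw [h1, Set.ncard_singleton, Ideal.absNorm_top]
    simp
  | h₃ x 𝔭 hx hp ih =>
    have h1 := ih hx fun 𝔮 hq hd => hl 𝔮 hq (hd.trans (dvd_mul_left _ _))
    have h2 := hl 𝔭 hp (dvd_mul_right _ _)
    have h3 : ((dv 𝔭).ncard : ℝ) ≤ 2 := by
      have := dv_pow hp 1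
      rw [pow_one] at this
      exact_mod_cast this
    have h4 : ((dv (𝔭 * x)).ncard : ℝ) ≤ (dv 𝔭).ncard * (dv x).ncard := by
      exact_mod_cast dv_mul hp.ne_zero hx
    rw [map_mul, Nat.cast_mul, Real.mul_rpow (Nat.cast_nonneg _) (Nat.cast_nonneg _)]
    calc _ ≤ _ := h4
      _ ≤ (absNorm 𝔭 : ℝ) ^ η * (absNorm x : ℝ) ^ η :=
        mul_le_mul (h3.trans h2) h1 (Nat.cast_nonneg _) (by positivity)

theorem two_le {𝔭 : Ideal (𝓞 K)} (hp : Prime 𝔭) : (2 : ℝ) ≤ absNorm 𝔭 := by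
  have h1 := norm_pos hp.ne_zero
  have h2 : absNorm 𝔭 ≠ 1 := fun h => hp.not_isUnit (Ideal.isUnit_iff.2 (Ideal.absNorm_eq_one_iff.1 h))
  exact_mod_cast (by omega : 2 ≤ absNorm 𝔭)

theorem lin {η : ℝ} (hη : 0 < η) (k : ℕ) :
    (k : ℝ) + 1 ≤ (1 + 1 / (η * Real.log 2)) * (2 : ℝ) ^ (η * k) := by
  have hl : 0 < Real.log 2 := Real.log_pos (by norm_num)
  have h1 : 1 + η * k * Real.log 2 ≤ (2 : ℝ) ^ (η * k) := by
    rw [Real.rpow_def_of_pos (by norm_num)]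
    have := Real.add_one_le_exp (Real.log 2 * (η * k))
    linarith
  have hk : (0:ℝ) ≤ k := Nat.cast_nonneg _
  have h2 : (k : ℝ) + 1 ≤ (1 + 1 / (η * Real.log 2)) * (1 + η * k * Real.log 2) := by
    have e : (1 + 1 / (η * Real.log 2)) * (1 + η * k * Real.log 2) =
        1 + k + (1 / (η * Real.log 2) + η * k * Real.log 2) := by
      field_simp
      ring
    rw [e]
    have : 0 ≤ 1 / (η * Real.log 2) + η * k * Real.log 2 := by positivity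
    linarith
  exact h2.trans (mul_le_mul_of_nonneg_left h1 (by positivity))

theorem main {η : ℝ} (hη : 0 < η) (F : Finset (Ideal (𝓞 K))) :
    ∀ 𝔠 : Ideal (𝓞 K), 𝔠 ≠ ⊥ →
    (∀ 𝔭 : Ideal (𝓞 K), Prime 𝔭 → 𝔭 ∣ 𝔠 → 𝔭 ∈ F ∨ 2 ≤ (absNorm 𝔭 : ℝ) ^ η) →
    ((dv 𝔠).ncard : ℝ) ≤ (1 + 1 / (η * Real.log 2)) ^ F.card * (absNorm 𝔠 : ℝ) ^ η := by
  classical
  have hl : 0 < Real.log 2 := Real.log_pos (by norm_num)
  have hB : 1 ≤ 1 + 1 / (η * Real.log 2) := by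
    have : 0 ≤ 1 / (η * Real.log 2) := by positivity
    linarith
  induction F using Finset.induction_on with
  | empty =>
    intro 𝔠 h0 h
    rw [Finset.card_empty, pow_zero, one_mul]
    refine large h0 fun 𝔭 hp hd => ?_
    rcases h 𝔭 hp hd with h1 | h1
    · exact absurd h1 (Finset.notMem_empty _)
    · exact h1
  | insert 𝔭 F hF ih =>
    intro 𝔠 h0 h
    rw [Finset.card_insert_of_notMem hF]
    by_cases hp : Prime 𝔭
    · obtain ⟨x, hx1, hx⟩ := FiniteMultiplicity.exists_eq_pow_mul_and_not_dvd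
        (FiniteMultiplicity.of_prime_left hp h0)
      generalize multiplicity 𝔭 𝔠 = k at hx1
      subst hx1
      have hx0 : x ≠ ⊥ := by
        rintro rfl
        exact hx (dvd_zero _)
      have h1 := ih x hx0 (by
        intro 𝔮 hq hd
        rcases h 𝔮 hq (hd.trans (dvd_mul_left _ _)) with h2 | h2
        · rw [Finset.mem_insert] at h2
          rcases h2 with rfl | h2
          · exact absurd hd hx
          · exact Or.inl h2
        · exact Or.inr h2)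
      have h2 : ((dv (𝔭 ^ k * x)).ncard : ℝ) ≤ (dv (𝔭 ^ k)).ncard * (dv x).ncard := by
        exact_mod_cast dv_mul (pow_ne_zero k hp.ne_zero) hx0
      have h3 : ((dv (𝔭 ^ k)).ncard : ℝ) ≤ k + 1 := by exact_mod_cast dv_pow hp k
      have h4 : (2 : ℝ) ^ (η * k) ≤ ((absNorm (𝔭 ^ k) : ℕ) : ℝ) ^ η := by
        rw [map_pow, Nat.cast_pow, ← Real.rpow_natCast, ← Real.rpow_mul (Nat.cast_nonneg _),
          mul_comm (k : ℝ) η]
        exact Real.rpow_le_rpow (by norm_num) (two_le hp) (by positivity)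
      rw [map_mul, Nat.cast_mul, Real.mul_rpow (Nat.cast_nonneg _) (Nat.cast_nonneg _), pow_succ]
      calc _ ≤ _ := h2
        _ ≤ ((1 + 1 / (η * Real.log 2)) * ((absNorm (𝔭 ^ k) : ℕ) : ℝ) ^ η) *
            ((1 + 1 / (η * Real.log 2)) ^ F.card * (absNorm x : ℝ) ^ η) := by
          refine mul_le_mul ?_ h1 (Nat.cast_nonneg _) (by positivity)
          exact (h3.trans (lin hη k)).trans (mul_le_mul_of_nonneg_left h4 (by positivity))
        _ = _ := by ring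
    · have h1 := ih 𝔠 h0 (by
        intro 𝔮 hq hd
        rcases h 𝔮 hq hd with h2 | h2
        · rw [Finset.mem_insert] at h2
          rcases h2 with rfl | h2
          · exact absurd hq hp
          · exact Or.inl h2
        · exact Or.inr h2)
      refine h1.trans (mul_le_mul_of_nonneg_right ?_ (by positivity))
      exact pow_le_pow_right₀ hB (Nat.le_succ _)

end DV

theorem t_div : S_div := by
  intro K _ _ _
  constructor
  · obtain ⟨C, hC, h⟩ := DV.upper K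
    refine ⟨C, hC, fun Y hY => ?_⟩
    have e : {𝔞 : Ideal (𝓞 K) | 𝔞 ≠ ⊥ ∧ (Ideal.absNorm 𝔞 : ℝ) ≤ Y} =
        {𝔞 : Ideal (𝓞 K) | 𝔞 ≠ ⊥ ∧ Ideal.absNorm 𝔞 ≤ ⌊Y⌋₊} := by
      ext 𝔞
      exact and_congr_right fun _ => (Nat.le_floor_iff (by linarith)).symm
    rw [e]
    refine ⟨(Ideal.finite_setOfPred_absNorm_le (S := 𝓞 K) ⌊Y⌋₊).subset fun 𝔞 h => h.2, ?_⟩
    exact (h _).trans (mul_le_mul_of_nonneg_left (Nat.floor_le (by linarith)) hC.le)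
  · intro η hη
    classical
    have hfin : {𝔭 : Ideal (𝓞 K) | absNorm 𝔭 ≤ ⌊(2 : ℝ) ^ (1 / η)⌋₊}.Finite :=
      Ideal.finite_setOfPred_absNorm_le (S := 𝓞 K) _
    refine ⟨(1 + 1 / (η * Real.log 2)) ^ hfin.toFinset.card, ?_, fun 𝔠 h0 => ⟨DV.dv_fin h0, ?_⟩⟩
    · have hl : 0 < Real.log 2 := Real.log_pos (by norm_num)
      positivity
    · refine DV.main hη hfin.toFinset 𝔠 h0 fun 𝔭 hp _ => ?_
      by_cases h : absNorm 𝔭 ≤ ⌊(2 : ℝ) ^ (1 / η)⌋₊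
      · exact Or.inl (by rw [Set.Finite.mem_toFinset]; exact h)
      · right
        rw [Nat.le_floor_iff (by positivity), not_le] at h
        have h1 := Real.rpow_le_rpow (by positivity) h.le hη.le
        rw [← Real.rpow_mul (by norm_num), one_div_mul_cancel hη.ne', Real.rpow_one] at h1
        exact h1

end Pool.Agent.NH12.RS
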