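import Pool.Agent.NH12.RS.Stm
import Pool.Agent.Y773.HK.FeK

/-! # The functional equation with explicit root number (from `Pool.Agent.Y773.fe_prim`) -/

set_option autoImplicit false
set_option linter.unusedSectionVars false

open NumberField Complex Filter Topology Set MeasureTheory

namespace Pool.Agent.NH12.RS

open Pool.Agent.Y773

theorem card_inf (K : Type) [Field K] [NumberField K] [IsTotallyReal K]
    (h2 : Module.finrank ℚ K = 2) : Fintype.card (InfinitePlace K) = 2 := by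
  have h := InfinitePlace.card_eq_nrRealPlaces_add_nrComplexPlaces K
  have h1 := IsTotallyReal.finrank K
  have h3 : InfinitePlace.nrComplexPlaces K = 0 := IsTotallyReal.nrComplexPlaces_eq_zero K
  omega

theorem t_fe : S_fe := by
  intro K _ _ _ hd2
  classical
  have h𝔡 : differentIdeal ℤ (𝓞 K) ≠ ⊥ := differentIdeal_ne_bot
  obtain ⟨V, hV, hfe⟩ := fam_fe K
  obtain ⟨C, hC, hmel⟩ := mellin_Ftot K
  have hNd : 0 < (Ideal.absNorm (differentIdeal ℤ (𝓞 K)) : ℝ) := by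
    have : Ideal.absNorm (differentIdeal ℤ (𝓞 K)) ≠ 0 :=
      fun h1 => h𝔡 (Ideal.absNorm_eq_zero_iff.mp h1)
    exact_mod_cast Nat.pos_of_ne_zero this
  refine ⟨V⁻¹ * Real.sqrt (Ideal.absNorm (differentIdeal ℤ (𝓞 K))), by positivity, ?_⟩
  intro 𝔣 a ψ ha hp h
  set e : InfinitePlace K → ℕ := fun _ => a with he
  -- the character is not trivial
  have hn : ∃ 𝔞, IsCoprime 𝔞 𝔣 ∧ ψ 𝔞 ≠ 1 := by
    have hne : (⊤ : Ideal (𝓞 K)) ≠ 𝔣 := fun h1 => h.ne_top h1.symm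
    obtain ⟨x, -, -, hx, hx2⟩ := hp.prim ⊤ (by rw [← Ideal.one_eq_top]; exact one_dvd _) hne
    exact ⟨_, hx, hx2⟩
  obtain ⟨τ₀, hτ₀⟩ := t_gauss K 𝔣 ψ e hp h
  set m := mm (rp K) 𝔣 with hm
  set D := Dd K with hD
  have hm0 : 0 < m := mm_pos rp_ne_bot h.ne_bot
  have hD0 : 0 < D := Dd_pos
  have hN : ∀ c, Nice e (Ps ψ e (rp K c)) := fun c => h.nice (rp_ne_bot c)
  obtain ⟨h1, h2, h3⟩ := hfe (rp K) reps_rp e ψ hN m D hm0
    hD0 Dd_mem (fun c => h.per_m (rp_ne_bot c) (mm_mem _ _ c)) (h.const_zero hn)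
  choose 𝔟' h𝔟' using fun c => exists_compl (𝔣 := 𝔣) (𝔟 := rp K c) (m := m) (D := D)
    (mm_mem _ _ c) Dd_mem
  have hR' : Reps 𝔟' := reps_compl h.ne_bot reps_rp (Nat.mul_pos hm0 hD0) h𝔟'
  have hN' : ∀ c, Nice e (Ps ψ e (𝔟' c)) := fun c => h.nice (hR'.ne_bot c)
  set R : ℝ := ((Ideal.absNorm 𝔣 * Ideal.absNorm (differentIdeal ℤ (𝓞 K)) : ℕ) : ℝ) with hRdef
  have hNf : 0 < (Ideal.absNorm 𝔣 : ℝ) := by
    have : Ideal.absNorm 𝔣 ≠ 0 := fun h1 => h.ne_bot (Ideal.absNorm_eq_zero_iff.mp h1)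
    exact_mod_cast Nat.pos_of_ne_zero this
  have hR1 : 1 ≤ R := by
    rw [hRdef]
    have h4 : Ideal.absNorm 𝔣 * Ideal.absNorm (differentIdeal ℤ (𝓞 K)) ≠ 0 :=
      mul_ne_zero (fun h1 => h.ne_bot (Ideal.absNorm_eq_zero_iff.mp h1))
        (fun h1 => h𝔡 (Ideal.absNorm_eq_zero_iff.mp h1))
    exact_mod_cast Nat.one_le_iff_ne_zero.mpr h4
  have hR0 : 0 < R := by linarith
  have hRc : (R : ℂ) ≠ 0 := by exact_mod_cast hR0.ne'
  set M := mellin (Ftot ψ e (rp K)) with hM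
  -- the mellin transform for the complementary representatives
  have hdM' : Differentiable ℂ (mellin (Ftot ψ e 𝔟')) := by
    have hz : ((G0 e (fun _ => 0) : ℝ) : ℂ) *
        (∑ c, (Ideal.absNorm (𝔟' c) : ℂ) * FT D (mm 𝔟' 𝔣) (Ps ψ e (𝔟' c)) 0) = 0 := by
      by_cases he : ∀ w, e w = 0
      · have : ∀ c, FT D (mm 𝔟' 𝔣) (Ps ψ e (𝔟' c)) 0 = 0 := by
          intro c
          obtain ⟨𝔟'', h𝔟''⟩ := exists_compl (𝔣 := 𝔣) (𝔟 := 𝔟' c) (m := mm 𝔟' 𝔣) (D := D)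
            (mm_mem _ _ c) Dd_mem
          rw [hτ₀ (𝔟' c) 𝔟'' (mm 𝔟' 𝔣) D (mm_pos hR'.ne_bot h.ne_bot) hD0 h𝔟'' (mm_mem _ _ c) Dd_mem]
          have h5 : 𝔟'' ≠ ⊥ := by
            rintro rfl
            rw [Ideal.bot_mul] at h𝔟''
            exact span_m_ne_bot (Nat.mul_pos (mm_pos hR'.ne_bot h.ne_bot) hD0) h𝔟''.symm
          rw [(h.nice h5).zero, map_zero, mul_zero]
        simp_rw [this]
        simp
      · push Not at he
        obtain ⟨w, hw⟩ := he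
        have : G0 e (fun _ => (0 : ℝ)) = 0 := by
          unfold G0
          refine Finset.prod_eq_zero (Finset.mem_univ w) ?_
          unfold g0
          rw [zero_pow hw, zero_mul]
        rw [this, Complex.ofReal_zero, zero_mul]
    exact (hfe 𝔟' hR' e ψ hN' (mm 𝔟' 𝔣) D (mm_pos hR'.ne_bot h.ne_bot) hD0 Dd_mem
      (fun c => h.per_m (hR'.ne_bot c) (mm_mem _ _ c)) hz).2.1
  have hMM : mellin (Ftot ψ e 𝔟') = M := by
    refine entire_eq hdM' h2 fun s hs => ?_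
    rw [hM, (hmel 𝔟' hR' e ψ h.norm_le_one hN' s hs).2,
      (hmel (rp K) reps_rp e ψ h.norm_le_one hN s hs).2]
  have hconjR : ∀ z : ℂ, (starRingEnd ℂ) ((R : ℂ) ^ z) = (R : ℂ) ^ ((starRingEnd ℂ) z) := by
    intro z
    have h7 : ((R : ℝ) : ℂ).arg ≠ Real.pi := by
      rw [Complex.arg_ofReal_of_nonneg hR0.le]
      exact Real.pi_ne_zero.symm
    have h8 := Complex.conj_cpow (R : ℂ) ((starRingEnd ℂ) z) h7
    rw [Complex.conj_ofReal, Complex.conj_conj] at h8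
    exact h8.symm
  have hC' : (C : ℂ) ≠ 0 := by exact_mod_cast hC.ne'
  have hcp2 : Differentiable ℂ fun s : ℂ => (R : ℂ) ^ (s / 2) := fun s =>
    DifferentiableAt.const_cpow (by fun_prop) (Or.inl hRc)
  refine ⟨fun s => (C : ℂ)⁻¹ * ((R : ℂ) ^ (s / 2) * M s), ⟨hR1, (hcp2.mul h2).const_mul _, ?_, ?_⟩, ?_⟩
  · intro b c
    obtain ⟨C', hC'⟩ := mellin_strip_bound h1 b c
    refine ⟨‖(C : ℂ)⁻¹‖ * (R ^ (c / 2) * |C'|), by positivity, fun s hsa hsb => ?_⟩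
    rw [norm_mul, norm_mul]
    have h5 : ‖(R : ℂ) ^ (s / 2)‖ ≤ R ^ (c / 2) := by
      rw [Complex.norm_cpow_eq_rpow_re_of_pos hR0]
      refine Real.rpow_le_rpow_of_exponent_le hR1 ?_
      have : (s / 2).re = s.re / 2 := by simp
      rw [this]
      linarith
    have h6 : ‖M s‖ ≤ |C'| := (hC' s hsa hsb).trans (le_abs_self _)
    have h7 : (1 : ℝ) ≤ (1 + ‖s‖) ^ 2 := by nlinarith [norm_nonneg s]
    have h8 : ‖(C : ℂ)⁻¹‖ * (‖(R : ℂ) ^ (s / 2)‖ * ‖M s‖) ≤ ‖(C : ℂ)⁻¹‖ * (R ^ (c / 2) * |C'|) := by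
      gcongr
    refine h8.trans (le_mul_of_one_le_right (by positivity) h7)
  · intro s hs
    rw [hM, (hmel (rp K) reps_rp e ψ h.norm_le_one hN s hs).2]
    have h5 : (∏ w : InfinitePlace K, Complex.Gammaℝ (s + e w)) = Complex.Gammaℝ (s + a) ^ 2 := by
      rw [he, Finset.prod_const, Finset.card_univ, card_inf K hd2]
    rw [h5]
    field_simp
  · intro τ hτ s
    set κ : ℂ := ((V⁻¹ : ℝ) : ℂ) * ((m : ℂ) ^ (Module.finrank ℚ K))⁻¹ * (-I) ^ (∑ w, e w) with hκ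
    set A : ℂ := τ * ((m : ℂ) ^ (Module.finrank ℚ K) / (Ideal.absNorm 𝔣 : ℂ)) with hA
    have hG : ∀ s, mellin (Gtot ψ e (rp K) m D) s =
        A * ((R : ℂ) ^ s * (starRingEnd ℂ) (M ((starRingEnd ℂ) s))) := by
      intro s
      have h5 : Gtot ψ e (rp K) m D = fun t => A • (starRingEnd ℂ) (Ftot ψ e 𝔟' (R⁻¹ * t)) := by
        funext t
        rw [smul_eq_mul]
        exact Gtot_eq h reps_rp hR' h𝔟' (fun c x => hτ (rp K c) (𝔟' c) m D hm0 hD0 (h𝔟' c)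
          (mm_mem _ _ c) Dd_mem x) t
      rw [h5, mellin_const_smul, smul_eq_mul, mellin_conj (fun t => Ftot ψ e 𝔟' (R⁻¹ * t)),
        mellin_comp_mul_left _ _ (inv_pos.mpr hR0), hMM, smul_eq_mul, map_mul]
      congr 2
      have h6 : (((R⁻¹ : ℝ) : ℂ)) ^ (-(starRingEnd ℂ) s) = (R : ℂ) ^ ((starRingEnd ℂ) s) := by
        rw [Complex.cpow_def_of_ne_zero (by exact_mod_cast (inv_pos.mpr hR0).ne'),
          ← Complex.ofReal_log (inv_pos.mpr hR0).le, Real.log_inv,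
          Complex.cpow_def_of_ne_zero hRc, ← Complex.ofReal_log hR0.le]
        congr 1
        push_cast
        ring
      rw [h6]
      have h7 : ((R : ℝ) : ℂ).arg ≠ Real.pi := by
        rw [Complex.arg_ofReal_of_nonneg hR0.le]
        exact Real.pi_ne_zero.symm
      have h8 := Complex.conj_cpow (R : ℂ) s h7
      rw [Complex.conj_ofReal] at h8
      exact h8.symm
    have hw : (-1 : ℂ) ^ a * ((V⁻¹ * Real.sqrt (Ideal.absNorm (differentIdeal ℤ (𝓞 K))) : ℝ) : ℂ) * τ /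
        (Real.sqrt (Ideal.absNorm 𝔣) : ℂ) = κ * A * (R : ℂ) ^ (1 / 2 : ℂ) := by
      have e1 : (R : ℂ) ^ (1 / 2 : ℂ) = ((Real.sqrt (Ideal.absNorm 𝔣) *
          Real.sqrt (Ideal.absNorm (differentIdeal ℤ (𝓞 K))) : ℝ) : ℂ) := by
        rw [← Real.sqrt_mul hNf.le, Real.sqrt_eq_rpow]
        rw [Complex.ofReal_cpow (by positivity)]
        rw [hRdef]
        push_cast
        norm_num
      have e2 : (-I : ℂ) ^ (∑ w, e w) = (-1) ^ a := by
        rw [he, Finset.sum_const, Finset.card_univ, card_inf K hd2, smul_eq_mul, pow_mul]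
        congr 1
        rw [neg_sq, I_sq]
      have e3 : (m : ℂ) ^ (Module.finrank ℚ K) ≠ 0 := pow_ne_zero _ (by exact_mod_cast hm0.ne')
      have e4 : ((Ideal.absNorm 𝔣 : ℕ) : ℂ) = (Real.sqrt (Ideal.absNorm 𝔣) : ℂ) *
          (Real.sqrt (Ideal.absNorm 𝔣) : ℂ) := by
        rw [← Complex.ofReal_mul, Real.mul_self_sqrt hNf.le]
        norm_num
      have e5 : (Real.sqrt (Ideal.absNorm 𝔣) : ℂ) ≠ 0 := by
        exact_mod_cast (Real.sqrt_pos.2 hNf).ne'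
      rw [hκ, hA, e1, e2, e4]
      push_cast
      field_simp
    rw [hw]
    have h5 := h3 (1 - s)
    rw [sub_sub_cancel, hG, map_sub, map_one] at h5
    simp only
    rw [h5, map_mul, map_mul, hconjR, map_inv₀, Complex.conj_ofReal]
    have h6 : (starRingEnd ℂ) ((1 - (starRingEnd ℂ) s) / 2) = (1 - s) / 2 := by
      have h20 : (starRingEnd ℂ) (2 : ℂ) = 2 := map_ofNat (starRingEnd ℂ) 2
      rw [map_div₀, map_sub, map_one, Complex.conj_conj, h20]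
    rw [h6]
    have h7 : (R : ℂ) ^ (s / 2) * (R : ℂ) ^ (1 - s) = (R : ℂ) ^ (1 / 2 : ℂ) * (R : ℂ) ^ ((1 - s) / 2) := by
      rw [← Complex.cpow_add _ _ hRc, ← Complex.cpow_add _ _ hRc]
      congr 1
      ring
    linear_combination ((C : ℂ)⁻¹ * κ * A * (starRingEnd ℂ) (M (1 - (starRingEnd ℂ) s))) * h7

end Pool.Agent.NH12.RS
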