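import Pool.Agent.NH12.RS.Stm

/-!
# Project RS: `ℚ(√5)`, the golden ratio and the Fibonacci numbers (helper45)
-/

set_option autoImplicit false

open NumberField

namespace Pool.Agent.NH12.RS

/-- every quadratic field has a nontrivial automorphism -/
theorem exists_aut {K : Type} [Field K] [NumberField K] (h2 : Module.finrank ℚ K = 2) :
    ∃ σ' : K ≃+* K, ∃ x, σ' x ≠ x := by
  have hq : Algebra.IsQuadraticExtension ℚ K := ⟨h2⟩
  have hg : IsGalois ℚ K := inferInstance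
  have hcard : Nat.card (K ≃ₐ[ℚ] K) = 2 := by rw [IsGalois.card_aut_eq_finrank, h2]
  have hnt : Nontrivial (K ≃ₐ[ℚ] K) := by
    rw [← Finite.one_lt_card_iff_nontrivial, hcard]
    norm_num
  obtain ⟨φ, hφ⟩ := exists_ne (1 : K ≃ₐ[ℚ] K)
  refine ⟨φ.toRingEquiv, ?_⟩
  by_contra hcon
  push Not at hcon
  exact hφ (AlgEquiv.ext hcon)

theorem aut_five {K : Type} [Field K] [NumberField K] (h2 : Module.finrank ℚ K = 2) (s : 𝓞 K)
    (_hs : s ^ 2 = 5) : ∃ σ' : K ≃+* K, ∃ x, σ' x ≠ x := exists_aut h2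

namespace FibP

theorem rat_sq (r : ℚ) : r ^ 2 ≠ 5 := by
  intro h
  have hirr : Irrational (Real.sqrt 5) := by
    have := Nat.Prime.irrational_sqrt (show Nat.Prime 5 by norm_num)
    exact_mod_cast this
  apply hirr
  refine ⟨|r|, ?_⟩
  have h1 : ((r : ℝ)) ^ 2 = 5 := by exact_mod_cast h
  rw [← h1, Real.sqrt_sq_eq_abs]
  push_cast
  rfl

theorem span_s {K : Type} [Field K] [NumberField K] (h2 : Module.finrank ℚ K = 2) (s : K)
    (hs : s ^ 2 = 5) (y : K) : ∃ a b : ℚ, y = a + b * s := by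
  have hli : LinearIndependent ℚ ![(1 : K), s] := by
    rw [LinearIndependent.pair_iff]
    intro a b hab
    rw [Algebra.smul_def, Algebra.smul_def, eq_ratCast, eq_ratCast, mul_one] at hab
    have hb : b = 0 := by
      by_contra hb
      apply rat_sq (-a / b)
      have hbK : (b : K) ≠ 0 := by exact_mod_cast hb
      have h1 : ((-a / b : ℚ) : K) = s := by
        push_cast
        rw [div_eq_iff hbK]
        linear_combination (-1 : K) * hab
      have h3 : (((-a / b) ^ 2 : ℚ) : K) = ((5 : ℚ) : K) := by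
        push_cast [← h1] at hs ⊢
        exact hs
      exact_mod_cast h3
    rw [hb] at hab
    rw [Rat.cast_zero, zero_mul, add_zero] at hab
    exact ⟨by exact_mod_cast hab, hb⟩
  let B := basisOfLinearIndependentOfCardEqFinrank hli (by rw [Fintype.card_fin, h2])
  have h := B.sum_repr y
  rw [Fin.sum_univ_two] at h
  refine ⟨B.repr y 0, B.repr y 1, ?_⟩
  have b0 : B 0 = 1 := by
    simp [B]
  have b1 : B 1 = s := by
    simp [B]
  rw [b0, b1, Algebra.smul_def, Algebra.smul_def, eq_ratCast, eq_ratCast, mul_one] at h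
  exact h.symm

end FibP

theorem real_five {K : Type} [Field K] [NumberField K] (h2 : Module.finrank ℚ K = 2) (s : 𝓞 K)
    (hs : s ^ 2 = 5) : IsTotallyReal K := by
  refine ⟨fun w => ?_⟩
  refine ⟨w.embedding, ?_, InfinitePlace.mk_embedding w⟩
  rw [ComplexEmbedding.isReal_iff]
  have hs' : (s : K) ^ 2 = 5 := by
    have := congrArg (algebraMap (𝓞 K) K) hs
    rw [map_pow, map_ofNat] at this
    exact this
  set φ := w.embedding
  have hz : (φ s) ^ 2 = 5 := by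
    rw [← map_pow, hs', map_ofNat]
  have hz2 : (starRingEnd ℂ) (φ s) = φ s := by
    have h5 : ((Real.sqrt 5 : ℝ) : ℂ) ^ 2 = 5 := by
      rw [← Complex.ofReal_pow, Real.sq_sqrt (by norm_num)]
      norm_num
    have h0 : (φ s - (Real.sqrt 5 : ℝ)) * (φ s + (Real.sqrt 5 : ℝ)) = 0 := by
      linear_combination hz - h5
    rcases mul_eq_zero.1 h0 with h | h
    · rw [sub_eq_zero.1 h, Complex.conj_ofReal]
    · rw [eq_neg_of_add_eq_zero_left h, map_neg, Complex.conj_ofReal]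
  ext y
  obtain ⟨a, b, rfl⟩ := FibP.span_s h2 (s : K) hs' y
  rw [ComplexEmbedding.conjugate_coe_eq, map_add, map_mul, map_ratCast, map_ratCast, map_add,
    map_mul, hz2, map_ratCast, map_ratCast]

namespace FibP

theorem fib_pow {R : Type} [CommRing R] (x : R) (hx : x ^ 2 = x + 1) (n : ℕ) :
    x ^ (n + 1) = (Nat.fib (n + 1) : R) * x + (Nat.fib n : R) := by
  induction n with
  | zero => simp
  | succ n ih =>
    rw [pow_succ, ih, Nat.fib_add_two]
    push_cast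
    linear_combination (Nat.fib (n + 1) : R) * hx

theorem int_sq (m : ℤ) : m ^ 2 ≠ 5 := by
  intro h
  have h1 : m ≤ 2 := by nlinarith
  have h2 : -2 ≤ m := by nlinarith
  interval_cases m <;> omega

theorem sigma_s {K : Type} [Field K] [NumberField K] (S : RQ K) (s : 𝓞 K) (hs : s ^ 2 = 5) :
    S.σ s = -s := by
  have h1 : (S.σ s - s) * (S.σ s + s) = 0 := by
    have : (S.σ s) ^ 2 = 5 := by rw [← map_pow, hs, map_ofNat]
    linear_combination this - hs
  rcases mul_eq_zero.1 h1 with h | h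
  · obtain ⟨a, ha⟩ := S.fix s (sub_eq_zero.1 h)
    exfalso
    apply int_sq a
    rw [ha] at hs
    exact_mod_cast hs
  · exact eq_neg_of_add_eq_zero_left h

theorem exists_phi {K : Type} [Field K] [NumberField K] (s : 𝓞 K) (hs : s ^ 2 = 5) :
    ∃ φ : 𝓞 K, 2 * φ = 1 + s := by
  have hs' : (s : K) ^ 2 = 5 := by
    have := congrArg (algebraMap (𝓞 K) K) hs
    rw [map_pow, map_ofNat] at this
    exact this
  have hint : IsIntegral ℤ ((1 + (s : K)) / 2) := by
    refine ⟨Polynomial.X ^ 2 - Polynomial.X - 1, ?_, ?_⟩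
    · monicity!
    · rw [Polynomial.eval₂_sub, Polynomial.eval₂_sub, Polynomial.eval₂_pow, Polynomial.eval₂_X,
        Polynomial.eval₂_one]
      field_simp
      linear_combination hs'
  refine ⟨⟨_, hint⟩, RingOfIntegers.ext ?_⟩
  show (2 : K) * ((1 + (s : K)) / 2) = 1 + (s : K)
  field_simp

theorem eps_eq {K : Type} [Field K] [NumberField K] (S : RQ K) (s : 𝓞 K) (hs : s ^ 2 = 5)
    (hpos : 0 < S.τ s) : ∃ φ : 𝓞 K, (S.ε : 𝓞 K) = φ ∧ φ ^ 2 = φ + 1 ∧ S.σ φ = 1 - φ := by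
  have hσs := sigma_s S s hs
  obtain ⟨φ, hφ⟩ := exists_phi s hs
  have h2 : (2 : 𝓞 K) ≠ 0 := two_ne_zero
  have hφ2 : φ ^ 2 = φ + 1 := by
    have h4 : (2 : 𝓞 K) * (2 * (φ ^ 2 - (φ + 1))) = 0 := by
      linear_combination (2 * φ + 1 + s) * hφ + hs - 2 * hφ
    rcases mul_eq_zero.1 h4 with h | h
    · exact absurd h h2
    · rcases mul_eq_zero.1 h with h | h
      · exact absurd h h2
      · exact sub_eq_zero.1 h
  have hσφ : S.σ φ = 1 - φ := by
    have h4 : (2 : 𝓞 K) * (S.σ φ - (1 - φ)) = 0 := by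
      have h5 := congrArg S.σ hφ
      rw [map_mul, map_ofNat, map_add, map_one, hσs] at h5
      linear_combination h5 + hφ
    rcases mul_eq_zero.1 h4 with h | h
    · exact absurd h h2
    · exact sub_eq_zero.1 h
  refine ⟨φ, ?_, hφ2, hσφ⟩
  -- the real values
  have hs5 : S.τ s ^ 2 = 5 := by rw [← map_pow, hs, map_ofNat]
  have hφr : 2 * S.τ φ = 1 + S.τ s := by
    have := congrArg S.τ hφ
    rwa [map_mul, map_ofNat, map_add, map_one] at this
  have hs2 : 2 < S.τ s := by nlinarith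
  have hφ1 : 1 < S.τ φ := by linarith
  -- the unit
  let φu : (𝓞 K)ˣ := ⟨φ, φ - 1, by linear_combination hφ2, by linear_combination hφ2⟩
  have hφu : (φu : 𝓞 K) = φ := rfl
  obtain ⟨k, hk⟩ := S.unit φu
  have hτε := S.one_lt
  have hτk : ∀ k : ℤ, S.τ ((S.ε ^ k : (𝓞 K)ˣ) : 𝓞 K) = (S.τ S.ε) ^ k := by
    intro k
    have h1 : S.τ ((S.ε ^ k : (𝓞 K)ˣ) : 𝓞 K) = ((Units.map (S.τ : 𝓞 K →* ℝ) (S.ε ^ k) : ℝˣ) : ℝ) :=
      rfl
    rw [h1, map_zpow, Units.val_zpow_eq_zpow_val]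
    rfl
  have hk1 : S.τ φ = (S.τ S.ε) ^ k := by
    rcases hk with h | h
    · rw [← hτk, ← h]
    · exfalso
      have h3 : S.τ φ = -(S.τ S.ε) ^ k := by
        rw [← hτk, ← map_neg, ← Units.val_neg, ← h]
      have h4 : 0 < (S.τ S.ε) ^ k := zpow_pos (by linarith) k
      linarith
  have hkpos : 1 ≤ k := by
    by_contra hcon
    push Not at hcon
    have : (S.τ S.ε) ^ k ≤ 1 := zpow_le_one_of_nonpos₀ hτε.le (by omega)
    linarith
  have hle1 : S.τ S.ε ≤ S.τ φ := by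
    rw [hk1]
    calc S.τ S.ε = (S.τ S.ε) ^ (1 : ℤ) := (zpow_one _).symm
      _ ≤ (S.τ S.ε) ^ k := zpow_le_zpow_right₀ hτε.le hkpos
  -- the lower bound
  obtain ⟨A, hA⟩ : ∃ A : ℤ, (A : 𝓞 K) = (S.ε : 𝓞 K) + S.σ S.ε := ⟨_, S.trace S.ε⟩
  obtain ⟨N0, hN0, hN1⟩ : ∃ N : ℤ, (N : 𝓞 K) = (S.ε : 𝓞 K) * S.σ S.ε ∧ (N = 1 ∨ N = -1) := by
    refine ⟨Algebra.norm ℤ (S.ε : 𝓞 K), S.norm S.ε, ?_⟩
    exact Int.isUnit_iff.1 (S.ε.isUnit.map (Algebra.norm ℤ))
  obtain ⟨b, hb⟩ : ∃ b : ℤ, (S.ε : 𝓞 K) - S.σ S.ε = b * s := by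
    obtain ⟨m, hm⟩ := S.fix (((S.ε : 𝓞 K) - S.σ S.ε) * s) (by
      rw [map_mul, map_sub, S.inv, hσs]
      ring)
    obtain ⟨N, hN⟩ := S.fix (((S.ε : 𝓞 K) - S.σ S.ε) ^ 2) (by
      rw [map_pow, map_sub, S.inv]
      ring)
    have hmN : m ^ 2 = 5 * N := by
      have : ((m ^ 2 : ℤ) : 𝓞 K) = ((5 * N : ℤ) : 𝓞 K) := by
        push_cast
        rw [← hm, ← hN, ← hs]
        ring
      exact_mod_cast this
    have h5 : (5 : ℤ) ∣ m := by
      have hp : Prime (5 : ℤ) := Int.prime_iff_natAbs_prime.2 (by norm_num)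
      exact hp.dvd_of_dvd_pow (Dvd.intro _ hmN.symm)
    obtain ⟨b, hb⟩ := h5
    refine ⟨b, ?_⟩
    have hs0 : s ≠ 0 := by
      rintro rfl
      norm_num at hs
    apply mul_right_cancel₀ hs0
    rw [hm, hb]
    push_cast
    rw [← hs]
    ring
  have hAr : (A : ℝ) = S.τ S.ε + S.τ (S.σ S.ε) := by
    have := congrArg S.τ hA
    rwa [map_intCast, map_add] at this
  have hbr : S.τ S.ε - S.τ (S.σ S.ε) = b * S.τ s := by
    have := congrArg S.τ hb
    rwa [map_sub, map_mul, map_intCast] at this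
  have hNr : (N0 : ℝ) = S.τ S.ε * S.τ (S.σ S.ε) := by
    have := congrArg S.τ hN0
    rwa [map_intCast, map_mul] at this
  have habs : |S.τ (S.σ S.ε)| < 1 := by
    have h1 : S.τ S.ε * |S.τ (S.σ S.ε)| = 1 := by
      have h3 : |(N0 : ℝ)| = 1 := by
        rcases hN1 with h | h <;> rw [h] <;> norm_num
      rw [hNr, abs_mul, abs_of_pos (by linarith : (0 : ℝ) < S.τ S.ε)] at h3
      exact h3
    by_contra hcon
    push Not at hcon
    nlinarith
  obtain ⟨hab1, hab2⟩ := abs_lt.1 habs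
  have hA1 : 1 ≤ A := by
    have : (0 : ℝ) < A := by rw [hAr]; linarith
    have h0 : 0 < A := by exact_mod_cast this
    omega
  have hb1 : 1 ≤ b := by
    have h0 : (0 : ℝ) < b * S.τ s := by rw [← hbr]; linarith
    have h1 : (0 : ℝ) < b := (pos_iff_pos_of_mul_pos h0).2 hpos
    have h0 : 0 < b := by exact_mod_cast h1
    omega
  have hA1r : (1 : ℝ) ≤ A := by exact_mod_cast hA1
  have hb1r : (1 : ℝ) ≤ b := by exact_mod_cast hb1
  have hle2 : S.τ φ ≤ S.τ S.ε := by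
    have : S.τ s ≤ b * S.τ s := le_mul_of_one_le_left hpos.le hb1r
    linarith
  exact S.inj (le_antisymm hle1 hle2)

end FibP

open FibP in
theorem fib_five {K : Type} [Field K] [NumberField K] (S : RQ K) (s : 𝓞 K) (hs : s ^ 2 = 5)
    (n : ℕ) (hn : n.Prime) : IsU S n (Nat.fib n) := by
  refine ⟨hn, ?_⟩
  have hne : S.τ s ≠ 0 := by
    intro h
    have h0 : s = 0 := S.inj (by rw [h, map_zero])
    rw [h0] at hs
    norm_num at hs
  obtain ⟨φ, h1, h2, h3⟩ : ∃ φ : 𝓞 K, (S.ε : 𝓞 K) = φ ∧ φ ^ 2 = φ + 1 ∧ S.σ φ = 1 - φ := by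
    rcases lt_or_gt_of_ne hne with h | h
    · exact eps_eq S (-s) (by rw [neg_sq, hs]) (by rw [map_neg]; linarith)
    · exact eps_eq S s hs h
  rw [h1, h3]
  obtain ⟨k, rfl⟩ : ∃ k, n = k + 1 := ⟨n - 1, by have := hn.pos; omega⟩
  have h4 : (1 - φ) ^ 2 = (1 - φ) + 1 := by linear_combination h2
  rw [fib_pow φ h2, fib_pow (1 - φ) h4]
  ring

end Pool.Agent.NH12.RS
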