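import Pool.Agent.NH12.RS.Second2

/-! # The diagonal terms -/

set_option autoImplicit false
set_option linter.unusedSectionVars false

open NumberField Complex Finset

namespace Pool.Agent.NH12.RS

open Pool.Agent.Y773 (TPos IsPrimChar IsModChar LI sg)

variable {K : Type} [Field K] [NumberField K]

/-- the least positive integer in an ideal -/
lemma exists_least {𝔣 : Ideal (𝓞 K)} (h : 𝔣 ≠ ⊥) : ∃ f : ℕ, 0 < f ∧ (f : 𝓞 K) ∈ 𝔣 ∧
    ∀ m : ℕ, 0 < m → (m : 𝓞 K) ∈ 𝔣 → f ≤ m := by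
  classical
  have hex : ∃ m : ℕ, 0 < m ∧ (m : 𝓞 K) ∈ 𝔣 :=
    ⟨Ideal.absNorm 𝔣, Nat.pos_of_ne_zero fun h1 => h (Ideal.absNorm_eq_zero_iff.mp h1),
      Ideal.absNorm_mem 𝔣⟩
  exact ⟨Nat.find hex, (Nat.find_spec hex).1, (Nat.find_spec hex).2,
    fun m h1 h2 => Nat.find_min' hex ⟨h1, h2⟩⟩

lemma cop_iff {𝔣 : Ideal (𝓞 K)} {f : ℕ} (hf : 0 < f) (hm : (f : 𝓞 K) ∈ 𝔣)
    (hmin : ∀ m : ℕ, 0 < m → (m : 𝓞 K) ∈ 𝔣 → f ≤ m) (n : ℕ) :
    IsCoprime (Ideal.span {(n : 𝓞 K)}) 𝔣 ↔ Nat.Coprime n f := by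
  constructor
  · intro h
    by_contra hn
    obtain ⟨p, hp, ⟨n', hn'⟩, ⟨f', hf'⟩⟩ := Nat.Prime.not_coprime_iff_dvd.mp hn
    rw [Ideal.isCoprime_iff_exists] at h
    obtain ⟨x, hx, y, hy, hxy⟩ := h
    obtain ⟨z, rfl⟩ := Ideal.mem_span_singleton'.mp hx
    have hf'0 : 0 < f' := by
      rcases Nat.eq_zero_or_pos f' with h0 | h0
      · rw [h0, mul_zero] at hf'; omega
      · exact h0
    have h1 : (f' : 𝓞 K) ∈ 𝔣 := by
      have h2 : (f' : 𝓞 K) = z * n' * (f : 𝓞 K) + f' * y := by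
        rw [hf']
        push_cast
        have h3 : (n : 𝓞 K) = p * n' := by rw [hn']; push_cast; rfl
        rw [h3] at hxy
        linear_combination -(f' : 𝓞 K) * hxy
      rw [h2]
      exact Ideal.add_mem _ (Ideal.mul_mem_left _ _ hm) (Ideal.mul_mem_left _ _ hy)
    have h2 := hmin f' hf'0 h1
    have h3 := hp.two_le
    nlinarith
  · intro h
    rw [Ideal.isCoprime_iff_exists]
    have h1 := Nat.isCoprime_iff_coprime.mpr h
    obtain ⟨u, v, huv⟩ := h1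
    refine ⟨(u : 𝓞 K) * (n : 𝓞 K), Ideal.mul_mem_left _ _ (Ideal.mem_span_singleton_self _),
      (v : 𝓞 K) * (f : 𝓞 K), Ideal.mul_mem_left _ _ hm, ?_⟩
    have h2 : ((u * (n : ℤ) + v * (f : ℤ) : ℤ) : 𝓞 K) = ((1 : ℤ) : 𝓞 K) := by
      rw [huv]
    push_cast at h2
    exact h2

lemma span_mul_nat (m n : ℕ) : Ideal.span {((m * n : ℕ) : 𝓞 K)} =
    Ideal.span {(m : 𝓞 K)} * Ideal.span {(n : 𝓞 K)} := by
  rw [Ideal.span_singleton_mul_span_singleton]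
  push_cast
  rfl

variable [IsTotallyReal K]

/-- the values of `ψ₀` at the rational integers -/
noncomputable def kap (ψ₀ : Ideal (𝓞 K) →*₀ ℂ) (f n : ℕ) : ℝ :=
  if n = 0 then (ψ₀ (Ideal.span {(f : 𝓞 K)})).re else (ψ₀ (Ideal.span {(n : 𝓞 K)})).re

lemma psi_nat_real (hc : S_conj) {S : RQ K} {𝔣₀ : Ideal (𝓞 K)} {a : ℕ}
    {ψ₀ : Ideal (𝓞 K) →*₀ ℂ} (hB : Base S 𝔣₀ a ψ₀) (n : ℕ) :
    (((ψ₀ (Ideal.span {(n : 𝓞 K)})).re : ℝ) : ℂ) = ψ₀ (Ideal.span {(n : 𝓞 K)}) := by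
  obtain ⟨hmul, hcc, hN, hsp, hnorm⟩ := hc K S
  have h1 := hB.self (Ideal.span {(n : 𝓞 K)})
  rw [hsp, map_natCast] at h1
  exact Complex.conj_eq_iff_re.mp h1.symm

lemma kap_props (hc : S_conj) {S : RQ K} {𝔣₀ : Ideal (𝓞 K)} {a : ℕ}
    {ψ₀ : Ideal (𝓞 K) →*₀ ℂ} (hB : Base S 𝔣₀ a ψ₀) {f : ℕ} (hf : 0 < f) (hm : (f : 𝓞 K) ∈ 𝔣₀)
    (hmin : ∀ m : ℕ, 0 < m → (m : 𝓞 K) ∈ 𝔣₀ → f ≤ m) :
    kap ψ₀ f 1 = 1 ∧ (∀ m n, kap ψ₀ f (m * n) = kap ψ₀ f m * kap ψ₀ f n) ∧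
    (∀ n, kap ψ₀ f (n + f) = kap ψ₀ f n) ∧ (∀ n, kap ψ₀ f n ≠ 0 ↔ Nat.Coprime n f) := by
  have hval : ∀ n : ℕ, 0 < n → ((kap ψ₀ f n : ℝ) : ℂ) = ψ₀ (Ideal.span {(n : 𝓞 K)}) := by
    intro n hn
    unfold kap
    rw [if_neg hn.ne']
    exact psi_nat_real hc hB n
  have h0 : kap ψ₀ f 0 = kap ψ₀ f f := by
    unfold kap
    rw [if_pos rfl, if_neg hf.ne']
  have hspn : ∀ n : ℕ, 0 < n → Ideal.span {(n : 𝓞 K)} ≠ ⊥ := by
    intro n hn
    rw [Ne, Ideal.span_singleton_eq_bot]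
    exact_mod_cast hn.ne'
  have hnz : ∀ n : ℕ, 0 < n → (kap ψ₀ f n ≠ 0 ↔ Nat.Coprime n f) := by
    intro n hn
    rw [← cop_iff hf hm hmin n, ← hB.supp _ (hspn n hn), ← hval n hn]
    simp
  have hone : ∀ n : ℕ, 0 < n → ((n : 𝓞 K) - 1 ∈ 𝔣₀) → kap ψ₀ f n = 1 := by
    intro n hn h1
    have h2 := hB.sig (n : 𝓞 K) (by exact_mod_cast hn.ne') h1
    have h3 : ((n : 𝓞 K) : K) = (n : K) := by simp
    rw [h3, Pool.Agent.Y773.sg_natCast (K := K) (fun _ => a) hn, ← hval n hn] at h2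
    exact_mod_cast h2
  have hmul1 : ∀ m n : ℕ, 0 < m → 0 < n → kap ψ₀ f (m * n) = kap ψ₀ f m * kap ψ₀ f n := by
    intro m n hm1 hn1
    have h1 : ((kap ψ₀ f (m * n) : ℝ) : ℂ) = ((kap ψ₀ f m * kap ψ₀ f n : ℝ) : ℂ) := by
      rw [hval _ (Nat.mul_pos hm1 hn1), span_mul_nat, map_mul, Complex.ofReal_mul, hval _ hm1,
        hval _ hn1]
    exact_mod_cast h1
  have h1f : kap ψ₀ f 1 = 1 := hone 1 one_pos (by simp)
  have hper1 : ∀ n : ℕ, 0 < n → kap ψ₀ f (n + f) = kap ψ₀ f n := by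
    intro n hn
    by_cases hco : Nat.Coprime n f
    · obtain ⟨m, hm0, hmn⟩ : ∃ m : ℕ, 0 < m ∧ (((m * n : ℕ) : 𝓞 K) - 1 ∈ 𝔣₀) := by
        rcases Nat.lt_or_ge 1 f with h1 | h1
        · obtain ⟨m, -, hm1⟩ := Nat.exists_mul_mod_eq_one_of_coprime hco h1
          have h2 : 0 < m := by
            rcases Nat.eq_zero_or_pos m with h0 | h0
            · rw [h0, mul_zero, Nat.zero_mod] at hm1; omega
            · exact h0
          refine ⟨m, h2, ?_⟩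
          have h3 : m * n = f * (n * m / f) + 1 := by
            rw [mul_comm m n]
            have := Nat.div_add_mod (n * m) f
            omega
          rw [h3]
          push_cast
          have h4 : (f : 𝓞 K) * ((n * m / f : ℕ) : 𝓞 K) + 1 - 1 = ((n * m / f : ℕ) : 𝓞 K) * f := by
            ring
          rw [h4]
          exact Ideal.mul_mem_left _ _ hm
        · have hf1 : f = 1 := by omega
          have h2 : 𝔣₀ = ⊤ := by
            rw [Ideal.eq_top_iff_one]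
            rw [hf1] at hm
            simpa using hm
          exact ⟨1, one_pos, by rw [h2]; trivial⟩
      have e1 := hone (m * n) (Nat.mul_pos hm0 hn) hmn
      have e2 : kap ψ₀ f (m * (n + f)) = 1 := by
        refine hone _ (Nat.mul_pos hm0 (by omega)) ?_
        have h4 : ((m * (n + f) : ℕ) : 𝓞 K) - 1 = (((m * n : ℕ) : 𝓞 K) - 1) + m * f := by
          push_cast
          ring
        rw [h4]
        exact Ideal.add_mem _ hmn (Ideal.mul_mem_left _ _ hm)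
      rw [hmul1 m n hm0 hn] at e1
      rw [hmul1 m (n + f) hm0 (by omega)] at e2
      have h5 : kap ψ₀ f m ≠ 0 := by
        intro h6
        rw [h6, zero_mul] at e1
        exact zero_ne_one e1
      exact mul_left_cancel₀ h5 (e2.trans e1.symm)
    · have h1 : kap ψ₀ f n = 0 := by
        by_contra h2
        exact hco ((hnz n hn).mp h2)
      have h2 : kap ψ₀ f (n + f) = 0 := by
        by_contra h2
        have h3 := (hnz (n + f) (by omega)).mp h2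
        rw [Nat.coprime_add_self_left] at h3
        exact hco h3
      rw [h1, h2]
  have hnz0 : kap ψ₀ f 0 ≠ 0 ↔ Nat.Coprime 0 f := by
    rw [h0, hnz f hf, Nat.coprime_self, Nat.coprime_zero_left]
  refine ⟨h1f, ?_, ?_, ?_⟩
  · have hz : ∀ n, kap ψ₀ f 0 = kap ψ₀ f 0 * kap ψ₀ f n := by
      intro n
      by_cases hz0 : kap ψ₀ f 0 = 0
      · rw [hz0, zero_mul]
      · have hf1 : f = 1 := by
          have := hnz0.mp hz0
          rwa [Nat.coprime_zero_left] at this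
        have h2 : 𝔣₀ = ⊤ := by
          rw [Ideal.eq_top_iff_one]
          rw [hf1] at hm
          simpa using hm
        have h3 : kap ψ₀ f n = 1 := by
          rcases Nat.eq_zero_or_pos n with h4 | h4
          · rw [h4, h0, hf1]
            rw [hf1] at h1f
            exact h1f
          · exact hone n h4 (by rw [h2]; trivial)
        rw [h3, mul_one]
    intro m n
    rcases Nat.eq_zero_or_pos m with h4 | h4
    · rw [h4, zero_mul]
      exact hz n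
    · rcases Nat.eq_zero_or_pos n with h5 | h5
      · rw [h5, mul_zero, mul_comm]
        exact hz m
      · exact hmul1 m n h4 h5
  · intro n
    rcases Nat.eq_zero_or_pos n with h4 | h4
    · rw [h4, zero_add, h0]
    · exact hper1 n h4
  · intro n
    rcases Nat.eq_zero_or_pos n with h4 | h4
    · rw [h4]
      exact hnz0
    · exact hnz n h4

lemma cop_nat {q n : ℕ} (hq : 0 < q) : Cop q (Ideal.span {(n : 𝓞 K)}) ↔ Nat.Coprime n q := by
  unfold Cop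
  refine cop_iff hq (Ideal.mem_span_singleton_self _) ?_ n
  intro m hm0 hm
  rw [Ideal.mem_span_singleton] at hm
  obtain ⟨y, hy⟩ := hm
  -- taking norms
  have h1 : Ideal.span {(m : 𝓞 K)} ≤ Ideal.span {(q : 𝓞 K)} := by
    rw [Ideal.span_singleton_le_span_singleton]
    exact ⟨y, hy⟩
  have h2 := Ideal.absNorm_dvd_absNorm_of_le h1
  rw [absNorm_nat, absNorm_nat] at h2
  have h3 : q ∣ m := (Nat.pow_dvd_pow_iff rank_pos.ne').mp h2
  exact Nat.le_of_dvd hm0 h3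

lemma span_nat_inj {m n : ℕ} (h : Ideal.span {(m : 𝓞 K)} = Ideal.span {(n : 𝓞 K)}) : m = n := by
  have h1 := congrArg Ideal.absNorm h
  rw [absNorm_nat, absNorm_nat] at h1
  exact Nat.pow_left_injective (Nat.pos_iff_ne_zero.mp rank_pos |> fun h => by omega) h1

/-- the diagonal terms are a sum over the positive integers -/
lemma dd_top (h2 : Module.finrank ℚ K = 2) (hc : S_conj) {S : RQ K} {𝔣₀ : Ideal (𝓞 K)} {a : ℕ}
    {ψ₀ : Ideal (𝓞 K) →*₀ ℂ} (hB : Base S 𝔣₀ a ψ₀) (f : ℕ) (v : ℝ → ℝ) (X : ℝ) {q : ℕ}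
    (hq : 0 < q) :
    DD v X q ⊤ ψ₀ =
      ((∑' n : ℕ, (if Nat.Coprime n q then kap ψ₀ f n / n * v ((n : ℝ) ^ 2 / X) else 0) : ℝ) : ℂ) := by
  classical
  unfold DD
  rw [Complex.ofReal_tsum]
  set F : Ideal (𝓞 K) → ℂ := fun 𝔞 => if Cop q 𝔞 ∧ Rat (⊤ * 𝔞) then ψ₀ 𝔞 *
    (((Ideal.absNorm 𝔞 : ℝ) ^ (-(1 / 2) : ℝ) * v ((Ideal.absNorm 𝔞 : ℝ) / X) : ℝ) : ℂ) else 0 with hF
  set g : ℕ → Ideal (𝓞 K) := fun n => Ideal.span {((n + 1 : ℕ) : 𝓞 K)} with hg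
  have hinj : Function.Injective g := by
    intro m n hmn
    have := span_nat_inj (K := K) hmn
    omega
  have hsupp : Function.support F ⊆ Set.range g := by
    intro 𝔞 h𝔞
    rw [Function.mem_support, hF] at h𝔞
    simp only [ne_eq, ite_eq_right_iff, not_forall] at h𝔞
    obtain ⟨⟨-, hR⟩, -⟩ := h𝔞
    rw [Ideal.top_mul] at hR
    obtain ⟨m, hm0, hm⟩ := hR
    refine ⟨m - 1, ?_⟩
    rw [hg]
    simp only
    rw [Nat.sub_add_cancel hm0, hm]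
  have h1 : ∑' 𝔞, F 𝔞 = ∑' n : ℕ, F (g n) := (hinj.tsum_eq hsupp).symm
  have h3 : ∀ n : ℕ, F (g n) = (((if Nat.Coprime (n + 1) q then kap ψ₀ f (n + 1) / ((n + 1 : ℕ) : ℝ) *
      v (((n + 1 : ℕ) : ℝ) ^ 2 / X) else 0) : ℝ) : ℂ) := by
    intro n
    rw [hF, hg]
    simp only
    have h4 : Rat (⊤ * Ideal.span {((n + 1 : ℕ) : 𝓞 K)}) := by
      rw [Ideal.top_mul]
      exact ⟨n + 1, by omega, rfl⟩
    by_cases h5 : Nat.Coprime (n + 1) q
    · rw [if_pos ⟨(cop_nat hq).mpr h5, h4⟩, if_pos h5, absNorm_nat2 h2]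
      have h6 : kap ψ₀ f (n + 1) = (ψ₀ (Ideal.span {((n + 1 : ℕ) : 𝓞 K)})).re := by
        unfold kap
        rw [if_neg (by omega)]
      rw [h6]
      have h7 : (((n + 1) ^ 2 : ℕ) : ℝ) ^ (-(1 / 2) : ℝ) = (((n + 1 : ℕ) : ℝ))⁻¹ := by
        have h8 : (0 : ℝ) < ((n + 1 : ℕ) : ℝ) := by positivity
        have h9 : (((n + 1) ^ 2 : ℕ) : ℝ) = ((n + 1 : ℕ) : ℝ) ^ (2 : ℝ) := by
          push_cast
          norm_cast
        rw [h9, ← Real.rpow_mul h8.le]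
        norm_num
        rw [Real.rpow_neg_one]
      rw [h7]
      have h10 := psi_nat_real hc hB (n + 1)
      conv_lhs => rw [← h10]
      push_cast
      ring
    · rw [if_neg (fun h => h5 ((cop_nat hq).mp h.1)), if_neg h5]
      simp
  rw [h1, tsum_congr h3]
  set G : ℕ → ℂ := fun n => (((if Nat.Coprime n q then kap ψ₀ f n / n *
      v ((n : ℝ) ^ 2 / X) else 0) : ℝ) : ℂ) with hG
  have h4 : Function.support G ⊆ Set.range Nat.succ := by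
    intro n hn
    rcases Nat.eq_zero_or_pos n with h0 | h0
    · exfalso
      rw [Function.mem_support, hG] at hn
      apply hn
      simp only
      rw [h0]
      simp
    · exact ⟨n - 1, by simp only [Nat.succ_eq_add_one]; omega⟩
  have h5 := (Nat.succ_injective).tsum_eq h4
  rw [← h5]

/-- if `𝔣₀` is not generated by an integer there are no diagonal terms for `𝔣₀` -/
lemma dd_zero (hd : S_diag) {S : RQ K} {𝔣₀ : Ideal (𝓞 K)} {a : ℕ} (hinv : S.cj 𝔣₀ = 𝔣₀)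
    {ψ₀ : Ideal (𝓞 K) →*₀ ℂ} (hB : Base S 𝔣₀ a ψ₀) (hr : ¬ Rat 𝔣₀) (v : ℝ → ℝ) (X : ℝ) (q : ℕ) :
    DD v X q 𝔣₀ ψ₀ = 0 := by
  classical
  unfold DD
  have h1 : ∀ 𝔞 : Ideal (𝓞 K), (if Cop q 𝔞 ∧ Rat (𝔣₀ * 𝔞) then ψ₀ 𝔞 *
    (((Ideal.absNorm 𝔞 : ℝ) ^ (-(1 / 2) : ℝ) * v ((Ideal.absNorm 𝔞 : ℝ) / X) : ℝ) : ℂ) else 0) = 0 := by
    intro 𝔞
    by_cases h2 : Cop q 𝔞 ∧ Rat (𝔣₀ * 𝔞)
    · rw [if_pos h2]
      have h3 : 𝔞 ≠ ⊥ := by
        intro h4
        obtain ⟨b, hb0, hb⟩ := h2.2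
        rw [h4, Ideal.mul_bot] at hb
        have h5 : Ideal.span {(b : 𝓞 K)} ≠ ⊥ := by
          rw [Ne, Ideal.span_singleton_eq_bot]
          exact_mod_cast hb0.ne'
        exact h5 hb.symm
      have h4 : ψ₀ 𝔞 = 0 := by
        by_contra h5
        exact hr (hd K S 𝔣₀ 𝔞 hB.ne_bot hinv ((hB.supp 𝔞 h3).mp h5) h2.2)
      rw [h4, zero_mul]
    · rw [if_neg h2]
  rw [tsum_congr h1, tsum_zero]

end Pool.Agent.NH12.RS
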