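import Pool.Agent.NH12.RS.Fin1

/-! # Counting non-zero terms -/

set_option autoImplicit false
set_option linter.unusedSectionVars false

open NumberField Complex Finset

namespace Pool.Agent.NH12.RS

open Pool.Agent.Y773 (TPos IsPrimChar IsModChar LI sg)

lemma cs_count {ι : Type} (s : Finset ι) (b A : ι → ℂ) {B t : ℝ} (hb : ∀ i ∈ s, ‖b i‖ ≤ B)
    (ht : 0 ≤ t) (hs : t * (s.card : ℝ) ≤ ‖∑ i ∈ s, b i * A i‖) :
    (‖∑ i ∈ s, b i * A i‖ - t * (s.card : ℝ)) ^ 2 ≤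
      ((s.filter fun i => t ≤ ‖b i * A i‖).card : ℝ) * (B ^ 2 * ∑ i ∈ s, ‖A i‖ ^ 2) := by
  classical
  set s' := s.filter fun i => t ≤ ‖b i * A i‖ with hs'
  have h1 : ‖∑ i ∈ s, b i * A i‖ ≤ ∑ i ∈ s', ‖b i * A i‖ + t * (s.card : ℝ) := by
    refine (norm_sum_le _ _).trans ?_
    rw [← Finset.sum_filter_add_sum_filter_not s (fun i => t ≤ ‖b i * A i‖)]
    refine add_le_add le_rfl ?_
    calc ∑ i ∈ s with ¬ t ≤ ‖b i * A i‖, ‖b i * A i‖ ≤ ∑ i ∈ s with ¬ t ≤ ‖b i * A i‖, t := by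
          refine Finset.sum_le_sum fun i hi => ?_
          rw [Finset.mem_filter, not_le] at hi
          exact hi.2.le
      _ = ((s.filter fun i => ¬ t ≤ ‖b i * A i‖).card : ℝ) * t := by
          rw [Finset.sum_const, nsmul_eq_mul]
      _ ≤ (s.card : ℝ) * t := by
          have := Finset.card_filter_le s (fun i => ¬ t ≤ ‖b i * A i‖)
          have h2 : ((s.filter fun i => ¬ t ≤ ‖b i * A i‖).card : ℝ) ≤ (s.card : ℝ) := by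
            exact_mod_cast this
          gcongr
      _ = _ := mul_comm _ _
  have h3 : (∑ i ∈ s', ‖b i * A i‖) ^ 2 ≤ (s'.card : ℝ) * ∑ i ∈ s', ‖b i * A i‖ ^ 2 :=
    sq_sum_le_card_mul_sum_sq
  have h4 : ∑ i ∈ s', ‖b i * A i‖ ^ 2 ≤ B ^ 2 * ∑ i ∈ s, ‖A i‖ ^ 2 := by
    calc ∑ i ∈ s', ‖b i * A i‖ ^ 2 ≤ ∑ i ∈ s, ‖b i * A i‖ ^ 2 :=
          Finset.sum_le_sum_of_subset_of_nonneg (Finset.filter_subset _ _) fun _ _ _ => by positivity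
      _ ≤ ∑ i ∈ s, B ^ 2 * ‖A i‖ ^ 2 := by
          refine Finset.sum_le_sum fun i hi => ?_
          rw [norm_mul, mul_pow]
          have := hb i hi
          gcongr
      _ = _ := by rw [← Finset.mul_sum]
  calc (‖∑ i ∈ s, b i * A i‖ - t * (s.card : ℝ)) ^ 2 ≤ (∑ i ∈ s', ‖b i * A i‖) ^ 2 := by
        have h5 : 0 ≤ ‖∑ i ∈ s, b i * A i‖ - t * (s.card : ℝ) := by linarith
        have h6 : ‖∑ i ∈ s, b i * A i‖ - t * (s.card : ℝ) ≤ ∑ i ∈ s', ‖b i * A i‖ := by linarith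
        gcongr
    _ ≤ (s'.card : ℝ) * ∑ i ∈ s', ‖b i * A i‖ ^ 2 := h3
    _ ≤ _ := by gcongr

variable {K : Type} [Field K] [NumberField K]

lemma base_norm [IsTotallyReal K] {S : RQ K} {𝔣₀ : Ideal (𝓞 K)} {a : ℕ}
    {ψ₀ : Ideal (𝓞 K) →*₀ ℂ} (hB : Base S 𝔣₀ a ψ₀) (𝔞 : Ideal (𝓞 K)) : ‖ψ₀ 𝔞‖ ≤ 1 := by
  by_cases h : 𝔣₀ = ⊤
  · rcases eq_or_ne 𝔞 ⊥ with h0 | h0
    · have : (⊥ : Ideal (𝓞 K)) = 0 := rfl
      rw [h0, this, map_zero, norm_zero]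
      exact zero_le_one
    · -- a power of `𝔞` is principal, and then its square has value one
      have h1 : ∃ n : ℕ, 0 < n ∧ (𝔞 ^ n).IsPrincipal := by
        have h2 : 𝔞 ∈ nonZeroDivisors (Ideal (𝓞 K)) := mem_nonZeroDivisors_of_ne_zero h0
        refine ⟨Fintype.card (ClassGroup (𝓞 K)), Fintype.card_pos, ?_⟩
        have h3 : ClassGroup.mk0 (⟨𝔞, h2⟩ ^ Fintype.card (ClassGroup (𝓞 K))) = 1 := by
          rw [map_pow]
          exact pow_card_eq_one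
        have h4 := ClassGroup.mk0_eq_one_iff
          (⟨𝔞, h2⟩ ^ Fintype.card (ClassGroup (𝓞 K)) : nonZeroDivisors (Ideal (𝓞 K))).2
        exact h4.mp h3
      obtain ⟨n, hn, ⟨x, hx⟩⟩ := h1
      have hx' : 𝔞 ^ n = Ideal.span {x} := hx
      have hx0 : x ≠ 0 := by
        intro h5
        rw [h5, Ideal.span_singleton_eq_bot.mpr rfl] at hx'
        exact h0 (pow_eq_zero_iff hn.ne' |>.mp hx')
      have h5 : ψ₀ 𝔞 ^ n = sg (fun _ => a) (x : K) := by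
        rw [← map_pow, hx']
        refine hB.sig x hx0 ?_
        rw [h]
        trivial
      have h6 : ‖ψ₀ 𝔞‖ ^ n ≤ 1 := by
        rw [← norm_pow, h5]
        exact Pool.Agent.Y773.norm_sg_le _ _
      by_contra h7
      push Not at h7
      have := one_lt_pow₀ h7 hn.ne'
      linarith
  · have hmod : IsModChar 𝔣₀ (fun _ => a) ψ₀ :=
      { ne_bot := hB.ne_bot
        ne_top := h
        sig_le := fun _ => hB.le_one
        supp := by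
          intro 𝔞
          rcases eq_or_ne 𝔞 ⊥ with h0 | h0
          · have h1 : (⊥ : Ideal (𝓞 K)) = 0 := rfl
            rw [h0, h1, map_zero]
            constructor
            · intro h2; exact absurd rfl h2
            · intro h2
              exfalso
              rw [Ideal.isCoprime_iff_add, zero_add] at h2
              exact h (by rw [h2, Ideal.one_eq_top])
          · exact hB.supp 𝔞 h0
        sig := hB.sig }
    exact hmod.norm_le_one 𝔞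

theorem count_w [IsTotallyReal K] (S : RQ K) (h2 : Module.finrank ℚ K = 2) (hc : S_conj)
    (hs2 : S_seq2) (hmain : S_main) (hdiag : S_diag) (hinv : S_inv) (hfirst : S_first)
    (hsecond : S_second) (hcardL : S_cardL) (ho : S_orth) {𝔣₀ : Ideal (𝓞 K)} {a : ℕ}
    {ψ₀ : Ideal (𝓞 K) →*₀ ℂ} (hB : Base S 𝔣₀ a ψ₀) {v : ℝ → ℝ} (hv : Wt v) {ρ : ℝ} (hρ : 0 < ρ)
    {B : ℝ} (hB0 : 0 ≤ B) : ∃ t : ℝ, 0 < t ∧ ∀ η : ℝ, 0 < η → ∃ n₀ : ℕ, ∀ n q : ℕ, n₀ ≤ n →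
      IsU S n q → ∀ u : ℂ, ‖u‖ ≤ B → (u = 0 ∨ ¬ Rat 𝔣₀) →
        (q : ℝ) ^ (1 - η) ≤
          ({χ | χ ∈ PP K q ∧ t ≤ ‖(1 + u * χ 𝔣₀) * AA v (ρ * q) (pr ψ₀ χ)‖}.ncard : ℝ) := by
  classical
  have hψ := base_norm hB
  have hinv' := hinv K S 𝔣₀ a ψ₀ hB
  obtain ⟨f, hf, hfm, hfmin⟩ := exists_least hB.ne_bot
  obtain ⟨k1, k2, k3, k4⟩ := kap_props hc hB hf hfm hfmin
  obtain ⟨c, ηm, X₀, hc0, hηm, hX₀, hmn⟩ := hmain f (kap ψ₀ f) hf k1 k2 k3 k4 v hv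
  refine ⟨c / 4, by positivity, fun η hη => ?_⟩
  obtain ⟨Ct, nt, hCt, hFt⟩ := hfirst K S h2 ψ₀ hψ v hv ρ hρ ⊤
    (by rw [← Ideal.one_eq_top]; exact one_ne_zero) (1 / 8) (by norm_num)
  obtain ⟨Cf, nf, hCf, hFf⟩ := hfirst K S h2 ψ₀ hψ v hv ρ hρ 𝔣₀ hB.ne_bot (1 / 8) (by norm_num)
  obtain ⟨CL, nL, hCL, hLL⟩ := hcardL K S
  obtain ⟨C₂, n₂, hC₂, hS2⟩ := hsecond K S h2 ψ₀ hψ v hv ρ hρ (η / 4) (by positivity)
  obtain ⟨q1, -, q3, q4, -⟩ := hs2 K S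
  obtain ⟨m1, hm1⟩ := q1 ηm hηm
  set η₁ : ℝ := min (η / 8) (1 / 8) with hη₁
  have hη₁0 : 0 < η₁ := lt_min (by positivity) (by norm_num)
  have hη₁a : η₁ ≤ η / 8 := min_le_left _ _
  have hη₁b : η₁ ≤ 1 / 8 := min_le_right _ _
  obtain ⟨m3, hm3⟩ := q3 η₁ hη₁0
  -- thresholds for `q`
  set E : ℝ := (Ct + B * Cf) with hE
  have hE0 : 0 < E := by positivity
  set M₁ : ℝ := (2 * E * CL / c) ^ 4 with hM₁
  set M₂ : ℝ := (16 * CL ^ 2 * ((1 + B) ^ 2 * C₂) / c ^ 2) ^ (2 / η) with hM₂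
  obtain ⟨m4, hm4⟩ := q4 (⌈max (max 2 (X₀ / ρ)) (max M₁ M₂)⌉₊)
  refine ⟨max m1 (max m3 (max m4 (max nt (max nf (max nL n₂))))), ?_⟩
  intro n q hn hq u hu hur
  simp only [max_le_iff] at hn
  obtain ⟨g1, g3, g4, gt, gf, gL, g2⟩ := hn
  have hqM : max (max 2 (X₀ / ρ)) (max M₁ M₂) ≤ (q : ℝ) := Nat.ceil_le.mp (hm4 n q g4 hq)
  simp only [max_le_iff] at hqM
  obtain ⟨⟨hqr, hqX⟩, hqM1, hqM2⟩ := hqM
  have hq2 : 2 ≤ q := by exact_mod_cast hqr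
  have hq0 : (0 : ℝ) < q := by linarith
  have hq1 : (1 : ℝ) ≤ q := by linarith
  have hfin := (ho K S q q hq2 dvd_rfl).1
  have hPf : (PP K q).Finite := hfin.subset (pp_sub q)
  set P : ℝ := ((PP K q).ncard : ℝ) with hP
  have hP0 : 0 ≤ P := Nat.cast_nonneg _
  set A : (Ideal (𝓞 K) →*₀ ℂ) → ℂ := fun χ => AA v (ρ * q) (pr ψ₀ χ) with hA
  set b : (Ideal (𝓞 K) →*₀ ℂ) → ℂ := fun χ => 1 + u * χ 𝔣₀ with hb
  have hXq : X₀ ≤ ρ * q := by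
    rw [div_le_iff₀ hρ] at hqX
    linarith
  obtain ⟨hms, hml⟩ := hmn (ρ * q) q hXq (by omega) (hm1 n q g1 hq)
  set D : ℝ := ∑' n : ℕ, (if Nat.Coprime n q then kap ψ₀ f n / n * v ((n : ℝ) ^ 2 / (ρ * q)) else 0)
    with hD
  have hDt : DD v (ρ * q) q ⊤ ψ₀ = (D : ℂ) := dd_top h2 hc hB f v (ρ * q) (by omega)
  have eT := hFt n q gt hq
  have eF := hFf n q gf hq
  rw [hDt] at eT
  -- the sum
  have hsum : ‖∑ χ ∈ hPf.toFinset, b χ * A χ - ((PP K q).ncard : ℂ) * D‖ ≤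
      E * (q : ℝ) ^ (1 / 2 + 1 / 8 : ℝ) := by
    have h3 : ∑ χ ∈ hPf.toFinset, b χ * A χ - ((PP K q).ncard : ℂ) * D =
        (∑ᶠ χ ∈ PP K q, χ ⊤ * AA v (ρ * q) (pr ψ₀ χ) - ((PP K q).ncard : ℂ) * D) +
        u * (∑ᶠ χ ∈ PP K q, χ 𝔣₀ * AA v (ρ * q) (pr ψ₀ χ)) := by
      rw [finsum_mem_eq_finite_toFinset_sum _ hPf, finsum_mem_eq_finite_toFinset_sum _ hPf,
        Finset.mul_sum, add_comm, ← add_sub_assoc, ← Finset.sum_add_distrib]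
      congr 1
      refine Finset.sum_congr rfl fun χ _ => ?_
      have h4 : χ ⊤ = 1 := by rw [← Ideal.one_eq_top, map_one]
      rw [h4, hb, hA]
      ring
    rw [h3]
    have h5 : ‖u * (∑ᶠ χ ∈ PP K q, χ 𝔣₀ * AA v (ρ * q) (pr ψ₀ χ))‖ ≤
        B * (Cf * (q : ℝ) ^ (1 / 2 + 1 / 8 : ℝ)) := by
      rcases hur with h6 | h6
      · rw [h6, zero_mul, norm_zero]
        positivity
      · rw [dd_zero hdiag hinv' hB h6, mul_zero, sub_zero] at eF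
        rw [norm_mul]
        gcongr
    calc _ ≤ ‖(∑ᶠ χ ∈ PP K q, χ ⊤ * AA v (ρ * q) (pr ψ₀ χ) - ((PP K q).ncard : ℂ) * D)‖ +
          ‖u * (∑ᶠ χ ∈ PP K q, χ 𝔣₀ * AA v (ρ * q) (pr ψ₀ χ))‖ := norm_add_le _ _
      _ ≤ Ct * (q : ℝ) ^ (1 / 2 + 1 / 8 : ℝ) + B * (Cf * (q : ℝ) ^ (1 / 2 + 1 / 8 : ℝ)) := by gcongr
      _ = _ := by rw [hE]; ring
  -- the lower bound for the number of characters
  have hPl : (q : ℝ) ^ (1 - η₁) ≤ CL * P := by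
    have h3 := hLL n q gL hq
    have h4 := (hm3 n q g3 hq).1
    have h5 : (q : ℝ) ≤ CL * (q : ℝ) ^ η₁ * P := by
      refine h3.trans ?_
      gcongr
    have h6 : (q : ℝ) = (q : ℝ) ^ (1 - η₁) * (q : ℝ) ^ η₁ := by
      rw [← Real.rpow_add hq0, sub_add_cancel, Real.rpow_one]
    have h7 : (0 : ℝ) < (q : ℝ) ^ η₁ := by positivity
    have h8 : (q : ℝ) ^ (1 - η₁) * (q : ℝ) ^ η₁ ≤ (CL * P) * (q : ℝ) ^ η₁ := by
      rw [← h6]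
      linarith
    exact le_of_mul_le_mul_right h8 h7
  have hEq : E * (q : ℝ) ^ (1 / 2 + 1 / 8 : ℝ) ≤ P * c / 2 := by
    have h3 : (2 * E * CL / c) ≤ (q : ℝ) ^ (1 / 4 : ℝ) := by
      have h4 : ((2 * E * CL / c) ^ 4) ^ (1 / 4 : ℝ) ≤ (q : ℝ) ^ (1 / 4 : ℝ) :=
        Real.rpow_le_rpow (by positivity) hqM1 (by norm_num)
      rw [← Real.rpow_natCast, ← Real.rpow_mul (by positivity)] at h4
      norm_num at h4
      norm_num
      exact h4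
    rw [div_le_iff₀ hc0] at h3
    have h5 : (q : ℝ) ^ (1 / 4 : ℝ) * (q : ℝ) ^ (1 / 2 + 1 / 8 : ℝ) ≤ CL * P := by
      refine le_trans ?_ hPl
      rw [← Real.rpow_add hq0]
      refine Real.rpow_le_rpow_of_exponent_le hq1 ?_
      linarith
    have h6 : 2 * E * CL * (q : ℝ) ^ (1 / 2 + 1 / 8 : ℝ) ≤ CL * P * c := by
      calc 2 * E * CL * (q : ℝ) ^ (1 / 2 + 1 / 8 : ℝ)
          ≤ ((q : ℝ) ^ (1 / 4 : ℝ) * c) * (q : ℝ) ^ (1 / 2 + 1 / 8 : ℝ) := by gcongr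
        _ = ((q : ℝ) ^ (1 / 4 : ℝ) * (q : ℝ) ^ (1 / 2 + 1 / 8 : ℝ)) * c := by ring
        _ ≤ CL * P * c := by gcongr
    have h7 : CL * (E * (q : ℝ) ^ (1 / 2 + 1 / 8 : ℝ)) ≤ CL * (P * c / 2) := by
      linarith
    exact le_of_mul_le_mul_left h7 hCL
  have hlow : P * c / 2 ≤ ‖∑ χ ∈ hPf.toFinset, b χ * A χ‖ := by
    have h3 : ‖((PP K q).ncard : ℂ) * D‖ - ‖∑ χ ∈ hPf.toFinset, b χ * A χ‖ ≤
        ‖∑ χ ∈ hPf.toFinset, b χ * A χ - ((PP K q).ncard : ℂ) * D‖ := by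
      rw [norm_sub_rev]
      exact norm_sub_norm_le _ _
    have h4 : P * c ≤ ‖((PP K q).ncard : ℂ) * D‖ := by
      rw [norm_mul, Complex.norm_natCast, Complex.norm_real, Real.norm_of_nonneg (by linarith)]
      gcongr
    linarith
  -- Cauchy-Schwarz
  have hcardP : (hPf.toFinset.card : ℝ) = P := by
    rw [hP, Set.ncard_eq_toFinset_card _ hPf]
  have hcs := cs_count hPf.toFinset b A (B := 1 + B) (t := c / 4) (by
    intro χ hχ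
    rw [Set.Finite.mem_toFinset] at hχ
    rw [hb]
    calc ‖1 + u * χ 𝔣₀‖ ≤ ‖(1 : ℂ)‖ + ‖u * χ 𝔣₀‖ := norm_add_le _ _
      _ ≤ 1 + B := by
          rw [norm_one, norm_mul]
          have := rc_norm hq2 hχ.toIsRC 𝔣₀
          have h3 : ‖u‖ * ‖χ 𝔣₀‖ ≤ B * 1 := by gcongr
          linarith) (by positivity) (by
      rw [hcardP]
      nlinarith [mul_nonneg hP0 hc0.le])
  rw [hcardP] at hcs
  have hup : ∑ χ ∈ hPf.toFinset, ‖A χ‖ ^ 2 ≤ C₂ * (q : ℝ) ^ (1 + η / 4) := by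
    have h3 := hS2 n q g2 hq
    rw [finsum_mem_eq_finite_toFinset_sum _ hfin] at h3
    refine le_trans ?_ h3
    refine Finset.sum_le_sum_of_subset_of_nonneg ?_ fun _ _ _ => by positivity
    intro χ hχ
    rw [Set.Finite.mem_toFinset] at hχ ⊢
    exact pp_sub q hχ
  set Nn : ℝ := ((hPf.toFinset.filter fun χ => c / 4 ≤ ‖b χ * A χ‖).card : ℝ) with hNn
  have hN0 : 0 ≤ Nn := Nat.cast_nonneg _
  have hset : ({χ | χ ∈ PP K q ∧ c / 4 ≤ ‖(1 + u * χ 𝔣₀) * AA v (ρ * q) (pr ψ₀ χ)‖}.ncard : ℝ) =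
      Nn := by
    rw [hNn]
    congr 1
    rw [← Set.ncard_coe_finset]
    congr 1
    ext χ
    simp only [Set.mem_setOf_eq, Finset.coe_filter, Set.Finite.mem_toFinset]
    rfl
  rw [hset]
  have h3 : (P * c / 4) ^ 2 ≤ Nn * ((1 + B) ^ 2 * (C₂ * (q : ℝ) ^ (1 + η / 4))) := by
    calc (P * c / 4) ^ 2 ≤ (‖∑ χ ∈ hPf.toFinset, b χ * A χ‖ - c / 4 * P) ^ 2 := by
          have h4 : P * c / 4 ≤ ‖∑ χ ∈ hPf.toFinset, b χ * A χ‖ - c / 4 * P := by linarith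
          gcongr
      _ ≤ _ := hcs
      _ ≤ _ := by gcongr
  have h4 : ((q : ℝ) ^ (1 - η₁)) ^ 2 * c ^ 2 ≤
      16 * CL ^ 2 * ((1 + B) ^ 2 * C₂) * (q : ℝ) ^ (1 + η / 4) * Nn := by
    calc ((q : ℝ) ^ (1 - η₁)) ^ 2 * c ^ 2 ≤ (CL * P) ^ 2 * c ^ 2 := by gcongr
      _ = 16 * CL ^ 2 * (P * c / 4) ^ 2 := by ring
      _ ≤ 16 * CL ^ 2 * (Nn * ((1 + B) ^ 2 * (C₂ * (q : ℝ) ^ (1 + η / 4)))) := by gcongr
      _ = _ := by ring
  have h5 : 16 * CL ^ 2 * ((1 + B) ^ 2 * C₂) / c ^ 2 ≤ (q : ℝ) ^ (η / 2) := by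
    have h6 : M₂ ^ (η / 2) ≤ (q : ℝ) ^ (η / 2) := Real.rpow_le_rpow (by positivity) hqM2 (by positivity)
    rw [hM₂, ← Real.rpow_mul (by positivity)] at h6
    have h7 : 2 / η * (η / 2) = 1 := by field_simp
    rw [h7, Real.rpow_one] at h6
    exact h6
  rw [div_le_iff₀ (by positivity)] at h5
  have h6 : ((q : ℝ) ^ (1 - η₁)) ^ 2 * c ^ 2 ≤
      ((q : ℝ) ^ (η / 2) * (q : ℝ) ^ (1 + η / 4) * Nn) * c ^ 2 := by
    calc _ ≤ _ := h4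
      _ ≤ ((q : ℝ) ^ (η / 2) * c ^ 2) * (q : ℝ) ^ (1 + η / 4) * Nn := by gcongr
      _ = _ := by ring
  have h7 := le_of_mul_le_mul_right h6 (by positivity : (0 : ℝ) < c ^ 2)
  rw [← Real.rpow_natCast, ← Real.rpow_mul hq0.le, ← Real.rpow_add hq0] at h7
  have h8 : (0 : ℝ) < (q : ℝ) ^ (η / 2 + (1 + η / 4)) := by positivity
  have h9 : (q : ℝ) ^ (1 - η) * (q : ℝ) ^ (η / 2 + (1 + η / 4)) ≤
      Nn * (q : ℝ) ^ (η / 2 + (1 + η / 4)) := by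
    rw [← Real.rpow_add hq0]
    refine le_trans (Real.rpow_le_rpow_of_exponent_le hq1 ?_) (h7.trans (le_of_eq (mul_comm _ _)))
    push_cast
    linarith
  exact le_of_mul_le_mul_right h9 h8

end Pool.Agent.NH12.RS
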