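import Pool.Agent.NH12.RS.Fin1

/-! # The real characters -/

set_option autoImplicit false
set_option linter.unusedSectionVars false

open NumberField Complex Finset

namespace Pool.Agent.NH12.RS

open Pool.Agent.Y773 (TPos IsPrimChar IsModChar LI sg)

variable {K : Type} [Field K] [NumberField K]

lemma cop_iff_exists {𝔞 𝔟 : Ideal (𝓞 K)} : IsCoprime 𝔞 𝔟 ↔ 𝔞 ⊔ 𝔟 = ⊤ := by
  rw [Ideal.isCoprime_iff_add, Ideal.one_eq_top]
  rfl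

/-- an ideal prime to `q` times an ideal prime to `q 𝔣` is generated by an `x ≡ 1 (mod q)` -/
lemma exists_complement {𝔣 𝔞 : Ideal (𝓞 K)} (h𝔣 : 𝔣 ≠ ⊥) {q : ℕ} (hq : 0 < q) (h𝔞 : Cop q 𝔞)
    (h𝔞0 : 𝔞 ≠ ⊥) (hqf : Cop q 𝔣) : ∃ (𝔟 : Ideal (𝓞 K)) (x : 𝓞 K), Cop q 𝔟 ∧ IsCoprime 𝔟 𝔣 ∧
      x - 1 ∈ Ideal.span {(q : 𝓞 K)} ∧ 𝔞 * 𝔟 = Ideal.span {x} := by
  have hq0 : Ideal.span {(q : 𝓞 K)} ≠ ⊥ := by
    rw [Ne, Ideal.span_singleton_eq_bot]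
    exact_mod_cast hq.ne'
  set 𝔪 : Ideal (𝓞 K) := Ideal.span {(q : 𝓞 K)} * 𝔣 with h𝔪
  have h𝔪0 : 𝔪 ≠ ⊥ := mul_ne_zero hq0 h𝔣
  obtain ⟨y, hy⟩ := IsDedekindDomain.exists_sup_span_eq (I := 𝔞 * 𝔪) (J := 𝔞) Ideal.mul_le_left
    (mul_ne_zero h𝔞0 h𝔪0)
  have hya : Ideal.span {y} ≤ 𝔞 := by
    rw [← hy]
    exact le_sup_right
  obtain ⟨𝔟, h𝔟⟩ := Ideal.dvd_iff_le.mpr hya
  have h𝔟m : IsCoprime 𝔟 𝔪 := by
    rw [cop_iff_exists]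
    have h1 : 𝔞 * (𝔪 ⊔ 𝔟) = 𝔞 * ⊤ := by
      rw [Ideal.mul_sup, ← h𝔟, hy, Ideal.mul_top]
    rw [sup_comm]
    exact mul_left_cancel₀ h𝔞0 h1
  have h𝔟q : Cop q 𝔟 := IsCoprime.of_mul_right_left h𝔟m
  have h𝔟f : IsCoprime 𝔟 𝔣 := IsCoprime.of_mul_right_right h𝔟m
  -- the inverse of `y` modulo `q`, which is `1` modulo `𝔣`
  have hyq : Cop q (Ideal.span {y}) := by
    rw [h𝔟]
    exact IsCoprime.mul_left h𝔞 h𝔟q
  unfold Cop at hyq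
  rw [Ideal.isCoprime_span_singleton_iff] at hyq
  obtain ⟨c₀, d₀, hcd⟩ := hyq
  unfold Cop at hqf
  rw [Ideal.isCoprime_iff_exists] at hqf
  obtain ⟨α, hα, β, hβ, hαβ⟩ := hqf
  -- `α ∈ 𝔣`, `β ∈ (q)`, `α + β = 1`
  set c : 𝓞 K := c₀ * α + β with hc
  have hcq : c - c₀ ∈ Ideal.span {(q : 𝓞 K)} := by
    have : c - c₀ = (1 - c₀) * β := by
      rw [hc]
      linear_combination c₀ * hαβ
    rw [this]
    exact Ideal.mul_mem_left _ _ hβ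
  have hcf : c - 1 ∈ 𝔣 := by
    have : c - 1 = (c₀ - 1) * α := by
      rw [hc]
      linear_combination hαβ
    rw [this]
    exact Ideal.mul_mem_left _ _ hα
  have hyc : y * c - 1 ∈ Ideal.span {(q : 𝓞 K)} := by
    have : y * c - 1 = y * (c - c₀) + (-d₀) * (q : 𝓞 K) := by
      linear_combination hcd
    rw [this]
    exact Ideal.add_mem _ (Ideal.mul_mem_left _ _ hcq)
      (Ideal.mul_mem_left _ _ (Ideal.mem_span_singleton_self _))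
  refine ⟨𝔟 * Ideal.span {c}, y * c, ?_, ?_, hyc, ?_⟩
  · refine IsCoprime.mul_left h𝔟q ?_
    rw [Ideal.isCoprime_span_singleton_iff]
    obtain ⟨z, hz⟩ := Ideal.mem_span_singleton'.mp hyc
    exact ⟨y, -z, by linear_combination -hz⟩
  · refine IsCoprime.mul_left h𝔟f ?_
    rw [Ideal.isCoprime_iff_exists]
    exact ⟨c, Ideal.mem_span_singleton_self _, 1 - c, by
      have := 𝔣.neg_mem hcf
      rwa [neg_sub] at this, by ring⟩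
  · rw [← mul_assoc, ← h𝔟, Ideal.span_singleton_mul_span_singleton]

/-- the conjugate character -/
noncomputable def cjc (χ : Ideal (𝓞 K) →*₀ ℂ) : Ideal (𝓞 K) →*₀ ℂ where
  toFun 𝔞 := (starRingEnd ℂ) (χ 𝔞)
  map_zero' := by rw [map_zero, map_zero]
  map_one' := by rw [map_one, map_one]
  map_mul' 𝔞 𝔟 := by rw [map_mul, map_mul]

lemma pr_rc {q : ℕ} {χ χ' : Ideal (𝓞 K) →*₀ ℂ} (h : IsRC q χ) (h' : IsRC q χ') :
    IsRC q (pr χ (cjc χ')) where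
  supp 𝔞 := by
    have h1 : pr χ (cjc χ') 𝔞 = χ 𝔞 * (starRingEnd ℂ) (χ' 𝔞) := rfl
    rw [h1, mul_ne_zero_iff, h.supp, (map_ne_zero _ : (starRingEnd ℂ) (χ' 𝔞) ≠ 0 ↔ χ' 𝔞 ≠ 0),
      h'.supp, and_self]
  one x hx hx' := by
    have h1 : pr χ (cjc χ') (Ideal.span {x}) =
        χ (Ideal.span {x}) * (starRingEnd ℂ) (χ' (Ideal.span {x})) := rfl
    rw [h1, h.one x hx hx', h'.one x hx hx', map_one, mul_one]

variable [IsTotallyReal K]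

/-- few of the characters `ψ₀ χ` are real -/
theorem few_real (S : RQ K) (hs2 : S_seq2) (hreal : S_real) (ho : S_orth) {𝔣₀ : Ideal (𝓞 K)} {a : ℕ}
    {ψ₀ : Ideal (𝓞 K) →*₀ ℂ} (hB : Base S 𝔣₀ a ψ₀) : ∃ (C : ℝ) (n₀ : ℕ), 0 < C ∧
      ∀ n q : ℕ, n₀ ≤ n → IsU S n q →
        ({χ | χ ∈ PP K q ∧ ∀ 𝔞, (starRingEnd ℂ) (pr ψ₀ χ 𝔞) = pr ψ₀ χ 𝔞}.ncard : ℝ) ≤
          C * (q : ℝ) ^ (9 / 10 : ℝ) := by
  classical
  obtain ⟨C, n₁, hC, hR⟩ := hreal K S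
  obtain ⟨-, q2, -, q4, -⟩ := hs2 K S
  obtain ⟨m4, hm4⟩ := q4 2
  obtain ⟨m2, hm2⟩ := q2 (Ideal.absNorm 𝔣₀)
    (Nat.pos_of_ne_zero fun h1 => hB.ne_bot (Ideal.absNorm_eq_zero_iff.mp h1))
  refine ⟨C, max n₁ (max m4 m2), hC, ?_⟩
  intro n q hn hq
  simp only [max_le_iff] at hn
  obtain ⟨g1, g4, g2⟩ := hn
  have hq2 : 2 ≤ q := hm4 n q g4 hq
  have hcf : Cop q 𝔣₀ := cop_of_norm (hm2 n q g2 hq)
  have hR' := hR n q g1 hq
  set T := {χ | χ ∈ PP K q ∧ ∀ 𝔞, (starRingEnd ℂ) (pr ψ₀ χ 𝔞) = pr ψ₀ χ 𝔞} with hT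
  set U := {χ : Ideal (𝓞 K) →*₀ ℂ | IsRC q χ ∧ ∀ 𝔞, Cop q 𝔞 → χ 𝔞 ^ 2 = 1} with hU
  have hfin := (ho K S q q hq2 dvd_rfl).1
  have hUf : U.Finite := hfin.subset fun χ h => ⟨h.1, h.1.one⟩
  rcases Set.eq_empty_or_nonempty T with h0 | ⟨χ₁, hχ₁⟩
  · rw [h0, Set.ncard_empty]
    push_cast
    positivity
  refine le_trans ?_ hR'
  have hle : T.ncard ≤ U.ncard := by
    refine Set.ncard_le_ncard_of_injOn (fun χ => pr χ (cjc χ₁)) ?_ ?_ hUf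
    · intro χ hχ
      have hr := hχ.1.toIsRC
      have hr1 := hχ₁.1.toIsRC
      have hprc := pr_rc hr hr1
      refine ⟨hprc, ?_⟩
      -- for the ideals prime to `𝔣₀`
      have key : ∀ 𝔟 : Ideal (𝓞 K), Cop q 𝔟 → IsCoprime 𝔟 𝔣₀ → 𝔟 ≠ ⊥ →
          pr χ (cjc χ₁) 𝔟 ^ 2 = 1 := by
        intro 𝔟 h1 h2 h3
        have hψ0 : ψ₀ 𝔟 ≠ 0 := (hB.supp 𝔟 h3).mpr h2
        have e1 : (starRingEnd ℂ) (ψ₀ 𝔟 * χ 𝔟) = ψ₀ 𝔟 * χ 𝔟 := hχ.2 𝔟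
        have e2 : (starRingEnd ℂ) (ψ₀ 𝔟 * χ₁ 𝔟) = ψ₀ 𝔟 * χ₁ 𝔟 := hχ₁.2 𝔟
        have n1 : ‖χ 𝔟‖ = 1 := (rc_mod hq2 hr).norm_eq_one h1
        have n2 : ‖χ₁ 𝔟‖ = 1 := (rc_mod hq2 hr1).norm_eq_one h1
        have c1 : χ 𝔟 * (starRingEnd ℂ) (χ 𝔟) = 1 := by
          rw [Complex.mul_conj, Complex.normSq_eq_norm_sq, n1]; norm_num
        have c2 : χ₁ 𝔟 * (starRingEnd ℂ) (χ₁ 𝔟) = 1 := by
          rw [Complex.mul_conj, Complex.normSq_eq_norm_sq, n2]; norm_num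
        have h4 : pr χ (cjc χ₁) 𝔟 = χ 𝔟 * (starRingEnd ℂ) (χ₁ 𝔟) := rfl
        rw [h4]
        rw [map_mul] at e1 e2
        set p := ψ₀ 𝔟
        set x := χ 𝔟
        set y := χ₁ 𝔟
        set p' := (starRingEnd ℂ) p
        set x' := (starRingEnd ℂ) x
        set y' := (starRingEnd ℂ) y
        -- `p' x' = p x`, `p' y' = p y`, `x x' = 1`, `y y' = 1`
        have hp' : p' ≠ 0 := (map_ne_zero _).mpr hψ0
        have f1 : p' = p * x ^ 2 := by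
          calc p' = p' * (x * x') := by rw [c1, mul_one]
            _ = (p' * x') * x := by ring
            _ = _ := by rw [e1]; ring
        have f2 : p' * y' ^ 2 = p := by
          calc p' * y' ^ 2 = (p' * y') * y' := by ring
            _ = (p * y) * y' := by rw [e2]
            _ = p * (y * y') := by ring
            _ = p := by rw [c2, mul_one]
        have f3 : p * ((x * y') ^ 2) = p * 1 := by
          calc p * ((x * y') ^ 2) = (p * x ^ 2) * y' ^ 2 := by ring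
            _ = p' * y' ^ 2 := by rw [← f1]
            _ = p * 1 := by rw [f2, mul_one]
        exact mul_left_cancel₀ hψ0 f3
      intro 𝔞 h𝔞
      have h𝔞0 : 𝔞 ≠ ⊥ := by
        intro h1
        have h2 := (hr.supp 𝔞).mpr h𝔞
        have h3 : (⊥ : Ideal (𝓞 K)) = 0 := rfl
        rw [h1, h3, map_zero] at h2
        exact h2 rfl
      obtain ⟨𝔟, x, b1, b2, b3, b4⟩ := exists_complement hB.ne_bot (by omega) h𝔞 h𝔞0 hcf
      have hb0 : 𝔟 ≠ ⊥ := by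
        intro h1
        have h2 := (hr.supp 𝔟).mpr b1
        have h3 : (⊥ : Ideal (𝓞 K)) = 0 := rfl
        rw [h1, h3, map_zero] at h2
        exact h2 rfl
      have e1 := key 𝔟 b1 b2 hb0
      have e2 : pr χ (cjc χ₁) (Ideal.span {x}) = 1 := by
        refine hprc.one x ⟨1, ?_⟩ ?_
        · rw [Ideal.mem_span_singleton] at b3
          simpa using b3
        · rw [← b4]
          exact IsCoprime.mul_left h𝔞 b1
      rw [← b4, map_mul] at e2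
      calc pr χ (cjc χ₁) 𝔞 ^ 2 = pr χ (cjc χ₁) 𝔞 ^ 2 * pr χ (cjc χ₁) 𝔟 ^ 2 := by rw [e1, mul_one]
        _ = (pr χ (cjc χ₁) 𝔞 * pr χ (cjc χ₁) 𝔟) ^ 2 := by ring
        _ = 1 := by rw [e2, one_pow]
    · intro χ hχ χ' hχ' heq
      simp only at heq
      have hr := hχ.1.toIsRC
      have hr' := hχ'.1.toIsRC
      have hr1 := hχ₁.1.toIsRC
      refine DFunLike.ext _ _ fun 𝔞 => ?_
      by_cases h1 : Cop q 𝔞
      · have h2 := DFunLike.congr_fun heq 𝔞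
        have h3 : ∀ χ : Ideal (𝓞 K) →*₀ ℂ, pr χ (cjc χ₁) 𝔞 = χ 𝔞 * (starRingEnd ℂ) (χ₁ 𝔞) :=
          fun _ => rfl
        rw [h3, h3] at h2
        have h4 : (starRingEnd ℂ) (χ₁ 𝔞) ≠ 0 := (map_ne_zero _).mpr ((hr1.supp 𝔞).mpr h1)
        exact mul_right_cancel₀ h4 h2
      · have h2 : χ 𝔞 = 0 := by
          by_contra h3
          exact h1 ((hr.supp 𝔞).mp h3)
        have h3 : χ' 𝔞 = 0 := by
          by_contra h3
          exact h1 ((hr'.supp 𝔞).mp h3)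
        rw [h2, h3]
  exact_mod_cast hle

end Pool.Agent.NH12.RS
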