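import Pool.Agent.NH12.RS.Fin2
import Pool.Agent.NH12.RS.Fin3

/-! # Central orders -/

set_option autoImplicit false
set_option linter.unusedSectionVars false

open NumberField Complex Finset

namespace Pool.Agent.NH12.RS

open Pool.Agent.Y773 (TPos IsPrimChar IsModChar LI sg)

/-- the sign and the order of vanishing -/
lemma sign_order {X : ℂ → ℂ} (hX : Differentiable ℂ X) {w : ℂ} (hfe : ∀ s, X (1 - s) = w * X s)
    {k : ℕ} (hk : k ≤ 1) (hne : iteratedDeriv k X (1 / 2) ≠ 0) :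
    w = (-1) ^ k ∧ analyticOrderAt X (1 / 2) = k := by
  have hhalf : (1 : ℂ) - 1 / 2 = 1 / 2 := by norm_num
  interval_cases k
  · rw [iteratedDeriv_zero] at hne
    have h1 := hfe (1 / 2)
    rw [hhalf] at h1
    refine ⟨?_, ?_⟩
    · have h2 : (w - 1) * X (1 / 2) = 0 := by linear_combination -h1
      rcases mul_eq_zero.mp h2 with h3 | h3
      · rw [pow_zero]
        linear_combination h3
      · exact absurd h3 hne
    · rw [Nat.cast_zero]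
      exact (hX.analyticAt _).analyticOrderAt_eq_zero.mpr hne
  · rw [iteratedDeriv_one] at hne
    have h1 : deriv (fun s => X (1 - s)) (1 / 2) = deriv (fun s => w * X s) (1 / 2) := by
      congr 1
      funext s
      exact hfe s
    rw [deriv_comp_const_sub, hhalf, deriv_const_mul _ (hX _)] at h1
    have h2 : (w + 1) * deriv X (1 / 2) = 0 := by linear_combination -h1
    have hw : w = -1 := by
      rcases mul_eq_zero.mp h2 with h3 | h3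
      · linear_combination h3
      · exact absurd h3 hne
    refine ⟨by rw [hw, pow_one], ?_⟩
    have h3 := hfe (1 / 2)
    rw [hhalf, hw] at h3
    have h4 : X (1 / 2) = 0 := by
      have : 2 * X (1 / 2) = 0 := by linear_combination h3
      rcases mul_eq_zero.mp this with h5 | h5
      · norm_num at h5
      · exact h5
    rw [Nat.cast_one]
    exact (hX.analyticAt _).analyticOrderAt_eq_one_of_zero_deriv_ne_zero h4 hne

variable {K : Type} [Field K] [NumberField K]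

/-- `L` is the entire continuation of `∑ ψ(𝔞) N(𝔞)^(-s)`, with the functional equation of root
number `w`, conductor (norm of the conductor times the discriminant) `R` and signature `(a, a)`. -/
structure HL (R : ℝ) (a : ℕ) (ψ : Ideal (𝓞 K) →*₀ ℂ) (w : ℂ) (L : ℂ → ℂ) : Prop where
  entire : Differentiable ℂ L
  series : ∀ s : ℂ, 1 < s.re → L s = ∑' 𝔞 : Ideal (𝓞 K), ψ 𝔞 * ((Ideal.absNorm 𝔞 : ℕ) : ℂ) ^ (-s)
  fe : ∃ Λ : ℂ → ℂ, Differentiable ℂ Λ ∧ (∀ s : ℂ, 0 < s.re →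
    Λ s = (R : ℂ) ^ (s / 2) * Complex.Gammaℝ (s + a) ^ 2 * L s) ∧ ∀ s : ℂ, Λ (1 - s) = w * Λ s

lemma exists_HL {R : ℝ} {a : ℕ} {ψ : Ideal (𝓞 K) →*₀ ℂ} {X : ℂ → ℂ} (hX : Cx R a ψ X) {w : ℂ}
    (hfe : ∀ s, X (1 - s) = w * X s) : ∃ L : ℂ → ℂ, HL R a ψ w L ∧
      analyticOrderAt L (1 / 2) = analyticOrderAt X (1 / 2) ∧
      ∀ k : ℕ, k ≤ 1 → analyticOrderAt X (1 / 2) = k →
        ‖iteratedDeriv k L (1 / 2)‖ * ‖(R : ℂ) ^ (1 / 4 : ℂ)‖ =
          ‖iteratedDeriv k X (1 / 2)‖ * ‖Complex.Gammaℝ (1 / 2 + a)‖⁻¹ ^ 2 := by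
  have hR : (R : ℂ) ≠ 0 := by
    have := hX.one_le
    exact_mod_cast (by linarith : R ≠ 0)
  set g : ℂ → ℂ := fun s => (R : ℂ) ^ (-(s / 2)) * ((Complex.Gammaℝ (s + a))⁻¹) ^ 2 with hg
  have hgd : Differentiable ℂ g := by
    have h1 : Differentiable ℂ fun s : ℂ => (R : ℂ) ^ (-(s / 2)) := by
      intro s
      exact DifferentiableAt.const_cpow (by fun_prop) (Or.inl hR)
    have h2 : Differentiable ℂ fun s : ℂ => (Complex.Gammaℝ (s + a))⁻¹ := by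
      have := Complex.differentiable_Gammaℝ_inv
      exact this.comp (by fun_prop : Differentiable ℂ fun s : ℂ => s + a)
    exact h1.mul (h2.pow 2)
  have hgg : ∀ s : ℂ, 0 < s.re → (R : ℂ) ^ (s / 2) * Complex.Gammaℝ (s + a) ^ 2 * g s = 1 := by
    intro s hs
    have h1 : Complex.Gammaℝ (s + a) ≠ 0 := by
      apply Complex.Gammaℝ_ne_zero_of_re_pos
      rw [Complex.add_re, Complex.natCast_re]
      positivity
    have h2 : (R : ℂ) ^ (s / 2) ≠ 0 := by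
      rw [Ne, Complex.cpow_eq_zero_iff]
      tauto
    rw [hg]
    simp only
    rw [Complex.cpow_neg]
    field_simp
  refine ⟨fun s => g s * X s, ⟨hgd.mul hX.diff, ?_, X, hX.diff, ?_, hfe⟩, ?_, ?_⟩
  · intro s hs
    rw [hX.eq s hs]
    have := hgg s (by linarith)
    calc g s * ((R : ℂ) ^ (s / 2) * Complex.Gammaℝ (s + a) ^ 2 * LI ψ s) =
        ((R : ℂ) ^ (s / 2) * Complex.Gammaℝ (s + a) ^ 2 * g s) * LI ψ s := by ring
      _ = _ := by rw [this, one_mul]; rfl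
  · intro s hs
    have := hgg s hs
    calc X s = ((R : ℂ) ^ (s / 2) * Complex.Gammaℝ (s + a) ^ 2 * g s) * X s := by
          rw [this, one_mul]
      _ = _ := by ring
  · have h1 : g (1 / 2) ≠ 0 := by
      intro h2
      have := hgg (1 / 2) (by norm_num)
      rw [h2, mul_zero] at this
      exact zero_ne_one this
    have h2 := analyticOrderAt_mul (hgd.analyticAt (1 / 2)) (hX.diff.analyticAt (1 / 2))
    have h3 := (hgd.analyticAt (1 / 2)).analyticOrderAt_eq_zero.mpr h1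
    rw [h3, zero_add] at h2
    exact h2
  · intro k hk hord
    have hg2 : ‖g (1 / 2)‖ * ‖(R : ℂ) ^ (1 / 4 : ℂ)‖ = ‖Complex.Gammaℝ (1 / 2 + a)‖⁻¹ ^ 2 := by
      have h1 := congrArg norm (hgg (1 / 2) (by norm_num))
      rw [norm_mul, norm_mul, norm_pow, norm_one] at h1
      have h2 : (1 / 2 / 2 : ℂ) = 1 / 4 := by norm_num
      rw [h2] at h1
      have h3 : ‖Complex.Gammaℝ (1 / 2 + a)‖ ≠ 0 := by
        rw [norm_ne_zero_iff]
        apply Complex.Gammaℝ_ne_zero_of_re_pos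
        rw [Complex.add_re, Complex.natCast_re]
        norm_num
        positivity
      rw [inv_pow]
      refine eq_inv_of_mul_eq_one_left ?_
      linarith
    have hder : iteratedDeriv k (fun s => g s * X s) (1 / 2) = g (1 / 2) * iteratedDeriv k X (1 / 2) := by
      interval_cases k
      · rw [iteratedDeriv_zero, iteratedDeriv_zero]
      · have h0 : X (1 / 2) = 0 := by
          apply apply_eq_zero_of_analyticOrderAt_ne_zero
          rw [hord]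
          norm_num
        rw [iteratedDeriv_one, iteratedDeriv_one, deriv_fun_mul (hgd _) (hX.diff _), h0, mul_zero,
          zero_add]
    rw [hder, norm_mul, mul_comm ‖g (1 / 2)‖, mul_assoc, hg2]

/-- the good characters: `χ` is a ring class character of conductor `q`, `ψ₀ χ` is not real, its
`L`-function has root number `(-1)^k` and a zero of order exactly `k` at `1/2`, and the absolute
value of the `k`-th derivative at `1/2` is at least `t` -/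
def Good [IsTotallyReal K] (t : ℝ) (𝔣₀ : Ideal (𝓞 K)) (a : ℕ) (ψ₀ : Ideal (𝓞 K) →*₀ ℂ) (q k : ℕ) :
    Set (Ideal (𝓞 K) →*₀ ℂ) :=
  {χ | χ ∈ PP K q ∧ ¬ (∀ 𝔞, (starRingEnd ℂ) (pr ψ₀ χ 𝔞) = pr ψ₀ χ 𝔞) ∧
    ∃ L : ℂ → ℂ, HL ((Ideal.absNorm 𝔣₀ * q ^ 2 * Ideal.absNorm (differentIdeal ℤ (𝓞 K)) : ℕ) : ℝ) a
      (pr ψ₀ χ) ((-1) ^ k) L ∧ analyticOrderAt L (1 / 2) = k ∧ t ≤ ‖iteratedDeriv k L (1 / 2)‖}

theorem main_thm [IsTotallyReal K] (S : RQ K) (h2 : Module.finrank ℚ K = 2) (hc : S_conj)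
    (hs2 : S_seq2) (hmain : S_main) (hdiag : S_diag) (hinv : S_inv) (hfirst : S_first)
    (hsecond : S_second) (hcardL : S_cardL) (ho : S_orth) (hreal : S_real) (hroot : S_root)
    (hwt : S_wt) (hafe : S_afe) {𝔣₀ : Ideal (𝓞 K)} {a : ℕ}
    {ψ₀ : Ideal (𝓞 K) →*₀ ℂ} (hB : Base S 𝔣₀ a ψ₀) : ∃ t : ℝ, 0 < t ∧ ∀ η : ℝ, 0 < η →
      ∃ n₀ : ℕ, ∀ n q : ℕ, n₀ ≤ n → IsU S n q →
        (¬ Rat 𝔣₀ → ∀ k : ℕ, k ≤ 1 → (q : ℝ) ^ (1 - η) ≤ ((Good t 𝔣₀ a ψ₀ q k).ncard : ℝ)) ∧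
        (∃ k : ℕ, k ≤ 1 ∧ (q : ℝ) ^ (1 - η) ≤ ((Good t 𝔣₀ a ψ₀ q k).ncard : ℝ)) ∧
        (𝔣₀ = ⊤ → a = 0 → (q : ℝ) ^ (1 - η) ≤ ((Good t 𝔣₀ a ψ₀ q 0).ncard : ℝ)) := by
  classical
  have ha := hB.le_one
  have hψ := base_norm hB
  obtain ⟨C₀, N, hN, hC₀, hR⟩ := hroot K S 𝔣₀ a ψ₀ hB h2
  obtain ⟨v0, hv0, hvc0⟩ := hwt a 0 ha (by norm_num)
  obtain ⟨v1, hv1, hvc1⟩ := hwt a 1 ha (by norm_num)
  have hNf : 0 < Ideal.absNorm 𝔣₀ :=
    Nat.pos_of_ne_zero fun h1 => hB.ne_bot (Ideal.absNorm_eq_zero_iff.mp h1)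
  have hNd : 0 < Ideal.absNorm (differentIdeal ℤ (𝓞 K)) :=
    Nat.pos_of_ne_zero fun h1 => differentIdeal_ne_bot (Ideal.absNorm_eq_zero_iff.mp h1)
  set ρ : ℝ := Real.sqrt (Ideal.absNorm 𝔣₀ * Ideal.absNorm (differentIdeal ℤ (𝓞 K)) : ℝ) with hρ
  have hρ0 : 0 < ρ := by
    rw [hρ]
    apply Real.sqrt_pos.mpr
    positivity
  obtain ⟨t0, ht0, hcnt0⟩ := count_w S h2 hc hs2 hmain hdiag hinv hfirst hsecond hcardL ho hB hv0 hρ0
    (norm_nonneg C₀)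
  obtain ⟨t1, ht1, hcnt1⟩ := count_w S h2 hc hs2 hmain hdiag hinv hfirst hsecond hcardL ho hB hv1 hρ0
    (norm_nonneg C₀)
  set tm : ℝ := min t0 t1 with htm
  have htm0 : 0 < tm := lt_min ht0 ht1
  have hG0 : 0 < ‖Complex.Gammaℝ (1 / 2 + a)‖⁻¹ ^ 2 := by
    have h3 : 0 < ‖Complex.Gammaℝ (1 / 2 + a)‖ := by
      rw [norm_pos_iff]
      apply Complex.Gammaℝ_ne_zero_of_re_pos
      rw [Complex.add_re, Complex.natCast_re]
      norm_num
      positivity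
    positivity
  refine ⟨tm / (2 * Real.pi) * ‖Complex.Gammaℝ (1 / 2 + a)‖⁻¹ ^ 2, by positivity, fun η hη => ?_⟩
  set η' : ℝ := min (η / 2) (1 / 20) with hη'
  have hη'0 : 0 < η' := lt_min (by positivity) (by norm_num)
  have hη'a : η' ≤ η / 2 := min_le_left _ _
  have hη'b : η' ≤ 1 / 20 := min_le_right _ _
  obtain ⟨n1, hcount0⟩ := hcnt0 η' hη'0
  obtain ⟨n2, hcount1⟩ := hcnt1 η' hη'0
  obtain ⟨CR, n3, hCR, hfew⟩ := few_real S hs2 hreal ho hB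
  obtain ⟨-, q2, -, q4, -⟩ := hs2 K S
  obtain ⟨m2, hm2⟩ := q2 N hN
  obtain ⟨m3, hm3⟩ := q2 (Ideal.absNorm 𝔣₀) hNf
  obtain ⟨m4, hm4⟩ := q4 (⌈max (max 2 ((2 * CR) ^ (20 : ℕ))) ((2 : ℝ) ^ (2 / η))⌉₊)
  refine ⟨max n1 (max n2 (max n3 (max m2 (max m3 m4)))), ?_⟩
  intro n q hn hq
  simp only [max_le_iff] at hn
  obtain ⟨g1, g2, g3, gm2, gm3, gm4⟩ := hn
  have hqM := Nat.ceil_le.mp (hm4 n q gm4 hq)
  simp only [max_le_iff] at hqM
  obtain ⟨⟨hqr, hqC⟩, hqE⟩ := hqM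
  have hq2 : 2 ≤ q := by exact_mod_cast hqr
  have hq0 : (0 : ℝ) < q := by linarith
  have hq1 : (1 : ℝ) ≤ q := by linarith
  have hfin := (ho K S q q hq2 dvd_rfl).1
  have hPf : (PP K q).Finite := hfin.subset (pp_sub q)
  have hcoN := hm2 n q gm2 hq
  have hcof := hm3 n q gm3 hq
  have hfew' := hfew n q g3 hq
  set T₂ := {χ : Ideal (𝓞 K) →*₀ ℂ | χ ∈ PP K q ∧
    ∀ 𝔞, (starRingEnd ℂ) (pr ψ₀ χ 𝔞) = pr ψ₀ χ 𝔞} with hT₂
  have hsqrt : Real.sqrt ((Ideal.absNorm 𝔣₀ * q ^ 2 *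
      Ideal.absNorm (differentIdeal ℤ (𝓞 K)) : ℕ) : ℝ) = ρ * q := by
    rw [hρ]
    have h3 : ((Ideal.absNorm 𝔣₀ * q ^ 2 * Ideal.absNorm (differentIdeal ℤ (𝓞 K)) : ℕ) : ℝ) =
        (Ideal.absNorm 𝔣₀ * Ideal.absNorm (differentIdeal ℤ (𝓞 K)) : ℝ) * (q : ℝ) ^ 2 := by
      push_cast
      ring
    rw [h3, Real.sqrt_mul (by positivity), Real.sqrt_sq hq0.le]
  -- from the numbers `A` to the orders
  set t : ℝ := tm / (2 * Real.pi) * ‖Complex.Gammaℝ (1 / 2 + a)‖⁻¹ ^ 2 with ht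
  have key : ∀ (k : ℕ) (v : ℝ → ℝ) (u : ℂ) (t' : ℝ), tm ≤ t' → k ≤ 1 → Wt v →
      (∀ y : ℝ, 0 < y → vc a k y = v y) →
      (∀ χ ∈ PP K q, (1 + u * χ 𝔣₀) * AA v (ρ * q) (pr ψ₀ χ) ≠ 0 →
        1 - (C₀ * ψ₀ (Ideal.span {(q : 𝓞 K)}) * χ 𝔣₀) * (-1) ^ (k + 1) ≠ 0) →
      (u = 0 ∨ ∀ z : ℂ, 1 + u * z = 1 - (C₀ * ψ₀ (Ideal.span {(q : 𝓞 K)}) * z) * (-1) ^ (k + 1)) →
      (q : ℝ) ^ (1 - η') ≤
          ({χ | χ ∈ PP K q ∧ t' ≤ ‖(1 + u * χ 𝔣₀) * AA v (ρ * q) (pr ψ₀ χ)‖}.ncard : ℝ) →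
      (q : ℝ) ^ (1 - η) ≤ ((Good t 𝔣₀ a ψ₀ q k).ncard : ℝ) := by
    intro k v u t' htt hk hv hvc hu hu2 hcnt
    set T₁ := {χ : Ideal (𝓞 K) →*₀ ℂ | χ ∈ PP K q ∧
      t' ≤ ‖(1 + u * χ 𝔣₀) * AA v (ρ * q) (pr ψ₀ χ)‖} with hT₁
    have hT₁f : T₁.Finite := hPf.subset fun χ h => h.1
    have hT₂f : T₂.Finite := hPf.subset fun χ h => h.1
    have hGf : (Good t 𝔣₀ a ψ₀ q k).Finite := hPf.subset fun χ h => h.1
    have hsub : T₁ ⊆ Good t 𝔣₀ a ψ₀ q k ∪ T₂ := by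
      intro χ hχ
      have hne : (1 + u * χ 𝔣₀) * AA v (ρ * q) (pr ψ₀ χ) ≠ 0 := by
        intro h3
        have h4 := hχ.2
        rw [h3, norm_zero] at h4
        linarith
      by_cases hre : ∀ 𝔞, (starRingEnd ℂ) (pr ψ₀ χ 𝔞) = pr ψ₀ χ 𝔞
      · right
        exact ⟨hχ.1, hre⟩
      · left
        refine ⟨hχ.1, hre, ?_⟩
        obtain ⟨r1, -, -, X, hX, hfe⟩ := hR q χ hq2 hcoN hχ.1
        have h3 := hafe K h2 _ a (pr ψ₀ χ) X (C₀ * ψ₀ (Ideal.span {(q : 𝓞 K)}) * χ 𝔣₀) ha r1 hX hfe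
          k v hk hv hvc
        rw [hsqrt] at h3
        have h4 : iteratedDeriv k X (1 / 2) ≠ 0 := by
          intro h5
          rw [h5, mul_zero] at h3
          have h6 := hu χ hχ.1 hne
          have h7 : AA v (ρ * q) (pr ψ₀ χ) ≠ 0 := right_ne_zero_of_mul hne
          have h8 : ((((Ideal.absNorm 𝔣₀ * q ^ 2 * Ideal.absNorm (differentIdeal ℤ (𝓞 K)) : ℕ) : ℝ)
              : ℝ) : ℂ) ^ (1 / 4 : ℂ) ≠ 0 := by
            rw [Ne, Complex.cpow_eq_zero_iff]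
            intro h9
            have h10 : (1 : ℝ) ≤ ((Ideal.absNorm 𝔣₀ * q ^ 2 *
              Ideal.absNorm (differentIdeal ℤ (𝓞 K)) : ℕ) : ℝ) := hX.one_le
            have h11 := h9.1
            rw [Complex.ofReal_eq_zero] at h11
            linarith
          exact (mul_ne_zero (mul_ne_zero h6 h8) h7) h3.symm
        obtain ⟨hw, hord⟩ := sign_order hX.diff hfe hk h4
        obtain ⟨L, hL, hLo, hLd⟩ := exists_HL hX hfe
        have hLd' := hLd k hk hord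
        set RR : ℂ := ((((Ideal.absNorm 𝔣₀ * q ^ 2 * Ideal.absNorm (differentIdeal ℤ (𝓞 K)) : ℕ) : ℝ)
              : ℝ) : ℂ) ^ (1 / 4 : ℂ) with hRR
        have hRR0 : 0 < ‖RR‖ := by
          rw [norm_pos_iff, hRR, Ne, Complex.cpow_eq_zero_iff]
          intro h9
          have h10 : (1 : ℝ) ≤ ((Ideal.absNorm 𝔣₀ * q ^ 2 *
            Ideal.absNorm (differentIdeal ℤ (𝓞 K)) : ℕ) : ℝ) := hX.one_le
          have h11 := h9.1
          rw [Complex.ofReal_eq_zero] at h11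
          linarith
        -- the size of the derivative
        have hsz : tm ≤ ‖(1 - (C₀ * ψ₀ (Ideal.span {(q : 𝓞 K)}) * χ 𝔣₀) * (-1) ^ (k + 1)) *
            AA v (ρ * q) (pr ψ₀ χ)‖ := by
          rcases hu2 with h5 | h5
          · have h6 : (1 - (C₀ * ψ₀ (Ideal.span {(q : 𝓞 K)}) * χ 𝔣₀) * (-1) ^ (k + 1)) = 2 := by
              rw [hw, pow_succ, ← mul_assoc, ← mul_pow]
              norm_num
            rw [h6, norm_mul]
            have h7 := hχ.2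
            rw [h5, zero_mul, add_zero, one_mul] at h7
            have h8 : ‖(2 : ℂ)‖ = 2 := by norm_num
            rw [h8]
            have h9 : 0 ≤ ‖AA v (ρ * q) (pr ψ₀ χ)‖ := norm_nonneg _
            linarith
          · rw [← h5]
            exact htt.trans hχ.2
        have hsz2 : t ≤ ‖iteratedDeriv k L (1 / 2)‖ := by
          have h5 := congrArg norm h3
          have h6 : ‖(2 : ℂ)‖ = 2 := by norm_num
          have e1 : ‖(2 : ℂ) * Real.pi * iteratedDeriv k X (1 / 2)‖ =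
              2 * Real.pi * ‖iteratedDeriv k X (1 / 2)‖ := by
            rw [norm_mul, norm_mul, Complex.norm_real, Real.norm_of_nonneg Real.pi_pos.le, h6]
          have e2 : ‖(1 - (C₀ * ψ₀ (Ideal.span {(q : 𝓞 K)}) * χ 𝔣₀) * (-1) ^ (k + 1)) * RR *
              AA v (ρ * q) (pr ψ₀ χ)‖ =
              ‖(1 - (C₀ * ψ₀ (Ideal.span {(q : 𝓞 K)}) * χ 𝔣₀) * (-1) ^ (k + 1)) *
                AA v (ρ * q) (pr ψ₀ χ)‖ * ‖RR‖ := by
            rw [norm_mul, norm_mul, norm_mul]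
            ring
          rw [e1, e2] at h5
          have h7 : ‖iteratedDeriv k L (1 / 2)‖ * ‖RR‖ * (2 * Real.pi) =
              ‖(1 - (C₀ * ψ₀ (Ideal.span {(q : 𝓞 K)}) * χ 𝔣₀) * (-1) ^ (k + 1)) *
                AA v (ρ * q) (pr ψ₀ χ)‖ * ‖RR‖ * ‖Complex.Gammaℝ (1 / 2 + a)‖⁻¹ ^ 2 := by
            rw [hLd']
            calc ‖iteratedDeriv k X (1 / 2)‖ * ‖Complex.Gammaℝ (1 / 2 + a)‖⁻¹ ^ 2 * (2 * Real.pi) =
                (2 * Real.pi * ‖iteratedDeriv k X (1 / 2)‖) * ‖Complex.Gammaℝ (1 / 2 + a)‖⁻¹ ^ 2 := by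
                  ring
              _ = _ := by rw [h5]
          have h8 : ‖iteratedDeriv k L (1 / 2)‖ * (2 * Real.pi) * ‖RR‖ =
              ‖(1 - (C₀ * ψ₀ (Ideal.span {(q : 𝓞 K)}) * χ 𝔣₀) * (-1) ^ (k + 1)) *
                AA v (ρ * q) (pr ψ₀ χ)‖ * ‖Complex.Gammaℝ (1 / 2 + a)‖⁻¹ ^ 2 * ‖RR‖ := by
            linarith
          have h9 := mul_right_cancel₀ hRR0.ne' h8
          have h10 : tm * ‖Complex.Gammaℝ (1 / 2 + a)‖⁻¹ ^ 2 ≤
              ‖iteratedDeriv k L (1 / 2)‖ * (2 * Real.pi) := by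
            rw [h9]
            gcongr
          rw [ht, div_mul_eq_mul_div, div_le_iff₀ (by positivity)]
          exact h10
        rw [hw] at hL
        exact ⟨L, hL, hLo.trans hord, hsz2⟩
    have h3 : T₁.ncard ≤ (Good t 𝔣₀ a ψ₀ q k).ncard + T₂.ncard :=
      (Set.ncard_le_ncard hsub (hGf.union hT₂f)).trans (Set.ncard_union_le _ _)
    have h4 : (T₁.ncard : ℝ) ≤ ((Good t 𝔣₀ a ψ₀ q k).ncard : ℝ) + (T₂.ncard : ℝ) := by
      exact_mod_cast h3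
    have h5 : CR * (q : ℝ) ^ (9 / 10 : ℝ) ≤ (q : ℝ) ^ (1 - η') / 2 := by
      have h6 : 2 * CR ≤ (q : ℝ) ^ (1 / 20 : ℝ) := by
        have h7 : ((2 * CR) ^ (20 : ℕ)) ^ (1 / 20 : ℝ) ≤ (q : ℝ) ^ (1 / 20 : ℝ) :=
          Real.rpow_le_rpow (by positivity) hqC (by norm_num)
        rw [← Real.rpow_natCast, ← Real.rpow_mul (by positivity)] at h7
        norm_num at h7
        norm_num
        exact h7
      have h7 : (q : ℝ) ^ (1 / 20 : ℝ) * (q : ℝ) ^ (9 / 10 : ℝ) ≤ (q : ℝ) ^ (1 - η') := by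
        rw [← Real.rpow_add hq0]
        refine Real.rpow_le_rpow_of_exponent_le hq1 ?_
        linarith
      have h8 : (2 * CR) * (q : ℝ) ^ (9 / 10 : ℝ) ≤ (q : ℝ) ^ (1 / 20 : ℝ) * (q : ℝ) ^ (9 / 10 : ℝ) := by
        gcongr
      linarith
    have h6 : (q : ℝ) ^ (1 - η) ≤ (q : ℝ) ^ (1 - η') / 2 := by
      have h7 : (2 : ℝ) ≤ (q : ℝ) ^ (η / 2) := by
        have h8 : ((2 : ℝ) ^ (2 / η)) ^ (η / 2) ≤ (q : ℝ) ^ (η / 2) :=
          Real.rpow_le_rpow (by positivity) hqE (by positivity)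
        rw [← Real.rpow_mul (by norm_num)] at h8
        have h9 : 2 / η * (η / 2) = 1 := by field_simp
        rw [h9, Real.rpow_one] at h8
        exact h8
      have h8 : (q : ℝ) ^ (η / 2) * (q : ℝ) ^ (1 - η) ≤ (q : ℝ) ^ (1 - η') := by
        rw [← Real.rpow_add hq0]
        refine Real.rpow_le_rpow_of_exponent_le hq1 ?_
        linarith
      have h9 : (0 : ℝ) ≤ (q : ℝ) ^ (1 - η) := by positivity
      nlinarith
    linarith
  have hnormu : ∀ k : ℕ, ‖(-1 : ℂ) ^ k * C₀ * ψ₀ (Ideal.span {(q : 𝓞 K)})‖ ≤ ‖C₀‖ := by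
    intro k
    rw [norm_mul, norm_mul, norm_pow, norm_neg, norm_one, one_pow, one_mul]
    exact mul_le_of_le_one_right (norm_nonneg _) (hψ _)
  have hu1 : ∀ (k : ℕ) (z : ℂ), 1 + ((-1 : ℂ) ^ k * C₀ * ψ₀ (Ideal.span {(q : 𝓞 K)})) * z =
      1 - (C₀ * ψ₀ (Ideal.span {(q : 𝓞 K)}) * z) * (-1) ^ (k + 1) := by
    intro k z
    rw [pow_succ]
    ring
  refine ⟨?_, ?_, ?_⟩
  · intro hr k hk
    have hh : ∀ (v : ℝ → ℝ) (t' : ℝ), tm ≤ t' → Wt v → (∀ y : ℝ, 0 < y → vc a k y = v y) →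
        ((q : ℝ) ^ (1 - η') ≤ ({χ | χ ∈ PP K q ∧ t' ≤ ‖(1 + ((-1 : ℂ) ^ k * C₀ *
          ψ₀ (Ideal.span {(q : 𝓞 K)})) * χ 𝔣₀) * AA v (ρ * q) (pr ψ₀ χ)‖}.ncard : ℝ)) →
        (q : ℝ) ^ (1 - η) ≤ ((Good t 𝔣₀ a ψ₀ q k).ncard : ℝ) := by
      intro v t' htt hv hvc hcnt
      refine key k v _ t' htt hk hv hvc ?_ (Or.inr (hu1 k)) hcnt
      intro χ _ hne
      rw [← hu1]
      exact left_ne_zero_of_mul hne
    interval_cases k
    · exact hh v0 t0 (min_le_left _ _) hv0 hvc0 (hcount0 n q g1 hq _ (hnormu 0) (Or.inr hr))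
    · exact hh v1 t1 (min_le_right _ _) hv1 hvc1 (hcount1 n q g2 hq _ (hnormu 1) (Or.inr hr))
  · by_cases hr : Rat 𝔣₀
    · -- `χ(𝔣₀) = 1` for all `χ`
      have hχ1 : ∀ χ ∈ PP K q, χ 𝔣₀ = 1 := by
        intro χ hχ
        obtain ⟨f, hf0, hf⟩ := hr
        have h3 : Cop q 𝔣₀ := cop_of_norm hcof
        rw [hf] at h3 ⊢
        exact hχ.one _ ⟨f, by simp⟩ h3
      by_cases hw : 1 + C₀ * ψ₀ (Ideal.span {(q : 𝓞 K)}) = 0
      · refine ⟨1, le_rfl, ?_⟩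
        refine key 1 v1 0 t1 (min_le_right _ _) le_rfl hv1 hvc1 ?_ (Or.inl rfl)
          (hcount1 n q g2 hq 0 (by rw [norm_zero]; exact norm_nonneg _) (Or.inl rfl))
        intro χ hχ _
        rw [hχ1 χ hχ]
        intro h3
        have h4 : (2 : ℂ) = 0 := by linear_combination h3 + hw
        norm_num at h4
      · refine ⟨0, by norm_num, ?_⟩
        refine key 0 v0 0 t0 (min_le_left _ _) (by norm_num) hv0 hvc0 ?_ (Or.inl rfl)
          (hcount0 n q g1 hq 0 (by rw [norm_zero]; exact norm_nonneg _) (Or.inl rfl))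
        intro χ hχ _
        rw [hχ1 χ hχ]
        intro h3
        exact hw (by linear_combination h3)
    · refine ⟨0, by norm_num, ?_⟩
      refine key 0 v0 _ t0 (min_le_left _ _) (by norm_num) hv0 hvc0 ?_ (Or.inr (hu1 0))
        (hcount0 n q g1 hq _ (hnormu 0) (Or.inr hr))
      intro χ _ hne
      rw [← hu1]
      exact left_ne_zero_of_mul hne
  · intro htop ha0
    refine key 0 v0 0 t0 (min_le_left _ _) (by norm_num) hv0 hvc0 ?_ (Or.inl rfl)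
      (hcount0 n q g1 hq 0 (by rw [norm_zero]; exact norm_nonneg _) (Or.inl rfl))
    intro χ hχ _
    rw [hC₀ htop ha0]
    have h3 : χ 𝔣₀ = 1 := by
      rw [htop, ← Ideal.one_eq_top, map_one]
    have h4 : ψ₀ (Ideal.span {(q : 𝓞 K)}) = 1 := by
      have h5 := hB.sig (q : 𝓞 K) (by exact_mod_cast (by omega : q ≠ 0)) (by
        rw [htop]; trivial)
      have h6 : ((q : 𝓞 K) : K) = (q : K) := by simp
      rw [h6, Pool.Agent.Y773.sg_natCast (K := K) (fun _ => a) (by omega)] at h5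
      exact h5
    rw [h3, h4]
    norm_num

end Pool.Agent.NH12.RS
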