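import Pool.Agent.NH12.RS.Stm
import Pool.Agent.Y773.HK.Gss2

/-!
# Project RS: the Gauss sum of `ψ₀ χ` (helper17)
-/

set_option autoImplicit false
set_option linter.unusedSectionVars false

open NumberField Complex

namespace Pool.Agent.NH12.RS

open Pool.Agent.Y773 (TPos IsPrimChar IsModChar LI sg Ps FT SQ PerI ee SQ_bij SQ_congr SQ_const_mul
  mk_out out_mk Ps_of_eq Ps_of_notMem mem_iff_exists_mul span_m_ne_bot FT_eq_SQ absNorm_span_nat
  sg_mul sg_sq sg_natCast ee_sub_eq ee_eq_one_iff conj_sg)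

namespace Gs

/-! ### the field -/

section field

variable {K : Type} [Field K] [NumberField K] (S : RQ K)

/-- the first coordinate -/
noncomputable def cA (x : 𝓞 K) : ℤ := (S.basis x).choose

/-- the second coordinate -/
noncomputable def cB (x : 𝓞 K) : ℤ := (S.basis x).choose_spec.choose

lemma eAB (x : 𝓞 K) : x = cA S x + cB S x * S.ω := (S.basis x).choose_spec.choose_spec

lemma uniq {x : 𝓞 K} {a b : ℤ} (h : x = a + b * S.ω) : cA S x = a ∧ cB S x = b := by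
  have h1 := eAB S x
  have h2 : ((cA S x - a : ℤ) : 𝓞 K) + ((cB S x - b : ℤ) : 𝓞 K) * S.ω = 0 := by
    push_cast
    linear_combination h - h1
  obtain ⟨h3, h4⟩ := S.indep _ _ h2
  omega

lemma cB_add (x y : 𝓞 K) : cB S (x + y) = cB S x + cB S y := by
  refine (uniq S (a := cA S x + cA S y) (b := cB S x + cB S y) ?_).2
  push_cast
  linear_combination eAB S x + eAB S y

lemma c_int_mul (n : ℤ) (x : 𝓞 K) : cA S (n * x) = n * cA S x ∧ cB S (n * x) = n * cB S x := by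
  refine uniq S (a := n * cA S x) (b := n * cB S x) ?_
  push_cast
  linear_combination (n : 𝓞 K) * eAB S x

lemma c_int (n : ℤ) : cA S (n : 𝓞 K) = n ∧ cB S (n : 𝓞 K) = 0 := by
  refine uniq S (a := n) (b := 0) ?_
  push_cast
  ring

lemma Zd_iff (d : ℕ) (z : 𝓞 K) : Zd d z ↔ (d : ℤ) ∣ cB S z := by
  constructor
  · rintro ⟨a, w, hw⟩
    have h : z = (a : 𝓞 K) + ((d : ℤ) : 𝓞 K) * w := by
      push_cast
      linear_combination hw
    rw [h, cB_add, (c_int S _).2, (c_int_mul S _ _).2, zero_add]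
    exact dvd_mul_right _ _
  · rintro ⟨t, ht⟩
    refine ⟨cA S z, (t : 𝓞 K) * S.ω, ?_⟩
    have h1 := eAB S z
    rw [ht] at h1
    push_cast at h1
    linear_combination h1

include S in
lemma dvd_int {d : ℕ} {n : ℤ} (h : (d : 𝓞 K) ∣ (n : 𝓞 K)) : (d : ℤ) ∣ n := by
  obtain ⟨w, hw⟩ := h
  have h1 : (n : 𝓞 K) = ((d : ℤ) : 𝓞 K) * w := by
    push_cast
    exact hw
  have h2 := (c_int S n).1
  rw [h1, (c_int_mul S _ _).1] at h2
  exact ⟨_, h2.symm⟩

/-- the generator of the different -/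
noncomputable def dl : 𝓞 K := S.ω - S.σ S.ω

lemma dl_conj : S.σ (dl S) = -dl S := by
  unfold dl
  rw [map_sub, S.inv]
  ring

lemma sub_conj (z : 𝓞 K) : z - S.σ z = cB S z * dl S := by
  have h := eAB S z
  have h2 := congrArg S.σ h
  rw [map_add, map_mul, map_intCast, map_intCast] at h2
  unfold dl
  linear_combination h - h2

lemma exists_D : ∃ D : ℕ, 0 < D ∧ (D : 𝓞 K) = dl S * dl S := by
  have h := S.norm (dl S)
  rw [dl_conj] at h
  have h1 : ((-(Algebra.norm ℤ (dl S)) : ℤ) : 𝓞 K) = dl S * dl S := by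
    push_cast
    linear_combination -h
  have h2 := congrArg S.τ h1
  rw [map_intCast, map_mul] at h2
  have h3 : (0 : ℝ) < ((-(Algebra.norm ℤ (dl S)) : ℤ) : ℝ) := by
    rw [h2]
    exact mul_pos S.pos S.pos
  have h4 : 0 < -(Algebra.norm ℤ (dl S)) := by exact_mod_cast h3
  have h5 : (((-(Algebra.norm ℤ (dl S))).toNat : ℕ) : ℤ) = -(Algebra.norm ℤ (dl S)) :=
    Int.toNat_of_nonneg h4.le
  refine ⟨(-(Algebra.norm ℤ (dl S))).toNat, by omega, ?_⟩
  rw [← h1, ← h5]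
  push_cast
  rfl

lemma trace_dl {D : ℕ} (hD : (D : 𝓞 K) = dl S * dl S) (z : 𝓞 K) :
    Algebra.trace ℤ (𝓞 K) (dl S * z) = D * cB S z := by
  have h := S.trace (dl S * z)
  rw [map_mul S.σ, dl_conj] at h
  have h1 : ((Algebra.trace ℤ (𝓞 K) (dl S * z) : ℤ) : 𝓞 K) = ((D * cB S z : ℤ) : 𝓞 K) := by
    rw [h]
    push_cast
    linear_combination dl S * sub_conj S z - cB S z * hD
  exact_mod_cast h1

end field

/-! ### units modulo an ideal -/

section units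

variable {K : Type} [Field K] [NumberField K]

lemma SQ_unit {𝔠 : Ideal (𝓞 K)} {f : 𝓞 K → ℂ} (hf : PerI 𝔠 f) {u v : 𝓞 K} (huv : u * v - 1 ∈ 𝔠) :
    SQ 𝔠 (fun z => f (u * z)) = SQ 𝔠 f := by
  refine SQ_bij (f₁ := fun z => f (u * z)) ?_ hf (fun z => u * z) (fun _ _ => rfl) ?_ ?_
  · intro x y hxy
    exact hf _ _ (by rw [← mul_sub]; exact Ideal.mul_mem_left _ _ hxy)
  · intro x x' _ _
    constructor
    · intro h
      rw [← mul_sub]
      exact Ideal.mul_mem_left _ _ h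
    · intro h
      have h1 : x - x' = v * (u * x - u * x') - (u * v - 1) * (x - x') := by ring
      rw [h1]
      exact 𝔠.sub_mem (Ideal.mul_mem_left _ _ h) (Ideal.mul_mem_right _ _ huv)
  · intro y hy
    have h : u * (v * y) - y ∈ 𝔠 := by
      have h1 : u * (v * y) - y = (u * v - 1) * y := by ring
      rw [h1]
      exact Ideal.mul_mem_right _ _ huv
    refine ⟨v * y, ?_, h⟩
    rw [hf _ _ h]
    exact hy

lemma cop_of_inv {q : ℕ} {u v : 𝓞 K} (h : u * v - 1 ∈ Ideal.span {(q : 𝓞 K)}) :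
    Cop q (Ideal.span {u}) := by
  unfold Cop
  rw [Ideal.isCoprime_iff_exists]
  refine ⟨u * v, Ideal.mul_mem_right _ _ (Ideal.mem_span_singleton_self u), 1 - u * v, ?_, by ring⟩
  have : 1 - u * v = -(u * v - 1) := by ring
  rw [this]
  exact neg_mem h

lemma inv_of_cop {q : ℕ} {u : 𝓞 K} (h : Cop q (Ideal.span {u})) :
    ∃ v : 𝓞 K, u * v - 1 ∈ Ideal.span {(q : 𝓞 K)} := by
  unfold Cop at h
  rw [Ideal.isCoprime_iff_exists] at h
  obtain ⟨i, hi, j, hj, hij⟩ := h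
  obtain ⟨v, rfl⟩ := Ideal.mem_span_singleton'.mp hi
  refine ⟨v, ?_⟩
  have : u * v - 1 = -j := by linear_combination hij
  rw [this]
  exact neg_mem hj

lemma cop_norm {q : ℕ} {𝔞 : Ideal (𝓞 K)} (h : Nat.Coprime q (Ideal.absNorm 𝔞)) : Cop q 𝔞 := by
  unfold Cop
  rw [Ideal.isCoprime_iff_exists]
  obtain ⟨a, b, hab⟩ := Nat.isCoprime_iff_coprime.mpr h
  refine ⟨(b : 𝓞 K) * (Ideal.absNorm 𝔞 : ℕ), Ideal.mul_mem_left _ _ (Ideal.absNorm_mem 𝔞),
    (a : 𝓞 K) * q, Ideal.mul_mem_left _ _ (Ideal.mem_span_singleton_self _), ?_⟩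
  have h1 := congrArg (fun t : ℤ => (t : 𝓞 K)) hab
  push_cast at h1
  linear_combination h1

lemma span_mul (χ : Ideal (𝓞 K) →*₀ ℂ) (u z : 𝓞 K) :
    χ (Ideal.span {u * z}) = χ (Ideal.span {u}) * χ (Ideal.span {z}) := by
  rw [← map_mul, Ideal.span_singleton_mul_span_singleton]

lemma RC_nat {q : ℕ} {χ : Ideal (𝓞 K) →*₀ ℂ} (h : IsRC q χ) {u : ℤ} {v : 𝓞 K}
    (huv : (u : 𝓞 K) * v - 1 ∈ Ideal.span {(q : 𝓞 K)}) : χ (Ideal.span {(u : 𝓞 K)}) = 1 :=
  h.one _ ⟨u, by rw [sub_self]; exact dvd_zero _⟩ (cop_of_inv huv)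

variable [IsTotallyReal K]

lemma sg_zero (x : K) : sg (fun _ : InfinitePlace K => 0) x = 1 := by
  unfold sg
  simp

lemma chi_mod {q : ℕ} {χ : Ideal (𝓞 K) →*₀ ℂ} (hq : 2 ≤ q) (h : IsRC q χ) :
    IsModChar (Ideal.span {(q : 𝓞 K)}) (fun _ => 0) χ where
  ne_bot := span_m_ne_bot (by omega)
  ne_top := by
    intro ht
    have h1 := absNorm_span_nat (K := K) q
    rw [ht, Ideal.absNorm_top] at h1
    have h2 : 0 < Module.finrank ℚ K := Module.finrank_pos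
    have h3 := Nat.one_lt_pow h2.ne' (show 1 < q by omega)
    omega
  sig_le := fun _ => by omega
  supp := h.supp
  sig := by
    intro x hx0 hx1
    have hc : Cop q (Ideal.span {x}) := cop_of_inv (v := 1) (by rwa [mul_one])
    rw [h.one x ⟨1, by
      have := Ideal.mem_span_singleton.mp hx1
      simpa using this⟩ hc, sg_zero]

lemma chi_per {q : ℕ} {χ : Ideal (𝓞 K) →*₀ ℂ} (hq : 2 ≤ q) (h : IsRC q χ) :
    PerI (Ideal.span {(q : 𝓞 K)}) (fun z => χ (Ideal.span {z})) := by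
  intro x y hxy
  have h1 := (chi_mod hq h).perI (𝔟 := ⊤) top_ne_bot x y (by rwa [Ideal.top_mul])
  rw [Ps_of_eq top_ne_bot (Ideal.mul_top _), Ps_of_eq top_ne_bot (Ideal.mul_top _), sg_zero,
    sg_zero, mul_one, mul_one] at h1
  exact h1

end units

/-! ### the sum modulo `q` -/

section HH

variable {K : Type} [Field K] [NumberField K] [IsTotallyReal K] (S : RQ K) {q : ℕ} [NeZero q]

/-- the summand -/
noncomputable def ff (χ : Ideal (𝓞 K) →*₀ ℂ) (k : ZMod q) (z : 𝓞 K) : ℂ :=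
  χ (Ideal.span {z}) * ZMod.stdAddChar (k * ((cB S z : ℤ) : ZMod q))

lemma cB_congr {x y : 𝓞 K} (h : x - y ∈ Ideal.span {(q : 𝓞 K)}) :
    ((cB S x : ℤ) : ZMod q) = ((cB S y : ℤ) : ZMod q) := by
  obtain ⟨w, hw⟩ := Ideal.mem_span_singleton.mp h
  have h1 : x = y + ((q : ℤ) : 𝓞 K) * w := by
    push_cast
    linear_combination hw
  rw [h1, cB_add, (c_int_mul S _ _).2]
  push_cast
  rw [ZMod.natCast_self, zero_mul, add_zero]

lemma ff_per {χ : Ideal (𝓞 K) →*₀ ℂ} (hq : 2 ≤ q) (h : IsRC q χ) (k : ZMod q) :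
    PerI (Ideal.span {(q : 𝓞 K)}) (ff S χ k) := by
  intro x y hxy
  unfold ff
  have h1 : χ (Ideal.span {x}) = χ (Ideal.span {y}) := chi_per hq h x y hxy
  rw [h1, cB_congr S hxy]

/-- the values at the units -/
lemma HH_unit {χ : Ideal (𝓞 K) →*₀ ℂ} (hq : 2 ≤ q) (h : IsRC q χ) {k : ZMod q} (hk : IsUnit k) :
    SQ (Ideal.span {(q : 𝓞 K)}) (ff S χ k) = SQ (Ideal.span {(q : 𝓞 K)}) (ff S χ (1 : ZMod q)) := by
  obtain ⟨u, rfl⟩ := hk
  set n : ℤ := ((u : ZMod q).val : ℤ) with hn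
  set m : ℤ := (((u⁻¹ : (ZMod q)ˣ) : ZMod q).val : ℤ) with hm
  have hnz : ((n : ℤ) : ZMod q) = u := by
    rw [hn, Int.cast_natCast, ZMod.natCast_zmod_val]
  have hmz : ((m : ℤ) : ZMod q) = (u⁻¹ : (ZMod q)ˣ) := by
    rw [hm, Int.cast_natCast, ZMod.natCast_zmod_val]
  have h1 : (q : ℤ) ∣ n * m - 1 := by
    rw [← ZMod.intCast_zmod_eq_zero_iff_dvd]
    push_cast
    rw [hnz, hmz, Units.mul_inv, sub_self]
  have h2 : (n : 𝓞 K) * (m : 𝓞 K) - 1 ∈ Ideal.span {(q : 𝓞 K)} := by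
    obtain ⟨t, ht⟩ := h1
    rw [Ideal.mem_span_singleton]
    refine ⟨(t : 𝓞 K), ?_⟩
    have := congrArg (fun s : ℤ => (s : 𝓞 K)) ht
    push_cast at this
    exact this
  rw [← SQ_unit (ff_per S hq h (1 : ZMod q)) h2]
  refine SQ_congr fun z => ?_
  unfold ff
  rw [span_mul, RC_nat h h2, one_mul, (c_int_mul S _ _).2, one_mul]
  push_cast
  rw [hnz]

/-- the values at the other elements -/
lemma HH_nonunit {χ : Ideal (𝓞 K) →*₀ ℂ} (hq : 2 ≤ q) (h : IsPr q χ) {k : ZMod q}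
    (hk : ¬ IsUnit k) : SQ (Ideal.span {(q : 𝓞 K)}) (ff S χ k) = 0 := by
  have hq0 : 0 < q := by omega
  set g : ℕ := Nat.gcd k.val q with hg
  have hg1 : g ≠ 1 := by
    intro h1
    apply hk
    have := (ZMod.isUnit_iff_coprime k.val q).mpr h1
    rwa [ZMod.natCast_zmod_val] at this
  have hgq : g ∣ q := Nat.gcd_dvd_right _ _
  have hg0 : 0 < g := Nat.pos_of_dvd_of_pos hgq hq0
  obtain ⟨d, hd⟩ := hgq
  have hd0 : 0 < d := Nat.pos_of_ne_zero (by rintro rfl; omega)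
  have hdq : d ∣ q := ⟨g, by rw [hd, mul_comm]⟩
  have hdne : d ≠ q := by
    intro h1
    have h2 : g * d = 1 * d := by rw [one_mul, ← hd, h1]
    exact hg1 (Nat.eq_of_mul_eq_mul_right hd0 h2)
  have hkd : k * ((d : ℕ) : ZMod q) = 0 := by
    obtain ⟨e, he⟩ := Nat.gcd_dvd_left k.val q
    rw [← hg] at he
    have h1 : ((k.val * d : ℕ) : ZMod q) = 0 := by
      rw [ZMod.natCast_eq_zero_iff, he, hd]
      exact ⟨e, by ring⟩
    push_cast at h1
    rwa [ZMod.natCast_zmod_val] at h1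
  have hth := h.prim d hdq hdne
  unfold Thr at hth
  push Not at hth
  obtain ⟨x, ⟨a, ha⟩, hxc, hx1⟩ := hth
  obtain ⟨v, hv⟩ := inv_of_cop hxc
  -- `a` is a unit modulo `d`
  have hau : ((a : ℤ) : ZMod d) * ((cA S v : ℤ) : ZMod d) = 1 := by
    have h1 : (d : 𝓞 K) ∣ (a : 𝓞 K) * v - 1 := by
      have h2 : (q : 𝓞 K) ∣ x * v - 1 := Ideal.mem_span_singleton.mp hv
      have h3 : (d : 𝓞 K) ∣ x * v - 1 := by
        refine dvd_trans ?_ h2
        exact_mod_cast (Nat.cast_dvd_cast hdq : ((d : ℕ) : 𝓞 K) ∣ ((q : ℕ) : 𝓞 K))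
      have h4 : (a : 𝓞 K) * v - 1 = (x * v - 1) - (x - a) * v := by ring
      rw [h4]
      exact dvd_sub h3 (ha.mul_right v)
    obtain ⟨w, hw⟩ := h1
    have h5 : cA S ((a : 𝓞 K) * v) = 1 + d * cA S w := by
      have h6 : (a : 𝓞 K) * v = ((1 + d * cA S w : ℤ) : 𝓞 K) + ((d * cB S w : ℤ) : 𝓞 K) * S.ω := by
        have := eAB S w
        push_cast
        linear_combination hw + (d : 𝓞 K) * this
      exact (uniq S h6).1
    rw [(c_int_mul S _ _).1] at h5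
    have h7 := congrArg (fun s : ℤ => (s : ZMod d)) h5
    push_cast at h7
    rw [h7, ZMod.natCast_self, zero_mul, add_zero]
  set ua : (ZMod d)ˣ := ⟨((a : ℤ) : ZMod d), ((cA S v : ℤ) : ZMod d), hau, by rw [mul_comm, hau]⟩
    with hua
  obtain ⟨uq, huq⟩ := ZMod.unitsMap_surjective hdq ua⁻¹
  have : NeZero d := ⟨hd0.ne'⟩
  set m : ℤ := ((uq : ZMod q).val : ℤ) with hm
  set m' : ℤ := (((uq⁻¹ : (ZMod q)ˣ) : ZMod q).val : ℤ) with hm'
  have hmq : ((m : ℤ) : ZMod q) = uq := by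
    rw [hm, Int.cast_natCast, ZMod.natCast_zmod_val]
  have hmq' : ((m' : ℤ) : ZMod q) = (uq⁻¹ : (ZMod q)ˣ) := by
    rw [hm', Int.cast_natCast, ZMod.natCast_zmod_val]
  have hmm : (m : 𝓞 K) * (m' : 𝓞 K) - 1 ∈ Ideal.span {(q : 𝓞 K)} := by
    have h1 : (q : ℤ) ∣ m * m' - 1 := by
      rw [← ZMod.intCast_zmod_eq_zero_iff_dvd]
      push_cast
      rw [hmq, hmq', Units.mul_inv, sub_self]
    obtain ⟨t, ht⟩ := h1
    rw [Ideal.mem_span_singleton]
    refine ⟨(t : 𝓞 K), ?_⟩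
    have := congrArg (fun s : ℤ => (s : 𝓞 K)) ht
    push_cast at this
    exact this
  have hmd : (d : ℤ) ∣ m * a - 1 := by
    rw [← ZMod.intCast_zmod_eq_zero_iff_dvd]
    push_cast
    have h1 : ((m : ℤ) : ZMod d) = ((ua⁻¹ : (ZMod d)ˣ) : ZMod d) := by
      rw [← huq, ZMod.unitsMap_val, hm, Int.cast_natCast, ← ZMod.cast_eq_val]
    rw [h1]
    have h2 : ((a : ℤ) : ZMod d) = (ua : ZMod d) := rfl
    rw [h2, Units.inv_mul, sub_self]
  -- the multiplier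
  have hxx : ((m : 𝓞 K) * x) * (v * (m' : 𝓞 K)) - 1 ∈ Ideal.span {(q : 𝓞 K)} := by
    have h1 : ((m : 𝓞 K) * x) * (v * (m' : 𝓞 K)) - 1 =
        ((m : 𝓞 K) * m') * (x * v - 1) + ((m : 𝓞 K) * (m' : 𝓞 K) - 1) := by ring
    rw [h1]
    exact add_mem (Ideal.mul_mem_left _ _ hv) hmm
  have hx1d : ∃ w : 𝓞 K, (m : 𝓞 K) * x = 1 + (d : ℕ) * w := by
    obtain ⟨w, hw⟩ := ha
    obtain ⟨t, ht⟩ := hmd
    refine ⟨m * w + t, ?_⟩
    have h1 := congrArg (fun s : ℤ => (s : 𝓞 K)) ht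
    push_cast at h1
    linear_combination (m : 𝓞 K) * hw + h1
  obtain ⟨w, hw⟩ := hx1d
  have hX : χ (Ideal.span {(m : 𝓞 K) * x}) ≠ 1 := by
    rw [span_mul, RC_nat h.toIsRC hmm, one_mul]
    exact hx1
  have hne : Ideal.span {(q : 𝓞 K)} ≠ ⊥ := span_m_ne_bot hq0
  have h1 := SQ_unit (ff_per S hq h.toIsRC k) hxx
  have h2 : SQ (Ideal.span {(q : 𝓞 K)}) (fun z => ff S χ k ((m : 𝓞 K) * x * z)) =
      χ (Ideal.span {(m : 𝓞 K) * x}) * SQ (Ideal.span {(q : 𝓞 K)}) (ff S χ k) := by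
    rw [← SQ_const_mul hne]
    refine SQ_congr fun z => ?_
    unfold ff
    rw [span_mul, mul_assoc]
    congr 2
    congr 1
    have h3 : (m : 𝓞 K) * x * z = z + ((d : ℤ) : 𝓞 K) * (w * z) := by
      rw [hw]
      push_cast
      ring
    rw [h3, cB_add, (c_int_mul S _ _).2]
    push_cast
    rw [mul_add, ← mul_assoc k, hkd, zero_mul, add_zero]
  rw [h2] at h1
  have h3 : (χ (Ideal.span {(m : 𝓞 K) * x}) - 1) * SQ (Ideal.span {(q : 𝓞 K)}) (ff S χ k) = 0 := by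
    linear_combination h1
  rcases mul_eq_zero.mp h3 with h4 | h4
  · exact absurd (sub_eq_zero.mp h4) hX
  · exact h4

open Classical in
/-- the sum of all the values -/
lemma HH_sum {χ : Ideal (𝓞 K) →*₀ ℂ} (hq : 2 ≤ q) (h : IsRC q χ) :
    ∑ k : ZMod q, SQ (Ideal.span {(q : 𝓞 K)}) (ff S χ k) =
      q * ∑ n : ZMod q, (if IsUnit n then (1 : ℂ) else 0) := by
  have hq0 : 0 < q := by omega
  have hne : Ideal.span {(q : 𝓞 K)} ≠ ⊥ := span_m_ne_bot hq0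
  have : Finite (𝓞 K ⧸ Ideal.span {(q : 𝓞 K)}) := Ideal.finiteQuotientOfFreeOfNeBot _ hne
  have := Fintype.ofFinite (𝓞 K ⧸ Ideal.span {(q : 𝓞 K)})
  unfold SQ
  simp only [finsum_eq_sum_of_fintype]
  rw [Finset.sum_comm]
  have h1 : ∀ r : 𝓞 K ⧸ Ideal.span {(q : 𝓞 K)}, ∑ k : ZMod q, ff S χ k (Quotient.out r) =
      q * (if ((cB S (Quotient.out r) : ℤ) : ZMod q) = 0 then χ (Ideal.span {Quotient.out r}) else 0) := by
    intro r
    unfold ff
    rw [← Finset.mul_sum, AddChar.sum_mulShift _ (ZMod.isPrimitive_stdAddChar q), ZMod.card]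
    split_ifs
    · ring
    · simp
  rw [Finset.sum_congr rfl fun r _ => h1 r, ← Finset.mul_sum]
  congr 1
  symm
  have hin : ∀ n : ZMod q, Quotient.out (Ideal.Quotient.mk (Ideal.span {(q : 𝓞 K)}) ((n.val : ℕ) : 𝓞 K)) -
      ((n.val : ℕ) : 𝓞 K) ∈ Ideal.span {(q : 𝓞 K)} := fun n => out_mk _
  refine Fintype.sum_of_injective
    (fun n : ZMod q => Ideal.Quotient.mk (Ideal.span {(q : 𝓞 K)}) ((n.val : ℕ) : 𝓞 K)) ?_ _ _ ?_ ?_
  · intro n n' hnn
    have h2 : (((n.val : ℤ) - (n'.val : ℤ) : ℤ) : 𝓞 K) ∈ Ideal.span {(q : 𝓞 K)} := by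
      have := Ideal.Quotient.eq.mp hnn
      push_cast
      exact this
    have h3 := dvd_int S (Ideal.mem_span_singleton.mp h2)
    rw [← ZMod.intCast_zmod_eq_zero_iff_dvd] at h3
    push_cast at h3
    rw [ZMod.natCast_zmod_val, ZMod.natCast_zmod_val, sub_eq_zero] at h3
    exact h3
  · intro r hr
    rw [if_neg]
    intro h2
    apply hr
    refine ⟨((cA S (Quotient.out r) : ℤ) : ZMod q), ?_⟩
    change Ideal.Quotient.mk _ _ = r
    conv_rhs => rw [← mk_out r]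
    rw [Ideal.Quotient.eq, Ideal.mem_span_singleton]
    have h3 : (q : ℤ) ∣ cB S (Quotient.out r) := (ZMod.intCast_zmod_eq_zero_iff_dvd _ _).mp h2
    have h4 : (q : ℤ) ∣ (((cA S (Quotient.out r) : ℤ) : ZMod q).val : ℤ) - cA S (Quotient.out r) := by
      rw [← ZMod.intCast_zmod_eq_zero_iff_dvd]
      push_cast
      rw [ZMod.natCast_zmod_val, sub_self]
    obtain ⟨s, hs⟩ := h3
    obtain ⟨t, ht⟩ := h4
    refine ⟨(t : 𝓞 K) - s * S.ω, ?_⟩
    have h5 := eAB S (Quotient.out r)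
    have h6 := congrArg (fun s : ℤ => (s : 𝓞 K)) hs
    have h7 := congrArg (fun s : ℤ => (s : 𝓞 K)) ht
    push_cast at h6 h7
    linear_combination h7 - h5 - S.ω * h6
  · intro n
    have h2 := cB_congr S (hin n)
    have h3 : cB S (((n.val : ℕ) : 𝓞 K)) = 0 := by
      have := (c_int S (n.val : ℤ)).2
      push_cast at this
      exact this
    rw [h3, Int.cast_zero] at h2
    rw [if_pos h2]
    have h4 : χ (Ideal.span {Quotient.out (Ideal.Quotient.mk (Ideal.span {(q : 𝓞 K)}) ((n.val : ℕ) : 𝓞 K))}) =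
        χ (Ideal.span {((n.val : ℕ) : 𝓞 K)}) := chi_per hq h _ _ (hin n)
    rw [h4]
    split_ifs with hn
    · symm
      obtain ⟨u, rfl⟩ := hn
      have h5 : (((u : ZMod q).val : ℤ) : 𝓞 K) * ((((u⁻¹ : (ZMod q)ˣ) : ZMod q).val : ℤ) : 𝓞 K) - 1 ∈
          Ideal.span {(q : 𝓞 K)} := by
        have h6 : (q : ℤ) ∣ ((u : ZMod q).val : ℤ) * ((((u⁻¹ : (ZMod q)ˣ) : ZMod q).val : ℤ)) - 1 := by
          rw [← ZMod.intCast_zmod_eq_zero_iff_dvd]
          push_cast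
          rw [ZMod.natCast_zmod_val, ZMod.natCast_zmod_val, Units.mul_inv, sub_self]
        obtain ⟨t, ht⟩ := h6
        rw [Ideal.mem_span_singleton]
        refine ⟨(t : 𝓞 K), ?_⟩
        have := congrArg (fun s : ℤ => (s : 𝓞 K)) ht
        push_cast at this
        push_cast
        exact this
      have := RC_nat h h5
      push_cast at this
      exact this
    · symm
      by_contra h5
      apply hn
      have h6 := (h.supp _).mp h5
      obtain ⟨v, hv⟩ := inv_of_cop h6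
      obtain ⟨w, hw⟩ := Ideal.mem_span_singleton.mp hv
      have h7 : (n.val : ℤ) * cA S v = 1 + q * cA S w := by
        have h8 : ((n.val : ℤ) : 𝓞 K) * v = ((1 + q * cA S w : ℤ) : 𝓞 K) + ((q * cB S w : ℤ) : 𝓞 K) * S.ω := by
          have := eAB S w
          push_cast
          linear_combination hw + (q : 𝓞 K) * this
        have h9 := (uniq S h8).1
        rw [(c_int_mul S _ _).1] at h9
        exact h9
      have h10 := congrArg (fun s : ℤ => (s : ZMod q)) h7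
      push_cast at h10
      rw [ZMod.natCast_self, zero_mul, add_zero, ZMod.natCast_zmod_val] at h10
      exact IsUnit.of_mul_eq_one _ h10

/-- the sum modulo `q` -/
theorem HH_one {χ : Ideal (𝓞 K) →*₀ ℂ} (hq : 2 ≤ q) (h : IsPr q χ) :
    SQ (Ideal.span {(q : 𝓞 K)}) (ff S χ (1 : ZMod q)) = q := by
  classical
  have h1 := HH_sum S hq h.toIsRC
  have h2 : ∀ k : ZMod q, SQ (Ideal.span {(q : 𝓞 K)}) (ff S χ k) =
      (if IsUnit k then (1 : ℂ) else 0) * SQ (Ideal.span {(q : 𝓞 K)}) (ff S χ (1 : ZMod q)) := by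
    intro k
    split_ifs with hk
    · rw [one_mul, HH_unit S hq h.toIsRC hk]
    · rw [zero_mul, HH_nonunit S hq h hk]
  rw [Finset.sum_congr rfl fun k _ => h2 k, ← Finset.sum_mul] at h1
  have h3 : (∑ n : ZMod q, (if IsUnit n then (1 : ℂ) else 0)) ≠ 0 := by
    rw [Finset.sum_boole]
    have : 0 < (Finset.univ.filter fun n : ZMod q => IsUnit n).card :=
      Finset.card_pos.mpr ⟨1, by simp⟩
    exact_mod_cast this.ne'
  have h4 : (∑ n : ZMod q, (if IsUnit n then (1 : ℂ) else 0)) *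
      SQ (Ideal.span {(q : 𝓞 K)}) (ff S χ (1 : ZMod q)) =
      (∑ n : ZMod q, (if IsUnit n then (1 : ℂ) else 0)) * q := by
    rw [h1]
    ring
  exact mul_left_cancel₀ h3 h4

end HH

/-! ### the Chinese remainder theorem -/

section crt

variable {K : Type} [Field K] [NumberField K]

/-- the Chinese remainder theorem for sums over residue classes -/
lemma SQ_crt {I J L : Ideal (𝓞 K)} (hI : I ≠ ⊥) (hJ : J ≠ ⊥) (hIJ : IsCoprime I J) (hL : L = I * J)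
    {G H : 𝓞 K → ℂ} (hG : PerI I G) (hH : PerI J H) :
    SQ L (fun s => G s * H s) = SQ I G * SQ J H := by
  classical
  subst hL
  have : Finite (𝓞 K ⧸ I) := Ideal.finiteQuotientOfFreeOfNeBot _ hI
  have : Finite (𝓞 K ⧸ J) := Ideal.finiteQuotientOfFreeOfNeBot _ hJ
  have : Finite (𝓞 K ⧸ (I * J)) := Ideal.finiteQuotientOfFreeOfNeBot _ (mul_ne_zero hI hJ)
  have := Fintype.ofFinite (𝓞 K ⧸ I)
  have := Fintype.ofFinite (𝓞 K ⧸ J)
  have := Fintype.ofFinite (𝓞 K ⧸ (I * J))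
  unfold SQ
  rw [finsum_eq_sum_of_fintype, finsum_eq_sum_of_fintype, finsum_eq_sum_of_fintype,
    Fintype.sum_mul_sum, ← Fintype.sum_prod_type']
  refine Fintype.sum_equiv (Ideal.quotientMulEquivQuotientProd I J hIJ).toEquiv _ _ ?_
  intro s
  obtain ⟨s, rfl⟩ := Ideal.Quotient.mk_surjective s
  have e1 : ((Ideal.quotientMulEquivQuotientProd I J hIJ).toEquiv (Ideal.Quotient.mk (I * J) s)) =
    (Ideal.Quotient.mk I s, Ideal.Quotient.mk J s) := rfl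
  rw [e1]
  have h1 : PerI (I * J) (fun s => G s * H s) := by
    intro x y hxy
    change G x * H x = G y * H y
    rw [hG x y (Ideal.mul_le_left hxy), hH x y (Ideal.mul_le_right hxy)]
  have h2 : G (Quotient.out (Ideal.Quotient.mk (I * J) s)) *
      H (Quotient.out (Ideal.Quotient.mk (I * J) s)) = G s * H s := h1.out s
  change G (Quotient.out (Ideal.Quotient.mk (I * J) s)) *
      H (Quotient.out (Ideal.Quotient.mk (I * J) s)) =
    G (Quotient.out (Ideal.Quotient.mk I s)) * H (Quotient.out (Ideal.Quotient.mk J s))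
  rw [h2, hG.out, hH.out]

lemma SQ_top {f : 𝓞 K → ℂ} (hf : PerI ⊤ f) : SQ ⊤ f = f 0 := by
  unfold SQ
  rw [finsum_eq_single _ (Ideal.Quotient.mk ⊤ 0)]
  · exact hf.out 0
  · intro r hr
    exfalso
    apply hr
    obtain ⟨s, rfl⟩ := Ideal.Quotient.mk_surjective r
    rw [Ideal.Quotient.eq]
    exact Submodule.mem_top

/-- Bezout with a positive coefficient -/
lemma bezout_pos {p m : ℕ} (hm : 0 < m) (h : Nat.Coprime p m) :
    ∃ (a : ℕ) (b : ℤ), 0 < a ∧ (a : ℤ) * p + b * m = 1 := by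
  obtain ⟨u, v, huv⟩ := Nat.isCoprime_iff_coprime.mpr h
  have h1 : 0 < u + (|u| + 1) * (m : ℤ) := by
    have h2 : (1 : ℤ) ≤ m := by exact_mod_cast hm
    have h3 : -|u| ≤ u := neg_abs_le u
    nlinarith [abs_nonneg u]
  refine ⟨(u + (|u| + 1) * (m : ℤ)).toNat, v - (|u| + 1) * p, ?_, ?_⟩
  · exact Int.lt_toNat.mpr (by simpa using h1)
  · rw [Int.toNat_of_nonneg h1.le]
    linear_combination huv

end crt

/-! ### the two factors -/

section factors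

variable {K : Type} [Field K] [NumberField K] [IsTotallyReal K] (S : RQ K)

/-- the factor modulo `q` -/
lemma second {q : ℕ} [NeZero q] {χ : Ideal (𝓞 K) →*₀ ℂ} (hq : 2 ≤ q) (h : IsPr q χ) {y0 : 𝓞 K}
    (hy : Cop q (Ideal.span {y0})) {b c : ℤ} (hb : (q : ℤ) ∣ b * c - 1) :
    χ (Ideal.span {y0}) * SQ (Ideal.span {(q : 𝓞 K)}) (fun r => χ (Ideal.span {r}) *
      ZMod.stdAddChar ((b * cB S (y0 * r) : ℤ) : ZMod q)) = q := by
  have hne : Ideal.span {(q : 𝓞 K)} ≠ ⊥ := span_m_ne_bot (by omega)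
  have hbc : (b : 𝓞 K) * (c : 𝓞 K) - 1 ∈ Ideal.span {(q : 𝓞 K)} := by
    obtain ⟨t, ht⟩ := hb
    rw [Ideal.mem_span_singleton]
    refine ⟨(t : 𝓞 K), ?_⟩
    have := congrArg (fun s : ℤ => (s : 𝓞 K)) ht
    push_cast at this
    exact this
  obtain ⟨v, hv⟩ := inv_of_cop hy
  have huv : ((b : 𝓞 K) * y0) * (v * (c : 𝓞 K)) - 1 ∈ Ideal.span {(q : 𝓞 K)} := by
    have h1 : ((b : 𝓞 K) * y0) * (v * (c : 𝓞 K)) - 1 =
        ((b : 𝓞 K) * c) * (y0 * v - 1) + ((b : 𝓞 K) * (c : 𝓞 K) - 1) := by ring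
    rw [h1]
    exact add_mem (Ideal.mul_mem_left _ _ hv) hbc
  have h1 := SQ_unit (ff_per S hq h.toIsRC (1 : ZMod q)) huv
  rw [HH_one S hq h] at h1
  rw [← h1, ← SQ_const_mul hne]
  refine SQ_congr fun r => ?_
  unfold ff
  have e1 : (b : 𝓞 K) * y0 * r = (b : 𝓞 K) * (y0 * r) := by ring
  rw [e1, span_mul, span_mul, RC_nat h.toIsRC hbc, (c_int_mul S _ _).2, one_mul, one_mul]
  ring

open Classical in
/-- the function `ψ₀((r)) sg(r)`, with the right value at `0` -/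
noncomputable def gg (𝔣₀ : Ideal (𝓞 K)) (a : ℕ) (ψ₀ : Ideal (𝓞 K) →*₀ ℂ) (r : 𝓞 K) : ℂ :=
  if 𝔣₀ = ⊤ then 1 else Ps ψ₀ (fun _ => a) ⊤ r

variable {S} {𝔣₀ : Ideal (𝓞 K)} {a : ℕ} {ψ₀ : Ideal (𝓞 K) →*₀ ℂ}

lemma base_mod (hB : Base S 𝔣₀ a ψ₀) (ht : 𝔣₀ ≠ ⊤) : IsModChar 𝔣₀ (fun _ => a) ψ₀ where
  ne_bot := hB.ne_bot
  ne_top := ht
  sig_le := fun _ => hB.le_one
  supp := by
    intro 𝔞
    by_cases h : 𝔞 = ⊥
    · subst h
      constructor
      · intro h1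
        exact absurd (map_zero ψ₀) h1
      · intro h1
        rw [Ideal.isCoprime_iff_sup_eq, bot_sup_eq] at h1
        exact absurd h1 ht
    · exact hB.supp 𝔞 h
  sig := hB.sig

lemma gg_per (hB : Base S 𝔣₀ a ψ₀) : PerI 𝔣₀ (gg 𝔣₀ a ψ₀) := by
  intro x y hxy
  unfold gg
  split_ifs with ht
  · rfl
  · exact (base_mod hB ht).perI (𝔟 := ⊤) top_ne_bot x y (by rwa [Ideal.top_mul])

lemma Ps_top (η : Ideal (𝓞 K) →*₀ ℂ) (e : InfinitePlace K → ℕ) (r : 𝓞 K) :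
    Ps η e ⊤ r = η (Ideal.span {r}) * sg e (r : K) := Ps_of_eq top_ne_bot (Ideal.mul_top _)

lemma gg_eq (hB : Base S 𝔣₀ a ψ₀) {r : 𝓞 K} (hr : r ≠ 0) :
    gg 𝔣₀ a ψ₀ r = ψ₀ (Ideal.span {r}) * sg (fun _ => a) (r : K) := by
  unfold gg
  split_ifs with ht
  · rw [hB.sig r hr (by rw [ht]; exact Submodule.mem_top), sg_sq _ (by exact_mod_cast hr)]
  · exact Ps_top _ _ _

lemma gg_nat (hB : Base S 𝔣₀ a ψ₀) {n : ℕ} (hn : 0 < n) (r : 𝓞 K) :
    gg 𝔣₀ a ψ₀ ((n : 𝓞 K) * r) = ψ₀ (Ideal.span {(n : 𝓞 K)}) * gg 𝔣₀ a ψ₀ r := by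
  have hcast : (((n : ℕ) : 𝓞 K) : K) = (n : K) := map_natCast (algebraMap (𝓞 K) K) n
  unfold gg
  split_ifs with ht
  · have hn0 : ((n : ℕ) : 𝓞 K) ≠ 0 := by exact_mod_cast hn.ne'
    rw [hB.sig _ hn0 (by rw [ht]; exact Submodule.mem_top), hcast, sg_natCast _ hn, mul_one]
  · rw [Ps_top, Ps_top, span_mul]
    have e3 : (((n : 𝓞 K) * r : 𝓞 K) : K) = (n : K) * (r : K) := by
      refine (map_mul (algebraMap (𝓞 K) K) _ _).trans ?_
      rw [map_natCast]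
    rw [e3, sg_mul, sg_natCast _ hn, one_mul]
    ring

end factors

end Gs

open Gs in
theorem t_gauss (_hc : S_conj) (_hi : S_inv) (_hm : S_mod) : S_gauss := by
  classical
  intro K _ _ _ S 𝔣₀ a ψ₀ hB hfr
  obtain ⟨D, hD0, hD⟩ := exists_D S
  have hdl0 : dl S ≠ 0 := by
    intro h
    rw [h, mul_zero] at hD
    exact hD0.ne' (by exact_mod_cast hD)
  set m0 : ℕ := Ideal.absNorm 𝔣₀ with hm0def
  have hm0 : 0 < m0 := Nat.pos_of_ne_zero (fun h1 => hB.ne_bot (Ideal.absNorm_eq_zero_iff.mp h1))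
  have hm0mem : (m0 : 𝓞 K) ∈ 𝔣₀ := Ideal.absNorm_mem _
  have hm0ne : Ideal.span {(m0 : 𝓞 K)} ≠ ⊥ := span_m_ne_bot hm0
  obtain ⟨𝔪, h𝔪⟩ := mem_iff_exists_mul.mp hm0mem
  have h𝔪ne : 𝔪 ≠ ⊥ := by
    rintro rfl
    rw [Ideal.bot_mul] at h𝔪
    exact hm0ne h𝔪.symm
  have h2ne : Ideal.span {((2 : ℕ) : 𝓞 K)} ≠ ⊥ := span_m_ne_bot (by norm_num)
  have hgne : 𝔣₀ * Ideal.span {((2 : ℕ) : 𝓞 K)} ≠ ⊥ := mul_ne_zero hB.ne_bot h2ne
  obtain ⟨y0, hy0⟩ := IsDedekindDomain.exists_sup_span_eq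
    (I := 𝔪 * (𝔣₀ * Ideal.span {((2 : ℕ) : 𝓞 K)})) (J := 𝔪) Ideal.mul_le_left
    (mul_ne_zero h𝔪ne hgne)
  have hy𝔪 : y0 ∈ 𝔪 := by
    rw [← hy0]
    exact Ideal.mem_sup_right (Ideal.mem_span_singleton_self y0)
  obtain ⟨𝔠, h𝔠⟩ := mem_iff_exists_mul.mp hy𝔪
  have hcop0 : IsCoprime 𝔠 (𝔣₀ * Ideal.span {((2 : ℕ) : 𝓞 K)}) := by
    rw [Ideal.isCoprime_iff_sup_eq]
    have h1 : 𝔪 * (𝔠 ⊔ 𝔣₀ * Ideal.span {((2 : ℕ) : 𝓞 K)}) = 𝔪 * ⊤ := by
      rw [Ideal.mul_sup, mul_comm 𝔪 𝔠, h𝔠, sup_comm, hy0, Ideal.mul_top]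
    exact mul_left_cancel₀ h𝔪ne h1
  have hcop : IsCoprime 𝔠 𝔣₀ := IsCoprime.of_mul_right_left hcop0
  have h𝔠ne : 𝔠 ≠ ⊥ := by
    rintro rfl
    rw [Ideal.isCoprime_iff_sup_eq, bot_sup_eq] at hcop0
    have h1 := congrArg Ideal.absNorm hcop0
    rw [map_mul, absNorm_span_nat, hfr, Ideal.absNorm_top] at h1
    have := Nat.eq_one_of_mul_eq_one_left h1
    omega
  have hy0ne : y0 ≠ 0 := by
    rintro rfl
    rw [Ideal.span_singleton_eq_bot.mpr rfl] at h𝔠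
    exact mul_ne_zero h𝔠ne h𝔪ne h𝔠
  have hψ𝔠 : ψ₀ 𝔠 ≠ 0 := (hB.supp 𝔠 h𝔠ne).mpr hcop
  set x0 : 𝓞 K := dl S * y0 with hx0
  have hx0ne : x0 ≠ 0 := mul_ne_zero hdl0 hy0ne
  have hsg0 : sg (fun _ : InfinitePlace K => a) (x0 : K) ≠ 0 := by
    intro h
    have := sg_sq (fun _ : InfinitePlace K => a) (x := (x0 : K)) (by exact_mod_cast hx0ne)
    rw [h, mul_zero] at this
    exact zero_ne_one this
  have htr : ∀ r, Algebra.trace ℤ (𝓞 K) (x0 * r) = D * cB S (y0 * r) := by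
    intro r
    rw [hx0, mul_assoc, trace_dl S hD]
  set f₂ : 𝓞 K → ℂ := fun r => gg 𝔣₀ a ψ₀ r * ee (m0 * D) (x0 * r) with hf₂
  have hper : PerI (Ideal.span {(m0 : 𝓞 K)}) f₂ := by
    intro r r' hrr
    have h1 : gg 𝔣₀ a ψ₀ r = gg 𝔣₀ a ψ₀ r' :=
      gg_per hB r r' ((Ideal.span_singleton_le_iff_mem _).mpr hm0mem hrr)
    have h2 : ee (m0 * D) (x0 * r) = ee (m0 * D) (x0 * r') := by
      refine ee_sub_eq (Nat.mul_pos hm0 hD0) ?_
      obtain ⟨t, ht⟩ := Ideal.mem_span_singleton.mp hrr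
      rw [← mul_sub, htr, ht]
      have e3 : y0 * ((m0 : 𝓞 K) * t) = ((m0 : ℤ) : 𝓞 K) * (y0 * t) := by
        push_cast
        ring
      rw [e3, (c_int_mul S _ _).2]
      push_cast
      exact ⟨cB S (y0 * t), by ring⟩
    rw [hf₂]
    simp only
    rw [h1, h2]
  set F0 : ℂ := SQ (Ideal.span {(m0 : 𝓞 K)}) f₂ with hF0
  have hNy : 0 < (Algebra.norm ℤ y0).natAbs := by
    rw [Int.natAbs_pos]
    exact Algebra.norm_ne_zero_iff.mpr hy0ne
  have hm0C : (m0 : ℂ) ≠ 0 := by exact_mod_cast hm0.ne'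
  refine ⟨F0 / (m0 * (starRingEnd ℂ) (ψ₀ 𝔠) * sg (fun _ : InfinitePlace K => a) (x0 : K)),
    m0 * (Algebra.norm ℤ y0).natAbs, Nat.mul_pos hm0 hNy, ?_, ?_⟩
  · -- the trivial conductor
    intro ht ha
    have hm1 : m0 = 1 := by rw [hm0def, ht, Ideal.absNorm_top]
    have htop : Ideal.span {(m0 : 𝓞 K)} = ⊤ := by
      rw [hm1, Nat.cast_one, Ideal.span_singleton_one]
    have h𝔪t : 𝔪 = ⊤ := by
      rw [ht, Ideal.mul_top, htop] at h𝔪
      exact h𝔪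
    have h1 : F0 = 1 := by
      rw [hF0]
      rw [htop] at hper ⊢
      rw [SQ_top hper, hf₂]
      simp only
      rw [mul_zero, (ee_eq_one_iff (Nat.mul_pos hm0 hD0) 0).mpr (by rw [map_zero]; exact dvd_zero _)]
      unfold gg
      rw [if_pos ht, mul_one]
    have h2 : ψ₀ 𝔠 = 1 := by
      rw [h𝔪t, Ideal.mul_top] at h𝔠
      rw [h𝔠, hB.sig y0 hy0ne (by rw [ht]; exact Submodule.mem_top), ha, sg_zero]
    rw [h1, h2, ha, sg_zero, hm1, map_one, Nat.cast_one]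
    norm_num
  · intro q χ hq hqN hχ τ hτ
    have hq0 : 0 < q := by omega
    have : NeZero q := ⟨hq0.ne'⟩
    have hqC : (q : ℂ) ≠ 0 := by exact_mod_cast hq0.ne'
    have hqm : Nat.Coprime q m0 := Nat.Coprime.coprime_mul_right_right hqN
    have hqy : Nat.Coprime q (Ideal.absNorm (Ideal.span {y0})) := by
      rw [Ideal.absNorm_span_singleton]
      exact Nat.Coprime.coprime_mul_left_right hqN
    have hyc : Cop q (Ideal.span {y0}) := cop_norm hqy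
    have hcc : Cop q 𝔠 := by
      have h1 : IsCoprime (𝔠 * 𝔪) (Ideal.span {(q : 𝓞 K)}) := by
        rw [h𝔠]
        exact hyc
      exact IsCoprime.of_mul_left_left h1
    have hmod := chi_mod hq hχ.toIsRC
    obtain ⟨a', b, ha0, hab⟩ := bezout_pos hm0 hqm
    have hb : (q : ℤ) ∣ b * (m0 : ℤ) - 1 := ⟨-(a' : ℤ), by linear_combination hab⟩
    have habK : ((a' * q : ℕ) : 𝓞 K) - 1 = (m0 : 𝓞 K) * (-b) := by
      have := congrArg (fun k : ℤ => (k : 𝓞 K)) hab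
      push_cast at this ⊢
      linear_combination this
    -- values of the characters
    have hχm : χ (Ideal.span {(m0 : 𝓞 K)}) = 1 := by
      have h1 : ((m0 : ℤ) : 𝓞 K) * (b : 𝓞 K) - 1 ∈ Ideal.span {(q : 𝓞 K)} := by
        obtain ⟨t, ht⟩ := hb
        rw [Ideal.mem_span_singleton]
        refine ⟨(t : 𝓞 K), ?_⟩
        have := congrArg (fun s : ℤ => (s : 𝓞 K)) ht
        push_cast at this ⊢
        linear_combination this
      have := RC_nat hχ.toIsRC h1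
      push_cast at this
      exact this
    have hχ𝔠 : χ 𝔠 = χ (Ideal.span {y0}) * χ 𝔣₀ := by
      rw [← h𝔠, map_mul]
      rw [← h𝔪, map_mul] at hχm
      linear_combination -(χ 𝔠) * hχm
    have hnorm : ‖χ 𝔠‖ = 1 := hmod.norm_eq_one hcc
    have hχc0 : χ 𝔠 ≠ 0 := (hχ.supp 𝔠).mpr hcc
    have hχy0 : χ (Ideal.span {y0}) ≠ 0 := (hχ.supp _).mpr hyc
    have hχf0 : χ 𝔣₀ ≠ 0 := fun h => hχc0 (by rw [hχ𝔠, h, mul_zero])
    have hconj : (starRingEnd ℂ) (χ 𝔠) = (χ 𝔠)⁻¹ := by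
      refine eq_inv_of_mul_eq_one_left ?_
      rw [mul_comm, Complex.mul_conj, Complex.normSq_eq_norm_sq, hnorm]
      simp
    have hψaq : ψ₀ (Ideal.span {(a' : 𝓞 K)}) * ψ₀ (Ideal.span {(q : 𝓞 K)}) = 1 := by
      have hne : ((a' * q : ℕ) : 𝓞 K) ≠ 0 := by exact_mod_cast (Nat.mul_pos ha0 hq0).ne'
      have h1 := hB.sig ((a' * q : ℕ) : 𝓞 K) hne (by
        rw [habK]
        exact Ideal.mul_mem_right _ _ hm0mem)
      have h3 : ((((a' * q : ℕ) : 𝓞 K)) : K) = ((a' * q : ℕ) : K) :=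
        map_natCast (algebraMap (𝓞 K) K) _
      rw [h3, sg_natCast _ (Nat.mul_pos ha0 hq0)] at h1
      rw [← map_mul, Ideal.span_singleton_mul_span_singleton, ← h1]
      push_cast
      rfl
    -- the definition of the Gauss sum
    have hcond : ∀ r : 𝓞 K, (D : ℤ) ∣ Algebra.trace ℤ (𝓞 K) (x0 * r) := fun r =>
      ⟨_, htr r⟩
    have hbne : 𝔪 * Ideal.span {dl S} ≠ ⊥ := mul_ne_zero h𝔪ne (by
      rw [Ne, Ideal.zero_eq_bot, Ideal.span_singleton_eq_bot]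
      exact hdl0)
    have e1 := hτ ⊤ (𝔪 * Ideal.span {dl S}) (m0 * q) D (Nat.mul_pos hm0 hq0) hD0 (by
      have h1 : ((m0 * q * D : ℕ) : 𝓞 K) = (m0 : 𝓞 K) * (q : 𝓞 K) * (dl S * dl S) := by
        push_cast
        rw [hD]
      rw [h1, ← Ideal.span_singleton_mul_span_singleton, ← Ideal.span_singleton_mul_span_singleton,
        ← Ideal.span_singleton_mul_span_singleton, ← h𝔪, Ideal.top_mul, S.diff]
      change 𝔪 * Ideal.span {dl S} * (𝔣₀ * Ideal.span {(q : 𝓞 K)} * Ideal.span {dl S}) = _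
      ring) (by
      rw [Ideal.top_mul]
      push_cast
      exact Ideal.mul_mem_mul hm0mem (Ideal.mem_span_singleton_self _)) (by
      rw [S.diff, hD]
      exact Ideal.mul_mem_left _ _ (Ideal.mem_span_singleton_self _)) x0
    rw [FT_eq_SQ hcond] at e1
    have hx𝔟 : 𝔠 * (𝔪 * Ideal.span {dl S}) = Ideal.span {x0} := by
      rw [← mul_assoc, h𝔠, Ideal.span_singleton_mul_span_singleton, hx0, mul_comm]
    rw [Ps_of_eq hbne hx𝔟] at e1
    -- the product decomposition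
    have hHper : PerI (Ideal.span {(q : 𝓞 K)}) (fun r => χ (Ideal.span {r}) *
        ZMod.stdAddChar ((b * cB S (y0 * r) : ℤ) : ZMod q)) := by
      intro r r' hrr
      have h1 : χ (Ideal.span {r}) = χ (Ideal.span {r'}) := chi_per hq hχ.toIsRC r r' hrr
      have h2 : ((cB S (y0 * r) : ℤ) : ZMod q) = ((cB S (y0 * r') : ℤ) : ZMod q) :=
        cB_congr S (by rw [← mul_sub]; exact Ideal.mul_mem_left _ _ hrr)
      simp only
      push_cast
      rw [h1, h2]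
    have hfa : PerI (Ideal.span {(m0 : 𝓞 K)}) (fun r => f₂ ((a' : 𝓞 K) * r)) := by
      intro r r' hrr
      exact hper _ _ (by rw [← mul_sub]; exact Ideal.mul_mem_left _ _ hrr)
    have hIJ : IsCoprime (Ideal.span {(m0 : 𝓞 K)}) (Ideal.span {(q : 𝓞 K)}) := by
      rw [Ideal.isCoprime_span_singleton_iff]
      have h1 : IsCoprime (m0 : ℤ) (q : ℤ) := Nat.isCoprime_iff_coprime.mpr hqm.symm
      have h2 := h1.map (Int.castRingHom (𝓞 K))
      simpa using h2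
    have hL : Ideal.span {((m0 * q : ℕ) : 𝓞 K)} =
        Ideal.span {(m0 : 𝓞 K)} * Ideal.span {(q : 𝓞 K)} := by
      rw [Ideal.span_singleton_mul_span_singleton]
      push_cast
      rfl
    have hqne : Ideal.span {(q : 𝓞 K)} ≠ ⊥ := span_m_ne_bot hq0
    have hLne : Ideal.span {((m0 * q : ℕ) : 𝓞 K)} ≠ ⊥ := span_m_ne_bot (Nat.mul_pos hm0 hq0)
    have e3 := SQ_crt hm0ne hqne hIJ hL hfa hHper
    have haq : (a' : 𝓞 K) * (q : 𝓞 K) - 1 ∈ Ideal.span {(m0 : 𝓞 K)} := by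
      have h1 : (a' : 𝓞 K) * (q : 𝓞 K) - 1 = (m0 : 𝓞 K) * (-b) := by
        rw [← habK]
        push_cast
        rfl
      rw [h1]
      exact Ideal.mul_mem_right _ _ (Ideal.mem_span_singleton_self _)
    rw [SQ_unit hper haq] at e3
    have hee : ∀ r, ee (m0 * q * D) (x0 * r) = ee (m0 * D) (x0 * ((a' : 𝓞 K) * r)) *
        ZMod.stdAddChar ((b * cB S (y0 * r) : ℤ) : ZMod q) := by
      intro r
      have h1 : y0 * ((a' : 𝓞 K) * r) = ((a' : ℤ) : 𝓞 K) * (y0 * r) := by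
        push_cast
        ring
      unfold ee
      rw [ZMod.stdAddChar_coe, ← Complex.exp_add, htr, htr, h1, (c_int_mul S _ _).2]
      congr 1
      have hDC : (D : ℂ) ≠ 0 := by exact_mod_cast hD0.ne'
      have habC : (a' : ℂ) * q + b * m0 = 1 := by exact_mod_cast hab
      push_cast
      field_simp
      linear_combination (-(cB S (y0 * r) : ℂ)) * habC
    have e4 : ψ₀ (Ideal.span {(a' : 𝓞 K)}) * SQ (Ideal.span {((m0 * q : ℕ) : 𝓞 K)})
        (fun r => Ps (pr ψ₀ χ) (fun _ => a) ⊤ r * ee (m0 * q * D) (x0 * r)) =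
        SQ (Ideal.span {((m0 * q : ℕ) : 𝓞 K)}) (fun s => f₂ ((a' : 𝓞 K) * s) *
          (χ (Ideal.span {s}) * ZMod.stdAddChar ((b * cB S (y0 * s) : ℤ) : ZMod q))) := by
      rw [← SQ_const_mul hLne]
      refine SQ_congr fun r => ?_
      rw [hee, Ps_top, hf₂]
      simp only
      rw [gg_nat hB ha0]
      change ψ₀ (Ideal.span {(a' : 𝓞 K)}) * (ψ₀ (Ideal.span {r}) * χ (Ideal.span {r}) *
        sg (fun _ => a) (r : K) * _) = _
      by_cases hr : r = 0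
      · have h1 : χ (Ideal.span {r}) = 0 := by
          rw [hr, Ideal.span_singleton_eq_bot.mpr rfl, ← Ideal.zero_eq_bot, map_zero]
        rw [h1]
        ring
      · rw [gg_eq hB hr]
        ring
    have e5 := second S hq hχ hyc hb
    rw [e1, e3] at e4
    -- the final computation
    have hN1 : Ideal.absNorm (⊤ : Ideal (𝓞 K)) = 1 := Ideal.absNorm_top
    have hN2 : Ideal.absNorm (𝔣₀ * Ideal.span {(q : 𝓞 K)}) = m0 * q ^ 2 := by
      rw [map_mul, absNorm_span_nat, hfr]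
    rw [hN1, hN2, hfr] at e4
    have hpr : (starRingEnd ℂ) (pr ψ₀ χ 𝔠 * sg (fun _ : InfinitePlace K => a) (x0 : K)) =
        (starRingEnd ℂ) (ψ₀ 𝔠) * (χ 𝔠)⁻¹ * sg (fun _ : InfinitePlace K => a) (x0 : K) := by
      change (starRingEnd ℂ) ((ψ₀ 𝔠 * χ 𝔠) * sg (fun _ : InfinitePlace K => a) (x0 : K)) = _
      rw [map_mul, map_mul, conj_sg, hconj]
    rw [hpr, hχ𝔠] at e4
    have hz0 : (starRingEnd ℂ) (ψ₀ 𝔠) ≠ 0 := by
      rw [Ne, map_eq_zero]
      exact hψ𝔠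
    generalize (starRingEnd ℂ) (ψ₀ 𝔠) = z at e4 hz0 ⊢
    generalize sg (fun _ : InfinitePlace K => a) (x0 : K) = w at e4 hsg0 ⊢
    generalize SQ (Ideal.span {(q : 𝓞 K)}) (fun r => χ (Ideal.span {r}) *
        ZMod.stdAddChar ((b * cB S (y0 * r) : ℤ) : ZMod q)) = T at e4 e5
    generalize ψ₀ (Ideal.span {(a' : 𝓞 K)}) = α at e4 hψaq
    generalize ψ₀ (Ideal.span {(q : 𝓞 K)}) = β at e4 hψaq ⊢
    generalize χ (Ideal.span {y0}) = γ at e4 e5 hχy0
    generalize χ 𝔣₀ = κ at e4 hχf0 ⊢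
    rw [div_mul_eq_mul_div, div_mul_eq_mul_div, div_mul_eq_mul_div, eq_div_iff
      (mul_ne_zero (mul_ne_zero hm0C hz0) hsg0)]
    push_cast at e4
    have e6 : α * (τ * m0 * z * w) = F0 * q * κ := by
      have h1 : α * (τ * ((↑m0 * ↑q) ^ 2 / (1 * (↑m0 * ↑q ^ 2))) * (z * (γ * κ)⁻¹ * w)) * (γ * κ) =
          F0 * T * (γ * κ) := by rw [e4]
      have h2 : α * (τ * ((↑m0 * ↑q) ^ 2 / (1 * (↑m0 * ↑q ^ 2))) * (z * (γ * κ)⁻¹ * w)) * (γ * κ) =
          α * (τ * m0 * z * w) := by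
        field_simp
      rw [← h2, h1]
      linear_combination F0 * κ * e5
    linear_combination (β : ℂ) * e6 - (τ * m0 * z * w) * hψaq

end Pool.Agent.NH12.RS
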