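import Pool.Agent.NH12.RS.Mod

/-! # The conductor of a self-dual character is invariant under the conjugation -/

set_option autoImplicit false
set_option linter.unusedSectionVars false

open NumberField Complex

namespace Pool.Agent.NH12.RS

open Pool.Agent.Y773 (TPos IsPrimChar IsModChar LI sg Ps FT rl)
open Pool.Agent.NH12.RS.Md

lemma Md.tpos_conj {K : Type} [Field K] [NumberField K] (S : RQ K) {x : 𝓞 K} (h : TPos K x) :
    TPos K (S.σ x) := by
  intro τ
  let g : 𝓞 K →+* ℝ := (τ.comp (algebraMap (𝓞 K) K)).comp (S.σ : 𝓞 K →+* 𝓞 K)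
  have hg : Function.Injective g := by
    intro a b hab
    have h1 : Function.Injective (algebraMap (𝓞 K) K) := IsFractionRing.injective (𝓞 K) K
    exact S.σ.injective (h1 (τ.injective hab))
  have h1 := h (IsFractionRing.lift hg)
  have h2 : IsFractionRing.lift hg (x : K) = g x := IsFractionRing.lift_algebraMap hg x
  rw [h2] at h1
  exact h1

theorem t_inv (_hc : S_conj) : S_inv := by
  intro K _ _ _ S 𝔣₀ a ψ₀ hB
  have hle : S.cj 𝔣₀ ≤ 𝔣₀ := by
    by_contra hcon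
    have hne : 𝔣₀ ⊔ S.cj 𝔣₀ ≠ 𝔣₀ := fun h => hcon (le_trans le_sup_right h.le)
    have hdv : (𝔣₀ ⊔ S.cj 𝔣₀) ∣ 𝔣₀ := Ideal.dvd_iff_le.mpr le_sup_left
    obtain ⟨x, hx1, hx2, hx3, hx4⟩ := hB.prim (𝔣₀ ⊔ S.cj 𝔣₀) hdv hne
    obtain ⟨u, hu, v, hv, huv⟩ := Submodule.mem_sup.mp hx1
    have hcb : S.cj 𝔣₀ ≠ ⊥ := by
      intro h0
      apply hB.ne_bot
      rw [← cj_cj S 𝔣₀, h0]
      exact Ideal.map_bot
    obtain ⟨z, hz1, hz2⟩ := exists_tpos (mul_ne_zero hB.ne_bot hcb) (1 + v)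
    have hz3 : z - x ∈ 𝔣₀ := by
      have : z - x = (z - (1 + v)) - u := by linear_combination huv
      rw [this]
      exact sub_mem (Ideal.mul_le_left hz1) hu
    have hz4 : z - 1 ∈ S.cj 𝔣₀ := by
      have : z - 1 = (z - (1 + v)) + v := by ring
      rw [this]
      exact add_mem (Ideal.mul_le_right hz1) hv
    have hz5 : S.σ z - 1 ∈ 𝔣₀ := by
      have := (mem_cj S).mp hz4
      rwa [map_sub, map_one] at this
    obtain ⟨σ⟩ := real_hom (K := K)
    have hz6 := Md.tpos_conj S hz2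
    have h1 := hB.sig (S.σ z) (tpos_ne hz6 σ) hz5
    rw [sg_tpos hz6, ← cj_span, hB.self] at h1
    have h2 := congrArg (starRingEnd ℂ) h1
    rw [Complex.conj_conj, map_one, psi_congr hB hz2 hx2 hz3 hx3] at h2
    exact hx4 h2
  apply le_antisymm hle
  calc 𝔣₀ = S.cj (S.cj 𝔣₀) := (cj_cj S 𝔣₀).symm
    _ ≤ S.cj 𝔣₀ := Ideal.map_mono hle

end Pool.Agent.NH12.RS
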