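import Pool.Agent.NH12.RS.Stm
import Pool.Agent.Helper51.Moser.LFunPartial

/-! Project RS, part MAIN: the main term. -/

set_option autoImplicit false

namespace Pool.Agent.NH12.RS.MainT

open Finset Filter Topology

/-! ## the values of `κ` -/

section kappa

variable {f : ℕ} {κ : ℕ → ℝ}

lemma per_mul (hper : ∀ n, κ (n + f) = κ n) (n k : ℕ) : κ (n + f * k) = κ n := by
  induction k with
  | zero => simp
  | succ k ih =>
    have h : n + f * (k + 1) = (n + f * k) + f := by ring
    rw [h, hper, ih]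

lemma per_mod (hper : ∀ n, κ (n + f) = κ n) (n : ℕ) : κ (n % f) = κ n := by
  have h := per_mul hper (n % f) (n / f)
  rw [Nat.mod_add_div] at h
  exact h.symm

lemma per_congr (hper : ∀ n, κ (n + f) = κ n) {a b : ℕ} (h : a % f = b % f) : κ a = κ b := by
  rw [← per_mod hper a, ← per_mod hper b, h]

lemma pow_eq (h1 : κ 1 = 1) (hmul : ∀ m n, κ (m * n) = κ m * κ n) (n k : ℕ) :
    κ (n ^ k) = κ n ^ k := by
  induction k with
  | zero => simp [h1]
  | succ k ih => rw [pow_succ, hmul, ih, pow_succ]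

lemma kabs (hf : 0 < f) (h1 : κ 1 = 1) (hmul : ∀ m n, κ (m * n) = κ m * κ n)
    (hper : ∀ n, κ (n + f) = κ n) {n : ℕ} (hn : Nat.Coprime n f) : |κ n| = 1 := by
  have h2 : κ (n ^ Nat.totient f) = κ 1 := by
    apply per_congr hper
    exact Nat.ModEq.pow_totient hn
  rw [pow_eq h1 hmul, h1] at h2
  have h3 : |κ n| ^ Nat.totient f = 1 := by rw [← abs_pow, h2, abs_one]
  exact (pow_eq_one_iff_of_nonneg (abs_nonneg _) (Nat.totient_pos.2 hf).ne').1 h3

lemma abs_le_one' (hf : 0 < f) (h1 : κ 1 = 1) (hmul : ∀ m n, κ (m * n) = κ m * κ n)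
    (hper : ∀ n, κ (n + f) = κ n) (hne : ∀ n, κ n ≠ 0 ↔ Nat.Coprime n f) (n : ℕ) :
    |κ n| ≤ 1 := by
  by_cases hn : Nat.Coprime n f
  · exact (kabs hf h1 hmul hper hn).le
  · have : κ n = 0 := by
      by_contra h
      exact hn ((hne n).1 h)
    rw [this, abs_zero]
    exact zero_le_one

/-- the Dirichlet character -/
noncomputable def chi (hf : 0 < f) (h1 : κ 1 = 1) (hmul : ∀ m n, κ (m * n) = κ m * κ n)
    (hper : ∀ n, κ (n + f) = κ n) (hne : ∀ n, κ n ≠ 0 ↔ Nat.Coprime n f) :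
    DirichletCharacter ℂ f where
  toFun a := (κ a.val : ℂ)
  map_one' := by
    have hz : NeZero f := ⟨hf.ne'⟩
    have h2 : κ (1 : ZMod f).val = κ 1 := by
      apply per_congr hper
      rw [ZMod.val_one_eq_one_mod, Nat.mod_mod]
    rw [h2, h1, Complex.ofReal_one]
  map_mul' a b := by
    have hz : NeZero f := ⟨hf.ne'⟩
    have h2 : κ (a * b).val = κ (a.val * b.val) := by
      apply per_congr hper
      rw [ZMod.val_mul, Nat.mod_mod]
    rw [h2, hmul, Complex.ofReal_mul]
  map_nonunit' a ha := by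
    have hz : NeZero f := ⟨hf.ne'⟩
    by_contra h
    apply ha
    have h2 : κ a.val ≠ 0 := by
      intro h3
      exact h (by rw [h3, Complex.ofReal_zero])
    have h3 := (hne _).1 h2
    rw [← ZMod.natCast_zmod_val a]
    exact (ZMod.isUnit_iff_coprime _ _).2 h3

lemma chi_apply (hf : 0 < f) (h1 : κ 1 = 1) (hmul : ∀ m n, κ (m * n) = κ m * κ n)
    (hper : ∀ n, κ (n + f) = κ n) (hne : ∀ n, κ n ≠ 0 ↔ Nat.Coprime n f) (n : ℕ) :
    chi hf h1 hmul hper hne (n : ZMod f) = (κ n : ℂ) := by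
  have hz : NeZero f := ⟨hf.ne'⟩
  have h2 : κ ((n : ZMod f)).val = κ n := by
    apply per_congr hper
    rw [ZMod.val_natCast, Nat.mod_mod]
  change ((κ ((n : ZMod f)).val : ℝ) : ℂ) = _
  rw [h2]

/-- the set of the nonnegative real numbers in `ℂ` -/
lemma closed_nonneg : IsClosed {z : ℂ | 0 ≤ z.re ∧ z.im = 0} :=
  (isClosed_le continuous_const Complex.continuous_re).inter
    (isClosed_eq Complex.continuous_im continuous_const)

lemma L_nonneg [NeZero f] (hf : 0 < f) (h1 : κ 1 = 1) (hmul : ∀ m n, κ (m * n) = κ m * κ n)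
    (hper : ∀ n, κ (n + f) = κ n) (hne : ∀ n, κ n ≠ 0 ↔ Nat.Coprime n f)
    (hχ : chi hf h1 hmul hper hne ≠ 1) :
    0 ≤ (DirichletCharacter.LFunction (chi hf h1 hmul hper hne) 1).re := by
  set χ := chi hf h1 hmul hper hne with hχd
  -- nonnegative for real `s > 1`
  have hs : ∀ s : ℝ, 1 < s → 0 ≤ (DirichletCharacter.LFunction χ (s : ℂ)).re := by
    intro s hs
    have hs' : 1 < ((s : ℂ)).re := by simpa using hs
    have hp := DirichletCharacter.LSeries_eulerProduct_hasProd χ hs'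
    rw [← DirichletCharacter.LFunction_eq_LSeries χ hs'] at hp
    have hmem : ∀ T : Finset Nat.Primes,
        (∏ p ∈ T, (1 - χ (p : ℕ) * ((p : ℕ) : ℂ) ^ (-(s : ℂ)))⁻¹) ∈
          {z : ℂ | 0 ≤ z.re ∧ z.im = 0} := by
      intro T
      have h3 : ∀ p : Nat.Primes, (1 - χ (p : ℕ) * ((p : ℕ) : ℂ) ^ (-(s : ℂ)))⁻¹ =
          (((1 - κ p * ((p : ℕ) : ℝ) ^ (-s))⁻¹ : ℝ) : ℂ) := by
        intro p
        have h4 : (((p : ℕ) : ℂ)) ^ (-(s : ℂ)) = ((((p : ℕ) : ℝ) ^ (-s) : ℝ) : ℂ) := by
          rw [Complex.ofReal_cpow (Nat.cast_nonneg _)]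
          push_cast
          rfl
        rw [h4, hχd, chi_apply]
        push_cast
        rfl
      have h5 : ∀ p : Nat.Primes, 0 ≤ (1 - κ p * ((p : ℕ) : ℝ) ^ (-s))⁻¹ := by
        intro p
        apply inv_nonneg.2
        have h6 := abs_le_one' hf h1 hmul hper hne p
        have h7 : (1 : ℝ) ≤ ((p : ℕ) : ℝ) := by exact_mod_cast p.2.one_lt.le
        have h8 : ((p : ℕ) : ℝ) ^ (-s) ≤ 1 :=
          Real.rpow_le_one_of_one_le_of_nonpos h7 (by linarith)
        have h9 : 0 ≤ ((p : ℕ) : ℝ) ^ (-s) := Real.rpow_nonneg (by linarith) _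
        have h10 : κ p * ((p : ℕ) : ℝ) ^ (-s) ≤ 1 := by
          calc κ p * ((p : ℕ) : ℝ) ^ (-s) ≤ 1 * 1 :=
                mul_le_mul (le_of_abs_le h6) h8 h9 zero_le_one
            _ = 1 := one_mul 1
        linarith
      have h11 : ∏ p ∈ T, (1 - χ (p : ℕ) * ((p : ℕ) : ℂ) ^ (-(s : ℂ)))⁻¹ =
          ((∏ p ∈ T, (1 - κ p * ((p : ℕ) : ℝ) ^ (-s))⁻¹ : ℝ) : ℂ) := by
        rw [Complex.ofReal_prod]
        exact Finset.prod_congr rfl fun p _ => h3 p
      rw [h11]
      exact ⟨by rw [Complex.ofReal_re]; exact Finset.prod_nonneg fun p _ => h5 p,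
        Complex.ofReal_im _⟩
    exact (closed_nonneg.mem_of_tendsto hp (Eventually.of_forall hmem)).1
  have hcont : Continuous (DirichletCharacter.LFunction χ) :=
    (DirichletCharacter.differentiable_LFunction hχ).continuous
  have h2 : Tendsto (fun s : ℝ => (DirichletCharacter.LFunction χ (s : ℂ)).re) (𝓝[>] 1)
      (𝓝 (DirichletCharacter.LFunction χ 1).re) := by
    have h3 : Continuous (fun s : ℝ => (DirichletCharacter.LFunction χ (s : ℂ)).re) :=
      Complex.continuous_re.comp (hcont.comp Complex.continuous_ofReal)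
    have h4 := h3.tendsto 1
    rw [Complex.ofReal_one] at h4
    exact h4.mono_left nhdsWithin_le_nhds
  refine ge_of_tendsto h2 ?_
  filter_upwards [self_mem_nhdsWithin] with s hs1
  exact hs s hs1

/-- the partial sums of `κ(b) / b` -/
noncomputable def SS (κ : ℕ → ℝ) (m : ℕ) : ℝ := ∑ b ∈ Icc 1 m, κ b / b

lemma SS_tendsto (hf : 0 < f) (h1 : κ 1 = 1) (hmul : ∀ m n, κ (m * n) = κ m * κ n)
    (hper : ∀ n, κ (n + f) = κ n) (hne : ∀ n, κ n ≠ 0 ↔ Nat.Coprime n f)
    (hB : ∃ n, Nat.Coprime n f ∧ κ n ≠ 1) :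
    ∃ L : ℝ, 0 < L ∧ Tendsto (SS κ) atTop (𝓝 L) := by
  have hz : NeZero f := ⟨hf.ne'⟩
  set χ := chi hf h1 hmul hper hne with hχd
  have hχ : χ ≠ 1 := by
    intro h
    obtain ⟨n, hn, hn1⟩ := hB
    have h2 := chi_apply hf h1 hmul hper hne n
    rw [← hχd, h, MulChar.one_apply ((ZMod.isUnit_iff_coprime _ _).2 hn)] at h2
    apply hn1
    exact_mod_cast h2.symm
  have h2 := Pool.Agent.Helper51.Moser.tendsto_LFunction_one χ hχ
  have h3 := (Complex.continuous_re.tendsto _).comp h2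
  have h4 : ∀ m : ℕ, (∑ n ∈ Finset.range (m + 1), χ (n : ZMod f) / n) = ((SS κ m : ℝ) : ℂ) := by
    intro m
    unfold SS
    rw [Finset.range_eq_Ico, Finset.sum_eq_sum_Ico_succ_bot (by omega), Complex.ofReal_sum]
    simp only [Nat.cast_zero, div_zero, zero_add]
    refine Finset.sum_congr (by ext x; simp only [Finset.mem_Ico, Finset.mem_Icc]; omega) ?_
    intro n _
    rw [hχd, chi_apply]
    push_cast
    rfl
  have h5 : Tendsto (SS κ) atTop (𝓝 (DirichletCharacter.LFunction χ 1).re) := by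
    have h6 := h3.comp (tendsto_add_atTop_nat 1)
    refine h6.congr fun m => ?_
    simp only [Function.comp]
    rw [h4, Complex.ofReal_re]
  refine ⟨_, lt_of_le_of_ne (L_nonneg hf h1 hmul hper hne hχ) ?_, h5⟩
  intro h0
  have h6 : (DirichletCharacter.LFunction χ 1).im = 0 := by
    have h7 := (Complex.continuous_im.tendsto _).comp h2
    have h8 := h7.comp (tendsto_add_atTop_nat 1)
    have h9 : Tendsto (fun _ : ℕ => (0 : ℝ)) atTop (𝓝 (DirichletCharacter.LFunction χ 1).im) := by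
      refine h8.congr fun m => ?_
      simp only [Function.comp]
      rw [h4, Complex.ofReal_im]
    exact tendsto_nhds_unique h9 tendsto_const_nhds
  exact DirichletCharacter.LFunction_apply_one_ne_zero hχ (Complex.ext h0.symm h6)

end kappa

/-! ## partial summation -/

section parts

variable {κ : ℕ → ℝ} {u : ℕ → ℝ} {B : ℝ}

lemma SS_succ (κ : ℕ → ℝ) (m : ℕ) : SS κ (m + 1) = SS κ m + κ (m + 1) / (m + 1 : ℕ) := by
  unfold SS
  rw [Finset.sum_Icc_succ_top (by omega)]

/-- the partial sums of `κ(b) / b u(b)` -/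
noncomputable def PS (κ u : ℕ → ℝ) (m : ℕ) : ℝ := ∑ b ∈ Icc 1 m, κ b / b * u b

lemma PS_succ (κ u : ℕ → ℝ) (m : ℕ) :
    PS κ u (m + 1) = PS κ u m + κ (m + 1) / (m + 1 : ℕ) * u (m + 1) := by
  unfold PS
  rw [Finset.sum_Icc_succ_top (by omega)]

lemma PS_abs (hB : ∀ m, |SS κ m| ≤ B) (hu : ∀ b, 1 ≤ b → u (b + 1) ≤ u b)
    (hu0 : ∀ b, 1 ≤ b → 0 ≤ u b) (N : ℕ) (hN : 1 ≤ N) : |PS κ u N| ≤ B * u 1 := by
  have key : ∀ N, 1 ≤ N → |PS κ u N - SS κ N * u N| ≤ B * (u 1 - u N) := by
    intro N hN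
    induction N, hN using Nat.le_induction with
    | base =>
      have : PS κ u 1 = SS κ 1 * u 1 := by
        unfold PS SS
        simp
      rw [this, sub_self, abs_zero, sub_self, mul_zero]
    | succ N hN ih =>
      have h1 : PS κ u (N + 1) - SS κ (N + 1) * u (N + 1) =
          (PS κ u N - SS κ N * u N) + SS κ N * (u N - u (N + 1)) := by
        rw [PS_succ, SS_succ]; ring
      have h2 : |SS κ N * (u N - u (N + 1))| ≤ B * (u N - u (N + 1)) := by
        rw [abs_mul, abs_of_nonneg (by linarith [hu N hN] : 0 ≤ u N - u (N + 1))]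
        exact mul_le_mul_of_nonneg_right (hB N) (by linarith [hu N hN])
      rw [h1]
      refine (abs_add_le _ _).trans ?_
      linarith
  have h1 := key N hN
  have h2 : |SS κ N * u N| ≤ B * u N := by
    rw [abs_mul, abs_of_nonneg (hu0 N hN)]
    exact mul_le_mul_of_nonneg_right (hB N) (hu0 N hN)
  have h3 := abs_add_le (PS κ u N - SS κ N * u N) (SS κ N * u N)
  rw [sub_add_cancel] at h3
  linarith

lemma PS_low (hB : ∀ m, |SS κ m| ≤ B) (hu : ∀ b, 1 ≤ b → u (b + 1) ≤ u b)
    (hu0 : ∀ b, 1 ≤ b → 0 ≤ u b) {l : ℝ} (m₀ : ℕ) (hm : 1 ≤ m₀)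
    (hl : ∀ m, m₀ ≤ m → l ≤ SS κ m) (N : ℕ) (hN : m₀ ≤ N) :
    l * u m₀ - B * (u 1 - u m₀) ≤ PS κ u N := by
  have key0 : ∀ N, 1 ≤ N → |PS κ u N - SS κ N * u N| ≤ B * (u 1 - u N) := by
    intro N hN
    induction N, hN using Nat.le_induction with
    | base =>
      have : PS κ u 1 = SS κ 1 * u 1 := by
        unfold PS SS
        simp
      rw [this, sub_self, abs_zero, sub_self, mul_zero]
    | succ N hN ih =>
      have h1 : PS κ u (N + 1) - SS κ (N + 1) * u (N + 1) =
          (PS κ u N - SS κ N * u N) + SS κ N * (u N - u (N + 1)) := by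
        rw [PS_succ, SS_succ]; ring
      have h2 : |SS κ N * (u N - u (N + 1))| ≤ B * (u N - u (N + 1)) := by
        rw [abs_mul, abs_of_nonneg (by linarith [hu N hN] : 0 ≤ u N - u (N + 1))]
        exact mul_le_mul_of_nonneg_right (hB N) (by linarith [hu N hN])
      rw [h1]
      refine (abs_add_le _ _).trans ?_
      linarith
  have key : ∀ N, m₀ ≤ N → l * (u m₀ - u N) - B * (u 1 - u m₀) ≤ PS κ u N - SS κ N * u N := by
    intro N hN
    induction N, hN using Nat.le_induction with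
    | base =>
      have := neg_le_of_abs_le (key0 m₀ hm)
      rw [sub_self, mul_zero]
      linarith
    | succ N hN ih =>
      have hN1 : 1 ≤ N := hm.trans hN
      have h1 : PS κ u (N + 1) - SS κ (N + 1) * u (N + 1) =
          (PS κ u N - SS κ N * u N) + SS κ N * (u N - u (N + 1)) := by
        rw [PS_succ, SS_succ]; ring
      have h2 : l * (u N - u (N + 1)) ≤ SS κ N * (u N - u (N + 1)) :=
        mul_le_mul_of_nonneg_right (hl N hN) (by linarith [hu N hN1])
      rw [h1]
      linarith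
  have h1 := key N hN
  have h2 : l * u N ≤ SS κ N * u N :=
    mul_le_mul_of_nonneg_right (hl N hN) (hu0 N (hm.trans hN))
  linarith

end parts

/-! ## the sum over the integers prime to `q` -/

lemma moebius_sum {n q : ℕ} (hn : 0 < n) (hq : 0 < q) :
    (if Nat.Coprime n q then (1 : ℝ) else 0) =
      ∑ d ∈ q.divisors.filter (fun d => d ∣ n), ((ArithmeticFunction.moebius d : ℤ) : ℝ) := by
  have h1 : q.divisors.filter (fun d => d ∣ n) = (Nat.gcd n q).divisors := by
    ext d
    simp only [Finset.mem_filter, Nat.mem_divisors, Nat.dvd_gcd_iff]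
    have hg : Nat.gcd n q ≠ 0 := (Nat.gcd_pos_of_pos_left _ hn).ne'
    constructor
    · rintro ⟨⟨h2, _⟩, h3⟩
      exact ⟨⟨h3, h2⟩, hg⟩
    · rintro ⟨⟨h2, h3⟩, _⟩
      exact ⟨⟨h3, hq.ne'⟩, h2⟩
  have h2 : ∑ d ∈ (Nat.gcd n q).divisors, ArithmeticFunction.moebius d =
      (1 : ArithmeticFunction ℤ) (Nat.gcd n q) := by
    rw [← ArithmeticFunction.moebius_mul_coe_zeta, ArithmeticFunction.coe_mul_zeta_apply]
  rw [h1, ← Int.cast_sum, h2, ArithmeticFunction.one_apply]
  unfold Nat.Coprime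
  split_ifs <;> simp

lemma sum_dvd (a : ℕ → ℝ) (d N : ℕ) (hd : 0 < d) :
    ∑ n ∈ (Icc 1 N).filter (fun n => d ∣ n), a n = ∑ b ∈ Icc 1 (N / d), a (d * b) := by
  symm
  refine Finset.sum_bij (fun b _ => d * b) ?_ ?_ ?_ ?_
  · intro b hb
    rw [Finset.mem_Icc] at hb
    rw [Finset.mem_filter, Finset.mem_Icc]
    refine ⟨⟨Nat.mul_pos hd hb.1, ?_⟩, dvd_mul_right d b⟩
    calc d * b ≤ d * (N / d) := Nat.mul_le_mul_left d hb.2
      _ ≤ N := Nat.mul_div_le N d
  · intro b _ c _ h
    exact Nat.eq_of_mul_eq_mul_left hd h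
  · intro n hn
    rw [Finset.mem_filter, Finset.mem_Icc] at hn
    obtain ⟨⟨h1, h2⟩, b, rfl⟩ := hn
    refine ⟨b, ?_, rfl⟩
    rw [Finset.mem_Icc]
    refine ⟨Nat.pos_of_ne_zero fun h => by simp [h] at h1, ?_⟩
    rw [Nat.le_div_iff_mul_le hd, mul_comm]
    exact h2
  · intro b _
    rfl

end Pool.Agent.NH12.RS.MainT

namespace Pool.Agent.NH12.RS

open Finset Filter Topology MainT

/-- MAIN -/
theorem t_main : S_main := by
  intro f κ hf h1 hmul hper hne v hv
  have hκ := abs_le_one' hf h1 hmul hper hne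
  -- summability
  have hsum : ∀ (X : ℝ), 0 < X → ∀ q : ℕ,
      Summable (fun n : ℕ => if Nat.Coprime n q then κ n / n * v ((n : ℝ) ^ 2 / X) else 0) := by
    intro X hX q
    obtain ⟨C, hC⟩ := hv.decay 1
    have hC0 : 0 ≤ C := by
      have h2 := hC 1 le_rfl
      have h3 := hv.pos 1 one_pos
      rw [one_pow, mul_one] at h2
      linarith
    have h2 : Summable (fun n : ℕ => C * X * (1 / (n : ℝ) ^ 2)) :=
      (Real.summable_one_div_nat_pow.2 (by norm_num)).mul_left _
    refine Summable.of_norm_bounded_eventually_nat h2 ?_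
    filter_upwards [eventually_ge_atTop (max 1 ⌈X⌉₊)] with n hn
    have hn1 : 1 ≤ n := (le_max_left _ _).trans hn
    have hn2 : X ≤ n := (Nat.le_ceil X).trans (by exact_mod_cast (le_max_right _ _).trans hn)
    have hn3 : (1 : ℝ) ≤ n := by exact_mod_cast hn1
    split_ifs with hc
    · have h3 : 1 ≤ (n : ℝ) ^ 2 / X := by
        rw [le_div_iff₀ hX, one_mul]
        nlinarith
      have h4 := hC _ h3
      rw [pow_one] at h4
      have h5 := hv.pos _ (by linarith : 0 < (n : ℝ) ^ 2 / X)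
      rw [norm_mul, norm_div, Real.norm_eq_abs, Real.norm_natCast, Real.norm_of_nonneg h5.le]
      have h6 : v ((n : ℝ) ^ 2 / X) ≤ C * X / (n : ℝ) ^ 2 := by
        rw [le_div_iff₀ (by positivity)]
        have h7 : v ((n : ℝ) ^ 2 / X) * (n : ℝ) ^ 2 =
            v ((n : ℝ) ^ 2 / X) * ((n : ℝ) ^ 2 / X) * X := by field_simp
        rw [h7]
        exact mul_le_mul_of_nonneg_right h4 hX.le
      have h8 : |κ n| / (n : ℝ) ≤ 1 := by
        rw [div_le_one (by linarith)]
        exact (hκ n).trans hn3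
      calc |κ n| / (n : ℝ) * v ((n : ℝ) ^ 2 / X) ≤ 1 * (C * X / (n : ℝ) ^ 2) :=
            mul_le_mul h8 h6 h5.le zero_le_one
        _ = C * X * (1 / (n : ℝ) ^ 2) := by ring
    · rw [norm_zero]
      positivity
  -- the partial sums
  have htend : ∀ (X : ℝ), 0 < X → ∀ q : ℕ, Tendsto (fun N : ℕ => ∑ n ∈ Icc 1 N,
      if Nat.Coprime n q then κ n / n * v ((n : ℝ) ^ 2 / X) else 0) atTop
      (𝓝 (∑' n : ℕ, if Nat.Coprime n q then κ n / n * v ((n : ℝ) ^ 2 / X) else 0)) := by
    intro X hX q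
    have h2 := (hsum X hX q).hasSum.tendsto_sum_nat.comp (tendsto_add_atTop_nat 1)
    refine h2.congr fun N => ?_
    simp only [Function.comp]
    rw [Finset.range_eq_Ico, Finset.sum_eq_sum_Ico_succ_bot (by omega)]
    simp only [Nat.cast_zero, div_zero, zero_mul, ite_self, zero_add]
    exact Finset.sum_congr (by ext x; simp only [Finset.mem_Ico, Finset.mem_Icc]; omega)
      fun _ _ => rfl
  by_cases hB : ∃ n, Nat.Coprime n f ∧ κ n ≠ 1
  · -- nontrivial character
    obtain ⟨L, hL, hLt⟩ := SS_tendsto hf h1 hmul hper hne hB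
    obtain ⟨B, hB1⟩ : ∃ B, ∀ m, |SS κ m| ≤ B := by
      obtain ⟨B, hB⟩ := hLt.abs.bddAbove_range
      exact ⟨B, fun m => hB ⟨m, rfl⟩⟩
    have hB0 : 0 < B := by
      have h2 := hB1 1
      have h3 : SS κ 1 = 1 := by
        unfold SS
        simp [h1]
      rw [h3, abs_one] at h2
      linarith
    obtain ⟨m₁, hm₁⟩ := (hLt.eventually (lt_mem_nhds (by linarith : L / 2 < L))).exists_forall_of_atTop
    set m₀ := max m₁ 1 with hm₀
    have hl : ∀ m, m₀ ≤ m → L / 2 ≤ SS κ m := fun m hm => (hm₁ m ((le_max_left _ _).trans hm)).le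
    have hm1 : 1 ≤ m₀ := le_max_right _ _
    have hm1' : (1 : ℝ) ≤ m₀ := by exact_mod_cast hm1
    set η' : ℝ := L / (2 * L + 4 * B) with hη'
    have hη'0 : 0 < η' := by positivity
    obtain ⟨y₀, hy₀, hslow⟩ := hv.slow ((m₀ : ℝ) ^ 2) η' (by nlinarith) hη'0
    refine ⟨L / 8 * v 1, L / (8 * B), max 1 (1 / y₀), mul_pos (by positivity) (hv.pos 1 one_pos),
      by positivity, by positivity, ?_⟩
    intro X q hX hq hdiv
    have hX1 : 1 ≤ X := (le_max_left _ _).trans hX
    have hX0 : 0 < X := by linarith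
    have hXy : 1 / X ≤ y₀ := by
      rw [div_le_iff₀ hX0]
      have h2 := (le_max_right _ _).trans hX
      rw [div_le_iff₀ hy₀] at h2
      linarith
    refine ⟨hsum X hX0 q, ?_⟩
    refine ge_of_tendsto (htend X hX0 q) ?_
    filter_upwards [eventually_ge_atTop m₀] with N hN
    -- the weights
    have hu : ∀ d : ℕ, 1 ≤ d → (∀ b : ℕ, 1 ≤ b → v (((d * (b + 1) : ℕ) : ℝ) ^ 2 / X) ≤
        v (((d * b : ℕ) : ℝ) ^ 2 / X)) := by
      intro d hd b hb
      apply hv.anti
      · have : (0 : ℝ) < ((d * b : ℕ) : ℝ) := by exact_mod_cast Nat.mul_pos hd hb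
        positivity
      · have h3 : ((d * b : ℕ) : ℝ) ≤ ((d * (b + 1) : ℕ) : ℝ) := by
          exact_mod_cast Nat.mul_le_mul_left d (Nat.le_succ b)
        have h4 : (0 : ℝ) ≤ ((d * b : ℕ) : ℝ) := Nat.cast_nonneg _
        exact div_le_div_of_nonneg_right (pow_le_pow_left₀ h4 h3 2) hX0.le
    have hu0 : ∀ d : ℕ, 1 ≤ d → ∀ b : ℕ, 1 ≤ b → 0 ≤ v (((d * b : ℕ) : ℝ) ^ 2 / X) := by
      intro d hd b hb
      apply (hv.pos _ _).le
      have : (0 : ℝ) < ((d * b : ℕ) : ℝ) := by exact_mod_cast Nat.mul_pos hd hb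
      positivity
    -- Moebius inversion
    have hM : (∑ n ∈ Icc 1 N, if Nat.Coprime n q then κ n / n * v ((n : ℝ) ^ 2 / X) else 0) =
        ∑ d ∈ q.divisors, ((ArithmeticFunction.moebius d : ℤ) : ℝ) * (κ d / d *
          PS κ (fun b => v (((d * b : ℕ) : ℝ) ^ 2 / X)) (N / d)) := by
      have h2 : ∀ n ∈ Icc 1 N, (if Nat.Coprime n q then κ n / n * v ((n : ℝ) ^ 2 / X) else 0) =
          ∑ d ∈ q.divisors, if d ∣ n then ((ArithmeticFunction.moebius d : ℤ) : ℝ) *
            (κ n / n * v ((n : ℝ) ^ 2 / X)) else 0 := by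
        intro n hn
        rw [Finset.mem_Icc] at hn
        have h3 : (if Nat.Coprime n q then κ n / n * v ((n : ℝ) ^ 2 / X) else 0) =
            (if Nat.Coprime n q then (1 : ℝ) else 0) * (κ n / n * v ((n : ℝ) ^ 2 / X)) := by
          split_ifs <;> simp
        rw [h3, moebius_sum hn.1 hq, Finset.sum_mul, Finset.sum_filter]
      rw [Finset.sum_congr rfl h2, Finset.sum_comm]
      refine Finset.sum_congr rfl fun d hd => ?_
      have hd0 : 0 < d := Nat.pos_of_mem_divisors hd
      rw [← Finset.sum_filter, sum_dvd _ d N hd0]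
      unfold PS
      rw [Finset.mul_sum, Finset.mul_sum]
      refine Finset.sum_congr rfl fun b _ => ?_
      rw [hmul]
      push_cast
      ring
    rw [hM, ← Finset.add_sum_erase _ _ (Nat.one_mem_divisors.2 hq.ne')]
    have hv1 : 0 < v (1 / X) := hv.pos _ (by positivity)
    -- the main term
    have hmain : L / 4 * v (1 / X) ≤ ((ArithmeticFunction.moebius 1 : ℤ) : ℝ) * (κ 1 / (1 : ℕ) *
        PS κ (fun b => v (((1 * b : ℕ) : ℝ) ^ 2 / X)) (N / 1)) := by
      rw [ArithmeticFunction.moebius_apply_one, h1, Nat.div_one]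
      simp only [Int.cast_one, Nat.cast_one, div_one, one_mul]
      have h2 := PS_low (κ := κ) (u := fun b => v (((b : ℕ) : ℝ) ^ 2 / X)) hB1
        (fun b hb => by simpa only [one_mul] using hu 1 le_rfl b hb)
        (fun b hb => by simpa only [one_mul] using hu0 1 le_rfl b hb) m₀ hm1 hl N hN
      refine le_trans ?_ h2
      have h3 := hslow (1 / X) (by positivity) hXy
      have h4 : (m₀ : ℝ) ^ 2 * (1 / X) = (m₀ : ℝ) ^ 2 / X := by ring
      rw [h4] at h3
      simp only [Nat.cast_one, one_pow]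
      have h5 : η' * (L / 2 + B) = L / 4 := by
        rw [hη']
        field_simp
        ring
      have h6 : (L / 2 + B) * (v (1 / X) - v ((m₀ : ℝ) ^ 2 / X)) ≤
          (L / 2 + B) * (η' * v (1 / X)) := mul_le_mul_of_nonneg_left h3 (by positivity)
      have h7 : (L / 2 + B) * (η' * v (1 / X)) = L / 4 * v (1 / X) := by
        rw [← h5]; ring
      nlinarith
    -- the other terms
    have hrest : |∑ d ∈ q.divisors.erase 1, ((ArithmeticFunction.moebius d : ℤ) : ℝ) * (κ d / d *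
          PS κ (fun b => v (((d * b : ℕ) : ℝ) ^ 2 / X)) (N / d))| ≤ L / 8 * v (1 / X) := by
      have h2 : ∀ d ∈ q.divisors.erase 1, |((ArithmeticFunction.moebius d : ℤ) : ℝ) * (κ d / d *
          PS κ (fun b => v (((d * b : ℕ) : ℝ) ^ 2 / X)) (N / d))| ≤
          (1 : ℝ) / d * (B * v (1 / X)) := by
        intro d hd
        have hd0 : 1 ≤ d := Nat.pos_of_mem_divisors (Finset.mem_of_mem_erase hd)
        have hd1 : (1 : ℝ) ≤ d := by exact_mod_cast hd0
        have h3 : |((ArithmeticFunction.moebius d : ℤ) : ℝ)| ≤ 1 := by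
          have := ArithmeticFunction.abs_moebius_le_one (n := d)
          exact_mod_cast this
        have h4 : |κ d / (d : ℝ)| ≤ 1 / d := by
          rw [abs_div, abs_of_pos (by linarith : (0 : ℝ) < d)]
          exact div_le_div_of_nonneg_right (hκ d) (by linarith)
        have h5 : |PS κ (fun b => v (((d * b : ℕ) : ℝ) ^ 2 / X)) (N / d)| ≤ B * v (1 / X) := by
          rcases Nat.eq_zero_or_pos (N / d) with h6 | h6
          · have h7 : PS κ (fun b => v (((d * b : ℕ) : ℝ) ^ 2 / X)) (N / d) = 0 := by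
              rw [h6]
              unfold PS
              simp
            rw [h7, abs_zero]
            positivity
          · refine (PS_abs (κ := κ) (u := fun b => v (((d * b : ℕ) : ℝ) ^ 2 / X)) hB1
              (hu d hd0) (hu0 d hd0) _ h6).trans ?_
            refine mul_le_mul_of_nonneg_left ?_ hB0.le
            apply hv.anti _ _ (by positivity)
            rw [mul_one]
            apply div_le_div_of_nonneg_right _ hX0.le
            nlinarith
        rw [abs_mul, abs_mul]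
        calc |((ArithmeticFunction.moebius d : ℤ) : ℝ)| * (|κ d / (d : ℝ)| *
              |PS κ (fun b => v (((d * b : ℕ) : ℝ) ^ 2 / X)) (N / d)|)
            ≤ 1 * ((1 : ℝ) / d * (B * v (1 / X))) := by
              apply mul_le_mul h3 _ (by positivity) zero_le_one
              exact mul_le_mul h4 h5 (abs_nonneg _) (by positivity)
          _ = _ := one_mul _
      refine (Finset.abs_sum_le_sum_abs _ _).trans ((Finset.sum_le_sum h2).trans ?_)
      rw [← Finset.sum_mul]
      have h3 : (∑ d ∈ q.divisors.erase 1, (1 : ℝ) / d) * (B * v (1 / X)) ≤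
          L / (8 * B) * (B * v (1 / X)) := mul_le_mul_of_nonneg_right hdiv (by positivity)
      refine h3.trans (le_of_eq ?_)
      field_simp
    have h9 := neg_le_of_abs_le hrest
    have h10 : v 1 ≤ v (1 / X) := by
      apply hv.anti _ _ (by positivity)
      rw [div_le_one hX0]
      exact hX1
    have h11 : L / 8 * v 1 ≤ L / 8 * v (1 / X) := mul_le_mul_of_nonneg_left h10 (by positivity)
    linarith
  · -- trivial character
    push Not at hB
    refine ⟨v 1, 1, 1, hv.pos 1 one_pos, one_pos, one_pos, ?_⟩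
    intro X q hX hq _
    have hX0 : 0 < X := by linarith
    refine ⟨hsum X hX0 q, ?_⟩
    have h0 : ∀ n : ℕ, 0 ≤ (if Nat.Coprime n q then κ n / n * v ((n : ℝ) ^ 2 / X) else 0) := by
      intro n
      split_ifs with hc
      · rcases Nat.eq_zero_or_pos n with hn | hn
        · subst hn
          simp
        · have hn' : (0 : ℝ) < n := by exact_mod_cast hn
          have h2 : 0 ≤ κ n := by
            by_cases h3 : Nat.Coprime n f
            · rw [hB n h3]
              exact zero_le_one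
            · by_contra h4
              exact h3 ((hne n).1 (by intro h5; rw [h5] at h4; exact h4 le_rfl))
          exact mul_nonneg (div_nonneg h2 hn'.le) (hv.pos _ (by positivity)).le
      · exact le_rfl
    have h2 : v 1 ≤ (if Nat.Coprime 1 q then κ 1 / (1 : ℕ) * v (((1 : ℕ) : ℝ) ^ 2 / X) else 0) := by
      rw [if_pos (Nat.coprime_one_left q), h1]
      simp only [Nat.cast_one, div_one, one_mul, one_pow]
      apply hv.anti _ _ (by positivity)
      rw [div_le_one hX0]
      exact hX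
    exact h2.trans ((hsum X hX0 q).le_tsum 1 fun j _ => h0 j)

end Pool.Agent.NH12.RS
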