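import Pool.Agent.NH12.RS.Stm
import Pool.Agent.Y773.HK.Per
import Pool.Agent.Y773.IQ.Ring

/-! # Primitivity of the product of the base character and a ring class character -/

set_option autoImplicit false
set_option linter.unusedSectionVars false

open NumberField Complex

namespace Pool.Agent.NH12.RS.Md

open Pool.Agent.Y773 (TPos IsPrimChar IsModChar LI sg Ps FT rl)
open Pool.Agent.Y773.IQ (exists_unit_lift)

section gen

variable {K : Type} [Field K] [NumberField K]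

lemma cop_iff {I : Ideal (𝓞 K)} {x : 𝓞 K} :
    IsCoprime (Ideal.span {x}) I ↔ ∃ w : 𝓞 K, w * x - 1 ∈ I := by
  rw [Ideal.isCoprime_iff_exists]
  constructor
  · rintro ⟨a, ha, b, hb, hab⟩
    obtain ⟨w, rfl⟩ := Ideal.mem_span_singleton'.mp ha
    refine ⟨w, ?_⟩
    have : w * x - 1 = -b := by rw [← hab]; ring
    rw [this]
    exact neg_mem hb
  · rintro ⟨w, hw⟩
    refine ⟨w * x, Ideal.mem_span_singleton'.mpr ⟨w, rfl⟩, 1 - w * x, ?_, by ring⟩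
    rw [← neg_sub]
    exact neg_mem hw

lemma cop_mono {𝔞 𝔮 𝔣 : Ideal (𝓞 K)} (h : 𝔮 ≤ 𝔣) (h1 : IsCoprime 𝔞 𝔮) : IsCoprime 𝔞 𝔣 := by
  rw [Ideal.isCoprime_iff_sup_eq] at h1 ⊢
  exact top_le_iff.mp (h1 ▸ sup_le_sup_left h 𝔞)

lemma cop_one {𝔮 : Ideal (𝓞 K)} {x : 𝓞 K} (h : x - 1 ∈ 𝔮) : IsCoprime (Ideal.span {x}) 𝔮 :=
  cop_iff.mpr ⟨1, by rwa [one_mul]⟩

lemma cop_congr {𝔮 : Ideal (𝓞 K)} {x y : 𝓞 K} (h : x - y ∈ 𝔮) (hy : IsCoprime (Ideal.span {y}) 𝔮) :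
    IsCoprime (Ideal.span {x}) 𝔮 := by
  obtain ⟨w, hw⟩ := cop_iff.mp hy
  refine cop_iff.mpr ⟨w, ?_⟩
  have : w * x - 1 = w * (x - y) + (w * y - 1) := by ring
  rw [this]
  exact add_mem (Ideal.mul_mem_left _ _ h) hw

lemma isUnit_mk {I : Ideal (𝓞 K)} {x : 𝓞 K} :
    IsUnit (Ideal.Quotient.mk I x) ↔ IsCoprime (Ideal.span {x}) I := by
  rw [cop_iff]
  constructor
  · intro h
    obtain ⟨v, hv⟩ := h.exists_left_inv
    obtain ⟨w, rfl⟩ := Ideal.Quotient.mk_surjective v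
    refine ⟨w, ?_⟩
    rw [← Ideal.Quotient.eq, map_mul, hv, map_one]
  · rintro ⟨w, hw⟩
    rw [← Ideal.Quotient.eq, map_mul, map_one] at hw
    exact IsUnit.of_mul_eq_one_right _ hw

/-- lifting of residue classes prime to the modulus -/
lemma exists_cop_lift {𝔣 𝔮 : Ideal (𝓞 K)} (h : 𝔮 ≤ 𝔣) (h𝔮 : 𝔮 ≠ ⊥) {z : 𝓞 K}
    (hz : IsCoprime (Ideal.span {z}) 𝔣) : ∃ z' : 𝓞 K, IsCoprime (Ideal.span {z'}) 𝔮 ∧ z' - z ∈ 𝔣 := by
  have : Finite (𝓞 K ⧸ 𝔮) := Ideal.finiteQuotientOfFreeOfNeBot 𝔮 h𝔮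
  obtain ⟨v, hv, hvz⟩ := exists_unit_lift (Ideal.Quotient.factor h) (Ideal.Quotient.factor_surjective h)
    (isUnit_mk.mpr hz)
  obtain ⟨z', rfl⟩ := Ideal.Quotient.mk_surjective v
  refine ⟨z', isUnit_mk.mp hv, ?_⟩
  rw [← Ideal.Quotient.eq, ← hvz, Ideal.Quotient.factor_mk]

/-- the Chinese remainder theorem -/
lemma crt {I J : Ideal (𝓞 K)} (h : IsCoprime I J) (x y : 𝓞 K) :
    ∃ z : 𝓞 K, z - x ∈ I ∧ z - y ∈ J := by
  obtain ⟨i, hi, j, hj, hij⟩ := Ideal.isCoprime_iff_exists.mp h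
  refine ⟨x * j + y * i, ?_, ?_⟩
  · have : x * j + y * i - x = (y - x) * i := by
      linear_combination x * hij
    rw [this]
    exact Ideal.mul_mem_left _ _ hi
  · have : x * j + y * i - y = (x - y) * j := by
      linear_combination y * hij
    rw [this]
    exact Ideal.mul_mem_left _ _ hj

/-- totally positive elements in residue classes -/
lemma exists_tpos {I : Ideal (𝓞 K)} (hI : I ≠ ⊥) (x : 𝓞 K) : ∃ z : 𝓞 K, z - x ∈ I ∧ TPos K z := by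
  classical
  have hN : 0 < Ideal.absNorm I := Nat.pos_of_ne_zero (by rwa [Ne, Ideal.absNorm_eq_zero_iff])
  obtain ⟨M, hM⟩ : ∃ M : ℕ, ∀ σ : K →+* ℝ, |σ (x : K)| < M := by
    obtain ⟨M, hM⟩ := exists_nat_gt (∑ σ : K →+* ℝ, |σ (x : K)|)
    exact ⟨M, fun σ => lt_of_le_of_lt
      (Finset.single_le_sum (f := fun σ : K →+* ℝ => |σ (x : K)|)
        (fun _ _ => abs_nonneg _) (Finset.mem_univ σ)) hM⟩
  refine ⟨x + (M : 𝓞 K) * (Ideal.absNorm I : 𝓞 K), ?_, ?_⟩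
  · rw [add_sub_cancel_left]
    exact Ideal.mul_mem_left _ _ (Ideal.absNorm_mem I)
  · intro σ
    have h1 : σ ((x + (M : 𝓞 K) * (Ideal.absNorm I : 𝓞 K) : 𝓞 K) : K) =
        σ (x : K) + M * Ideal.absNorm I := by
      push_cast
      simp
    rw [h1]
    have h2 := (abs_lt.mp (hM σ)).1
    have h3 : (1 : ℝ) ≤ Ideal.absNorm I := by exact_mod_cast hN
    have h4 : (0 : ℝ) ≤ M := Nat.cast_nonneg M
    nlinarith

lemma tpos_ne {x : 𝓞 K} (h : TPos K x) (σ : K →+* ℝ) : x ≠ 0 := by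
  rintro rfl
  have := h σ
  simp at this

variable (S : RQ K)

lemma mem_cj {I : Ideal (𝓞 K)} {x : 𝓞 K} : x ∈ S.cj I ↔ S.σ x ∈ I := by
  unfold RQ.cj
  constructor
  · intro h
    obtain ⟨y, hy, rfl⟩ := (Ideal.mem_map_of_equiv S.σ x).mp h
    rw [S.inv]
    exact hy
  · intro h
    exact (Ideal.mem_map_of_equiv S.σ x).mpr ⟨S.σ x, h, S.inv x⟩

lemma cj_nat (q : ℕ) : S.cj (Ideal.span {(q : 𝓞 K)}) = Ideal.span {(q : 𝓞 K)} := by
  unfold RQ.cj
  rw [Ideal.map_span]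
  congr 1
  simp

lemma cj_coprime {I J : Ideal (𝓞 K)} (h : IsCoprime I J) : IsCoprime (S.cj I) (S.cj J) := by
  rw [Ideal.isCoprime_iff_sup_eq] at h ⊢
  unfold RQ.cj
  rw [← Ideal.map_sup, h, Ideal.map_top]

end gen

section real

variable {K : Type} [Field K] [NumberField K] [IsTotallyReal K]

lemma sg_tpos {e : InfinitePlace K → ℕ} {x : 𝓞 K} (h : TPos K x) : sg e (x : K) = 1 := by
  unfold sg
  apply Finset.prod_eq_one
  intro w _
  have h1 : SignType.sign (rl w (x : K)) = 1 := sign_pos (h (rl w))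
  rw [h1]
  simp

lemma sg_zero (x : K) : sg (fun _ : InfinitePlace K => 0) x = 1 := by
  unfold sg
  simp

lemma real_hom : Nonempty (K →+* ℝ) := by
  obtain ⟨w⟩ : Nonempty (InfinitePlace K) := inferInstance
  exact ⟨rl w⟩

/-- the character `χ` as a character modulo `q` -/
lemma chi_mod {q : ℕ} (hq : 2 ≤ q) {χ : Ideal (𝓞 K) →*₀ ℂ} (h : IsRC q χ) :
    IsModChar (Ideal.span {(q : 𝓞 K)}) (fun _ => 0) χ where
  ne_bot := by
    rw [Ne, Ideal.span_singleton_eq_bot]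
    have : q ≠ 0 := by omega
    exact_mod_cast this
  ne_top := by
    intro h0
    rw [Ideal.span_singleton_eq_top] at h0
    obtain ⟨u, hu⟩ := h0.exists_left_inv
    have h1 := congrArg (Algebra.norm ℤ) hu
    rw [map_mul, map_one] at h1
    have h2 : (Algebra.norm ℤ (q : 𝓞 K)) = (q : ℤ) ^ Module.finrank ℤ (𝓞 K) := by
      have := Algebra.norm_algebraMap (R := ℤ) (S := 𝓞 K) (q : ℤ)
      simpa using this
    rw [h2] at h1
    have h3 : (q : ℤ) ^ Module.finrank ℤ (𝓞 K) ∣ 1 := ⟨_, by rw [mul_comm]; exact h1.symm⟩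
    have h4 : (q : ℤ) ∣ 1 := (dvd_pow_self (q : ℤ) (Module.finrank_pos (R := ℤ) (M := 𝓞 K)).ne').trans h3
    have h5 := Int.le_of_dvd one_pos h4
    omega
  sig_le := fun _ => Nat.zero_le _
  supp := h.supp
  sig := by
    intro x _ hx
    rw [sg_zero]
    refine h.one x ⟨1, ?_⟩ (cop_one hx)
    rw [Int.cast_one]
    exact Ideal.mem_span_singleton.mp hx

variable {q : ℕ} {χ : Ideal (𝓞 K) →*₀ ℂ}

lemma chi_int (h : IsRC q χ) {a : ℤ} (ha : Cop q (Ideal.span {(a : 𝓞 K)})) :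
    χ (Ideal.span {(a : 𝓞 K)}) = 1 := by
  refine h.one _ ⟨a, ?_⟩ ha
  rw [sub_self]
  exact dvd_zero _

/-- `χ` is trivial on the elements which are `≡ 1` modulo `I` -/
def Qp (q : ℕ) (I : Ideal (𝓞 K)) (χ : Ideal (𝓞 K) →*₀ ℂ) : Prop :=
  ∀ x : 𝓞 K, x - 1 ∈ I → Cop q (Ideal.span {x}) → χ (Ideal.span {x}) = 1

lemma Qp_q (h : IsRC q χ) : Qp q (Ideal.span {(q : 𝓞 K)}) χ := by
  intro x hx hc
  refine h.one x ⟨1, ?_⟩ hc
  rw [Int.cast_one]
  exact Ideal.mem_span_singleton.mp hx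

lemma Qp_congr {I : Ideal (𝓞 K)} (hI : Ideal.span {(q : 𝓞 K)} ≤ I) (h : Qp q I χ) {x y : 𝓞 K}
    (hxy : x - y ∈ I) (hx : Cop q (Ideal.span {x})) (hy : Cop q (Ideal.span {y})) :
    χ (Ideal.span {x}) = χ (Ideal.span {y}) := by
  obtain ⟨w, hw⟩ := cop_iff.mp hy
  have hwc : Cop q (Ideal.span {w}) := cop_iff.mpr ⟨y, by rwa [mul_comm]⟩
  have h1 : χ (Ideal.span {w * y}) = 1 := by
    refine h _ (hI hw) ?_
    rw [← Ideal.span_singleton_mul_span_singleton]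
    exact IsCoprime.mul_left hwc hy
  have h2 : χ (Ideal.span {w * x}) = 1 := by
    refine h _ ?_ ?_
    · have : w * x - 1 = w * (x - y) + (w * y - 1) := by ring
      rw [this]
      exact add_mem (Ideal.mul_mem_left _ _ hxy) (hI hw)
    · rw [← Ideal.span_singleton_mul_span_singleton]
      exact IsCoprime.mul_left hwc hx
  rw [← Ideal.span_singleton_mul_span_singleton, map_mul] at h1 h2
  have h3 : χ (Ideal.span {w}) ≠ 0 := by
    intro h4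
    rw [h4, zero_mul] at h1
    exact zero_ne_one h1
  exact mul_left_cancel₀ h3 (h2.trans h1.symm)

lemma Qp_sup (hq : q ≠ 0) {I J : Ideal (𝓞 K)} (hI : Ideal.span {(q : 𝓞 K)} ≤ I)
    (hJ : Ideal.span {(q : 𝓞 K)} ≤ J) (h1 : Qp q I χ) (h2 : Qp q J χ) : Qp q (I ⊔ J) χ := by
  intro x hx hc
  obtain ⟨u, hu, v, hv, huv⟩ := Submodule.mem_sup.mp hx
  have hq0 : Ideal.span {(q : 𝓞 K)} ≠ ⊥ := by
    rw [Ne, Ideal.span_singleton_eq_bot]
    exact_mod_cast hq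
  have hz1 : IsCoprime (Ideal.span {x - u}) I := cop_congr (by
    have : x - u - x = -u := by ring
    rw [this]; exact neg_mem hu) (cop_mono hI hc)
  have hz2 : IsCoprime (Ideal.span {x - u}) J := by
    apply cop_one
    have : x - u - 1 = v := by rw [← add_sub_cancel_left u v, huv]; ring
    rw [this]
    exact hv
  have hz3 : IsCoprime (Ideal.span {x - u}) (I ⊓ J) :=
    cop_mono Ideal.mul_le_inf (IsCoprime.mul_right hz1 hz2)
  obtain ⟨z, hz4, hz5⟩ := exists_cop_lift (le_inf hI hJ) hq0 hz3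
  have hz6 : x - z ∈ I := by
    have : x - z = -(z - (x - u)) + u := by ring
    rw [this]
    exact add_mem (neg_mem (inf_le_left (b := J) hz5)) hu
  have hz7 : z - 1 ∈ J := by
    have : z - 1 = (z - (x - u)) + (x - u - 1) := by ring
    rw [this]
    refine add_mem (inf_le_right (a := I) hz5) ?_
    have : x - u - 1 = v := by rw [← add_sub_cancel_left u v, huv]; ring
    rw [this]
    exact hv
  rw [Qp_congr hI h1 hz6 hc hz4]
  exact h2 z hz7 hz4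

lemma isUnit_diff (S : RQ K) (hd : Nat.Coprime q (Ideal.absNorm (differentIdeal ℤ (𝓞 K)))) :
    ∃ w : 𝓞 K, w * (S.ω - S.σ S.ω) - 1 ∈ Ideal.span {(q : 𝓞 K)} := by
  rw [S.diff] at hd
  set N := Ideal.absNorm (Ideal.span {S.ω - S.σ S.ω}) with hN
  obtain ⟨t, ht⟩ := Ideal.mem_span_singleton'.mp
    (Ideal.absNorm_mem (Ideal.span {S.ω - S.σ S.ω}))
  rw [← hN] at ht
  obtain ⟨u, v, huv⟩ := (Nat.isCoprime_iff_coprime.mpr hd : IsCoprime (q : ℤ) (N : ℤ))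
  refine ⟨(v : 𝓞 K) * t, Ideal.mem_span_singleton'.mpr ⟨-(u : 𝓞 K), ?_⟩⟩
  have h1 : (u : 𝓞 K) * (q : 𝓞 K) + (v : 𝓞 K) * (N : 𝓞 K) = 1 := by exact_mod_cast congrArg (Int.cast : ℤ → 𝓞 K) huv
  linear_combination -h1 - (v : 𝓞 K) * ht

/-- invariant ideals containing `q` are generated by integers -/
lemma inv_ideal (S : RQ K) (hd : Nat.Coprime q (Ideal.absNorm (differentIdeal ℤ (𝓞 K))))
    {I : Ideal (𝓞 K)} (hI : Ideal.span {(q : 𝓞 K)} ≤ I) (hcj : S.cj I = I) :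
    ∃ h : ℕ, h ∣ q ∧ I = Ideal.span {(h : 𝓞 K)} := by
  obtain ⟨g, hg⟩ := (IsPrincipalIdealRing.principal (Ideal.comap (Int.castRingHom (𝓞 K)) I)).principal
  obtain ⟨h, hh⟩ : ∃ h : ℕ, h = g.natAbs := ⟨_, rfl⟩
  have hmem : ∀ n : ℤ, (n : 𝓞 K) ∈ I ↔ (h : ℤ) ∣ n := by
    intro n
    have h1 : n ∈ Ideal.comap (Int.castRingHom (𝓞 K)) I ↔ (n : 𝓞 K) ∈ I := Iff.rfl
    rw [← h1, hg, hh, Int.natAbs_dvd]
    exact Ideal.mem_span_singleton
  refine ⟨h, ?_, le_antisymm ?_ ?_⟩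
  · have h1 := (hmem q).mp (by
      rw [Int.cast_natCast]
      exact hI (Ideal.mem_span_singleton_self _))
    exact_mod_cast h1
  · intro x hx
    obtain ⟨a, b, hab⟩ := S.basis x
    obtain ⟨w, hw⟩ := isUnit_diff S hd
    have hσx : S.σ x ∈ I := by
      rw [← hcj] at hx
      exact (mem_cj S).mp hx
    have h1 : (b : 𝓞 K) * (S.ω - S.σ S.ω) ∈ I := by
      have h2 : (b : 𝓞 K) * (S.ω - S.σ S.ω) = x - S.σ x := by
        rw [hab, map_add, map_mul, map_intCast, map_intCast]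
        ring
      rw [h2]
      exact sub_mem hx hσx
    have hb : (b : 𝓞 K) ∈ I := by
      have h2 : (b : 𝓞 K) = w * ((b : 𝓞 K) * (S.ω - S.σ S.ω)) -
          b * (w * (S.ω - S.σ S.ω) - 1) := by ring
      rw [h2]
      exact sub_mem (Ideal.mul_mem_left _ _ h1) (Ideal.mul_mem_left _ _ (hI hw))
    have ha : (a : 𝓞 K) ∈ I := by
      have h2 : (a : 𝓞 K) = x - b * S.ω := by rw [hab]; ring
      rw [h2]
      exact sub_mem hx (Ideal.mul_mem_right _ _ hb)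
    obtain ⟨a', ha'⟩ := (hmem a).mp ha
    obtain ⟨b', hb'⟩ := (hmem b).mp hb
    rw [Ideal.mem_span_singleton]
    refine ⟨a' + b' * S.ω, ?_⟩
    rw [hab, ha', hb']
    push_cast
    ring
  · rw [Ideal.span_singleton_le_iff_mem]
    have h1 := (hmem (h : ℤ)).mpr dvd_rfl
    rwa [Int.cast_natCast] at h1

lemma thr_of_Qp (S : RQ K) (hq : q ≠ 0) (hRC : IsRC q χ) {h : ℕ} (hh : h ∣ q)
    (hQ : Qp q (Ideal.span {(h : 𝓞 K)}) χ) : Thr q h χ := by
  rintro x ⟨a, ha⟩ hc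
  have hqh : Ideal.span {(q : 𝓞 K)} ≤ Ideal.span {(h : 𝓞 K)} := by
    rw [Ideal.span_singleton_le_span_singleton]
    exact Nat.cast_dvd_cast hh
  -- an inverse of `a` modulo `h`
  obtain ⟨w, hw⟩ := cop_iff.mp (cop_mono hqh hc)
  obtain ⟨c, d, hcd⟩ := S.basis w
  obtain ⟨e, he⟩ : (h : 𝓞 K) ∣ w * a - 1 := by
    have h1 : w * a - 1 = (w * x - 1) - w * (x - a) := by ring
    rw [h1]
    exact dvd_sub (Ideal.mem_span_singleton.mp hw) (ha.mul_left _)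
  obtain ⟨e1, e2, hee⟩ := S.basis e
  have hca : c * a - 1 = h * e1 := by
    have h1 : ((c * a - 1 - h * e1 : ℤ) : 𝓞 K) + ((d * a - h * e2 : ℤ) : 𝓞 K) * S.ω = 0 := by
      push_cast
      rw [hcd, hee] at he
      linear_combination he
    have h2 := (S.indep _ _ h1).1
    linarith
  have : NeZero q := ⟨hq⟩
  have hcu : IsUnit ((c : ℤ) : ZMod h) := by
    refine IsUnit.of_mul_eq_one ((a : ℤ) : ZMod h) ?_
    have h1 : ((c * a - 1 : ℤ) : ZMod h) = 0 := by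
      rw [hca]
      push_cast
      simp
    push_cast at h1
    linear_combination h1
  obtain ⟨v, hv, hvc⟩ := exists_unit_lift (ZMod.castHom hh (ZMod h)) (ZMod.castHom_surjective hh) hcu
  obtain ⟨b, hb⟩ : ∃ b : ℤ, b = (v.val : ℤ) := ⟨_, rfl⟩
  have hbq : ((b : ℤ) : ZMod q) = v := by
    rw [hb]
    push_cast
    exact ZMod.natCast_zmod_val v
  have hbh : ((b : ℤ) : ZMod h) = ((c : ℤ) : ZMod h) := by
    rw [← hvc, ← hbq]
    simp
  have hbcop : Cop q (Ideal.span {(b : 𝓞 K)}) := by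
    obtain ⟨v', hv'⟩ := hv.exists_left_inv
    apply cop_iff.mpr
    refine ⟨((v'.val : ℤ) : 𝓞 K), ?_⟩
    have h1 : (((v'.val : ℤ) * b - 1 : ℤ) : ZMod q) = 0 := by
      push_cast
      rw [hbq, ZMod.natCast_zmod_val, hv', sub_self]
    rw [ZMod.intCast_zmod_eq_zero_iff_dvd] at h1
    obtain ⟨k, hk⟩ := h1
    rw [Ideal.mem_span_singleton]
    refine ⟨(k : 𝓞 K), ?_⟩
    exact_mod_cast congrArg (Int.cast : ℤ → 𝓞 K) hk
  have hbc : Cop q (Ideal.span {(b : 𝓞 K) * x}) := by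
    rw [← Ideal.span_singleton_mul_span_singleton]
    exact IsCoprime.mul_left hbcop hc
  have h1 := hQ ((b : 𝓞 K) * x) (by
    rw [Ideal.mem_span_singleton]
    have h2 : (b : ℤ) - c = (b - c) := rfl
    have h3 : (h : ℤ) ∣ b - c := by
      rw [← ZMod.intCast_zmod_eq_zero_iff_dvd]
      push_cast
      rw [hbh, sub_self]
    obtain ⟨k, hk⟩ := h3
    obtain ⟨l, hl⟩ := ha
    refine ⟨b * l + k * a + e1, ?_⟩
    have hk' : (b : 𝓞 K) - c = h * k := by exact_mod_cast congrArg (Int.cast : ℤ → 𝓞 K) hk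
    have hca' : (c : 𝓞 K) * a - 1 = h * e1 := by
      exact_mod_cast congrArg (Int.cast : ℤ → 𝓞 K) hca
    linear_combination (b : 𝓞 K) * hl + (a : 𝓞 K) * hk' + hca') hbc
  rw [← Ideal.span_singleton_mul_span_singleton, map_mul, chi_int hRC hbcop, one_mul] at h1
  exact h1

lemma cop_of_coprime {I : Ideal (𝓞 K)} (h : Nat.Coprime q (Ideal.absNorm I)) :
    IsCoprime I (Ideal.span {(q : 𝓞 K)}) := by
  obtain ⟨u, v, huv⟩ := (Nat.isCoprime_iff_coprime.mpr h :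
    IsCoprime (q : ℤ) (Ideal.absNorm I : ℤ))
  rw [Ideal.isCoprime_iff_exists]
  refine ⟨(v : 𝓞 K) * (Ideal.absNorm I : 𝓞 K), Ideal.mul_mem_left _ _ (Ideal.absNorm_mem I),
    (u : 𝓞 K) * (q : 𝓞 K), Ideal.mul_mem_left _ _ (Ideal.mem_span_singleton_self _), ?_⟩
  rw [add_comm]
  exact_mod_cast congrArg (Int.cast : ℤ → 𝓞 K) huv

lemma mul_conj_of_norm {z : ℂ} (h : ‖z‖ = 1) : z * (starRingEnd ℂ) z = 1 := by
  rw [Complex.mul_conj, Complex.normSq_eq_norm_sq, h]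
  simp

lemma cj_cj (S : RQ K) (I : Ideal (𝓞 K)) : S.cj (S.cj I) = I := by
  ext x
  rw [mem_cj, mem_cj, S.inv]

/-- the values of `χ` at conjugate ideals -/
lemma chi_cj (hc : S_conj) (S : RQ K) (hq : 2 ≤ q) (h : IsRC q χ) (𝔞 : Ideal (𝓞 K)) :
    χ (S.cj 𝔞) = (starRingEnd ℂ) (χ 𝔞) := by
  by_cases h0 : Cop q 𝔞
  · have h1 : Cop q (S.cj 𝔞) := by
      have := cj_coprime S h0
      rwa [cj_nat] at this
    have h2 := (hc K S).2.2.2.2 𝔞
    have h3 : χ 𝔞 * χ (S.cj 𝔞) = 1 := by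
      rw [← map_mul, h2]
      have h4 : Cop q (Ideal.span {((Ideal.absNorm 𝔞 : ℤ) : 𝓞 K)}) := by
        rw [Int.cast_natCast, ← h2]
        exact IsCoprime.mul_left h0 h1
      have h5 := chi_int h h4
      rwa [Int.cast_natCast] at h5
    have h4 := mul_conj_of_norm ((chi_mod hq h).norm_eq_one h0)
    have h5 : χ 𝔞 ≠ 0 := (h.supp 𝔞).mpr h0
    exact mul_left_cancel₀ h5 (h3.trans h4.symm)
  · have h1 : ¬ Cop q (S.cj 𝔞) := by
      intro h1
      apply h0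
      have := cj_coprime S h1
      rwa [cj_nat, cj_cj] at this
    have h2 : χ 𝔞 = 0 := by
      by_contra h3
      exact h0 ((h.supp 𝔞).mp h3)
    have h3 : χ (S.cj 𝔞) = 0 := by
      by_contra h3
      exact h1 ((h.supp _).mp h3)
    rw [h2, h3, map_zero]

lemma cj_span (S : RQ K) (x : 𝓞 K) : S.cj (Ideal.span {x}) = Ideal.span {S.σ x} := by
  unfold RQ.cj
  rw [Ideal.map_span]
  simp

lemma Qp_cj (hc : S_conj) (S : RQ K) (hq : 2 ≤ q) (h : IsRC q χ) {I : Ideal (𝓞 K)}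
    (hQ : Qp q I χ) : Qp q (S.cj I) χ := by
  intro x hx hcx
  have h1 : S.σ x - 1 ∈ I := by
    have := (mem_cj S).mp hx
    rwa [map_sub, map_one] at this
  have h2 : Cop q (Ideal.span {S.σ x}) := by
    have := cj_coprime S hcx
    rwa [cj_nat, cj_span] at this
  have h3 := hQ _ h1 h2
  rw [← cj_span, chi_cj hc S hq h] at h3
  have h4 := congrArg (starRingEnd ℂ) h3
  rwa [Complex.conj_conj, map_one] at h4

section base

variable {S : RQ K} {𝔣₀ : Ideal (𝓞 K)} {a : ℕ} {ψ₀ : Ideal (𝓞 K) →*₀ ℂ}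

/-- the base character on totally positive elements -/
lemma psi_congr (hB : Base S 𝔣₀ a ψ₀) {x y : 𝓞 K} (hx : TPos K x) (hy : TPos K y)
    (hxy : x - y ∈ 𝔣₀) (hcy : IsCoprime (Ideal.span {y}) 𝔣₀) :
    ψ₀ (Ideal.span {x}) = ψ₀ (Ideal.span {y}) := by
  obtain ⟨σ⟩ := real_hom (K := K)
  obtain ⟨w, hw⟩ := cop_iff.mp hcy
  obtain ⟨z, hz, hzp⟩ := exists_tpos hB.ne_bot w
  have hmul : ∀ {u v : 𝓞 K}, TPos K u → TPos K v → TPos K (u * v) := by
    intro u v hu hv τ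
    have : τ ((u * v : 𝓞 K) : K) = τ (u : K) * τ (v : K) := by
      push_cast
      rw [map_mul]
    rw [this]
    exact mul_pos (hu τ) (hv τ)
  have h1 : z * y - 1 ∈ 𝔣₀ := by
    have : z * y - 1 = (z - w) * y + (w * y - 1) := by ring
    rw [this]
    exact add_mem (Ideal.mul_mem_right _ _ hz) hw
  have h2 : z * x - 1 ∈ 𝔣₀ := by
    have : z * x - 1 = z * (x - y) + (z * y - 1) := by ring
    rw [this]
    exact add_mem (Ideal.mul_mem_left _ _ hxy) h1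
  have h3 := hB.sig (z * y) (tpos_ne (hmul hzp hy) σ) h1
  have h4 := hB.sig (z * x) (tpos_ne (hmul hzp hx) σ) h2
  rw [sg_tpos (hmul hzp hy)] at h3
  rw [sg_tpos (hmul hzp hx)] at h4
  rw [← Ideal.span_singleton_mul_span_singleton, map_mul] at h3 h4
  have h5 : ψ₀ (Ideal.span {z}) ≠ 0 := by
    intro h5
    rw [h5, zero_mul] at h3
    exact zero_ne_one h3
  exact mul_left_cancel₀ h5 (h4.trans h3.symm)

/-- the values on the ideals prime to the conductor have absolute value one -/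
lemma psi_norm (hB : Base S 𝔣₀ a ψ₀) (hf : 𝔣₀ ≠ ⊤) {𝔞 : Ideal (𝓞 K)} (h : IsCoprime 𝔞 𝔣₀) :
    ‖ψ₀ 𝔞‖ = 1 := by
  have h1 : IsModChar 𝔣₀ (fun _ => a) ψ₀ := by
    refine ⟨hB.ne_bot, hf, fun _ => hB.le_one, ?_, hB.sig⟩
    intro 𝔟
    by_cases h0 : 𝔟 = ⊥
    · rw [h0]
      constructor
      · intro h2
        exact absurd (by rw [← Ideal.zero_eq_bot, map_zero]) h2
      · intro h2
        rw [Ideal.isCoprime_iff_sup_eq, bot_sup_eq] at h2
        exact absurd h2 hf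
    · exact hB.supp 𝔟 h0
  exact h1.norm_eq_one h

end base

end real

end Pool.Agent.NH12.RS.Md

namespace Pool.Agent.NH12.RS

open Pool.Agent.Y773 (TPos IsPrimChar IsModChar LI sg Ps FT rl)
open Pool.Agent.NH12.RS.Md

theorem t_mod (hc : S_conj) (hi : S_inv) : S_mod := by
  intro K _ _ _ S 𝔣₀ a ψ₀ hB q χ hq hcop hd hP
  have hRC := hP.toIsRC
  have hq0 : q ≠ 0 := by omega
  have hM := chi_mod hq hRC
  obtain ⟨Q, hQ⟩ : ∃ Q : Ideal (𝓞 K), Q = Ideal.span {(q : 𝓞 K)} := ⟨_, rfl⟩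
  have hcf : IsCoprime 𝔣₀ Q := hQ ▸ cop_of_coprime hcop
  have hQbot : Q ≠ ⊥ := hQ ▸ hM.ne_bot
  have hQtop : Q ≠ ⊤ := hQ ▸ hM.ne_top
  have hpr : ∀ 𝔞, pr ψ₀ χ 𝔞 = ψ₀ 𝔞 * χ 𝔞 := fun _ => rfl
  have hle0 : 𝔣₀ * Q ≤ 𝔣₀ := Ideal.mul_le_left
  have hle1 : 𝔣₀ * Q ≤ Q := Ideal.mul_le_right
  have hsupp : ∀ 𝔞 : Ideal (𝓞 K), pr ψ₀ χ 𝔞 ≠ 0 ↔ IsCoprime 𝔞 (𝔣₀ * Q) := by
    intro 𝔞
    rw [hpr, mul_ne_zero_iff, IsCoprime.mul_right_iff, hRC.supp]
    by_cases h0 : 𝔞 = ⊥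
    · constructor
      · rintro ⟨h1, -⟩
        exact absurd (by rw [h0, ← Ideal.zero_eq_bot, map_zero]) h1
      · rintro ⟨-, h1⟩
        rw [h0, Ideal.isCoprime_iff_sup_eq, bot_sup_eq] at h1
        exact absurd h1 hQtop
    · rw [hB.supp 𝔞 h0, hQ]
      rfl
  have hmod : IsModChar (𝔣₀ * Q) (fun _ => a) (pr ψ₀ χ) := by
    refine ⟨mul_ne_zero hB.ne_bot hQbot, ?_, fun _ => hB.le_one, hsupp, ?_⟩
    · intro h0
      apply hQtop
      rw [eq_top_iff, ← h0]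
      exact hle1
    · intro x hx0 hx
      rw [hpr, hB.sig x hx0 (hle0 hx), Qp_q hRC x (hQ ▸ hle1 hx) (cop_one (hQ ▸ hle1 hx)), mul_one]
  have hcj : ∀ 𝔞, pr ψ₀ χ (S.cj 𝔞) = (starRingEnd ℂ) (pr ψ₀ χ 𝔞) := by
    intro 𝔞
    rw [hpr, hpr, hB.self, chi_cj hc S hq hRC, map_mul]
  refine ⟨?_, hQ ▸ hmod, hcj, ?_, ?_⟩
  · rw [← hQ]
    refine ⟨hmod.ne_bot, fun 𝔞 _ => hsupp 𝔞, ?_, ?_⟩
    · intro x hx hp
      obtain ⟨σ⟩ := real_hom (K := K)
      rw [hmod.sig x (tpos_ne hp σ) hx, sg_tpos hp]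
    · intro 𝔤 hg hgne
      have hg' : 𝔣₀ * Q ≤ 𝔤 := Ideal.dvd_iff_le.mp hg
      have hcop01 : IsCoprime (𝔤 ⊔ 𝔣₀) (𝔤 ⊔ Q) := by
        rw [Ideal.isCoprime_iff_sup_eq] at hcf ⊢
        rw [eq_top_iff, ← hcf]
        exact sup_le_sup le_sup_right le_sup_right
      have hfac : 𝔤 = (𝔤 ⊔ 𝔣₀) ⊓ (𝔤 ⊔ Q) := by
        apply le_antisymm (le_inf le_sup_left le_sup_left)
        rw [← Ideal.mul_eq_inf_of_coprime (Ideal.isCoprime_iff_sup_eq.mp hcop01), Ideal.sup_mul,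
          Ideal.mul_sup, Ideal.mul_sup]
        exact sup_le (sup_le Ideal.mul_le_left Ideal.mul_le_left)
          (sup_le Ideal.mul_le_right hg')
      have hmem : ∀ x : 𝓞 K, x - 1 ∈ 𝔤 ⊔ 𝔣₀ → x - 1 ∈ 𝔤 ⊔ Q → x - 1 ∈ 𝔤 := by
        intro x h1 h2
        rw [hfac]
        exact ⟨h1, h2⟩
      by_cases h0 : 𝔤 ⊔ 𝔣₀ = 𝔣₀
      · -- the finite part of `χ`
        have h1 : 𝔤 ⊔ Q ≠ Q := by
          intro h1
          apply hgne
          rw [hfac, h0, h1, ← Ideal.mul_eq_inf_of_coprime (Ideal.isCoprime_iff_sup_eq.mp hcf)]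
        by_contra hcon
        push Not at hcon
        have hQ1 : Ideal.span {(q : 𝓞 K)} ≤ 𝔤 ⊔ Q := hQ ▸ le_sup_right
        have hq1 : Qp q (𝔤 ⊔ Q) χ := by
          intro x hx hcx
          obtain ⟨y0, hy1, hy2⟩ := crt hcf 1 x
          obtain ⟨y, hy3, hy4⟩ := exists_tpos hmod.ne_bot y0
          have hy5 : y - 1 ∈ 𝔣₀ := by
            have : y - 1 = (y - y0) + (y0 - 1) := by ring
            rw [this]
            exact add_mem (hle0 hy3) hy1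
          have hy6 : y - x ∈ Q := by
            have : y - x = (y - y0) + (y0 - x) := by ring
            rw [this]
            exact add_mem (hle1 hy3) hy2
          have hy7 : y - 1 ∈ 𝔤 ⊔ Q := by
            have : y - 1 = (y - x) + (x - 1) := by ring
            rw [this]
            exact add_mem ((le_sup_right : Q ≤ 𝔤 ⊔ Q) hy6) hx
          have hcy : Cop q (Ideal.span {y}) := cop_congr (hQ ▸ hy6) hcx
          have h2 := hcon y (hmem y ((le_sup_right : 𝔣₀ ≤ 𝔤 ⊔ 𝔣₀) hy5) hy7) hy4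
            (IsCoprime.mul_right (cop_one hy5) (hQ ▸ hcy))
          obtain ⟨σ⟩ := real_hom (K := K)
          rw [hpr, hB.sig y (tpos_ne hy4 σ) hy5, sg_tpos hy4, one_mul] at h2
          rw [← h2]
          exact Qp_congr le_rfl (Qp_q hRC) (by
            rw [← neg_sub]
            exact neg_mem (hQ ▸ hy6)) hcx hcy
        have hq2 : Qp q (S.cj (𝔤 ⊔ Q)) χ := Qp_cj hc S hq hRC hq1
        have hQ2 : Ideal.span {(q : 𝓞 K)} ≤ S.cj (𝔤 ⊔ Q) := by
          rw [← cj_nat S]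
          exact Ideal.map_mono hQ1
        have hq3 := Qp_sup hq0 hQ1 hQ2 hq1 hq2
        obtain ⟨h, hh, hhI⟩ := inv_ideal S hd (I := (𝔤 ⊔ Q) ⊔ S.cj (𝔤 ⊔ Q))
          (hQ1.trans le_sup_left) (by
            have h3 : S.cj ((𝔤 ⊔ Q) ⊔ S.cj (𝔤 ⊔ Q)) = S.cj (𝔤 ⊔ Q) ⊔ S.cj (S.cj (𝔤 ⊔ Q)) :=
              Ideal.map_sup _ _ _
            rw [h3, cj_cj, sup_comm])
        rw [hhI] at hq3
        have h4 : h ≠ q := by
          rintro rfl
          apply h1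
          apply le_antisymm _ le_sup_right
          calc 𝔤 ⊔ Q ≤ (𝔤 ⊔ Q) ⊔ S.cj (𝔤 ⊔ Q) := le_sup_left
            _ = Q := by rw [hhI, hQ]
        exact hP.prim h hh h4 (thr_of_Qp S hq0 hRC hh hq3)
      · obtain ⟨x, hx1, hx2, hx3, hx4⟩ := hB.prim (𝔤 ⊔ 𝔣₀) (Ideal.dvd_iff_le.mpr le_sup_right) h0
        obtain ⟨y0, hy1, hy2⟩ := crt hcf x 1
        obtain ⟨y, hy3, hy4⟩ := exists_tpos hmod.ne_bot y0
        have hy5 : y - x ∈ 𝔣₀ := by
          have : y - x = (y - y0) + (y0 - x) := by ring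
          rw [this]
          exact add_mem (hle0 hy3) hy1
        have hy6 : y - 1 ∈ Q := by
          have : y - 1 = (y - y0) + (y0 - 1) := by ring
          rw [this]
          exact add_mem (hle1 hy3) hy2
        refine ⟨y, hmem y ?_ ((le_sup_right : Q ≤ 𝔤 ⊔ Q) hy6), hy4,
          IsCoprime.mul_right (cop_congr hy5 hx3) (cop_one hy6), ?_⟩
        · have : y - 1 = (y - x) + (x - 1) := by ring
          rw [this]
          exact add_mem ((le_sup_right : 𝔣₀ ≤ 𝔤 ⊔ 𝔣₀) hy5) hx1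
        · rw [hpr, psi_congr hB hy4 hx2 hy5 hx3, Qp_q hRC y (hQ ▸ hy6) (cop_one (hQ ▸ hy6)), mul_one]
          exact hx4
  · -- `χ(𝔣₀)² = 1`
    have h1 := hi K S 𝔣₀ a ψ₀ hB
    have h2 : Cop q 𝔣₀ := by
      unfold Cop
      rw [← hQ]
      exact hcf
    have h3 := mul_conj_of_norm (hM.norm_eq_one h2)
    rw [← chi_cj hc S hq hRC, h1] at h3
    rw [sq]
    exact h3
  · -- `ψ₀((q))² = 1`
    by_cases hf : 𝔣₀ = ⊤
    · have hqp : TPos K ((q : ℕ) : 𝓞 K) := by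
        intro σ
        have : σ (((q : ℕ) : 𝓞 K) : K) = q := by simp
        rw [this]
        exact_mod_cast Nat.pos_of_ne_zero hq0
      obtain ⟨σ⟩ := real_hom (K := K)
      have h1 := hB.sig ((q : ℕ) : 𝓞 K) (tpos_ne hqp σ) (by rw [hf]; exact Submodule.mem_top)
      rw [sg_tpos hqp] at h1
      rw [h1, one_pow]
    · have h1 := psi_norm hB hf (𝔞 := Ideal.span {(q : 𝓞 K)}) (hQ ▸ hcf.symm)
      have h2 := mul_conj_of_norm h1
      rw [← hB.self, cj_nat] at h2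
      rw [sq]
      exact h2

end Pool.Agent.NH12.RS
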