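import Pool.Agent.NH12.RS.Stm
import Pool.Agent.Y773.IQ.Cl

/-!
# ORTH: orthogonality of the ring class characters
-/

set_option autoImplicit false
set_option linter.unusedSectionVars false
set_option linter.unusedVariables false

open NumberField

namespace Pool.Agent.NH12.RS

open Pool.Agent.Y767 (Mq Mq_cop Mq_ne_bot Mq_cancel Cls cls cls_eq cls_eq_one
  cls_of_mul cls_pi cls_div exists_lam card_dual finite_dual)
open Pool.Agent.Y773.IQ (exists_inv exists_compl pi1 pi1_coe T1 T1_cop cls_card_le cop_mono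
  ne_zero_of_cop exists_rep ofM' ofM'_pos ofM'_supp cop_mul)

variable {K : Type} [Field K] [NumberField K]

lemma orth_zd_mul {d : ℕ} {x y : 𝓞 K} (hx : Zd d x) (hy : Zd d y) : Zd d (x * y) := by
  obtain ⟨a, ha⟩ := hx
  obtain ⟨b, hb⟩ := hy
  refine ⟨a * b, ?_⟩
  have : x * y - ((a * b : ℤ) : 𝓞 K) = (x - a) * y + a * (y - b) := by
    push_cast; ring
  rw [this]
  exact dvd_add (ha.mul_right _) (hb.mul_left _)

/-- the elements of `ℤ + d 𝓞 K` which are prime to `𝔮` -/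
def TZ (d : ℕ) (𝔮 : Ideal (𝓞 K)) : Submonoid (𝓞 K) where
  carrier := {x | Zd d x ∧ IsCoprime (Ideal.span {x}) 𝔮}
  mul_mem' {x y} hx hy := ⟨orth_zd_mul hx.1 hy.1, cop_mul hx.2 hy.2⟩
  one_mem' := ⟨⟨1, by rw [Int.cast_one, sub_self]; exact dvd_zero _⟩, by
    rw [Ideal.span_singleton_one, ← Ideal.one_eq_top]
    exact isCoprime_one_left⟩

/-- the principal ideals -/
def pz (d : ℕ) (𝔮 : Ideal (𝓞 K)) : TZ d 𝔮 →* Mq 𝔮 where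
  toFun x := ⟨Ideal.span {(x : 𝓞 K)}, x.2.2⟩
  map_one' := by
    apply Subtype.ext
    change Ideal.span {(1 : 𝓞 K)} = 1
    rw [Ideal.span_singleton_one, Ideal.one_eq_top]
  map_mul' x y := by
    apply Subtype.ext
    change Ideal.span {(x : 𝓞 K) * (y : 𝓞 K)} = _
    rw [← Ideal.span_singleton_mul_span_singleton]
    rfl

lemma pz_coe {d : ℕ} {𝔮 : Ideal (𝓞 K)} (x : TZ d 𝔮) : ((pz d 𝔮 x : Mq 𝔮) : Ideal (𝓞 K)) =
    Ideal.span {(x : 𝓞 K)} := rfl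

lemma mem_tz {d : ℕ} {𝔮 : Ideal (𝓞 K)} (h : 𝔮 ≤ Ideal.span {(d : 𝓞 K)}) {x : 𝓞 K}
    (hx : x - 1 ∈ 𝔮) : x ∈ TZ d 𝔮 :=
  ⟨⟨1, by rw [Int.cast_one]; exact Ideal.mem_span_singleton.mp (h hx)⟩,
    Pool.Agent.Y773.IQ.cop_one hx⟩

lemma cls_surj {d : ℕ} {𝔮 : Ideal (𝓞 K)} (h : 𝔮 ≤ Ideal.span {(d : 𝓞 K)}) (htop : 𝔮 ≠ ⊤)
    (c : Cls (pz d 𝔮)) : ∃ 𝔞 : Mq 𝔮, cls (pz d 𝔮) 𝔞 = c := by
  obtain ⟨a, b, hab⟩ := cls_div (pz d 𝔮) c
  obtain ⟨x, 𝔠, h1, h2, -⟩ := exists_compl htop b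
  refine ⟨a * 𝔠, ?_⟩
  have h3 : cls (pz d 𝔮) (b * 𝔠) = 1 := by
    rw [← cls_pi (pz d 𝔮) ⟨x, mem_tz h h1⟩]
    congr 1
    apply Subtype.ext
    rw [pz_coe, Submonoid.coe_mul]
    exact h2.symm
  rw [map_mul] at h3
  rw [map_mul, ← hab, mul_assoc, h3, mul_one]

lemma cls_fin {d : ℕ} {𝔮 : Ideal (𝓞 K)} (h : 𝔮 ≤ Ideal.span {(d : 𝓞 K)}) (hbot : 𝔮 ≠ ⊥)
    (htop : 𝔮 ≠ ⊤) : Finite (Cls (pz d 𝔮)) := by
  have := (cls_card_le hbot htop).1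
  have := Mq_cancel htop
  choose 𝔞 h𝔞 using exists_rep htop
  refine Finite.of_surjective (fun c => cls (pz d 𝔮) (𝔞 c)) ?_
  intro c'
  obtain ⟨x, rfl⟩ := cls_surj h htop c'
  refine ⟨cls (pi1 htop) x, ?_⟩
  obtain ⟨a, b, hab⟩ := cls_eq (h𝔞 (cls (pi1 htop) x))
  refine cls_of_mul (π := pz d 𝔮) (a := ⟨(a : 𝓞 K), mem_tz h a.2⟩)
    (b := ⟨(b : 𝓞 K), mem_tz h b.2⟩) ?_
  apply Subtype.ext
  exact congrArg Subtype.val hab

/-- a rational integer which divides `1` -/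
lemma unit_of_dvd (S : RQ K) {g : ℤ} (h : (g : 𝓞 K) ∣ 1) : g ∣ 1 := by
  obtain ⟨z, hz⟩ := h
  obtain ⟨a, b, rfl⟩ := S.basis z
  have h1 : ((1 - g * a : ℤ) : 𝓞 K) + ((-(g * b) : ℤ) : 𝓞 K) * S.ω = 0 := by
    push_cast
    linear_combination hz
  have h2 := (S.indep _ _ h1).1
  exact ⟨a, by linarith⟩

lemma cop_int (S : RQ K) {d : ℕ} {m : ℤ} {x : 𝓞 K} (hm : (d : 𝓞 K) ∣ x - m)
    (hx : IsCoprime (Ideal.span {x}) (Ideal.span {(d : 𝓞 K)})) : IsCoprime m (d : ℤ) := by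
  rw [Int.isCoprime_iff_gcd_eq_one]
  obtain ⟨w, hw⟩ := exists_inv hx
  rw [Ideal.mem_span_singleton] at hw
  have hg1 : ((Int.gcd m d : ℤ) : 𝓞 K) ∣ (m : 𝓞 K) := by
    obtain ⟨k, hk⟩ := Int.gcd_dvd_left m (d : ℤ)
    exact ⟨k, by rw [← Int.cast_mul, ← hk]⟩
  have hg2 : ((Int.gcd m d : ℤ) : 𝓞 K) ∣ (d : 𝓞 K) := by
    obtain ⟨k, hk⟩ := Int.gcd_dvd_right m (d : ℤ)
    exact ⟨k, by rw [← Int.cast_mul, ← hk, Int.cast_natCast]⟩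
  have h1 : ((Int.gcd m d : ℤ) : 𝓞 K) ∣ 1 := by
    have : (1 : 𝓞 K) = w * (x - m) + w * m - (w * x - 1) := by ring
    rw [this]
    exact dvd_sub (dvd_add ((hg2.trans hm).mul_left _) (hg1.mul_left _)) (hg2.trans hw)
  have h2 := unit_of_dvd S h1
  have h3 : (Int.gcd m d : ℤ) ∣ ((1 : ℕ) : ℤ) := by exact_mod_cast h2
  exact Nat.dvd_one.mp (Int.natCast_dvd_natCast.mp h3)

lemma cls_one_iff (S : RQ K) {d : ℕ} {𝔮 : Ideal (𝓞 K)} (h : 𝔮 ≤ Ideal.span {(d : 𝓞 K)})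
    (htop : 𝔮 ≠ ⊤) (𝔞 : Mq 𝔮) : cls (pz d 𝔮) 𝔞 = 1 ↔ Pr d (𝔞 : Ideal (𝓞 K)) := by
  have := Mq_cancel htop
  constructor
  · intro h1
    obtain ⟨a, b, hab⟩ := cls_eq_one h1
    have h2 := congrArg Subtype.val hab
    rw [Submonoid.coe_mul, pz_coe, pz_coe] at h2
    have h3 : (b : 𝓞 K) ∈ Ideal.span {(a : 𝓞 K)} := by
      have h4 : Ideal.span {(b : 𝓞 K)} ≤ Ideal.span {(a : 𝓞 K)} :=
        Ideal.dvd_iff_le.mp ⟨(𝔞 : Ideal (𝓞 K)), h2.symm⟩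
      exact h4 (Ideal.mem_span_singleton_self _)
    obtain ⟨t, ht⟩ := Ideal.mem_span_singleton'.mp h3
    rw [mul_comm] at ht
    have h5 : (𝔞 : Ideal (𝓞 K)) = Ideal.span {t} := by
      apply mul_left_cancel₀ (a := Ideal.span {(a : 𝓞 K)})
      · rw [Ne, Ideal.zero_eq_bot, Ideal.span_singleton_eq_bot]
        exact ne_zero_of_cop htop a.2.2
      · rw [h2, Ideal.span_singleton_mul_span_singleton, ht]
    refine ⟨t, ?_, h5⟩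
    obtain ⟨m, hm⟩ := a.2.1
    obtain ⟨n, hn⟩ := b.2.1
    obtain ⟨u, v, huv⟩ := cop_int S hm (cop_mono h a.2.2)
    refine ⟨u * n, ?_⟩
    have e1 : (u : 𝓞 K) * m + v * d = 1 := by exact_mod_cast congrArg (Int.cast : ℤ → 𝓞 K) huv
    have e2 : t - ((u * n : ℤ) : 𝓞 K) =
        (d : 𝓞 K) * (v * t) + (((b : 𝓞 K) - n) * u - ((a : 𝓞 K) - m) * (u * t)) := by
      push_cast
      linear_combination (-t) * e1 + (u : 𝓞 K) * ht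
    rw [e2]
    exact dvd_add (dvd_mul_right _ _) (dvd_sub (hn.mul_right _) (hm.mul_right _))
  · rintro ⟨x, hx, hax⟩
    have hc : IsCoprime (Ideal.span {x}) 𝔮 := hax ▸ Mq_cop 𝔞
    rw [← cls_pi (pz d 𝔮) ⟨x, hx, hc⟩]
    congr 1
    apply Subtype.ext
    exact hax

/-- the associated character of the monoid of the ideals prime to `𝔮` -/
noncomputable def toMo {𝔮 : Ideal (𝓞 K)} (ψ : Ideal (𝓞 K) →*₀ ℂ)
    (h : ∀ x : Mq 𝔮, ψ (x : Ideal (𝓞 K)) ≠ 0) : Mq 𝔮 →* ℂˣ where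
  toFun x := Units.mk0 (ψ (x : Ideal (𝓞 K))) (h x)
  map_one' := by
    ext
    rw [Units.val_mk0, Submonoid.coe_one, map_one, Units.val_one]
  map_mul' x y := by
    ext
    rw [Units.val_mk0, Units.val_mul, Units.val_mk0, Units.val_mk0, Submonoid.coe_mul, map_mul]

lemma toMo_coe {𝔮 : Ideal (𝓞 K)} (ψ : Ideal (𝓞 K) →*₀ ℂ)
    (h : ∀ x : Mq 𝔮, ψ (x : Ideal (𝓞 K)) ≠ 0) (x : Mq 𝔮) :
    ((toMo ψ h x : ℂˣ) : ℂ) = ψ (x : Ideal (𝓞 K)) := rfl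

/-- the character attached to a character of the class group -/
noncomputable def Ch {d : ℕ} {𝔮 : Ideal (𝓞 K)} (htop : 𝔮 ≠ ⊤) (lam : Cls (pz d 𝔮) →* ℂˣ) :
    Ideal (𝓞 K) →*₀ ℂ := ofM' htop (lam.comp (cls (pz d 𝔮)))

lemma Ch_pos {d : ℕ} {𝔮 : Ideal (𝓞 K)} (htop : 𝔮 ≠ ⊤) (lam : Cls (pz d 𝔮) →* ℂˣ)
    {𝔞 : Ideal (𝓞 K)} (h : IsCoprime 𝔞 𝔮) :
    Ch htop lam 𝔞 = ((lam (cls (pz d 𝔮) ⟨𝔞, h⟩) : ℂˣ) : ℂ) := by
  unfold Ch
  rw [ofM'_pos htop _ h]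
  rfl

lemma Ch_inj {d : ℕ} {𝔮 : Ideal (𝓞 K)} (h : 𝔮 ≤ Ideal.span {(d : 𝓞 K)}) (htop : 𝔮 ≠ ⊤) :
    Function.Injective (Ch (d := d) htop) := by
  intro l l' hl
  refine MonoidHom.ext fun c => ?_
  obtain ⟨𝔞, rfl⟩ := cls_surj h htop c
  have h1 := DFunLike.congr_fun hl (𝔞 : Ideal (𝓞 K))
  rw [Ch_pos htop l (Mq_cop 𝔞), Ch_pos htop l' (Mq_cop 𝔞)] at h1
  exact Units.ext h1

lemma XX_eq {q d : ℕ} (hdq : d ∣ q)
    (htop : Ideal.span {(q : 𝓞 K)} ≠ ⊤) :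
    XX K q d = Set.range (Ch (d := d) htop) := by
  ext χ
  constructor
  · rintro ⟨h1, h2⟩
    have hne : ∀ x : Mq (Ideal.span {(q : 𝓞 K)}), χ (x : Ideal (𝓞 K)) ≠ 0 := fun x =>
      (h1.supp _).mpr (Mq_cop x)
    obtain ⟨lam, hlam⟩ := exists_lam (pz d (Ideal.span {(q : 𝓞 K)})) (toMo χ hne) 1 (fun a => by
      apply Units.ext
      rw [toMo_coe, pz_coe, MonoidHom.one_apply, Units.val_one]
      exact h2 _ a.2.1 a.2.2)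
    refine ⟨lam, ?_⟩
    ext 𝔞
    by_cases hc : IsCoprime 𝔞 (Ideal.span {(q : 𝓞 K)})
    · rw [Ch_pos htop lam hc]
      have h3 := congrArg (Units.val) (hlam ⟨𝔞, hc⟩)
      rw [toMo_coe, MonoidHom.one_apply, one_mul] at h3
      exact h3.symm
    · have h3 : χ 𝔞 = 0 := by
        by_contra h4; exact hc ((h1.supp 𝔞).mp h4)
      have h5 : Ch htop lam 𝔞 = 0 := by
        by_contra h4
        exact hc ((ofM'_supp htop _ 𝔞).mp h4)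
      rw [h3, h5]
  · rintro ⟨lam, rfl⟩
    have h2 : Thr q d (Ch htop lam) := by
      intro x hx hc
      rw [Ch_pos htop lam hc]
      have h3 : cls (pz d (Ideal.span {(q : 𝓞 K)})) ⟨Ideal.span {x}, hc⟩ = 1 :=
        cls_pi (pz d (Ideal.span {(q : 𝓞 K)})) ⟨x, hx, hc⟩
      rw [h3, map_one, Units.val_one]
    refine ⟨⟨fun 𝔞 => ofM'_supp htop _ 𝔞, fun x hx hc => h2 x ?_ hc⟩, h2⟩
    obtain ⟨a, ha⟩ := hx
    exact ⟨a, (Nat.cast_dvd_cast (α := 𝓞 K) hdq).trans ha⟩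

theorem t_orth : S_orth := by
  intro K _ _ S q d hq hdq
  have hq0 : (q : 𝓞 K) ≠ 0 := by exact_mod_cast (by omega : q ≠ 0)
  have hbot : Ideal.span {(q : 𝓞 K)} ≠ ⊥ := by rwa [Ne, Ideal.span_singleton_eq_bot]
  have htop : Ideal.span {(q : 𝓞 K)} ≠ ⊤ := by
    intro h
    rw [Ideal.span_singleton_eq_top] at h
    have h1 : ((q : ℤ) : 𝓞 K) ∣ 1 := by
      rw [Int.cast_natCast]; exact h.dvd
    have h2 := unit_of_dvd S h1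
    have h3 : (q : ℤ) ∣ ((1 : ℕ) : ℤ) := by exact_mod_cast h2
    have h4 := Nat.dvd_one.mp (Int.natCast_dvd_natCast.mp h3)
    omega
  have hle : Ideal.span {(q : 𝓞 K)} ≤ Ideal.span {(d : 𝓞 K)} := by
    rw [Ideal.span_singleton_le_span_singleton]
    exact Nat.cast_dvd_cast hdq
  have hfin := cls_fin hle hbot htop
  have hfd := finite_dual (Cls (pz d (Ideal.span {(q : 𝓞 K)})))
  have hft := Fintype.ofFinite (Cls (pz d (Ideal.span {(q : 𝓞 K)})) →* ℂˣ)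
  have hinj := Ch_inj hle htop
  rw [XX_eq hdq htop]
  refine ⟨Set.finite_range _, ⟨_, 1, rfl⟩, ?_⟩
  intro 𝔞 h𝔞
  have hsum : ∑ᶠ χ ∈ Set.range (Ch (d := d) htop), χ 𝔞 =
      ∑ lam : Cls (pz d (Ideal.span {(q : 𝓞 K)})) →* ℂˣ,
        ((lam (cls (pz d (Ideal.span {(q : 𝓞 K)})) ⟨𝔞, h𝔞⟩) : ℂˣ) : ℂ) := by
    rw [finsum_mem_range hinj, finsum_eq_sum_of_fintype]
    exact Finset.sum_congr rfl fun lam _ => Ch_pos htop lam h𝔞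
  rw [hsum]
  refine ⟨fun hP => ?_, fun hP => ?_⟩
  · rw [← cls_one_iff S hle htop ⟨𝔞, h𝔞⟩] at hP
    rw [hP]
    rw [Finset.sum_congr rfl (fun lam _ => by rw [map_one, Units.val_one]), Finset.sum_const,
      nsmul_eq_mul, mul_one, ← Set.image_univ, Set.ncard_image_of_injective _ hinj, Set.ncard_univ,
      Nat.card_eq_fintype_card]
    rfl
  · rw [← cls_one_iff S hle htop ⟨𝔞, h𝔞⟩] at hP
    set c := cls (pz d (Ideal.span {(q : 𝓞 K)})) ⟨𝔞, h𝔞⟩ with hc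
    have : NeZero (Monoid.exponent (Cls (pz d (Ideal.span {(q : 𝓞 K)})))) :=
      ⟨Monoid.exponent_ne_zero_of_finite⟩
    obtain ⟨φ, hφ⟩ := CommGroup.exists_apply_ne_one_of_hasEnoughRootsOfUnity
      (Cls (pz d (Ideal.span {(q : 𝓞 K)}))) ℂ hP
    have h1 : ∑ lam : Cls (pz d (Ideal.span {(q : 𝓞 K)})) →* ℂˣ, ((lam c : ℂˣ) : ℂ) =
        ((φ c : ℂˣ) : ℂ) * ∑ lam : Cls (pz d (Ideal.span {(q : 𝓞 K)})) →* ℂˣ,
          ((lam c : ℂˣ) : ℂ) := by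
      rw [Finset.mul_sum]
      have h2 := Equiv.sum_comp (Equiv.mulLeft φ)
        (fun lam : Cls (pz d (Ideal.span {(q : 𝓞 K)})) →* ℂˣ => ((lam c : ℂˣ) : ℂ))
      rw [← h2]
      refine Finset.sum_congr rfl fun lam _ => ?_
      rw [Equiv.coe_mulLeft, MonoidHom.mul_apply, Units.val_mul]
    have h3 : ((φ c : ℂˣ) : ℂ) ≠ 1 := fun h => hφ (Units.ext h)
    have h4 : (((φ c : ℂˣ) : ℂ) - 1) * ∑ lam : Cls (pz d (Ideal.span {(q : 𝓞 K)})) →* ℂˣ,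
          ((lam c : ℂˣ) : ℂ) = 0 := by
      rw [sub_mul, one_mul, ← h1, sub_self]
    exact (mul_eq_zero.mp h4).resolve_left (sub_ne_zero.mpr h3)

end Pool.Agent.NH12.RS
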