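import Pool.Agent.NH12.RS.Stm

/-!
# Project RS, RS11: few ring class characters are real
-/

set_option autoImplicit false
set_option linter.unusedSectionVars false

open NumberField Complex

namespace Pool.Agent.NH12.RS

namespace Rea

variable {K : Type} [Field K] [NumberField K]

/-! ### `ℤ + d 𝓞 K` -/

lemma Zd_mul {d : ℕ} {x y : 𝓞 K} (hx : Zd d x) (hy : Zd d y) : Zd d (x * y) := by
  obtain ⟨a, ha⟩ := hx
  obtain ⟨b, hb⟩ := hy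
  refine ⟨a * b, ?_⟩
  have e : x * y - ((a * b : ℤ) : 𝓞 K) = x * (y - b) + b * (x - a) := by
    push_cast
    ring
  rw [e]
  exact dvd_add (Dvd.dvd.mul_left hb _) (Dvd.dvd.mul_left ha _)

lemma Zd_int (d : ℕ) (a : ℤ) : Zd d (a : 𝓞 K) := ⟨a, by rw [sub_self]; exact dvd_zero _⟩

lemma Zd_sig (S : RQ K) {d : ℕ} {x : 𝓞 K} (hx : Zd d x) : Zd d (S.σ x) := by
  obtain ⟨a, c, hc⟩ := hx
  refine ⟨a, S.σ c, ?_⟩
  have h := congrArg S.σ hc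
  rw [map_sub, map_mul, map_intCast, map_natCast] at h
  exact h

lemma Zd_pow {d : ℕ} {x : 𝓞 K} (hx : Zd d x) (k : ℕ) : Zd d (x ^ k) := by
  induction k with
  | zero =>
    rw [pow_zero]
    have := Zd_int (K := K) d 1
    rwa [Int.cast_one] at this
  | succ k ih =>
    rw [pow_succ]
    exact Zd_mul ih hx

/-! ### Units -/

lemma unit_norm (S : RQ K) (u : (𝓞 K)ˣ) : ((u : 𝓞 K) * S.σ u = 1) ∨ ((u : 𝓞 K) * S.σ u = -1) := by
  have h := S.norm (u : 𝓞 K)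
  have h1 : IsUnit (Algebra.norm ℤ (u : 𝓞 K)) := u.isUnit.map (Algebra.norm ℤ)
  rcases Int.isUnit_iff.1 h1 with h2 | h2
  · left
    rw [← h, h2, Int.cast_one]
  · right
    rw [← h, h2, Int.cast_neg, Int.cast_one]

lemma unit_abs (S : RQ K) (u : (𝓞 K)ˣ) : |S.τ u| * |S.τ (S.σ u)| = 1 := by
  rw [← abs_mul, ← map_mul]
  rcases unit_norm S u with h | h
  · rw [h, map_one, abs_one]
  · rw [h, map_neg, map_one, abs_neg, abs_one]

lemma Zd_inv (S : RQ K) {d : ℕ} {u : (𝓞 K)ˣ} (hu : Zd d (u : 𝓞 K)) :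
    Zd d ((u⁻¹ : (𝓞 K)ˣ) : 𝓞 K) := by
  rcases unit_norm S u with h | h
  · have e : ((u⁻¹ : (𝓞 K)ˣ) : 𝓞 K) = S.σ u := by
      rw [Units.inv_eq_of_mul_eq_one_right h]
    rw [e]
    exact Zd_sig S hu
  · have e : ((u⁻¹ : (𝓞 K)ˣ) : 𝓞 K) = ((-1 : ℤ) : 𝓞 K) * S.σ u := by
      rw [Units.inv_eq_of_mul_eq_one_right]
      rw [mul_left_comm, h]
      norm_num
    rw [e]
    exact Zd_mul (Zd_int _ _) (Zd_sig S hu)

lemma Zd_zpow (S : RQ K) {d : ℕ} {u : (𝓞 K)ˣ} (hu : Zd d (u : 𝓞 K)) (k : ℤ) :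
    Zd d ((u ^ k : (𝓞 K)ˣ) : 𝓞 K) := by
  obtain ⟨m, rfl | rfl⟩ := k.eq_nat_or_neg
  · rw [zpow_natCast, Units.val_pow_eq_pow_val]
    exact Zd_pow hu m
  · rw [zpow_neg, zpow_natCast]
    refine Zd_inv S ?_
    rw [Units.val_pow_eq_pow_val]
    exact Zd_pow hu m

lemma tau_zpow (S : RQ K) (u : (𝓞 K)ˣ) (k : ℤ) :
    S.τ ((u ^ k : (𝓞 K)ˣ) : 𝓞 K) = S.τ u ^ k := by
  have h := map_zpow (Units.map (S.τ : 𝓞 K →* ℝ)) u k
  have h2 := congrArg (fun v : ℝˣ => (v : ℝ)) h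
  simp only [Units.coe_map, Units.val_zpow_eq_zpow_val] at h2
  exact h2

lemma tau_ne (S : RQ K) {x : 𝓞 K} (hx : x ≠ 0) : S.τ x ≠ 0 := by
  intro h
  exact hx (S.inj (by rw [h, map_zero]))

lemma sig_ne (S : RQ K) {x : 𝓞 K} (hx : x ≠ 0) : S.σ x ≠ 0 := by
  intro h
  exact hx (S.σ.injective (by rw [h, map_zero]))

/-- the associated elements of small norm are integers -/
lemma int_of_small (S : RQ K) {n q : ℕ} (hn : n ≠ 0) (hq : 0 < q) (hε : Zd q ((S.ε : 𝓞 K) ^ n)) {C : ℝ}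
    (hC : S.τ S.ε ^ n ≤ C * q) {y : 𝓞 K} (hy0 : y ≠ 0) (hy : Zd q y)
    (hN : |S.τ y| * |S.τ (S.σ y)| * (4 * C) < q * S.τ (S.ω - S.σ S.ω) ^ 2) :
    ∃ (u : (𝓞 K)ˣ) (a : ℤ), y * u = a := by
  obtain ⟨E, hE⟩ : ∃ E : ℝ, E = S.τ S.ε ^ n := ⟨_, rfl⟩
  have hE1 : 1 < E := by rw [hE]; exact one_lt_pow₀ S.one_lt hn
  have hE0 : 0 < E := by linarith
  have hy1 : 0 < |S.τ y| := abs_pos.2 (tau_ne S hy0)
  have hy2 : 0 < |S.τ (S.σ y)| := abs_pos.2 (tau_ne S (sig_ne S hy0))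
  have hr : 0 < |S.τ y| * E / |S.τ (S.σ y)| := by positivity
  obtain ⟨m, hm1, hm2⟩ := exists_mem_Ico_zpow hr (show 1 < E ^ 2 by nlinarith)
  obtain ⟨v, hv⟩ : ∃ v : (𝓞 K)ˣ, v = (S.ε ^ n) ^ (-m) := ⟨_, rfl⟩
  have hZv : Zd q (v : 𝓞 K) := by
    rw [hv]
    refine Zd_zpow S ?_ _
    rw [Units.val_pow_eq_pow_val]
    exact hε
  obtain ⟨z, hz⟩ : ∃ z : 𝓞 K, z = y * v := ⟨_, rfl⟩
  have hzZ : Zd q z := by rw [hz]; exact Zd_mul hy hZv
  obtain ⟨F, hF⟩ : ∃ F : ℝ, F = E ^ m := ⟨_, rfl⟩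
  have hF0 : 0 < F := by rw [hF]; positivity
  have hv1 : |S.τ v| = F⁻¹ := by
    rw [hv, tau_zpow, Units.val_pow_eq_pow_val, map_pow, ← hE, hF, zpow_neg,
      abs_of_pos (by positivity)]
  have hv2 : |S.τ (S.σ v)| = F := by
    have h1 := unit_abs S v
    rw [hv1] at h1
    field_simp at h1
    exact h1
  have hz1 : |S.τ z| = |S.τ y| / F := by
    rw [hz, map_mul, abs_mul, hv1]
    rfl
  have hz2 : |S.τ (S.σ z)| = |S.τ (S.σ y)| * F := by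
    rw [hz, map_mul, map_mul, abs_mul, hv2]
  have hE2 : (E ^ 2) ^ m = F ^ 2 := by
    rw [hF, ← zpow_natCast, ← zpow_mul, ← zpow_natCast, ← zpow_mul, mul_comm]
  have hE3 : (E ^ 2) ^ (m + 1) = F ^ 2 * E ^ 2 := by
    rw [zpow_add₀ (by positivity), zpow_one, hE2]
  rw [hE2, le_div_iff₀ hy2] at hm1
  rw [hE3, div_lt_iff₀ hy2] at hm2
  have hb1 : |S.τ (S.σ z)| ≤ E * |S.τ z| := by
    rw [hz1, hz2, mul_div_assoc', le_div_iff₀ hF0]
    nlinarith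
  have hb2 : |S.τ z| ≤ E * |S.τ (S.σ z)| := by
    rw [hz1, hz2, div_le_iff₀ hF0]
    have h1 : |S.τ y| * E < E * (E * (|S.τ (S.σ y)| * F) * F) := by nlinarith
    have h2 : E * |S.τ y| < E * (E * (|S.τ (S.σ y)| * F) * F) := by linarith
    exact (lt_of_mul_lt_mul_left h2 hE0.le).le
  have hP : |S.τ z| * |S.τ (S.σ z)| = |S.τ y| * |S.τ (S.σ y)| := by
    rw [hz1, hz2]
    field_simp
  obtain ⟨a, c, hc⟩ := hzZ
  obtain ⟨c1, c2, hcc⟩ := S.basis c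
  have hz3 : z = ((a + q * c1 : ℤ) : 𝓞 K) + ((q * c2 : ℤ) : 𝓞 K) * S.ω := by
    rw [hcc] at hc
    push_cast
    linear_combination hc
  by_cases hc2 : c2 = 0
  · refine ⟨v, a + q * c1, ?_⟩
    rw [← hz, hz3, hc2]
    push_cast
    ring
  · exfalso
    have h1 : z - S.σ z = ((q * c2 : ℤ) : 𝓞 K) * (S.ω - S.σ S.ω) := by
      rw [hz3, map_add, map_mul, map_intCast, map_intCast]
      ring
    have h2 := congrArg (fun w => |S.τ w|) h1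
    rw [map_sub, map_mul, map_intCast, abs_mul] at h2
    have hδ := S.pos
    have h3 : (q : ℝ) ≤ |((q * c2 : ℤ) : ℝ)| := by
      push_cast
      rw [abs_mul, abs_of_nonneg (Nat.cast_nonneg q)]
      have : (1 : ℝ) ≤ |(c2 : ℝ)| := by exact_mod_cast Int.one_le_abs hc2
      nlinarith [(Nat.cast_pos (α := ℝ)).2 hq]
    rw [abs_of_pos hδ] at h2
    have h4 : |S.τ z - S.τ (S.σ z)| ≤ |S.τ z| + |S.τ (S.σ z)| := abs_sub _ _
    have h5 : (q : ℝ) * S.τ (S.ω - S.σ S.ω) ≤ |S.τ z| + |S.τ (S.σ z)| := by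
      refine le_trans ?_ h4
      rw [h2]
      exact mul_le_mul_of_nonneg_right h3 hδ.le
    obtain ⟨A, hA⟩ : ∃ A : ℝ, A = |S.τ z| := ⟨_, rfl⟩
    obtain ⟨B, hB⟩ : ∃ B : ℝ, B = |S.τ (S.σ z)| := ⟨_, rfl⟩
    obtain ⟨δ, hδ'⟩ : ∃ δ : ℝ, δ = S.τ (S.ω - S.σ S.ω) := ⟨_, rfl⟩
    have hq0 : (0 : ℝ) < q := Nat.cast_pos.2 hq
    rw [← hA, ← hB] at hb1 hb2 hP h5
    rw [← hδ'] at h5 hN hδ
    rw [← hP] at hN
    have hA0 : 0 ≤ A := by rw [hA]; exact abs_nonneg _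
    have hB0 : 0 ≤ B := by rw [hB]; exact abs_nonneg _
    have h6 : A ^ 2 + B ^ 2 ≤ 2 * E * (A * B) := by nlinarith
    have h7 : (q * δ) ^ 2 ≤ 4 * E * (A * B) := by
      have : (q * δ) ^ 2 ≤ (A + B) ^ 2 := pow_le_pow_left₀ (by positivity) h5 2
      nlinarith [sq_nonneg (A - B)]
    have h8 : (q * δ) ^ 2 ≤ 4 * (C * q) * (A * B) := by
      refine h7.trans ?_
      have : 4 * E ≤ 4 * (C * q) := by rw [hE]; linarith
      exact mul_le_mul_of_nonneg_right this (by positivity)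
    have h9 : q * (q * δ ^ 2) ≤ q * (A * B * (4 * C)) := by nlinarith
    exact absurd (le_of_mul_le_mul_left h9 hq0) (not_le.2 hN)

/-- the elements `t + ω` -/
noncomputable def xt (S : RQ K) (t : ℕ) : 𝓞 K := (t : 𝓞 K) + S.ω

/-- the polynomial of `ω` -/
noncomputable def fi (S : RQ K) (t : ℕ) : ℤ :=
  (t : ℤ) ^ 2 + t * Algebra.trace ℤ (𝓞 K) S.ω + Algebra.norm ℤ S.ω

lemma fi_eq (S : RQ K) (t : ℕ) : (fi S t : 𝓞 K) = xt S t * S.σ (xt S t) := by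
  unfold fi xt
  have h1 := S.norm S.ω
  have h2 := S.trace S.ω
  push_cast
  rw [h1, h2, map_add, map_natCast]
  ring

/-- two elements `t + ω` whose squared quotients are conjugate up to units are equal -/
lemma eq_of_int (S : RQ K) {T₀ : ℝ} (h0 : ∀ t : ℕ, T₀ ≤ t → 0 < S.τ (S.σ (xt S t)) ∧
    S.τ (xt S t) < S.τ S.ε * S.τ (S.σ (xt S t))) {t s : ℕ} (ht : T₀ ≤ t) (hs : T₀ ≤ s)
    (u : (𝓞 K)ˣ) (a : ℤ) (h : xt S t ^ 2 * S.σ (xt S s) ^ 2 * u = a) : t = s := by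
  have hδ := S.pos
  rw [map_sub] at hδ
  obtain ⟨t2, ht2⟩ := h0 t ht
  obtain ⟨s2, hs2⟩ := h0 s hs
  have e := S.one_lt
  have hx : ∀ r : ℕ, S.τ (xt S r) = r + S.τ S.ω ∧ S.τ (S.σ (xt S r)) = r + S.τ (S.σ S.ω) := by
    intro r
    unfold xt
    rw [map_add, map_add, map_add, map_natCast, map_natCast, map_natCast]
    exact ⟨rfl, rfl⟩
  obtain ⟨A, hA⟩ : ∃ A : ℝ, A = S.τ (xt S t) := ⟨_, rfl⟩
  obtain ⟨A', hA'⟩ : ∃ A : ℝ, A = S.τ (S.σ (xt S t)) := ⟨_, rfl⟩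
  obtain ⟨B, hB⟩ : ∃ A : ℝ, A = S.τ (xt S s) := ⟨_, rfl⟩
  obtain ⟨B', hB'⟩ : ∃ A : ℝ, A = S.τ (S.σ (xt S s)) := ⟨_, rfl⟩
  obtain ⟨ee, hee⟩ : ∃ A : ℝ, A = S.τ S.ε := ⟨_, rfl⟩
  rw [← hA, ← hA', ← hee] at ht2
  rw [← hA'] at t2
  rw [← hB, ← hB', ← hee] at hs2
  rw [← hB'] at s2
  rw [← hee] at e
  have hAA : A' ≤ A := by rw [hA, hA', (hx t).1, (hx t).2]; linarith
  have hBB : B' ≤ B := by rw [hB, hB', (hx s).1, (hx s).2]; linarith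
  have hA0 : 0 < A := by linarith
  have hB0 : 0 < B := by linarith
  -- the real numbers
  have h1 := congrArg S.τ h
  rw [map_mul, map_mul, map_pow, map_pow, map_intCast, ← hA, ← hB'] at h1
  have h2 := congrArg S.τ (congrArg S.σ h)
  rw [map_intCast, map_intCast, map_mul, map_mul, map_mul, map_mul, map_pow, map_pow, map_pow,
    map_pow, S.inv, ← hA', ← hB] at h2
  have h3 : A ^ 2 * B' ^ 2 * |S.τ u| = A' ^ 2 * B ^ 2 * |S.τ (S.σ u)| := by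
    have h4 : |A ^ 2 * B' ^ 2 * S.τ u| = |A' ^ 2 * B ^ 2 * S.τ (S.σ u)| := by rw [h1, h2]
    rw [abs_mul (A ^ 2 * B' ^ 2), abs_mul (A' ^ 2 * B ^ 2),
      abs_of_nonneg (show 0 ≤ A ^ 2 * B' ^ 2 by positivity),
      abs_of_nonneg (show 0 ≤ A' ^ 2 * B ^ 2 by positivity)] at h4
    exact h4
  have h4 := unit_abs S u
  have h5 : (A * B' * |S.τ u|) ^ 2 = (A' * B) ^ 2 := by
    have : (A * B' * |S.τ u|) ^ 2 = A ^ 2 * B' ^ 2 * |S.τ u| * |S.τ u| := by ring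
    rw [this, h3]
    have : A' ^ 2 * B ^ 2 * |S.τ (S.σ u)| * |S.τ u| =
        A' ^ 2 * B ^ 2 * (|S.τ u| * |S.τ (S.σ u)|) := by ring
    rw [this, h4]
    ring
  have h6 : A * B' * |S.τ u| = A' * B :=
    (pow_left_inj₀ (by positivity) (by positivity) two_ne_zero).1 h5
  obtain ⟨m, hm⟩ : ∃ m : ℤ, |S.τ u| = ee ^ m := by
    obtain ⟨k, hk | hk⟩ := S.unit u
    · refine ⟨k, ?_⟩
      rw [hk, tau_zpow, ← hee, abs_of_pos (by positivity)]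
    · refine ⟨k, ?_⟩
      rw [hk, Units.val_neg, map_neg, abs_neg, tau_zpow, ← hee, abs_of_pos (by positivity)]
  rw [hm] at h6
  have hm0 : m = 0 := by
    rcases lt_trichotomy m 0 with hlt | heq | hgt
    · exfalso
      have h7 : ee ^ m ≤ ee ^ (-1 : ℤ) := zpow_le_zpow_right₀ e.le (by omega)
      rw [zpow_neg_one] at h7
      have h8 : A * B' * ee ^ m ≤ A * B' * ee⁻¹ := mul_le_mul_of_nonneg_left h7 (by positivity)
      have h9 : A * B' * ee⁻¹ < A' * B := by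
        rw [← div_eq_mul_inv, div_lt_iff₀ (by linarith)]
        calc A * B' < ee * A' * B' := mul_lt_mul_of_pos_right ht2 s2
          _ ≤ ee * A' * B := mul_le_mul_of_nonneg_left hBB (by positivity)
          _ = A' * B * ee := by ring
      linarith
    · exact heq
    · exfalso
      have h7 : ee ^ (1 : ℤ) ≤ ee ^ m := zpow_le_zpow_right₀ e.le (by omega)
      rw [zpow_one] at h7
      have h8 : A * B' * ee ≤ A * B' * ee ^ m := mul_le_mul_of_nonneg_left h7 (by positivity)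
      have h9 : A' * B < A * B' * ee := by
        calc A' * B ≤ A * B := mul_le_mul_of_nonneg_right hAA hB0.le
          _ < A * (ee * B') := mul_lt_mul_of_pos_left hs2 hA0
          _ = A * B' * ee := by ring
      linarith
  rw [hm0, zpow_zero, mul_one, hA, hB', hA', hB, (hx t).1, (hx t).2, (hx s).1, (hx s).2] at h6
  have h7 : ((t : ℝ) - s) * (S.τ S.ω - S.τ (S.σ S.ω)) = 0 := by nlinarith
  rcases mul_eq_zero.1 h7 with h8 | h8
  · exact_mod_cast sub_eq_zero.1 h8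
  · linarith

/-- the number `T₀` exists -/
lemma exists_T0 (S : RQ K) : ∃ T₀ : ℝ, 1 ≤ T₀ ∧ ∀ t : ℕ, T₀ ≤ t → 0 < S.τ (S.σ (xt S t)) ∧
    S.τ (xt S t) < S.τ S.ε * S.τ (S.σ (xt S t)) := by
  have e := S.one_lt
  have hδ := S.pos
  rw [map_sub] at hδ
  obtain ⟨w1, hw1⟩ : ∃ A : ℝ, A = S.τ S.ω := ⟨_, rfl⟩
  obtain ⟨w2, hw2⟩ : ∃ A : ℝ, A = S.τ (S.σ S.ω) := ⟨_, rfl⟩
  obtain ⟨ee, hee⟩ : ∃ A : ℝ, A = S.τ S.ε := ⟨_, rfl⟩
  rw [← hw1, ← hw2] at hδ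
  rw [← hee] at e
  have he : 0 < ee - 1 := by linarith
  have hd : 0 < (w1 - w2) / (ee - 1) := div_pos hδ he
  refine ⟨1 + |w2| + (w1 - w2) / (ee - 1), by have := abs_nonneg w2; linarith, fun t ht => ?_⟩
  unfold xt
  rw [map_add, map_add, map_add, map_natCast, map_natCast, ← hw1, ← hw2, ← hee]
  have h1 := neg_abs_le w2
  have h2 : (w1 - w2) / (ee - 1) < t + w2 := by linarith
  rw [div_lt_iff₀ he] at h2
  constructor
  · linarith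
  · nlinarith

/-! ### Characters -/

/-- powers of characters -/
lemma pow_mem {q : ℕ} {χ : Ideal (𝓞 K) →*₀ ℂ} (hχ : χ ∈ XX K q q) (k : ℕ) :
    (powMonoidWithZeroHom (Nat.succ_ne_zero k)).comp χ ∈ XX K q q := by
  obtain ⟨⟨h1, h2⟩, -⟩ := hχ
  have h3 : ∀ x : 𝓞 K, Zd q x → Cop q (Ideal.span {x}) →
      ((powMonoidWithZeroHom (Nat.succ_ne_zero k)).comp χ) (Ideal.span {x}) = 1 := by
    intro x hx hx2
    show χ (Ideal.span {x}) ^ (k + 1) = 1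
    rw [h2 x hx hx2, one_pow]
  refine ⟨⟨fun 𝔞 => ?_, h3⟩, h3⟩
  rw [← h1 𝔞]
  show χ 𝔞 ^ (k + 1) ≠ 0 ↔ _
  rw [Ne, pow_eq_zero_iff (Nat.succ_ne_zero k)]

lemma norm_one {q : ℕ} (hf : (XX K q q).Finite) {χ : Ideal (𝓞 K) →*₀ ℂ} (hχ : χ ∈ XX K q q)
    {𝔟 : Ideal (𝓞 K)} (hb : Cop q 𝔟) : ‖χ 𝔟‖ = 1 := by
  have hne : χ 𝔟 ≠ 0 := (hχ.1.supp 𝔟).2 hb
  have hpos : 0 < ‖χ 𝔟‖ := norm_pos_iff.2 hne
  have : Finite (XX K q q) := hf
  obtain ⟨i, j, hij, h⟩ := Finite.exists_ne_map_eq_of_infinite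
    (fun k : ℕ => (⟨_, pow_mem hχ k⟩ : XX K q q))
  have h1 := congrArg (fun f : XX K q q => ‖f.1 𝔟‖) h
  change ‖χ 𝔟 ^ (i + 1)‖ = ‖χ 𝔟 ^ (j + 1)‖ at h1
  rw [norm_pow, norm_pow] at h1
  by_contra hcon
  have := pow_right_injective₀ hpos hcon h1
  omega

lemma Cop_cj (S : RQ K) {q : ℕ} {𝔟 : Ideal (𝓞 K)} (hb : Cop q 𝔟) : Cop q (S.cj 𝔟) := by
  have h := IsCoprime.map hb (Ideal.mapHom (S.σ : 𝓞 K →+* 𝓞 K))
  have e : Ideal.mapHom (S.σ : 𝓞 K →+* 𝓞 K) (Ideal.span {(q : 𝓞 K)}) = Ideal.span {(q : 𝓞 K)} := by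
    show Ideal.map (S.σ : 𝓞 K →+* 𝓞 K) (Ideal.span {(q : 𝓞 K)}) = _
    rw [Ideal.map_span, Set.image_singleton]
    congr 2
    exact map_natCast S.σ q
  rw [e] at h
  exact h

lemma Cop_mul {q : ℕ} {𝔞 𝔟 : Ideal (𝓞 K)} (ha : Cop q 𝔞) (hb : Cop q 𝔟) : Cop q (𝔞 * 𝔟) :=
  IsCoprime.mul_left ha hb

lemma conj_chi (hc : S_conj) (S : RQ K) {q : ℕ} (hf : (XX K q q).Finite)
    {χ : Ideal (𝓞 K) →*₀ ℂ} (hχ : χ ∈ XX K q q) {𝔟 : Ideal (𝓞 K)} (hb : Cop q 𝔟) :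
    (starRingEnd ℂ) (χ 𝔟) = χ (S.cj 𝔟) := by
  have h1 := (hc K S).2.2.2.2 𝔟
  have h2 : χ (𝔟 * S.cj 𝔟) = 1 := by
    rw [h1]
    refine hχ.1.one _ ?_ ?_
    · have := Zd_int (K := K) q ((Ideal.absNorm 𝔟 : ℕ) : ℤ)
      rwa [Int.cast_natCast] at this
    · rw [← h1]
      exact Cop_mul hb (Cop_cj S hb)
  rw [map_mul] at h2
  have h3 : χ 𝔟 * (starRingEnd ℂ) (χ 𝔟) = 1 := by
    rw [Complex.mul_conj', norm_one hf hχ hb]
    norm_num
  have hne : χ 𝔟 ≠ 0 := (hχ.1.supp 𝔟).2 hb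
  exact mul_left_cancel₀ hne (h3.trans h2.symm)

/-- the second moment -/
lemma moment (hc : S_conj) (ho : S_orth) (S : RQ K) {q : ℕ} (hq : 2 ≤ q)
    (hf : (XX K q q).Finite) (A : Finset ℕ) (I : ℕ → Ideal (𝓞 K)) (hI : ∀ t ∈ A, Cop q (I t))
    (hP : ∀ t ∈ A, ∀ s ∈ A, Pr q (I t * S.cj (I s)) → t = s) :
    ∑ χ ∈ hf.toFinset, ‖∑ t ∈ A, χ (I t)‖ ^ 2 ≤ ((XX K q q).ncard : ℝ) * A.card := by
  obtain ⟨-, -, h3⟩ := ho K S q q hq dvd_rfl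
  have h4 : ∀ 𝔞 : Ideal (𝓞 K), ∑ᶠ χ ∈ XX K q q, χ 𝔞 = ∑ χ ∈ hf.toFinset, χ 𝔞 := fun 𝔞 =>
    finsum_mem_eq_finite_toFinset_sum _ hf
  have h5 : ((∑ χ ∈ hf.toFinset, ‖∑ t ∈ A, χ (I t)‖ ^ 2 : ℝ) : ℂ) =
      ∑ t ∈ A, ∑ s ∈ A, ∑ χ ∈ hf.toFinset, χ (I t * S.cj (I s)) := by
    push_cast
    have h6 : ∀ χ ∈ hf.toFinset, ((‖∑ t ∈ A, χ (I t)‖ : ℝ) : ℂ) ^ 2 =
        ∑ t ∈ A, ∑ s ∈ A, χ (I t * S.cj (I s)) := by
      intro χ hχ
      rw [Set.Finite.mem_toFinset] at hχ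
      rw [← Complex.mul_conj', map_sum, Finset.sum_mul_sum]
      refine Finset.sum_congr rfl fun t _ => Finset.sum_congr rfl fun s hs => ?_
      rw [conj_chi hc S hf hχ (hI s hs), map_mul]
    rw [Finset.sum_congr rfl h6, Finset.sum_comm]
    refine Finset.sum_congr rfl fun t _ => ?_
    rw [Finset.sum_comm]
  have h7 : ∀ t ∈ A, ∑ s ∈ A, ∑ χ ∈ hf.toFinset, χ (I t * S.cj (I s)) =
      ((XX K q q).ncard : ℂ) := by
    intro t ht
    rw [Finset.sum_eq_single_of_mem t ht]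
    · rw [← h4]
      refine (h3 _ (Cop_mul (hI t ht) (Cop_cj S (hI t ht)))).1 ?_
      rw [(hc K S).2.2.2.2]
      refine ⟨_, ?_, rfl⟩
      have := Zd_int (K := K) q ((Ideal.absNorm (I t) : ℕ) : ℤ)
      rwa [Int.cast_natCast] at this
    · intro s hs hst
      rw [← h4]
      exact (h3 _ (Cop_mul (hI t ht) (Cop_cj S (hI s hs)))).2 fun h => hst (hP t ht s hs h).symm
  rw [Finset.sum_congr rfl h7, Finset.sum_const, nsmul_eq_mul] at h5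
  have h8 : ∑ χ ∈ hf.toFinset, ‖∑ t ∈ A, χ (I t)‖ ^ 2 = (A.card : ℝ) * ((XX K q q).ncard : ℝ) := by
    exact_mod_cast h5
  rw [h8, mul_comm]

/-- the real characters -/
def RR (K : Type) [Field K] [NumberField K] (q : ℕ) : Set (Ideal (𝓞 K) →*₀ ℂ) :=
  {χ | IsRC q χ ∧ ∀ 𝔞, Cop q 𝔞 → χ 𝔞 ^ 2 = 1}

lemma RR_sub (q : ℕ) : RR K q ⊆ XX K q q := fun _ hχ => ⟨hχ.1, hχ.1.one⟩

lemma card_real (hc : S_conj) (ho : S_orth) (S : RQ K) {q : ℕ} (hq : 2 ≤ q)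
    (hf : (XX K q q).Finite) (A : Finset ℕ) (x : ℕ → 𝓞 K)
    (hI : ∀ t ∈ A, Cop q (Ideal.span {x t})) (hA : A.Nonempty)
    (hP : ∀ t ∈ A, ∀ s ∈ A, Pr q (Ideal.span {x t ^ 2} * S.cj (Ideal.span {x s ^ 2})) → t = s) :
    ((RR K q).ncard : ℝ) * A.card ≤ ((XX K q q).ncard : ℝ) := by
  have hfR : (RR K q).Finite := hf.subset (RR_sub q)
  have hI2 : ∀ t ∈ A, Cop q (Ideal.span {x t ^ 2}) := by
    intro t ht
    rw [← Ideal.span_singleton_pow, sq]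
    exact Cop_mul (hI t ht) (hI t ht)
  have h1 := moment hc ho S hq hf A (fun t => Ideal.span {x t ^ 2}) hI2 hP
  have h2 : ∑ χ ∈ hfR.toFinset, ‖∑ t ∈ A, χ (Ideal.span {x t ^ 2})‖ ^ 2 ≤
      ∑ χ ∈ hf.toFinset, ‖∑ t ∈ A, χ (Ideal.span {x t ^ 2})‖ ^ 2 := by
    refine Finset.sum_le_sum_of_subset_of_nonneg ?_ fun _ _ _ => sq_nonneg _
    intro χ hχ
    rw [Set.Finite.mem_toFinset] at hχ ⊢
    exact RR_sub q hχ
  have h3 : ∀ χ ∈ hfR.toFinset, ‖∑ t ∈ A, χ (Ideal.span {x t ^ 2})‖ ^ 2 = (A.card : ℝ) ^ 2 := by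
    intro χ hχ
    rw [Set.Finite.mem_toFinset] at hχ
    have h4 : ∑ t ∈ A, χ (Ideal.span {x t ^ 2}) = (A.card : ℂ) := by
      rw [Finset.card_eq_sum_ones, Nat.cast_sum]
      refine Finset.sum_congr rfl fun t ht => ?_
      rw [← Ideal.span_singleton_pow, map_pow, hχ.2 _ (hI t ht), Nat.cast_one]
    rw [h4, Complex.norm_natCast]
  rw [Finset.sum_congr rfl h3, Finset.sum_const, nsmul_eq_mul,
    ← Set.ncard_eq_toFinset_card _ hfR] at h2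
  have hA0 : (0 : ℝ) < A.card := by exact_mod_cast hA.card_pos
  refine le_of_mul_le_mul_right ?_ hA0
  calc ((RR K q).ncard : ℝ) * A.card * A.card = ((RR K q).ncard : ℝ) * (A.card : ℝ) ^ 2 := by ring
    _ ≤ _ := h2.trans h1

/-! ### Counting -/

/-- residue classes -/
lemma card_class {p T : ℕ} (B : Finset ℕ) (hB : B ⊆ Finset.range (T + 1))
    (h : ∀ t ∈ B, ∀ s ∈ B, (p : ℤ) ∣ (t : ℤ) - s) : B.card ≤ T / p + 1 := by
  have h1 : B.card ≤ (Finset.range (T / p + 1)).card := by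
    refine Finset.card_le_card_of_injOn (fun t => t / p) ?_ ?_
    · intro t ht
      have := Finset.mem_range.1 (hB ht)
      rw [Finset.mem_coe, Finset.mem_range]
      exact Nat.lt_succ_of_le (Nat.div_le_div_right (by omega))
    · intro t ht s hs hts
      have h2 := h t ht s hs
      have h3 : t % p = s % p := by
        have h4 : (s : ℤ) ≡ t [ZMOD p] := Int.modEq_iff_dvd.2 h2
        exact (Int.natCast_modEq_iff.1 h4).symm
      have h4 : t / p = s / p := hts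
      rw [← Nat.div_add_mod t p, ← Nat.div_add_mod s p, h3, h4]
  rwa [Finset.card_range] at h1

lemma card_root (S : RQ K) {p : ℕ} (hp : p.Prime) (T : ℕ) :
    ((Finset.range (T + 1)).filter fun t => (p : ℤ) ∣ fi S t).card ≤ 2 * (T / p + 1) := by
  obtain ⟨B, hB⟩ : ∃ B : Finset ℕ, B = (Finset.range (T + 1)).filter fun t => (p : ℤ) ∣ fi S t :=
    ⟨_, rfl⟩
  rw [← hB]
  rcases B.eq_empty_or_nonempty with h0 | ⟨r, hr⟩
  · rw [h0]
    simp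
  · have hBm : ∀ t, t ∈ B ↔ t ∈ Finset.range (T + 1) ∧ (p : ℤ) ∣ fi S t := by
      intro t
      rw [hB, Finset.mem_filter]
    have hsub : B ⊆ (B.filter fun t : ℕ => (p : ℤ) ∣ (t : ℤ) - r) ∪
        (B.filter fun t : ℕ => (p : ℤ) ∣ (t : ℤ) + r + Algebra.trace ℤ (𝓞 K) S.ω) := by
      intro t ht
      have h1 : (p : ℤ) ∣ ((t : ℤ) - r) * ((t : ℤ) + r + Algebra.trace ℤ (𝓞 K) S.ω) := by
        have h2 := dvd_sub ((hBm t).1 ht).2 ((hBm r).1 hr).2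
        have e : fi S t - fi S r = ((t : ℤ) - r) * ((t : ℤ) + r + Algebra.trace ℤ (𝓞 K) S.ω) := by
          unfold fi
          ring
        rwa [e] at h2
      rw [Finset.mem_union, Finset.mem_filter, Finset.mem_filter]
      rcases (Nat.prime_iff_prime_int.1 hp).dvd_or_dvd h1 with h2 | h2
      · exact Or.inl ⟨ht, h2⟩
      · exact Or.inr ⟨ht, h2⟩
    refine (Finset.card_le_card hsub).trans ((Finset.card_union_le _ _).trans ?_)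
    have h1 : (B.filter fun t : ℕ => (p : ℤ) ∣ (t : ℤ) - r).card ≤ T / p + 1 := by
      refine card_class _ (fun t ht => ((hBm t).1 (Finset.mem_filter.1 ht).1).1) fun t ht s hs => ?_
      have h2 := dvd_sub (Finset.mem_filter.1 ht).2 (Finset.mem_filter.1 hs).2
      have e : (t : ℤ) - r - (s - r) = t - s := by ring
      rwa [e] at h2
    have h2 : (B.filter fun t : ℕ => (p : ℤ) ∣ (t : ℤ) + r + Algebra.trace ℤ (𝓞 K) S.ω).card ≤
        T / p + 1 := by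
      refine card_class _ (fun t ht => ((hBm t).1 (Finset.mem_filter.1 ht).1).1) fun t ht s hs => ?_
      have h2 := dvd_sub (Finset.mem_filter.1 ht).2 (Finset.mem_filter.1 hs).2
      have e : (t : ℤ) + r + Algebra.trace ℤ (𝓞 K) S.ω - (s + r + Algebra.trace ℤ (𝓞 K) S.ω) =
        t - s := by ring
      rwa [e] at h2
    omega

lemma exists_prime (S : RQ K) {q t : ℕ} (hq : q ≠ 0) (h : ¬ Cop q (Ideal.span {xt S t})) :
    ∃ p ∈ q.primeFactors, (p : ℤ) ∣ fi S t := by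
  by_contra hcon
  push Not at hcon
  apply h
  have h1 : Int.gcd (fi S t) q = 1 := by
    rw [Int.gcd_eq_natAbs, Int.natAbs_natCast]
    refine Nat.Coprime.symm ?_
    refine Nat.Coprime.symm (Nat.coprime_of_dvd fun p hp h1 h2 => ?_)
    exact hcon p (Nat.mem_primeFactors.2 ⟨hp, h2, hq⟩) (Int.natCast_dvd.2 h1)
  obtain ⟨a, b, hab⟩ := Int.isCoprime_iff_gcd_eq_one.2 h1
  unfold Cop
  rw [Ideal.isCoprime_span_singleton_iff]
  refine ⟨a * S.σ (xt S t), b, ?_⟩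
  have h2 := congrArg (fun z : ℤ => (z : 𝓞 K)) hab
  simp only [Int.cast_add, Int.cast_mul, Int.cast_one, Int.cast_natCast] at h2
  rw [fi_eq] at h2
  linear_combination h2

open Classical in
lemma card_bad (S : RQ K) {q : ℕ} (hq : q ≠ 0) (T : ℕ) :
    ((((Finset.range (T + 1)).filter fun t => ¬ Cop q (Ideal.span {xt S t})).card : ℕ) : ℝ) ≤
      2 * T * ∑ d ∈ q.divisors.erase 1, (1 : ℝ) / d + 2 * q.divisors.card := by
  have h1 : ((Finset.range (T + 1)).filter fun t => ¬ Cop q (Ideal.span {xt S t})) ⊆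
      q.primeFactors.biUnion fun p => (Finset.range (T + 1)).filter fun t => (p : ℤ) ∣ fi S t := by
    intro t ht
    rw [Finset.mem_filter] at ht
    obtain ⟨p, hp, hpt⟩ := exists_prime S hq ht.2
    exact Finset.mem_biUnion.2 ⟨p, hp, Finset.mem_filter.2 ⟨ht.1, hpt⟩⟩
  have h2 : ((Finset.range (T + 1)).filter fun t => ¬ Cop q (Ideal.span {xt S t})).card ≤
      ∑ p ∈ q.primeFactors, 2 * (T / p + 1) :=
    (Finset.card_le_card h1).trans (Finset.card_biUnion_le.trans (Finset.sum_le_sum fun p hp =>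
      card_root S (Nat.prime_of_mem_primeFactors hp) T))
  have hsub : q.primeFactors ⊆ q.divisors.erase 1 := by
    intro p hp
    have h3 := Nat.mem_primeFactors.1 hp
    exact Finset.mem_erase.2 ⟨h3.1.one_lt.ne', Nat.mem_divisors.2 ⟨h3.2.1, hq⟩⟩
  have h3 : (((∑ p ∈ q.primeFactors, 2 * (T / p + 1) : ℕ)) : ℝ) ≤
      ∑ p ∈ q.primeFactors, (2 * T * ((1 : ℝ) / p) + 2) := by
    push_cast
    refine Finset.sum_le_sum fun p _ => ?_
    have h4 : (((T / p : ℕ)) : ℝ) ≤ (T : ℝ) / p := Nat.cast_div_le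
    have e : (2 : ℝ) * T * (1 / p) = 2 * (T / p) := by ring
    rw [e]
    linarith
  calc _ ≤ (((∑ p ∈ q.primeFactors, 2 * (T / p + 1) : ℕ)) : ℝ) := by exact_mod_cast h2
    _ ≤ ∑ p ∈ q.primeFactors, (2 * T * ((1 : ℝ) / p) + 2) := h3
    _ ≤ ∑ p ∈ q.divisors.erase 1, (2 * T * ((1 : ℝ) / p) + 2) :=
        Finset.sum_le_sum_of_subset_of_nonneg hsub fun _ _ _ => by positivity
    _ = 2 * T * ∑ d ∈ q.divisors.erase 1, (1 : ℝ) / d + 2 * (q.divisors.erase 1).card := by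
        rw [Finset.sum_add_distrib, ← Finset.mul_sum, Finset.sum_const, nsmul_eq_mul]
        ring
    _ ≤ _ := by
        have : ((q.divisors.erase 1).card : ℝ) ≤ q.divisors.card := by
          exact_mod_cast Finset.card_le_card (Finset.erase_subset _ _)
        linarith

/-! ### The size of the numbers -/

lemma fi_le (S : RQ K) {t T : ℕ} (ht : t ≤ T) (hT : 1 ≤ T) : |(fi S t : ℝ)| ≤
    (1 + |(Algebra.trace ℤ (𝓞 K) S.ω : ℝ)| + |(Algebra.norm ℤ S.ω : ℝ)|) * (T : ℝ) ^ 2 := by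
  unfold fi
  have h1 : (1 : ℝ) ≤ T := by exact_mod_cast hT
  have h2 : (t : ℝ) ≤ T := by exact_mod_cast ht
  have h0 : (0 : ℝ) ≤ t := Nat.cast_nonneg t
  obtain ⟨a, ha⟩ : ∃ a : ℝ, a = (Algebra.trace ℤ (𝓞 K) S.ω : ℝ) := ⟨_, rfl⟩
  obtain ⟨b, hb⟩ : ∃ b : ℝ, b = (Algebra.norm ℤ S.ω : ℝ) := ⟨_, rfl⟩
  push_cast
  rw [← ha, ← hb]
  have h3 : |(t : ℝ) ^ 2 + t * a + b| ≤ (t : ℝ) ^ 2 + t * |a| + |b| := by
    refine (abs_add_le _ _).trans (add_le_add_left ?_ _)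
    refine (abs_add_le _ _).trans ?_
    rw [abs_mul, abs_of_nonneg (sq_nonneg (t : ℝ)), abs_of_nonneg h0]
  refine h3.trans ?_
  have ha0 := abs_nonneg a
  have hb0 := abs_nonneg b
  have h4 : (t : ℝ) ^ 2 ≤ (T : ℝ) ^ 2 := pow_le_pow_left₀ h0 h2 2
  have h5 : (t : ℝ) * |a| ≤ (T : ℝ) ^ 2 * |a| :=
    mul_le_mul_of_nonneg_right (h2.trans (by nlinarith)) ha0
  have h6 : |b| ≤ (T : ℝ) ^ 2 * |b| := le_mul_of_one_le_left hb0 (one_le_pow₀ h1)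
  have e : (1 + |a| + |b|) * (T : ℝ) ^ 2 = (T : ℝ) ^ 2 + (T : ℝ) ^ 2 * |a| + (T : ℝ) ^ 2 * |b| := by
    ring
  rw [e]
  linarith

lemma fi_abs (S : RQ K) (t : ℕ) : |S.τ (xt S t)| * |S.τ (S.σ (xt S t))| = |(fi S t : ℝ)| := by
  rw [← abs_mul, ← map_mul, ← fi_eq, map_intCast]

lemma fi_ne (S : RQ K) {t : ℕ} (h : xt S t ≠ 0) : (0 : ℝ) < |(fi S t : ℝ)| := by
  rw [← fi_abs]
  exact mul_pos (abs_pos.2 (tau_ne S h)) (abs_pos.2 (tau_ne S (sig_ne S h)))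

lemma xt_ne (S : RQ K) (t : ℕ) : xt S t ≠ 0 := by
  intro h
  have := (S.indep t 1 (by
    unfold xt at h
    push_cast
    rw [one_mul]
    exact h)).2
  exact one_ne_zero this

/-- different `t` give different classes -/
lemma inj_class (hc : S_conj) (S : RQ K) {n q : ℕ} (hn : n ≠ 0) (hq : 0 < q)
    (hε : Zd q ((S.ε : 𝓞 K) ^ n)) {C : ℝ} (hC0 : 0 < C) (hC : S.τ S.ε ^ n ≤ C * q)
    {T₀ : ℝ} (h0 : ∀ t : ℕ, T₀ ≤ t → 0 < S.τ (S.σ (xt S t)) ∧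
    S.τ (xt S t) < S.τ S.ε * S.τ (S.σ (xt S t))) {T : ℕ} (hT : 1 ≤ T)
    (hbig : ((1 + |(Algebra.trace ℤ (𝓞 K) S.ω : ℝ)| + |(Algebra.norm ℤ S.ω : ℝ)|) *
      (T : ℝ) ^ 2) ^ 4 * (4 * C) < q * S.τ (S.ω - S.σ S.ω) ^ 2)
    {t s : ℕ} (ht0 : T₀ ≤ t) (hs0 : T₀ ≤ s) (ht : t ≤ T) (hs : s ≤ T)
    (hP : Pr q (Ideal.span {xt S t ^ 2} * S.cj (Ideal.span {xt S s ^ 2}))) : t = s := by
  obtain ⟨y, hyZ, hy⟩ := hP
  rw [(hc K S).2.2.2.1, Ideal.span_singleton_mul_span_singleton,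
    Ideal.span_singleton_eq_span_singleton] at hy
  obtain ⟨u, hu⟩ := hy
  have hxt := xt_ne S t
  have hxs := xt_ne S s
  have hw0 : xt S t ^ 2 * S.σ (xt S s ^ 2) ≠ 0 :=
    mul_ne_zero (pow_ne_zero 2 hxt) (sig_ne S (pow_ne_zero 2 hxs))
  have hy0 : y ≠ 0 := by
    rw [← hu]
    exact mul_ne_zero hw0 u.ne_zero
  have hNy : |S.τ y| * |S.τ (S.σ y)| = |(fi S t : ℝ)| ^ 2 * |(fi S s : ℝ)| ^ 2 := by
    rw [← hu, ← fi_abs, ← fi_abs]
    have h1 := unit_abs S u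
    simp only [map_mul, map_pow, abs_mul, abs_pow, S.inv]
    linear_combination (|S.τ (xt S t)| ^ 2 * |S.τ (S.σ (xt S s))| ^ 2 *
      |S.τ (S.σ (xt S t))| ^ 2 * |S.τ (xt S s)| ^ 2) * h1
  have hNle : |S.τ y| * |S.τ (S.σ y)| * (4 * C) < q * S.τ (S.ω - S.σ S.ω) ^ 2 := by
    refine lt_of_le_of_lt ?_ hbig
    refine mul_le_mul_of_nonneg_right ?_ (by positivity)
    rw [hNy]
    have h1 := fi_le S ht hT
    have h2 := fi_le S hs hT
    calc |(fi S t : ℝ)| ^ 2 * |(fi S s : ℝ)| ^ 2 ≤ _ ^ 2 * _ ^ 2 :=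
          mul_le_mul (pow_le_pow_left₀ (abs_nonneg _) h1 2) (pow_le_pow_left₀ (abs_nonneg _) h2 2)
            (by positivity) (by positivity)
      _ = _ := by ring
  obtain ⟨v, a, hv⟩ := int_of_small S hn hq hε hC hy0 hyZ hNle
  refine eq_of_int S h0 ht0 hs0 (u * v) a ?_
  rw [← hv, ← hu, Units.val_mul, map_pow]
  ring

end Rea

open Rea in
/-- **RS11.** -/
theorem t_real (h : S_seq) (h2 : S_seq2) (hc : S_conj) (ho : S_orth) (hu : S_cardU) : S_real := by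
  intro K _ _ S
  classical
  obtain ⟨Cu, hCu0, hCu⟩ := hu K S
  obtain ⟨-, C, n1, hC1, hseq⟩ := h K S
  obtain ⟨h2i, -, h2iii, h2iv, n5, h2v⟩ := h2 K S
  obtain ⟨T₀, hT₀1, hT₀⟩ := exists_T0 S
  obtain ⟨C1, hC1'⟩ : ∃ C1 : ℝ, C1 = 1 + |(Algebra.trace ℤ (𝓞 K) S.ω : ℝ)| +
    |(Algebra.norm ℤ S.ω : ℝ)| := ⟨_, rfl⟩
  obtain ⟨δ, hδ⟩ : ∃ δ : ℝ, δ = S.τ (S.ω - S.σ S.ω) := ⟨_, rfl⟩
  have hδ0 : 0 < δ := by rw [hδ]; exact S.pos
  have hC10 : 0 < C1 := by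
    rw [hC1']
    positivity
  obtain ⟨Z, hZ⟩ : ∃ Z : ℝ, Z = 2 + T₀ + C1 ^ 4 * (4 * C) / δ ^ 2 := ⟨_, rfl⟩
  have hD0 : 0 ≤ C1 ^ 4 * (4 * C) / δ ^ 2 := by positivity
  have hZ2 : 3 ≤ Z := by rw [hZ]; linarith
  obtain ⟨n2, hn2⟩ := h2i (1 / 8) (by norm_num)
  obtain ⟨n3, hn3⟩ := h2iii (1 / 100) (by norm_num)
  obtain ⟨n4, hn4⟩ := h2iv (⌈Z ^ 900⌉₊ + 2)
  refine ⟨2 * Cu, max (max (max n1 n2) (max n3 n4)) (max n5 1), by positivity,
    fun n q hn hU => ?_⟩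
  have hn1 : n1 ≤ n := le_trans (by simp) hn
  have hn2' : n2 ≤ n := le_trans (by simp) hn
  have hn3' : n3 ≤ n := le_trans (by simp) hn
  have hn4' : n4 ≤ n := le_trans (by simp) hn
  have hn5' : n5 ≤ n := le_trans (by simp) hn
  have hn0 : n ≠ 0 := by
    have : 1 ≤ n := le_trans (by simp) hn
    omega
  have hqZ := hn4 n q hn4' hU
  have hq2 : 2 ≤ q := by omega
  have hq0 : q ≠ 0 := by omega
  have hqpos : 0 < q := by omega
  have hqR : (0 : ℝ) < q := by exact_mod_cast hqpos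
  obtain ⟨hε, -, -, hEC, -⟩ := hseq n q hn1 hU
  have hsum := hn2 n q hn2' hU
  have hdiv := (hn3 n q hn3' hU).2
  have htot := h2v n q hn5' hU q dvd_rfl
  -- the number z
  obtain ⟨z, hz⟩ : ∃ z : ℝ, z = (q : ℝ) ^ (1 / 900 : ℝ) := ⟨_, rfl⟩
  have hz0 : 0 < z := by rw [hz]; positivity
  have hzpow : ∀ k : ℕ, z ^ k = (q : ℝ) ^ ((k : ℝ) / 900) := by
    intro k
    rw [hz, ← Real.rpow_natCast, ← Real.rpow_mul hqR.le]
    congr 1
    ring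
  have hz900 : z ^ 900 = q := by
    rw [hzpow]
    norm_num
  have hz9 : (q : ℝ) ^ (1 / 100 : ℝ) = z ^ 9 := by
    rw [hzpow]
    congr 1
    norm_num
  have hz90 : (q : ℝ) = (q : ℝ) ^ (9 / 10 : ℝ) * z ^ 90 := by
    rw [hzpow, ← Real.rpow_add hqR]
    norm_num
  have hzZ : Z ≤ z := by
    by_contra hcon
    push Not at hcon
    have h1 : z ^ 900 < Z ^ 900 := pow_lt_pow_left₀ hcon hz0.le (by norm_num)
    rw [hz900] at h1
    have h3 : Z ^ 900 ≤ (⌈Z ^ 900⌉₊ : ℝ) := Nat.le_ceil _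
    have h4 : ((⌈Z ^ 900⌉₊ + 2 : ℕ) : ℝ) ≤ q := by exact_mod_cast hqZ
    push_cast at h4
    linarith
  have hz3 : 3 ≤ z := by linarith
  have hz1 : 1 ≤ z := by linarith
  -- the numbers t
  obtain ⟨T, hT⟩ : ∃ T : ℕ, T = ⌊z ^ 100⌋₊ := ⟨_, rfl⟩
  have hTle : (T : ℝ) ≤ z ^ 100 := by rw [hT]; exact Nat.floor_le (by positivity)
  have hTge : z ^ 100 < T + 1 := by rw [hT]; exact Nat.lt_floor_add_one _
  have hz100 : z ≤ z ^ 100 := le_self_pow₀ hz1 (by norm_num)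
  have hT1 : 1 ≤ T := by
    have : (1 : ℝ) < T := by linarith
    exact_mod_cast this.le
  obtain ⟨A, hA⟩ : ∃ A : Finset ℕ, A = (Finset.range (T + 1)).filter fun t : ℕ =>
    T₀ ≤ t ∧ Cop q (Ideal.span {xt S t}) := ⟨_, rfl⟩
  have hAm : ∀ t, t ∈ A ↔ t ≤ T ∧ T₀ ≤ t ∧ Cop q (Ideal.span {xt S t}) := by
    intro t
    rw [hA, Finset.mem_filter, Finset.mem_range, Nat.lt_succ_iff]
  have hbad := card_bad S hq0 T
  have hcov : Finset.range (T + 1) ⊆ A ∪ (Finset.range ⌈T₀⌉₊ ∪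
      ((Finset.range (T + 1)).filter fun t => ¬ Cop q (Ideal.span {xt S t}))) := by
    intro t ht
    rw [Finset.mem_union, Finset.mem_union, hAm, Finset.mem_filter]
    by_cases h3 : T₀ ≤ t
    · by_cases h4 : Cop q (Ideal.span {xt S t})
      · exact Or.inl ⟨Nat.lt_succ_iff.1 (Finset.mem_range.1 ht), h3, h4⟩
      · exact Or.inr (Or.inr ⟨ht, h4⟩)
    · right
      left
      rw [Finset.mem_range, Nat.lt_ceil]
      exact not_le.1 h3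
  have hcard : (T : ℝ) + 1 ≤ A.card + (T₀ + 1 + (2 * T * (1 / 8) + 2 * z ^ 9)) := by
    have h3 := (Finset.card_le_card hcov).trans ((Finset.card_union_le _ _).trans
      (Nat.add_le_add_left (Finset.card_union_le _ _) _))
    rw [Finset.card_range, Finset.card_range] at h3
    have h4 : ((T + 1 : ℕ) : ℝ) ≤ ((A.card + (⌈T₀⌉₊ +
      ((Finset.range (T + 1)).filter fun t => ¬ Cop q (Ideal.span {xt S t})).card) : ℕ) : ℝ) := by
      exact_mod_cast h3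
    push_cast at h4
    have h5 : (⌈T₀⌉₊ : ℝ) < T₀ + 1 := Nat.ceil_lt_add_one (by linarith)
    have h6 : 2 * (T : ℝ) * ∑ d ∈ q.divisors.erase 1, (1 : ℝ) / d ≤ 2 * T * (1 / 8) :=
      mul_le_mul_of_nonneg_left hsum (by positivity)
    rw [hz9] at hdiv
    linarith
  have hM : z ^ 90 ≤ (A.card : ℝ) := by
    have h3 : z ^ 100 = z ^ 90 * z ^ 10 := by rw [← pow_add]
    have h4 : (3 : ℝ) ^ 10 ≤ z ^ 10 := pow_le_pow_left₀ (by norm_num) hz3 10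
    have h5 : z ^ 9 ≤ z ^ 90 := pow_le_pow_right₀ hz1 (by norm_num)
    have h6 : z ≤ z ^ 90 := le_self_pow₀ hz1 (by norm_num)
    have h7 : T₀ ≤ z := by linarith
    have h8 : 0 < z ^ 90 := by positivity
    have h9 : (1000 : ℝ) * z ^ 90 ≤ z ^ 100 := by
      rw [h3, mul_comm]
      refine mul_le_mul_of_nonneg_left ?_ h8.le
      norm_num at h4
      linarith
    linarith
  have hAne : A.Nonempty := by
    rw [← Finset.card_pos]
    have : (0 : ℝ) < A.card := lt_of_lt_of_le (by positivity) hM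
    exact_mod_cast this
  have hbig : (C1 * (T : ℝ) ^ 2) ^ 4 * (4 * C) < q * δ ^ 2 := by
    have h3 : (C1 * (T : ℝ) ^ 2) ^ 4 ≤ (C1 * (z ^ 100) ^ 2) ^ 4 := by
      gcongr
    have h4 : C1 ^ 4 * (4 * C) < z * δ ^ 2 := by
      rw [← div_lt_iff₀ (by positivity)]
      linarith
    calc (C1 * (T : ℝ) ^ 2) ^ 4 * (4 * C) ≤ (C1 * (z ^ 100) ^ 2) ^ 4 * (4 * C) :=
          mul_le_mul_of_nonneg_right h3 (by positivity)
      _ = z ^ 800 * (C1 ^ 4 * (4 * C)) := by ring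
      _ < z ^ 800 * (z * δ ^ 2) := mul_lt_mul_of_pos_left h4 (by positivity)
      _ ≤ z ^ 800 * (z ^ 100 * δ ^ 2) := by gcongr
      _ = q * δ ^ 2 := by rw [← hz900]; ring
  rw [hC1', hδ] at hbig
  obtain ⟨hf, -, -⟩ := ho K S q q hq2 dvd_rfl
  have hmain := card_real hc ho S hq2 hf A (xt S) (fun t ht => ((hAm t).1 ht).2.2) hAne
    fun t ht s hs hP => inj_class hc S hn0 hqpos hε (by linarith) hEC hT₀ hT1 hbig
      ((hAm t).1 ht).2.1 ((hAm s).1 hs).2.1 ((hAm t).1 ht).1 ((hAm s).1 hs).1 hP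
  have hN := hCu q q hq2 dvd_rfl
  have hN2 : ((XX K q q).ncard : ℝ) ≤ 2 * Cu * q := by
    have h3 : ((XX K q q).ncard : ℝ) * q ≤ 2 * Cu * q * q := by
      calc ((XX K q q).ncard : ℝ) * q ≤ ((XX K q q).ncard : ℝ) * (2 * (Nat.totient q : ℝ)) :=
            mul_le_mul_of_nonneg_left htot (Nat.cast_nonneg _)
        _ = 2 * (((XX K q q).ncard : ℝ) * (Nat.totient q : ℝ)) := by ring
        _ ≤ 2 * (Cu * (q : ℝ) ^ 2) := mul_le_mul_of_nonneg_left hN (by norm_num)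
        _ = _ := by ring
    exact le_of_mul_le_mul_right h3 hqR
  have hzz : 0 < z ^ 90 := by positivity
  refine le_of_mul_le_mul_right ?_ hzz
  calc ((RR K q).ncard : ℝ) * z ^ 90 ≤ ((RR K q).ncard : ℝ) * A.card :=
        mul_le_mul_of_nonneg_left hM (Nat.cast_nonneg _)
    _ ≤ 2 * Cu * q := hmain.trans hN2
    _ = 2 * Cu * ((q : ℝ) ^ (9 / 10 : ℝ) * z ^ 90) := by rw [← hz90]
    _ = _ := by ring

end Pool.Agent.NH12.RS
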