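import Pool.Agent.NH12.RS.Stm

/-!
# Project RS, part SEQ: the generalised Fibonacci numbers
-/

set_option autoImplicit false

open NumberField

namespace Pool.Agent.NH12.RS.Sq

open Finset

variable {K : Type} [Field K] [NumberField K] (S : RQ K)

/-- the unit -/
noncomputable def e : 𝓞 K := (S.ε : 𝓞 K)

/-- the conjugate unit -/
noncomputable def e' : 𝓞 K := S.σ (S.ε : 𝓞 K)

theorem unit_norm (u : (𝓞 K)ˣ) : (u : 𝓞 K) * S.σ u = 1 ∨ (u : 𝓞 K) * S.σ u = -1 := by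
  have h1 : IsUnit (Algebra.norm ℤ (u : 𝓞 K)) := u.isUnit.map (Algebra.norm ℤ)
  have h2 := S.norm (u : 𝓞 K)
  rcases Int.isUnit_iff.1 h1 with h | h <;> rw [h] at h2
  · left; rw [← h2]; simp
  · right; rw [← h2]; simp

theorem e_norm : e S * e' S = 1 ∨ e S * e' S = -1 := unit_norm S S.ε

theorem tau_e : 1 < S.τ (e S) := S.one_lt

theorem tau_e' : |S.τ (e' S)| < 1 := by
  have h1 := tau_e S
  have h2 : |S.τ (e S)| * |S.τ (e' S)| = 1 := by
    rw [← abs_mul, ← map_mul]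
    rcases e_norm S with h | h <;> rw [h] <;> simp
  rw [abs_of_pos (by linarith)] at h2
  by_contra h3
  push Not at h3
  nlinarith

theorem e_ne : e S ≠ e' S := by
  intro h
  have h1 := tau_e S
  have h2 := tau_e' S
  rw [← h, abs_of_pos (by linarith)] at h2
  linarith

theorem fac {n q : ℕ} (h : (q : 𝓞 K) * (e S - e' S) = e S ^ n - e' S ^ n) :
    (q : 𝓞 K) = ∑ i ∈ range n, e S ^ i * e' S ^ (n - 1 - i) := by
  have h1 := geom_sum₂_mul (e S) (e' S) n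
  refine mul_right_cancel₀ (sub_ne_zero.2 (e_ne S)) ?_
  rw [h, h1]

theorem sig_e' : S.σ (e' S) = e S := S.inv _

theorem sig_e : S.σ (e S) = e' S := rfl

theorem pow_bound (n : ℕ) : |S.τ (e' S) ^ n| ≤ 1 := by
  rw [abs_pow]
  exact pow_le_one₀ (abs_nonneg _) (tau_e' S).le

/-- existence -/
theorem exists_q {n : ℕ} (hn : 0 < n) :
    ∃ q : ℕ, (q : 𝓞 K) * (e S - e' S) = e S ^ n - e' S ^ n := by
  have h1 := geom_sum₂_mul (e S) (e' S) n
  set s := ∑ i ∈ range n, e S ^ i * e' S ^ (n - 1 - i) with hs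
  have h2 : S.σ s = s := by
    have h3 := congrArg S.σ h1
    rw [map_mul, map_sub, map_sub, map_pow, map_pow, sig_e', sig_e] at h3
    refine mul_right_cancel₀ (sub_ne_zero.2 (e_ne S)) ?_
    rw [h1]
    linear_combination -h3
  obtain ⟨a, ha⟩ := S.fix s h2
  have h4 : (a : ℝ) * (S.τ (e S) - S.τ (e' S)) = S.τ (e S) ^ n - S.τ (e' S) ^ n := by
    have h3 := congrArg S.τ h1
    rw [map_mul, map_sub, map_sub, map_pow, map_pow, ha, map_intCast] at h3
    exact h3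
  have h5 := tau_e S
  have h6 := abs_lt.1 (tau_e' S)
  have h7 := abs_le.1 (pow_bound S n)
  have h8 : 1 < S.τ (e S) ^ n := one_lt_pow₀ h5 hn.ne'
  have h9 : (0 : ℝ) < a := by
    by_contra h
    push Not at h
    have : (a : ℝ) * (S.τ (e S) - S.τ (e' S)) ≤ 0 :=
      mul_nonpos_of_nonpos_of_nonneg h (by linarith)
    linarith
  have h10 : 0 < a := by exact_mod_cast h9
  obtain ⟨q, hq⟩ := Int.eq_ofNat_of_zero_le h10.le
  refine ⟨q, ?_⟩
  rw [← h1, ha, hq]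
  push_cast
  rfl

/-! ### coordinates -/

theorem coord_inj {a b a' b' : ℤ} (h : (a : 𝓞 K) + b * S.ω = a' + b' * S.ω) : a = a' ∧ b = b' := by
  have := S.indep (a - a') (b - b') (by push_cast; linear_combination h)
  omega

theorem om_ne : S.ω - S.σ S.ω ≠ 0 := by
  intro h
  have := S.pos
  rw [h, map_zero] at this
  exact lt_irrefl _ this

theorem sub_sig {x : 𝓞 K} {a b : ℤ} (h : x = a + b * S.ω) : x - S.σ x = b * (S.ω - S.σ S.ω) := by
  rw [h, map_add, map_mul, map_intCast, map_intCast]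
  ring

theorem zd_iff {x : 𝓞 K} {a b : ℤ} (h : x = a + b * S.ω) (d : ℕ) : Zd d x ↔ (d : ℤ) ∣ b := by
  constructor
  · rintro ⟨a', y, hy⟩
    obtain ⟨u, v, huv⟩ := S.basis y
    have h1 : ((a - a' : ℤ) : 𝓞 K) + b * S.ω = ((d * u : ℤ) : 𝓞 K) + (d * v : ℤ) * S.ω := by
      rw [huv, h] at hy
      push_cast
      linear_combination hy
    exact ⟨v, (coord_inj S h1).2⟩
  · rintro ⟨v, hv⟩
    refine ⟨a, v * S.ω, ?_⟩
    rw [h, hv]
    push_cast
    ring

include S in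
theorem dvd_int {d : ℕ} {m : ℤ} (h : (d : 𝓞 K) ∣ (m : 𝓞 K)) : (d : ℤ) ∣ m := by
  obtain ⟨y, hy⟩ := h
  obtain ⟨u, v, huv⟩ := S.basis y
  have h1 : ((m : ℤ) : 𝓞 K) + (0 : ℤ) * S.ω = ((d * u : ℤ) : 𝓞 K) + (d * v : ℤ) * S.ω := by
    rw [huv] at hy
    push_cast
    linear_combination hy
  exact ⟨u, (coord_inj S h1).1⟩

theorem zd_mul {d : ℕ} {x y : 𝓞 K} (hx : Zd d x) (hy : Zd d y) : Zd d (x * y) := by
  obtain ⟨a, u, hu⟩ := hx
  obtain ⟨b, v, hv⟩ := hy
  refine ⟨a * b, u * y + a * v, ?_⟩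
  push_cast
  linear_combination y * hu + a * hv

theorem zd_int (d : ℕ) (a : ℤ) : Zd (K := K) d (a : 𝓞 K) := ⟨a, by rw [sub_self]; exact dvd_zero _⟩

theorem zd_sig {d : ℕ} {x : 𝓞 K} (hx : Zd d x) : Zd d (S.σ x) := by
  obtain ⟨a, u, hu⟩ := hx
  refine ⟨a, S.σ u, ?_⟩
  have := congrArg S.σ hu
  rw [map_sub, map_mul, map_intCast, map_natCast] at this
  exact this

include S in
theorem zd_inv {d : ℕ} {u : (𝓞 K)ˣ} (hu : Zd d (u : 𝓞 K)) : Zd d ((u⁻¹ : (𝓞 K)ˣ) : 𝓞 K) := by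
  rcases unit_norm S u with h | h
  · have : ((u⁻¹ : (𝓞 K)ˣ) : 𝓞 K) = S.σ u := by
      rw [Units.inv_eq_of_mul_eq_one_right h]
    rw [this]
    exact zd_sig S hu
  · have : ((u⁻¹ : (𝓞 K)ˣ) : 𝓞 K) = ((-1 : ℤ) : 𝓞 K) * S.σ u := by
      refine Units.inv_eq_of_mul_eq_one_right ?_
      push_cast
      linear_combination -h
    rw [this]
    exact zd_mul (zd_int d _) (zd_sig S hu)

/-- the exponents `k` with `ε ^ k ∈ ℤ + d 𝓞` -/
noncomputable def HH (d : ℕ) : AddSubgroup ℤ where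
  carrier := {k | Zd d (((S.ε ^ k : (𝓞 K)ˣ) : 𝓞 K))}
  zero_mem' := by
    show Zd d (((S.ε ^ (0 : ℤ) : (𝓞 K)ˣ) : 𝓞 K))
    rw [zpow_zero, Units.val_one]
    have := zd_int (K := K) d 1
    rwa [Int.cast_one] at this
  add_mem' := by
    intro a b ha hb
    show Zd d (((S.ε ^ (a + b) : (𝓞 K)ˣ) : 𝓞 K))
    rw [zpow_add, Units.val_mul]
    exact zd_mul ha hb
  neg_mem' := by
    intro a ha
    show Zd d (((S.ε ^ (-a) : (𝓞 K)ˣ) : 𝓞 K))
    rw [zpow_neg]
    exact zd_inv S ha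

theorem mem_HH {d : ℕ} {k : ℤ} : k ∈ HH S d ↔ Zd d (((S.ε ^ k : (𝓞 K)ˣ) : 𝓞 K)) := Iff.rfl

theorem one_mem {d n : ℕ} (hn : n.Prime) {k : ℤ} (h1 : (n : ℤ) ∈ HH S d) (h2 : k ∈ HH S d)
    (h3 : ¬ (n : ℤ) ∣ k) : (1 : ℤ) ∈ HH S d := by
  have hc : IsCoprime (n : ℤ) k := (Nat.prime_iff_prime_int.1 hn).coprime_iff_not_dvd.2 h3
  obtain ⟨u, v, huv⟩ := hc
  rw [← huv]
  refine (HH S d).add_mem ?_ ?_
  · have := (HH S d).zsmul_mem h1 u
    rwa [smul_eq_mul] at this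
  · have := (HH S d).zsmul_mem h2 v
    rwa [smul_eq_mul] at this

theorem e_coord : ∃ a b : ℤ, e S = a + b * S.ω ∧ b ≠ 0 := by
  obtain ⟨a, b, h⟩ := S.basis (e S)
  refine ⟨a, b, h, ?_⟩
  rintro rfl
  apply e_ne S
  have := sub_sig S h
  rw [Int.cast_zero, zero_mul, sig_e] at this
  exact sub_eq_zero.1 this

theorem b_mul {n q : ℕ} (h : (q : 𝓞 K) * (e S - e' S) = e S ^ n - e' S ^ n) {a b : ℤ}
    (he : e S = a + b * S.ω) {a' b' : ℤ} (hn : e S ^ n = a' + b' * S.ω) : b' = q * b := by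
  have h1 := sub_sig S he
  have h2 := sub_sig S hn
  rw [map_pow] at h2
  rw [sig_e] at h1 h2
  rw [h1, h2] at h
  have h3 : ((q * b : ℤ) : 𝓞 K) = (b' : 𝓞 K) := by
    refine mul_right_cancel₀ (om_ne S) ?_
    push_cast
    linear_combination h
  exact_mod_cast h3.symm

theorem zd_n {n q : ℕ} (h : (q : 𝓞 K) * (e S - e' S) = e S ^ n - e' S ^ n) : Zd q (e S ^ n) := by
  obtain ⟨a, b, he, _⟩ := e_coord S
  obtain ⟨a', b', hn⟩ := S.basis (e S ^ n)
  rw [zd_iff S hn, b_mul S h he hn]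
  exact dvd_mul_right _ _

/-- the second coordinate of `ε` is prime to `q` -/
theorem b_cop {n q : ℕ} (hn : n.Prime) (h : (q : 𝓞 K) * (e S - e' S) = e S ^ n - e' S ^ n) {a b : ℤ}
    (he : e S = a + b * S.ω) (hb : b ≠ 0) (hbn : b.natAbs < n) : ∀ p : ℕ, p.Prime → p ∣ q →
    ¬ (p : ℤ) ∣ b := by
  intro p hp hpq hpb
  obtain ⟨c, hc⟩ := hpb
  have h1 : (p : 𝓞 K) ∣ e S - a := ⟨c * S.ω, by rw [he, hc]; push_cast; ring⟩
  have h2 : (p : 𝓞 K) ∣ e' S - a := by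
    obtain ⟨y, hy⟩ := h1
    refine ⟨S.σ y, ?_⟩
    have := congrArg S.σ hy
    rw [map_sub, map_mul, map_intCast, map_natCast, sig_e] at this
    exact this
  have h3 : (p : 𝓞 K) ∣ (∑ i ∈ range n, e S ^ i * e' S ^ (n - 1 - i)) -
      ((n * a ^ (n - 1) : ℤ) : 𝓞 K) := by
    have e1 : ((n * a ^ (n - 1) : ℤ) : 𝓞 K) = ∑ i ∈ range n, (a : 𝓞 K) ^ i * a ^ (n - 1 - i) := by
      have : ∀ i ∈ range n, (a : 𝓞 K) ^ i * a ^ (n - 1 - i) = a ^ (n - 1) := by
        intro i hi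
        rw [← pow_add]
        congr 1
        have := mem_range.1 hi
        omega
      rw [sum_congr rfl this, sum_const, card_range, nsmul_eq_mul]
      push_cast
      rfl
    rw [e1, ← sum_sub_distrib]
    refine dvd_sum fun i _ => ?_
    have d1 : (p : 𝓞 K) ∣ e S ^ i - a ^ i := h1.trans (sub_dvd_pow_sub_pow _ _ _)
    have d2 : (p : 𝓞 K) ∣ e' S ^ (n - 1 - i) - a ^ (n - 1 - i) :=
      h2.trans (sub_dvd_pow_sub_pow _ _ _)
    have : e S ^ i * e' S ^ (n - 1 - i) - (a : 𝓞 K) ^ i * a ^ (n - 1 - i) =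
        (e S ^ i - a ^ i) * e' S ^ (n - 1 - i) + a ^ i * (e' S ^ (n - 1 - i) - a ^ (n - 1 - i)) := by
      ring
    rw [this]
    exact dvd_add (d1.mul_right _) (d2.mul_left _)
  rw [← fac S h] at h3
  have h4 : (p : 𝓞 K) ∣ ((n * a ^ (n - 1) : ℤ) : 𝓞 K) := by
    have h5 : (p : 𝓞 K) ∣ (q : 𝓞 K) := by exact_mod_cast Nat.cast_dvd_cast hpq
    exact (dvd_sub_right h5).1 h3
  have h6 := dvd_int S h4
  have hpi := Nat.prime_iff_prime_int.1 hp
  rcases hpi.dvd_or_dvd h6 with h7 | h7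
  · have h8 : p ∣ n := by exact_mod_cast h7
    have h9 : p = n := (Nat.prime_dvd_prime_iff_eq hp hn).1 h8
    have h10 : n ∣ b.natAbs := by
      rw [← h9]
      exact Int.natCast_dvd.1 ⟨c, hc⟩
    have h11 := Nat.le_of_dvd (Int.natAbs_pos.2 hb) h10
    omega
  · have h8 : (p : ℤ) ∣ a := hpi.dvd_of_dvd_pow h7
    have h9 : (p : 𝓞 K) ∣ (a : 𝓞 K) := by
      obtain ⟨m, hm⟩ := h8
      exact ⟨m, by rw [hm]; push_cast; ring⟩
    have h10 : (p : 𝓞 K) ∣ e S := by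
      have := dvd_add h1 h9
      rwa [sub_add_cancel] at this
    have h11 : (p : 𝓞 K) ∣ ((1 : ℤ) : 𝓞 K) := by
      have h12 : (p : 𝓞 K) ∣ e S * e' S := h10.mul_right _
      rcases e_norm S with h13 | h13 <;> rw [h13] at h12
      · simpa using h12
      · simpa using (dvd_neg.2 h12)
    have h12 := dvd_int S h11
    exact hpi.not_isUnit (isUnit_of_dvd_one h12)

theorem second {n q : ℕ} (hn : n.Prime) (h : (q : 𝓞 K) * (e S - e' S) = e S ^ n - e' S ^ n) {a b : ℤ}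
    (he : e S = a + b * S.ω) (hb : b ≠ 0) (hbn : b.natAbs < n) (d : ℕ) (k : ℤ) (hd : d ∣ q)
    (h1 : 1 < d) (hk : Zd d (((S.ε ^ k : (𝓞 K)ˣ) : 𝓞 K))) : (n : ℤ) ∣ k := by
  by_contra hnk
  have hnm : (n : ℤ) ∈ HH S d := by
    rw [mem_HH, zpow_natCast, Units.val_pow_eq_pow_val]
    obtain ⟨a, u, hu⟩ := zd_n S h
    obtain ⟨m, hm⟩ := hd
    refine ⟨a, m * u, ?_⟩
    show e S ^ n - a = _
    rw [hu, hm]
    push_cast
    ring
  have h2 := one_mem S hn hnm (mem_HH S |>.2 hk) hnk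
  rw [mem_HH, zpow_one] at h2
  have h3 := (zd_iff S he d).1 h2
  obtain ⟨p, hp, hpd⟩ := Nat.exists_prime_and_dvd (n := d) (by omega)
  exact b_cop S hn h he hb hbn p hp (hpd.trans hd) ((Int.natCast_dvd_natCast.2 hpd).trans h3)

theorem third {n q : ℕ} (hn : n.Prime) (h : (q : 𝓞 K) * (e S - e' S) = e S ^ n - e' S ^ n) {a b : ℤ}
    (he : e S = a + b * S.ω) (hb : b ≠ 0) (hbn : b.natAbs < n) (p : ℕ) (hp : p.Prime)
    (hpq : p ∣ q) : n ≤ p + 1 := by
  classical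
  have : Fact p.Prime := ⟨hp⟩
  choose A B hAB using fun k : ℕ => S.basis (e S ^ k)
  have hz : ∀ k : ℤ, Zd p (((S.ε ^ k : (𝓞 K)ˣ) : 𝓞 K)) → (n : ℤ) ∣ k := fun k hk =>
    second S hn h he hb hbn p k hpq hp.one_lt hk
  set f : Fin n → Option (ZMod p) := fun k =>
    if ((B k : ℤ) : ZMod p) = 0 then none else some ((A k : ZMod p) / (B k : ZMod p)) with hf
  have hinj : Function.Injective f := by
    intro k l hkl
    have hpow : ∀ k : ℕ, e S ^ k = ((S.ε ^ (k : ℤ) : (𝓞 K)ˣ) : 𝓞 K) := by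
      intro k
      rw [zpow_natCast, Units.val_pow_eq_pow_val]
      rfl
    have key : (n : ℤ) ∣ (k : ℤ) - (l : ℤ) → k = l := by
      intro h1
      have h2 := k.2
      have h3 := l.2
      obtain ⟨m, hm⟩ := h1
      have h4 : m = 0 := by
        by_contra h5
        rcases lt_or_gt_of_ne h5 with h6 | h6
        · nlinarith
        · nlinarith
      rw [h4] at hm
      apply Fin.ext
      omega
    rw [hf] at hkl
    simp only at hkl
    by_cases h1 : ((B k : ℤ) : ZMod p) = 0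
    · by_cases h2 : ((B l : ℤ) : ZMod p) = 0
      · have a1 : (n : ℤ) ∣ ((k : ℕ) : ℤ) := hz _ (by
          rw [← hpow, zd_iff S (hAB k)]
          exact (ZMod.intCast_zmod_eq_zero_iff_dvd _ _).1 h1)
        have a2 : (n : ℤ) ∣ ((l : ℕ) : ℤ) := hz _ (by
          rw [← hpow, zd_iff S (hAB l)]
          exact (ZMod.intCast_zmod_eq_zero_iff_dvd _ _).1 h2)
        exact key (dvd_sub a1 a2)
      · rw [if_pos h1, if_neg h2] at hkl
        simp at hkl
    · by_cases h2 : ((B l : ℤ) : ZMod p) = 0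
      · rw [if_neg h1, if_pos h2] at hkl
        simp at hkl
      · rw [if_neg h1, if_neg h2] at hkl
        have h3 := Option.some.inj hkl
        rw [div_eq_div_iff h1 h2] at h3
        have h4 : (p : ℤ) ∣ A k * B l - A l * B k := by
          rw [← ZMod.intCast_zmod_eq_zero_iff_dvd]
          push_cast
          rw [h3, sub_self]
        -- `p ∣ e^k B l - e^l B k`
        have h5 : (p : 𝓞 K) ∣ e S ^ (k : ℕ) * (B l : 𝓞 K) - e S ^ (l : ℕ) * (B k : 𝓞 K) := by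
          obtain ⟨m, hm⟩ := h4
          refine ⟨m, ?_⟩
          have : ((A k * B l - A l * B k : ℤ) : 𝓞 K) = ((p * m : ℤ) : 𝓞 K) := by rw [hm]
          push_cast at this
          rw [hAB k, hAB l]
          linear_combination this
        obtain ⟨c, hc⟩ : ∃ c : ℤ, (p : ℤ) ∣ c * B l - 1 := by
          refine ⟨((B l : ZMod p)⁻¹).val, ?_⟩
          rw [← ZMod.intCast_zmod_eq_zero_iff_dvd]
          push_cast
          rw [ZMod.natCast_val, ZMod.cast_id', id, inv_mul_cancel₀ h2, sub_self]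
        have h6 : Zd p (((S.ε ^ ((k : ℤ) - (l : ℤ)) : (𝓞 K)ˣ) : 𝓞 K)) := by
          obtain ⟨y, hy⟩ := h5
          obtain ⟨m, hm⟩ := hc
          set w : 𝓞 K := ((S.ε ^ (-(l : ℤ)) : (𝓞 K)ˣ) : 𝓞 K) with hw
          have w1 : ((S.ε ^ ((k : ℤ) - (l : ℤ)) : (𝓞 K)ˣ) : 𝓞 K) = e S ^ (k : ℕ) * w := by
            rw [sub_eq_add_neg, zpow_add, Units.val_mul, hpow]
          have w2 : e S ^ (l : ℕ) * w = 1 := by
            rw [hpow, hw, ← Units.val_mul, ← zpow_add, add_neg_cancel, zpow_zero, Units.val_one]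
          refine ⟨c * B k, c * y * w - m * (e S ^ (k : ℕ) * w), ?_⟩
          have hm' : (c : 𝓞 K) * B l - 1 = p * m := by exact_mod_cast congrArg (Int.cast : ℤ → 𝓞 K) hm
          rw [w1]
          push_cast
          linear_combination (c * w) * hy - (e S ^ (k : ℕ) * w) * hm' + (c * B k) * w2
        exact key (hz _ h6)
  have := Fintype.card_le_of_injective f hinj
  rw [Fintype.card_fin, Fintype.card_option, ZMod.card] at this
  exact this

theorem fourth {n q : ℕ} (hn : 0 < n) (h : (q : 𝓞 K) * (e S - e' S) = e S ^ n - e' S ^ n) :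
    S.τ (e S) ^ n ≤ (2 * S.τ (e S) + 1) * q ∧
    (q : ℝ) * (S.τ (e S) - |S.τ (e' S)|) ≤ 2 * S.τ (e S) ^ n := by
  have h4 : (q : ℝ) * (S.τ (e S) - S.τ (e' S)) = S.τ (e S) ^ n - S.τ (e' S) ^ n := by
    have h3 := congrArg S.τ h
    rw [map_mul, map_sub, map_sub, map_pow, map_pow, map_natCast] at h3
    exact h3
  have h5 := tau_e S
  have h6 := abs_lt.1 (tau_e' S)
  have h7 := abs_le.1 (pow_bound S n)
  have h8 : 1 < S.τ (e S) ^ n := one_lt_pow₀ h5 hn.ne'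
  have h9 : (0 : ℝ) ≤ q := Nat.cast_nonneg _
  have h10 : (1 : ℝ) ≤ q := by
    have : q ≠ 0 := by
      rintro rfl
      rw [Nat.cast_zero, zero_mul] at h4
      linarith
    exact_mod_cast Nat.one_le_iff_ne_zero.2 this
  have h11 := le_abs_self (S.τ (e' S))
  constructor
  · have : S.τ (e S) ^ n = (q : ℝ) * (S.τ (e S) - S.τ (e' S)) + S.τ (e' S) ^ n := by linarith
    rw [this]
    nlinarith
  · have : (q : ℝ) * (S.τ (e S) - |S.τ (e' S)|) ≤ (q : ℝ) * (S.τ (e S) - S.τ (e' S)) :=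
      mul_le_mul_of_nonneg_left (by linarith) h9
    linarith

end Pool.Agent.NH12.RS.Sq

namespace Pool.Agent.NH12.RS

open Sq

/-- SEQ -/
theorem t_seq : S_seq := by
  intro K _ _ S
  constructor
  · intro n hn
    obtain ⟨q, hq⟩ := exists_q S hn.pos
    exact ⟨q, ⟨hn, hq⟩⟩
  · obtain ⟨a, b, he, hb⟩ := e_coord S
    have t1 := tau_e S
    have t2 := tau_e' S
    set δ := S.τ (e S) - |S.τ (e' S)| with hδ
    have hδ0 : 0 < δ := by linarith
    refine ⟨max (2 * S.τ (e S) + 1) (2 / δ), b.natAbs + 5, ?_, ?_⟩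
    · exact le_max_of_le_left (by linarith)
    · intro n q hn hU
      have hq : (q : 𝓞 K) * (e S - e' S) = e S ^ n - e' S ^ n := hU.eq
      have hbn : b.natAbs < n := by omega
      obtain ⟨f1, f2⟩ := fourth S hU.prime.pos hq
      refine ⟨zd_n S hq, second S hU.prime hq he hb hbn, third S hU.prime hq he hb hbn, ?_, ?_⟩
      · exact f1.trans (mul_le_mul_of_nonneg_right (le_max_left _ _) (Nat.cast_nonneg _))
      · have h1 : (q : ℝ) ≤ 2 / δ * S.τ (e S) ^ n := by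
          rw [div_mul_eq_mul_div, le_div_iff₀ hδ0]
          exact f2
        exact h1.trans (mul_le_mul_of_nonneg_right (le_max_right _ _) (by positivity))

end Pool.Agent.NH12.RS
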