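import Pool.Agent.NH12.RS.Stm

/-!
# Project RS, part SEQ2: arithmetic consequences for `q`
-/

set_option autoImplicit false

open NumberField

namespace Pool.Agent.NH12.RS.Sq2

open Finset

/-- the induction over the prime factors -/
theorem ind {y : ℝ} (hy : 1 < y) : ∀ m : ℕ, m ≠ 0 → (∀ p : ℕ, p.Prime → p ∣ m → y ≤ p) →
    ∃ k : ℕ, y ^ k ≤ m ∧ ∑ d ∈ m.divisors, (1 : ℝ) / d ≤ (1 + 1 / y) ^ k ∧
      (m.divisors.card : ℝ) ≤ 2 ^ k ∧ (1 - 1 / y) ^ k * m ≤ (Nat.totient m : ℝ) := by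
  intro m
  have hy0 : 0 < y := by linarith
  have hy1 : 0 ≤ 1 - 1 / y := by
    rw [sub_nonneg, div_le_one hy0]
    exact hy.le
  induction m using induction_on_primes with
  | zero => intro h; exact absurd rfl h
  | one => intro _ _; exact ⟨0, by simp⟩
  | prime_mul p a hp ih =>
    intro h0 hpr
    have ha : a ≠ 0 := fun h => h0 (by rw [h, mul_zero])
    obtain ⟨k, k1, k2, k3, k4⟩ := ih ha fun l hl hla => hpr l hl (hla.mul_left p)
    have hyp : y ≤ p := hpr p hp (dvd_mul_right p a)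
    have hp0 : (0 : ℝ) < p := by exact_mod_cast hp.pos
    have hsub : (p * a).divisors ⊆ a.divisors ∪ a.divisors.image (p * ·) := by
      intro d hd
      rw [Nat.mem_divisors] at hd
      rw [mem_union, mem_image]
      by_cases hpd : p ∣ d
      · right
        obtain ⟨c, hc⟩ := hpd
        refine ⟨c, ?_, hc.symm⟩
        rw [Nat.mem_divisors]
        refine ⟨?_, ha⟩
        have := hd.1
        rw [hc] at this
        exact Nat.dvd_of_mul_dvd_mul_left hp.pos this
      · left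
        rw [Nat.mem_divisors]
        exact ⟨Nat.Coprime.dvd_of_dvd_mul_left
          (Nat.Coprime.symm ((Nat.Prime.coprime_iff_not_dvd hp).2 hpd)) hd.1, ha⟩
    have hinj : ∀ x ∈ a.divisors, ∀ z ∈ a.divisors, p * x = p * z → x = z :=
      fun x _ z _ h => Nat.eq_of_mul_eq_mul_left hp.pos h
    refine ⟨k + 1, ?_, ?_, ?_, ?_⟩
    · push_cast
      rw [pow_succ, mul_comm]
      exact mul_le_mul hyp k1 (by positivity) hp0.le
    · calc ∑ d ∈ (p * a).divisors, (1 : ℝ) / d
          ≤ ∑ d ∈ a.divisors ∪ a.divisors.image (p * ·), (1 : ℝ) / d :=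
            sum_le_sum_of_subset_of_nonneg hsub fun d _ _ => by positivity
        _ ≤ ∑ d ∈ a.divisors, (1 : ℝ) / d + ∑ d ∈ a.divisors.image (p * ·), (1 : ℝ) / d := by
            have := sum_union_inter (s₁ := a.divisors) (s₂ := a.divisors.image (p * ·))
              (f := fun d : ℕ => (1 : ℝ) / d)
            have h2 : 0 ≤ ∑ d ∈ a.divisors ∩ a.divisors.image (p * ·), (1 : ℝ) / d :=
              sum_nonneg fun d _ => by positivity
            linarith
        _ = (1 + 1 / p) * ∑ d ∈ a.divisors, (1 : ℝ) / d := by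
            rw [sum_image hinj, add_mul, one_mul, mul_sum]
            congr 1
            refine sum_congr rfl fun d _ => ?_
            push_cast
            rw [one_div_mul_one_div]
        _ ≤ (1 + 1 / y) * (1 + 1 / y) ^ k := by
            refine mul_le_mul ?_ k2 (sum_nonneg fun d _ => by positivity) (by positivity)
            have : 1 / (p : ℝ) ≤ 1 / y := one_div_le_one_div_of_le hy0 hyp
            linarith
        _ = (1 + 1 / y) ^ (k + 1) := by rw [pow_succ, mul_comm]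
    · have h1 : (p * a).divisors.card ≤ a.divisors.card + a.divisors.card := by
        refine (card_le_card hsub).trans ((card_union_le _ _).trans ?_)
        exact Nat.add_le_add_left card_image_le _
      have h2 : ((p * a).divisors.card : ℝ) ≤ a.divisors.card + a.divisors.card := by
        exact_mod_cast h1
      rw [pow_succ]
      linarith
    · have h1 : (p - 1) * Nat.totient a ≤ Nat.totient (p * a) := by
        by_cases hpa : p ∣ a
        · rw [Nat.totient_mul_of_prime_of_dvd hp hpa]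
          exact Nat.mul_le_mul_right _ (Nat.sub_le _ _)
        · rw [Nat.totient_mul_of_prime_of_not_dvd hp hpa]
      have h2 : ((p : ℝ) - 1) * Nat.totient a ≤ Nat.totient (p * a) := by
        have h3 : (((p - 1) * Nat.totient a : ℕ) : ℝ) ≤ Nat.totient (p * a) := by exact_mod_cast h1
        rw [Nat.cast_mul, Nat.cast_sub hp.one_lt.le, Nat.cast_one] at h3
        exact h3
      refine le_trans ?_ h2
      have h3 : (1 - 1 / y) * p ≤ p - 1 := by
        have : 1 ≤ p / y := by rw [le_div_iff₀ hy0]; linarith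
        have e : (1 - 1 / y) * p = p - p / y := by ring
        rw [e]
        linarith
      push_cast
      calc (1 - 1 / y) ^ (k + 1) * ((p : ℝ) * a) = ((1 - 1 / y) * p) * ((1 - 1 / y) ^ k * a) := by ring
        _ ≤ (p - 1) * Nat.totient a := by
          refine mul_le_mul h3 k4 (by positivity) ?_
          have : (1 : ℝ) ≤ p := by exact_mod_cast hp.one_lt.le
          linarith

variable {K : Type} [Field K] [NumberField K] (S : RQ K)

/-- the number of the prime factors is small -/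
theorem kb {C : ℝ} (hC : 1 ≤ C) {κ : ℝ} (hκ : 0 < κ) : ∃ n₁ : ℕ, 3 ≤ n₁ ∧ ∀ (n : ℕ) (x : ℝ), n₁ ≤ n →
    0 < x → x ≤ C * S.τ S.ε ^ n → ∀ k : ℕ, ((n : ℝ) - 1) ^ k ≤ x → (k : ℝ) ≤ κ * ((n : ℝ) - 1) := by
  have ht : 1 < S.τ S.ε := S.one_lt
  set A := Real.log C + 2 * Real.log (S.τ S.ε) with hA
  have hlC : 0 ≤ Real.log C := Real.log_nonneg hC
  have hlt : 0 < Real.log (S.τ S.ε) := Real.log_pos ht
  obtain ⟨n₁, hn₁⟩ := exists_nat_ge (Real.exp (A / κ) + 1)
  refine ⟨max n₁ 3, le_max_right _ _, fun n x hn hx hxC k hk => ?_⟩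
  have hn1 : (n₁ : ℝ) ≤ n := by exact_mod_cast (le_max_left _ _).trans hn
  have hn3 : (3 : ℝ) ≤ n := by exact_mod_cast (le_max_right _ _).trans hn
  have hy : 0 < (n : ℝ) - 1 := by linarith
  have hexp : Real.exp (A / κ) ≤ (n : ℝ) - 1 := by linarith
  have hlog : A / κ ≤ Real.log ((n : ℝ) - 1) := by
    rw [← Real.log_exp (A / κ)]
    exact Real.log_le_log (Real.exp_pos _) hexp
  have h1 : (k : ℝ) * Real.log ((n : ℝ) - 1) ≤ Real.log C + n * Real.log (S.τ S.ε) := by
    have h2 := Real.log_le_log (pow_pos hy k) (hk.trans hxC)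
    rw [Real.log_pow, Real.log_mul (by linarith) (by positivity), Real.log_pow] at h2
    exact h2
  have h2 : Real.log C + n * Real.log (S.τ S.ε) ≤ A * ((n : ℝ) - 1) := by
    rw [hA]
    nlinarith
  have h3 : (k : ℝ) * (A / κ) ≤ A * ((n : ℝ) - 1) :=
    (mul_le_mul_of_nonneg_left hlog (Nat.cast_nonneg _)).trans (h1.trans h2)
  have hA0 : 0 < A := by linarith
  have h4 : (k : ℝ) * (A / κ) = A * (k / κ) := by ring
  rw [h4] at h3
  have h5 := le_of_mul_le_mul_left h3 hA0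
  rw [div_le_iff₀ hκ] at h5
  linarith

end Pool.Agent.NH12.RS.Sq2

namespace Pool.Agent.NH12.RS

open Finset Sq2

/-- SEQ2 -/
theorem t_seq2 (h : S_seq) : S_seq2 := by
  intro K _ _ S
  obtain ⟨-, C, n₀, hC, hS⟩ := h K S
  have ht : 1 < S.τ S.ε := S.one_lt
  have hC0 : 0 < C := by linarith
  have hqpos : ∀ n q : ℕ, n₀ ≤ n → IsU S n q → 0 < q := by
    intro n q hn hU
    obtain ⟨-, -, -, h4, -⟩ := hS n q hn hU
    rcases Nat.eq_zero_or_pos q with h0 | h0
    · exfalso
      rw [h0, Nat.cast_zero, mul_zero] at h4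
      have : 0 < S.τ S.ε ^ n := by positivity
      linarith
    · exact h0
  -- the general tool
  have tool : ∀ κ : ℝ, 0 < κ → ∃ n₁ : ℕ, n₀ ≤ n₁ ∧ 3 ≤ n₁ ∧ ∀ n q : ℕ, n₁ ≤ n → IsU S n q →
      ∀ d : ℕ, d ∣ q → ∃ k : ℕ, ((n : ℝ) - 1) ^ k ≤ d ∧ (k : ℝ) ≤ κ * ((n : ℝ) - 1) ∧
        ∑ e ∈ d.divisors, (1 : ℝ) / e ≤ (1 + 1 / ((n : ℝ) - 1)) ^ k ∧
        (d.divisors.card : ℝ) ≤ 2 ^ k ∧ (1 - 1 / ((n : ℝ) - 1)) ^ k * d ≤ (Nat.totient d : ℝ) := by
    intro κ hκ
    obtain ⟨n₁, hn₁, hk⟩ := kb S hC hκ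
    refine ⟨max n₀ n₁, le_max_left _ _, hn₁.trans (le_max_right _ _), fun n q hn hU d hd => ?_⟩
    have hn0 := (le_max_left _ _).trans hn
    have hn1 := (le_max_right _ _).trans hn
    obtain ⟨-, -, h3, h4, h5⟩ := hS n q hn0 hU
    have hq := hqpos n q hn0 hU
    have hd0 : 0 < d := Nat.pos_of_dvd_of_pos hd hq
    have hn3 : (3 : ℝ) ≤ n := by exact_mod_cast hn₁.trans hn1
    obtain ⟨k, k1, k2, k3, k4⟩ := ind (y := (n : ℝ) - 1) (by linarith) d hd0.ne' (by
      intro p hp hpd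
      have := h3 p hp (hpd.trans hd)
      have h6 : (n : ℝ) ≤ p + 1 := by exact_mod_cast this
      linarith)
    have hdq : (d : ℝ) ≤ q := by exact_mod_cast Nat.le_of_dvd hq hd
    exact ⟨k, k1, hk n d hn1 (by exact_mod_cast hd0) (hdq.trans h5) k k1, k2, k3, k4⟩
  have part3 : ∀ η : ℝ, 0 < η → ∃ n₀ : ℕ, ∀ n q : ℕ, n₀ ≤ n → IsU S n q →
      (n : ℝ) ≤ (q : ℝ) ^ η ∧ (q.divisors.card : ℝ) ≤ (q : ℝ) ^ η := by
    intro η hη
    obtain ⟨n₁, a1, a2, a3⟩ := tool 1 one_pos
    have hr : 1 < S.τ S.ε ^ η := Real.one_lt_rpow ht hη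
    have htend := tendsto_pow_const_div_const_pow_of_one_lt 1 hr
    have hev : ∀ᶠ n : ℕ in Filter.atTop, (n : ℝ) ^ 1 / (S.τ S.ε ^ η) ^ n < (C ^ η)⁻¹ :=
      htend.eventually (gt_mem_nhds (by positivity))
    obtain ⟨n₂, hn₂⟩ := Filter.eventually_atTop.1 hev
    obtain ⟨n₃, hn₃⟩ := exists_nat_ge ((2 : ℝ) ^ (1 / η) + 1)
    refine ⟨max n₁ (max n₂ n₃), fun n q hn hU => ?_⟩
    have hn1 := (le_max_left _ _).trans hn
    have hn2 := (le_max_left _ _).trans ((le_max_right _ _).trans hn)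
    have hn3 := (le_max_right _ _).trans ((le_max_right _ _).trans hn)
    have hn0 := a1.trans hn1
    obtain ⟨-, -, -, h4, h5⟩ := hS n q hn0 hU
    have hq := hqpos n q hn0 hU
    have hq0 : (0 : ℝ) < q := by exact_mod_cast hq
    constructor
    · have b1 := hn₂ n hn2
      rw [pow_one, div_lt_iff₀ (by positivity)] at b1
      have b2 : (S.τ S.ε ^ η) ^ n ≤ C ^ η * (q : ℝ) ^ η := by
        rw [← Real.mul_rpow hC0.le hq0.le, ← Real.rpow_natCast, ← Real.rpow_mul (by linarith),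
          mul_comm, Real.rpow_mul (by linarith), Real.rpow_natCast]
        exact Real.rpow_le_rpow (by positivity) h4 hη.le
      calc (n : ℝ) ≤ (C ^ η)⁻¹ * (S.τ S.ε ^ η) ^ n := b1.le
        _ ≤ (C ^ η)⁻¹ * (C ^ η * (q : ℝ) ^ η) := mul_le_mul_of_nonneg_left b2 (by positivity)
        _ = (q : ℝ) ^ η := by
          rw [← mul_assoc, inv_mul_cancel₀ (by positivity), one_mul]
    · obtain ⟨k, k1, -, -, k3, -⟩ := a3 n q hn1 hU q dvd_rfl
      have c1 : (n₃ : ℝ) ≤ n := by exact_mod_cast hn3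
      have c2 : (2 : ℝ) ^ (1 / η) ≤ (n : ℝ) - 1 := by linarith
      have c0 : (0 : ℝ) < (2 : ℝ) ^ (1 / η) := by positivity
      have c3 : (2 : ℝ) ≤ ((n : ℝ) - 1) ^ η := by
        have := Real.rpow_le_rpow c0.le c2 hη.le
        rwa [← Real.rpow_mul (by norm_num), one_div_mul_cancel hη.ne', Real.rpow_one] at this
      have c4 : (0 : ℝ) ≤ (n : ℝ) - 1 := by linarith
      calc (q.divisors.card : ℝ) ≤ 2 ^ k := k3
        _ ≤ (((n : ℝ) - 1) ^ η) ^ k := pow_le_pow_left₀ (by norm_num) c3 k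
        _ = (((n : ℝ) - 1) ^ k) ^ η := by
          rw [← Real.rpow_natCast, ← Real.rpow_mul c4, mul_comm, Real.rpow_mul c4,
            Real.rpow_natCast]
        _ ≤ (q : ℝ) ^ η := Real.rpow_le_rpow (by positivity) k1 hη.le
  refine ⟨?_, ?_, part3, ?_, ?_⟩
  · intro η hη
    have hlog : 0 < Real.log (1 + η) := Real.log_pos (by linarith)
    obtain ⟨n₁, a1, a2, a3⟩ := tool (Real.log (1 + η)) hlog
    refine ⟨n₁, fun n q hn hU => ?_⟩
    obtain ⟨k, k1, kk, k2, -, -⟩ := a3 n q hn hU q dvd_rfl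
    have hq := hqpos n q (a1.trans hn) hU
    have hn3 : (3 : ℝ) ≤ n := by exact_mod_cast a2.trans hn
    have hy : (0 : ℝ) < (n : ℝ) - 1 := by linarith
    have h1 : ∑ d ∈ q.divisors.erase 1, (1 : ℝ) / d = ∑ d ∈ q.divisors, (1 : ℝ) / d - 1 := by
      rw [← sum_erase_add _ _ (Nat.one_mem_divisors.2 hq.ne')]
      simp
    have h2 : (1 + 1 / ((n : ℝ) - 1)) ^ k ≤ 1 + η := by
      calc (1 + 1 / ((n : ℝ) - 1)) ^ k ≤ (Real.exp (1 / ((n : ℝ) - 1))) ^ k := by
            refine pow_le_pow_left₀ (by positivity) ?_ k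
            have := Real.add_one_le_exp (1 / ((n : ℝ) - 1))
            linarith
        _ = Real.exp (k / ((n : ℝ) - 1)) := by
            rw [← Real.exp_nat_mul]
            congr 1
            ring
        _ ≤ Real.exp (Real.log (1 + η)) := by
            rw [Real.exp_le_exp, div_le_iff₀ hy]
            exact kk
        _ = 1 + η := Real.exp_log (by linarith)
    rw [h1]
    linarith
  · intro N hN
    refine ⟨max n₀ (N + 2), fun n q hn hU => ?_⟩
    have hn0 := (le_max_left _ _).trans hn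
    have hn1 := (le_max_right _ _).trans hn
    obtain ⟨-, -, h3, -, -⟩ := hS n q hn0 hU
    by_contra hcop
    obtain ⟨p, hp, hpq, hpN⟩ := Nat.Prime.not_coprime_iff_dvd.1 hcop
    have e1 := h3 p hp hpq
    have e2 := Nat.le_of_dvd hN hpN
    omega
  · intro M
    obtain ⟨n₁, hn₁⟩ := part3 1 one_pos
    refine ⟨max n₁ M, fun n q hn hU => ?_⟩
    have h1 := (hn₁ n q ((le_max_left _ _).trans hn) hU).1
    rw [Real.rpow_one] at h1
    have h2 : n ≤ q := by exact_mod_cast h1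
    exact ((le_max_right _ _).trans hn).trans h2
  · obtain ⟨n₁, a1, a2, a3⟩ := tool (1 / 2) (by norm_num)
    refine ⟨n₁, fun n q hn hU d hd => ?_⟩
    obtain ⟨k, k1, kk, -, -, k4⟩ := a3 n q hn hU d hd
    have hn3 : (3 : ℝ) ≤ n := by exact_mod_cast a2.trans hn
    have hy : (0 : ℝ) < (n : ℝ) - 1 := by linarith
    have h1 : (1 : ℝ) / 2 ≤ (1 - 1 / ((n : ℝ) - 1)) ^ k := by
      have h2 := one_add_mul_le_pow (a := -(1 / ((n : ℝ) - 1))) (by
        have : 1 / ((n : ℝ) - 1) ≤ 1 := by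
          rw [div_le_one hy]
          linarith
        linarith) k
      have h3 : (k : ℝ) * (1 / ((n : ℝ) - 1)) ≤ 1 / 2 := by
        rw [mul_one_div, div_le_iff₀ hy]
        exact kk
      have e : 1 + -(1 / ((n : ℝ) - 1)) = 1 - 1 / ((n : ℝ) - 1) := by ring
      rw [e] at h2
      linarith
    have h2 : (1 : ℝ) / 2 * d ≤ (Nat.totient d : ℝ) :=
      (mul_le_mul_of_nonneg_right h1 (Nat.cast_nonneg _)).trans k4
    linarith

end Pool.Agent.NH12.RS
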