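import Pool.Agent.NH12.RS.Fin4
import Pool.Agent.NH12.RS.Base
import Pool.Agent.NH12.RS.Conj
import Pool.Agent.NH12.RS.Seq
import Pool.Agent.NH12.RS.Seq2
import Pool.Agent.NH12.RS.Lat
import Pool.Agent.NH12.RS.Div
import Pool.Agent.NH12.RS.Orth
import Pool.Agent.NH12.RS.Cond
import Pool.Agent.NH12.RS.CardU
import Pool.Agent.NH12.RS.CardL
import Pool.Agent.NH12.RS.Real
import Pool.Agent.NH12.RS.Inv
import Pool.Agent.NH12.RS.Mod
import Pool.Agent.NH12.RS.Gauss
import Pool.Agent.NH12.RS.Wt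
import Pool.Agent.NH12.RS.Afe
import Pool.Agent.NH12.RS.Main
import Pool.Agent.NH12.GL.Hecke

/-! # Assembly -/

set_option autoImplicit false
set_option linter.unusedSectionVars false

open NumberField Complex Finset

namespace Pool.Agent.NH12.RS

open Pool.Agent.Y773 (TPos IsPrimChar IsModChar LI sg)

theorem a_conj : S_conj := t_conj
theorem a_seq : S_seq := t_seq
theorem a_seq2 : S_seq2 := t_seq2 a_seq
theorem a_orth : S_orth := t_orth
theorem a_cond : S_cond := t_cond a_orth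
theorem a_cardU : S_cardU := t_cardU a_orth
theorem a_cardL : S_cardL := t_cardL a_seq a_seq2 a_conj a_orth a_cardU
theorem a_lat : S_lat := t_lat a_seq a_conj
theorem a_real : S_real := t_real a_seq a_seq2 a_conj a_orth a_cardU
theorem a_inv : S_inv := t_inv a_conj
theorem a_mod : S_mod := t_mod a_conj a_inv
theorem a_gauss : S_gauss := t_gauss a_conj a_inv a_mod
theorem a_root : S_root := t_root a_conj a_mod a_gauss t_fe
theorem a_diag : S_diag := t_diag a_conj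
theorem a_first : S_first := t_first a_seq2 a_lat a_orth a_cond a_cardU
theorem a_second : S_second := t_second a_conj a_seq2 a_lat t_div a_orth a_cardU

variable {K : Type} [Field K] [NumberField K]

theorem main_rs [IsTotallyReal K] (S : RQ K) (h2 : Module.finrank ℚ K = 2) {𝔣₀ : Ideal (𝓞 K)} {a : ℕ}
    {ψ₀ : Ideal (𝓞 K) →*₀ ℂ} (hB : Base S 𝔣₀ a ψ₀) : ∃ t : ℝ, 0 < t ∧ ∀ η : ℝ, 0 < η →
      ∃ n₀ : ℕ, ∀ n q : ℕ, n₀ ≤ n → IsU S n q →
        (¬ Rat 𝔣₀ → ∀ k : ℕ, k ≤ 1 → (q : ℝ) ^ (1 - η) ≤ ((Good t 𝔣₀ a ψ₀ q k).ncard : ℝ)) ∧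
        (∃ k : ℕ, k ≤ 1 ∧ (q : ℝ) ^ (1 - η) ≤ ((Good t 𝔣₀ a ψ₀ q k).ncard : ℝ)) ∧
        (𝔣₀ = ⊤ → a = 0 → (q : ℝ) ^ (1 - η) ≤ ((Good t 𝔣₀ a ψ₀ q 0).ncard : ℝ)) :=
  main_thm S h2 a_conj a_seq2 t_main a_diag a_inv a_first a_second a_cardL a_orth a_real a_root
    t_wt t_afe hB

/-- the size of the family -/
theorem card_rs (S : RQ K) : ∃ (C : ℝ) (n₀ : ℕ), 0 < C ∧ ∀ n q : ℕ, n₀ ≤ n → IsU S n q →
    (PP K q).Finite ∧ ((PP K q).ncard : ℝ) ≤ C * q := by
  obtain ⟨-, -, -, hM, n₅, hn₅⟩ := a_seq2 K S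
  obtain ⟨n₂, hn₂⟩ := hM 2
  obtain ⟨Cu, hCu, hcu⟩ := a_cardU K S
  refine ⟨2 * Cu, max n₂ n₅, by positivity, ?_⟩
  intro n q hn hq
  simp only [max_le_iff] at hn
  have hq2 : 2 ≤ q := hn₂ n q hn.1 hq
  have hq0 : (0 : ℝ) < q := by
    have : 0 < q := by omega
    exact_mod_cast this
  have hfin := (a_orth K S q q hq2 dvd_rfl).1
  refine ⟨hfin.subset (pp_sub q), ?_⟩
  have h4 : ((PP K q).ncard : ℝ) ≤ ((XX K q q).ncard : ℝ) := by
    exact_mod_cast Set.ncard_le_ncard (pp_sub q) hfin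
  refine h4.trans ?_
  have h5 := hcu q q hq2 dvd_rfl
  have h6 := hn₅ n q hn.2 hq q dvd_rfl
  have h7 : ((XX K q q).ncard : ℝ) * q ≤ (2 * Cu * q) * q := by
    calc ((XX K q q).ncard : ℝ) * q ≤ ((XX K q q).ncard : ℝ) * (2 * (Nat.totient q : ℝ)) := by
          gcongr
      _ = 2 * (((XX K q q).ncard : ℝ) * (Nat.totient q : ℝ)) := by ring
      _ ≤ 2 * (Cu * (q : ℝ) ^ 2) := by gcongr
      _ = _ := by ring
  exact le_of_mul_le_mul_right h7 hq0

/-- the conjugate of a unit -/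
lemma unit_norm (S : RQ K) (u : (𝓞 K)ˣ) : (u : 𝓞 K) * S.σ u = 1 ∨ (u : 𝓞 K) * S.σ u = -1 := by
  have h1 := S.norm (u : 𝓞 K)
  have h2 : IsUnit (Algebra.norm ℤ (u : 𝓞 K)) := (u.isUnit).map _
  rcases Int.isUnit_iff.mp h2 with h3 | h3
  · left; rw [← h1, h3]; push_cast; rfl
  · right; rw [← h1, h3]; push_cast; rfl

/-- the numbers `q` do not depend on the fundamental unit -/
theorem isU_of (S : RQ K) {ε : (𝓞 K)ˣ} (hε : ∀ u : (𝓞 K)ˣ, ∃ k : ℤ, u = ε ^ k ∨ u = -ε ^ k)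
    {n q : ℕ} (hn : n.Prime) (hq : 0 < q)
    (h : (q : 𝓞 K) * ((ε : 𝓞 K) - S.σ ε) = (ε : 𝓞 K) ^ n - S.σ ε ^ n ∨
      (q : 𝓞 K) * ((ε : 𝓞 K) - S.σ ε) = -((ε : 𝓞 K) ^ n - S.σ ε ^ n)) : IsU S n q := by
  set e : 𝓞 K := (S.ε : 𝓞 K) with he
  set e' : 𝓞 K := S.σ S.ε with he'
  have hτ : 1 < S.τ e := S.one_lt
  have hN := unit_norm S S.ε
  rw [← he, ← he'] at hN
  -- `ε = ± S.ε ^ k`
  have hk : ∃ k : ℤ, (k = 1 ∨ k = -1) ∧ (ε = S.ε ^ k ∨ ε = -S.ε ^ k) := by
    obtain ⟨k, hk⟩ := S.unit ε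
    obtain ⟨l, hl⟩ := hε S.ε
    refine ⟨k, ?_, hk⟩
    have abs1 : ∀ (u w : (𝓞 K)ˣ) (m : ℤ), (u = w ^ m ∨ u = -w ^ m) →
        |S.τ (u : 𝓞 K)| = |S.τ (w : 𝓞 K)| ^ m := by
      intro u w m hu
      have h1 : S.τ (((w ^ m : (𝓞 K)ˣ)) : 𝓞 K) = S.τ (w : 𝓞 K) ^ m := by
        have h2 : ∀ w : (𝓞 K)ˣ, ((Units.map (S.τ : 𝓞 K →* ℝ) w : ℝˣ) : ℝ) = S.τ (w : 𝓞 K) :=
          fun _ => rfl
        rw [← h2, map_zpow, Units.val_zpow_eq_zpow_val, h2]
      rcases hu with h3 | h3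
      · rw [h3, h1, abs_zpow]
      · rw [h3, Units.val_neg, map_neg, abs_neg, h1, abs_zpow]
    have h1 := abs1 ε S.ε k hk
    have h3 := abs1 S.ε ε l hl
    rw [h1, ← zpow_mul] at h3
    have h4 : 1 < |S.τ (S.ε : 𝓞 K)| := lt_of_lt_of_le hτ (le_abs_self _)
    have h5 : |S.τ (S.ε : 𝓞 K)| ^ (1 : ℤ) = |S.τ (S.ε : 𝓞 K)| ^ (k * l) := by
      rw [zpow_one]
      exact h3
    have h6 : (1 : ℤ) = k * l := zpow_right_injective₀ (by linarith) (by linarith) h5
    exact Int.eq_one_or_neg_one_of_mul_eq_one h6.symm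
  -- up to sign
  have key : (q : 𝓞 K) * (e - e') = e ^ n - e' ^ n ∨ (q : 𝓞 K) * (e - e') = -(e ^ n - e' ^ n) := by
    obtain ⟨k, hk1, hk2⟩ := hk
    -- the four possibilities for `ε`
    have hinv : ((S.ε ^ (-1 : ℤ) : (𝓞 K)ˣ) : 𝓞 K) = e' ∨ ((S.ε ^ (-1 : ℤ) : (𝓞 K)ˣ) : 𝓞 K) = -e' := by
      have h1 : (S.ε : 𝓞 K) * ((S.ε ^ (-1 : ℤ) : (𝓞 K)ˣ) : 𝓞 K) = 1 := by
        rw [zpow_neg_one]
        exact Units.mul_inv S.ε
      have he0 : e ≠ 0 := S.ε.ne_zero
      rcases hN with h2 | h2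
      · left
        exact mul_left_cancel₀ he0 (h1.trans h2.symm)
      · right
        refine mul_left_cancel₀ he0 (h1.trans ?_)
        rw [mul_neg, h2, neg_neg]
    have hσσ : S.σ e' = e := S.inv _
    have hfour : (ε : 𝓞 K) = e ∨ (ε : 𝓞 K) = -e ∨ (ε : 𝓞 K) = e' ∨ (ε : 𝓞 K) = -e' := by
      rcases hk1 with rfl | rfl
      · rcases hk2 with h3 | h3
        · left; rw [h3, zpow_one]
        · right; left; rw [h3, zpow_one, Units.val_neg]
      · rcases hk2 with h3 | h3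
        · rcases hinv with h4 | h4
          · right; right; left; rw [h3, h4]
          · right; right; right; rw [h3, h4]
        · rcases hinv with h4 | h4
          · right; right; right; rw [h3, Units.val_neg, h4]
          · right; right; left; rw [h3, Units.val_neg, h4, neg_neg]
    have hpar : ∀ x : 𝓞 K, (-x) ^ n = x ^ n ∨ (-x) ^ n = -(x ^ n) := by
      intro x
      rcases Nat.even_or_odd n with h5 | h5
      · left; exact h5.neg_pow x
      · right; exact h5.neg_pow x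
    have hpar2 : ∀ x y : 𝓞 K, (-x) ^ n - (-y) ^ n = x ^ n - y ^ n ∨
        (-x) ^ n - (-y) ^ n = -(x ^ n - y ^ n) := by
      intro x y
      rcases Nat.even_or_odd n with h5 | h5
      · left; rw [h5.neg_pow, h5.neg_pow]
      · right; rw [h5.neg_pow, h5.neg_pow]; ring
    rcases hfour with h3 | h3 | h3 | h3
    · rw [h3, ← he'] at h
      exact h
    · rw [h3, map_neg, ← he'] at h
      rcases hpar2 e e' with h5 | h5 <;> rw [h5] at h
      · rcases h with h | h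
        · right; linear_combination -h
        · left; linear_combination -h
      · rcases h with h | h
        · left; linear_combination -h
        · right; linear_combination -h
    · rw [h3, hσσ] at h
      rcases h with h | h
      · left; linear_combination -h
      · right; linear_combination -h
    · rw [h3, map_neg, hσσ] at h
      rcases hpar2 e' e with h5 | h5 <;> rw [h5] at h
      · rcases h with h | h
        · right; linear_combination h
        · left; linear_combination h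
      · rcases h with h | h
        · left; linear_combination h
        · right; linear_combination h
  -- the sign
  have hτe' : |S.τ e'| < 1 := by
    have h1 : |S.τ e| * |S.τ e'| = 1 := by
      rw [← abs_mul, ← map_mul]
      rcases hN with h2 | h2
      · rw [h2, map_one, abs_one]
      · rw [h2, map_neg, map_one, abs_neg, abs_one]
    have h2 : |S.τ e| = S.τ e := abs_of_pos (by linarith)
    rw [h2] at h1
    by_contra h3
    push Not at h3
    nlinarith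
  have hpos1 : 0 < S.τ (e - e') := by
    rw [map_sub]
    have := le_abs_self (S.τ e')
    linarith
  have hpos2 : 0 < S.τ (e ^ n - e' ^ n) := by
    rw [map_sub, map_pow, map_pow]
    have h1 : S.τ e' ^ n ≤ 1 := by
      calc S.τ e' ^ n ≤ |S.τ e' ^ n| := le_abs_self _
        _ = |S.τ e'| ^ n := abs_pow _ _
        _ ≤ 1 := pow_le_one₀ (abs_nonneg _) hτe'.le
    have h2 : 1 < S.τ e ^ n := one_lt_pow₀ hτ hn.ne_zero
    linarith
  refine ⟨hn, ?_⟩
  rcases key with h1 | h1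
  · exact h1
  · exfalso
    have h2 := congrArg S.τ h1
    rw [map_mul, map_natCast, map_neg] at h2
    have h3 : (0 : ℝ) < (q : ℝ) := by exact_mod_cast hq
    have h4 := mul_pos h3 hpos1
    linarith

/-- the signature in terms of the norm -/
lemma sg_norm [IsTotallyReal K] {a : ℕ} (ha : a ≤ 1) (x : 𝓞 K) :
    sg (fun _ => a) (x : K) = ((Int.sign (Algebra.norm ℤ x) : ℤ) : ℂ) ^ a := by
  have hsign : ∀ z : ℤ, ((SignType.sign z : SignType) : ℤ) = Int.sign z := by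
    intro z
    rcases lt_trichotomy z 0 with h | h | h
    · rw [sign_neg h, Int.sign_eq_neg_one_of_neg h]; rfl
    · rw [h]; simp
    · rw [sign_pos h, Int.sign_eq_one_of_pos h]; rfl
  interval_cases a
  · unfold sg
    simp
  · rw [Pool.Agent.NH12.GL.sg_one68, pow_one]
    unfold Pool.Agent.NH12.GL.sn68
    rw [hsign]

end Pool.Agent.NH12.RS
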