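import Pool.Agent.NH12.RS.Stm

/-!
# Project RS, second part: the second moment with powers of logarithms

Every `def S_... : Prop` is the statement of one part; a proof of it is a theorem `t_... : S_...` in a
file of its own.
-/

set_option autoImplicit false

open NumberField Complex

namespace Pool.Agent.NH12.RS

/-- BOX : points of a plane lattice in a box -/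
def S_box : Prop := ∀ (Λ : AddSubgroup (ℝ × ℝ)) (P Q D : ℝ), 0 < P → 0 < Q → 0 < D →
  (∀ x ∈ Λ, ∀ y ∈ Λ, x.1 * y.2 - x.2 * y.1 ≠ 0 → D ≤ |x.1 * y.2 - x.2 * y.1|) →
  ∀ T : Finset (ℝ × ℝ), (∀ t ∈ T, t ∈ Λ ∧ |t.1| ≤ P ∧ |t.2| ≤ Q) →
    (∃ x ∈ T, ∃ y ∈ T, x.1 * y.2 - x.2 * y.1 ≠ 0) → (T.card : ℝ) ≤ 20 * (P * Q / D)

variable {K : Type} [Field K] [NumberField K]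

/-- `𝔞` is primitive: not divisible by a natural number `> 1` -/
def Prm (𝔞 : Ideal (𝓞 K)) : Prop :=
  𝔞 ≠ ⊥ ∧ ∀ m : ℕ, 0 < m → Ideal.span {(m : 𝓞 K)} ∣ 𝔞 → m = 1

/-- CLS : the number of primitive ideals in a class -/
def S_cls : Prop := ∀ (K : Type) [Field K] [NumberField K] (S : RQ K),
  ∃ (C : ℝ) (n₀ : ℕ), 0 < C ∧ ∀ n q : ℕ, n₀ ≤ n → IsU S n q → ∀ 𝔟 : Ideal (𝓞 K), 𝔟 ≠ ⊥ →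
    Cop q 𝔟 → ∀ Y : ℝ, 1 ≤ Y →
      {𝔞 : Ideal (𝓞 K) | Prm 𝔞 ∧ Pr q (𝔞 * S.cj 𝔟) ∧ (Ideal.absNorm 𝔞 : ℝ) ≤ Y}.Finite ∧
      ({𝔞 : Ideal (𝓞 K) | Prm 𝔞 ∧ Pr q (𝔞 * S.cj 𝔟) ∧ (Ideal.absNorm 𝔞 : ℝ) ≤ Y}.ncard : ℝ) ≤
        C * (1 + Real.log (q * (Ideal.absNorm 𝔟 : ℝ) * Y)) * (1 + Y / q)

/-- PRM : the primitive part of an ideal -/
def S_prm : Prop := ∀ (K : Type) [Field K] [NumberField K] (S : RQ K),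
  (∀ 𝔞 : Ideal (𝓞 K), 𝔞 ≠ ⊥ → ∃ (c : ℕ) (𝔞' : Ideal (𝓞 K)), 0 < c ∧ Prm 𝔞' ∧
    𝔞 = Ideal.span {(c : 𝓞 K)} * 𝔞') ∧
  (∀ (q : ℕ) (𝔞 𝔟 : Ideal (𝓞 K)), Pr q (𝔞 * S.cj 𝔟) → Pr q (𝔟 * S.cj 𝔞)) ∧
  ∀ (q c d : ℕ) (𝔞 𝔟 : Ideal (𝓞 K)), 0 < q → 0 < c → 0 < d →
    Cop q (Ideal.span {(c : 𝓞 K)} * 𝔞 * S.cj (Ideal.span {(d : 𝓞 K)} * 𝔟)) →
    Pr q (Ideal.span {(c : 𝓞 K)} * 𝔞 * S.cj (Ideal.span {(d : 𝓞 K)} * 𝔟)) → Pr q (𝔞 * S.cj 𝔟)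

/-- SUM : sums of inverse norms, and of the weights over a thin set -/
def S_sum : Prop := ∀ (K : Type) [Field K] [NumberField K], Module.finrank ℚ K = 2 →
  (∃ C : ℝ, 0 < C ∧ ∀ (M : ℝ) (T : Finset (Ideal (𝓞 K))), 1 ≤ M →
    (∀ 𝔞 ∈ T, 𝔞 ≠ ⊥ ∧ (Ideal.absNorm 𝔞 : ℝ) ≤ M) →
    ∑ 𝔞 ∈ T, ((Ideal.absNorm 𝔞 : ℝ))⁻¹ ≤ C * (1 + Real.log M)) ∧
  ∀ v : ℝ → ℝ, Wt v → ∀ ρ : ℝ, 0 < ρ → ∃ C : ℝ, 0 < C ∧ ∀ (q M : ℝ), 2 ≤ q → q ≤ M → M ≤ q ^ 2 →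
    (∀ 𝔞 : Ideal (𝓞 K), 𝔞 ≠ ⊥ → v ((Ideal.absNorm 𝔞 : ℝ) / (ρ * q)) ≤ C * (1 + Real.log q)) ∧
    ∀ (T : Finset (Ideal (𝓞 K))) (B : ℝ), 0 ≤ B →
    (∀ 𝔞 ∈ T, 𝔞 ≠ ⊥ ∧ (Ideal.absNorm 𝔞 : ℝ) ≤ M) →
    (∀ Y : ℝ, 1 ≤ Y → Y ≤ M → ((T.filter fun 𝔞 => (Ideal.absNorm 𝔞 : ℝ) ≤ Y).card : ℝ) ≤
      B * (1 + Y / q)) →
    ∑ 𝔞 ∈ T, v ((Ideal.absNorm 𝔞 : ℝ) / (ρ * q)) ≤ C * B * (1 + Real.log q)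

/-- the second moment -/
def S_second2 : Prop := ∀ (K : Type) [Field K] [NumberField K] [IsTotallyReal K] (S : RQ K),
  Module.finrank ℚ K = 2 → ∀ ψ₀ : Ideal (𝓞 K) →*₀ ℂ, (∀ 𝔞, ‖ψ₀ 𝔞‖ ≤ 1) → ∀ v : ℝ → ℝ, Wt v →
  ∀ ρ : ℝ, 0 < ρ → ∃ (C : ℝ) (n₀ : ℕ), 0 < C ∧
    ∀ n q : ℕ, n₀ ≤ n → IsU S n q →
      ∑ᶠ χ ∈ XX K q q, ‖AA v (ρ * q) (pr ψ₀ χ)‖ ^ 2 ≤ C * q * (1 + Real.log q) ^ 6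

end Pool.Agent.NH12.RS
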