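import Pool.Agent.NH12.RS.Second2
import Pool.Agent.NH12.RS.Stm2

/-! # The second moment with powers of logarithms -/

set_option autoImplicit false
set_option linter.unusedSectionVars false

open NumberField Complex Finset

namespace Pool.Agent.NH12.RS

variable {K : Type} [Field K] [NumberField K]

/-- the second moment of the finite sums; only the pairs prime to `q` -/
lemma fin_second' [IsTotallyReal K] (S : RQ K) (hc : S_conj) (ho : S_orth)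
    {ψ₀ : Ideal (𝓞 K) →*₀ ℂ} (hψ : ∀ 𝔞, ‖ψ₀ 𝔞‖ ≤ 1) {q : ℕ} (hq2 : 2 ≤ q)
    (T : Finset (Ideal (𝓞 K))) (g : Ideal (𝓞 K) → ℝ) (hg : ∀ 𝔞, 0 ≤ g 𝔞)
    (hX : (XX K q q).Finite) :
    ∑ χ ∈ hX.toFinset, ‖∑ 𝔞 ∈ T, pr ψ₀ χ 𝔞 * ((g 𝔞 : ℝ) : ℂ)‖ ^ 2 ≤ ((XX K q q).ncard : ℝ) *
      (open Classical in ∑ p ∈ (T ×ˢ T).filter
        (fun p => Cop q (p.1 * S.cj p.2) ∧ Pr q (p.1 * S.cj p.2)), g p.1 * g p.2) := by
  classical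
  obtain ⟨hmul, hcc, hN, hsp, hnorm⟩ := hc K S
  have horth := (ho K S q q hq2 dvd_rfl).2.2
  have h1 : ((∑ χ ∈ hX.toFinset, ‖∑ 𝔞 ∈ T, pr ψ₀ χ 𝔞 * ((g 𝔞 : ℝ) : ℂ)‖ ^ 2 : ℝ) : ℂ) =
      ∑ p ∈ T ×ˢ T, (ψ₀ p.1 * (starRingEnd ℂ) (ψ₀ p.2) * ((g p.1 : ℝ) : ℂ) * ((g p.2 : ℝ) : ℂ)) *
        ∑ χ ∈ hX.toFinset, χ (p.1 * S.cj p.2) := by
    push_cast
    have h2 : ∀ χ ∈ hX.toFinset, ((‖∑ 𝔞 ∈ T, pr ψ₀ χ 𝔞 * ((g 𝔞 : ℝ) : ℂ)‖ : ℝ) : ℂ) ^ 2 =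
        ∑ p ∈ T ×ˢ T, (ψ₀ p.1 * (starRingEnd ℂ) (ψ₀ p.2) * ((g p.1 : ℝ) : ℂ) *
          ((g p.2 : ℝ) : ℂ)) * χ (p.1 * S.cj p.2) := by
      intro χ hχ
      rw [Set.Finite.mem_toFinset] at hχ
      rw [← Complex.mul_conj', map_sum, Finset.sum_mul_sum, Finset.sum_product]
      refine Finset.sum_congr rfl fun 𝔞 _ => Finset.sum_congr rfl fun 𝔟 _ => ?_
      have h3 : ∀ 𝔞, pr ψ₀ χ 𝔞 = ψ₀ 𝔞 * χ 𝔞 := fun _ => rfl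
      rw [map_mul, h3, h3, map_mul, map_mul, rc_conj hc S hq2 hχ.1, Complex.conj_ofReal]
      ring
    rw [Finset.sum_congr rfl h2, Finset.sum_comm]
    refine Finset.sum_congr rfl fun p _ => ?_
    rw [Finset.mul_sum]
  have h2 : ∑ χ ∈ hX.toFinset, ‖∑ 𝔞 ∈ T, pr ψ₀ χ 𝔞 * ((g 𝔞 : ℝ) : ℂ)‖ ^ 2 =
      ‖((∑ χ ∈ hX.toFinset, ‖∑ 𝔞 ∈ T, pr ψ₀ χ 𝔞 * ((g 𝔞 : ℝ) : ℂ)‖ ^ 2 : ℝ) : ℂ)‖ := by
    rw [Complex.norm_real, Real.norm_of_nonneg]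
    exact Finset.sum_nonneg fun _ _ => by positivity
  rw [h2, h1]
  refine (norm_sum_le _ _).trans ?_
  rw [Finset.sum_filter, Finset.mul_sum]
  refine Finset.sum_le_sum fun p _ => ?_
  have hg1 := hg p.1
  have hg2 := hg p.2
  have h3 : ‖ψ₀ p.1 * (starRingEnd ℂ) (ψ₀ p.2) * ((g p.1 : ℝ) : ℂ) * ((g p.2 : ℝ) : ℂ)‖ ≤
      g p.1 * g p.2 := by
    rw [norm_mul, norm_mul, norm_mul, Complex.norm_real, Complex.norm_real, RCLike.norm_conj,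
      Real.norm_of_nonneg hg1, Real.norm_of_nonneg hg2]
    have h4 : ‖ψ₀ p.1‖ * ‖ψ₀ p.2‖ ≤ 1 := mul_le_one₀ (hψ _) (norm_nonneg _) (hψ _)
    calc ‖ψ₀ p.1‖ * ‖ψ₀ p.2‖ * g p.1 * g p.2 = (‖ψ₀ p.1‖ * ‖ψ₀ p.2‖) * (g p.1 * g p.2) := by ring
      _ ≤ 1 * (g p.1 * g p.2) := by gcongr
      _ = _ := one_mul _
  rw [norm_mul]
  by_cases hcop : Cop q (p.1 * S.cj p.2)
  · obtain ⟨o1, o2⟩ := horth _ hcop
    rw [finsum_mem_eq_finite_toFinset_sum _ hX] at o1 o2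
    by_cases hp : Pr q (p.1 * S.cj p.2)
    · rw [if_pos ⟨hcop, hp⟩, o1 hp, Complex.norm_natCast, mul_comm]
      gcongr
    · rw [if_neg (fun h => hp h.2), o2 hp, norm_zero, mul_zero, mul_zero]
  · have h4 : ∑ χ ∈ hX.toFinset, χ (p.1 * S.cj p.2) = 0 := by
      refine Finset.sum_eq_zero fun χ hχ => ?_
      rw [Set.Finite.mem_toFinset] at hχ
      by_contra h5
      exact hcop ((hχ.1.supp _).mp h5)
    rw [h4, norm_zero, mul_zero, if_neg (fun h => hcop h.1), mul_zero]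

lemma cop_left {q : ℕ} {𝔞 𝔟 : Ideal (𝓞 K)} (h : Cop q (𝔞 * 𝔟)) : Cop q 𝔞 :=
  IsCoprime.of_mul_left_left h

lemma cop_right {q : ℕ} {𝔞 𝔟 : Ideal (𝓞 K)} (h : Cop q (𝔞 * 𝔟)) : Cop q 𝔟 :=
  IsCoprime.of_mul_left_right h

lemma cop_cj (hc : S_conj) (S : RQ K) {q : ℕ} {𝔞 : Ideal (𝓞 K)} (h1 : Cop q 𝔞) :
    Cop q (S.cj 𝔞) := by
  obtain ⟨hmul, hcc, hN, hsp, hnorm⟩ := hc K S
  unfold Cop at h1 ⊢
  have h2 : IsCoprime (S.cj 𝔞) (S.cj (Ideal.span {(q : 𝓞 K)})) := by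
    rw [Ideal.isCoprime_iff_add] at h1 ⊢
    have h3 : S.cj (𝔞 + Ideal.span {(q : 𝓞 K)}) = S.cj 𝔞 + S.cj (Ideal.span {(q : 𝓞 K)}) := by
      unfold RQ.cj
      exact Ideal.map_sup _ _ _
    rw [← h3, h1]
    unfold RQ.cj
    rw [Ideal.one_eq_top, Ideal.map_top]
  rwa [hsp, map_natCast] at h2

lemma cop_of_cj (hc : S_conj) (S : RQ K) {q : ℕ} {𝔞 : Ideal (𝓞 K)} (h1 : Cop q (S.cj 𝔞)) :
    Cop q 𝔞 := by
  have := cop_cj hc S h1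
  rwa [(hc K S).2.1] at this

lemma harm_le {M : ℝ} (hM : 1 ≤ M) : ∑ c ∈ Finset.Icc 1 ⌊M⌋₊, ((c : ℝ))⁻¹ ≤ 1 + Real.log M := by
  have h1 := harmonic_floor_le_one_add_log M hM
  rw [harmonic_eq_sum_Icc] at h1
  push_cast at h1
  exact h1

open Classical in
/-- reduction to primitive ideals -/
lemma prim_red (S : RQ K) (hc : S_conj) (hp : S_prm) (h2 : Module.finrank ℚ K = 2) {v : ℝ → ℝ}
    (hv : Wt v) {X : ℝ} (hX : 0 < X) {q : ℕ} (hq : 0 < q) {M : ℝ} (hM : 1 ≤ M) :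
    ∑ p ∈ ((Id K M) ×ˢ (Id K M)).filter
        (fun p => Cop q (p.1 * S.cj p.2) ∧ Pr q (p.1 * S.cj p.2)), gg v X p.1 * gg v X p.2 ≤
      (1 + Real.log M) ^ 2 *
      ∑ p ∈ (((Id K M).filter fun 𝔞 => Prm 𝔞 ∧ Cop q 𝔞) ×ˢ
        ((Id K M).filter fun 𝔞 => Prm 𝔞 ∧ Cop q 𝔞)).filter (fun p => Pr q (p.1 * S.cj p.2)),
        gg v X p.1 * gg v X p.2 := by
  obtain ⟨hmul, hcc, hN, hsp, hnorm⟩ := hc K S
  obtain ⟨hp1, -, hp3⟩ := hp K S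
  -- choose the primitive parts
  have hch : ∀ 𝔞 : Ideal (𝓞 K), ∃ x : ℕ × Ideal (𝓞 K), 𝔞 ≠ ⊥ → (0 < x.1 ∧ Prm x.2 ∧
      𝔞 = Ideal.span {(x.1 : 𝓞 K)} * x.2) := by
    intro 𝔞
    by_cases h : 𝔞 = ⊥
    · exact ⟨(0, ⊥), fun h' => absurd h h'⟩
    · obtain ⟨c, 𝔞', h1, h3, h4⟩ := hp1 𝔞 h
      exact ⟨(c, 𝔞'), fun _ => ⟨h1, h3, h4⟩⟩
  choose d hd using hch
  set T := Id K M with hT
  set T' := T.filter fun 𝔞 => Prm 𝔞 ∧ Cop q 𝔞 with hT'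
  set P := (T ×ˢ T).filter (fun p => Cop q (p.1 * S.cj p.2) ∧ Pr q (p.1 * S.cj p.2)) with hP
  set P' := (T' ×ˢ T').filter (fun p => Pr q (p.1 * S.cj p.2)) with hP'
  set J := Finset.Icc 1 ⌊M⌋₊ with hJ
  have hfac : ∀ 𝔞 ∈ T, (d 𝔞).1 ∈ J ∧ (d 𝔞).2 ∈ T ∧
      gg v X 𝔞 ≤ (((d 𝔞).1 : ℝ))⁻¹ * gg v X (d 𝔞).2 := by
    intro 𝔞 h𝔞
    rw [hT, mem_Id] at h𝔞
    obtain ⟨h1, h3, h4⟩ := hd 𝔞 h𝔞.1
    have hc1 : (1 : ℝ) ≤ ((d 𝔞).1 : ℝ) := by exact_mod_cast h1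
    have hn1 := one_le_norm h3.1
    have h5 : (Ideal.absNorm 𝔞 : ℝ) = ((d 𝔞).1 : ℝ) ^ 2 * (Ideal.absNorm (d 𝔞).2 : ℝ) := by
      conv_lhs => rw [h4]
      rw [map_mul, absNorm_nat2 h2]
      push_cast
      rfl
    have h6 : ((d 𝔞).1 : ℝ) ≤ M := by
      refine le_trans ?_ h𝔞.2
      rw [h5]
      nlinarith
    have h7 : (Ideal.absNorm (d 𝔞).2 : ℝ) ≤ (Ideal.absNorm 𝔞 : ℝ) := by
      rw [h5]
      nlinarith [mul_nonneg (sub_nonneg.mpr hc1) (by linarith : (0 : ℝ) ≤ (Ideal.absNorm (d 𝔞).2 : ℝ))]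
    refine ⟨?_, ?_, ?_⟩
    · rw [hJ, Finset.mem_Icc]
      exact ⟨h1, Nat.le_floor h6⟩
    · rw [hT, mem_Id]
      exact ⟨h3.1, h7.trans h𝔞.2⟩
    · unfold gg
      have h8 : v ((Ideal.absNorm 𝔞 : ℝ) / X) ≤ v ((Ideal.absNorm (d 𝔞).2 : ℝ) / X) := by
        apply hv.anti _ _ (by positivity)
        gcongr
      have h9 : (Ideal.absNorm 𝔞 : ℝ) ^ (-(1 / 2) : ℝ) =
          (((d 𝔞).1 : ℝ))⁻¹ * (Ideal.absNorm (d 𝔞).2 : ℝ) ^ (-(1 / 2) : ℝ) := by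
        rw [h5, Real.mul_rpow (by positivity) (by linarith), ← Real.rpow_natCast,
          ← Real.rpow_mul (by positivity)]
        congr 1
        norm_num
        rw [Real.rpow_neg_one]
      rw [h9, mul_assoc]
      have h10 : 0 < v ((Ideal.absNorm (d 𝔞).2 : ℝ) / X) := hv.pos _ (by positivity)
      gcongr
  set i : Ideal (𝓞 K) × Ideal (𝓞 K) → (ℕ × ℕ) × (Ideal (𝓞 K) × Ideal (𝓞 K)) :=
    fun p => (((d p.1).1, (d p.2).1), ((d p.1).2, (d p.2).2)) with hi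
  set G : (ℕ × ℕ) × (Ideal (𝓞 K) × Ideal (𝓞 K)) → ℝ :=
    fun y => ((y.1.1 : ℝ))⁻¹ * ((y.1.2 : ℝ))⁻¹ * (gg v X y.2.1 * gg v X y.2.2) with hG
  have hnn := fun 𝔞 => gg_nonneg (K := K) hv hX 𝔞
  have hPT : ∀ p ∈ P, p.1 ∈ T ∧ p.2 ∈ T ∧ Cop q (p.1 * S.cj p.2) ∧ Pr q (p.1 * S.cj p.2) := by
    intro p h
    rw [hP, Finset.mem_filter, Finset.mem_product] at h
    exact ⟨h.1.1, h.1.2, h.2.1, h.2.2⟩
  have s1 : ∑ p ∈ P, gg v X p.1 * gg v X p.2 ≤ ∑ p ∈ P, G (i p) := by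
    refine Finset.sum_le_sum fun p h => ?_
    obtain ⟨a1, a2, -, -⟩ := hPT p h
    have b1 := (hfac p.1 a1).2.2
    have b2 := (hfac p.2 a2).2.2
    rw [hG, hi]
    simp only
    calc gg v X p.1 * gg v X p.2 ≤ ((((d p.1).1 : ℝ))⁻¹ * gg v X (d p.1).2) *
          ((((d p.2).1 : ℝ))⁻¹ * gg v X (d p.2).2) := by
          apply mul_le_mul b1 b2 (hnn _)
          have := hnn (d p.1).2
          positivity
      _ = _ := by ring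
  have hinj : Set.InjOn i (P : Set (Ideal (𝓞 K) × Ideal (𝓞 K))) := by
    intro p hp' p' hp'' heq
    obtain ⟨a1, a2, -, -⟩ := hPT p hp'
    obtain ⟨b1, b2, -, -⟩ := hPT p' hp''
    rw [hT, mem_Id] at a1 a2 b1 b2
    rw [hi] at heq
    simp only [Prod.mk.injEq] at heq
    obtain ⟨⟨e1, e2⟩, e3, e4⟩ := heq
    have f1 := (hd p.1 a1.1).2.2
    have f2 := (hd p.2 a2.1).2.2
    have f3 := (hd p'.1 b1.1).2.2
    have f4 := (hd p'.2 b2.1).2.2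
    refine Prod.ext ?_ ?_
    · rw [f1, f3, e1, e3]
    · rw [f2, f4, e2, e4]
  have himg : P.image i ⊆ (J ×ˢ J) ×ˢ P' := by
    intro y hy
    rw [Finset.mem_image] at hy
    obtain ⟨p, hpP, rfl⟩ := hy
    obtain ⟨a1, a2, a3, a4⟩ := hPT p hpP
    obtain ⟨b1, b2, -⟩ := hfac p.1 a1
    obtain ⟨c1, c2, -⟩ := hfac p.2 a2
    rw [hT, mem_Id] at a1 a2
    obtain ⟨u1, u2, u3⟩ := hd p.1 a1.1
    obtain ⟨w1, w2, w3⟩ := hd p.2 a2.1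
    have k1 : Cop q p.1 := cop_left a3
    have k2 : Cop q p.2 := cop_of_cj hc S (cop_right a3)
    have k3 : Cop q (d p.1).2 := by
      rw [u3] at k1
      exact cop_right k1
    have k4 : Cop q (d p.2).2 := by
      rw [w3] at k2
      exact cop_right k2
    rw [Finset.mem_product, Finset.mem_product, hi]
    refine ⟨⟨b1, c1⟩, ?_⟩
    rw [hP', Finset.mem_filter, Finset.mem_product, hT', Finset.mem_filter, Finset.mem_filter]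
    refine ⟨⟨⟨b2, u2, k3⟩, ⟨c2, w2, k4⟩⟩, ?_⟩
    refine hp3 q (d p.1).1 (d p.2).1 _ _ hq u1 w1 ?_ ?_
    · rw [← u3, ← w3]
      exact a3
    · rw [← u3, ← w3]
      exact a4
  have s2 : ∑ p ∈ P, G (i p) ≤ ∑ y ∈ (J ×ˢ J) ×ˢ P', G y := by
    rw [← Finset.sum_image hinj]
    refine Finset.sum_le_sum_of_subset_of_nonneg himg fun y _ _ => ?_
    rw [hG]
    have g1 := hnn y.2.1
    have g2 := hnn y.2.2
    positivity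
  have s3 : ∑ y ∈ (J ×ˢ J) ×ˢ P', G y =
      (∑ c ∈ J, ((c : ℝ))⁻¹) ^ 2 * ∑ p ∈ P', gg v X p.1 * gg v X p.2 := by
    have e1 : (∑ c ∈ J, ((c : ℝ))⁻¹) ^ 2 = ∑ x ∈ J ×ˢ J, ((x.1 : ℝ))⁻¹ * ((x.2 : ℝ))⁻¹ := by
      rw [sq, Finset.sum_mul_sum, Finset.sum_product]
    rw [e1, Finset.sum_product, Finset.sum_mul, hG]
    refine Finset.sum_congr rfl fun y _ => ?_
    rw [Finset.mul_sum]
  have s4 : (∑ c ∈ J, ((c : ℝ))⁻¹) ^ 2 ≤ (1 + Real.log M) ^ 2 := by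
    have h1 := harm_le hM
    have h3 : 0 ≤ ∑ c ∈ J, ((c : ℝ))⁻¹ := Finset.sum_nonneg fun _ _ => by positivity
    gcongr
  have s5 : 0 ≤ ∑ p ∈ P', gg v X p.1 * gg v X p.2 :=
    Finset.sum_nonneg fun p _ => mul_nonneg (hnn _) (hnn _)
  calc _ ≤ _ := s1
    _ ≤ _ := s2
    _ = _ := s3
    _ ≤ _ := by gcongr

open Classical in
/-- the sum over pairs of primitive ideals in the same class -/
lemma prim_sum (S : RQ K) (hc : S_conj) (hs2 : S_seq2) (hp : S_prm) (hcl : S_cls) (hsu : S_sum)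
    (h2 : Module.finrank ℚ K = 2) {v : ℝ → ℝ} (hv : Wt v) {ρ : ℝ} (hρ : 0 < ρ) :
    ∃ (C : ℝ) (n₀ : ℕ), 0 < C ∧ ∀ n q : ℕ, n₀ ≤ n → IsU S n q →
      ∑ p ∈ (((Id K ((q : ℝ) ^ 2)).filter fun 𝔞 => Prm 𝔞 ∧ Cop q 𝔞) ×ˢ
        ((Id K ((q : ℝ) ^ 2)).filter fun 𝔞 => Prm 𝔞 ∧ Cop q 𝔞)).filter
          (fun p => Pr q (p.1 * S.cj p.2)),
        gg v (ρ * q) p.1 * gg v (ρ * q) p.2 ≤ C * (1 + Real.log q) ^ 4 := by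
  obtain ⟨hmul, hcc, hN, hsp, hnorm⟩ := hc K S
  obtain ⟨-, hp2, -⟩ := hp K S
  obtain ⟨Cc, nc, hCc, hcls⟩ := hcl K S
  obtain ⟨⟨C₁, hC₁, hinv⟩, hw⟩ := hsu K h2
  obtain ⟨C₂, hC₂, hwt⟩ := hw v hv ρ hρ
  obtain ⟨-, -, -, hM, -⟩ := hs2 K S
  obtain ⟨n₂, hn₂⟩ := hM 2
  refine ⟨(C₂ * (C₁ * 2)) * (C₂ * (Cc * 5)), max nc n₂, by positivity, ?_⟩
  intro n q hn hq
  simp only [max_le_iff] at hn
  obtain ⟨m1, m2⟩ := hn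
  have hq2 : 2 ≤ q := hn₂ n q m2 hq
  have hqr : (2 : ℝ) ≤ q := by exact_mod_cast hq2
  have hq0 : (0 : ℝ) < q := by linarith
  have hq1 : (1 : ℝ) ≤ q := by linarith
  have hX : 0 < ρ * q := by positivity
  set M : ℝ := (q : ℝ) ^ 2 with hMd
  have hM1 : 1 ≤ M := one_le_pow₀ hq1
  have hqM : (q : ℝ) ≤ M := by rw [hMd]; nlinarith
  have hlogq : 0 ≤ Real.log q := Real.log_nonneg hq1
  set Lq : ℝ := 1 + Real.log q with hLq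
  have hLq1 : 1 ≤ Lq := by linarith
  obtain ⟨hw1, hw2⟩ := hwt q M hqr hqM le_rfl
  set T' := (Id K M).filter fun 𝔞 => Prm 𝔞 ∧ Cop q 𝔞 with hT'
  set P' := (T' ×ˢ T').filter (fun p => Pr q (p.1 * S.cj p.2)) with hP'
  set w : Ideal (𝓞 K) → ℝ := fun 𝔞 => v ((Ideal.absNorm 𝔞 : ℝ) / (ρ * q)) with hwd
  have hT'm : ∀ 𝔞 ∈ T', 𝔞 ≠ ⊥ ∧ (Ideal.absNorm 𝔞 : ℝ) ≤ M ∧ Prm 𝔞 ∧ Cop q 𝔞 := by
    intro 𝔞 h
    rw [hT', Finset.mem_filter, mem_Id] at h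
    exact ⟨h.1.1, h.1.2, h.2.1, h.2.2⟩
  have hwpos : ∀ 𝔞 : Ideal (𝓞 K), 𝔞 ≠ ⊥ → 0 < w 𝔞 := by
    intro 𝔞 h
    have := one_le_norm h
    exact hv.pos _ (by positivity)
  -- symmetrisation
  have s1 : ∑ p ∈ P', gg v (ρ * q) p.1 * gg v (ρ * q) p.2 ≤
      ∑ p ∈ P', ((Ideal.absNorm p.1 : ℝ))⁻¹ / 2 * (w p.1 * w p.2) +
      ∑ p ∈ P', ((Ideal.absNorm p.2 : ℝ))⁻¹ / 2 * (w p.1 * w p.2) := by
    rw [← Finset.sum_add_distrib]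
    refine Finset.sum_le_sum fun p h => ?_
    rw [hP', Finset.mem_filter, Finset.mem_product] at h
    obtain ⟨a1, -⟩ := hT'm _ h.1.1
    obtain ⟨a2, -⟩ := hT'm _ h.1.2
    have b1 := one_le_norm a1
    have b2 := one_le_norm a2
    have w1 := hwpos _ a1
    have w2 := hwpos _ a2
    have hsq : ∀ x : ℝ, 1 ≤ x → (x ^ (-(1 / 2) : ℝ)) ^ 2 = x⁻¹ := by
      intro x hx
      rw [← Real.rpow_natCast, ← Real.rpow_mul (by linarith)]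
      norm_num
      rw [Real.rpow_neg_one]
    have h3 := hsq _ b1
    have h4 := hsq _ b2
    have h5 : gg v (ρ * q) p.1 * gg v (ρ * q) p.2 = ((Ideal.absNorm p.1 : ℝ) ^ (-(1 / 2) : ℝ) *
        (Ideal.absNorm p.2 : ℝ) ^ (-(1 / 2) : ℝ)) * (w p.1 * w p.2) := by
      rw [hwd]
      unfold gg
      ring
    rw [h5, ← h3, ← h4, ← add_mul]
    have h6 : 0 ≤ w p.1 * w p.2 := by positivity
    refine mul_le_mul_of_nonneg_right ?_ h6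
    nlinarith [sq_nonneg ((Ideal.absNorm p.1 : ℝ) ^ (-(1 / 2) : ℝ) -
      (Ideal.absNorm p.2 : ℝ) ^ (-(1 / 2) : ℝ))]
  have s2 : ∑ p ∈ P', ((Ideal.absNorm p.1 : ℝ))⁻¹ / 2 * (w p.1 * w p.2) =
      ∑ p ∈ P', ((Ideal.absNorm p.2 : ℝ))⁻¹ / 2 * (w p.1 * w p.2) := by
    refine Finset.sum_bij' (fun p _ => Prod.swap p) (fun p _ => Prod.swap p) ?_ ?_ ?_ ?_ ?_
    · intro p h
      rw [hP', Finset.mem_filter, Finset.mem_product] at h ⊢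
      exact ⟨⟨h.1.2, h.1.1⟩, hp2 q _ _ h.2⟩
    · intro p h
      rw [hP', Finset.mem_filter, Finset.mem_product] at h ⊢
      exact ⟨⟨h.1.2, h.1.1⟩, hp2 q _ _ h.2⟩
    · intro p _
      exact Prod.swap_swap p
    · intro p _
      exact Prod.swap_swap p
    · intro p _
      simp only [Prod.fst_swap, Prod.snd_swap]
      ring
  have s3 : ∑ p ∈ P', ((Ideal.absNorm p.2 : ℝ))⁻¹ * (w p.1 * w p.2) ≤
      ∑ 𝔟 ∈ T', ((Ideal.absNorm 𝔟 : ℝ))⁻¹ * w 𝔟 *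
        ∑ 𝔞 ∈ T'.filter (fun 𝔞 => Pr q (𝔞 * S.cj 𝔟)), w 𝔞 := by
    rw [hP', Finset.sum_filter, Finset.sum_product_right]
    refine Finset.sum_le_sum fun 𝔟 _ => ?_
    have e1 := Finset.sum_filter (s := T') (fun 𝔞 => Pr q (𝔞 * S.cj 𝔟)) w
    rw [e1, Finset.mul_sum]
    apply le_of_eq
    refine Finset.sum_congr rfl fun 𝔞 _ => ?_
    by_cases h : Pr q (𝔞 * S.cj 𝔟)
    · rw [if_pos h, if_pos h]
      ring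
    · rw [if_neg h, if_neg h, mul_zero]
  -- the inner sum
  have s4 : ∀ 𝔟 ∈ T', ∑ 𝔞 ∈ T'.filter (fun 𝔞 => Pr q (𝔞 * S.cj 𝔟)), w 𝔞 ≤
      C₂ * (Cc * (5 * Lq)) * Lq := by
    intro 𝔟 h𝔟
    obtain ⟨a1, a2, -, a4⟩ := hT'm 𝔟 h𝔟
    have b1 := one_le_norm a1
    refine hw2 _ (Cc * (5 * Lq)) (by positivity) ?_ ?_
    · intro 𝔞 h
      rw [Finset.mem_filter] at h
      obtain ⟨c1, c2, -⟩ := hT'm 𝔞 h.1
      exact ⟨c1, c2⟩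
    · intro Y hY hYM
      obtain ⟨hf, hb⟩ := hcls n q m1 hq 𝔟 a1 a4 Y hY
      have h3 : (((T'.filter (fun 𝔞 => Pr q (𝔞 * S.cj 𝔟))).filter
          fun 𝔞 => (Ideal.absNorm 𝔞 : ℝ) ≤ Y).card : ℝ) ≤
          ({𝔞 : Ideal (𝓞 K) | Prm 𝔞 ∧ Pr q (𝔞 * S.cj 𝔟) ∧
            (Ideal.absNorm 𝔞 : ℝ) ≤ Y}.ncard : ℝ) := by
        rw [Set.ncard_eq_toFinset_card _ hf]
        have : ((T'.filter (fun 𝔞 => Pr q (𝔞 * S.cj 𝔟))).filter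
          fun 𝔞 => (Ideal.absNorm 𝔞 : ℝ) ≤ Y) ⊆ hf.toFinset := by
          intro 𝔞 h
          rw [Finset.mem_filter, Finset.mem_filter] at h
          rw [Set.Finite.mem_toFinset]
          exact ⟨(hT'm 𝔞 h.1.1).2.2.1, h.1.2, h.2⟩
        exact_mod_cast Finset.card_le_card this
      refine h3.trans (hb.trans ?_)
      have h4 : Real.log (q * (Ideal.absNorm 𝔟 : ℝ) * Y) ≤ 5 * Real.log q := by
        have h5 : (q : ℝ) * (Ideal.absNorm 𝔟 : ℝ) * Y ≤ (q : ℝ) ^ 5 := by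
          calc (q : ℝ) * (Ideal.absNorm 𝔟 : ℝ) * Y ≤ (q : ℝ) * M * M := by gcongr
            _ = (q : ℝ) ^ 5 := by rw [hMd]; ring
        have h6 := Real.log_le_log (by positivity) h5
        rw [Real.log_pow] at h6
        push_cast at h6
        exact h6
      have h5 : 1 + Real.log (q * (Ideal.absNorm 𝔟 : ℝ) * Y) ≤ 5 * Lq := by
        rw [hLq]; linarith
      have h6 : 0 ≤ 1 + Y / q := by positivity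
      calc Cc * (1 + Real.log (q * (Ideal.absNorm 𝔟 : ℝ) * Y)) * (1 + Y / q)
          ≤ Cc * (5 * Lq) * (1 + Y / q) := by gcongr
        _ = _ := by ring
  have s5 : ∑ 𝔟 ∈ T', ((Ideal.absNorm 𝔟 : ℝ))⁻¹ * w 𝔟 *
        ∑ 𝔞 ∈ T'.filter (fun 𝔞 => Pr q (𝔞 * S.cj 𝔟)), w 𝔞 ≤
      ∑ 𝔟 ∈ T', ((Ideal.absNorm 𝔟 : ℝ))⁻¹ * ((C₂ * Lq) * (C₂ * (Cc * (5 * Lq)) * Lq)) := by
    refine Finset.sum_le_sum fun 𝔟 h𝔟 => ?_
    have h3 := s4 𝔟 h𝔟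
    obtain ⟨a1, -⟩ := hT'm 𝔟 h𝔟
    have h4 : w 𝔟 ≤ C₂ * Lq := hw1 𝔟 a1
    have h5 := hwpos 𝔟 a1
    have h6 : 0 ≤ ∑ 𝔞 ∈ T'.filter (fun 𝔞 => Pr q (𝔞 * S.cj 𝔟)), w 𝔞 :=
      Finset.sum_nonneg fun 𝔞 h => by
        rw [Finset.mem_filter] at h
        exact (hwpos 𝔞 (hT'm 𝔞 h.1).1).le
    rw [mul_assoc]
    have h7 : w 𝔟 * ∑ 𝔞 ∈ T'.filter (fun 𝔞 => Pr q (𝔞 * S.cj 𝔟)), w 𝔞 ≤
        (C₂ * Lq) * (C₂ * (Cc * (5 * Lq)) * Lq) := mul_le_mul h4 h3 h6 (by positivity)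
    gcongr
  have s6 : ∑ 𝔟 ∈ T', ((Ideal.absNorm 𝔟 : ℝ))⁻¹ ≤ C₁ * (2 * Lq) := by
    have h3 := hinv M T' hM1 (fun 𝔞 h => ⟨(hT'm 𝔞 h).1, (hT'm 𝔞 h).2.1⟩)
    have h4 : 1 + Real.log M ≤ 2 * Lq := by
      rw [hMd, Real.log_pow, hLq]
      push_cast
      linarith
    refine h3.trans ?_
    gcongr
  have s7 : ∑ p ∈ P', gg v (ρ * q) p.1 * gg v (ρ * q) p.2 ≤
      ∑ p ∈ P', ((Ideal.absNorm p.2 : ℝ))⁻¹ * (w p.1 * w p.2) := by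
    refine s1.trans ?_
    rw [s2, ← Finset.sum_add_distrib]
    apply le_of_eq
    refine Finset.sum_congr rfl fun p _ => ?_
    ring
  rw [← Finset.sum_mul] at s5
  calc _ ≤ _ := s7
    _ ≤ _ := s3
    _ ≤ _ := s5
    _ ≤ (C₁ * (2 * Lq)) * ((C₂ * Lq) * (C₂ * (Cc * (5 * Lq)) * Lq)) := by gcongr
    _ = _ := by ring

theorem t_second2 (hc : S_conj) (hs2 : S_seq2) (ho : S_orth) (hu : S_cardU) (hp : S_prm)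
    (hcl : S_cls) (hsu : S_sum) : S_second2 := by
  intro K _ _ _ S h2 ψ₀ hψ v hv ρ hρ
  classical
  obtain ⟨Ct, hCt, htail⟩ := tail_bd (K := K) hv hρ (η := 1) one_pos
  obtain ⟨Cp, np, hCp, hpr⟩ := prim_sum S hc hs2 hp hcl hsu h2 hv hρ
  obtain ⟨-, -, -, hM, n₅, hn₅⟩ := hs2 K S
  obtain ⟨n₂, hn₂⟩ := hM 2
  obtain ⟨Cu, hCu, hcu⟩ := hu K S
  refine ⟨2 * (2 * Cu * (4 * Cp)) + 2 * (2 * Cu * Ct ^ 2), max np (max n₂ n₅), by positivity, ?_⟩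
  intro n q hn hq
  simp only [max_le_iff] at hn
  obtain ⟨m1, m2, m5⟩ := hn
  have hq2 : 2 ≤ q := hn₂ n q m2 hq
  have hqr : (2 : ℝ) ≤ q := by exact_mod_cast hq2
  have hq0 : (0 : ℝ) < q := by linarith
  have hq1 : (1 : ℝ) ≤ q := by linarith
  have hX : 0 < ρ * q := by positivity
  have hfin := (ho K S q q hq2 dvd_rfl).1
  rw [finsum_mem_eq_finite_toFinset_sum _ hfin]
  have hM2 : (q : ℝ) ^ (1 + 1 : ℝ) = (q : ℝ) ^ 2 := by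
    rw [← Real.rpow_natCast]
    norm_num
  set M : ℝ := (q : ℝ) ^ 2 with hMdef
  have hM1 : 1 ≤ M := one_le_pow₀ hq1
  have hlogq : 0 ≤ Real.log q := Real.log_nonneg hq1
  set Lq : ℝ := 1 + Real.log q with hLq
  have hLq1 : 1 ≤ Lq := by linarith
  set g : Ideal (𝓞 K) → ℝ := gg v (ρ * q) with hgdef
  have hnn : ∀ 𝔞, 0 ≤ g 𝔞 := fun 𝔞 => gg_nonneg (K := K) hv hX 𝔞
  have hcard : ((XX K q q).ncard : ℝ) ≤ 2 * Cu * q := by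
    have h5 := hcu q q hq2 dvd_rfl
    have h6 := hn₅ n q m5 hq q dvd_rfl
    have h7 : ((XX K q q).ncard : ℝ) * q ≤ (2 * Cu * q) * q := by
      calc ((XX K q q).ncard : ℝ) * q ≤ ((XX K q q).ncard : ℝ) * (2 * (Nat.totient q : ℝ)) := by
            gcongr
        _ = 2 * (((XX K q q).ncard : ℝ) * (Nat.totient q : ℝ)) := by ring
        _ ≤ 2 * (Cu * (q : ℝ) ^ 2) := by gcongr
        _ = _ := by ring
    exact le_of_mul_le_mul_right h7 hq0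
  -- the finite sums
  have h3 := fin_second' S hc ho hψ hq2 (Id K M) g hnn hfin
  have h4 : ∑ p ∈ ((Id K M) ×ˢ (Id K M)).filter
      (fun p => Cop q (p.1 * S.cj p.2) ∧ Pr q (p.1 * S.cj p.2)), g p.1 * g p.2 ≤
      4 * Cp * Lq ^ 6 := by
    have h5 := prim_red S hc hp h2 hv hX (by omega : 0 < q) hM1
    have h6 := hpr n q m1 hq
    have h7 : (1 + Real.log M) ^ 2 ≤ (2 * Lq) ^ 2 := by
      have h8 : 1 + Real.log M ≤ 2 * Lq := by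
        rw [hMdef, Real.log_pow, hLq]
        push_cast
        linarith
      have h9 : 0 ≤ Real.log M := Real.log_nonneg hM1
      gcongr
    calc _ ≤ _ := h5
      _ ≤ (2 * Lq) ^ 2 * (Cp * Lq ^ 4) := by
          refine mul_le_mul h7 h6 ?_ (by positivity)
          exact Finset.sum_nonneg fun p _ => mul_nonneg (hnn _) (hnn _)
      _ = _ := by ring
  have h5 : ∑ χ ∈ hfin.toFinset, ‖AA v (ρ * q) (pr ψ₀ χ)‖ ^ 2 ≤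
      2 * ∑ χ ∈ hfin.toFinset, ‖∑ 𝔞 ∈ Id K M, pr ψ₀ χ 𝔞 * ((g 𝔞 : ℝ) : ℂ)‖ ^ 2 +
        2 * (((XX K q q).ncard : ℝ) * Ct ^ 2) := by
    have h6 : ∀ χ ∈ hfin.toFinset, ‖AA v (ρ * q) (pr ψ₀ χ)‖ ^ 2 ≤
        2 * ‖∑ 𝔞 ∈ Id K M, pr ψ₀ χ 𝔞 * ((g 𝔞 : ℝ) : ℂ)‖ ^ 2 + 2 * Ct ^ 2 := by
      intro χ hχ
      rw [Set.Finite.mem_toFinset] at hχ
      have hr := rc_norm hq2 hχ.1
      have h7 := htail q hqr (pr ψ₀ χ) (fun 𝔞 => by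
        have h1 : pr ψ₀ χ 𝔞 = ψ₀ 𝔞 * χ 𝔞 := rfl
        rw [h1, norm_mul]
        exact mul_le_one₀ (hψ _) (norm_nonneg _) (hr _))
      rw [hM2] at h7
      have h8 : Ct * (q : ℝ)⁻¹ ≤ Ct := by
        have : (q : ℝ)⁻¹ ≤ 1 := inv_le_one_of_one_le₀ hq1
        nlinarith
      have h9 : ‖AA v (ρ * q) (pr ψ₀ χ)‖ ≤
          ‖∑ 𝔞 ∈ Id K M, pr ψ₀ χ 𝔞 * ((g 𝔞 : ℝ) : ℂ)‖ + Ct := by
        have h10 := norm_sub_norm_le (AA v (ρ * q) (pr ψ₀ χ))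
          (∑ 𝔞 ∈ Id K M, pr ψ₀ χ 𝔞 * ((g 𝔞 : ℝ) : ℂ))
        linarith
      have h11 : 0 ≤ ‖AA v (ρ * q) (pr ψ₀ χ)‖ := norm_nonneg _
      have h12 : 0 ≤ ‖∑ 𝔞 ∈ Id K M, pr ψ₀ χ 𝔞 * ((g 𝔞 : ℝ) : ℂ)‖ := norm_nonneg _
      nlinarith [sq_nonneg (‖∑ 𝔞 ∈ Id K M, pr ψ₀ χ 𝔞 * ((g 𝔞 : ℝ) : ℂ)‖ - Ct),
        mul_self_le_mul_self h11 h9]
    refine (Finset.sum_le_sum h6).trans ?_
    rw [Finset.sum_add_distrib, ← Finset.mul_sum, Finset.sum_const, nsmul_eq_mul,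
      Set.ncard_eq_toFinset_card _ hfin]
    apply le_of_eq
    ring
  refine h5.trans ?_
  have hL6 : (1 : ℝ) ≤ Lq ^ 6 := one_le_pow₀ hLq1
  have h7 : ∑ χ ∈ hfin.toFinset, ‖∑ 𝔞 ∈ Id K M, pr ψ₀ χ 𝔞 * ((g 𝔞 : ℝ) : ℂ)‖ ^ 2 ≤
      (2 * Cu * q) * (4 * Cp * Lq ^ 6) := by
    refine h3.trans ?_
    refine mul_le_mul hcard h4 ?_ (by positivity)
    exact Finset.sum_nonneg fun p _ => mul_nonneg (hnn _) (hnn _)
  have h8 : ((XX K q q).ncard : ℝ) * Ct ^ 2 ≤ (2 * Cu * q) * Ct ^ 2 * Lq ^ 6 := by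
    calc ((XX K q q).ncard : ℝ) * Ct ^ 2 ≤ (2 * Cu * q) * Ct ^ 2 := by gcongr
      _ ≤ (2 * Cu * q) * Ct ^ 2 * Lq ^ 6 := le_mul_of_one_le_right (by positivity) hL6
  calc 2 * ∑ χ ∈ hfin.toFinset, ‖∑ 𝔞 ∈ Id K M, pr ψ₀ χ 𝔞 * ((g 𝔞 : ℝ) : ℂ)‖ ^ 2 +
        2 * (((XX K q q).ncard : ℝ) * Ct ^ 2)
      ≤ 2 * ((2 * Cu * q) * (4 * Cp * Lq ^ 6)) + 2 * ((2 * Cu * q) * Ct ^ 2 * Lq ^ 6) := by gcongr
    _ = _ := by ring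

end Pool.Agent.NH12.RS
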