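import Pool.Agent.NH12.RS.Fin4
import Pool.Agent.NH12.RS.Third

/-! # Counting with powers of logarithms -/

set_option autoImplicit false
set_option linter.unusedSectionVars false

open NumberField Complex Finset

namespace Pool.Agent.NH12.RS

open Pool.Agent.Y773 (TPos IsPrimChar IsModChar LI sg)

variable {K : Type} [Field K] [NumberField K]

/-- `n` is at most a multiple of `log q` -/
lemma n_le_log (hs : S_seq) (S : RQ K) : ∃ (C : ℝ) (n₀ : ℕ), 0 < C ∧ ∀ n q : ℕ, n₀ ≤ n →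
    IsU S n q → 2 ≤ q → (n : ℝ) ≤ C * (1 + Real.log q) := by
  obtain ⟨-, C, n₀, hC, h⟩ := hs K S
  have hl : 0 < Real.log (S.τ S.ε) := Real.log_pos S.one_lt
  refine ⟨(1 + Real.log C) / Real.log (S.τ S.ε), n₀, by
    have := Real.log_nonneg hC
    positivity, ?_⟩
  intro n q hn hq hq2
  obtain ⟨-, -, -, h4, -⟩ := h n q hn hq
  have hq0 : (0 : ℝ) < q := by
    have : 0 < q := by omega
    exact_mod_cast this
  have hq1 : (1 : ℝ) ≤ q := by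
    have : 1 ≤ q := by omega
    exact_mod_cast this
  have h0 : 0 < S.τ (S.ε : 𝓞 K) := by linarith [S.one_lt]
  have h5 := Real.log_le_log (by positivity) h4
  rw [Real.log_pow, Real.log_mul (by linarith) hq0.ne'] at h5
  have h6 := Real.log_nonneg hC
  have h7 := Real.log_nonneg hq1
  rw [div_mul_eq_mul_div, le_div_iff₀ hl]
  nlinarith [mul_nonneg h6 h7]

theorem count_w2 [IsTotallyReal K] (S : RQ K) (h2 : Module.finrank ℚ K = 2) (hc : S_conj)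
    (hs1 : S_seq) (hs2 : S_seq2) (hmain : S_main) (hdiag : S_diag) (hinv : S_inv) (hfirst : S_first)
    (hsecond : S_second2) (hcardL : S_cardL) (ho : S_orth) {𝔣₀ : Ideal (𝓞 K)} {a : ℕ}
    {ψ₀ : Ideal (𝓞 K) →*₀ ℂ} (hB : Base S 𝔣₀ a ψ₀) {v : ℝ → ℝ} (hv : Wt v) {ρ : ℝ} (hρ : 0 < ρ)
    {B : ℝ} (hB0 : 0 ≤ B) : ∃ (t c₁ : ℝ) (n₀ : ℕ), 0 < t ∧ 0 < c₁ ∧ ∀ n q : ℕ, n₀ ≤ n →
      IsU S n q → ∀ u : ℂ, ‖u‖ ≤ B → (u = 0 ∨ ¬ Rat 𝔣₀) →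
        c₁ * q / (1 + Real.log q) ^ 8 ≤
          ({χ | χ ∈ PP K q ∧ t ≤ ‖(1 + u * χ 𝔣₀) * AA v (ρ * q) (pr ψ₀ χ)‖}.ncard : ℝ) := by
  classical
  have hψ := base_norm hB
  have hinv' := hinv K S 𝔣₀ a ψ₀ hB
  obtain ⟨f, hf, hfm, hfmin⟩ := exists_least hB.ne_bot
  obtain ⟨k1, k2, k3, k4⟩ := kap_props hc hB hf hfm hfmin
  obtain ⟨c, ηm, X₀, hc0, hηm, hX₀, hmn⟩ := hmain f (kap ψ₀ f) hf k1 k2 k3 k4 v hv
  obtain ⟨Ct, nt, hCt, hFt⟩ := hfirst K S h2 ψ₀ hψ v hv ρ hρ ⊤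
    (by rw [← Ideal.one_eq_top]; exact one_ne_zero) (1 / 8) (by norm_num)
  obtain ⟨Cf, nf, hCf, hFf⟩ := hfirst K S h2 ψ₀ hψ v hv ρ hρ 𝔣₀ hB.ne_bot (1 / 8) (by norm_num)
  obtain ⟨CL, nL, hCL, hLL⟩ := hcardL K S
  obtain ⟨C₂, n₂, hC₂, hS2⟩ := hsecond K S h2 ψ₀ hψ v hv ρ hρ
  obtain ⟨Cn, nn, hCn, hnn⟩ := n_le_log hs1 S
  obtain ⟨q1, -, q3, q4, -⟩ := hs2 K S
  obtain ⟨m1, hm1⟩ := q1 ηm hηm
  set η₁ : ℝ := 1 / 8 with hη₁
  have hη₁0 : 0 < η₁ := by rw [hη₁]; norm_num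
  have hη₁b : η₁ ≤ 1 / 8 := le_rfl
  obtain ⟨m3, hm3⟩ := q3 η₁ hη₁0
  -- thresholds for `q`
  set E : ℝ := (Ct + B * Cf) with hE
  have hE0 : 0 < E := by positivity
  set M₁ : ℝ := (2 * E * CL / c) ^ 4 with hM₁
  obtain ⟨m4, hm4⟩ := q4 (⌈max (max 2 (X₀ / ρ)) M₁⌉₊)
  refine ⟨c / 4, c ^ 2 / (16 * (CL * Cn) ^ 2 * ((1 + B) ^ 2 * C₂)),
    max m1 (max m3 (max m4 (max nt (max nf (max nL (max n₂ nn)))))), by positivity, by positivity, ?_⟩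
  intro n q hn hq u hu hur
  simp only [max_le_iff] at hn
  obtain ⟨g1, g3, g4, gt, gf, gL, g2, gn⟩ := hn
  have hqM : max (max 2 (X₀ / ρ)) M₁ ≤ (q : ℝ) := Nat.ceil_le.mp (hm4 n q g4 hq)
  simp only [max_le_iff] at hqM
  obtain ⟨⟨hqr, hqX⟩, hqM1⟩ := hqM
  have hq2 : 2 ≤ q := by exact_mod_cast hqr
  have hq0 : (0 : ℝ) < q := by linarith
  have hq1 : (1 : ℝ) ≤ q := by linarith
  have hfin := (ho K S q q hq2 dvd_rfl).1
  have hPf : (PP K q).Finite := hfin.subset (pp_sub q)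
  set P : ℝ := ((PP K q).ncard : ℝ) with hP
  have hP0 : 0 ≤ P := Nat.cast_nonneg _
  set A : (Ideal (𝓞 K) →*₀ ℂ) → ℂ := fun χ => AA v (ρ * q) (pr ψ₀ χ) with hA
  set b : (Ideal (𝓞 K) →*₀ ℂ) → ℂ := fun χ => 1 + u * χ 𝔣₀ with hb
  have hXq : X₀ ≤ ρ * q := by
    rw [div_le_iff₀ hρ] at hqX
    linarith
  obtain ⟨hms, hml⟩ := hmn (ρ * q) q hXq (by omega) (hm1 n q g1 hq)
  set D : ℝ := ∑' n : ℕ, (if Nat.Coprime n q then kap ψ₀ f n / n * v ((n : ℝ) ^ 2 / (ρ * q)) else 0)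
    with hD
  have hDt : DD v (ρ * q) q ⊤ ψ₀ = (D : ℂ) := dd_top h2 hc hB f v (ρ * q) (by omega)
  have eT := hFt n q gt hq
  have eF := hFf n q gf hq
  rw [hDt] at eT
  -- the sum
  have hsum : ‖∑ χ ∈ hPf.toFinset, b χ * A χ - ((PP K q).ncard : ℂ) * D‖ ≤
      E * (q : ℝ) ^ (1 / 2 + 1 / 8 : ℝ) := by
    have h3 : ∑ χ ∈ hPf.toFinset, b χ * A χ - ((PP K q).ncard : ℂ) * D =
        (∑ᶠ χ ∈ PP K q, χ ⊤ * AA v (ρ * q) (pr ψ₀ χ) - ((PP K q).ncard : ℂ) * D) +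
        u * (∑ᶠ χ ∈ PP K q, χ 𝔣₀ * AA v (ρ * q) (pr ψ₀ χ)) := by
      rw [finsum_mem_eq_finite_toFinset_sum _ hPf, finsum_mem_eq_finite_toFinset_sum _ hPf,
        Finset.mul_sum, add_comm, ← add_sub_assoc, ← Finset.sum_add_distrib]
      congr 1
      refine Finset.sum_congr rfl fun χ _ => ?_
      have h4 : χ ⊤ = 1 := by rw [← Ideal.one_eq_top, map_one]
      rw [h4, hb, hA]
      ring
    rw [h3]
    have h5 : ‖u * (∑ᶠ χ ∈ PP K q, χ 𝔣₀ * AA v (ρ * q) (pr ψ₀ χ))‖ ≤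
        B * (Cf * (q : ℝ) ^ (1 / 2 + 1 / 8 : ℝ)) := by
      rcases hur with h6 | h6
      · rw [h6, zero_mul, norm_zero]
        positivity
      · rw [dd_zero hdiag hinv' hB h6, mul_zero, sub_zero] at eF
        rw [norm_mul]
        gcongr
    calc _ ≤ ‖(∑ᶠ χ ∈ PP K q, χ ⊤ * AA v (ρ * q) (pr ψ₀ χ) - ((PP K q).ncard : ℂ) * D)‖ +
          ‖u * (∑ᶠ χ ∈ PP K q, χ 𝔣₀ * AA v (ρ * q) (pr ψ₀ χ))‖ := norm_add_le _ _
      _ ≤ Ct * (q : ℝ) ^ (1 / 2 + 1 / 8 : ℝ) + B * (Cf * (q : ℝ) ^ (1 / 2 + 1 / 8 : ℝ)) := by gcongr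
      _ = _ := by rw [hE]; ring
  -- the lower bound for the number of characters
  have hPl : (q : ℝ) ^ (1 - η₁) ≤ CL * P := by
    have h3 := hLL n q gL hq
    have h4 := (hm3 n q g3 hq).1
    have h5 : (q : ℝ) ≤ CL * (q : ℝ) ^ η₁ * P := by
      refine h3.trans ?_
      gcongr
    have h6 : (q : ℝ) = (q : ℝ) ^ (1 - η₁) * (q : ℝ) ^ η₁ := by
      rw [← Real.rpow_add hq0, sub_add_cancel, Real.rpow_one]
    have h7 : (0 : ℝ) < (q : ℝ) ^ η₁ := by positivity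
    have h8 : (q : ℝ) ^ (1 - η₁) * (q : ℝ) ^ η₁ ≤ (CL * P) * (q : ℝ) ^ η₁ := by
      rw [← h6]
      linarith
    exact le_of_mul_le_mul_right h8 h7
  have hEq : E * (q : ℝ) ^ (1 / 2 + 1 / 8 : ℝ) ≤ P * c / 2 := by
    have h3 : (2 * E * CL / c) ≤ (q : ℝ) ^ (1 / 4 : ℝ) := by
      have h4 : ((2 * E * CL / c) ^ 4) ^ (1 / 4 : ℝ) ≤ (q : ℝ) ^ (1 / 4 : ℝ) :=
        Real.rpow_le_rpow (by positivity) hqM1 (by norm_num)
      rw [← Real.rpow_natCast, ← Real.rpow_mul (by positivity)] at h4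
      norm_num at h4
      norm_num
      exact h4
    rw [div_le_iff₀ hc0] at h3
    have h5 : (q : ℝ) ^ (1 / 4 : ℝ) * (q : ℝ) ^ (1 / 2 + 1 / 8 : ℝ) ≤ CL * P := by
      refine le_trans ?_ hPl
      rw [← Real.rpow_add hq0]
      refine Real.rpow_le_rpow_of_exponent_le hq1 ?_
      linarith
    have h6 : 2 * E * CL * (q : ℝ) ^ (1 / 2 + 1 / 8 : ℝ) ≤ CL * P * c := by
      calc 2 * E * CL * (q : ℝ) ^ (1 / 2 + 1 / 8 : ℝ)
          ≤ ((q : ℝ) ^ (1 / 4 : ℝ) * c) * (q : ℝ) ^ (1 / 2 + 1 / 8 : ℝ) := by gcongr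
        _ = ((q : ℝ) ^ (1 / 4 : ℝ) * (q : ℝ) ^ (1 / 2 + 1 / 8 : ℝ)) * c := by ring
        _ ≤ CL * P * c := by gcongr
    have h7 : CL * (E * (q : ℝ) ^ (1 / 2 + 1 / 8 : ℝ)) ≤ CL * (P * c / 2) := by
      linarith
    exact le_of_mul_le_mul_left h7 hCL
  have hlow : P * c / 2 ≤ ‖∑ χ ∈ hPf.toFinset, b χ * A χ‖ := by
    have h3 : ‖((PP K q).ncard : ℂ) * D‖ - ‖∑ χ ∈ hPf.toFinset, b χ * A χ‖ ≤
        ‖∑ χ ∈ hPf.toFinset, b χ * A χ - ((PP K q).ncard : ℂ) * D‖ := by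
      rw [norm_sub_rev]
      exact norm_sub_norm_le _ _
    have h4 : P * c ≤ ‖((PP K q).ncard : ℂ) * D‖ := by
      rw [norm_mul, Complex.norm_natCast, Complex.norm_real, Real.norm_of_nonneg (by linarith)]
      gcongr
    linarith
  -- Cauchy-Schwarz
  have hcardP : (hPf.toFinset.card : ℝ) = P := by
    rw [hP, Set.ncard_eq_toFinset_card _ hPf]
  have hcs := cs_count hPf.toFinset b A (B := 1 + B) (t := c / 4) (by
    intro χ hχ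
    rw [Set.Finite.mem_toFinset] at hχ
    rw [hb]
    calc ‖1 + u * χ 𝔣₀‖ ≤ ‖(1 : ℂ)‖ + ‖u * χ 𝔣₀‖ := norm_add_le _ _
      _ ≤ 1 + B := by
          rw [norm_one, norm_mul]
          have := rc_norm hq2 hχ.toIsRC 𝔣₀
          have h3 : ‖u‖ * ‖χ 𝔣₀‖ ≤ B * 1 := by gcongr
          linarith) (by positivity) (by
      rw [hcardP]
      nlinarith [mul_nonneg hP0 hc0.le])
  rw [hcardP] at hcs
  have hlogq : 0 ≤ Real.log q := Real.log_nonneg hq1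
  set Lq : ℝ := 1 + Real.log q with hLq
  have hLq1 : 1 ≤ Lq := by linarith
  have hup : ∑ χ ∈ hPf.toFinset, ‖A χ‖ ^ 2 ≤ C₂ * q * Lq ^ 6 := by
    have h3 := hS2 n q g2 hq
    rw [finsum_mem_eq_finite_toFinset_sum _ hfin] at h3
    refine le_trans ?_ h3
    refine Finset.sum_le_sum_of_subset_of_nonneg ?_ fun _ _ _ => by positivity
    intro χ hχ
    rw [Set.Finite.mem_toFinset] at hχ ⊢
    exact pp_sub q hχ
  set Nn : ℝ := ((hPf.toFinset.filter fun χ => c / 4 ≤ ‖b χ * A χ‖).card : ℝ) with hNn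
  have hN0 : 0 ≤ Nn := Nat.cast_nonneg _
  have hset : ({χ | χ ∈ PP K q ∧ c / 4 ≤ ‖(1 + u * χ 𝔣₀) * AA v (ρ * q) (pr ψ₀ χ)‖}.ncard : ℝ) =
      Nn := by
    rw [hNn]
    congr 1
    rw [← Set.ncard_coe_finset]
    congr 1
    ext χ
    simp only [Set.mem_setOf_eq, Finset.coe_filter, Set.Finite.mem_toFinset]
    rfl
  rw [hset]
  have h3 : (P * c / 4) ^ 2 ≤ Nn * ((1 + B) ^ 2 * (C₂ * q * Lq ^ 6)) := by
    calc (P * c / 4) ^ 2 ≤ (‖∑ χ ∈ hPf.toFinset, b χ * A χ‖ - c / 4 * P) ^ 2 := by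
          have h4 : P * c / 4 ≤ ‖∑ χ ∈ hPf.toFinset, b χ * A χ‖ - c / 4 * P := by linarith
          gcongr
      _ ≤ _ := hcs
      _ ≤ _ := by gcongr
  -- the number of characters
  have hPq : (q : ℝ) ≤ CL * Cn * Lq * P := by
    have h4 := hLL n q gL hq
    have h5 := hnn n q gn hq hq2
    refine h4.trans ?_
    calc CL * (n : ℝ) * P ≤ CL * (Cn * Lq) * P := by gcongr
      _ = _ := by ring
  have h4 : (q : ℝ) ^ 2 * c ^ 2 ≤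
      16 * (CL * Cn) ^ 2 * ((1 + B) ^ 2 * C₂) * (q * Lq ^ 8) * Nn := by
    calc (q : ℝ) ^ 2 * c ^ 2 ≤ (CL * Cn * Lq * P) ^ 2 * c ^ 2 := by gcongr
      _ = 16 * (CL * Cn) ^ 2 * Lq ^ 2 * (P * c / 4) ^ 2 := by ring
      _ ≤ 16 * (CL * Cn) ^ 2 * Lq ^ 2 * (Nn * ((1 + B) ^ 2 * (C₂ * q * Lq ^ 6))) := by gcongr
      _ = _ := by ring
  have hK0 : 0 < 16 * (CL * Cn) ^ 2 * ((1 + B) ^ 2 * C₂) := by positivity
  rw [div_mul_eq_mul_div, div_div, div_le_iff₀ (by positivity)]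
  have h5 : (c ^ 2 * q) * q ≤
      (Nn * (16 * (CL * Cn) ^ 2 * ((1 + B) ^ 2 * C₂) * Lq ^ 8)) * q := by
    calc (c ^ 2 * q) * q = (q : ℝ) ^ 2 * c ^ 2 := by ring
      _ ≤ _ := h4
      _ = _ := by ring
  exact le_of_mul_le_mul_right h5 hq0

theorem main_thm2 [IsTotallyReal K] (S : RQ K) (h2 : Module.finrank ℚ K = 2) (hc : S_conj)
    (hs1 : S_seq) (hs2 : S_seq2) (hmain : S_main) (hdiag : S_diag) (hinv : S_inv) (hfirst : S_first)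
    (hsecond : S_second2) (hcardL : S_cardL) (ho : S_orth) (hreal : S_real) (hroot : S_root)
    (hwt : S_wt) (hafe : S_afe) {𝔣₀ : Ideal (𝓞 K)} {a : ℕ}
    {ψ₀ : Ideal (𝓞 K) →*₀ ℂ} (hB : Base S 𝔣₀ a ψ₀) : ∃ (t c₀ : ℝ) (n₀ : ℕ), 0 < t ∧ 0 < c₀ ∧
      ∀ n q : ℕ, n₀ ≤ n → IsU S n q →
        (¬ Rat 𝔣₀ → ∀ k : ℕ, k ≤ 1 → c₀ * q / (Real.log q) ^ 8 ≤ ((Good t 𝔣₀ a ψ₀ q k).ncard : ℝ)) ∧
        (∃ k : ℕ, k ≤ 1 ∧ c₀ * q / (Real.log q) ^ 8 ≤ ((Good t 𝔣₀ a ψ₀ q k).ncard : ℝ)) ∧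
        (𝔣₀ = ⊤ → a = 0 → c₀ * q / (Real.log q) ^ 8 ≤ ((Good t 𝔣₀ a ψ₀ q 0).ncard : ℝ)) := by
  classical
  have ha := hB.le_one
  have hψ := base_norm hB
  obtain ⟨C₀, N, hN, hC₀, hR⟩ := hroot K S 𝔣₀ a ψ₀ hB h2
  obtain ⟨v0, hv0, hvc0⟩ := hwt a 0 ha (by norm_num)
  obtain ⟨v1, hv1, hvc1⟩ := hwt a 1 ha (by norm_num)
  have hNf : 0 < Ideal.absNorm 𝔣₀ :=
    Nat.pos_of_ne_zero fun h1 => hB.ne_bot (Ideal.absNorm_eq_zero_iff.mp h1)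
  have hNd : 0 < Ideal.absNorm (differentIdeal ℤ (𝓞 K)) :=
    Nat.pos_of_ne_zero fun h1 => differentIdeal_ne_bot (Ideal.absNorm_eq_zero_iff.mp h1)
  set ρ : ℝ := Real.sqrt (Ideal.absNorm 𝔣₀ * Ideal.absNorm (differentIdeal ℤ (𝓞 K)) : ℝ) with hρ
  have hρ0 : 0 < ρ := by
    rw [hρ]
    apply Real.sqrt_pos.mpr
    positivity
  obtain ⟨t0, ca, n1, ht0, hca, hcount0⟩ := count_w2 S h2 hc hs1 hs2 hmain hdiag hinv hfirst hsecond
    hcardL ho hB hv0 hρ0 (norm_nonneg C₀)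
  obtain ⟨t1, cb, n2, ht1, hcb, hcount1⟩ := count_w2 S h2 hc hs1 hs2 hmain hdiag hinv hfirst hsecond
    hcardL ho hB hv1 hρ0 (norm_nonneg C₀)
  set cm : ℝ := min ca cb with hcm
  have hcm0 : 0 < cm := lt_min hca hcb
  set tm : ℝ := min t0 t1 with htm
  have htm0 : 0 < tm := lt_min ht0 ht1
  have hG0 : 0 < ‖Complex.Gammaℝ (1 / 2 + a)‖⁻¹ ^ 2 := by
    have h3 : 0 < ‖Complex.Gammaℝ (1 / 2 + a)‖ := by
      rw [norm_pos_iff]
      apply Complex.Gammaℝ_ne_zero_of_re_pos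
      rw [Complex.add_re, Complex.natCast_re]
      norm_num
      positivity
    positivity
  obtain ⟨CR, n3, hCR, hfew⟩ := few_real S hs2 hreal ho hB
  obtain ⟨-, q2, -, q4, -⟩ := hs2 K S
  obtain ⟨m2, hm2⟩ := q2 N hN
  obtain ⟨m3, hm3⟩ := q2 (Ideal.absNorm 𝔣₀) hNf
  obtain ⟨m4, hm4⟩ := q4 (⌈max 3 ((512 * CR * 160 ^ 8 / cm) ^ (20 : ℕ))⌉₊)
  refine ⟨tm / (2 * Real.pi) * ‖Complex.Gammaℝ (1 / 2 + a)‖⁻¹ ^ 2, cm / 512, max n1 (max n2 (max n3 (max m2 (max m3 m4)))),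
    by positivity, by positivity, ?_⟩
  intro n q hn hq
  simp only [max_le_iff] at hn
  obtain ⟨g1, g2, g3, gm2, gm3, gm4⟩ := hn
  have hqM := Nat.ceil_le.mp (hm4 n q gm4 hq)
  simp only [max_le_iff] at hqM
  obtain ⟨hqr, hqC⟩ := hqM
  have hq2 : 2 ≤ q := by
    have : 3 ≤ q := by exact_mod_cast hqr
    omega
  have hq0 : (0 : ℝ) < q := by linarith
  have hlog1 : 1 ≤ Real.log q := by
    rw [Real.le_log_iff_exp_le hq0]
    have := Real.exp_one_lt_d9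
    linarith
  have hq1 : (1 : ℝ) ≤ q := by linarith
  have hfin := (ho K S q q hq2 dvd_rfl).1
  have hPf : (PP K q).Finite := hfin.subset (pp_sub q)
  have hcoN := hm2 n q gm2 hq
  have hcof := hm3 n q gm3 hq
  have hfew' := hfew n q g3 hq
  set T₂ := {χ : Ideal (𝓞 K) →*₀ ℂ | χ ∈ PP K q ∧
    ∀ 𝔞, (starRingEnd ℂ) (pr ψ₀ χ 𝔞) = pr ψ₀ χ 𝔞} with hT₂
  have hsqrt : Real.sqrt ((Ideal.absNorm 𝔣₀ * q ^ 2 *
      Ideal.absNorm (differentIdeal ℤ (𝓞 K)) : ℕ) : ℝ) = ρ * q := by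
    rw [hρ]
    have h3 : ((Ideal.absNorm 𝔣₀ * q ^ 2 * Ideal.absNorm (differentIdeal ℤ (𝓞 K)) : ℕ) : ℝ) =
        (Ideal.absNorm 𝔣₀ * Ideal.absNorm (differentIdeal ℤ (𝓞 K)) : ℝ) * (q : ℝ) ^ 2 := by
      push_cast
      ring
    rw [h3, Real.sqrt_mul (by positivity), Real.sqrt_sq hq0.le]
  -- from the numbers `A` to the orders
  set t : ℝ := tm / (2 * Real.pi) * ‖Complex.Gammaℝ (1 / 2 + a)‖⁻¹ ^ 2 with ht
  have key : ∀ (k : ℕ) (v : ℝ → ℝ) (u : ℂ) (t' : ℝ), tm ≤ t' → k ≤ 1 → Wt v →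
      (∀ y : ℝ, 0 < y → vc a k y = v y) →
      (∀ χ ∈ PP K q, (1 + u * χ 𝔣₀) * AA v (ρ * q) (pr ψ₀ χ) ≠ 0 →
        1 - (C₀ * ψ₀ (Ideal.span {(q : 𝓞 K)}) * χ 𝔣₀) * (-1) ^ (k + 1) ≠ 0) →
      (u = 0 ∨ ∀ z : ℂ, 1 + u * z = 1 - (C₀ * ψ₀ (Ideal.span {(q : 𝓞 K)}) * z) * (-1) ^ (k + 1)) →
      cm * q / (1 + Real.log q) ^ 8 ≤
          ({χ | χ ∈ PP K q ∧ t' ≤ ‖(1 + u * χ 𝔣₀) * AA v (ρ * q) (pr ψ₀ χ)‖}.ncard : ℝ) →
      cm / 512 * q / (Real.log q) ^ 8 ≤ ((Good t 𝔣₀ a ψ₀ q k).ncard : ℝ) := by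
    intro k v u t' htt hk hv hvc hu hu2 hcnt
    set T₁ := {χ : Ideal (𝓞 K) →*₀ ℂ | χ ∈ PP K q ∧
      t' ≤ ‖(1 + u * χ 𝔣₀) * AA v (ρ * q) (pr ψ₀ χ)‖} with hT₁
    have hT₁f : T₁.Finite := hPf.subset fun χ h => h.1
    have hT₂f : T₂.Finite := hPf.subset fun χ h => h.1
    have hGf : (Good t 𝔣₀ a ψ₀ q k).Finite := hPf.subset fun χ h => h.1
    have hsub : T₁ ⊆ Good t 𝔣₀ a ψ₀ q k ∪ T₂ := by
      intro χ hχ
      have hne : (1 + u * χ 𝔣₀) * AA v (ρ * q) (pr ψ₀ χ) ≠ 0 := by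
        intro h3
        have h4 := hχ.2
        rw [h3, norm_zero] at h4
        linarith
      by_cases hre : ∀ 𝔞, (starRingEnd ℂ) (pr ψ₀ χ 𝔞) = pr ψ₀ χ 𝔞
      · right
        exact ⟨hχ.1, hre⟩
      · left
        refine ⟨hχ.1, hre, ?_⟩
        obtain ⟨r1, -, -, X, hX, hfe⟩ := hR q χ hq2 hcoN hχ.1
        have h3 := hafe K h2 _ a (pr ψ₀ χ) X (C₀ * ψ₀ (Ideal.span {(q : 𝓞 K)}) * χ 𝔣₀) ha r1 hX hfe
          k v hk hv hvc
        rw [hsqrt] at h3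
        have h4 : iteratedDeriv k X (1 / 2) ≠ 0 := by
          intro h5
          rw [h5, mul_zero] at h3
          have h6 := hu χ hχ.1 hne
          have h7 : AA v (ρ * q) (pr ψ₀ χ) ≠ 0 := right_ne_zero_of_mul hne
          have h8 : ((((Ideal.absNorm 𝔣₀ * q ^ 2 * Ideal.absNorm (differentIdeal ℤ (𝓞 K)) : ℕ) : ℝ)
              : ℝ) : ℂ) ^ (1 / 4 : ℂ) ≠ 0 := by
            rw [Ne, Complex.cpow_eq_zero_iff]
            intro h9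
            have h10 : (1 : ℝ) ≤ ((Ideal.absNorm 𝔣₀ * q ^ 2 *
              Ideal.absNorm (differentIdeal ℤ (𝓞 K)) : ℕ) : ℝ) := hX.one_le
            have h11 := h9.1
            rw [Complex.ofReal_eq_zero] at h11
            linarith
          exact (mul_ne_zero (mul_ne_zero h6 h8) h7) h3.symm
        obtain ⟨hw, hord⟩ := sign_order hX.diff hfe hk h4
        obtain ⟨L, hL, hLo, hLd⟩ := exists_HL hX hfe
        have hLd' := hLd k hk hord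
        set RR : ℂ := ((((Ideal.absNorm 𝔣₀ * q ^ 2 * Ideal.absNorm (differentIdeal ℤ (𝓞 K)) : ℕ) : ℝ)
              : ℝ) : ℂ) ^ (1 / 4 : ℂ) with hRR
        have hRR0 : 0 < ‖RR‖ := by
          rw [norm_pos_iff, hRR, Ne, Complex.cpow_eq_zero_iff]
          intro h9
          have h10 : (1 : ℝ) ≤ ((Ideal.absNorm 𝔣₀ * q ^ 2 *
            Ideal.absNorm (differentIdeal ℤ (𝓞 K)) : ℕ) : ℝ) := hX.one_le
          have h11 := h9.1
          rw [Complex.ofReal_eq_zero] at h11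
          linarith
        -- the size of the derivative
        have hsz : tm ≤ ‖(1 - (C₀ * ψ₀ (Ideal.span {(q : 𝓞 K)}) * χ 𝔣₀) * (-1) ^ (k + 1)) *
            AA v (ρ * q) (pr ψ₀ χ)‖ := by
          rcases hu2 with h5 | h5
          · have h6 : (1 - (C₀ * ψ₀ (Ideal.span {(q : 𝓞 K)}) * χ 𝔣₀) * (-1) ^ (k + 1)) = 2 := by
              rw [hw, pow_succ, ← mul_assoc, ← mul_pow]
              norm_num
            rw [h6, norm_mul]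
            have h7 := hχ.2
            rw [h5, zero_mul, add_zero, one_mul] at h7
            have h8 : ‖(2 : ℂ)‖ = 2 := by norm_num
            rw [h8]
            have h9 : 0 ≤ ‖AA v (ρ * q) (pr ψ₀ χ)‖ := norm_nonneg _
            linarith
          · rw [← h5]
            exact htt.trans hχ.2
        have hsz2 : t ≤ ‖iteratedDeriv k L (1 / 2)‖ := by
          have h5 := congrArg norm h3
          have h6 : ‖(2 : ℂ)‖ = 2 := by norm_num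
          have e1 : ‖(2 : ℂ) * Real.pi * iteratedDeriv k X (1 / 2)‖ =
              2 * Real.pi * ‖iteratedDeriv k X (1 / 2)‖ := by
            rw [norm_mul, norm_mul, Complex.norm_real, Real.norm_of_nonneg Real.pi_pos.le, h6]
          have e2 : ‖(1 - (C₀ * ψ₀ (Ideal.span {(q : 𝓞 K)}) * χ 𝔣₀) * (-1) ^ (k + 1)) * RR *
              AA v (ρ * q) (pr ψ₀ χ)‖ =
              ‖(1 - (C₀ * ψ₀ (Ideal.span {(q : 𝓞 K)}) * χ 𝔣₀) * (-1) ^ (k + 1)) *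
                AA v (ρ * q) (pr ψ₀ χ)‖ * ‖RR‖ := by
            rw [norm_mul, norm_mul, norm_mul]
            ring
          rw [e1, e2] at h5
          have h7 : ‖iteratedDeriv k L (1 / 2)‖ * ‖RR‖ * (2 * Real.pi) =
              ‖(1 - (C₀ * ψ₀ (Ideal.span {(q : 𝓞 K)}) * χ 𝔣₀) * (-1) ^ (k + 1)) *
                AA v (ρ * q) (pr ψ₀ χ)‖ * ‖RR‖ * ‖Complex.Gammaℝ (1 / 2 + a)‖⁻¹ ^ 2 := by
            rw [hLd']
            calc ‖iteratedDeriv k X (1 / 2)‖ * ‖Complex.Gammaℝ (1 / 2 + a)‖⁻¹ ^ 2 * (2 * Real.pi) =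
                (2 * Real.pi * ‖iteratedDeriv k X (1 / 2)‖) * ‖Complex.Gammaℝ (1 / 2 + a)‖⁻¹ ^ 2 := by
                  ring
              _ = _ := by rw [h5]
          have h8 : ‖iteratedDeriv k L (1 / 2)‖ * (2 * Real.pi) * ‖RR‖ =
              ‖(1 - (C₀ * ψ₀ (Ideal.span {(q : 𝓞 K)}) * χ 𝔣₀) * (-1) ^ (k + 1)) *
                AA v (ρ * q) (pr ψ₀ χ)‖ * ‖Complex.Gammaℝ (1 / 2 + a)‖⁻¹ ^ 2 * ‖RR‖ := by
            linarith
          have h9 := mul_right_cancel₀ hRR0.ne' h8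
          have h10 : tm * ‖Complex.Gammaℝ (1 / 2 + a)‖⁻¹ ^ 2 ≤
              ‖iteratedDeriv k L (1 / 2)‖ * (2 * Real.pi) := by
            rw [h9]
            gcongr
          rw [ht, div_mul_eq_mul_div, div_le_iff₀ (by positivity)]
          exact h10
        rw [hw] at hL
        exact ⟨L, hL, hLo.trans hord, hsz2⟩
    have h3 : T₁.ncard ≤ (Good t 𝔣₀ a ψ₀ q k).ncard + T₂.ncard :=
      (Set.ncard_le_ncard hsub (hGf.union hT₂f)).trans (Set.ncard_union_le _ _)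
    have h4 : (T₁.ncard : ℝ) ≤ ((Good t 𝔣₀ a ψ₀ q k).ncard : ℝ) + (T₂.ncard : ℝ) := by
      exact_mod_cast h3
    have hl0 : 0 < Real.log q := by linarith
    have h5 : CR * (q : ℝ) ^ (9 / 10 : ℝ) ≤ cm / 512 * q / (Real.log q) ^ 8 := by
      have h6 : 512 * CR * 160 ^ 8 / cm ≤ (q : ℝ) ^ (1 / 20 : ℝ) := by
        have h7 : ((512 * CR * 160 ^ 8 / cm) ^ (20 : ℕ)) ^ (1 / 20 : ℝ) ≤ (q : ℝ) ^ (1 / 20 : ℝ) :=
          Real.rpow_le_rpow (by positivity) hqC (by norm_num)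
        have h8 : (((512 * CR * 160 ^ 8 / cm) ^ (20 : ℕ)) ^ (1 / 20 : ℝ) : ℝ) =
            512 * CR * 160 ^ 8 / cm := by
          rw [← Real.rpow_natCast, ← Real.rpow_mul (by positivity)]
          norm_num
        rwa [h8] at h7
      have h7 : (Real.log q) ^ 8 ≤ 160 ^ 8 * (q : ℝ) ^ (1 / 20 : ℝ) := by
        have h8 : Real.log q ≤ 160 * (q : ℝ) ^ (1 / 160 : ℝ) := by
          have h9 := Real.log_le_rpow_div hq0.le (by norm_num : (0 : ℝ) < 1 / 160)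
          calc Real.log q ≤ (q : ℝ) ^ (1 / 160 : ℝ) / (1 / 160) := h9
            _ = 160 * (q : ℝ) ^ (1 / 160 : ℝ) := by ring
        calc (Real.log q) ^ 8 ≤ (160 * (q : ℝ) ^ (1 / 160 : ℝ)) ^ 8 := by gcongr
          _ = 160 ^ 8 * ((q : ℝ) ^ (1 / 160 : ℝ)) ^ 8 := by ring
          _ = 160 ^ 8 * (q : ℝ) ^ (1 / 20 : ℝ) := by
              have e1 : ((q : ℝ) ^ (1 / 160 : ℝ)) ^ 8 = (q : ℝ) ^ (1 / 20 : ℝ) := by
                rw [← Real.rpow_natCast, ← Real.rpow_mul hq0.le]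
                norm_num
              rw [e1]
      rw [div_le_iff₀ hcm0] at h6
      rw [le_div_iff₀ (by positivity)]
      have h8 : (q : ℝ) ^ (1 / 20 : ℝ) * (q : ℝ) ^ (1 / 20 : ℝ) * (q : ℝ) ^ (9 / 10 : ℝ) = q := by
        rw [← Real.rpow_add hq0, ← Real.rpow_add hq0]
        norm_num
      calc CR * (q : ℝ) ^ (9 / 10 : ℝ) * (Real.log q) ^ 8
          ≤ CR * (q : ℝ) ^ (9 / 10 : ℝ) * (160 ^ 8 * (q : ℝ) ^ (1 / 20 : ℝ)) := by gcongr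
        _ = (512 * CR * 160 ^ 8) / 512 * ((q : ℝ) ^ (1 / 20 : ℝ) * (q : ℝ) ^ (9 / 10 : ℝ)) := by ring
        _ ≤ ((q : ℝ) ^ (1 / 20 : ℝ) * cm) / 512 *
            ((q : ℝ) ^ (1 / 20 : ℝ) * (q : ℝ) ^ (9 / 10 : ℝ)) := by gcongr
        _ = cm / 512 * ((q : ℝ) ^ (1 / 20 : ℝ) * (q : ℝ) ^ (1 / 20 : ℝ) * (q : ℝ) ^ (9 / 10 : ℝ)) := by
            ring
        _ = cm / 512 * q := by rw [h8]
    have h6 : 2 * (cm / 512 * q / (Real.log q) ^ 8) ≤ cm * q / (1 + Real.log q) ^ 8 := by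
      have h7 : (1 + Real.log q) ^ 8 ≤ 256 * (Real.log q) ^ 8 := by
        calc (1 + Real.log q) ^ 8 ≤ (2 * Real.log q) ^ 8 := by
              gcongr
              linarith
          _ = 256 * (Real.log q) ^ 8 := by ring
      calc 2 * (cm / 512 * q / (Real.log q) ^ 8) = cm * q / (256 * (Real.log q) ^ 8) := by
            field_simp
            norm_num
        _ ≤ cm * q / (1 + Real.log q) ^ 8 := by gcongr
    linarith
  have hnormu : ∀ k : ℕ, ‖(-1 : ℂ) ^ k * C₀ * ψ₀ (Ideal.span {(q : 𝓞 K)})‖ ≤ ‖C₀‖ := by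
    intro k
    rw [norm_mul, norm_mul, norm_pow, norm_neg, norm_one, one_pow, one_mul]
    exact mul_le_of_le_one_right (norm_nonneg _) (hψ _)
  have hu1 : ∀ (k : ℕ) (z : ℂ), 1 + ((-1 : ℂ) ^ k * C₀ * ψ₀ (Ideal.span {(q : 𝓞 K)})) * z =
      1 - (C₀ * ψ₀ (Ideal.span {(q : 𝓞 K)}) * z) * (-1) ^ (k + 1) := by
    intro k z
    rw [pow_succ]
    ring
  have hden : 0 < (1 + Real.log q) ^ 8 := by positivity
  have hc0 : IsU S n q → ∀ u : ℂ, ‖u‖ ≤ ‖C₀‖ → (u = 0 ∨ ¬ Rat 𝔣₀) →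
      cm * q / (1 + Real.log q) ^ 8 ≤
        ({χ | χ ∈ PP K q ∧ t0 ≤ ‖(1 + u * χ 𝔣₀) * AA v0 (ρ * q) (pr ψ₀ χ)‖}.ncard : ℝ) := by
    intro _ u hu hur
    refine le_trans ?_ (hcount0 n q g1 hq u hu hur)
    have : cm ≤ ca := min_le_left _ _
    gcongr
  have hc1 : IsU S n q → ∀ u : ℂ, ‖u‖ ≤ ‖C₀‖ → (u = 0 ∨ ¬ Rat 𝔣₀) →
      cm * q / (1 + Real.log q) ^ 8 ≤
        ({χ | χ ∈ PP K q ∧ t1 ≤ ‖(1 + u * χ 𝔣₀) * AA v1 (ρ * q) (pr ψ₀ χ)‖}.ncard : ℝ) := by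
    intro _ u hu hur
    refine le_trans ?_ (hcount1 n q g2 hq u hu hur)
    have : cm ≤ cb := min_le_right _ _
    gcongr
  refine ⟨?_, ?_, ?_⟩
  · intro hr k hk
    have hh : ∀ (v : ℝ → ℝ) (t' : ℝ), tm ≤ t' → Wt v → (∀ y : ℝ, 0 < y → vc a k y = v y) →
        (cm * q / (1 + Real.log q) ^ 8 ≤ ({χ | χ ∈ PP K q ∧ t' ≤ ‖(1 + ((-1 : ℂ) ^ k * C₀ *
          ψ₀ (Ideal.span {(q : 𝓞 K)})) * χ 𝔣₀) * AA v (ρ * q) (pr ψ₀ χ)‖}.ncard : ℝ)) →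
        cm / 512 * q / (Real.log q) ^ 8 ≤ ((Good t 𝔣₀ a ψ₀ q k).ncard : ℝ) := by
      intro v t' htt hv hvc hcnt
      refine key k v _ t' htt hk hv hvc ?_ (Or.inr (hu1 k)) hcnt
      intro χ _ hne
      rw [← hu1]
      exact left_ne_zero_of_mul hne
    interval_cases k
    · exact hh v0 t0 (min_le_left _ _) hv0 hvc0 (hc0 hq _ (hnormu 0) (Or.inr hr))
    · exact hh v1 t1 (min_le_right _ _) hv1 hvc1 (hc1 hq _ (hnormu 1) (Or.inr hr))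
  · by_cases hr : Rat 𝔣₀
    · -- `χ(𝔣₀) = 1` for all `χ`
      have hχ1 : ∀ χ ∈ PP K q, χ 𝔣₀ = 1 := by
        intro χ hχ
        obtain ⟨f, hf0, hf⟩ := hr
        have h3 : Cop q 𝔣₀ := cop_of_norm hcof
        rw [hf] at h3 ⊢
        exact hχ.one _ ⟨f, by simp⟩ h3
      by_cases hw : 1 + C₀ * ψ₀ (Ideal.span {(q : 𝓞 K)}) = 0
      · refine ⟨1, le_rfl, ?_⟩
        refine key 1 v1 0 t1 (min_le_right _ _) le_rfl hv1 hvc1 ?_ (Or.inl rfl)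
          (hc1 hq 0 (by rw [norm_zero]; exact norm_nonneg _) (Or.inl rfl))
        intro χ hχ _
        rw [hχ1 χ hχ]
        intro h3
        have h4 : (2 : ℂ) = 0 := by linear_combination h3 + hw
        norm_num at h4
      · refine ⟨0, by norm_num, ?_⟩
        refine key 0 v0 0 t0 (min_le_left _ _) (by norm_num) hv0 hvc0 ?_ (Or.inl rfl)
          (hc0 hq 0 (by rw [norm_zero]; exact norm_nonneg _) (Or.inl rfl))
        intro χ hχ _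
        rw [hχ1 χ hχ]
        intro h3
        exact hw (by linear_combination h3)
    · refine ⟨0, by norm_num, ?_⟩
      refine key 0 v0 _ t0 (min_le_left _ _) (by norm_num) hv0 hvc0 ?_ (Or.inr (hu1 0))
        (hc0 hq _ (hnormu 0) (Or.inr hr))
      intro χ _ hne
      rw [← hu1]
      exact left_ne_zero_of_mul hne
  · intro htop ha0
    refine key 0 v0 0 t0 (min_le_left _ _) (by norm_num) hv0 hvc0 ?_ (Or.inl rfl)
      (hc0 hq 0 (by rw [norm_zero]; exact norm_nonneg _) (Or.inl rfl))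
    intro χ hχ _
    rw [hC₀ htop ha0]
    have h3 : χ 𝔣₀ = 1 := by
      rw [htop, ← Ideal.one_eq_top, map_one]
    have h4 : ψ₀ (Ideal.span {(q : 𝓞 K)}) = 1 := by
      have h5 := hB.sig (q : 𝓞 K) (by exact_mod_cast (by omega : q ≠ 0)) (by
        rw [htop]; trivial)
      have h6 : ((q : 𝓞 K) : K) = (q : K) := by simp
      rw [h6, Pool.Agent.Y773.sg_natCast (K := K) (fun _ => a) (by omega)] at h5
      exact h5
    rw [h3, h4]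
    norm_num

end Pool.Agent.NH12.RS
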