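import Pool.Agent.NH12.RS.Stm2
import Pool.Agent.NH12.RS.Diag

/-! # Primitive parts of ideals -/

set_option autoImplicit false
set_option linter.unusedSectionVars false

open NumberField Complex

namespace Pool.Agent.NH12.RS

variable {K : Type} [Field K] [NumberField K]

private lemma span_nat_ne {n : ℕ} (hn : 0 < n) : Ideal.span {(n : 𝓞 K)} ≠ ⊥ := by
  rw [Ne, Ideal.span_singleton_eq_bot]
  exact_mod_cast hn.ne'

private lemma span_mul_nat' (m n : ℕ) : Ideal.span {((m * n : ℕ) : 𝓞 K)} =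
    Ideal.span {(m : 𝓞 K)} * Ideal.span {(n : 𝓞 K)} := by
  rw [Ideal.span_singleton_mul_span_singleton]
  push_cast
  rfl

/-- the primitive part -/
private lemma exists_prm : ∀ (N : ℕ) (𝔞 : Ideal (𝓞 K)), 𝔞 ≠ ⊥ → Ideal.absNorm 𝔞 = N →
    ∃ (c : ℕ) (𝔞' : Ideal (𝓞 K)), 0 < c ∧ Prm 𝔞' ∧ 𝔞 = Ideal.span {(c : 𝓞 K)} * 𝔞' := by
  intro N
  induction N using Nat.strong_induction_on with
  | _ N ih =>
    intro 𝔞 ha hN
    by_cases hp : Prm 𝔞
    · refine ⟨1, 𝔞, one_pos, hp, ?_⟩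
      rw [Nat.cast_one, Ideal.span_singleton_one, Ideal.top_mul]
    · have h1 : ∃ m : ℕ, 0 < m ∧ Ideal.span {(m : 𝓞 K)} ∣ 𝔞 ∧ m ≠ 1 := by
        by_contra hcon
        push Not at hcon
        exact hp ⟨ha, hcon⟩
      obtain ⟨m, hm0, ⟨𝔟, hb⟩, hm1⟩ := h1
      have hb0 : 𝔟 ≠ ⊥ := by
        intro h
        rw [h, Ideal.mul_bot] at hb
        exact ha hb
      have hNb : 0 < Ideal.absNorm 𝔟 :=
        Nat.pos_of_ne_zero fun h => hb0 (Ideal.absNorm_eq_zero_iff.mp h)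
      have hlt : Ideal.absNorm 𝔟 < N := by
        rw [← hN, hb, map_mul, absNorm_nat]
        have h2 : 1 < m ^ Module.finrank ℤ (𝓞 K) :=
          Nat.one_lt_pow (rank_pos (K := K)).ne' (by omega)
        nlinarith
      obtain ⟨c, 𝔞', hc0, hpa, hca⟩ := ih _ hlt 𝔟 hb0 rfl
      refine ⟨m * c, 𝔞', Nat.mul_pos hm0 hc0, hpa, ?_⟩
      rw [span_mul_nat', mul_assoc, ← hca]
      exact hb

private lemma coprime_of_cop {q n : ℕ} (h : Cop q (Ideal.span {(n : 𝓞 K)})) :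
    Nat.Coprime n q := by
  by_contra hn
  obtain ⟨p, hp, ⟨n', hn'⟩, ⟨q', hq'⟩⟩ := Nat.Prime.not_coprime_iff_dvd.mp hn
  unfold Cop at h
  rw [Ideal.isCoprime_iff_exists] at h
  obtain ⟨x, hx, y, hy, hxy⟩ := h
  obtain ⟨z, rfl⟩ := Ideal.mem_span_singleton'.mp hx
  obtain ⟨w, rfl⟩ := Ideal.mem_span_singleton'.mp hy
  have h1 : (1 : 𝓞 K) ∈ Ideal.span {(p : 𝓞 K)} := by
    rw [Ideal.mem_span_singleton']
    refine ⟨z * n' + w * q', ?_⟩
    rw [← hxy, hn', hq']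
    push_cast
    ring
  have h2 : Ideal.span {(p : 𝓞 K)} = ⊤ := (Ideal.eq_top_iff_one _).mpr h1
  have h3 := congrArg Ideal.absNorm h2
  rw [absNorm_nat, Ideal.absNorm_top] at h3
  have h4 : 1 < p ^ Module.finrank ℤ (𝓞 K) :=
    Nat.one_lt_pow (rank_pos (K := K)).ne' hp.one_lt
  omega

theorem t_prm (hc : S_conj) : S_prm := by
  intro K _ _ S
  obtain ⟨hmul, hcc, hN, hsp, hnorm⟩ := hc K S
  refine ⟨fun 𝔞 ha => exists_prm _ 𝔞 ha rfl, ?_, ?_⟩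
  · rintro q 𝔞 𝔟 ⟨x, ⟨a, z, hz⟩, hx⟩
    refine ⟨S.σ x, ⟨a, S.σ z, ?_⟩, ?_⟩
    · have h1 := congrArg S.σ hz
      rw [map_sub, map_mul, map_intCast, map_natCast] at h1
      exact h1
    · have h1 := congrArg S.cj hx
      rw [hmul, hcc, hsp] at h1
      rw [mul_comm]
      exact h1
  · rintro q c d 𝔞 𝔟 hq hc0 hd0 hcop ⟨x, ⟨a, z, hz⟩, hx⟩
    have h1 : Ideal.span {(c : 𝓞 K)} * 𝔞 * S.cj (Ideal.span {(d : 𝓞 K)} * 𝔟) =
        Ideal.span {((c * d : ℕ) : 𝓞 K)} * (𝔞 * S.cj 𝔟) := by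
      rw [hmul, hsp, map_natCast, span_mul_nat']
      ring
    rw [h1] at hcop hx
    have hcd : Nat.Coprime (c * d) q := by
      apply coprime_of_cop (K := K)
      unfold Cop at hcop ⊢
      exact IsCoprime.of_mul_left_left hcop
    have hle : Ideal.span {x} ≤ Ideal.span {((c * d : ℕ) : 𝓞 K)} := by
      rw [← hx]
      exact Ideal.mul_le_left (I := Ideal.span {((c * d : ℕ) : 𝓞 K)}) (J := 𝔞 * S.cj 𝔟)
    rw [Ideal.span_singleton_le_span_singleton] at hle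
    obtain ⟨y, hy⟩ := hle
    have h2 : 𝔞 * S.cj 𝔟 = Ideal.span {y} := by
      rw [hy, ← Ideal.span_singleton_mul_span_singleton] at hx
      exact mul_left_cancel₀ (span_nat_ne (K := K) (Nat.mul_pos hc0 hd0)) hx
    refine ⟨y, ?_, h2⟩
    obtain ⟨e, f, hef⟩ := Nat.isCoprime_iff_coprime.mpr hcd
    have hef' : ((e * ((c * d : ℕ) : ℤ) + f * (q : ℤ) : ℤ) : 𝓞 K) = ((1 : ℤ) : 𝓞 K) := by
      rw [hef]
    push_cast at hef'
    push_cast at hy
    refine ⟨e * a, e * z + f * y, ?_⟩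
    push_cast
    rw [hy] at hz
    linear_combination (-y) * hef' + (e : 𝓞 K) * hz

end Pool.Agent.NH12.RS
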