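import Mathlib
import Pool.Agent.NH12.RS.Stm2

/-!
# Project RS, second part: sums of inverse norms and of weights
-/

set_option autoImplicit false
set_option linter.unusedSectionVars false

open NumberField Complex Finset

namespace Pool.Agent.NH12.RS

namespace SumL

lemma one_le_norm {K : Type} [Field K] [NumberField K] {𝔞 : Ideal (𝓞 K)} (h : 𝔞 ≠ ⊥) :
    1 ≤ Ideal.absNorm 𝔞 := by
  have : Ideal.absNorm 𝔞 ≠ 0 := fun h1 => h (Ideal.absNorm_eq_zero_iff.mp h1)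
  exact Nat.one_le_iff_ne_zero.mpr this

lemma v_bd {v : ℝ → ℝ} (hv : Wt v) (A : ℕ) {y₀ : ℝ} (hy : 0 < y₀) :
    ∃ C : ℝ, 0 < C ∧ ∀ y, y₀ ≤ y → v y * y ^ A ≤ C := by
  obtain ⟨C, hC⟩ := hv.decay A
  refine ⟨|C| + v y₀, by have := hv.pos y₀ hy; positivity, fun y h => ?_⟩
  have hy0 : 0 < y := by linarith
  have h0 := hv.pos y₀ hy
  rcases le_or_gt 1 y with h1 | h1
  · have := hC y h1
    have := le_abs_self C
    linarith
  · have h2 : y ^ A ≤ 1 := pow_le_one₀ hy0.le h1.le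
    have h3 := hv.anti y₀ y hy h
    have h4 := hv.pos y hy0
    have h5 : v y * y ^ A ≤ v y * 1 := by gcongr
    have := abs_nonneg C
    linarith

lemma v_le {v : ℝ → ℝ} (hv : Wt v) {ρ : ℝ} (hρ : 0 < ρ) : ∃ C : ℝ, 0 < C ∧ ∀ q : ℝ, 2 ≤ q →
    ∀ N : ℝ, 1 ≤ N → v (N / (ρ * q)) ≤ C * (1 + Real.log q) := by
  obtain ⟨C, hC⟩ := hv.small
  have h1 := hv.pos 1 one_pos
  refine ⟨|C| * (1 + |Real.log ρ|) + v 1, by positivity, fun q hq N hN => ?_⟩
  have hq0 : 0 < q := by linarith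
  have hN0 : 0 < N := by linarith
  have hlog : 0 ≤ Real.log q := Real.log_nonneg (by linarith)
  set y : ℝ := N / (ρ * q) with hy
  have hy0 : 0 < y := by positivity
  rcases le_or_gt y 1 with h2 | h2
  · have h3 := hC y hy0 h2
    have h4 : |Real.log y| ≤ |Real.log ρ| + Real.log q := by
      have h5 : Real.log y ≤ 0 := Real.log_nonpos hy0.le h2
      rw [abs_of_nonpos h5, hy, Real.log_div (by positivity) (by positivity),
        Real.log_mul hρ.ne' hq0.ne']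
      have := Real.log_nonneg hN
      have := le_abs_self (Real.log ρ)
      linarith
    have h5 : C * (1 + |Real.log y|) ≤ |C| * (1 + (|Real.log ρ| + Real.log q)) := by
      have := le_abs_self C
      have h6 : 0 ≤ |Real.log y| := abs_nonneg _
      nlinarith [abs_nonneg C]
    have h6 : |C| * (1 + (|Real.log ρ| + Real.log q)) ≤
        (|C| * (1 + |Real.log ρ|) + v 1) * (1 + Real.log q) := by
      have h7 := abs_nonneg C
      have h8 := abs_nonneg (Real.log ρ)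
      nlinarith [mul_nonneg (mul_nonneg h7 h8) hlog, mul_nonneg h1.le hlog]
    linarith
  · have h3 := hv.anti 1 y one_pos h2.le
    have h7 := abs_nonneg C
    have h8 := abs_nonneg (Real.log ρ)
    have h9 : v 1 ≤ (|C| * (1 + |Real.log ρ|) + v 1) * (1 + Real.log q) := by
      have : 0 ≤ |C| * (1 + |Real.log ρ|) := by positivity
      nlinarith [mul_nonneg this hlog, mul_nonneg h1.le hlog]
    linarith

/-- a dyadic decomposition -/
lemma inv_sum {ι : Type} (T : Finset ι) (f : ι → ℕ) (h1 : ∀ t ∈ T, 1 ≤ f t) {M B : ℝ}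
    (_ : 0 ≤ B) (hT : ∀ t ∈ T, (f t : ℝ) ≤ M)
    (hc : ∀ Y : ℝ, 1 ≤ Y → ((T.filter fun t => (f t : ℝ) ≤ Y).card : ℝ) ≤ B * Y) :
    ∑ t ∈ T, ((f t : ℝ))⁻¹ ≤ ((Nat.log 2 ⌊M⌋₊ : ℝ) + 1) * (2 * B) := by
  classical
  set Kk := Nat.log 2 ⌊M⌋₊ with hK
  have hmap : ∀ t ∈ T, Nat.log 2 (f t) ∈ Finset.range (Kk + 1) := by
    intro t ht
    rw [Finset.mem_range]
    have : f t ≤ ⌊M⌋₊ := Nat.le_floor (hT t ht)
    exact Nat.lt_succ_of_le (Nat.log_mono_right this)
  rw [← Finset.sum_fiberwise_of_maps_to hmap]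
  have hk : ∀ k ∈ Finset.range (Kk + 1), ∑ t ∈ T with Nat.log 2 (f t) = k,
      ((f t : ℝ))⁻¹ ≤ 2 * B := by
    intro k _
    have hx0 : (0 : ℝ) < 2 ^ k := by positivity
    set x : ℝ := 2 ^ k with hx
    have h4 : ∑ t ∈ T with Nat.log 2 (f t) = k, ((f t : ℝ))⁻¹ ≤
        ∑ t ∈ T with Nat.log 2 (f t) = k, x⁻¹ := by
      refine Finset.sum_le_sum fun t ht => ?_
      rw [Finset.mem_filter] at ht
      have h3 : 2 ^ k ≤ f t := by
        rw [← ht.2]
        exact Nat.pow_log_le_self 2 (by have := h1 t ht.1; omega)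
      have h5 : x ≤ (f t : ℝ) := by
        calc x = ((2 ^ k : ℕ) : ℝ) := by rw [hx]; push_cast; rfl
          _ ≤ (f t : ℝ) := by exact_mod_cast h3
      exact inv_anti₀ hx0 h5
    refine h4.trans ?_
    rw [Finset.sum_const, nsmul_eq_mul]
    have h6 : ((T.filter fun t => Nat.log 2 (f t) = k).card : ℝ) ≤ B * (2 * x) := by
      have hx1 : 1 ≤ 2 * x := by
        have : (1 : ℝ) ≤ x := one_le_pow₀ (by norm_num)
        linarith
      refine le_trans ?_ (hc (2 * x) hx1)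
      have hsub : (T.filter fun t => Nat.log 2 (f t) = k) ⊆
          T.filter fun t => (f t : ℝ) ≤ 2 * x := by
        intro t ht
        rw [Finset.mem_filter] at ht ⊢
        refine ⟨ht.1, ?_⟩
        have h3 : f t < 2 ^ (k + 1) := by
          rw [← ht.2]
          exact Nat.lt_pow_succ_log_self (by norm_num) _
        have h5 : (f t : ℝ) < ((2 ^ (k + 1) : ℕ) : ℝ) := by exact_mod_cast h3
        rw [hx]
        push_cast at h5
        rw [pow_succ] at h5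
        linarith
      exact_mod_cast Finset.card_le_card hsub
    rw [← div_eq_mul_inv, div_le_iff₀ hx0]
    linarith
  refine (Finset.sum_le_sum hk).trans ?_
  rw [Finset.sum_const, Finset.card_range, nsmul_eq_mul]
  push_cast
  exact le_rfl

lemma log_bd {M : ℝ} (hM : 1 ≤ M) : (Nat.log 2 ⌊M⌋₊ : ℝ) ≤ 2 * Real.log M := by
  have h1 : ⌊M⌋₊ ≠ 0 := by
    have := Nat.le_floor (α := ℝ) (n := 1) (a := M) (by exact_mod_cast hM)
    omega
  have h2 : ((2 ^ Nat.log 2 ⌊M⌋₊ : ℕ) : ℝ) ≤ M := by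
    refine le_trans ?_ (Nat.floor_le (by linarith : (0 : ℝ) ≤ M))
    exact_mod_cast Nat.pow_log_le_self 2 h1
  have h3 : Real.log ((2 ^ Nat.log 2 ⌊M⌋₊ : ℕ) : ℝ) ≤ Real.log M :=
    Real.log_le_log (by positivity) h2
  push_cast at h3
  rw [Real.log_pow] at h3
  have h4 := Real.log_two_gt_d9
  have h5 : (0 : ℝ) ≤ (Nat.log 2 ⌊M⌋₊ : ℝ) := Nat.cast_nonneg _
  nlinarith

lemma tail_sum {ι : Type} (T : Finset ι) (f : ι → ℝ) {q M B : ℝ} (hq : 1 ≤ q) (hB : 0 ≤ B)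
    (hqM : q ≤ M) (hT : ∀ t ∈ T, q < f t ∧ f t ≤ M)
    (hc : ∀ Y : ℝ, 1 ≤ Y → Y ≤ M → ((T.filter fun t => f t ≤ Y).card : ℝ) ≤ B * (1 + Y / q)) :
    ∑ t ∈ T, (q / f t) ^ 2 ≤ 8 * B := by
  classical
  have hq0 : 0 < q := by linarith
  set Kk := Nat.log 2 ⌊M / q⌋₊ with hK
  have hmap : ∀ t ∈ T, Nat.log 2 ⌊f t / q⌋₊ ∈ Finset.range (Kk + 1) := by
    intro t ht
    rw [Finset.mem_range]
    refine Nat.lt_succ_of_le (Nat.log_mono_right (Nat.floor_le_floor ?_))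
    have := (hT t ht).2
    gcongr
  rw [← Finset.sum_fiberwise_of_maps_to hmap]
  have hk : ∀ k ∈ Finset.range (Kk + 1), ∑ t ∈ T with Nat.log 2 ⌊f t / q⌋₊ = k,
      (q / f t) ^ 2 ≤ 4 * B * (1 / 2) ^ k := by
    intro k _
    have hx0 : (0 : ℝ) < 2 ^ k := by positivity
    have hx1 : (1 : ℝ) ≤ 2 ^ k := one_le_pow₀ (by norm_num)
    have hmem : ∀ t ∈ T.filter fun t => Nat.log 2 ⌊f t / q⌋₊ = k,
        (2 : ℝ) ^ k * q ≤ f t ∧ f t ≤ 2 ^ (k + 1) * q := by
      intro t ht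
      rw [Finset.mem_filter] at ht
      have h0 := (hT t ht.1).1
      have h1 : 1 ≤ f t / q := by
        rw [le_div_iff₀ hq0]
        linarith
      have h2 : ⌊f t / q⌋₊ ≠ 0 := by
        have := Nat.le_floor (α := ℝ) (n := 1) (a := f t / q) (by exact_mod_cast h1)
        omega
      have h3 : 2 ^ k ≤ ⌊f t / q⌋₊ := by
        rw [← ht.2]
        exact Nat.pow_log_le_self 2 h2
      have h4 : ⌊f t / q⌋₊ < 2 ^ (k + 1) := by
        rw [← ht.2]
        exact Nat.lt_pow_succ_log_self (by norm_num) _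
      have h5 : ((2 ^ k : ℕ) : ℝ) ≤ f t / q :=
        le_trans (by exact_mod_cast h3) (Nat.floor_le (by positivity))
      have h6 : f t / q < ((2 ^ (k + 1) : ℕ) : ℝ) := (Nat.floor_lt (by positivity)).1 h4
      push_cast at h5 h6
      rw [le_div_iff₀ hq0] at h5
      rw [div_lt_iff₀ hq0] at h6
      exact ⟨h5, h6.le⟩
    have h4 : ∑ t ∈ T with Nat.log 2 ⌊f t / q⌋₊ = k, (q / f t) ^ 2 ≤
        ∑ t ∈ T with Nat.log 2 ⌊f t / q⌋₊ = k, ((2 : ℝ) ^ k)⁻¹ ^ 2 := by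
      refine Finset.sum_le_sum fun t ht => ?_
      have h5 := (hmem t ht).1
      have h6 : 0 < f t := by
        have : 0 < (2 : ℝ) ^ k * q := by positivity
        linarith
      have h7 : q / f t ≤ ((2 : ℝ) ^ k)⁻¹ := by
        rw [div_le_iff₀ h6, inv_mul_eq_div, le_div_iff₀ hx0]
        linarith
      have h8 : 0 ≤ q / f t := by positivity
      gcongr
    refine h4.trans ?_
    rw [Finset.sum_const, nsmul_eq_mul]
    have h6 : ((T.filter fun t => Nat.log 2 ⌊f t / q⌋₊ = k).card : ℝ) ≤ B * (4 * 2 ^ k) := by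
      set Y : ℝ := min (2 ^ (k + 1) * q) M with hY
      have hY1 : 1 ≤ Y := by
        rw [hY, le_min_iff]
        refine ⟨?_, by linarith⟩
        have : (1 : ℝ) ≤ 2 ^ (k + 1) := one_le_pow₀ (by norm_num)
        nlinarith
      have h7 := hc Y hY1 (min_le_right _ _)
      have h8 : Y / q ≤ 2 ^ (k + 1) := by
        rw [div_le_iff₀ hq0]
        exact min_le_left _ _
      have hsub : (T.filter fun t => Nat.log 2 ⌊f t / q⌋₊ = k) ⊆
          T.filter fun t => f t ≤ Y := by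
        intro t ht
        have h9 := (hmem t ht).2
        rw [Finset.mem_filter] at ht ⊢
        exact ⟨ht.1, le_min h9 (hT t ht.1).2⟩
      have h9 : ((T.filter fun t => Nat.log 2 ⌊f t / q⌋₊ = k).card : ℝ) ≤
          ((T.filter fun t => f t ≤ Y).card : ℝ) := by exact_mod_cast Finset.card_le_card hsub
      refine h9.trans (h7.trans ?_)
      refine mul_le_mul_of_nonneg_left ?_ hB
      rw [pow_succ] at h8
      linarith
    calc ((T.filter fun t => Nat.log 2 ⌊f t / q⌋₊ = k).card : ℝ) * ((2 : ℝ) ^ k)⁻¹ ^ 2 ≤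
          B * (4 * 2 ^ k) * ((2 : ℝ) ^ k)⁻¹ ^ 2 := by gcongr
      _ = 4 * B * (1 / 2) ^ k := by
          have h10 : (1 / 2 : ℝ) ^ k = ((2 : ℝ) ^ k)⁻¹ := by rw [one_div, inv_pow]
          rw [h10]
          field_simp
  refine (Finset.sum_le_sum hk).trans ?_
  rw [← Finset.mul_sum]
  have h1 := sum_geometric_two_le (Kk + 1)
  nlinarith

end SumL

open SumL in
theorem t_sum (hd : S_div) : S_sum := by
  classical
  intro K _ _ h2
  obtain ⟨⟨B, hB, hdiv⟩, -⟩ := hd K h2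
  refine ⟨⟨4 * B, by positivity, fun M T hM hT => ?_⟩, fun v hv ρ hρ => ?_⟩
  · have h1 := inv_sum T (fun 𝔞 => Ideal.absNorm 𝔞) (fun 𝔞 h𝔞 => one_le_norm (hT 𝔞 h𝔞).1)
      hB.le (fun 𝔞 h𝔞 => (hT 𝔞 h𝔞).2) (fun Y hY => by
        obtain ⟨hfin, hcard⟩ := hdiv Y hY
        refine le_trans ?_ hcard
        rw [Set.ncard_eq_toFinset_card _ hfin]
        have hsub : (T.filter fun 𝔞 => (Ideal.absNorm 𝔞 : ℝ) ≤ Y) ⊆ hfin.toFinset := by
          intro 𝔞 h𝔞
          rw [Finset.mem_filter] at h𝔞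
          rw [Set.Finite.mem_toFinset]
          exact ⟨(hT 𝔞 h𝔞.1).1, h𝔞.2⟩
        exact_mod_cast Finset.card_le_card hsub)
    have h3 := log_bd hM
    refine h1.trans ?_
    nlinarith
  · obtain ⟨C₁, hC₁, h1⟩ := v_le hv hρ
    obtain ⟨C₂, hC₂, h3⟩ := v_bd hv 2 (y₀ := 1 / ρ) (by positivity)
    refine ⟨2 * C₁ + 8 * (C₂ * ρ ^ 2), by positivity, fun q M hq hqM _ => ⟨?_, ?_⟩⟩
    · intro 𝔞 h𝔞
      have h4 : (1 : ℝ) ≤ (Ideal.absNorm 𝔞 : ℝ) := by exact_mod_cast one_le_norm h𝔞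
      have hlog : 0 ≤ Real.log q := Real.log_nonneg (by linarith)
      refine (h1 q hq _ h4).trans ?_
      refine mul_le_mul_of_nonneg_right ?_ (by linarith)
      have : 0 < C₂ * ρ ^ 2 := by positivity
      linarith
    · intro T B' hB' hT hc
      have hq0 : 0 < q := by linarith
      have hlog : 0 ≤ Real.log q := Real.log_nonneg (by linarith)
      rw [← Finset.sum_filter_add_sum_filter_not T fun 𝔞 => (Ideal.absNorm 𝔞 : ℝ) ≤ q]
      have h4 : ∑ 𝔞 ∈ T with (Ideal.absNorm 𝔞 : ℝ) ≤ q, v ((Ideal.absNorm 𝔞 : ℝ) / (ρ * q)) ≤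
          2 * B' * (C₁ * (1 + Real.log q)) := by
        have h5 : ∑ 𝔞 ∈ T with (Ideal.absNorm 𝔞 : ℝ) ≤ q, v ((Ideal.absNorm 𝔞 : ℝ) / (ρ * q)) ≤
            ∑ 𝔞 ∈ T with (Ideal.absNorm 𝔞 : ℝ) ≤ q, C₁ * (1 + Real.log q) := by
          refine Finset.sum_le_sum fun 𝔞 h𝔞 => ?_
          rw [Finset.mem_filter] at h𝔞
          exact h1 q hq _ (by exact_mod_cast one_le_norm (hT 𝔞 h𝔞.1).1)
        refine h5.trans ?_
        rw [Finset.sum_const, nsmul_eq_mul]
        have h6 := hc q (by linarith) hqM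
        rw [div_self hq0.ne'] at h6
        have h7 : 0 ≤ C₁ * (1 + Real.log q) := by positivity
        refine mul_le_mul_of_nonneg_right ?_ h7
        linarith
      have h5 : ∑ 𝔞 ∈ T with ¬ (Ideal.absNorm 𝔞 : ℝ) ≤ q, v ((Ideal.absNorm 𝔞 : ℝ) / (ρ * q)) ≤
          C₂ * ρ ^ 2 * (8 * B') := by
        have h6 := tail_sum (T.filter fun 𝔞 => ¬ (Ideal.absNorm 𝔞 : ℝ) ≤ q)
          (fun 𝔞 => (Ideal.absNorm 𝔞 : ℝ)) (q := q) (M := M) (B := B') (by linarith) hB' hqM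
          (fun 𝔞 h𝔞 => by
            rw [Finset.mem_filter] at h𝔞
            exact ⟨not_le.1 h𝔞.2, (hT 𝔞 h𝔞.1).2⟩)
          (fun Y hY hYM => by
            refine le_trans ?_ (hc Y hY hYM)
            have hsub : ((T.filter fun 𝔞 => ¬ (Ideal.absNorm 𝔞 : ℝ) ≤ q).filter fun 𝔞 =>
                (Ideal.absNorm 𝔞 : ℝ) ≤ Y) ⊆ T.filter fun 𝔞 => (Ideal.absNorm 𝔞 : ℝ) ≤ Y := by
              intro 𝔞 h𝔞
              rw [Finset.mem_filter, Finset.mem_filter] at h𝔞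
              rw [Finset.mem_filter]
              exact ⟨h𝔞.1.1, h𝔞.2⟩
            exact_mod_cast Finset.card_le_card hsub)
        refine le_trans ?_ (mul_le_mul_of_nonneg_left h6 (by positivity : 0 ≤ C₂ * ρ ^ 2))
        rw [Finset.mul_sum]
        refine Finset.sum_le_sum fun 𝔞 h𝔞 => ?_
        rw [Finset.mem_filter, not_le] at h𝔞
        have hN0 : (0 : ℝ) < (Ideal.absNorm 𝔞 : ℝ) := by linarith [h𝔞.2]
        have h7 := h3 ((Ideal.absNorm 𝔞 : ℝ) / (ρ * q)) (by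
          rw [div_le_div_iff₀ hρ (by positivity)]
          nlinarith [h𝔞.2])
        have h8 : (0 : ℝ) < ((Ideal.absNorm 𝔞 : ℝ) / (ρ * q)) ^ 2 := by positivity
        rw [← le_div_iff₀ h8] at h7
        refine h7.trans (le_of_eq ?_)
        field_simp
      have h6 : 0 ≤ C₂ * ρ ^ 2 * (8 * B') * Real.log q := by positivity
      nlinarith

end Pool.Agent.NH12.RS
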