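import Pool.Agent.NH12.RS.Fin5
import Pool.Agent.NH12.RS.Fin6
import Pool.Agent.NH12.RS.Third
import Pool.Agent.NH12.RS.Box
import Pool.Agent.NH12.RS.Prm
import Pool.Agent.NH12.RS.Sum
import Pool.Agent.NH12.RS.Cls

/-! # Assembly of the second part -/

set_option autoImplicit false
set_option linter.unusedSectionVars false

open NumberField Complex Finset

namespace Pool.Agent.NH12.RS

theorem a_prm : S_prm := t_prm a_conj
theorem a_cls : S_cls := t_cls t_box a_seq a_conj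
theorem a_sum : S_sum := t_sum t_div
theorem a_second2 : S_second2 := t_second2 a_conj a_seq2 a_orth a_cardU a_prm a_cls a_sum

variable {K : Type} [Field K] [NumberField K]

theorem main_rs2 [IsTotallyReal K] (S : RQ K) (h2 : Module.finrank ℚ K = 2) {𝔣₀ : Ideal (𝓞 K)} {a : ℕ}
    {ψ₀ : Ideal (𝓞 K) →*₀ ℂ} (hB : Base S 𝔣₀ a ψ₀) : ∃ (t c₀ : ℝ) (n₀ : ℕ), 0 < t ∧ 0 < c₀ ∧
      ∀ n q : ℕ, n₀ ≤ n → IsU S n q →
        (¬ Rat 𝔣₀ → ∀ k : ℕ, k ≤ 1 → c₀ * q / (Real.log q) ^ 8 ≤ ((Good t 𝔣₀ a ψ₀ q k).ncard : ℝ)) ∧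
        (∃ k : ℕ, k ≤ 1 ∧ c₀ * q / (Real.log q) ^ 8 ≤ ((Good t 𝔣₀ a ψ₀ q k).ncard : ℝ)) ∧
        (𝔣₀ = ⊤ → a = 0 → c₀ * q / (Real.log q) ^ 8 ≤ ((Good t 𝔣₀ a ψ₀ q 0).ncard : ℝ)) :=
  main_thm2 S h2 a_conj a_seq a_seq2 t_main a_diag a_inv a_first a_second2 a_cardL a_orth a_real
    a_root t_wt t_afe hB

end Pool.Agent.NH12.RS
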