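import Pool.Agent.NH12.RS.Mom

/-! # The first moment -/

set_option autoImplicit false
set_option linter.unusedSectionVars false

open NumberField Complex Finset

namespace Pool.Agent.NH12.RS

lemma log_bd {η : ℝ} (hη : 0 < η) (A : ℝ) : ∃ C : ℝ, 0 < C ∧ ∀ q : ℝ, 2 ≤ q →
    1 + |A| + |A| * Real.log q ≤ C * q ^ η := by
  refine ⟨1 + |A| + |A| / η, by positivity, fun q hq => ?_⟩
  have h1 : Real.log q ≤ q ^ η / η := Real.log_le_rpow_div (by linarith) hη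
  have h2 : (1 : ℝ) ≤ q ^ η := Real.one_le_rpow (by linarith) hη.le
  have h3 : |A| * Real.log q ≤ |A| * (q ^ η / η) := by gcongr
  have h4 : |A| * (q ^ η / η) = |A| / η * q ^ η := by ring
  nlinarith [abs_nonneg A]

variable {K : Type} [Field K] [NumberField K]

lemma rat_pr {𝔞 : Ideal (𝓞 K)} (d : ℕ) (h : Rat 𝔞) : Pr d 𝔞 := by
  obtain ⟨a, -, ha⟩ := h
  exact ⟨a, ⟨a, by simp⟩, ha⟩

/-- the number of ideals `𝔞` with `𝔨 𝔞` in a set -/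
lemma card_mul_le {𝔨 : Ideal (𝓞 K)} (h𝔨 : 𝔨 ≠ ⊥) (T : Finset (Ideal (𝓞 K)))
    {U : Set (Ideal (𝓞 K))} (hU : U.Finite) (h : ∀ 𝔞 ∈ T, 𝔨 * 𝔞 ∈ U) :
    (T.card : ℝ) ≤ (U.ncard : ℝ) := by
  classical
  have h1 : T.card = (T.image fun 𝔞 => 𝔨 * 𝔞).card := by
    rw [Finset.card_image_of_injOn]
    intro x _ y _ hxy
    exact mul_left_cancel₀ h𝔨 hxy
  have h2 : (T.image fun 𝔞 => 𝔨 * 𝔞).card ≤ U.ncard := by
    rw [Set.ncard_eq_toFinset_card U hU]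
    refine Finset.card_le_card fun 𝔠 h𝔠 => ?_
    rw [Finset.mem_image] at h𝔠
    obtain ⟨𝔞, h𝔞, rfl⟩ := h𝔠
    rw [Set.Finite.mem_toFinset]
    exact h 𝔞 h𝔞
  rw [h1]
  exact_mod_cast h2

lemma comb1 {C₁ a S C₃ x U : ℝ} (hC₁ : 0 ≤ C₁) (ha : a ≤ C₃ * x) (ha0 : 0 ≤ a) (hS0 : 0 ≤ S)
    (hS : S ≤ U) : C₁ * a * S ≤ C₁ * (C₃ * x) * U := by
  have h : C₁ * a ≤ C₁ * (C₃ * x) := mul_le_mul_of_nonneg_left ha hC₁
  exact mul_le_mul h hS hS0 (le_trans (mul_nonneg hC₁ ha0) h)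

lemma comb2 {C₁ C₃ C₄ C₅ W x y z d : ℝ} (h1 : 0 ≤ C₁) (h3 : 0 ≤ C₃) (h4 : 0 ≤ C₄) (h5 : 0 ≤ C₅)
    (hW : 0 ≤ W) (hd : 0 < d) (hP : x * (x * x) * y ≤ z) :
    C₁ * (C₃ * x) * ((C₅ * x) * ((C₄ * x) * W * y / d)) ≤ C₁ * C₃ * (C₅ * C₄ * W) * z / d := by
  have h : C₁ * (C₃ * x) * ((C₅ * x) * ((C₄ * x) * W * y / d)) =
      (C₁ * C₃ * (C₅ * C₄ * W)) * (x * (x * x) * y) / d := by ring
  rw [h]
  gcongr

open Classical in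
/-- the off-diagonal terms -/
lemma off_bd (S : RQ K) (hs2 : S_seq2) (hl : S_lat) {v : ℝ → ℝ} (hv : Wt v) {ρ : ℝ} (hρ : 0 < ρ)
    {𝔨 : Ideal (𝓞 K)} (h𝔨 : 𝔨 ≠ ⊥) {η : ℝ} (hη : 0 < η) : ∃ (C : ℝ) (n₀ : ℕ), 0 < C ∧
    ∀ n q : ℕ, n₀ ≤ n → IsU S n q → ∀ d : ℕ, d ∣ q →
      ∑' 𝔞 : Ideal (𝓞 K), (if Pr d (𝔨 * 𝔞) ∧ ¬ Rat (𝔨 * 𝔞) then gg v (ρ * q) 𝔞 else 0) ≤
        C * (q : ℝ) ^ (1 / 2 + η) / d := by
  obtain ⟨CL, nL, hCL, hL⟩ := hl K S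
  obtain ⟨-, -, -, hM, -⟩ := hs2 K S
  obtain ⟨n₂, hn₂⟩ := hM 2
  set η₁ : ℝ := η / 4 with hη₁
  have hη₁0 : 0 < η₁ := by positivity
  obtain ⟨C₁, hC₁, hg⟩ := gg_le (K := K) hv hρ
  obtain ⟨C₂, hC₂, ht⟩ := gg_tail (K := K) hv hρ hη₁0
  set Nk : ℝ := (Ideal.absNorm 𝔨 : ℝ) with hNk
  have hNk1 : 1 ≤ Nk := one_le_norm h𝔨
  set Z : ℝ := ∑' 𝔞 : Ideal (𝓞 K), Pool.Agent.Y772.DK.nr K (3 / 2) 𝔞 with hZ
  have hZ0 : 0 ≤ Z := tsum_nonneg fun 𝔞 => Pool.Agent.Y772.DK.nr_nonneg K _ 𝔞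
  obtain ⟨C₃, hC₃, hlog1⟩ := log_bd (η := η / 12) (by positivity) 1
  obtain ⟨C₄, hC₄, hlog2⟩ := log_bd (η := η / 12) (by positivity) (3 + η₁ + Real.log Nk)
  obtain ⟨C₅, hC₅, hlog3⟩ := log_bd (η := η / 12) (by positivity) (2 * (1 + η₁))
  refine ⟨C₁ * C₃ * (C₅ * C₄ * (CL * (2 * Nk + 2 * Real.sqrt Nk))) + C₂ * Z + 1, max nL n₂,
    by positivity, ?_⟩
  intro n q hn hq d hd
  have hq2 : 2 ≤ q := hn₂ n q (le_trans (le_max_right _ _) hn) hq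
  have hqr : (2 : ℝ) ≤ q := by exact_mod_cast hq2
  have hq0 : (0 : ℝ) < q := by linarith
  have hq1 : (1 : ℝ) ≤ q := by linarith
  have hd0 : 0 < d := Nat.pos_of_dvd_of_pos hd (by omega)
  have hdr : (0 : ℝ) < d := by exact_mod_cast hd0
  have hdq : (d : ℝ) ≤ q := by exact_mod_cast Nat.le_of_dvd (by omega) hd
  have hX0 : 0 < ρ * q := by positivity
  set M : ℝ := (q : ℝ) ^ (1 + η₁) with hMdef
  have hM1 : 1 ≤ M := Real.one_le_rpow hq1 (by positivity)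
  have hfin : {𝔞 : Ideal (𝓞 K) | (Ideal.absNorm 𝔞 : ℝ) ≤ M}.Finite := by
    refine (Ideal.finite_setOf_absNorm_le (S := 𝓞 K) ⌊M⌋₊).subset fun 𝔞 h => ?_
    exact Nat.le_floor h
  set T : Finset (Ideal (𝓞 K)) :=
    hfin.toFinset.filter fun 𝔞 => 𝔞 ≠ ⊥ ∧ Pr d (𝔨 * 𝔞) ∧ ¬ Rat (𝔨 * 𝔞) with hT
  have hTm : ∀ 𝔞, 𝔞 ∈ T ↔ (Ideal.absNorm 𝔞 : ℝ) ≤ M ∧ 𝔞 ≠ ⊥ ∧ Pr d (𝔨 * 𝔞) ∧ ¬ Rat (𝔨 * 𝔞) := by
    intro 𝔞
    rw [hT, Finset.mem_filter, Set.Finite.mem_toFinset, Set.mem_setOf_eq]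
  -- the counting function
  set L : ℝ := 1 + Real.log (q * (Nk * M)) with hLdef
  have hLq : 0 ≤ Real.log (q * (Nk * M)) := Real.log_nonneg (by
    have : 1 ≤ Nk * M := by nlinarith
    nlinarith)
  have hL1 : 0 ≤ L := by linarith
  have hcount : ∀ Y : ℝ, 1 ≤ Y → ((T.filter fun 𝔞 => (Ideal.absNorm 𝔞 : ℝ) ≤ Y).card : ℝ) ≤
      CL * Nk * L / d * Y + CL * Real.sqrt (q * Nk) * L / d * Real.sqrt Y := by
    have key : ∀ Y : ℝ, 1 ≤ Y → Y ≤ M →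
        ((T.filter fun 𝔞 => (Ideal.absNorm 𝔞 : ℝ) ≤ Y).card : ℝ) ≤
        CL * Nk * L / d * Y + CL * Real.sqrt (q * Nk) * L / d * Real.sqrt Y := by
      intro Y hY hYM
      have hNY : 1 ≤ Nk * Y := by nlinarith
      obtain ⟨hf, hb⟩ := hL n q (le_trans (le_max_left _ _) hn) hq d hd (Nk * Y) hNY
      have h1 := card_mul_le h𝔨 (T.filter fun 𝔞 => (Ideal.absNorm 𝔞 : ℝ) ≤ Y) hf (by
        intro 𝔞 h𝔞
        rw [Finset.mem_filter, hTm] at h𝔞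
        refine ⟨mul_ne_zero h𝔨 h𝔞.1.2.1, h𝔞.1.2.2.1, h𝔞.1.2.2.2, ?_⟩
        rw [map_mul]
        push_cast
        exact mul_le_mul_of_nonneg_left h𝔞.2 (by linarith))
      refine h1.trans (hb.trans ?_)
      have h2 : 1 + Real.log (q * (Nk * Y)) ≤ L := by
        rw [hLdef]
        have : Real.log (q * (Nk * Y)) ≤ Real.log (q * (Nk * M)) := by
          apply Real.log_le_log (by positivity)
          gcongr
        linarith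
      have h3 : Real.sqrt (q * (Nk * Y)) = Real.sqrt (q * Nk) * Real.sqrt Y := by
        rw [← Real.sqrt_mul (by positivity)]
        congr 1
        ring
      rw [h3]
      have h4 : 0 ≤ (Nk * Y + Real.sqrt (q * Nk) * Real.sqrt Y) / d := by positivity
      calc CL * ((Nk * Y + Real.sqrt (q * Nk) * Real.sqrt Y) / d) * (1 + Real.log (q * (Nk * Y)))
          ≤ CL * ((Nk * Y + Real.sqrt (q * Nk) * Real.sqrt Y) / d) * L := by gcongr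
        _ = _ := by ring
    intro Y hY
    rcases le_or_gt Y M with h | h
    · exact key Y hY h
    · have h1 := key M hM1 le_rfl
      have h2 : (T.filter fun 𝔞 => (Ideal.absNorm 𝔞 : ℝ) ≤ Y) =
          T.filter fun 𝔞 => (Ideal.absNorm 𝔞 : ℝ) ≤ M := by
        refine Finset.filter_congr fun 𝔞 h𝔞 => ?_
        rw [hTm] at h𝔞
        constructor
        · intro _; exact h𝔞.1
        · intro _; linarith [h𝔞.1]
      rw [h2]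
      refine h1.trans ?_
      have := Real.sqrt_le_sqrt h.le
      gcongr
  have hdy := dyadic T (fun 𝔞 => Ideal.absNorm 𝔞) (fun 𝔞 h𝔞 => by
      rw [hTm] at h𝔞
      exact_mod_cast one_le_norm h𝔞.2.1) (M := M) (B := CL * Nk * L / d)
      (E := CL * Real.sqrt (q * Nk) * L / d) (by positivity) (by positivity)
      (fun 𝔞 h𝔞 => ((hTm 𝔞).1 h𝔞).1) hcount
  -- the sum
  have hsum1 : Summable fun 𝔞 : Ideal (𝓞 K) =>
      (if 𝔞 ∈ T then C₁ * (1 + Real.log q) * (Ideal.absNorm 𝔞 : ℝ) ^ (-(1 / 2) : ℝ) else 0) :=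
    summable_of_ne_finset_zero (s := T) fun 𝔞 h => if_neg h
  have hsum2 : Summable fun 𝔞 : Ideal (𝓞 K) =>
      C₂ * (q : ℝ)⁻¹ * Pool.Agent.Y772.DK.nr K (3 / 2) 𝔞 :=
    (Pool.Agent.Y772.DK.nr_summable (K := K) (σ := 3 / 2) (by norm_num)).mul_left _
  have hle : ∀ 𝔞 : Ideal (𝓞 K), (if Pr d (𝔨 * 𝔞) ∧ ¬ Rat (𝔨 * 𝔞) then gg v (ρ * q) 𝔞 else 0) ≤
      (if 𝔞 ∈ T then C₁ * (1 + Real.log q) * (Ideal.absNorm 𝔞 : ℝ) ^ (-(1 / 2) : ℝ) else 0) +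
        C₂ * (q : ℝ)⁻¹ * Pool.Agent.Y772.DK.nr K (3 / 2) 𝔞 := by
    intro 𝔞
    have hr : 0 ≤ C₂ * (q : ℝ)⁻¹ * Pool.Agent.Y772.DK.nr K (3 / 2) 𝔞 := by
      have := Pool.Agent.Y772.DK.nr_nonneg K (3 / 2) 𝔞
      positivity
    have hlogq : 0 ≤ Real.log q := Real.log_nonneg hq1
    by_cases h1 : Pr d (𝔨 * 𝔞) ∧ ¬ Rat (𝔨 * 𝔞)
    · rw [if_pos h1]
      rcases eq_or_ne 𝔞 ⊥ with h0 | h0
      · rw [h0, gg_bot]
        rw [h0] at hr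
        have : (0 : ℝ) ≤ (if (⊥ : Ideal (𝓞 K)) ∈ T then C₁ * (1 + Real.log q) *
            (Ideal.absNorm (⊥ : Ideal (𝓞 K)) : ℝ) ^ (-(1 / 2) : ℝ) else 0) := by
          split_ifs <;> positivity
        linarith
      · rcases le_or_gt (Ideal.absNorm 𝔞 : ℝ) M with h2 | h2
        · rw [if_pos ((hTm 𝔞).2 ⟨h2, h0, h1⟩)]
          have := hg q hqr 𝔞 h0
          linarith
        · have := ht q hqr 𝔞 h2
          have h3 : (0 : ℝ) ≤ (if 𝔞 ∈ T then C₁ * (1 + Real.log q) *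
            (Ideal.absNorm 𝔞 : ℝ) ^ (-(1 / 2) : ℝ) else 0) := by
            split_ifs <;> positivity
          unfold Pool.Agent.Y772.DK.nr
          linarith
    · rw [if_neg h1]
      have h3 : (0 : ℝ) ≤ (if 𝔞 ∈ T then C₁ * (1 + Real.log q) *
            (Ideal.absNorm 𝔞 : ℝ) ^ (-(1 / 2) : ℝ) else 0) := by
        split_ifs <;> positivity
      linarith
  have hsum0 : Summable fun 𝔞 : Ideal (𝓞 K) =>
      (if Pr d (𝔨 * 𝔞) ∧ ¬ Rat (𝔨 * 𝔞) then gg v (ρ * q) 𝔞 else 0) := by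
    refine Summable.of_nonneg_of_le (fun 𝔞 => ?_) hle (hsum1.add hsum2)
    split_ifs
    · exact gg_nonneg hv hX0 𝔞
    · exact le_rfl
  have h1 := hsum0.tsum_le_tsum hle (hsum1.add hsum2)
  rw [hsum1.tsum_add hsum2, tsum_mul_left, ← hZ] at h1
  have h2 : ∑' 𝔞 : Ideal (𝓞 K),
      (if 𝔞 ∈ T then C₁ * (1 + Real.log q) * (Ideal.absNorm 𝔞 : ℝ) ^ (-(1 / 2) : ℝ) else 0) =
      C₁ * (1 + Real.log q) * ∑ 𝔞 ∈ T, (Ideal.absNorm 𝔞 : ℝ) ^ (-(1 / 2) : ℝ) := by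
    rw [tsum_eq_sum (s := T) (fun 𝔞 h => if_neg h), Finset.mul_sum]
    exact Finset.sum_congr rfl fun 𝔞 h => if_pos h
  rw [h2] at h1
  refine h1.trans ?_
  -- the logarithms
  have hlogq : 0 ≤ Real.log q := Real.log_nonneg hq1
  have e1 : 1 + Real.log q ≤ C₃ * (q : ℝ) ^ (η / 12) := by
    have := hlog1 q hqr
    rw [abs_one] at this
    linarith
  have hlogNk : 0 ≤ Real.log Nk := Real.log_nonneg hNk1
  have e2 : L ≤ C₄ * (q : ℝ) ^ (η / 12) := by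
    have h3 := hlog2 q hqr
    rw [abs_of_nonneg (by positivity)] at h3
    have h4 : Real.log (q * (Nk * M)) = Real.log q + Real.log Nk + (1 + η₁) * Real.log q := by
      rw [Real.log_mul hq0.ne' (by positivity), Real.log_mul (by positivity) (by positivity), hMdef,
        Real.log_rpow hq0]
      ring
    rw [hLdef, h4]
    nlinarith [mul_nonneg hlogNk hlogq]
  have e3 : (Nat.log 2 ⌊M⌋₊ : ℝ) + 1 ≤ C₅ * (q : ℝ) ^ (η / 12) := by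
    have h3 := hlog3 q hqr
    rw [abs_of_nonneg (by positivity)] at h3
    have h4 : (Nat.log 2 ⌊M⌋₊ : ℝ) ≤ 2 * Real.log M := by
      have hfl : 1 ≤ ⌊M⌋₊ := Nat.le_floor (by exact_mod_cast hM1)
      have h5 : (2 : ℝ) ^ (Nat.log 2 ⌊M⌋₊) ≤ M := by
        have h6 : 2 ^ (Nat.log 2 ⌊M⌋₊) ≤ ⌊M⌋₊ := Nat.pow_log_le_self 2 (by omega)
        calc (2 : ℝ) ^ (Nat.log 2 ⌊M⌋₊) = ((2 ^ (Nat.log 2 ⌊M⌋₊) : ℕ) : ℝ) := by push_cast; rfl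
          _ ≤ (⌊M⌋₊ : ℝ) := by exact_mod_cast h6
          _ ≤ M := Nat.floor_le (by linarith)
      have h6 := Real.log_le_log (by positivity) h5
      rw [Real.log_pow] at h6
      have h7 := Real.log_two_gt_d9
      have h8 : (0 : ℝ) ≤ (Nat.log 2 ⌊M⌋₊ : ℝ) := Nat.cast_nonneg _
      nlinarith
    have h5 : Real.log M = (1 + η₁) * Real.log q := by rw [hMdef, Real.log_rpow hq0]
    rw [h5] at h4
    nlinarith
  have e4 : Real.sqrt M ≤ (q : ℝ) ^ (1 / 2 + η / 4) := by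
    rw [hMdef, Real.sqrt_eq_rpow, ← Real.rpow_mul hq0.le]
    refine Real.rpow_le_rpow_of_exponent_le hq1 ?_
    rw [hη₁]
    linarith
  have e5 : Real.sqrt (q * Nk) ≤ (q : ℝ) ^ (1 / 2 + η / 4) * Real.sqrt Nk := by
    rw [Real.sqrt_mul hq0.le]
    gcongr
    rw [Real.sqrt_eq_rpow]
    exact Real.rpow_le_rpow_of_exponent_le hq1 (by linarith)
  have hP : (q : ℝ) ^ (η / 12) * ((q : ℝ) ^ (η / 12) * (q : ℝ) ^ (η / 12)) *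
      (q : ℝ) ^ (1 / 2 + η / 4) ≤ (q : ℝ) ^ (1 / 2 + η) := by
    rw [← Real.rpow_add hq0, ← Real.rpow_add hq0, ← Real.rpow_add hq0]
    exact Real.rpow_le_rpow_of_exponent_le hq1 (by linarith)
  have hQ1 : (1 : ℝ) ≤ (q : ℝ) ^ (1 / 2 + η) := Real.one_le_rpow hq1 (by positivity)
  have f1 : ∑ 𝔞 ∈ T, (Ideal.absNorm 𝔞 : ℝ) ^ (-(1 / 2) : ℝ) ≤
      (C₅ * (q : ℝ) ^ (η / 12)) * ((C₄ * (q : ℝ) ^ (η / 12)) * (CL * (2 * Nk + 2 * Real.sqrt Nk)) *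
        (q : ℝ) ^ (1 / 2 + η / 4) / d) := by
    refine hdy.trans ?_
    have h3 : 2 * (CL * Nk * L / d) * Real.sqrt M + 2 * (CL * Real.sqrt (q * Nk) * L / d) ≤
        (C₄ * (q : ℝ) ^ (η / 12)) * (CL * (2 * Nk + 2 * Real.sqrt Nk)) *
        (q : ℝ) ^ (1 / 2 + η / 4) / d := by
      have h4 : 2 * (CL * Nk * L / d) * Real.sqrt M ≤
          2 * (CL * Nk * (C₄ * (q : ℝ) ^ (η / 12)) / d) * (q : ℝ) ^ (1 / 2 + η / 4) := by gcongr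
      have h5 : 2 * (CL * Real.sqrt (q * Nk) * L / d) ≤
          2 * (CL * ((q : ℝ) ^ (1 / 2 + η / 4) * Real.sqrt Nk) * (C₄ * (q : ℝ) ^ (η / 12)) / d) := by
        gcongr
      refine (add_le_add h4 h5).trans (le_of_eq ?_)
      ring
    gcongr
  have f2 : C₂ * (q : ℝ)⁻¹ * Z ≤ C₂ * Z * (q : ℝ) ^ (1 / 2 + η) / d := by
    have h3 : (q : ℝ)⁻¹ ≤ (q : ℝ) ^ (1 / 2 + η) / d := by
      rw [inv_eq_one_div]
      gcongr
    calc C₂ * (q : ℝ)⁻¹ * Z ≤ C₂ * ((q : ℝ) ^ (1 / 2 + η) / d) * Z := by gcongr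
      _ = _ := by ring
  have f3 : C₁ * (1 + Real.log q) * ∑ 𝔞 ∈ T, (Ideal.absNorm 𝔞 : ℝ) ^ (-(1 / 2) : ℝ) ≤
      C₁ * C₃ * (C₅ * C₄ * (CL * (2 * Nk + 2 * Real.sqrt Nk))) * (q : ℝ) ^ (1 / 2 + η) / d := by
    have h3 : 0 ≤ ∑ 𝔞 ∈ T, (Ideal.absNorm 𝔞 : ℝ) ^ (-(1 / 2) : ℝ) :=
      Finset.sum_nonneg fun 𝔞 _ => by positivity
    exact (comb1 hC₁.le e1 (by linarith) h3 f1).trans
      (comb2 hC₁.le hC₃.le hC₄.le hC₅.le (by positivity) hdr hP)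
  have f4 : 0 ≤ (q : ℝ) ^ (1 / 2 + η) / d := by positivity
  calc _ ≤ C₁ * C₃ * (C₅ * C₄ * (CL * (2 * Nk + 2 * Real.sqrt Nk))) * (q : ℝ) ^ (1 / 2 + η) / d +
      C₂ * Z * (q : ℝ) ^ (1 / 2 + η) / d := add_le_add f3 f2
    _ ≤ C₁ * C₃ * (C₅ * C₄ * (CL * (2 * Nk + 2 * Real.sqrt Nk))) * (q : ℝ) ^ (1 / 2 + η) / d +
      C₂ * Z * (q : ℝ) ^ (1 / 2 + η) / d + (q : ℝ) ^ (1 / 2 + η) / d := by linarith
    _ = _ := by ring

end Pool.Agent.NH12.RS
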