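import Pool.Agent.NH12.RS.First

/-! # The first moment: assembly -/

set_option autoImplicit false
set_option linter.unusedSectionVars false

open NumberField Complex Finset

namespace Pool.Agent.NH12.RS

variable {K : Type} [Field K] [NumberField K]

lemma cop_of_norm {q : ℕ} {𝔞 : Ideal (𝓞 K)} (h : Nat.Coprime q (Ideal.absNorm 𝔞)) : Cop q 𝔞 := by
  unfold Cop
  rw [Ideal.isCoprime_iff_exists]
  have h1 := Nat.isCoprime_iff_coprime.mpr h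
  obtain ⟨u, v, huv⟩ := h1
  refine ⟨(v : 𝓞 K) * (Ideal.absNorm 𝔞 : 𝓞 K), Ideal.mul_mem_left _ _ (Ideal.absNorm_mem 𝔞),
    (u : 𝓞 K) * (q : 𝓞 K), Ideal.mul_mem_left _ _ (Ideal.mem_span_singleton_self _), ?_⟩
  have h2 : ((u * (q : ℤ) + v * (Ideal.absNorm 𝔞 : ℤ) : ℤ) : 𝓞 K) = ((1 : ℤ) : 𝓞 K) := by
    rw [huv]
  push_cast at h2
  linear_combination h2

lemma ncard_eq_finsum {ι : Type} {s : Set ι} (hs : s.Finite) : ((s.ncard : ℕ) : ℂ) = ∑ᶠ x ∈ s, (1 : ℂ) := by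
  rw [finsum_mem_eq_finite_toFinset_sum _ hs, Finset.sum_const, Set.ncard_eq_toFinset_card s hs,
    nsmul_eq_mul, mul_one]

lemma pp_sub (q : ℕ) : PP K q ⊆ XX K q q := fun _ h => ⟨h.toIsRC, h.toIsRC.one⟩

open Classical in
theorem inner_eq [IsTotallyReal K] (S : RQ K) (ho : S_orth) {ψ₀ : Ideal (𝓞 K) →*₀ ℂ}
    (hψ : ∀ 𝔞, ‖ψ₀ 𝔞‖ ≤ 1) {v : ℝ → ℝ} (hv : Wt v) {X : ℝ} (hX : 0 < X) {𝔨 : Ideal (𝓞 K)}
    {q : ℕ} (hq2 : 2 ≤ q) (hck : Cop q 𝔨) {d : ℕ} (hd : d ∣ q) :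
    ∑ᶠ χ ∈ XX K q d, χ 𝔨 * AA v X (pr ψ₀ χ) = ((XX K q d).ncard : ℂ) *
      (DD v X q 𝔨 ψ₀ + ∑' 𝔞 : Ideal (𝓞 K), if Cop q 𝔞 ∧ Pr d (𝔨 * 𝔞) ∧ ¬ Rat (𝔨 * 𝔞) then
        ψ₀ 𝔞 * ((gg v X 𝔞 : ℝ) : ℂ) else 0) := by
  obtain ⟨hf, -, horth⟩ := ho K S q d hq2 hd
  rw [finsum_mem_eq_finite_toFinset_sum _ hf]
  have hgs := gg_summable (K := K) hv hX
  have hnn := fun 𝔞 => gg_nonneg (K := K) hv hX 𝔞
  have hbd : ∀ z : ℂ, ‖z‖ ≤ 1 → ∀ 𝔞 : Ideal (𝓞 K), ‖z * ((gg v X 𝔞 : ℝ) : ℂ)‖ ≤ gg v X 𝔞 := by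
    intro z hz 𝔞
    rw [norm_mul, Complex.norm_real, Real.norm_of_nonneg (hnn 𝔞)]
    exact mul_le_of_le_one_left (hnn 𝔞) hz
  have hsm : ∀ χ ∈ hf.toFinset, Summable fun 𝔞 : Ideal (𝓞 K) =>
      χ 𝔨 * (pr ψ₀ χ 𝔞 * ((gg v X 𝔞 : ℝ) : ℂ)) := by
    intro χ hχ
    rw [Set.Finite.mem_toFinset] at hχ
    have hr := rc_norm hq2 hχ.1
    refine Summable.of_norm_bounded hgs fun 𝔞 => ?_
    rw [← mul_assoc]
    refine hbd _ ?_ 𝔞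
    have h1 : pr ψ₀ χ 𝔞 = ψ₀ 𝔞 * χ 𝔞 := rfl
    rw [norm_mul, h1, norm_mul]
    exact mul_le_one₀ (hr 𝔨) (by positivity) (mul_le_one₀ (hψ 𝔞) (norm_nonneg _) (hr 𝔞))
  have h1 : ∑ χ ∈ hf.toFinset, χ 𝔨 * AA v X (pr ψ₀ χ) =
      ∑' 𝔞 : Ideal (𝓞 K), ∑ χ ∈ hf.toFinset, χ 𝔨 * (pr ψ₀ χ 𝔞 * ((gg v X 𝔞 : ℝ) : ℂ)) := by
    rw [Summable.tsum_finsetSum hsm]
    refine Finset.sum_congr rfl fun χ _ => ?_
    rw [AA_eq, tsum_mul_left]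
  rw [h1]
  have hsu : Summable fun 𝔞 : Ideal (𝓞 K) => if Cop q 𝔞 ∧ Rat (𝔨 * 𝔞) then
      ψ₀ 𝔞 * ((gg v X 𝔞 : ℝ) : ℂ) else 0 := by
    refine Summable.of_norm_bounded hgs fun 𝔞 => ?_
    split_ifs
    · exact hbd _ (hψ 𝔞) 𝔞
    · rw [norm_zero]; exact hnn 𝔞
  have hsw : Summable fun 𝔞 : Ideal (𝓞 K) =>
      if Cop q 𝔞 ∧ Pr d (𝔨 * 𝔞) ∧ ¬ Rat (𝔨 * 𝔞) then ψ₀ 𝔞 * ((gg v X 𝔞 : ℝ) : ℂ) else 0 := by
    refine Summable.of_norm_bounded hgs fun 𝔞 => ?_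
    split_ifs
    · exact hbd _ (hψ 𝔞) 𝔞
    · rw [norm_zero]; exact hnn 𝔞
  have hDD : DD v X q 𝔨 ψ₀ = ∑' 𝔞 : Ideal (𝓞 K), if Cop q 𝔞 ∧ Rat (𝔨 * 𝔞) then
      ψ₀ 𝔞 * ((gg v X 𝔞 : ℝ) : ℂ) else 0 := rfl
  rw [hDD, ← hsu.tsum_add hsw, ← tsum_mul_left]
  refine tsum_congr fun 𝔞 => ?_
  have h2 : ∑ χ ∈ hf.toFinset, χ 𝔨 * (pr ψ₀ χ 𝔞 * ((gg v X 𝔞 : ℝ) : ℂ)) =
      (ψ₀ 𝔞 * ((gg v X 𝔞 : ℝ) : ℂ)) * ∑ χ ∈ hf.toFinset, χ (𝔨 * 𝔞) := by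
    rw [Finset.mul_sum]
    refine Finset.sum_congr rfl fun χ _ => ?_
    have h1 : pr ψ₀ χ 𝔞 = ψ₀ 𝔞 * χ 𝔞 := rfl
    rw [h1, map_mul]
    ring
  rw [h2]
  by_cases hc : Cop q 𝔞
  · have hc2 : Cop q (𝔨 * 𝔞) := IsCoprime.mul_left hck hc
    obtain ⟨o1, o2⟩ := horth _ hc2
    rw [finsum_mem_eq_finite_toFinset_sum _ hf] at o1 o2
    by_cases hr : Rat (𝔨 * 𝔞)
    · rw [o1 (rat_pr d hr), if_pos ⟨hc, hr⟩, if_neg (by tauto)]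
      ring
    · by_cases hp : Pr d (𝔨 * 𝔞)
      · rw [o1 hp, if_neg (by tauto), if_pos ⟨hc, hp, hr⟩]
        ring
      · rw [o2 hp, if_neg (by tauto), if_neg (by tauto)]
        ring
  · have h3 : ∑ χ ∈ hf.toFinset, χ (𝔨 * 𝔞) = 0 := by
      refine Finset.sum_eq_zero fun χ hχ => ?_
      rw [Set.Finite.mem_toFinset] at hχ
      have h4 : χ 𝔞 = 0 := by
        by_contra h5
        exact hc ((hχ.1.supp 𝔞).mp h5)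
      rw [map_mul, h4, mul_zero]
    rw [h3, if_neg (by tauto), if_neg (by tauto)]
    ring

theorem t_first (hs2 : S_seq2) (hl : S_lat) (ho : S_orth) (hco : S_cond) (hu : S_cardU) :
    S_first := by
  intro K _ _ _ S h2 ψ₀ hψ v hv ρ hρ 𝔨 h𝔨 η hη
  classical
  obtain ⟨C, n₁, hC, hoff⟩ := off_bd S hs2 hl hv hρ h𝔨 (η := η / 2) (by positivity)
  obtain ⟨-, hcop, hdiv, hM, n₅, hn₅⟩ := hs2 K S
  obtain ⟨n₂, hn₂⟩ := hM 2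
  obtain ⟨n₃, hn₃⟩ := hcop (Ideal.absNorm 𝔨)
    (Nat.pos_of_ne_zero fun h1 => h𝔨 (Ideal.absNorm_eq_zero_iff.mp h1))
  obtain ⟨n₄, hn₄⟩ := hdiv (η / 2) (by positivity)
  obtain ⟨Cu, hCu, hcu⟩ := hu K S
  refine ⟨2 * Cu * C, max n₁ (max n₂ (max n₃ (max n₄ n₅))), by positivity, ?_⟩
  intro n q hn hq
  simp only [max_le_iff] at hn
  obtain ⟨m1, m2, m3, m4, m5⟩ := hn
  have hq2 : 2 ≤ q := hn₂ n q m2 hq
  have hqr : (2 : ℝ) ≤ q := by exact_mod_cast hq2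
  have hq0 : (0 : ℝ) < q := by linarith
  have hX : 0 < ρ * q := by positivity
  have hck : Cop q 𝔨 := cop_of_norm (hn₃ n q m3 hq)
  obtain ⟨hcd, hmo⟩ := hco K S q hq2
  have hfin := (ho K S q q hq2 dvd_rfl).1
  have hPPf : (PP K q).Finite := hfin.subset (pp_sub q)
  set W : ℕ → ℂ := fun d => ∑' 𝔞 : Ideal (𝓞 K),
    if Cop q 𝔞 ∧ Pr d (𝔨 * 𝔞) ∧ ¬ Rat (𝔨 * 𝔞) then ψ₀ 𝔞 * ((gg v (ρ * q) 𝔞 : ℝ) : ℂ) else 0 with hW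
  have h1 : ∑ᶠ χ ∈ PP K q, χ 𝔨 * AA v (ρ * q) (pr ψ₀ χ) =
      ∑ d ∈ q.divisors, ((ArithmeticFunction.moebius (q / d) : ℤ) : ℂ) *
        (((XX K q d).ncard : ℂ) * (DD v (ρ * q) q 𝔨 ψ₀ + W d)) := by
    rw [hmo]
    refine Finset.sum_congr rfl fun d hd => ?_
    rw [inner_eq S ho hψ hv hX hq2 hck (Nat.dvd_of_mem_divisors hd)]
  have h3 : ((PP K q).ncard : ℂ) =
      ∑ d ∈ q.divisors, ((ArithmeticFunction.moebius (q / d) : ℤ) : ℂ) * ((XX K q d).ncard : ℂ) := by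
    rw [ncard_eq_finsum hPPf, hmo]
    refine Finset.sum_congr rfl fun d hd => ?_
    rw [ncard_eq_finsum (ho K S q d hq2 (Nat.dvd_of_mem_divisors hd)).1]
  have h4 : ∑ᶠ χ ∈ PP K q, χ 𝔨 * AA v (ρ * q) (pr ψ₀ χ) -
      ((PP K q).ncard : ℂ) * DD v (ρ * q) q 𝔨 ψ₀ =
      ∑ d ∈ q.divisors, ((ArithmeticFunction.moebius (q / d) : ℤ) : ℂ) *
        (((XX K q d).ncard : ℂ) * W d) := by
    rw [h1, h3, Finset.sum_mul, ← Finset.sum_sub_distrib]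
    refine Finset.sum_congr rfl fun d _ => ?_
    ring
  rw [h4]
  refine (norm_sum_le _ _).trans ?_
  have hgs := gg_summable (K := K) hv hX
  have hnn := fun 𝔞 => gg_nonneg (K := K) hv hX 𝔞
  have hterm : ∀ d ∈ q.divisors, ‖((ArithmeticFunction.moebius (q / d) : ℤ) : ℂ) *
      (((XX K q d).ncard : ℂ) * W d)‖ ≤ 2 * Cu * C * (q : ℝ) ^ (1 / 2 + η / 2) := by
    intro d hd
    have hdq := Nat.dvd_of_mem_divisors hd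
    have hd0 : 0 < d := Nat.pos_of_dvd_of_pos hdq (by omega)
    have hdr : (0 : ℝ) < d := by exact_mod_cast hd0
    have e1 : ‖((ArithmeticFunction.moebius (q / d) : ℤ) : ℂ)‖ ≤ 1 := by
      rw [Complex.norm_intCast]
      have := ArithmeticFunction.abs_moebius_le_one (n := q / d)
      exact_mod_cast this
    have e2 : ‖W d‖ ≤ C * (q : ℝ) ^ (1 / 2 + η / 2) / d := by
      refine le_trans ?_ (hoff n q m1 hq d hdq)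
      have hdom : ∀ 𝔞 : Ideal (𝓞 K), ‖(if Cop q 𝔞 ∧ Pr d (𝔨 * 𝔞) ∧ ¬ Rat (𝔨 * 𝔞) then
          ψ₀ 𝔞 * ((gg v (ρ * q) 𝔞 : ℝ) : ℂ) else 0)‖ ≤
          (if Pr d (𝔨 * 𝔞) ∧ ¬ Rat (𝔨 * 𝔞) then gg v (ρ * q) 𝔞 else 0) := by
        intro 𝔞
        by_cases h5 : Cop q 𝔞 ∧ Pr d (𝔨 * 𝔞) ∧ ¬ Rat (𝔨 * 𝔞)
        · rw [if_pos h5, if_pos h5.2, norm_mul, Complex.norm_real, Real.norm_of_nonneg (hnn 𝔞)]
          exact mul_le_of_le_one_left (hnn 𝔞) (hψ 𝔞)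
        · rw [if_neg h5, norm_zero]
          split_ifs
          · exact hnn 𝔞
          · exact le_rfl
      have hsr : Summable fun 𝔞 : Ideal (𝓞 K) =>
          (if Pr d (𝔨 * 𝔞) ∧ ¬ Rat (𝔨 * 𝔞) then gg v (ρ * q) 𝔞 else 0) := by
        refine Summable.of_nonneg_of_le (fun 𝔞 => ?_) (fun 𝔞 => ?_) hgs
        · split_ifs
          · exact hnn 𝔞
          · exact le_rfl
        · split_ifs
          · exact le_rfl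
          · exact hnn 𝔞
      exact tsum_of_norm_bounded hsr.hasSum hdom
    have e3 : ((XX K q d).ncard : ℝ) ≤ 2 * Cu * d := by
      have h5 := hcu q d hq2 hdq
      have h6 := hn₅ n q m5 hq d hdq
      have h7 : ((XX K q d).ncard : ℝ) * d ≤ 2 * (Cu * (d : ℝ) ^ 2) := by
        calc ((XX K q d).ncard : ℝ) * d ≤ ((XX K q d).ncard : ℝ) * (2 * (Nat.totient d : ℝ)) := by
              gcongr
          _ = 2 * (((XX K q d).ncard : ℝ) * (Nat.totient d : ℝ)) := by ring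
          _ ≤ 2 * (Cu * (d : ℝ) ^ 2) := by gcongr
      have h8 : ((XX K q d).ncard : ℝ) * d ≤ (2 * Cu * d) * d := by
        calc _ ≤ _ := h7
          _ = _ := by ring
      exact le_of_mul_le_mul_right h8 hdr
    rw [norm_mul, norm_mul, Complex.norm_natCast]
    calc ‖((ArithmeticFunction.moebius (q / d) : ℤ) : ℂ)‖ * (((XX K q d).ncard : ℝ) * ‖W d‖)
        ≤ 1 * ((2 * Cu * d) * (C * (q : ℝ) ^ (1 / 2 + η / 2) / d)) := by gcongr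
      _ = 2 * Cu * C * (q : ℝ) ^ (1 / 2 + η / 2) := by
          field_simp
  refine (Finset.sum_le_sum hterm).trans ?_
  rw [Finset.sum_const, nsmul_eq_mul]
  have h5 := (hn₄ n q m4 hq).2
  have h6 : (q : ℝ) ^ (η / 2) * (q : ℝ) ^ (1 / 2 + η / 2) = (q : ℝ) ^ (1 / 2 + η) := by
    rw [← Real.rpow_add hq0]
    congr 1
    ring
  calc (q.divisors.card : ℝ) * (2 * Cu * C * (q : ℝ) ^ (1 / 2 + η / 2))
      ≤ (q : ℝ) ^ (η / 2) * (2 * Cu * C * (q : ℝ) ^ (1 / 2 + η / 2)) := by gcongr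
    _ = 2 * Cu * C * ((q : ℝ) ^ (η / 2) * (q : ℝ) ^ (1 / 2 + η / 2)) := by ring
    _ = _ := by rw [h6]

end Pool.Agent.NH12.RS
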