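import Pool.Agent.NH12.RS.Second
import Pool.Agent.Y773.HK.Geo

/-!
# The base character over `ℚ(√5)`

`K` is a quadratic field which contains a square root `s` of `5`, `ξ` is a quartic character modulo
`5`.  The character `𝔞 ↦ ξ(N 𝔞)` is a primitive ray class character of conductor `(s)` with both
signs.
-/

set_option autoImplicit false
set_option linter.unusedSectionVars false

open NumberField Complex

namespace Pool.Agent.NH12.RS

open Pool.Agent.Y773 (TPos sg rl)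

/-! ### the character modulo five -/

lemma xi5_four {ξ : DirichletCharacter ℂ 5} (hξ : ξ 2 = Complex.I) : ξ 4 = -1 := by
  have h : (4 : ZMod 5) = 2 * 2 := by decide
  rw [h, map_mul, hξ, Complex.I_mul_I]

lemma xi5_ne {ξ : DirichletCharacter ℂ 5} {n : ZMod 5} (hn : n ≠ 0) : ξ n ≠ 0 := by
  haveI : Fact (Nat.Prime 5) := ⟨by norm_num⟩
  have h1 : IsUnit n := isUnit_iff_ne_zero.mpr hn
  exact (h1.map ξ).ne_zero

lemma xi5_zero {ξ : DirichletCharacter ℂ 5} : ξ 0 = 0 := by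
  refine ξ.map_nonunit ?_
  decide

lemma xi5_conj {ξ : DirichletCharacter ℂ 5} (hξ : ξ 2 = Complex.I) {n : ZMod 5}
    (hn : n = 0 ∨ n = 1 ∨ n = 4) : ξ n = (starRingEnd ℂ) (ξ n) := by
  rcases hn with rfl | rfl | rfl
  · rw [xi5_zero, map_zero]
  · rw [map_one, map_one]
  · rw [xi5_four hξ, map_neg, map_one]

variable {K : Type} [Field K] [NumberField K]

lemma five_sig (S : RQ K) {s : 𝓞 K} (hs : s ^ 2 = 5) : S.σ s = -s := by
  have h1 : (S.σ s) ^ 2 = 5 := by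
    rw [← map_pow, hs]
    exact map_ofNat S.σ 5
  have h2 : (S.σ s - s) * (S.σ s + s) = 0 := by
    linear_combination h1 - hs
  rcases mul_eq_zero.1 h2 with h | h
  · exfalso
    obtain ⟨a, ha⟩ := S.fix s (sub_eq_zero.1 h)
    rw [ha] at hs
    have h3 : a ^ 2 = 5 := by exact_mod_cast hs
    have h4 : a ≤ 2 := by nlinarith
    have h5 : -2 ≤ a := by nlinarith
    interval_cases a <;> omega
  · exact eq_neg_of_add_eq_zero_left h

lemma five_norm (S : RQ K) {s : 𝓞 K} (hs : s ^ 2 = 5) : Algebra.norm ℤ s = -5 := by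
  have h1 := S.norm s
  rw [five_sig S hs] at h1
  have h2 : ((Algebra.norm ℤ s : ℤ) : 𝓞 K) = ((-5 : ℤ) : 𝓞 K) := by
    rw [h1]
    push_cast
    linear_combination -hs
  exact_mod_cast h2

lemma five_absNorm (S : RQ K) {s : 𝓞 K} (hs : s ^ 2 = 5) :
    Ideal.absNorm (Ideal.span {s}) = 5 := by
  rw [Ideal.absNorm_span_singleton, five_norm S hs]
  rfl

lemma five_ne_bot {s : 𝓞 K} (hs : s ^ 2 = 5) : Ideal.span {s} ≠ ⊥ := by
  rw [Ne, Ideal.span_singleton_eq_bot]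
  rintro rfl
  have h1 : (5 : 𝓞 K) ≠ 0 := by norm_num
  exact h1 (by rw [← hs]; ring)

lemma five_max (S : RQ K) {s : 𝓞 K} (hs : s ^ 2 = 5) : (Ideal.span {s}).IsMaximal := by
  have h1 : (Ideal.span {s}).IsPrime := by
    refine Ideal.isPrime_of_irreducible_absNorm ?_
    rw [five_absNorm S hs]
    exact (Nat.prime_iff.1 (by norm_num : Nat.Prime 5)).irreducible
  exact h1.isMaximal (five_ne_bot hs)

lemma five_dvd (hc : S_conj) (S : RQ K) {s : 𝓞 K} (hs : s ^ 2 = 5) (𝔞 : Ideal (𝓞 K)) :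
    5 ∣ Ideal.absNorm 𝔞 ↔ 𝔞 ≤ Ideal.span {s} := by
  obtain ⟨-, hcc, -, hsp, hnn⟩ := hc K S
  constructor
  · rintro ⟨m, hm⟩
    have h1 := hnn 𝔞
    have h2 : 𝔞 * S.cj 𝔞 ≤ Ideal.span {s} := by
      rw [h1, Ideal.span_singleton_le_span_singleton, hm]
      refine ⟨s * m, ?_⟩
      push_cast
      linear_combination (-(m : 𝓞 K)) * hs
    rcases ((five_max S hs).isPrime.mul_le).1 h2 with h | h
    · exact h
    · have h3 : S.cj (S.cj 𝔞) ≤ S.cj (Ideal.span {s}) := Ideal.map_mono h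
      rw [hcc, hsp, five_sig S hs, Ideal.span_singleton_neg] at h3
      exact h3
  · intro h
    have h1 := Ideal.absNorm_dvd_absNorm_of_le h
    rwa [five_absNorm S hs] at h1

lemma five_cop (hc : S_conj) (S : RQ K) {s : 𝓞 K} (hs : s ^ 2 = 5) (𝔞 : Ideal (𝓞 K)) :
    IsCoprime 𝔞 (Ideal.span {s}) ↔ ¬ 5 ∣ Ideal.absNorm 𝔞 := by
  rw [five_dvd hc S hs, Ideal.isCoprime_iff_sup_eq]
  constructor
  · intro h1 h2
    rw [sup_eq_right.mpr h2] at h1
    exact (five_max S hs).ne_top h1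
  · intro h1
    refine (five_max S hs).out.2 _ (lt_of_le_of_ne le_sup_right ?_)
    intro h2
    exact h1 (h2 ▸ le_sup_left)

/-- `ψ(𝔞) ≠ 0` -/
lemma five_supp (hc : S_conj) (S : RQ K) {s : 𝓞 K} (hs : s ^ 2 = 5) {ξ : DirichletCharacter ℂ 5}
    (𝔞 : Ideal (𝓞 K)) :
    ξ ((Ideal.absNorm 𝔞 : ℕ) : ZMod 5) ≠ 0 ↔ IsCoprime 𝔞 (Ideal.span {s}) := by
  rw [five_cop hc S hs, ← ZMod.natCast_eq_zero_iff]
  constructor
  · intro h1 h2
    rw [h2, xi5_zero] at h1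
    exact h1 rfl
  · intro h1
    exact xi5_ne h1

/-! ### the signature -/

lemma five_mod (S : RQ K) {s : 𝓞 K} (hs : s ^ 2 = 5) {x : 𝓞 K} (hx : x - 1 ∈ Ideal.span {s}) :
    (5 : ℤ) ∣ Algebra.norm ℤ x - 1 := by
  obtain ⟨y, hy⟩ := Ideal.mem_span_singleton'.1 hx
  have hσ := five_sig S hs
  have hxy : x = 1 + s * y := by linear_combination -hy
  have h1 : S.σ x = 1 - s * S.σ y := by
    rw [hxy, map_add, map_one, map_mul, hσ]
    ring
  obtain ⟨m, hm⟩ := S.fix (s * (y - S.σ y)) (by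
    rw [map_mul, hσ, map_sub, S.inv]; ring)
  obtain ⟨n, hn⟩ := S.fix ((y - S.σ y) ^ 2) (by
    rw [map_pow, map_sub, S.inv]; ring)
  have h2 : m ^ 2 = 5 * n := by
    have h3 : ((m ^ 2 : ℤ) : 𝓞 K) = ((5 * n : ℤ) : 𝓞 K) := by
      push_cast
      rw [← hm, ← hn, ← hs]
      ring
    exact_mod_cast h3
  have h3 : (5 : ℤ) ∣ m := by
    have h4 : (5 : ℤ) ∣ m ^ 2 := ⟨n, h2⟩
    exact (Int.prime_iff_natAbs_prime.mpr (by norm_num)).dvd_of_dvd_pow h4
  have h4 : Algebra.norm ℤ x - 1 = m - 5 * Algebra.norm ℤ y := by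
    have h5 : ((Algebra.norm ℤ x - 1 : ℤ) : 𝓞 K) = ((m - 5 * Algebra.norm ℤ y : ℤ) : 𝓞 K) := by
      push_cast
      rw [S.norm x, S.norm y, ← hm, h1, hxy]
      linear_combination (-(y * S.σ y)) * hs
    exact_mod_cast h5
  rw [h4]
  exact dvd_sub h3 (dvd_mul_right _ _)

/-- the sign of an integer -/
noncomputable def sn5 (N : ℤ) : ℂ := (((SignType.sign N : SignType) : ℤ) : ℂ)

lemma xi5_natAbs {ξ : DirichletCharacter ℂ 5} (hξ : ξ 2 = Complex.I) {N : ℤ} (hN : N ≠ 0) :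
    ξ ((N.natAbs : ℕ) : ZMod 5) = sn5 N * ξ ((N : ℤ) : ZMod 5) := by
  unfold sn5
  rcases lt_or_gt_of_ne hN with h1 | h1
  · have h2 : ((N.natAbs : ℕ) : ZMod 5) = 4 * ((N : ℤ) : ZMod 5) := by
      have h3 : ((N.natAbs : ℕ) : ℤ) = -N := by omega
      have h4 : (((N.natAbs : ℕ) : ℤ) : ZMod 5) = ((-N : ℤ) : ZMod 5) := by rw [h3]
      rw [Int.cast_natCast] at h4
      rw [h4]
      push_cast
      have h5 : (4 : ZMod 5) = -1 := by decide
      rw [h5]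
      ring
    rw [h2, map_mul, xi5_four hξ, sign_neg h1]
    norm_num
  · have h2 : ((N.natAbs : ℕ) : ZMod 5) = ((N : ℤ) : ZMod 5) := by
      have h3 : ((N.natAbs : ℕ) : ℤ) = N := by omega
      have h4 : (((N.natAbs : ℕ) : ℤ) : ZMod 5) = ((N : ℤ) : ZMod 5) := by rw [h3]
      rwa [Int.cast_natCast] at h4
    rw [h2, sign_pos h1]
    simp

lemma sg_one5 [IsTotallyReal K] (x : 𝓞 K) :
    sg (fun _ : InfinitePlace K => 1) (x : K) = sn5 (Algebra.norm ℤ x) := by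
  have h1 := Pool.Agent.Y773.norm_eq_prod (K := K) (x : K)
  have h2 : (Algebra.norm ℚ (x : K) : ℚ) = ((Algebra.norm ℤ x : ℤ) : ℚ) :=
    (Algebra.coe_norm_int x).symm
  rw [h2] at h1
  have h3 : (((Algebra.norm ℤ x : ℤ) : ℚ) : ℝ) = ((Algebra.norm ℤ x : ℤ) : ℝ) := by push_cast; rfl
  rw [h3] at h1
  have h4 : SignType.sign ((Algebra.norm ℤ x : ℤ) : ℝ) = SignType.sign (Algebra.norm ℤ x) := by
    rcases lt_trichotomy (Algebra.norm ℤ x) 0 with h | h | h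
    · rw [sign_neg h, sign_neg (by exact_mod_cast h)]
    · rw [h]; simp
    · rw [sign_pos h, sign_pos (by exact_mod_cast h)]
  have h5 : SignType.sign (∏ w : InfinitePlace K, rl w (x : K)) =
      ∏ w : InfinitePlace K, SignType.sign (rl w (x : K)) := by
    have := map_prod (signHom (α := ℝ)) (fun w : InfinitePlace K => rl w (x : K)) Finset.univ
    exact this
  unfold sn5 sg
  rw [← h4, h1, h5]
  simp only [pow_one]
  have h6 : ∀ s : Finset (InfinitePlace K), (((∏ w ∈ s, SignType.sign (rl w (x : K)) : SignType) :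
      ℤ) : ℂ) = ∏ w ∈ s, (((SignType.sign (rl w (x : K)) : SignType) : ℤ) : ℂ) := by
    classical
    intro s
    induction s using Finset.induction_on with
    | empty => simp
    | insert a s ha ih =>
      rw [Finset.prod_insert ha, Finset.prod_insert ha, ← ih]
      push_cast
      rfl
  exact (h6 Finset.univ).symm

/-! ### norms of ideals modulo five -/

lemma sq5 : ∀ z : ZMod 5, z ^ 2 = 0 ∨ z ^ 2 = 1 ∨ z ^ 2 = 4 := by decide

lemma mul5 : ∀ z w : ZMod 5, (z = 0 ∨ z = 1 ∨ z = 4) → (w = 0 ∨ w = 1 ∨ w = 4) →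
    (z * w = 0 ∨ z * w = 1 ∨ z * w = 4) := by decide

lemma neg5 : ∀ z : ZMod 5, (-z = 0 ∨ -z = 1 ∨ -z = 4) → (z = 0 ∨ z = 1 ∨ z = 4) := by decide

lemma qc5 [Fact (Nat.Prime 5)] (z : ZMod 5) (h : quadraticChar (ZMod 5) z ≠ -1) :
    z = 0 ∨ z = 1 ∨ z = 4 := by
  by_cases hz : z = 0
  · exact Or.inl hz
  have h1 : IsSquare z := by
    rw [← quadraticChar_one_iff_isSquare hz]
    rcases quadraticChar_dichotomy hz with h2 | h2
    · exact h2
    · exact absurd h2 h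
  obtain ⟨r, hr⟩ := h1
  rw [hr, ← pow_two]
  exact sq5 r

lemma five_prime {s : 𝓞 K} (hs : s ^ 2 = 5) {𝔭 : Ideal (𝓞 K)} (hp : 𝔭.IsPrime) (h0 : 𝔭 ≠ ⊥) :
    ((Ideal.absNorm 𝔭 : ℕ) : ZMod 5) = 0 ∨ ((Ideal.absNorm 𝔭 : ℕ) : ZMod 5) = 1 ∨
      ((Ideal.absNorm 𝔭 : ℕ) : ZMod 5) = 4 := by
  haveI : Fact (Nat.Prime 5) := ⟨by norm_num⟩
  haveI hmax : 𝔭.IsMaximal := hp.isMaximal h0
  have hcard : Ideal.absNorm 𝔭 = Nat.card (𝓞 K ⧸ 𝔭) := rfl
  haveI : Finite (𝓞 K ⧸ 𝔭) := by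
    refine Nat.finite_of_card_ne_zero ?_
    rw [← hcard]
    exact fun h => h0 (Ideal.absNorm_eq_zero_iff.1 h)
  letI : Field (𝓞 K ⧸ 𝔭) := Ideal.Quotient.field 𝔭
  letI : Fintype (𝓞 K ⧸ 𝔭) := Fintype.ofFinite _
  rw [hcard, Nat.card_eq_fintype_card]
  set q := Fintype.card (𝓞 K ⧸ 𝔭) with hq
  by_cases h2 : ringChar (𝓞 K ⧸ 𝔭) = 2
  · haveI : CharP (𝓞 K ⧸ 𝔭) 2 := ringChar.of_eq h2
    obtain ⟨f, -, hf⟩ := FiniteField.card (𝓞 K ⧸ 𝔭) 2
    -- the golden ratio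
    obtain ⟨φ, hφ⟩ : ∃ φ : 𝓞 K, φ ^ 2 = φ + 1 := by
      have h3 : (2 : K) ≠ 0 := two_ne_zero
      have h4 : ((s : K)) ^ 2 = 5 := by
        have h := congrArg (algebraMap (𝓞 K) K) hs
        rw [map_pow] at h
        rw [h]
        exact map_ofNat (algebraMap (𝓞 K) K) 5
      have h5 : ((1 + (s : K)) / 2) ^ 2 = (1 + (s : K)) / 2 + 1 := by
        field_simp
        linear_combination h4
      have h6 : IsIntegral ℤ ((1 + (s : K)) / 2) := by
        refine ⟨Polynomial.X ^ 2 - Polynomial.X - 1, ?_, ?_⟩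
        · monicity!
        · simp only [Polynomial.eval₂_sub, Polynomial.eval₂_pow, Polynomial.eval₂_X,
            Polynomial.eval₂_one]
          rw [h5]
          ring
      refine ⟨⟨(1 + (s : K)) / 2, h6⟩, ?_⟩
      apply RingOfIntegers.ext
      simpa using h5
    set ψ : 𝓞 K ⧸ 𝔭 := Ideal.Quotient.mk 𝔭 φ with hψ
    have h3 : ψ ^ 2 = ψ + 1 := by
      rw [hψ, ← map_pow, hφ, map_add, map_one]
    have h20 : (2 : 𝓞 K ⧸ 𝔭) = 0 := by
      have := CharP.cast_eq_zero (𝓞 K ⧸ 𝔭) 2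
      simpa using this
    have h4 : ψ ^ 3 = 1 := by
      linear_combination (ψ + 1) * h3 + ψ * h20
    have h5 : ψ ≠ 1 := by
      intro h
      rw [h] at h3
      have h6 : (1 : 𝓞 K ⧸ 𝔭) = 0 := by linear_combination (-1 : 𝓞 K ⧸ 𝔭) * h3
      exact one_ne_zero h6
    haveI : Fact (Nat.Prime 3) := ⟨by norm_num⟩
    have h6 : orderOf ψ = 3 := orderOf_eq_prime h4 h5
    have hψ0 : ψ ≠ 0 := by
      intro h
      rw [h] at h4
      norm_num at h4
    have h7 : ψ ^ (q - 1) = 1 := FiniteField.pow_card_sub_one_eq_one ψ hψ0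
    have h8 : 3 ∣ q - 1 := by
      rw [← h6]
      exact orderOf_dvd_of_pow_eq_one h7
    have h9 : Even (f : ℕ) := by
      by_contra hodd
      rw [Nat.not_even_iff_odd] at hodd
      obtain ⟨k, hk⟩ := hodd
      have h10 : q = 2 * 4 ^ k := by
        rw [hq, hf, hk, pow_add, pow_mul]
        ring
      have h11 : 4 ^ k % 3 = 1 := by
        rw [Nat.pow_mod]
        simp
      omega
    obtain ⟨k, hk⟩ := h9
    have h10 : ((q : ℕ) : ZMod 5) = ((2 : ZMod 5) ^ k) ^ 2 := by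
      rw [hq, hf, hk]
      push_cast
      ring
    rw [h10]
    exact sq5 _
  · have h3 : IsSquare ((5 : ℕ) : 𝓞 K ⧸ 𝔭) := by
      refine ⟨Ideal.Quotient.mk 𝔭 s, ?_⟩
      rw [← map_mul, ← pow_two, hs]
      exact (map_ofNat (Ideal.Quotient.mk 𝔭) 5).symm
    have h4 := (FiniteField.isSquare_odd_prime_iff h2 (p := 5) (by norm_num)).1 h3
    rw [← hq] at h4
    have h5 := FiniteField.odd_card_of_char_ne_two h2
    rw [← hq] at h5
    have h6 : q % 4 = 1 ∨ q % 4 = 3 := by omega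
    rcases h6 with h6 | h6
    · rw [ZMod.χ₄_nat_one_mod_four h6] at h4
      have h7 := qc5 _ h4
      simpa using h7
    · rw [ZMod.χ₄_nat_three_mod_four h6] at h4
      have h7 := qc5 _ h4
      refine neg5 _ ?_
      simpa using h7

lemma five_all {s : 𝓞 K} (hs : s ^ 2 = 5) (𝔞 : Ideal (𝓞 K)) :
    ((Ideal.absNorm 𝔞 : ℕ) : ZMod 5) = 0 ∨ ((Ideal.absNorm 𝔞 : ℕ) : ZMod 5) = 1 ∨
      ((Ideal.absNorm 𝔞 : ℕ) : ZMod 5) = 4 := by
  induction 𝔞 using UniqueFactorizationMonoid.induction_on_prime with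
  | h₁ =>
    left
    rw [Ideal.zero_eq_bot, Ideal.absNorm_bot, Nat.cast_zero]
  | h₂ 𝔞 h =>
    right; left
    rw [Ideal.isUnit_iff.1 h, Ideal.absNorm_top, Nat.cast_one]
  | h₃ 𝔞 𝔭 h0 hp ih =>
    rw [map_mul, Nat.cast_mul]
    exact mul5 _ _ (five_prime hs (Ideal.isPrime_of_prime hp) hp.ne_zero) ih

/-- FIVE -/
theorem five {K : Type} [Field K] [NumberField K] [IsTotallyReal K] (hc : S_conj)
    (h2 : Module.finrank ℚ K = 2) (S : RQ K) (s : 𝓞 K) (hs : s ^ 2 = 5)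
    (ξ : DirichletCharacter ℂ 5) (hξ : ξ 2 = Complex.I) (ψ₀ : Ideal (𝓞 K) →*₀ ℂ)
    (hψ : ∀ 𝔞, ψ₀ 𝔞 = ξ ((Ideal.absNorm 𝔞 : ℕ) : ZMod 5)) :
    Base S (Ideal.span {s}) 1 ψ₀ ∧ ¬ Rat (Ideal.span {s}) ∧
      ψ₀ (Ideal.span {((2 : ℕ) : 𝓞 K)}) = -1 := by
  have htwo : ψ₀ (Ideal.span {((2 : ℕ) : 𝓞 K)}) = -1 := by
    rw [hψ, absNorm_nat2 h2]
    norm_num
    exact xi5_four hξ
  have hsupp : ∀ 𝔞 : Ideal (𝓞 K), ψ₀ 𝔞 ≠ 0 ↔ IsCoprime 𝔞 (Ideal.span {s}) := by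
    intro 𝔞
    rw [hψ]
    exact five_supp hc S hs 𝔞
  refine ⟨⟨five_ne_bot hs, le_rfl, fun 𝔞 _ => hsupp 𝔞, ?_, ?_, ?_⟩, ?_, htwo⟩
  · intro x hx hx1
    have hN : Algebra.norm ℤ x ≠ 0 := by
      rw [Algebra.norm_ne_zero_iff]
      exact hx
    have h3 := five_mod S hs hx1
    have h4 : ((Algebra.norm ℤ x : ℤ) : ZMod 5) = 1 := by
      have h5 := (ZMod.intCast_zmod_eq_zero_iff_dvd _ 5).2 h3
      push_cast at h5
      exact sub_eq_zero.1 h5
    rw [hψ, Ideal.absNorm_span_singleton, xi5_natAbs hξ hN, h4, map_one, mul_one, sg_one5]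
  · intro 𝔤 h𝔤 hne
    have h3 : 𝔤 = ⊤ := by
      refine (five_max S hs).out.2 _ (lt_of_le_of_ne (Ideal.dvd_iff_le.1 h𝔤) (Ne.symm hne))
    refine ⟨((2 : ℕ) : 𝓞 K), ?_, ?_, ?_, ?_⟩
    · rw [h3]; exact Submodule.mem_top
    · intro σ
      have h4 : σ (algebraMap (𝓞 K) K ((2 : ℕ) : 𝓞 K)) = ((2 : ℕ) : ℝ) := by
        rw [map_natCast (algebraMap (𝓞 K) K) 2, map_natCast]
      rw [h4]
      norm_num
    · rw [← hsupp, htwo]
      norm_num
    · rw [htwo]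
      norm_num
  · intro 𝔞
    rw [hψ, hψ, (hc K S).2.2.1]
    exact xi5_conj hξ (five_all hs 𝔞)
  · rintro ⟨a, ha0, ha⟩
    have h3 := five_absNorm S hs
    rw [ha, absNorm_nat2 h2] at h3
    have h4 : a ≤ 2 := by nlinarith
    interval_cases a <;> omega

end Pool.Agent.NH12.RS
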