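import Pool.Agent.NH12.RS.Fin5

/-! # Fundamental units and the numbers `q` -/

set_option autoImplicit false
set_option linter.unusedSectionVars false

open NumberField Complex Finset

namespace Pool.Agent.NH12.RS

open Pool.Agent.Y773 (TPos IsPrimChar IsModChar LI sg)

variable {K : Type} [Field K] [NumberField K]

/-- for every fundamental unit the quotient is, up to the sign, the number `q` -/
theorem exists_index (S : RQ K) {ε : (𝓞 K)ˣ} (hε : ∀ u : (𝓞 K)ˣ, ∃ k : ℤ, u = ε ^ k ∨ u = -ε ^ k)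
    {n q : ℕ} (hnp : n.Prime) (hq : IsU S n q) : 0 < q ∧
      ((q : 𝓞 K) * ((ε : 𝓞 K) - S.σ ε) = (ε : 𝓞 K) ^ n - S.σ ε ^ n ∨
        (q : 𝓞 K) * ((ε : 𝓞 K) - S.σ ε) = -((ε : 𝓞 K) ^ n - S.σ ε ^ n)) := by
  obtain ⟨q', hq'0, hq'⟩ : ∃ q' : ℕ, 0 < q' ∧
      ((q' : 𝓞 K) * ((ε : 𝓞 K) - S.σ ε) = (ε : 𝓞 K) ^ n - S.σ ε ^ n ∨
        (q' : 𝓞 K) * ((ε : 𝓞 K) - S.σ ε) = -((ε : 𝓞 K) ^ n - S.σ ε ^ n)) := by
    -- the quotient is fixed by the conjugation
    have hsum : (ε : 𝓞 K) ^ n - S.σ ε ^ n =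
        ((ε : 𝓞 K) - S.σ ε) * ∑ i ∈ Finset.range n, (ε : 𝓞 K) ^ i * S.σ ε ^ (n - 1 - i) := by
      rw [mul_comm]
      exact ((Commute.all (ε : 𝓞 K) (S.σ ε)).geom_sum₂_mul n).symm
    set T : 𝓞 K := ∑ i ∈ Finset.range n, (ε : 𝓞 K) ^ i * S.σ ε ^ (n - 1 - i) with hT
    have hfix : S.σ T = T := by
      rw [hT, map_sum, ← Finset.sum_range_reflect]
      refine Finset.sum_congr rfl fun i hi => ?_
      rw [Finset.mem_range] at hi
      rw [map_mul, map_pow, map_pow, S.inv, mul_comm]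
      congr 2
      omega
    obtain ⟨b, hb⟩ := S.fix T hfix
    have hb0 : b ≠ 0 := by
      intro h0
      rw [h0, Int.cast_zero] at hb
      rw [hb, mul_zero] at hsum
      have h3 : (ε : 𝓞 K) ^ n = S.σ ε ^ n := sub_eq_zero.mp hsum
      have h4 := unit_norm S ε
      -- then `ε ^ (2 n) = ± 1`, so `ε` is a root of unity
      have h5 : ((ε : 𝓞 K) ^ n) ^ 2 = 1 ∨ ((ε : 𝓞 K) ^ n) ^ 2 = -1 := by
        have h6 : ((ε : 𝓞 K) ^ n) ^ 2 = ((ε : 𝓞 K) * S.σ ε) ^ n := by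
          rw [sq, mul_pow]
          congr 1
        rcases h4 with h4 | h4
        · left; rw [h6, h4, one_pow]
        · rw [h6, h4]
          exact neg_one_pow_eq_or (𝓞 K) n
      have h7 : |S.τ (ε : 𝓞 K)| = 1 := by
        have h8 : |S.τ (ε : 𝓞 K)| ^ (n * 2) = 1 := by
          rw [← abs_pow, ← map_pow, pow_mul]
          rcases h5 with h5 | h5
          · rw [h5, map_one, abs_one]
          · rw [h5, map_neg, map_one, abs_neg, abs_one]
        exact (pow_eq_one_iff_of_nonneg (abs_nonneg _) (by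
          have := hnp.pos; omega)).mp h8
      obtain ⟨l, hl⟩ := hε S.ε
      have h9 : |S.τ (S.ε : 𝓞 K)| = |S.τ (ε : 𝓞 K)| ^ l := by
        have h1 : S.τ (((ε ^ l : (𝓞 K)ˣ)) : 𝓞 K) = S.τ (ε : 𝓞 K) ^ l := by
          have h2 : ∀ w : (𝓞 K)ˣ, ((Units.map (S.τ : 𝓞 K →* ℝ) w : ℝˣ) : ℝ) = S.τ (w : 𝓞 K) :=
            fun _ => rfl
          rw [← h2, map_zpow, Units.val_zpow_eq_zpow_val, h2]
        rcases hl with h3 | h3
        · conv_lhs => rw [h3]
          rw [h1, abs_zpow]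
        · conv_lhs => rw [h3]
          rw [Units.val_neg, map_neg, abs_neg, h1, abs_zpow]
      rw [h7, one_zpow] at h9
      have h10 : 1 < |S.τ (S.ε : 𝓞 K)| := lt_of_lt_of_le S.one_lt (le_abs_self _)
      linarith
    refine ⟨b.natAbs, Int.natAbs_pos.mpr hb0, ?_⟩
    rw [hsum, hb]
    rcases Int.natAbs_eq b with h3 | h3
    · left
      have h4 : ((b : ℤ) : 𝓞 K) = ((b.natAbs : ℕ) : 𝓞 K) := by
        have h5 := congrArg (Int.cast : ℤ → 𝓞 K) h3
        rw [Int.cast_natCast] at h5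
        exact h5
      rw [h4]
      ring
    · right
      have h4 : ((b : ℤ) : 𝓞 K) = -((b.natAbs : ℕ) : 𝓞 K) := by
        have h5 := congrArg (Int.cast : ℤ → 𝓞 K) h3
        rw [Int.cast_neg, Int.cast_natCast] at h5
        exact h5
      rw [h4]
      ring
  have h3 := isU_of S hε hnp hq'0 hq'
  have h4 : q' = q := by
    have h5 := hq.eq
    have h6 := h3.eq
    have h7 : (S.ε : 𝓞 K) - S.σ S.ε ≠ 0 := by
      intro h8
      have h9 := unit_norm S S.ε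
      rw [(sub_eq_zero.mp h8).symm] at h9
      have h10 : |S.τ (S.ε : 𝓞 K)| ^ 2 = 1 := by
        rw [← abs_pow, ← map_pow, sq]
        rcases h9 with h9 | h9
        · rw [h9, map_one, abs_one]
        · rw [h9, map_neg, map_one, abs_neg, abs_one]
      have h11 : 1 < |S.τ (S.ε : 𝓞 K)| := lt_of_lt_of_le S.one_lt (le_abs_self _)
      nlinarith
    have h8 : (q' : 𝓞 K) = (q : 𝓞 K) := mul_right_cancel₀ h7 (h6.trans h5.symm)
    exact_mod_cast h8
  rw [h4] at hq'0 hq'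
  exact ⟨hq'0, hq'⟩

open Classical in
/-- the trivial character -/
noncomputable def triv (K : Type) [Field K] [NumberField K] : Ideal (𝓞 K) →*₀ ℂ where
  toFun 𝔞 := if 𝔞 = ⊥ then 0 else 1
  map_zero' := if_pos rfl
  map_one' := if_neg (by exact one_ne_zero)
  map_mul' 𝔞 𝔟 := by
    by_cases h1 : 𝔞 = ⊥
    · rw [if_pos h1, h1, Ideal.bot_mul, if_pos rfl, zero_mul]
    · by_cases h2 : 𝔟 = ⊥
      · rw [if_pos h2, h2, Ideal.mul_bot, if_pos rfl, mul_zero]
      · have h3 : 𝔞 * 𝔟 ≠ ⊥ := mul_ne_zero h1 h2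
        rw [if_neg h1, if_neg h2, if_neg h3, mul_one]

lemma triv_bot : triv K ⊥ = 0 := if_pos rfl

lemma triv_ne {𝔞 : Ideal (𝓞 K)} (h : 𝔞 ≠ ⊥) : triv K 𝔞 = 1 := if_neg h

lemma pr_triv (χ : Ideal (𝓞 K) →*₀ ℂ) : pr (triv K) χ = χ := by
  refine DFunLike.ext _ _ fun 𝔞 => ?_
  have h1 : pr (triv K) χ 𝔞 = triv K 𝔞 * χ 𝔞 := rfl
  rw [h1]
  by_cases h : 𝔞 = ⊥
  · have h2 : (⊥ : Ideal (𝓞 K)) = 0 := rfl
    rw [h, triv_bot, zero_mul, h2, map_zero]
  · rw [triv_ne h, one_mul]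

lemma base_triv [IsTotallyReal K] (S : RQ K) : Base S (⊤ : Ideal (𝓞 K)) 0 (triv K) where
  ne_bot := by
    rw [← Ideal.one_eq_top]
    exact one_ne_zero
  le_one := by norm_num
  supp 𝔞 h := by
    rw [triv_ne h]
    refine ⟨fun _ => ?_, fun _ => one_ne_zero⟩
    rw [← Ideal.one_eq_top]
    exact isCoprime_one_right
  sig x hx _ := by
    have h1 : Ideal.span {x} ≠ ⊥ := by
      rw [Ne, Ideal.span_singleton_eq_bot]
      exact hx
    rw [triv_ne h1]
    unfold sg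
    simp
  prim 𝔤 h1 h2 := by
    exfalso
    apply h2
    rw [← Ideal.one_eq_top] at h1 ⊢
    exact Ideal.isUnit_iff.mp (isUnit_of_dvd_one h1) ▸ Ideal.one_eq_top.symm
  self 𝔞 := by
    by_cases h : 𝔞 = ⊥
    · have h1 : S.cj ⊥ = ⊥ := by
        unfold RQ.cj
        exact Ideal.map_bot
      rw [h, h1, triv_bot, map_zero]
    · have h1 : S.cj 𝔞 ≠ ⊥ := by
        intro h2
        have h3 := (a_conj K S).2.1 𝔞
        rw [h2] at h3
        apply h
        rw [← h3]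
        unfold RQ.cj
        exact Ideal.map_bot
      rw [triv_ne h, triv_ne h1, map_one]

end Pool.Agent.NH12.RS
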