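import Pool.Agent.NH12.RS.Root

/-! # Tools for the moments -/

set_option autoImplicit false
set_option linter.unusedSectionVars false

open NumberField Complex Finset

namespace Pool.Agent.NH12.RS

open Pool.Agent.Y773 (TPos IsPrimChar IsModChar LI sg)

/-- a dyadic decomposition -/
lemma dyadic {ι : Type} (T : Finset ι) (f : ι → ℕ) (h1 : ∀ t ∈ T, 1 ≤ f t) {M B E : ℝ}
    (hB : 0 ≤ B) (hE : 0 ≤ E) (hT : ∀ t ∈ T, (f t : ℝ) ≤ M)
    (hc : ∀ Y : ℝ, 1 ≤ Y → ((T.filter fun t => (f t : ℝ) ≤ Y).card : ℝ) ≤ B * Y + E * Real.sqrt Y) :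
    ∑ t ∈ T, (f t : ℝ) ^ (-(1 / 2) : ℝ) ≤
      ((Nat.log 2 ⌊M⌋₊ : ℝ) + 1) * (2 * B * Real.sqrt M + 2 * E) := by
  classical
  set Kk := Nat.log 2 ⌊M⌋₊ with hK
  have hmap : ∀ t ∈ T, Nat.log 2 (f t) ∈ Finset.range (Kk + 1) := by
    intro t ht
    rw [Finset.mem_range]
    have : f t ≤ ⌊M⌋₊ := Nat.le_floor (hT t ht)
    exact Nat.lt_succ_of_le (Nat.log_mono_right this)
  rw [← Finset.sum_fiberwise_of_maps_to hmap]
  have hk : ∀ k ∈ Finset.range (Kk + 1), ∑ t ∈ T with Nat.log 2 (f t) = k,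
      (f t : ℝ) ^ (-(1 / 2) : ℝ) ≤ 2 * B * Real.sqrt M + 2 * E := by
    intro k _
    rcases Finset.eq_empty_or_nonempty (T.filter fun t => Nat.log 2 (f t) = k) with h0 | ⟨t₀, ht₀⟩
    · rw [h0, Finset.sum_empty]
      positivity
    · rw [Finset.mem_filter] at ht₀
      have h2 : (2 : ℝ) ^ k ≤ M := by
        have h3 : 2 ^ k ≤ f t₀ := by
          rw [← ht₀.2]
          exact Nat.pow_log_le_self 2 (by have := h1 t₀ ht₀.1; omega)
        calc (2 : ℝ) ^ k = ((2 ^ k : ℕ) : ℝ) := by push_cast; rfl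
          _ ≤ (f t₀ : ℝ) := by exact_mod_cast h3
          _ ≤ M := hT t₀ ht₀.1
      have hx0 : (0 : ℝ) < 2 ^ k := by positivity
      set x : ℝ := 2 ^ k with hx
      have h4 : ∑ t ∈ T with Nat.log 2 (f t) = k, (f t : ℝ) ^ (-(1 / 2) : ℝ) ≤
          ∑ t ∈ T with Nat.log 2 (f t) = k, x ^ (-(1 / 2) : ℝ) := by
        refine Finset.sum_le_sum fun t ht => ?_
        rw [Finset.mem_filter] at ht
        have h3 : 2 ^ k ≤ f t := by
          rw [← ht.2]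
          exact Nat.pow_log_le_self 2 (by have := h1 t ht.1; omega)
        have h5 : x ≤ (f t : ℝ) := by
          calc x = ((2 ^ k : ℕ) : ℝ) := by rw [hx]; push_cast; rfl
            _ ≤ (f t : ℝ) := by exact_mod_cast h3
        exact Real.rpow_le_rpow_of_nonpos hx0 h5 (by norm_num)
      refine h4.trans ?_
      rw [Finset.sum_const, nsmul_eq_mul]
      have h6 : ((T.filter fun t => Nat.log 2 (f t) = k).card : ℝ) ≤
          B * (2 * x) + E * Real.sqrt (2 * x) := by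
        have hx1 : 1 ≤ 2 * x := by
          have : (1 : ℝ) ≤ x := one_le_pow₀ (by norm_num)
          linarith
        refine le_trans ?_ (hc (2 * x) hx1)
        have hsub : (T.filter fun t => Nat.log 2 (f t) = k) ⊆
            T.filter fun t => (f t : ℝ) ≤ 2 * x := by
          intro t ht
          rw [Finset.mem_filter] at ht ⊢
          refine ⟨ht.1, ?_⟩
          have h3 : f t < 2 ^ (k + 1) := by
            rw [← ht.2]
            exact Nat.lt_pow_succ_log_self (by norm_num) _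
          have h5 : (f t : ℝ) < ((2 ^ (k + 1) : ℕ) : ℝ) := by exact_mod_cast h3
          rw [hx]
          push_cast at h5
          rw [pow_succ] at h5
          linarith
        exact_mod_cast Finset.card_le_card hsub
      have h7 : x ^ (-(1 / 2) : ℝ) = (Real.sqrt x)⁻¹ := by
        rw [Real.rpow_neg hx0.le, Real.sqrt_eq_rpow]
      rw [h7]
      have hs : 0 < Real.sqrt x := Real.sqrt_pos.2 hx0
      have hss : Real.sqrt x * Real.sqrt x = x := Real.mul_self_sqrt hx0.le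
      have h8 : Real.sqrt (2 * x) ≤ 2 * Real.sqrt x := by
        rw [Real.sqrt_mul (by norm_num)]
        have : Real.sqrt 2 ≤ 2 := by
          rw [Real.sqrt_le_left (by norm_num)]
          norm_num
        gcongr
      calc ((T.filter fun t => Nat.log 2 (f t) = k).card : ℝ) * (Real.sqrt x)⁻¹ ≤
            (B * (2 * x) + E * (2 * Real.sqrt x)) * (Real.sqrt x)⁻¹ := by
              gcongr
              refine h6.trans ?_
              gcongr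
        _ = 2 * B * Real.sqrt x + 2 * E := by
              field_simp
              nlinarith
        _ ≤ 2 * B * Real.sqrt M + 2 * E := by
              have := Real.sqrt_le_sqrt h2
              gcongr
  refine (Finset.sum_le_sum hk).trans ?_
  rw [Finset.sum_const, Finset.card_range, nsmul_eq_mul]
  push_cast
  exact le_rfl

variable {K : Type} [Field K] [NumberField K]

/-- the weighted norm -/
noncomputable def gg (v : ℝ → ℝ) (X : ℝ) (𝔞 : Ideal (𝓞 K)) : ℝ :=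
  (Ideal.absNorm 𝔞 : ℝ) ^ (-(1 / 2) : ℝ) * v ((Ideal.absNorm 𝔞 : ℝ) / X)

lemma AA_eq (v : ℝ → ℝ) (X : ℝ) (ψ : Ideal (𝓞 K) →*₀ ℂ) :
    AA v X ψ = ∑' 𝔞 : Ideal (𝓞 K), ψ 𝔞 * ((gg v X 𝔞 : ℝ) : ℂ) := rfl

lemma one_le_norm {𝔞 : Ideal (𝓞 K)} (h : 𝔞 ≠ ⊥) : (1 : ℝ) ≤ (Ideal.absNorm 𝔞 : ℝ) := by
  have : Ideal.absNorm 𝔞 ≠ 0 := fun h1 => h (Ideal.absNorm_eq_zero_iff.mp h1)
  exact_mod_cast Nat.one_le_iff_ne_zero.mpr this

lemma gg_bot (v : ℝ → ℝ) (X : ℝ) : gg v X (⊥ : Ideal (𝓞 K)) = 0 := by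
  unfold gg
  rw [Ideal.absNorm_bot, Nat.cast_zero, Real.zero_rpow (by norm_num), zero_mul]

lemma gg_nonneg {v : ℝ → ℝ} (hv : Wt v) {X : ℝ} (hX : 0 < X) (𝔞 : Ideal (𝓞 K)) :
    0 ≤ gg v X 𝔞 := by
  rcases eq_or_ne 𝔞 ⊥ with rfl | h
  · rw [gg_bot]
  · have h1 := one_le_norm h
    unfold gg
    have := hv.pos ((Ideal.absNorm 𝔞 : ℝ) / X) (by positivity)
    positivity

lemma v_bd {v : ℝ → ℝ} (hv : Wt v) (A : ℕ) {y₀ : ℝ} (hy : 0 < y₀) :
    ∃ C : ℝ, 0 < C ∧ ∀ y, y₀ ≤ y → v y * y ^ A ≤ C := by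
  obtain ⟨C, hC⟩ := hv.decay A
  refine ⟨|C| + v y₀, by have := hv.pos y₀ hy; positivity, fun y h => ?_⟩
  have hy0 : 0 < y := by linarith
  have h0 := hv.pos y₀ hy
  rcases le_or_gt 1 y with h1 | h1
  · have := hC y h1
    have := le_abs_self C
    linarith
  · have h2 : y ^ A ≤ 1 := pow_le_one₀ hy0.le h1.le
    have h3 := hv.anti y₀ y hy h
    have h4 := hv.pos y hy0
    have h5 : v y * y ^ A ≤ v y * 1 := by gcongr
    have := abs_nonneg C
    linarith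

lemma gg_le {v : ℝ → ℝ} (hv : Wt v) {ρ : ℝ} (hρ : 0 < ρ) : ∃ C : ℝ, 0 < C ∧ ∀ q : ℝ, 2 ≤ q →
    ∀ 𝔞 : Ideal (𝓞 K), 𝔞 ≠ ⊥ →
      gg v (ρ * q) 𝔞 ≤ C * (1 + Real.log q) * (Ideal.absNorm 𝔞 : ℝ) ^ (-(1 / 2) : ℝ) := by
  obtain ⟨C, hC⟩ := hv.small
  have h1 := hv.pos 1 one_pos
  refine ⟨|C| * (1 + |Real.log ρ|) + v 1, by positivity, fun q hq 𝔞 h𝔞 => ?_⟩
  have hN := one_le_norm h𝔞
  have hq0 : 0 < q := by linarith
  have hlog : 0 ≤ Real.log q := Real.log_nonneg (by linarith)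
  unfold gg
  rw [mul_comm]
  have hNr : (0 : ℝ) ≤ (Ideal.absNorm 𝔞 : ℝ) ^ (-(1 / 2) : ℝ) := by positivity
  refine mul_le_mul_of_nonneg_right ?_ hNr
  set y : ℝ := (Ideal.absNorm 𝔞 : ℝ) / (ρ * q) with hy
  have hy0 : 0 < y := by positivity
  rcases le_or_gt y 1 with h2 | h2
  · have h3 := hC y hy0 h2
    have h4 : |Real.log y| ≤ |Real.log ρ| + Real.log q := by
      have h5 : Real.log y ≤ 0 := Real.log_nonpos hy0.le h2
      rw [abs_of_nonpos h5, hy, Real.log_div (by positivity) (by positivity),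
        Real.log_mul hρ.ne' hq0.ne']
      have := Real.log_nonneg hN
      have := le_abs_self (Real.log ρ)
      linarith
    have h5 : C * (1 + |Real.log y|) ≤ |C| * (1 + (|Real.log ρ| + Real.log q)) := by
      have := le_abs_self C
      have h6 : 0 ≤ |Real.log y| := abs_nonneg _
      nlinarith [abs_nonneg C]
    have h6 : |C| * (1 + (|Real.log ρ| + Real.log q)) ≤
        (|C| * (1 + |Real.log ρ|) + v 1) * (1 + Real.log q) := by
      have h7 := abs_nonneg C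
      have h8 := abs_nonneg (Real.log ρ)
      nlinarith [mul_nonneg (mul_nonneg h7 h8) hlog, mul_nonneg h1.le hlog]
    linarith
  · have h3 := hv.anti 1 y one_pos h2.le
    have h7 := abs_nonneg C
    have h8 := abs_nonneg (Real.log ρ)
    have h9 : v 1 ≤ (|C| * (1 + |Real.log ρ|) + v 1) * (1 + Real.log q) := by
      have : 0 ≤ |C| * (1 + |Real.log ρ|) := by positivity
      nlinarith [mul_nonneg this hlog, mul_nonneg h1.le hlog]
    linarith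

lemma gg_tail {v : ℝ → ℝ} (hv : Wt v) {ρ : ℝ} (hρ : 0 < ρ) {η : ℝ} (hη : 0 < η) :
    ∃ C : ℝ, 0 < C ∧ ∀ q : ℝ, 2 ≤ q → ∀ 𝔞 : Ideal (𝓞 K), q ^ (1 + η) < (Ideal.absNorm 𝔞 : ℝ) →
      gg v (ρ * q) 𝔞 ≤ C * q⁻¹ * (Ideal.absNorm 𝔞 : ℝ) ^ (-(3 / 2) : ℝ) := by
  obtain ⟨A, hA⟩ := exists_nat_gt (1 + 2 / η)
  obtain ⟨C, hC0, hC⟩ := v_bd hv A (y₀ := 1 / ρ) (by positivity)
  refine ⟨C * ρ ^ A, by positivity, fun q hq 𝔞 h𝔞 => ?_⟩
  have hq0 : 0 < q := by linarith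
  have hq1 : 1 ≤ q := by linarith
  set N : ℝ := (Ideal.absNorm 𝔞 : ℝ) with hN
  have h1 : q ≤ q ^ (1 + η) := by
    calc q = q ^ (1 : ℝ) := (Real.rpow_one q).symm
      _ ≤ q ^ (1 + η) := Real.rpow_le_rpow_of_exponent_le hq1 (by linarith)
  have hN0 : 0 < N := by linarith
  have hNq : q ≤ N := by linarith
  unfold gg
  rw [← hN]
  have h2 := hC (N / (ρ * q)) (by
    rw [div_le_div_iff₀ hρ (by positivity)]
    nlinarith)
  have h3 : v (N / (ρ * q)) ≤ C * (ρ * q / N) ^ A := by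
    have h4 : (0 : ℝ) < (N / (ρ * q)) ^ A := by positivity
    have h5 : (ρ * q / N) ^ A = ((N / (ρ * q)) ^ A)⁻¹ := by
      rw [← inv_pow, inv_div]
    rw [h5, ← div_eq_mul_inv, le_div_iff₀ h4]
    exact h2
  have h4 : N ^ (-(1 / 2) : ℝ) * (q / N) ^ A ≤ q⁻¹ * N ^ (-(3 / 2) : ℝ) := by
    have h5 : (q / N) ^ A = q ^ (A : ℝ) * N ^ (-(A : ℝ)) := by
      rw [div_pow, Real.rpow_neg hN0.le, Real.rpow_natCast, Real.rpow_natCast, div_eq_mul_inv]
    have h6 : N ^ (-(1 / 2) : ℝ) * (q ^ (A : ℝ) * N ^ (-(A : ℝ))) =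
        q ^ (A : ℝ) * (N ^ (-(3 / 2) : ℝ) * N ^ (1 - (A : ℝ))) := by
      rw [← Real.rpow_add hN0]
      have : N ^ (-(1 / 2) : ℝ) * (q ^ (A : ℝ) * N ^ (-(A : ℝ))) =
          q ^ (A : ℝ) * (N ^ (-(1 / 2) : ℝ) * N ^ (-(A : ℝ))) := by ring
      rw [this, ← Real.rpow_add hN0]
      congr 2
      ring
    rw [h5, h6]
    have h7 : N ^ (1 - (A : ℝ)) ≤ (q ^ (1 + η)) ^ (1 - (A : ℝ)) := by
      refine Real.rpow_le_rpow_of_nonpos (by positivity) h𝔞.le ?_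
      have : 0 < 2 / η := by positivity
      linarith
    rw [← Real.rpow_mul hq0.le] at h7
    have h8 : q ^ (A : ℝ) * q ^ ((1 + η) * (1 - (A : ℝ))) ≤ q⁻¹ := by
      rw [← Real.rpow_add hq0, ← Real.rpow_neg_one]
      refine Real.rpow_le_rpow_of_exponent_le hq1 ?_
      have h9 : 2 < η * (A - 1) := by
        have h10 : 2 / η < A - 1 := by linarith
        rw [div_lt_iff₀ hη] at h10
        linarith
      nlinarith
    have h9 : 0 ≤ N ^ (-(3 / 2) : ℝ) := by positivity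
    calc q ^ (A : ℝ) * (N ^ (-(3 / 2) : ℝ) * N ^ (1 - (A : ℝ)))
        = N ^ (-(3 / 2) : ℝ) * (q ^ (A : ℝ) * N ^ (1 - (A : ℝ))) := by ring
      _ ≤ N ^ (-(3 / 2) : ℝ) * (q ^ (A : ℝ) * q ^ ((1 + η) * (1 - (A : ℝ)))) := by gcongr
      _ ≤ N ^ (-(3 / 2) : ℝ) * q⁻¹ := by gcongr
      _ = _ := by ring
  calc N ^ (-(1 / 2) : ℝ) * v (N / (ρ * q)) ≤ N ^ (-(1 / 2) : ℝ) * (C * (ρ * q / N) ^ A) := by
        gcongr
    _ = C * ρ ^ A * (N ^ (-(1 / 2) : ℝ) * (q / N) ^ A) := by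
        rw [mul_div_assoc, mul_pow]
        ring
    _ ≤ C * ρ ^ A * (q⁻¹ * N ^ (-(3 / 2) : ℝ)) := by gcongr
    _ = _ := by ring

lemma gg_summable {v : ℝ → ℝ} (hv : Wt v) {X : ℝ} (hX : 0 < X) :
    Summable (gg v X : Ideal (𝓞 K) → ℝ) := by
  obtain ⟨C, hC0, hC⟩ := v_bd hv 1 (y₀ := 1 / X) (by positivity)
  have h1 := (Pool.Agent.Y772.DK.nr_summable (K := K) (σ := 3 / 2) (by norm_num)).mul_left (C * X)
  refine Summable.of_nonneg_of_le (fun 𝔞 => gg_nonneg hv hX 𝔞) (fun 𝔞 => ?_) h1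
  rcases eq_or_ne 𝔞 ⊥ with rfl | h
  · rw [gg_bot]
    have := Pool.Agent.Y772.DK.nr_nonneg (K := K) (3 / 2) ⊥
    positivity
  · have hN := one_le_norm h
    have hN0 : (0 : ℝ) < (Ideal.absNorm 𝔞 : ℝ) := by linarith
    unfold gg Pool.Agent.Y772.DK.nr
    have h2 := hC ((Ideal.absNorm 𝔞 : ℝ) / X) (by gcongr)
    rw [pow_one] at h2
    have h3 : v ((Ideal.absNorm 𝔞 : ℝ) / X) ≤ C * X * (Ideal.absNorm 𝔞 : ℝ)⁻¹ := by
      rw [mul_div_assoc', div_le_iff₀ hX] at h2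
      rw [← div_eq_mul_inv, le_div_iff₀ hN0]
      exact h2
    calc (Ideal.absNorm 𝔞 : ℝ) ^ (-(1 / 2) : ℝ) * v ((Ideal.absNorm 𝔞 : ℝ) / X)
        ≤ (Ideal.absNorm 𝔞 : ℝ) ^ (-(1 / 2) : ℝ) * (C * X * (Ideal.absNorm 𝔞 : ℝ)⁻¹) := by gcongr
      _ = C * X * ((Ideal.absNorm 𝔞 : ℝ) ^ (-(1 / 2) : ℝ) * (Ideal.absNorm 𝔞 : ℝ) ^ (-1 : ℝ)) := by
          rw [Real.rpow_neg_one]
          ring
      _ = C * X * (Ideal.absNorm 𝔞 : ℝ) ^ (-(3 / 2) : ℝ) := by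
          rw [← Real.rpow_add hN0]
          norm_num
      _ ≤ _ := le_rfl

/-- a ring class character as a ray class character -/
lemma rc_mod [IsTotallyReal K] {q : ℕ} (hq : 2 ≤ q) {χ : Ideal (𝓞 K) →*₀ ℂ} (h : IsRC q χ) :
    IsModChar (Ideal.span {(q : 𝓞 K)}) (fun _ => 0) χ where
  ne_bot := by
    rw [Ne, Ideal.span_singleton_eq_bot]
    exact_mod_cast (by omega : q ≠ 0)
  ne_top := by
    intro h1
    have h2 := absNorm_nat (K := K) q
    rw [h1, Ideal.absNorm_top] at h2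
    have h4 : 1 < q ^ Module.finrank ℤ (𝓞 K) := Nat.one_lt_pow rank_pos.ne' (by omega)
    omega
  sig_le := fun _ => by norm_num
  supp := h.supp
  sig := by
    intro x _ hx
    have h1 : Zd q x := ⟨1, by
      rw [Ideal.mem_span_singleton] at hx
      simpa using hx⟩
    have h2 : Cop q (Ideal.span {x}) := by
      unfold Cop
      rw [Ideal.isCoprime_span_singleton_iff]
      obtain ⟨y, hy⟩ := Ideal.mem_span_singleton'.mp hx
      exact ⟨1, -y, by linear_combination -hy⟩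
    rw [h.one x h1 h2]
    unfold sg
    simp

lemma rc_norm [IsTotallyReal K] {q : ℕ} (hq : 2 ≤ q) {χ : Ideal (𝓞 K) →*₀ ℂ} (h : IsRC q χ)
    (𝔞 : Ideal (𝓞 K)) : ‖χ 𝔞‖ ≤ 1 := (rc_mod hq h).norm_le_one 𝔞

/-- the conjugate of a ring class character -/
lemma rc_conj [IsTotallyReal K] (hc : S_conj) (S : RQ K) {q : ℕ} (hq : 2 ≤ q)
    {χ : Ideal (𝓞 K) →*₀ ℂ} (h : IsRC q χ) (𝔞 : Ideal (𝓞 K)) :
    χ (S.cj 𝔞) = (starRingEnd ℂ) (χ 𝔞) := by
  obtain ⟨hmul, hcc, hN, hsp, hnorm⟩ := hc K S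
  have hcop : ∀ 𝔞, Cop q 𝔞 → Cop q (S.cj 𝔞) := by
    intro 𝔞 h1
    unfold Cop at h1 ⊢
    have h2 : IsCoprime (S.cj 𝔞) (S.cj (Ideal.span {(q : 𝓞 K)})) := by
      rw [Ideal.isCoprime_iff_add] at h1 ⊢
      have h3 : S.cj (𝔞 + Ideal.span {(q : 𝓞 K)}) = S.cj 𝔞 + S.cj (Ideal.span {(q : 𝓞 K)}) := by
        unfold RQ.cj
        exact Ideal.map_sup _ _ _
      rw [← h3, h1]
      unfold RQ.cj
      rw [Ideal.one_eq_top, Ideal.map_top]
    rwa [hsp, map_natCast] at h2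
  by_cases h1 : Cop q 𝔞
  · have h2 : χ 𝔞 * χ (S.cj 𝔞) = 1 := by
      rw [← map_mul, hnorm]
      refine h.one _ ⟨Ideal.absNorm 𝔞, by simp⟩ ?_
      rw [← hnorm]
      exact IsCoprime.mul_left h1 (hcop 𝔞 h1)
    have h3 : ‖χ 𝔞‖ = 1 := (rc_mod hq h).norm_eq_one h1
    have h4 : χ 𝔞 * (starRingEnd ℂ) (χ 𝔞) = 1 := by
      rw [Complex.mul_conj, Complex.normSq_eq_norm_sq, h3]
      norm_num
    have h5 : χ 𝔞 ≠ 0 := (h.supp 𝔞).mpr h1
    exact mul_left_cancel₀ h5 (h2.trans h4.symm)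
  · have h2 : χ 𝔞 = 0 := by
      by_contra h3
      exact h1 ((h.supp 𝔞).mp h3)
    have h3 : χ (S.cj 𝔞) = 0 := by
      by_contra h3
      have h4 := hcop _ ((h.supp _).mp h3)
      rw [hcc] at h4
      exact h1 h4
    rw [h2, h3, map_zero]

end Pool.Agent.NH12.RS
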