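import Pool.Agent.NH12.RS.Diag
import Pool.Agent.NH12.RS.Fe

/-! # The functional equation of `ψ₀ χ` -/

set_option autoImplicit false
set_option linter.unusedSectionVars false

open NumberField Complex Filter Topology Set MeasureTheory

namespace Pool.Agent.NH12.RS

open Pool.Agent.Y773 (TPos IsPrimChar IsModChar LI sg Ps FT)

lemma conj_ofReal_cpow {x : ℝ} (hx : 0 ≤ x) (z : ℂ) :
    (starRingEnd ℂ) ((x : ℂ) ^ ((starRingEnd ℂ) z)) = (x : ℂ) ^ z := by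
  have h7 : ((x : ℝ) : ℂ).arg ≠ Real.pi := by
    rw [Complex.arg_ofReal_of_nonneg hx]
    exact Real.pi_ne_zero.symm
  have h8 := Complex.conj_cpow (x : ℂ) z h7
  rw [Complex.conj_ofReal] at h8
  exact h8.symm

lemma conj_gammaR (z : ℂ) : (starRingEnd ℂ) (Complex.Gammaℝ ((starRingEnd ℂ) z)) =
    Complex.Gammaℝ z := by
  rw [Complex.Gammaℝ_def, Complex.Gammaℝ_def, map_mul]
  have h2 : (starRingEnd ℂ) (2 : ℂ) = 2 := map_ofNat (starRingEnd ℂ) 2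
  have h3 : -(starRingEnd ℂ) z / 2 = (starRingEnd ℂ) (-z / 2) := by
    rw [map_div₀, map_neg, h2]
  have h4 : (starRingEnd ℂ) z / 2 = (starRingEnd ℂ) (z / 2) := by
    rw [map_div₀, h2]
  rw [h3, h4, conj_ofReal_cpow Real.pi_pos.le, Complex.Gamma_conj, Complex.conj_conj]

lemma diff_conj_conj {f : ℂ → ℂ} (hf : Differentiable ℂ f) :
    Differentiable ℂ fun s => (starRingEnd ℂ) (f ((starRingEnd ℂ) s)) := by
  intro s
  have h := (hf ((starRingEnd ℂ) s)).conj_conj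
  rw [Complex.conj_conj] at h
  exact h

variable {K : Type} [Field K] [NumberField K]

/-- the conjugation is a bijection of the ideals -/
noncomputable def cjEquiv (hc : S_conj) (S : RQ K) : Ideal (𝓞 K) ≃ Ideal (𝓞 K) where
  toFun := S.cj
  invFun := S.cj
  left_inv := (hc K S).2.1
  right_inv := (hc K S).2.1

lemma LI_self (hc : S_conj) (S : RQ K) {ψ : Ideal (𝓞 K) →*₀ ℂ}
    (hs : ∀ 𝔞, ψ (S.cj 𝔞) = (starRingEnd ℂ) (ψ 𝔞)) (s : ℂ) :
    (starRingEnd ℂ) (LI ψ ((starRingEnd ℂ) s)) = LI ψ s := by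
  unfold LI
  rw [Complex.conj_tsum]
  rw [← (cjEquiv hc S).tsum_eq]
  refine tsum_congr fun 𝔞 => ?_
  have h1 : (cjEquiv hc S) 𝔞 = S.cj 𝔞 := rfl
  rw [h1, hs, map_mul, Complex.conj_conj, (hc K S).2.2.1]
  congr 1
  have h2 : -(starRingEnd ℂ) s = (starRingEnd ℂ) (-s) := by rw [map_neg]
  have h3 : ((Ideal.absNorm 𝔞 : ℕ) : ℂ) = (((Ideal.absNorm 𝔞 : ℕ) : ℝ) : ℂ) := by push_cast; rfl
  rw [h2, h3, conj_ofReal_cpow (Nat.cast_nonneg _)]

lemma X_self (hc : S_conj) (S : RQ K) {ψ : Ideal (𝓞 K) →*₀ ℂ} {R : ℝ} {a : ℕ} {X : ℂ → ℂ}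
    (hX : Cx R a ψ X) (hs : ∀ 𝔞, ψ (S.cj 𝔞) = (starRingEnd ℂ) (ψ 𝔞)) (s : ℂ) :
    (starRingEnd ℂ) (X ((starRingEnd ℂ) s)) = X s := by
  have h1 : (fun s => (starRingEnd ℂ) (X ((starRingEnd ℂ) s))) = X := by
    refine Pool.Agent.Y773.entire_eq (diff_conj_conj hX.diff) hX.diff ?_
    intro s hs1
    have h2 : 1 < ((starRingEnd ℂ) s).re := by rwa [Complex.conj_re]
    rw [hX.eq _ h2, hX.eq s hs1, map_mul, map_mul, map_pow, LI_self hc S hs]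
    have h20 : (starRingEnd ℂ) (2 : ℂ) = 2 := map_ofNat (starRingEnd ℂ) 2
    have h3 : (starRingEnd ℂ) s / 2 = (starRingEnd ℂ) (s / 2) := by
      rw [map_div₀, h20]
    have h4 : (starRingEnd ℂ) s + a = (starRingEnd ℂ) (s + a) := by
      rw [map_add, Complex.conj_natCast]
    rw [h3, h4, conj_ofReal_cpow (by linarith [hX.one_le]), conj_gammaR]
  exact congrFun h1 s

theorem t_root (hc : S_conj) (hm : S_mod) (hg : S_gauss) (hf : S_fe) : S_root := by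
  intro K _ _ _ S 𝔣₀ a ψ₀ hB h2
  classical
  obtain ⟨C₁, N₁, hN₁, hC₁, hG⟩ := hg K S 𝔣₀ a ψ₀ hB h2
  obtain ⟨V, hV, hF⟩ := hf K h2
  have h𝔡 : differentIdeal ℤ (𝓞 K) ≠ ⊥ := differentIdeal_ne_bot
  have hNf : 0 < Ideal.absNorm 𝔣₀ :=
    Nat.pos_of_ne_zero fun h1 => hB.ne_bot (Ideal.absNorm_eq_zero_iff.mp h1)
  have hNd : 0 < Ideal.absNorm (differentIdeal ℤ (𝓞 K)) :=
    Nat.pos_of_ne_zero fun h1 => h𝔡 (Ideal.absNorm_eq_zero_iff.mp h1)
  set C₂ : ℂ := (-1) ^ a * V * C₁ / (Real.sqrt (Ideal.absNorm 𝔣₀) : ℂ) with hC₂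
  refine ⟨if 𝔣₀ = ⊤ ∧ a = 0 then 1 else C₂,
    N₁ * Ideal.absNorm 𝔣₀ * Ideal.absNorm (differentIdeal ℤ (𝓞 K)), by positivity, ?_, ?_⟩
  · intro h3 h4
    rw [if_pos ⟨h3, h4⟩]
  intro q χ hq hco hχ
  have hco1 : Nat.Coprime q N₁ := Nat.Coprime.coprime_dvd_right
    (Dvd.intro _ (by ring : N₁ * (Ideal.absNorm 𝔣₀ * Ideal.absNorm (differentIdeal ℤ (𝓞 K))) = _)) hco
  have hco2 : Nat.Coprime q (Ideal.absNorm 𝔣₀) := Nat.Coprime.coprime_dvd_right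
    (Dvd.intro _ (by ring : Ideal.absNorm 𝔣₀ * (N₁ * Ideal.absNorm (differentIdeal ℤ (𝓞 K))) = _)) hco
  have hco3 : Nat.Coprime q (Ideal.absNorm (differentIdeal ℤ (𝓞 K))) :=
    Nat.Coprime.coprime_dvd_right (Dvd.intro_left _ rfl) hco
  obtain ⟨hp, hmo, hself, hχ2, hψ2⟩ := hm K S 𝔣₀ a ψ₀ hB q χ hq hco2 hco3 hχ
  refine ⟨hmo.norm_le_one, hχ2, hψ2, ?_⟩
  obtain ⟨X, hX, hfe⟩ := hF _ a _ hB.le_one hp hmo
  have hN : Ideal.absNorm (𝔣₀ * Ideal.span {(q : 𝓞 K)}) = Ideal.absNorm 𝔣₀ * q ^ 2 := by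
    rw [map_mul, absNorm_nat, RingOfIntegers.rank K, h2]
  rw [hN] at hX
  refine ⟨X, hX, ?_⟩
  obtain ⟨τ, hτ⟩ := Pool.Agent.Y773.t_gauss K _ _ _ hp hmo
  have hτ' : GP (𝔣₀ * Ideal.span {(q : 𝓞 K)}) a (pr ψ₀ χ) τ := hτ
  have hτ1 := hG q χ hq hco1 hχ τ hτ'
  have hq0 : (q : ℝ) ≠ 0 := by
    have : q ≠ 0 := by omega
    exact_mod_cast this
  have hqc : (q : ℂ) ≠ 0 := by exact_mod_cast hq0
  have hw : (-1 : ℂ) ^ a * V * τ / (Real.sqrt (Ideal.absNorm (𝔣₀ * Ideal.span {(q : 𝓞 K)})) : ℂ) =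
      C₂ * ψ₀ (Ideal.span {(q : 𝓞 K)}) * χ 𝔣₀ := by
    rw [hN, hτ1]
    have h3 : Real.sqrt ((Ideal.absNorm 𝔣₀ * q ^ 2 : ℕ) : ℝ) = Real.sqrt (Ideal.absNorm 𝔣₀) * q := by
      push_cast
      rw [Real.sqrt_mul (by positivity), Real.sqrt_sq (by positivity)]
    rw [h3, hC₂]
    have h4 : (Real.sqrt (Ideal.absNorm 𝔣₀) : ℂ) ≠ 0 := by
      exact_mod_cast (Real.sqrt_pos.2 (by exact_mod_cast hNf)).ne'
    push_cast
    field_simp
  have hfe1 : ∀ s : ℂ, X (1 - s) = (C₂ * ψ₀ (Ideal.span {(q : 𝓞 K)}) * χ 𝔣₀) * X s := by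
    intro s
    have h3 := hfe τ hτ' (1 - s)
    rw [hw, map_sub, map_one, sub_sub_cancel, X_self hc S hX hself] at h3
    exact h3
  -- the case of the trivial character
  have hC : (if 𝔣₀ = ⊤ ∧ a = 0 then 1 else C₂) * ψ₀ (Ideal.span {(q : 𝓞 K)}) * χ 𝔣₀ =
      C₂ * ψ₀ (Ideal.span {(q : 𝓞 K)}) * χ 𝔣₀ := by
    split_ifs with h3
    · obtain ⟨h3, h4⟩ := h3
      have h5 : C₂ = V := by
        rw [hC₂, hC₁ h3 h4, h3, h4, Ideal.absNorm_top]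
        simp
      have h6 : ψ₀ (Ideal.span {(q : 𝓞 K)}) = 1 := by
        rw [hB.sig (q : 𝓞 K) (by exact_mod_cast (by omega : q ≠ 0)) (by rw [h3]; trivial), h4]
        unfold sg
        simp
      have h7 : χ 𝔣₀ = 1 := by
        rw [h3, ← Ideal.one_eq_top, map_one]
      rw [h6, h7, h5] at hfe1 ⊢
      -- `V² = 1`
      obtain ⟨A', -, hd⟩ := Pool.Agent.Y772.DK.t_dirK K
      have h8 : LI (pr ψ₀ χ) 2 ≠ 0 := (hd _ hmo.norm_le_one).2.2.1 2 (by norm_num)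
      have h9 : X 2 ≠ 0 := by
        rw [hX.eq 2 (by norm_num)]
        refine mul_ne_zero (mul_ne_zero ?_ (pow_ne_zero _ ?_)) h8
        · rw [Ne, Complex.cpow_eq_zero_iff]
          intro h
          have := hX.one_le
          have h10 : ((Ideal.absNorm 𝔣₀ * q ^ 2 * Ideal.absNorm (differentIdeal ℤ (𝓞 K)) : ℕ) : ℝ) = 0 := by
            exact_mod_cast h.1
          linarith
        · refine Complex.Gammaℝ_ne_zero_of_re_pos ?_
          simp only [add_re, natCast_re]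
          norm_num
          positivity
      have h10 := hfe1 2
      have h11 := hfe1 (1 - 2)
      rw [sub_sub_cancel, h10] at h11
      have h12 : ((V : ℂ) * V) = 1 := by
        have : ((V : ℂ) * V) * X 2 = 1 * X 2 := by
          linear_combination -h11
        exact mul_right_cancel₀ h9 this
      have h13 : V * V = 1 := by exact_mod_cast h12
      have h14 : V = 1 := by nlinarith
      rw [h14]
      norm_num
    · rfl
  intro s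
  rw [hC]
  exact hfe1 s

end Pool.Agent.NH12.RS
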