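import Pool.Agent.NH12.RS.First2

/-! # The second moment: the sum over pairs of ideals -/

set_option autoImplicit false
set_option linter.unusedSectionVars false

open NumberField Complex Finset

namespace Pool.Agent.NH12.RS

variable {K : Type} [Field K] [NumberField K]

lemma absNorm_nat2 (h2 : Module.finrank ℚ K = 2) (m : ℕ) :
    Ideal.absNorm (Ideal.span {(m : 𝓞 K)}) = m ^ 2 := by
  rw [absNorm_nat, RingOfIntegers.rank K, h2]

lemma card_rat (h2 : Module.finrank ℚ K = 2) (T : Finset (Ideal (𝓞 K))) {Y : ℝ} (hY : 0 ≤ Y)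
    (h : ∀ 𝔠 ∈ T, Rat 𝔠 ∧ (Ideal.absNorm 𝔠 : ℝ) ≤ Y) : (T.card : ℝ) ≤ Real.sqrt Y := by
  classical
  have h1 : T ⊆ (Finset.Icc 1 ⌊Real.sqrt Y⌋₊).image fun c : ℕ => Ideal.span {(c : 𝓞 K)} := by
    intro 𝔠 h𝔠
    obtain ⟨⟨c, hc0, hc⟩, hN⟩ := h 𝔠 h𝔠
    rw [Finset.mem_image]
    refine ⟨c, ?_, hc.symm⟩
    rw [Finset.mem_Icc]
    refine ⟨hc0, Nat.le_floor ?_⟩
    rw [hc, absNorm_nat2 h2] at hN
    push_cast at hN
    exact Real.le_sqrt_of_sq_le hN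
  have h3 := Finset.card_le_card h1
  have h4 : ((Finset.Icc 1 ⌊Real.sqrt Y⌋₊).image fun c : ℕ => Ideal.span {(c : 𝓞 K)}).card ≤
      ⌊Real.sqrt Y⌋₊ := by
    refine Finset.card_image_le.trans ?_
    rw [Nat.card_Icc]
    omega
  calc (T.card : ℝ) ≤ (⌊Real.sqrt Y⌋₊ : ℝ) := by exact_mod_cast h3.trans h4
    _ ≤ Real.sqrt Y := Nat.floor_le (Real.sqrt_nonneg _)

/-- the ideals of norm at most `M` -/
noncomputable def Id (K : Type) [Field K] [NumberField K] (M : ℝ) : Finset (Ideal (𝓞 K)) :=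
  open Classical in
  ((Ideal.finite_setOf_absNorm_le (S := 𝓞 K) ⌊M⌋₊).subset
    (fun 𝔞 (h : 𝔞 ≠ ⊥ ∧ (Ideal.absNorm 𝔞 : ℝ) ≤ M) => Nat.le_floor h.2) :
    {𝔞 : Ideal (𝓞 K) | 𝔞 ≠ ⊥ ∧ (Ideal.absNorm 𝔞 : ℝ) ≤ M}.Finite).toFinset

lemma mem_Id {M : ℝ} {𝔞 : Ideal (𝓞 K)} :
    𝔞 ∈ Id K M ↔ 𝔞 ≠ ⊥ ∧ (Ideal.absNorm 𝔞 : ℝ) ≤ M := by
  unfold Id
  rw [Set.Finite.mem_toFinset]
  rfl

lemma log2_le {M : ℝ} (hM1 : 1 ≤ M) : (Nat.log 2 ⌊M⌋₊ : ℝ) ≤ 2 * Real.log M := by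
  have hfl : 1 ≤ ⌊M⌋₊ := Nat.le_floor (by exact_mod_cast hM1)
  have h5 : (2 : ℝ) ^ (Nat.log 2 ⌊M⌋₊) ≤ M := by
    have h6 : 2 ^ (Nat.log 2 ⌊M⌋₊) ≤ ⌊M⌋₊ := Nat.pow_log_le_self 2 (by omega)
    calc (2 : ℝ) ^ (Nat.log 2 ⌊M⌋₊) = ((2 ^ (Nat.log 2 ⌊M⌋₊) : ℕ) : ℝ) := by push_cast; rfl
      _ ≤ (⌊M⌋₊ : ℝ) := by exact_mod_cast h6
      _ ≤ M := Nat.floor_le (by linarith)
  have h6 := Real.log_le_log (by positivity) h5
  rw [Real.log_pow] at h6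
  have h7 := Real.log_two_gt_d9
  have h8 : (0 : ℝ) ≤ (Nat.log 2 ⌊M⌋₊ : ℝ) := Nat.cast_nonneg _
  nlinarith

open Classical in
/-- the sum over the ideals generated by elements of `ℤ + q 𝓞 K` -/
lemma pr_sum (S : RQ K) (h2 : Module.finrank ℚ K = 2) (hs2 : S_seq2) (hl : S_lat) {η : ℝ}
    (hη : 0 < η) : ∃ (C : ℝ) (n₀ : ℕ), 0 < C ∧ ∀ n q : ℕ, n₀ ≤ n → IsU S n q →
      ∑ 𝔠 ∈ (Id K (((q : ℝ) ^ (1 + η)) ^ 2)).filter (fun 𝔠 => Pr q 𝔠),
        (Ideal.absNorm 𝔠 : ℝ) ^ (-(1 / 2) : ℝ) ≤ C * (q : ℝ) ^ (3 * η) := by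
  obtain ⟨CL, nL, hCL, hL⟩ := hl K S
  obtain ⟨-, -, -, hM, -⟩ := hs2 K S
  obtain ⟨n₂, hn₂⟩ := hM 2
  obtain ⟨C₄, hC₄, hlog2⟩ := log_bd (η := η) hη (3 + 2 * η)
  obtain ⟨C₅, hC₅, hlog3⟩ := log_bd (η := η) hη (4 * (1 + η))
  refine ⟨C₅ * (2 * (CL * C₄) + 2 + 2 * (CL * C₄)), max nL n₂, by positivity, ?_⟩
  intro n q hn hq
  have hq2 : 2 ≤ q := hn₂ n q (le_trans (le_max_right _ _) hn) hq
  have hqr : (2 : ℝ) ≤ q := by exact_mod_cast hq2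
  have hq0 : (0 : ℝ) < q := by linarith
  have hq1 : (1 : ℝ) ≤ q := by linarith
  have hlogq : 0 ≤ Real.log q := Real.log_nonneg hq1
  set M : ℝ := (q : ℝ) ^ (1 + η) with hMdef
  have hM1 : 1 ≤ M := Real.one_le_rpow hq1 (by positivity)
  have hMM1 : 1 ≤ M ^ 2 := one_le_pow₀ hM1
  set T := (Id K (M ^ 2)).filter (fun 𝔠 => Pr q 𝔠) with hT
  set L : ℝ := 1 + Real.log (q * M ^ 2) with hLdef
  have hLq : 0 ≤ Real.log (q * M ^ 2) := Real.log_nonneg (by nlinarith)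
  have hL1 : 0 ≤ L := by linarith
  have hcount : ∀ Y : ℝ, 1 ≤ Y → ((T.filter fun 𝔞 => (Ideal.absNorm 𝔞 : ℝ) ≤ Y).card : ℝ) ≤
      CL * L / q * Y + (1 + CL * Real.sqrt q * L / q) * Real.sqrt Y := by
    have key : ∀ Y : ℝ, 1 ≤ Y → Y ≤ M ^ 2 →
        ((T.filter fun 𝔞 => (Ideal.absNorm 𝔞 : ℝ) ≤ Y).card : ℝ) ≤
        CL * L / q * Y + (1 + CL * Real.sqrt q * L / q) * Real.sqrt Y := by
      intro Y hY hYM
      obtain ⟨hf, hb⟩ := hL n q (le_trans (le_max_left _ _) hn) hq q dvd_rfl Y hY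
      set T' := T.filter fun 𝔞 => (Ideal.absNorm 𝔞 : ℝ) ≤ Y with hT'
      have e1 : T'.card = (T'.filter fun 𝔠 => Rat 𝔠).card + (T'.filter fun 𝔠 => ¬ Rat 𝔠).card :=
        (Finset.card_filter_add_card_filter_not _).symm
      have e2 : ((T'.filter fun 𝔠 => Rat 𝔠).card : ℝ) ≤ Real.sqrt Y := by
        refine card_rat h2 _ (by linarith) fun 𝔠 h𝔠 => ?_
        rw [Finset.mem_filter, hT', Finset.mem_filter] at h𝔠
        exact ⟨h𝔠.2, h𝔠.1.2⟩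
      have e3 : ((T'.filter fun 𝔠 => ¬ Rat 𝔠).card : ℝ) ≤
          CL * ((Y + Real.sqrt (q * Y)) / q) * (1 + Real.log (q * Y)) := by
        refine le_trans ?_ hb
        have h1 := card_mul_le (K := K) (𝔨 := ⊤) (by rw [← Ideal.one_eq_top]; exact one_ne_zero)
          (T'.filter fun 𝔠 => ¬ Rat 𝔠) hf (by
          intro 𝔞 h𝔞
          rw [Finset.mem_filter, hT', Finset.mem_filter, hT, Finset.mem_filter, mem_Id] at h𝔞
          rw [Ideal.top_mul]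
          exact ⟨h𝔞.1.1.1.1, h𝔞.1.1.2, h𝔞.2, h𝔞.1.2⟩)
        exact h1
      have h3 : 1 + Real.log (q * Y) ≤ L := by
        rw [hLdef]
        have : Real.log (q * Y) ≤ Real.log (q * M ^ 2) := by
          apply Real.log_le_log (by positivity)
          gcongr
        linarith
      have h4 : Real.sqrt (q * Y) = Real.sqrt q * Real.sqrt Y := Real.sqrt_mul hq0.le _
      rw [h4] at e3
      have h5 : CL * ((Y + Real.sqrt q * Real.sqrt Y) / q) * (1 + Real.log (q * Y)) ≤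
          CL * ((Y + Real.sqrt q * Real.sqrt Y) / q) * L := by gcongr
      have e4 : ((T'.card : ℕ) : ℝ) = ((T'.filter fun 𝔠 => Rat 𝔠).card : ℝ) +
          ((T'.filter fun 𝔠 => ¬ Rat 𝔠).card : ℝ) := by exact_mod_cast e1
      have h6 : CL * ((Y + Real.sqrt q * Real.sqrt Y) / q) * L =
          CL * L / q * Y + CL * Real.sqrt q * L / q * Real.sqrt Y := by ring
      rw [e4]
      linarith
    intro Y hY
    rcases le_or_gt Y (M ^ 2) with h | h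
    · exact key Y hY h
    · have h1 := key (M ^ 2) hMM1 le_rfl
      have h3 : (T.filter fun 𝔞 => (Ideal.absNorm 𝔞 : ℝ) ≤ Y) =
          T.filter fun 𝔞 => (Ideal.absNorm 𝔞 : ℝ) ≤ M ^ 2 := by
        refine Finset.filter_congr fun 𝔞 h𝔞 => ?_
        rw [hT, Finset.mem_filter, mem_Id] at h𝔞
        constructor
        · intro _; exact h𝔞.1.2
        · intro _; linarith [h𝔞.1.2]
      rw [h3]
      refine h1.trans ?_
      have := Real.sqrt_le_sqrt h.le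
      gcongr
  have hdy := dyadic T (fun 𝔞 => Ideal.absNorm 𝔞) (fun 𝔞 h𝔞 => by
      rw [hT, Finset.mem_filter, mem_Id] at h𝔞
      exact_mod_cast one_le_norm h𝔞.1.1) (M := M ^ 2) (B := CL * L / q)
      (E := 1 + CL * Real.sqrt q * L / q) (by positivity) (by positivity)
      (fun 𝔞 h𝔞 => by
        rw [hT, Finset.mem_filter, mem_Id] at h𝔞
        exact h𝔞.1.2) hcount
  refine hdy.trans ?_
  rw [Real.sqrt_sq (by linarith)]
  have hlM : Real.log M = (1 + η) * Real.log q := by rw [hMdef, Real.log_rpow hq0]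
  have e2 : L ≤ C₄ * (q : ℝ) ^ η := by
    have h3 := hlog2 q hqr
    rw [abs_of_nonneg (by positivity)] at h3
    have h4 : Real.log (q * M ^ 2) = (3 + 2 * η) * Real.log q := by
      rw [Real.log_mul hq0.ne' (by positivity), Real.log_pow, hlM]
      push_cast
      ring
    rw [hLdef, h4]
    linarith
  have e3 : (Nat.log 2 ⌊M ^ 2⌋₊ : ℝ) + 1 ≤ C₅ * (q : ℝ) ^ η := by
    have h3 := hlog3 q hqr
    rw [abs_of_nonneg (by positivity)] at h3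
    have h4 := log2_le hMM1
    rw [Real.log_pow, hlM] at h4
    push_cast at h4
    nlinarith
  have e4 : M / q = (q : ℝ) ^ η := by
    rw [hMdef, Real.rpow_add hq0, Real.rpow_one]
    field_simp
  have hx : (1 : ℝ) ≤ (q : ℝ) ^ η := Real.one_le_rpow hq1 hη.le
  have e5 : Real.sqrt q / q ≤ 1 := by
    rw [div_le_one hq0]
    nlinarith [Real.sq_sqrt hq0.le, Real.sqrt_nonneg (q : ℝ), Real.one_le_sqrt.2 hq1]
  have e6 : 2 * (CL * L / q) * M + 2 * (1 + CL * Real.sqrt q * L / q) ≤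
      (2 * (CL * C₄) + 2 + 2 * (CL * C₄)) * ((q : ℝ) ^ η * (q : ℝ) ^ η) := by
    set x : ℝ := (q : ℝ) ^ η with hxdef
    have g1 : 2 * (CL * L / q) * M = 2 * CL * L * x := by
      rw [← e4]; ring
    have g2 : 2 * (1 + CL * Real.sqrt q * L / q) = 2 + 2 * CL * L * (Real.sqrt q / q) := by ring
    rw [g1, g2]
    have g3 : 2 * CL * L * x ≤ 2 * CL * (C₄ * x) * x := by gcongr
    have g4 : 2 * CL * L * (Real.sqrt q / q) ≤ 2 * CL * (C₄ * x) * 1 := by gcongr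
    have g5 : 1 ≤ x * x := by nlinarith
    have g6 : x ≤ x * x := by nlinarith
    have g7 : 2 * CL * (C₄ * x) * 1 ≤ 2 * (CL * C₄) * (x * x) := by
      calc 2 * CL * (C₄ * x) * 1 = 2 * (CL * C₄) * x := by ring
        _ ≤ _ := by gcongr
    calc 2 * CL * L * x + (2 + 2 * CL * L * (Real.sqrt q / q))
        ≤ 2 * CL * (C₄ * x) * x + (2 * (x * x) + 2 * (CL * C₄) * (x * x)) := by linarith
      _ = _ := by ring
  have e7 : (q : ℝ) ^ (3 * η) = (q : ℝ) ^ η * ((q : ℝ) ^ η * (q : ℝ) ^ η) := by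
    rw [← Real.rpow_add hq0, ← Real.rpow_add hq0]
    congr 1
    ring
  rw [e7]
  calc ((Nat.log 2 ⌊M ^ 2⌋₊ : ℝ) + 1) *
        (2 * (CL * L / q) * M + 2 * (1 + CL * Real.sqrt q * L / q))
      ≤ (C₅ * (q : ℝ) ^ η) * ((2 * (CL * C₄) + 2 + 2 * (CL * C₄)) * ((q : ℝ) ^ η * (q : ℝ) ^ η)) := by
        gcongr
    _ = _ := by ring

end Pool.Agent.NH12.RS
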