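import Pool.Agent.NH12.RS.Second

/-! # The second moment: assembly -/

set_option autoImplicit false
set_option linter.unusedSectionVars false

open NumberField Complex Finset

namespace Pool.Agent.NH12.RS

variable {K : Type} [Field K] [NumberField K]

lemma tail_bd {v : ℝ → ℝ} (hv : Wt v) {ρ : ℝ} (hρ : 0 < ρ) {η : ℝ} (hη : 0 < η) :
    ∃ C : ℝ, 0 < C ∧ ∀ q : ℝ, 2 ≤ q → ∀ ψ : Ideal (𝓞 K) →*₀ ℂ, (∀ 𝔞, ‖ψ 𝔞‖ ≤ 1) →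
      ‖AA v (ρ * q) ψ - ∑ 𝔞 ∈ Id K (q ^ (1 + η)), ψ 𝔞 * ((gg v (ρ * q) 𝔞 : ℝ) : ℂ)‖ ≤ C * q⁻¹ := by
  classical
  obtain ⟨C, hC, ht⟩ := gg_tail (K := K) hv hρ hη
  set Z : ℝ := ∑' 𝔞 : Ideal (𝓞 K), Pool.Agent.Y772.DK.nr K (3 / 2) 𝔞 with hZ
  have hZ0 : 0 ≤ Z := tsum_nonneg fun 𝔞 => Pool.Agent.Y772.DK.nr_nonneg K _ 𝔞
  refine ⟨C * Z + 1, by positivity, fun q hq ψ hψ => ?_⟩
  have hq0 : 0 < q := by linarith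
  have hX : 0 < ρ * q := by positivity
  have hgs := gg_summable (K := K) hv hX
  have hnn := fun 𝔞 => gg_nonneg (K := K) hv hX 𝔞
  set f : Ideal (𝓞 K) → ℂ := fun 𝔞 => ψ 𝔞 * ((gg v (ρ * q) 𝔞 : ℝ) : ℂ) with hf
  have hbd : ∀ 𝔞 : Ideal (𝓞 K), ‖f 𝔞‖ ≤ gg v (ρ * q) 𝔞 := by
    intro 𝔞
    rw [hf]
    simp only
    rw [norm_mul, Complex.norm_real, Real.norm_of_nonneg (hnn 𝔞)]
    exact mul_le_of_le_one_left (hnn 𝔞) (hψ 𝔞)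
  set T := Id K (q ^ (1 + η)) with hT
  have hs1 : Summable fun 𝔞 : Ideal (𝓞 K) => if 𝔞 ∈ T then f 𝔞 else 0 :=
    summable_of_ne_finset_zero (s := T) fun 𝔞 h => if_neg h
  have hs2 : Summable fun 𝔞 : Ideal (𝓞 K) => if 𝔞 ∈ T then 0 else f 𝔞 := by
    refine Summable.of_norm_bounded hgs fun 𝔞 => ?_
    split_ifs
    · rw [norm_zero]; exact hnn 𝔞
    · exact hbd 𝔞
  have h1 : AA v (ρ * q) ψ = ∑ 𝔞 ∈ T, f 𝔞 + ∑' 𝔞 : Ideal (𝓞 K), if 𝔞 ∈ T then 0 else f 𝔞 := by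
    have h2 : ∑ 𝔞 ∈ T, f 𝔞 = ∑' 𝔞 : Ideal (𝓞 K), if 𝔞 ∈ T then f 𝔞 else 0 := by
      rw [tsum_eq_sum (s := T) (fun 𝔞 h => if_neg h)]
      exact (Finset.sum_congr rfl fun 𝔞 h => if_pos h).symm
    rw [h2, ← hs1.tsum_add hs2, AA_eq]
    refine tsum_congr fun 𝔞 => ?_
    split_ifs
    · rw [add_zero]
    · rw [zero_add]
  rw [h1, add_sub_cancel_left]
  have hsum2 : Summable fun 𝔞 : Ideal (𝓞 K) =>
      C * q⁻¹ * Pool.Agent.Y772.DK.nr K (3 / 2) 𝔞 :=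
    (Pool.Agent.Y772.DK.nr_summable (K := K) (σ := 3 / 2) (by norm_num)).mul_left _
  have h3 : ‖∑' 𝔞 : Ideal (𝓞 K), if 𝔞 ∈ T then 0 else f 𝔞‖ ≤
      ∑' 𝔞 : Ideal (𝓞 K), C * q⁻¹ * Pool.Agent.Y772.DK.nr K (3 / 2) 𝔞 := by
    refine tsum_of_norm_bounded hsum2.hasSum fun 𝔞 => ?_
    have hr : 0 ≤ C * q⁻¹ * Pool.Agent.Y772.DK.nr K (3 / 2) 𝔞 := by
      have := Pool.Agent.Y772.DK.nr_nonneg K (3 / 2) 𝔞
      positivity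
    by_cases h4 : 𝔞 ∈ T
    · rw [if_pos h4, norm_zero]
      exact hr
    · rw [if_neg h4]
      refine (hbd 𝔞).trans ?_
      rcases eq_or_ne 𝔞 ⊥ with h0 | h0
      · rw [h0, gg_bot]
        rw [h0] at hr
        exact hr
      · rw [hT, mem_Id, not_and, not_le] at h4
        exact ht q hq 𝔞 (h4 h0)
  rw [tsum_mul_left, ← hZ] at h3
  refine h3.trans ?_
  have : 0 < q⁻¹ := by positivity
  nlinarith

open Classical in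
lemma pair_sum (S : RQ K) (hc : S_conj) (hd : S_div) (h2 : Module.finrank ℚ K = 2) {η : ℝ}
    (hη : 0 < η) : ∃ C : ℝ, 0 < C ∧ ∀ (M : ℝ) (q : ℕ), 1 ≤ M →
      ∑ p ∈ ((Id K M) ×ˢ (Id K M)).filter (fun p => Pr q (p.1 * S.cj p.2)),
        (Ideal.absNorm p.1 : ℝ) ^ (-(1 / 2) : ℝ) * (Ideal.absNorm p.2 : ℝ) ^ (-(1 / 2) : ℝ) ≤
      C * (M ^ 2) ^ η * ∑ 𝔠 ∈ (Id K (M ^ 2)).filter (fun 𝔠 => Pr q 𝔠),
        (Ideal.absNorm 𝔠 : ℝ) ^ (-(1 / 2) : ℝ) := by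
  obtain ⟨hmul, hcc, hN, hsp, hnorm⟩ := hc K S
  obtain ⟨C, hC, hdiv⟩ := (hd K h2).2 η hη
  refine ⟨C, hC, fun M q hM => ?_⟩
  set P := ((Id K M) ×ˢ (Id K M)).filter (fun p => Pr q (p.1 * S.cj p.2)) with hP
  set U := (Id K (M ^ 2)).filter (fun 𝔠 => Pr q 𝔠) with hU
  have hcj0 : ∀ 𝔟, 𝔟 ≠ ⊥ → S.cj 𝔟 ≠ ⊥ := by
    intro 𝔟 h h1
    have h3 := hN 𝔟
    rw [h1, Ideal.absNorm_bot] at h3
    exact h (Ideal.absNorm_eq_zero_iff.mp h3.symm)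
  have hmap : ∀ p ∈ P, p.1 * S.cj p.2 ∈ U := by
    intro p hp
    rw [hP, Finset.mem_filter, Finset.mem_product, mem_Id, mem_Id] at hp
    rw [hU, Finset.mem_filter, mem_Id]
    refine ⟨⟨mul_ne_zero hp.1.1.1 (hcj0 _ hp.1.2.1), ?_⟩, hp.2⟩
    rw [map_mul, hN]
    push_cast
    have h3 := hp.1.1.2
    have h4 := hp.1.2.2
    have h5 : (0 : ℝ) ≤ (Ideal.absNorm p.2 : ℝ) := Nat.cast_nonneg _
    nlinarith
  rw [← Finset.sum_fiberwise_of_maps_to hmap, Finset.mul_sum]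
  refine Finset.sum_le_sum fun 𝔠 h𝔠 => ?_
  rw [hU, Finset.mem_filter, mem_Id] at h𝔠
  obtain ⟨⟨h𝔠0, h𝔠M⟩, h𝔠P⟩ := h𝔠
  have hN1 := one_le_norm h𝔠0
  have h3 : ∑ p ∈ P with p.1 * S.cj p.2 = 𝔠,
      (Ideal.absNorm p.1 : ℝ) ^ (-(1 / 2) : ℝ) * (Ideal.absNorm p.2 : ℝ) ^ (-(1 / 2) : ℝ) =
      ∑ p ∈ P with p.1 * S.cj p.2 = 𝔠, (Ideal.absNorm 𝔠 : ℝ) ^ (-(1 / 2) : ℝ) := by
    refine Finset.sum_congr rfl fun p hp => ?_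
    rw [Finset.mem_filter] at hp
    rw [← hp.2, map_mul, hN]
    push_cast
    rw [Real.mul_rpow (Nat.cast_nonneg _) (Nat.cast_nonneg _)]
  rw [h3, Finset.sum_const, nsmul_eq_mul]
  have h4 : ((P.filter fun p => p.1 * S.cj p.2 = 𝔠).card : ℝ) ≤ C * (M ^ 2) ^ η := by
    obtain ⟨hf, hb⟩ := hdiv 𝔠 h𝔠0
    have h5 : (P.filter fun p => p.1 * S.cj p.2 = 𝔠).card ≤ hf.toFinset.card := by
      refine Finset.card_le_card_of_injOn (fun p => p.1) (fun p hp => ?_) ?_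
      · simp only [Finset.coe_filter, Set.mem_setOf_eq] at hp
        simp only [Set.Finite.coe_toFinset, Set.mem_setOf_eq]
        exact ⟨_, hp.2.symm⟩
      · intro x hx y hy hxy
        simp only [Finset.coe_filter, Set.mem_setOf_eq] at hx hy
        simp only at hxy
        have h6 : x.1 * S.cj x.2 = x.1 * S.cj y.2 := by
          rw [hx.2, hxy, hy.2]
        have h7 : x.1 ≠ ⊥ := by
          intro h8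
          have := hx.2
          rw [h8, Ideal.bot_mul] at this
          exact h𝔠0 this.symm
        have h8 := mul_left_cancel₀ h7 h6
        have h9 : x.2 = y.2 := by
          rw [← hcc x.2, h8, hcc]
        exact Prod.ext hxy h9
    rw [Set.ncard_eq_toFinset_card _ hf] at hb
    have h6 : ((P.filter fun p => p.1 * S.cj p.2 = 𝔠).card : ℝ) ≤ (hf.toFinset.card : ℝ) := by
      exact_mod_cast h5
    refine h6.trans (hb.trans ?_)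
    gcongr
  exact mul_le_mul_of_nonneg_right h4 (by positivity)

/-- the second moment of the finite sums -/
lemma fin_second [IsTotallyReal K] (S : RQ K) (hc : S_conj) (ho : S_orth)
    {ψ₀ : Ideal (𝓞 K) →*₀ ℂ} (hψ : ∀ 𝔞, ‖ψ₀ 𝔞‖ ≤ 1) {q : ℕ} (hq2 : 2 ≤ q)
    (T : Finset (Ideal (𝓞 K))) (g : Ideal (𝓞 K) → ℝ) (hg : ∀ 𝔞, 0 ≤ g 𝔞)
    (hX : (XX K q q).Finite) :
    ∑ χ ∈ hX.toFinset, ‖∑ 𝔞 ∈ T, pr ψ₀ χ 𝔞 * ((g 𝔞 : ℝ) : ℂ)‖ ^ 2 ≤ ((XX K q q).ncard : ℝ) *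
      (open Classical in ∑ p ∈ (T ×ˢ T).filter (fun p => Pr q (p.1 * S.cj p.2)), g p.1 * g p.2) := by
  classical
  obtain ⟨hmul, hcc, hN, hsp, hnorm⟩ := hc K S
  have horth := (ho K S q q hq2 dvd_rfl).2.2
  have h1 : ((∑ χ ∈ hX.toFinset, ‖∑ 𝔞 ∈ T, pr ψ₀ χ 𝔞 * ((g 𝔞 : ℝ) : ℂ)‖ ^ 2 : ℝ) : ℂ) =
      ∑ p ∈ T ×ˢ T, (ψ₀ p.1 * (starRingEnd ℂ) (ψ₀ p.2) * ((g p.1 : ℝ) : ℂ) * ((g p.2 : ℝ) : ℂ)) *
        ∑ χ ∈ hX.toFinset, χ (p.1 * S.cj p.2) := by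
    push_cast
    have h2 : ∀ χ ∈ hX.toFinset, ((‖∑ 𝔞 ∈ T, pr ψ₀ χ 𝔞 * ((g 𝔞 : ℝ) : ℂ)‖ : ℝ) : ℂ) ^ 2 =
        ∑ p ∈ T ×ˢ T, (ψ₀ p.1 * (starRingEnd ℂ) (ψ₀ p.2) * ((g p.1 : ℝ) : ℂ) *
          ((g p.2 : ℝ) : ℂ)) * χ (p.1 * S.cj p.2) := by
      intro χ hχ
      rw [Set.Finite.mem_toFinset] at hχ
      rw [← Complex.mul_conj', map_sum, Finset.sum_mul_sum, Finset.sum_product]
      refine Finset.sum_congr rfl fun 𝔞 _ => Finset.sum_congr rfl fun 𝔟 _ => ?_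
      have h3 : ∀ 𝔞, pr ψ₀ χ 𝔞 = ψ₀ 𝔞 * χ 𝔞 := fun _ => rfl
      rw [map_mul, h3, h3, map_mul, map_mul, rc_conj hc S hq2 hχ.1, Complex.conj_ofReal]
      ring
    rw [Finset.sum_congr rfl h2, Finset.sum_comm]
    refine Finset.sum_congr rfl fun p _ => ?_
    rw [Finset.mul_sum]
  have h2 : ∑ χ ∈ hX.toFinset, ‖∑ 𝔞 ∈ T, pr ψ₀ χ 𝔞 * ((g 𝔞 : ℝ) : ℂ)‖ ^ 2 =
      ‖((∑ χ ∈ hX.toFinset, ‖∑ 𝔞 ∈ T, pr ψ₀ χ 𝔞 * ((g 𝔞 : ℝ) : ℂ)‖ ^ 2 : ℝ) : ℂ)‖ := by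
    rw [Complex.norm_real, Real.norm_of_nonneg]
    exact Finset.sum_nonneg fun _ _ => by positivity
  rw [h2, h1]
  refine (norm_sum_le _ _).trans ?_
  rw [Finset.sum_filter, Finset.mul_sum]
  refine Finset.sum_le_sum fun p _ => ?_
  have hg1 := hg p.1
  have hg2 := hg p.2
  have h3 : ‖ψ₀ p.1 * (starRingEnd ℂ) (ψ₀ p.2) * ((g p.1 : ℝ) : ℂ) * ((g p.2 : ℝ) : ℂ)‖ ≤
      g p.1 * g p.2 := by
    rw [norm_mul, norm_mul, norm_mul, Complex.norm_real, Complex.norm_real, RCLike.norm_conj,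
      Real.norm_of_nonneg hg1, Real.norm_of_nonneg hg2]
    have h4 : ‖ψ₀ p.1‖ * ‖ψ₀ p.2‖ ≤ 1 := mul_le_one₀ (hψ _) (norm_nonneg _) (hψ _)
    calc ‖ψ₀ p.1‖ * ‖ψ₀ p.2‖ * g p.1 * g p.2 = (‖ψ₀ p.1‖ * ‖ψ₀ p.2‖) * (g p.1 * g p.2) := by ring
      _ ≤ 1 * (g p.1 * g p.2) := by gcongr
      _ = _ := one_mul _
  rw [norm_mul]
  by_cases hcop : Cop q (p.1 * S.cj p.2)
  · obtain ⟨o1, o2⟩ := horth _ hcop
    rw [finsum_mem_eq_finite_toFinset_sum _ hX] at o1 o2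
    by_cases hp : Pr q (p.1 * S.cj p.2)
    · rw [if_pos hp, o1 hp, Complex.norm_natCast, mul_comm]
      gcongr
    · rw [if_neg hp, o2 hp, norm_zero, mul_zero, mul_zero]
  · have h4 : ∑ χ ∈ hX.toFinset, χ (p.1 * S.cj p.2) = 0 := by
      refine Finset.sum_eq_zero fun χ hχ => ?_
      rw [Set.Finite.mem_toFinset] at hχ
      by_contra h5
      exact hcop ((hχ.1.supp _).mp h5)
    rw [h4, norm_zero, mul_zero]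
    split_ifs
    · positivity
    · rw [mul_zero]

theorem t_second (hc : S_conj) (hs2 : S_seq2) (hl : S_lat) (hd : S_div) (ho : S_orth)
    (hu : S_cardU) : S_second := by
  intro K _ _ _ S h2 ψ₀ hψ v hv ρ hρ η hη
  classical
  set η₁ : ℝ := η / 12 with hη₁
  have hη₁0 : 0 < η₁ := by positivity
  have hη₁1 : η₁ * 12 = η := by rw [hη₁]; ring
  obtain ⟨Ct, hCt, htail⟩ := tail_bd (K := K) hv hρ hη₁0
  obtain ⟨Cp, np, hCp, hpr⟩ := pr_sum S h2 hs2 hl hη₁0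
  set η₂ : ℝ := η₁ / (1 + η₁) with hη₂
  have hη₂0 : 0 < η₂ := by positivity
  obtain ⟨Cd, hCd, hpair⟩ := pair_sum S hc hd h2 hη₂0
  obtain ⟨C₁, hC₁, hg⟩ := gg_le (K := K) hv hρ
  obtain ⟨C₃, hC₃, hlog1⟩ := log_bd (η := η₁) hη₁0 1
  obtain ⟨-, -, -, hM, n₅, hn₅⟩ := hs2 K S
  obtain ⟨n₂, hn₂⟩ := hM 2
  obtain ⟨Cu, hCu, hcu⟩ := hu K S
  refine ⟨2 * (2 * Cu * (C₁ * C₃) ^ 2 * Cd * Cp) + 2 * (2 * Cu * Ct ^ 2), max np (max n₂ n₅),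
    by positivity, ?_⟩
  intro n q hn hq
  simp only [max_le_iff] at hn
  obtain ⟨m1, m2, m5⟩ := hn
  have hq2 : 2 ≤ q := hn₂ n q m2 hq
  have hqr : (2 : ℝ) ≤ q := by exact_mod_cast hq2
  have hq0 : (0 : ℝ) < q := by linarith
  have hq1 : (1 : ℝ) ≤ q := by linarith
  have hX : 0 < ρ * q := by positivity
  have hfin := (ho K S q q hq2 dvd_rfl).1
  rw [finsum_mem_eq_finite_toFinset_sum _ hfin]
  set M : ℝ := (q : ℝ) ^ (1 + η₁) with hMdef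
  have hM1 : 1 ≤ M := Real.one_le_rpow hq1 (by positivity)
  set g : Ideal (𝓞 K) → ℝ := gg v (ρ * q) with hgdef
  have hnn : ∀ 𝔞, 0 ≤ g 𝔞 := fun 𝔞 => gg_nonneg (K := K) hv hX 𝔞
  have hcard : ((XX K q q).ncard : ℝ) ≤ 2 * Cu * q := by
    have h5 := hcu q q hq2 dvd_rfl
    have h6 := hn₅ n q m5 hq q dvd_rfl
    have h7 : ((XX K q q).ncard : ℝ) * q ≤ (2 * Cu * q) * q := by
      calc ((XX K q q).ncard : ℝ) * q ≤ ((XX K q q).ncard : ℝ) * (2 * (Nat.totient q : ℝ)) := by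
            gcongr
        _ = 2 * (((XX K q q).ncard : ℝ) * (Nat.totient q : ℝ)) := by ring
        _ ≤ 2 * (Cu * (q : ℝ) ^ 2) := by gcongr
        _ = _ := by ring
    exact le_of_mul_le_mul_right h7 hq0
  -- the finite sums
  have h3 := fin_second S hc ho hψ hq2 (Id K M) g hnn hfin
  have h4 : ∑ p ∈ ((Id K M) ×ˢ (Id K M)).filter (fun p => Pr q (p.1 * S.cj p.2)), g p.1 * g p.2 ≤
      (C₁ * C₃) ^ 2 * Cd * Cp * (q : ℝ) ^ η := by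
    have hlogq : 0 ≤ Real.log q := Real.log_nonneg hq1
    have e1 : 1 + Real.log q ≤ C₃ * (q : ℝ) ^ η₁ := by
      have := hlog1 q hqr
      rw [abs_one] at this
      linarith
    have e2 : ∑ p ∈ ((Id K M) ×ˢ (Id K M)).filter (fun p => Pr q (p.1 * S.cj p.2)), g p.1 * g p.2 ≤
        ∑ p ∈ ((Id K M) ×ˢ (Id K M)).filter (fun p => Pr q (p.1 * S.cj p.2)),
          (C₁ * (1 + Real.log q)) ^ 2 * ((Ideal.absNorm p.1 : ℝ) ^ (-(1 / 2) : ℝ) *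
            (Ideal.absNorm p.2 : ℝ) ^ (-(1 / 2) : ℝ)) := by
      refine Finset.sum_le_sum fun p hp => ?_
      rw [Finset.mem_filter, Finset.mem_product, mem_Id, mem_Id] at hp
      have h5 := hg q hqr p.1 hp.1.1.1
      have h6 := hg q hqr p.2 hp.1.2.1
      calc g p.1 * g p.2 ≤ (C₁ * (1 + Real.log q) * (Ideal.absNorm p.1 : ℝ) ^ (-(1 / 2) : ℝ)) *
            (C₁ * (1 + Real.log q) * (Ideal.absNorm p.2 : ℝ) ^ (-(1 / 2) : ℝ)) := by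
              apply mul_le_mul h5 h6 (hnn _)
              positivity
        _ = _ := by ring
    refine e2.trans ?_
    rw [← Finset.mul_sum]
    have e3 := hpair M q hM1
    have e4 := hpr n q m1 hq
    have e5 : (M ^ 2) ^ η₂ = (q : ℝ) ^ (2 * η₁) := by
      rw [hMdef, ← Real.rpow_natCast, ← Real.rpow_mul hq0.le, ← Real.rpow_mul hq0.le]
      congr 1
      rw [hη₂]
      field_simp
      push_cast
      ring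
    rw [e5] at e3
    have e6 : ∑ 𝔠 ∈ (Id K (M ^ 2)).filter (fun 𝔠 => Pr q 𝔠),
        (Ideal.absNorm 𝔠 : ℝ) ^ (-(1 / 2) : ℝ) ≤ Cp * (q : ℝ) ^ (3 * η₁) := e4
    have e7 : (0 : ℝ) ≤ ∑ 𝔠 ∈ (Id K (M ^ 2)).filter (fun 𝔠 => Pr q 𝔠),
        (Ideal.absNorm 𝔠 : ℝ) ^ (-(1 / 2) : ℝ) := Finset.sum_nonneg fun _ _ => by positivity
    have e8 : (q : ℝ) ^ η₁ * (q : ℝ) ^ η₁ * ((q : ℝ) ^ (2 * η₁) * (q : ℝ) ^ (3 * η₁)) ≤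
        (q : ℝ) ^ η := by
      rw [← Real.rpow_add hq0, ← Real.rpow_add hq0, ← Real.rpow_add hq0]
      refine Real.rpow_le_rpow_of_exponent_le hq1 ?_
      linarith
    calc (C₁ * (1 + Real.log q)) ^ 2 *
          ∑ p ∈ ((Id K M) ×ˢ (Id K M)).filter (fun p => Pr q (p.1 * S.cj p.2)),
            ((Ideal.absNorm p.1 : ℝ) ^ (-(1 / 2) : ℝ) * (Ideal.absNorm p.2 : ℝ) ^ (-(1 / 2) : ℝ))
        ≤ (C₁ * (C₃ * (q : ℝ) ^ η₁)) ^ 2 * (Cd * (q : ℝ) ^ (2 * η₁) * (Cp * (q : ℝ) ^ (3 * η₁))) := by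
          refine mul_le_mul ?_ (e3.trans ?_) ?_ (by positivity)
          · gcongr
          · gcongr
          · exact Finset.sum_nonneg fun _ _ => by positivity
      _ = (C₁ * C₃) ^ 2 * Cd * Cp *
          ((q : ℝ) ^ η₁ * (q : ℝ) ^ η₁ * ((q : ℝ) ^ (2 * η₁) * (q : ℝ) ^ (3 * η₁))) := by ring
      _ ≤ (C₁ * C₃) ^ 2 * Cd * Cp * (q : ℝ) ^ η := by gcongr
  have h5 : ∑ χ ∈ hfin.toFinset, ‖AA v (ρ * q) (pr ψ₀ χ)‖ ^ 2 ≤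
      2 * ∑ χ ∈ hfin.toFinset, ‖∑ 𝔞 ∈ Id K M, pr ψ₀ χ 𝔞 * ((g 𝔞 : ℝ) : ℂ)‖ ^ 2 +
        2 * (((XX K q q).ncard : ℝ) * Ct ^ 2) := by
    have h6 : ∀ χ ∈ hfin.toFinset, ‖AA v (ρ * q) (pr ψ₀ χ)‖ ^ 2 ≤
        2 * ‖∑ 𝔞 ∈ Id K M, pr ψ₀ χ 𝔞 * ((g 𝔞 : ℝ) : ℂ)‖ ^ 2 + 2 * Ct ^ 2 := by
      intro χ hχ
      rw [Set.Finite.mem_toFinset] at hχ
      have hr := rc_norm hq2 hχ.1
      have h7 := htail q hqr (pr ψ₀ χ) (fun 𝔞 => by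
        have h1 : pr ψ₀ χ 𝔞 = ψ₀ 𝔞 * χ 𝔞 := rfl
        rw [h1, norm_mul]
        exact mul_le_one₀ (hψ _) (norm_nonneg _) (hr _))
      have h8 : Ct * (q : ℝ)⁻¹ ≤ Ct := by
        have : (q : ℝ)⁻¹ ≤ 1 := inv_le_one_of_one_le₀ hq1
        nlinarith
      have h9 : ‖AA v (ρ * q) (pr ψ₀ χ)‖ ≤
          ‖∑ 𝔞 ∈ Id K M, pr ψ₀ χ 𝔞 * ((g 𝔞 : ℝ) : ℂ)‖ + Ct := by
        have h10 := norm_sub_norm_le (AA v (ρ * q) (pr ψ₀ χ))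
          (∑ 𝔞 ∈ Id K M, pr ψ₀ χ 𝔞 * ((g 𝔞 : ℝ) : ℂ))
        linarith
      have h11 : 0 ≤ ‖AA v (ρ * q) (pr ψ₀ χ)‖ := norm_nonneg _
      have h12 : 0 ≤ ‖∑ 𝔞 ∈ Id K M, pr ψ₀ χ 𝔞 * ((g 𝔞 : ℝ) : ℂ)‖ := norm_nonneg _
      nlinarith [sq_nonneg (‖∑ 𝔞 ∈ Id K M, pr ψ₀ χ 𝔞 * ((g 𝔞 : ℝ) : ℂ)‖ - Ct),
        mul_self_le_mul_self h11 h9]
    refine (Finset.sum_le_sum h6).trans ?_
    rw [Finset.sum_add_distrib, ← Finset.mul_sum, Finset.sum_const, nsmul_eq_mul,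
      Set.ncard_eq_toFinset_card _ hfin]
    apply le_of_eq
    ring
  refine h5.trans ?_
  have hqη : (1 : ℝ) ≤ (q : ℝ) ^ η := Real.one_le_rpow hq1 hη.le
  have h6 : (q : ℝ) ^ (1 + η) = q * (q : ℝ) ^ η := by
    rw [Real.rpow_add hq0, Real.rpow_one]
  rw [h6]
  have h7 : ∑ χ ∈ hfin.toFinset, ‖∑ 𝔞 ∈ Id K M, pr ψ₀ χ 𝔞 * ((g 𝔞 : ℝ) : ℂ)‖ ^ 2 ≤
      (2 * Cu * q) * ((C₁ * C₃) ^ 2 * Cd * Cp * (q : ℝ) ^ η) := by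
    refine h3.trans ?_
    refine mul_le_mul hcard h4 ?_ (by positivity)
    exact Finset.sum_nonneg fun p _ => mul_nonneg (hnn _) (hnn _)
  have h8 : ((XX K q q).ncard : ℝ) * Ct ^ 2 ≤ (2 * Cu * q) * Ct ^ 2 * (q : ℝ) ^ η := by
    calc ((XX K q q).ncard : ℝ) * Ct ^ 2 ≤ (2 * Cu * q) * Ct ^ 2 := by gcongr
      _ ≤ (2 * Cu * q) * Ct ^ 2 * (q : ℝ) ^ η := le_mul_of_one_le_right (by positivity) hqη
  calc 2 * ∑ χ ∈ hfin.toFinset, ‖∑ 𝔞 ∈ Id K M, pr ψ₀ χ 𝔞 * ((g 𝔞 : ℝ) : ℂ)‖ ^ 2 +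
        2 * (((XX K q q).ncard : ℝ) * Ct ^ 2)
      ≤ 2 * ((2 * Cu * q) * ((C₁ * C₃) ^ 2 * Cd * Cp * (q : ℝ) ^ η)) +
        2 * ((2 * Cu * q) * Ct ^ 2 * (q : ℝ) ^ η) := by gcongr
    _ = _ := by ring

end Pool.Agent.NH12.RS
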