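import Pool.Agent.Y773.HK.Stm

/-!
# Project RS: ring class characters of real quadratic fields, exact central orders: statements

`K` is a real quadratic field, `ε` a fundamental unit, `q = (ε^n - σ(ε)^n)/(ε - σ(ε))` for a prime
number `n` (for `K = ℚ(√5)` these are the Fibonacci numbers `F_n`).  For a fixed self-dual primitive
ray class character `ψ₀` of `K` and the primitive ring class characters `χ` of conductor `q` one shows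
that `L(s, ψ₀ χ)` has a zero of order exactly `(1 - W)/2` at `1/2` for at least `q^(1-η)` of the `χ`
with a given root number `W`.

Every `def S_... : Prop` is the statement of one part; a proof of it is a theorem `t_... : S_...` in a
file of its own.
-/

set_option autoImplicit false

open NumberField Complex

namespace Pool.Agent.NH12.RS

open Pool.Agent.Y773 (TPos IsPrimChar IsModChar LI sg Ps FT)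

/-- A real quadratic field with its conjugation `σ`, an integral basis `1, ω`, a real embedding `τ`
of the ring of integers and a fundamental unit `ε > 1`. -/
structure RQ (K : Type) [Field K] [NumberField K] where
  σ : 𝓞 K ≃+* 𝓞 K
  ω : 𝓞 K
  τ : 𝓞 K →+* ℝ
  ε : (𝓞 K)ˣ
  inv : ∀ x, σ (σ x) = x
  fix : ∀ x, σ x = x → ∃ a : ℤ, x = a
  basis : ∀ x : 𝓞 K, ∃ a b : ℤ, x = a + b * ω
  indep : ∀ a b : ℤ, (a : 𝓞 K) + b * ω = 0 → a = 0 ∧ b = 0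
  norm : ∀ x : 𝓞 K, ((Algebra.norm ℤ x : ℤ) : 𝓞 K) = x * σ x
  trace : ∀ x : 𝓞 K, ((Algebra.trace ℤ (𝓞 K) x : ℤ) : 𝓞 K) = x + σ x
  inj : Function.Injective τ
  diff : differentIdeal ℤ (𝓞 K) = Ideal.span {ω - σ ω}
  pos : 0 < τ (ω - σ ω)
  unit : ∀ u : (𝓞 K)ˣ, ∃ k : ℤ, u = ε ^ k ∨ u = -ε ^ k
  one_lt : 1 < τ ε

variable {K : Type} [Field K] [NumberField K]

/-- the conjugate ideal -/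
noncomputable def RQ.cj (S : RQ K) (𝔞 : Ideal (𝓞 K)) : Ideal (𝓞 K) :=
  𝔞.map (S.σ : 𝓞 K →+* 𝓞 K)

/-- `x ∈ ℤ + d 𝓞 K` -/
def Zd (d : ℕ) (x : 𝓞 K) : Prop := ∃ a : ℤ, (d : 𝓞 K) ∣ x - a

/-- the ideal `𝔞` is generated by an element of `ℤ + d 𝓞 K` -/
def Pr (d : ℕ) (𝔞 : Ideal (𝓞 K)) : Prop := ∃ x : 𝓞 K, Zd d x ∧ 𝔞 = Ideal.span {x}

/-- the ideal `𝔞` is generated by a positive rational integer -/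
def Rat (𝔞 : Ideal (𝓞 K)) : Prop := ∃ a : ℕ, 0 < a ∧ 𝔞 = Ideal.span {(a : 𝓞 K)}

/-- `n` is a prime number and `q = (ε^n - σ(ε)^n) / (ε - σ(ε))` -/
structure IsU (S : RQ K) (n q : ℕ) : Prop where
  prime : n.Prime
  eq : (q : 𝓞 K) * ((S.ε : 𝓞 K) - S.σ S.ε) = (S.ε : 𝓞 K) ^ n - S.σ S.ε ^ n

/-- `𝔞` is prime to `q` -/
def Cop (q : ℕ) (𝔞 : Ideal (𝓞 K)) : Prop := IsCoprime 𝔞 (Ideal.span {(q : 𝓞 K)})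

/-- `χ` is a ring class character modulo `q` (not necessarily primitive) -/
structure IsRC (q : ℕ) (χ : Ideal (𝓞 K) →*₀ ℂ) : Prop where
  supp : ∀ 𝔞 : Ideal (𝓞 K), χ 𝔞 ≠ 0 ↔ Cop q 𝔞
  one : ∀ x : 𝓞 K, Zd q x → Cop q (Ideal.span {x}) → χ (Ideal.span {x}) = 1

/-- the character `χ` modulo `q` comes from the level `d` -/
def Thr (q d : ℕ) (χ : Ideal (𝓞 K) →*₀ ℂ) : Prop :=
  ∀ x : 𝓞 K, Zd d x → Cop q (Ideal.span {x}) → χ (Ideal.span {x}) = 1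

/-- the ring class characters modulo `q` which come from the level `d` -/
def XX (K : Type) [Field K] [NumberField K] (q d : ℕ) : Set (Ideal (𝓞 K) →*₀ ℂ) :=
  {χ | IsRC q χ ∧ Thr q d χ}

/-- `χ` is a ring class character of conductor `q` -/
structure IsPr (q : ℕ) (χ : Ideal (𝓞 K) →*₀ ℂ) : Prop extends IsRC q χ where
  prim : ∀ d : ℕ, d ∣ q → d ≠ q → ¬ Thr q d χ

/-- the ring class characters of conductor `q` -/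
def PP (K : Type) [Field K] [NumberField K] (q : ℕ) : Set (Ideal (𝓞 K) →*₀ ℂ) := {χ | IsPr q χ}

/-- the product of two characters -/
noncomputable def pr (ψ χ : Ideal (𝓞 K) →*₀ ℂ) : Ideal (𝓞 K) →*₀ ℂ where
  toFun 𝔞 := ψ 𝔞 * χ 𝔞
  map_zero' := by rw [map_zero, zero_mul]
  map_one' := by rw [map_one, map_one, mul_one]
  map_mul' 𝔞 𝔟 := by
    simp only [map_mul]
    ring

/-- `ψ₀` is a primitive ray class character of conductor `𝔣₀`, with signature `(a, a)`, and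
`ψ₀(σ(𝔞))` is the complex conjugate of `ψ₀(𝔞)`. -/
structure Base [IsTotallyReal K] (S : RQ K) (𝔣₀ : Ideal (𝓞 K)) (a : ℕ)
    (ψ₀ : Ideal (𝓞 K) →*₀ ℂ) : Prop where
  ne_bot : 𝔣₀ ≠ ⊥
  le_one : a ≤ 1
  supp : ∀ 𝔞 : Ideal (𝓞 K), 𝔞 ≠ ⊥ → (ψ₀ 𝔞 ≠ 0 ↔ IsCoprime 𝔞 𝔣₀)
  sig : ∀ x : 𝓞 K, x ≠ 0 → x - 1 ∈ 𝔣₀ → ψ₀ (Ideal.span {x}) = sg (fun _ => a) (x : K)
  prim : ∀ 𝔤 : Ideal (𝓞 K), 𝔤 ∣ 𝔣₀ → 𝔤 ≠ 𝔣₀ →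
    ∃ x : 𝓞 K, x - 1 ∈ 𝔤 ∧ TPos K x ∧ IsCoprime (Ideal.span {x}) 𝔣₀ ∧ ψ₀ (Ideal.span {x}) ≠ 1
  self : ∀ 𝔞 : Ideal (𝓞 K), ψ₀ (S.cj 𝔞) = (starRingEnd ℂ) (ψ₀ 𝔞)

/-- the properties of the weight functions -/
structure Wt (v : ℝ → ℝ) : Prop where
  pos : ∀ y, 0 < y → 0 < v y
  anti : ∀ x y, 0 < x → x ≤ y → v y ≤ v x
  decay : ∀ A : ℕ, ∃ C, ∀ y, 1 ≤ y → v y * y ^ A ≤ C
  small : ∃ C, ∀ y, 0 < y → y ≤ 1 → v y ≤ C * (1 + |Real.log y|)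
  slow : ∀ M η : ℝ, 1 ≤ M → 0 < η → ∃ y₀, 0 < y₀ ∧ ∀ y, 0 < y → y ≤ y₀ →
    v y - v (M * y) ≤ η * v y

/-- `∑_𝔞 ψ(𝔞) N(𝔞)^(-1/2) v(N(𝔞)/X)` -/
noncomputable def AA (v : ℝ → ℝ) (X : ℝ) (ψ : Ideal (𝓞 K) →*₀ ℂ) : ℂ :=
  ∑' 𝔞 : Ideal (𝓞 K), ψ 𝔞 *
    (((Ideal.absNorm 𝔞 : ℝ) ^ (-(1 / 2) : ℝ) * v ((Ideal.absNorm 𝔞 : ℝ) / X) : ℝ) : ℂ)

/-! ## the field -/

/-- BASE : the data exist.  (`𝓞 K` is free of rank two and `1` is a primitive vector, so there is a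
basis `1, ω`; `K/ℚ` is quadratic, hence Galois with group `{1, σ'}`; norm and trace are `x σ(x)` and
`x + σ(x)`; the different is generated by `f'(ω) = ω - σ(ω)` (Mathlib:
`conductor_mul_differentIdeal`, `differentIdeal` with `Algebra.adjoin ℤ {ω} = ⊤`); change the sign of
`ω` to get `pos`; Dirichlet's unit theorem (rank one) and `u ↦ ±u^(±1)` give `ε` with `τ ε > 1`,
torsion is `±1` because `K` has a real embedding.) -/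
def S_base : Prop := ∀ (K : Type) [Field K] [NumberField K] [IsTotallyReal K],
  Module.finrank ℚ K = 2 → ∀ σ' : K ≃+* K, (∃ x, σ' x ≠ x) →
    ∃ S : RQ K, ∀ x : 𝓞 K, ((S.σ x : 𝓞 K) : K) = σ' (x : K)

/-- CONJ : conjugate ideals. (`𝔞 σ(𝔞) = (N𝔞)`: for prime ideals, or by localisation, or Mathlib's
relative norm of ideals for a Galois extension; elementary proof: by multiplicativity it is enough to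
treat prime ideals `𝔭 ∣ p`.  If `N𝔭 = p²` then `𝔭 = (p)`.  If `N𝔭 = p` then `𝔭 σ(𝔭)` contains
`x σ(x) ∈ ℤ ∩ 𝔭` for all `x`, ... any proof is fine.) -/
def S_conj : Prop := ∀ (K : Type) [Field K] [NumberField K] (S : RQ K),
  (∀ 𝔞 𝔟, S.cj (𝔞 * 𝔟) = S.cj 𝔞 * S.cj 𝔟) ∧ (∀ 𝔞, S.cj (S.cj 𝔞) = 𝔞) ∧
  (∀ 𝔞, Ideal.absNorm (S.cj 𝔞) = Ideal.absNorm 𝔞) ∧
  (∀ x, S.cj (Ideal.span {x}) = Ideal.span {S.σ x}) ∧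
  ∀ 𝔞, 𝔞 * S.cj 𝔞 = Ideal.span {((Ideal.absNorm 𝔞 : ℕ) : 𝓞 K)}

/-- SEQ : the numbers `q`. -/
def S_seq : Prop := ∀ (K : Type) [Field K] [NumberField K] (S : RQ K),
  (∀ n : ℕ, n.Prime → ∃ q : ℕ, IsU S n q) ∧
  ∃ (C : ℝ) (n₀ : ℕ), 1 ≤ C ∧ ∀ n q : ℕ, n₀ ≤ n → IsU S n q →
    Zd q ((S.ε : 𝓞 K) ^ n) ∧
    (∀ (d : ℕ) (k : ℤ), d ∣ q → 1 < d → Zd d (((S.ε ^ k : (𝓞 K)ˣ) : 𝓞 K)) → (n : ℤ) ∣ k) ∧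
    (∀ p : ℕ, p.Prime → p ∣ q → n ≤ p + 1) ∧
    S.τ S.ε ^ n ≤ C * q ∧ (q : ℝ) ≤ C * S.τ S.ε ^ n

/-- SEQ2 : consequences: `∑_{d ∣ q, d ≠ 1} 1/d` is small and `q` is prime to any given number. -/
def S_seq2 : Prop := ∀ (K : Type) [Field K] [NumberField K] (S : RQ K),
  (∀ η : ℝ, 0 < η → ∃ n₀ : ℕ, ∀ n q : ℕ, n₀ ≤ n → IsU S n q →
    ∑ d ∈ q.divisors.erase 1, (1 : ℝ) / d ≤ η) ∧
  (∀ N : ℕ, 0 < N → ∃ n₀ : ℕ, ∀ n q : ℕ, n₀ ≤ n → IsU S n q → Nat.Coprime q N) ∧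
  (∀ η : ℝ, 0 < η → ∃ n₀ : ℕ, ∀ n q : ℕ, n₀ ≤ n → IsU S n q →
    (n : ℝ) ≤ (q : ℝ) ^ η ∧ (q.divisors.card : ℝ) ≤ (q : ℝ) ^ η) ∧
  (∀ M : ℕ, ∃ n₀ : ℕ, ∀ n q : ℕ, n₀ ≤ n → IsU S n q → M ≤ q) ∧
  ∃ n₀ : ℕ, ∀ n q : ℕ, n₀ ≤ n → IsU S n q → ∀ d : ℕ, d ∣ q → (d : ℝ) ≤ 2 * (Nat.totient d : ℝ)

/-- LAT : the ideals generated by an element of `ℤ + d 𝓞 K` which is not a rational integer. -/
def S_lat : Prop := ∀ (K : Type) [Field K] [NumberField K] (S : RQ K),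
  ∃ (C : ℝ) (n₀ : ℕ), 0 < C ∧ ∀ n q : ℕ, n₀ ≤ n → IsU S n q → ∀ d : ℕ, d ∣ q → ∀ Y : ℝ, 1 ≤ Y →
    {𝔞 : Ideal (𝓞 K) | 𝔞 ≠ ⊥ ∧ Pr d 𝔞 ∧ ¬ Rat 𝔞 ∧ (Ideal.absNorm 𝔞 : ℝ) ≤ Y}.Finite ∧
    ({𝔞 : Ideal (𝓞 K) | 𝔞 ≠ ⊥ ∧ Pr d 𝔞 ∧ ¬ Rat 𝔞 ∧ (Ideal.absNorm 𝔞 : ℝ) ≤ Y}.ncard : ℝ) ≤
      C * ((Y + Real.sqrt (q * Y)) / d) * (1 + Real.log (q * Y))

/-- DIV : the number of ideals of bounded norm, and of divisors of an ideal -/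
def S_div : Prop := ∀ (K : Type) [Field K] [NumberField K], Module.finrank ℚ K = 2 →
  (∃ C : ℝ, 0 < C ∧ ∀ Y : ℝ, 1 ≤ Y →
    {𝔞 : Ideal (𝓞 K) | 𝔞 ≠ ⊥ ∧ (Ideal.absNorm 𝔞 : ℝ) ≤ Y}.Finite ∧
    ({𝔞 : Ideal (𝓞 K) | 𝔞 ≠ ⊥ ∧ (Ideal.absNorm 𝔞 : ℝ) ≤ Y}.ncard : ℝ) ≤ C * Y) ∧
  ∀ η : ℝ, 0 < η → ∃ C : ℝ, 0 < C ∧ ∀ 𝔠 : Ideal (𝓞 K), 𝔠 ≠ ⊥ →
    {𝔞 : Ideal (𝓞 K) | 𝔞 ∣ 𝔠}.Finite ∧
    ({𝔞 : Ideal (𝓞 K) | 𝔞 ∣ 𝔠}.ncard : ℝ) ≤ C * (Ideal.absNorm 𝔠 : ℝ) ^ η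

/-! ## ring class characters -/

/-- ORTH : orthogonality -/
def S_orth : Prop := ∀ (K : Type) [Field K] [NumberField K] (S : RQ K) (q d : ℕ), 2 ≤ q → d ∣ q →
  (XX K q d).Finite ∧ (XX K q d).Nonempty ∧ ∀ 𝔞 : Ideal (𝓞 K), Cop q 𝔞 →
    (Pr d 𝔞 → ∑ᶠ χ ∈ XX K q d, χ 𝔞 = ((XX K q d).ncard : ℂ)) ∧
    (¬ Pr d 𝔞 → ∑ᶠ χ ∈ XX K q d, χ 𝔞 = 0)

/-- COND : the conductor, and the sum over the primitive characters -/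
def S_cond : Prop := ∀ (K : Type) [Field K] [NumberField K] (S : RQ K) (q : ℕ), 2 ≤ q →
  (∀ χ : Ideal (𝓞 K) →*₀ ℂ, IsRC q χ → ∃ f : ℕ, f ∣ q ∧ ∀ d : ℕ, d ∣ q → (Thr q d χ ↔ f ∣ d)) ∧
  ∀ F : (Ideal (𝓞 K) →*₀ ℂ) → ℂ, ∑ᶠ χ ∈ PP K q, F χ =
    ∑ d ∈ q.divisors, ((ArithmeticFunction.moebius (q / d) : ℤ) : ℂ) * ∑ᶠ χ ∈ XX K q d, F χ

/-- CARDU : upper bound for the number of the characters -/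
def S_cardU : Prop := ∀ (K : Type) [Field K] [NumberField K] (S : RQ K), ∃ C : ℝ, 0 < C ∧
  ∀ q d : ℕ, 2 ≤ q → d ∣ q → ((XX K q d).ncard : ℝ) * (Nat.totient d : ℝ) ≤ C * (d : ℝ) ^ 2

/-- CARDL : lower bound for the number of the characters of conductor `q` -/
def S_cardL : Prop := ∀ (K : Type) [Field K] [NumberField K] (S : RQ K), ∃ (C : ℝ) (n₀ : ℕ),
  0 < C ∧ ∀ n q : ℕ, n₀ ≤ n → IsU S n q → (q : ℝ) ≤ C * n * ((PP K q).ncard : ℝ)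

/-- REAL : few characters are real -/
def S_real : Prop := ∀ (K : Type) [Field K] [NumberField K] (S : RQ K), ∃ (C : ℝ) (n₀ : ℕ),
  0 < C ∧ ∀ n q : ℕ, n₀ ≤ n → IsU S n q →
    ({χ : Ideal (𝓞 K) →*₀ ℂ | IsRC q χ ∧ ∀ 𝔞, Cop q 𝔞 → χ 𝔞 ^ 2 = 1}.ncard : ℝ) ≤
      C * (q : ℝ) ^ (9 / 10 : ℝ)

/-- INV : the conductor of a self-dual character is invariant under the conjugation -/
def S_inv : Prop := ∀ (K : Type) [Field K] [NumberField K] [IsTotallyReal K] (S : RQ K)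
  (𝔣₀ : Ideal (𝓞 K)) (a : ℕ) (ψ₀ : Ideal (𝓞 K) →*₀ ℂ), Base S 𝔣₀ a ψ₀ → S.cj 𝔣₀ = 𝔣₀

/-- MOD : the product of the base character and of a ring class character of conductor `q` -/
def S_mod : Prop := ∀ (K : Type) [Field K] [NumberField K] [IsTotallyReal K] (S : RQ K)
  (𝔣₀ : Ideal (𝓞 K)) (a : ℕ) (ψ₀ : Ideal (𝓞 K) →*₀ ℂ), Base S 𝔣₀ a ψ₀ →
  ∀ (q : ℕ) (χ : Ideal (𝓞 K) →*₀ ℂ), 2 ≤ q → Nat.Coprime q (Ideal.absNorm 𝔣₀) →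
    Nat.Coprime q (Ideal.absNorm (differentIdeal ℤ (𝓞 K))) → IsPr q χ →
    IsPrimChar K (𝔣₀ * Ideal.span {(q : 𝓞 K)}) (pr ψ₀ χ) ∧
    IsModChar (𝔣₀ * Ideal.span {(q : 𝓞 K)}) (fun _ => a) (pr ψ₀ χ) ∧
    (∀ 𝔞, pr ψ₀ χ (S.cj 𝔞) = (starRingEnd ℂ) (pr ψ₀ χ 𝔞)) ∧
    χ 𝔣₀ ^ 2 = 1 ∧ ψ₀ (Ideal.span {(q : 𝓞 K)}) ^ 2 = 1

/-! ## root numbers and functional equations -/

/-- the property of the Gauss sum `τ` of `ψ` -/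
def GP [IsTotallyReal K] (𝔣 : Ideal (𝓞 K)) (a : ℕ) (ψ : Ideal (𝓞 K) →*₀ ℂ) (τ : ℂ) : Prop :=
  ∀ (𝔟 𝔟' : Ideal (𝓞 K)) (m D : ℕ), 0 < m → 0 < D →
      𝔟' * (𝔟 * 𝔣 * differentIdeal ℤ (𝓞 K)) = Ideal.span {((m * D : ℕ) : 𝓞 K)} →
      (m : 𝓞 K) ∈ 𝔟 * 𝔣 → (D : 𝓞 K) ∈ differentIdeal ℤ (𝓞 K) → ∀ x : 𝓞 K,
        FT D m (Ps ψ (fun _ => a) 𝔟) x = τ * ((m : ℂ) ^ (Module.finrank ℚ K) /
          ((Ideal.absNorm 𝔟 : ℂ) * (Ideal.absNorm 𝔣 : ℂ))) * (starRingEnd ℂ) (Ps ψ (fun _ => a) 𝔟' x)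

/-- GAUSS : the Gauss sum of `ψ₀ χ` -/
def S_gauss : Prop := ∀ (K : Type) [Field K] [NumberField K] [IsTotallyReal K] (S : RQ K)
  (𝔣₀ : Ideal (𝓞 K)) (a : ℕ) (ψ₀ : Ideal (𝓞 K) →*₀ ℂ), Base S 𝔣₀ a ψ₀ →
  Module.finrank ℚ K = 2 →
  ∃ (C₁ : ℂ) (N : ℕ), 0 < N ∧ (𝔣₀ = ⊤ → a = 0 → C₁ = 1) ∧
    ∀ (q : ℕ) (χ : Ideal (𝓞 K) →*₀ ℂ), 2 ≤ q → Nat.Coprime q N → IsPr q χ →
      ∀ τ : ℂ, GP (𝔣₀ * Ideal.span {(q : 𝓞 K)}) a (pr ψ₀ χ) τ →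
        τ = C₁ * q * ψ₀ (Ideal.span {(q : 𝓞 K)}) * χ 𝔣₀

/-- the completed `L`-function `X` of `ψ` (of conductor times discriminant `R`, signature `(a, a)`),
with root number `w` -/
structure Cx (R : ℝ) (a : ℕ) (ψ : Ideal (𝓞 K) →*₀ ℂ) (X : ℂ → ℂ) : Prop where
  one_le : 1 ≤ R
  diff : Differentiable ℂ X
  strip : ∀ b c : ℝ, ∃ C : ℝ, 0 ≤ C ∧ ∀ s : ℂ, b ≤ s.re → s.re ≤ c → ‖X s‖ ≤ C * (1 + ‖s‖) ^ 2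
  eq : ∀ s : ℂ, 1 < s.re → X s = (R : ℂ) ^ (s / 2) * Complex.Gammaℝ (s + a) ^ 2 * LI ψ s

/-- FE : the functional equation with the root number expressed by the Gauss sum (the proof of
`Pool.Agent.Y773.fe_prim`, where `w = κ A R^(1/2)`) -/
def S_fe : Prop := ∀ (K : Type) [Field K] [NumberField K] [IsTotallyReal K],
  Module.finrank ℚ K = 2 →
  ∃ V : ℝ, 0 < V ∧ ∀ (𝔣 : Ideal (𝓞 K)) (a : ℕ) (ψ : Ideal (𝓞 K) →*₀ ℂ), a ≤ 1 →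
    IsPrimChar K 𝔣 ψ → IsModChar 𝔣 (fun _ => a) ψ →
    ∃ X : ℂ → ℂ, Cx ((Ideal.absNorm 𝔣 * Ideal.absNorm (differentIdeal ℤ (𝓞 K)) : ℕ) : ℝ) a ψ X ∧
      ∀ τ : ℂ, GP 𝔣 a ψ τ → ∀ s : ℂ, X s =
        ((-1) ^ a * V * τ / (Real.sqrt (Ideal.absNorm 𝔣) : ℂ)) *
          (starRingEnd ℂ) (X (1 - (starRingEnd ℂ) s))

/-- ROOT : the functional equation of `ψ₀ χ`; the root number is `C₀ ψ₀((q)) χ(𝔣₀)` -/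
def S_root : Prop := ∀ (K : Type) [Field K] [NumberField K] [IsTotallyReal K] (S : RQ K)
  (𝔣₀ : Ideal (𝓞 K)) (a : ℕ) (ψ₀ : Ideal (𝓞 K) →*₀ ℂ), Base S 𝔣₀ a ψ₀ →
  Module.finrank ℚ K = 2 →
  ∃ (C₀ : ℂ) (N : ℕ), 0 < N ∧ (𝔣₀ = ⊤ → a = 0 → C₀ = 1) ∧
    ∀ (q : ℕ) (χ : Ideal (𝓞 K) →*₀ ℂ), 2 ≤ q → Nat.Coprime q N → IsPr q χ →
      (∀ 𝔞, ‖pr ψ₀ χ 𝔞‖ ≤ 1) ∧ χ 𝔣₀ ^ 2 = 1 ∧ ψ₀ (Ideal.span {(q : 𝓞 K)}) ^ 2 = 1 ∧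
      ∃ X : ℂ → ℂ, Cx ((Ideal.absNorm 𝔣₀ * q ^ 2 * Ideal.absNorm (differentIdeal ℤ (𝓞 K)) : ℕ) : ℝ)
        a (pr ψ₀ χ) X ∧
        ∀ s : ℂ, X (1 - s) = C₀ * ψ₀ (Ideal.span {(q : 𝓞 K)}) * χ 𝔣₀ * X s

/-! ## the weights and the approximate functional equation -/

/-- the weight as an integral over the line `Re z = 3/2` -/
noncomputable def vc (a j : ℕ) (y : ℝ) : ℂ :=
  ∫ t : ℝ, Complex.Gammaℝ (1 / 2 + a + (3 / 2 + t * I)) ^ 2 * cexp ((3 / 2 + t * I) ^ 2) *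
    (y : ℂ) ^ (-(3 / 2 + t * I : ℂ)) / (3 / 2 + t * I) ^ (j + 1)

/-- WT : the weights are positive, decreasing, ... -/
def S_wt : Prop := ∀ a j : ℕ, a ≤ 1 → j ≤ 1 → ∃ v : ℝ → ℝ, Wt v ∧ ∀ y : ℝ, 0 < y → vc a j y = v y

/-- AFE : the approximate functional equation for `X(1/2)` and `X'(1/2)` -/
def S_afe : Prop := ∀ (K : Type) [Field K] [NumberField K], Module.finrank ℚ K = 2 →
  ∀ (R : ℝ) (a : ℕ) (ψ : Ideal (𝓞 K) →*₀ ℂ) (X : ℂ → ℂ) (w : ℂ), a ≤ 1 → (∀ 𝔞, ‖ψ 𝔞‖ ≤ 1) →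
    Cx R a ψ X → (∀ s : ℂ, X (1 - s) = w * X s) → ∀ (j : ℕ) (v : ℝ → ℝ), j ≤ 1 → Wt v →
    (∀ y : ℝ, 0 < y → vc a j y = v y) →
    2 * Real.pi * iteratedDeriv j X (1 / 2) =
      (1 - w * (-1) ^ (j + 1)) * (R : ℂ) ^ (1 / 4 : ℂ) * AA v (Real.sqrt R) ψ

/-! ## the moments -/

/-- MAIN : the main term -/
def S_main : Prop := ∀ (f : ℕ) (κ : ℕ → ℝ), 0 < f → κ 1 = 1 → (∀ m n, κ (m * n) = κ m * κ n) →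
  (∀ n, κ (n + f) = κ n) → (∀ n, κ n ≠ 0 ↔ Nat.Coprime n f) → ∀ v : ℝ → ℝ, Wt v →
  ∃ c η X₀ : ℝ, 0 < c ∧ 0 < η ∧ 0 < X₀ ∧ ∀ (X : ℝ) (q : ℕ), X₀ ≤ X → 0 < q →
    ∑ d ∈ q.divisors.erase 1, (1 : ℝ) / d ≤ η →
    Summable (fun n : ℕ => if Nat.Coprime n q then κ n / n * v ((n : ℝ) ^ 2 / X) else 0) ∧
    c ≤ ∑' n : ℕ, if Nat.Coprime n q then κ n / n * v ((n : ℝ) ^ 2 / X) else 0

/-- DIAG : if `𝔣₀` is not generated by a rational integer, no `𝔣₀ 𝔞` with `𝔞` prime to `𝔣₀` is -/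
def S_diag : Prop := ∀ (K : Type) [Field K] [NumberField K] (S : RQ K) (𝔣₀ 𝔞 : Ideal (𝓞 K)),
  𝔣₀ ≠ ⊥ → S.cj 𝔣₀ = 𝔣₀ → IsCoprime 𝔞 𝔣₀ → Rat (𝔣₀ * 𝔞) → Rat 𝔣₀

/-- the diagonal terms -/
noncomputable def DD (v : ℝ → ℝ) (X : ℝ) (q : ℕ) (𝔨 : Ideal (𝓞 K)) (ψ : Ideal (𝓞 K) →*₀ ℂ) : ℂ :=
  open Classical in
  ∑' 𝔞 : Ideal (𝓞 K), if Cop q 𝔞 ∧ Rat (𝔨 * 𝔞) then ψ 𝔞 *
    (((Ideal.absNorm 𝔞 : ℝ) ^ (-(1 / 2) : ℝ) * v ((Ideal.absNorm 𝔞 : ℝ) / X) : ℝ) : ℂ) else 0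

/-- FIRST : the first moment over the ring class characters of conductor `q` -/
def S_first : Prop := ∀ (K : Type) [Field K] [NumberField K] [IsTotallyReal K] (S : RQ K),
  Module.finrank ℚ K = 2 → ∀ ψ₀ : Ideal (𝓞 K) →*₀ ℂ, (∀ 𝔞, ‖ψ₀ 𝔞‖ ≤ 1) → ∀ v : ℝ → ℝ, Wt v →
  ∀ ρ : ℝ, 0 < ρ → ∀ 𝔨 : Ideal (𝓞 K), 𝔨 ≠ ⊥ → ∀ η : ℝ, 0 < η → ∃ (C : ℝ) (n₀ : ℕ), 0 < C ∧
    ∀ n q : ℕ, n₀ ≤ n → IsU S n q →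
      ‖∑ᶠ χ ∈ PP K q, χ 𝔨 * AA v (ρ * q) (pr ψ₀ χ) -
        ((PP K q).ncard : ℂ) * DD v (ρ * q) q 𝔨 ψ₀‖ ≤ C * (q : ℝ) ^ (1 / 2 + η)

/-- SECOND : the second moment over the ring class characters modulo `q` -/
def S_second : Prop := ∀ (K : Type) [Field K] [NumberField K] [IsTotallyReal K] (S : RQ K),
  Module.finrank ℚ K = 2 → ∀ ψ₀ : Ideal (𝓞 K) →*₀ ℂ, (∀ 𝔞, ‖ψ₀ 𝔞‖ ≤ 1) → ∀ v : ℝ → ℝ, Wt v →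
  ∀ ρ : ℝ, 0 < ρ → ∀ η : ℝ, 0 < η → ∃ (C : ℝ) (n₀ : ℕ), 0 < C ∧
    ∀ n q : ℕ, n₀ ≤ n → IsU S n q →
      ∑ᶠ χ ∈ XX K q q, ‖AA v (ρ * q) (pr ψ₀ χ)‖ ^ 2 ≤ C * (q : ℝ) ^ (1 + η)

end Pool.Agent.NH12.RS
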