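import Pool.Agent.NH12.RS.Stm
import Pool.Agent.R399.TW.Gauss

/-!
# WT : the weight functions

`Γ_ℝ(α + z)² = ∫ exp(z x) dκ(x)` for a finite measure `κ` on `ℝ` with exponential moments, and
`∫ exp(z² + x z) / z^(j+1) dt = 2π Q_j(x)` (`z = 3/2 + it`) with
`Q_j(x) = ∫ gd(v) (x - v)₊^j dv`.  So `vc a j y = 2π ∫ Q_j(x - log y) dκ(x)`.
-/

set_option autoImplicit false

open MeasureTheory Set Filter Topology

namespace Pool.Agent.NH12.RS
namespace WtH

open Pool.Agent.R399.TW (gd gd_nn gd_even gd_cont gd_int gd_total pt pt_re pt_im pt_cont norm_gauss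
  gauss_int gauss_eval)

/-! ## the functions `Q_j` -/

/-- the positive part to the power `j` -/
noncomputable def ph (j : ℕ) (w : ℝ) : ℝ := if 0 < w then w ^ j else 0

lemma ph_nn (j : ℕ) (w : ℝ) : 0 ≤ ph j w := by
  unfold ph
  split_ifs with h
  · positivity
  · exact le_rfl

lemma ph_mono (j : ℕ) : Monotone (ph j) := by
  intro a b hab
  unfold ph
  split_ifs with h1 h2 h2
  · exact pow_le_pow_left₀ h1.le hab j
  · exact absurd (h1.trans_le hab) h2
  · positivity
  · exact le_rfl

lemma ph_meas (j : ℕ) : Measurable (ph j) := (ph_mono j).measurable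

lemma ph_le_exp {j : ℕ} (hj : j ≤ 1) {A : ℝ} (hA : 1 ≤ A) (w : ℝ) : ph j w ≤ Real.exp (A * w) := by
  unfold ph
  split_ifs with h
  · have h1 : (1 : ℝ) ≤ Real.exp (A * w) := Real.one_le_exp (by positivity)
    have h2 : w ≤ Real.exp (A * w) := by
      have := Real.add_one_le_exp (A * w)
      nlinarith
    interval_cases j
    · simpa using h1
    · simpa using h2
  · positivity

lemma ph_le_abs {j : ℕ} (hj : j ≤ 1) (w : ℝ) : ph j w ≤ 1 + |w| := by
  unfold ph
  have := abs_nonneg w
  split_ifs with h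
  · interval_cases j
    · simpa using this
    · have := le_abs_self w
      simp
      linarith
  · linarith

lemma ph_lip (w : ℝ) {L : ℝ} (hL : 0 ≤ L) : ph 1 w ≤ ph 1 (w - L) + L := by
  unfold ph
  split_ifs with h1 h2 h2
  · simp
  · simp at h2 ⊢
    linarith
  · linarith
  · linarith

lemma gd_abs_int : Integrable fun v : ℝ => gd v * |v| := by
  have h := (integrable_mul_exp_neg_mul_sq (by norm_num : (0 : ℝ) < 1 / 4)).norm.const_mul
    (1 / (2 * √Real.pi))
  refine h.congr (Eventually.of_forall fun v => ?_)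
  unfold gd
  simp only [norm_mul, Real.norm_eq_abs, Real.abs_exp]
  ring

lemma gdph_int {j : ℕ} (hj : j ≤ 1) (x : ℝ) : Integrable fun v : ℝ => gd v * ph j (x - v) := by
  have h : Integrable fun v : ℝ => (1 + |x|) * gd v + gd v * |v| :=
    (gd_int.const_mul _).add gd_abs_int
  refine h.mono' ?_ (Eventually.of_forall fun v => ?_)
  · exact (gd_cont.measurable.mul ((ph_meas j).comp (measurable_const.sub measurable_id))).aestronglyMeasurable
  · rw [Real.norm_eq_abs, abs_of_nonneg (mul_nonneg (gd_nn v) (ph_nn j _))]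
    have h1 := ph_le_abs hj (x - v)
    have h2 : |x - v| ≤ |x| + |v| := abs_sub _ _
    calc gd v * ph j (x - v) ≤ gd v * (1 + (|x| + |v|)) :=
          mul_le_mul_of_nonneg_left (h1.trans (by linarith)) (gd_nn v)
      _ = _ := by ring

/-- the function `Q_j` -/
noncomputable def Q (j : ℕ) (x : ℝ) : ℝ := ∫ v, gd v * ph j (x - v)

lemma Q_nn (j : ℕ) (x : ℝ) : 0 ≤ Q j x :=
  integral_nonneg fun v => mul_nonneg (gd_nn v) (ph_nn j _)

lemma Q_mono {j : ℕ} (hj : j ≤ 1) : Monotone (Q j) := by
  intro a b hab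
  refine integral_mono (gdph_int hj a) (gdph_int hj b) fun v => ?_
  exact mul_le_mul_of_nonneg_left (ph_mono j (by linarith)) (gd_nn v)

lemma Q_meas {j : ℕ} (hj : j ≤ 1) : Measurable (Q j) := (Q_mono hj).measurable

lemma gd_pos (v : ℝ) : 0 < gd v := by unfold gd; positivity

lemma Q_pos {j : ℕ} (hj : j ≤ 1) (x : ℝ) : 0 < Q j x := by
  unfold Q
  rw [integral_pos_iff_support_of_nonneg (fun v => mul_nonneg (gd_nn v) (ph_nn j _)) (gdph_int hj x)]
  have h : Iio x ⊆ Function.support fun v => gd v * ph j (x - v) := by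
    intro v hv
    have hv' : 0 < x - v := sub_pos.2 hv
    have h2 : 0 < ph j (x - v) := by
      unfold ph
      rw [if_pos hv']
      positivity
    exact (mul_pos (gd_pos v) h2).ne'
  exact lt_of_lt_of_le (by simp) (measure_mono h)

lemma Q_le_abs {j : ℕ} (hj : j ≤ 1) : ∃ C : ℝ, 0 ≤ C ∧ ∀ x, Q j x ≤ C + |x| := by
  refine ⟨1 + ∫ v, gd v * |v|, ?_, fun x => ?_⟩
  · have : 0 ≤ ∫ v, gd v * |v| := integral_nonneg fun v => mul_nonneg (gd_nn v) (abs_nonneg v)
    linarith
  · have h : Q j x ≤ ∫ v, ((1 + |x|) * gd v + gd v * |v|) := by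
      refine integral_mono (gdph_int hj x) ((gd_int.const_mul _).add gd_abs_int) fun v => ?_
      have h1 := ph_le_abs hj (x - v)
      have h2 : |x - v| ≤ |x| + |v| := abs_sub _ _
      calc gd v * ph j (x - v) ≤ gd v * (1 + (|x| + |v|)) :=
            mul_le_mul_of_nonneg_left (h1.trans (by linarith)) (gd_nn v)
        _ = _ := by ring
    rw [integral_add (gd_int.const_mul _) gd_abs_int, integral_const_mul, gd_total] at h
    linarith

lemma gdexp_int (A : ℝ) : Integrable fun v : ℝ => gd v * Real.exp (-(A * v)) := by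
  have h := (integrable_exp_neg_mul_sq (by norm_num : (0 : ℝ) < 1 / 8)).const_mul
    (1 / (2 * √Real.pi) * Real.exp (2 * A ^ 2))
  refine h.mono' ?_ (Eventually.of_forall fun v => ?_)
  · have : Continuous fun v : ℝ => gd v * Real.exp (-(A * v)) := gd_cont.mul (by fun_prop)
    exact this.aestronglyMeasurable
  · rw [Real.norm_eq_abs, abs_of_nonneg (mul_nonneg (gd_nn v) (Real.exp_pos _).le)]
    unfold gd
    rw [mul_assoc, mul_assoc, ← Real.exp_add, ← Real.exp_add]
    refine mul_le_mul_of_nonneg_left (Real.exp_le_exp.2 ?_) (by positivity)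
    nlinarith [sq_nonneg (v + 4 * A)]

lemma Q_le_exp {j : ℕ} (hj : j ≤ 1) {A : ℝ} (hA : 1 ≤ A) :
    ∃ C : ℝ, 0 ≤ C ∧ ∀ x, Q j x ≤ C * Real.exp (A * x) := by
  refine ⟨∫ v, gd v * Real.exp (-(A * v)),
    integral_nonneg fun v => mul_nonneg (gd_nn v) (Real.exp_pos _).le, fun x => ?_⟩
  rw [← integral_mul_const]
  refine integral_mono (gdph_int hj x) ((gdexp_int A).mul_const _) fun v => ?_
  have h1 := ph_le_exp hj hA (x - v)
  calc gd v * ph j (x - v) ≤ gd v * Real.exp (A * (x - v)) := mul_le_mul_of_nonneg_left h1 (gd_nn v)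
    _ = gd v * Real.exp (-(A * v)) * Real.exp (A * x) := by
      rw [mul_assoc, ← Real.exp_add]
      congr 2
      ring

lemma Q_zero_le (x : ℝ) : Q 0 x ≤ 1 := by
  have h : Q 0 x ≤ ∫ v, gd v := by
    refine integral_mono (gdph_int (by norm_num) x) gd_int fun v => ?_
    have : ph 0 (x - v) ≤ 1 := by
      unfold ph
      split_ifs <;> simp
    calc gd v * ph 0 (x - v) ≤ gd v * 1 := mul_le_mul_of_nonneg_left this (gd_nn v)
      _ = gd v := mul_one _
  rwa [gd_total] at h

lemma Q_one_lip (x : ℝ) {L : ℝ} (hL : 0 ≤ L) : Q 1 x ≤ Q 1 (x - L) + L := by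
  have h : Q 1 x ≤ ∫ v, (gd v * ph 1 (x - L - v) + L * gd v) := by
    refine integral_mono (gdph_int le_rfl x) ((gdph_int le_rfl _).add (gd_int.const_mul _))
      fun v => ?_
    have := ph_lip (x - v) hL
    calc gd v * ph 1 (x - v) ≤ gd v * (ph 1 (x - v - L) + L) :=
          mul_le_mul_of_nonneg_left this (gd_nn v)
      _ = _ := by
        rw [show x - v - L = x - L - v by ring]
        ring
  rw [integral_add (gdph_int le_rfl _) (gd_int.const_mul _), integral_const_mul, gd_total,
    mul_one] at h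
  exact h

lemma Q_one_ge (x : ℝ) : Q 0 0 * x ≤ Q 1 x := by
  have hi : Integrable fun v => gd v * ph 0 (0 - v) * x := (gdph_int (by norm_num) 0).mul_const _
  unfold Q
  rw [← integral_mul_const]
  refine integral_mono hi (gdph_int le_rfl x) fun v => ?_
  simp only
  rw [mul_assoc]
  refine mul_le_mul_of_nonneg_left ?_ (gd_nn v)
  unfold ph
  by_cases h : 0 < 0 - v
  · rw [if_pos h]
    split_ifs with h2
    · simp at h ⊢
      linarith
    · simp at h h2 ⊢
      linarith
  · rw [if_neg h, zero_mul]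
    exact ph_nn 1 _

/-! ## the kernel -/

lemma pow_exp_int {j : ℕ} {c : ℝ} (hc : 0 < c) :
    IntegrableOn (fun u : ℝ => u ^ j * Real.exp (-c * u)) (Ioi 0) := by
  have h := integrableOn_rpow_mul_exp_neg_mul_rpow (p := 1) (s := (j : ℝ)) (b := c)
    (by have : (0 : ℝ) ≤ j := by positivity
        linarith) one_pos hc
  refine IntegrableOn.congr_fun h (fun u _ => ?_) measurableSet_Ioi
  show u ^ (j : ℝ) * Real.exp (-c * u ^ (1 : ℝ)) = u ^ j * Real.exp (-c * u)
  rw [Real.rpow_natCast, Real.rpow_one]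

lemma cpow_exp_int {j : ℕ} {z : ℂ} (hz : 0 < z.re) :
    IntegrableOn (fun u : ℝ => ((u : ℂ) ^ j) * Complex.exp (-z * u)) (Ioi 0) := by
  refine (pow_exp_int (j := j) hz).mono' ?_ ?_
  · have : Continuous fun u : ℝ => ((u : ℂ) ^ j) * Complex.exp (-z * u) := by fun_prop
    exact this.aestronglyMeasurable
  · filter_upwards [ae_restrict_mem measurableSet_Ioi] with u hu
    have hu' : (0 : ℝ) < u := hu
    rw [norm_mul, norm_pow, Complex.norm_real, Real.norm_eq_abs, abs_of_pos hu', Complex.norm_exp]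
    apply le_of_eq
    simp

lemma inv_pow_int {j : ℕ} (hj : j ≤ 1) {z : ℂ} (hz : 0 < z.re) :
    ∫ u in Ioi (0 : ℝ), ((u : ℂ) ^ j) * Complex.exp (-z * u) = 1 / z ^ (j + 1) := by
  have hz0 : z ≠ 0 := by
    rintro rfl
    simp at hz
  interval_cases j
  · have h := integral_exp_mul_complex_Ioi (a := -z) (by simpa using hz) 0
    simp only [pow_zero, one_mul]
    rw [h]
    simp
  · have hd : ∀ u : ℝ, HasDerivAt (fun u : ℝ => -((u : ℂ) / z + 1 / z ^ 2) * Complex.exp (-z * u))
        (((u : ℂ) ^ 1) * Complex.exp (-z * u)) u := by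
      intro u
      have h1 : HasDerivAt (fun u : ℝ => (u : ℂ)) 1 u := Complex.ofRealCLM.hasDerivAt
      have h2 : HasDerivAt (fun u : ℝ => -((u : ℂ) / z + 1 / z ^ 2)) (-(1 / z)) u :=
        ((h1.div_const z).add_const _).neg
      have h3 : HasDerivAt (fun u : ℝ => Complex.exp (-z * u)) (Complex.exp (-z * u) * (-z * 1)) u :=
        (h1.const_mul (-z)).cexp
      refine (h2.mul h3).congr_deriv ?_
      field_simp
      ring
    have ht : Tendsto (fun u : ℝ => -((u : ℂ) / z + 1 / z ^ 2) * Complex.exp (-z * u)) atTop (𝓝 0) := by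
      rw [tendsto_zero_iff_norm_tendsto_zero]
      have h1 := tendsto_rpow_mul_exp_neg_mul_atTop_nhds_zero 1 z.re hz
      have h0 := tendsto_rpow_mul_exp_neg_mul_atTop_nhds_zero 0 z.re hz
      have h2 : Tendsto (fun u : ℝ => (1 / ‖z‖) * (u ^ (1 : ℝ) * Real.exp (-z.re * u)) +
          (1 / ‖z‖ ^ 2) * (u ^ (0 : ℝ) * Real.exp (-z.re * u))) atTop (𝓝 0) := by
        have := (h1.const_mul (1 / ‖z‖)).add (h0.const_mul (1 / ‖z‖ ^ 2))
        simpa using this
      refine squeeze_zero' (Eventually.of_forall fun u => norm_nonneg _) ?_ h2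
      filter_upwards [eventually_gt_atTop 0] with u hu
      rw [norm_mul, norm_neg, Complex.norm_exp, Real.rpow_one, Real.rpow_zero]
      have e1 : (-z * (u : ℂ)).re = -z.re * u := by simp
      rw [e1]
      have e2 : ‖(u : ℂ) / z + 1 / z ^ 2‖ ≤ u / ‖z‖ + 1 / ‖z‖ ^ 2 := by
        refine (norm_add_le _ _).trans (le_of_eq ?_)
        rw [norm_div, norm_div, norm_pow, norm_one, Complex.norm_real, Real.norm_eq_abs, abs_of_pos hu]
      calc ‖(u : ℂ) / z + 1 / z ^ 2‖ * Real.exp (-z.re * u)
          ≤ (u / ‖z‖ + 1 / ‖z‖ ^ 2) * Real.exp (-z.re * u) :=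
            mul_le_mul_of_nonneg_right e2 (Real.exp_pos _).le
        _ = _ := by ring
    have h := integral_Ioi_of_hasDerivAt_of_tendsto' (a := 0) (fun u _ => hd u)
      (cpow_exp_int (j := 1) hz) ht
    rw [h]
    simp

theorem kernel {j : ℕ} (hj : j ≤ 1) {c : ℝ} (hc : 0 < c) (x : ℝ) :
    ∫ t : ℝ, Complex.exp (pt c t ^ 2 + (x : ℂ) * pt c t) / pt c t ^ (j + 1) =
      2 * Real.pi * ((Q j x : ℝ) : ℂ) := by
  have h0 : ∀ t : ℝ, Complex.exp (pt c t ^ 2 + (x : ℂ) * pt c t) / pt c t ^ (j + 1) =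
      ∫ u in Ioi (0 : ℝ), Complex.exp (pt c t ^ 2 + (x : ℂ) * pt c t) *
        (((u : ℂ) ^ j) * Complex.exp (-pt c t * u)) := by
    intro t
    rw [integral_const_mul, inv_pow_int hj (by simpa using hc)]
    simp [div_eq_mul_inv]
  simp only [h0]
  rw [integral_integral_swap]
  · have h1 : ∀ u : ℝ, ∫ t : ℝ, Complex.exp (pt c t ^ 2 + (x : ℂ) * pt c t) *
        (((u : ℂ) ^ j) * Complex.exp (-pt c t * u)) =
        2 * Real.pi * ((u ^ j * gd (x - u) : ℝ) : ℂ) := by
      intro u
      have e : ∀ t : ℝ, Complex.exp (pt c t ^ 2 + (x : ℂ) * pt c t) *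
          (((u : ℂ) ^ j) * Complex.exp (-pt c t * u)) =
          ((u : ℂ) ^ j) * Complex.exp (pt c t ^ 2 + ((x - u : ℝ) : ℂ) * pt c t) := by
        intro t
        rw [mul_left_comm, ← Complex.exp_add]
        congr 2
        push_cast
        ring
      simp only [e]
      rw [integral_const_mul, gauss_eval]
      push_cast
      ring
    simp only [h1]
    rw [integral_const_mul]
    congr 1
    refine (integral_ofReal (𝕜 := ℂ)).trans ?_
    congr 1
    show (∫ u in Ioi (0 : ℝ), u ^ j * gd (x - u)) = ∫ v, gd v * ph j (x - v)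
    rw [← integral_sub_left_eq_self (fun v => gd v * ph j (x - v)) volume x,
      ← integral_indicator measurableSet_Ioi]
    congr 1
    funext u
    by_cases hu : 0 < u
    · rw [indicator_of_mem (by exact hu)]
      unfold ph
      rw [sub_sub_cancel, if_pos hu]
      ring
    · rw [indicator_of_notMem (by exact hu)]
      unfold ph
      rw [sub_sub_cancel, if_neg hu, mul_zero]
  · have hg : Integrable (fun p : ℝ × ℝ => Real.exp (c ^ 2 + x * c) * Real.exp (-1 * p.1 ^ 2) *
        (p.2 ^ j * Real.exp (-c * p.2))) (volume.prod (volume.restrict (Ioi 0))) :=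
      ((integrable_exp_neg_mul_sq (by norm_num : (0 : ℝ) < 1)).const_mul _).mul_prod
        (pow_exp_int hc)
    refine hg.mono' ?_ ?_
    · have : Continuous (Function.uncurry fun (t u : ℝ) =>
          Complex.exp (pt c t ^ 2 + (x : ℂ) * pt c t) *
            (((u : ℂ) ^ j) * Complex.exp (-pt c t * u))) := by
        unfold pt; fun_prop
      exact this.aestronglyMeasurable
    · have hS : ∀ᵐ p : ℝ × ℝ ∂(volume.prod (volume.restrict (Ioi (0 : ℝ)))), 0 < p.2 := by
        have h1 : ∀ᵐ u : ℝ ∂(volume.restrict (Ioi (0 : ℝ))), 0 < u := ae_restrict_mem measurableSet_Ioi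
        exact Measure.quasiMeasurePreserving_snd.ae h1
      filter_upwards [hS] with p hp
      unfold Function.uncurry
      simp only
      rw [norm_mul, norm_gauss, norm_mul, Complex.norm_exp, neg_one_mul]
      have : (-pt c p.1 * (p.2 : ℂ)).re = -c * p.2 := by
        simp [pt]
      rw [this, norm_pow, Complex.norm_real, Real.norm_eq_abs, abs_of_pos hp]

/-! ## the weight attached to a measure -/

/-- the weight -/
noncomputable def V (κ : Measure ℝ) (j : ℕ) (y : ℝ) : ℝ :=
  2 * Real.pi * ∫ x, Q j (x - Real.log y) ∂κ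

section meas

variable {κ : Measure ℝ} [IsFiniteMeasure κ]

lemma Q_int {j : ℕ} (hj : j ≤ 1) (h1 : Integrable (fun x : ℝ => |x|) κ) (L : ℝ) :
    Integrable (fun x => Q j (x - L)) κ := by
  obtain ⟨C, hC, h⟩ := Q_le_abs hj
  refine ((integrable_const (C + |L|)).add h1).mono' ?_ (Eventually.of_forall fun x => ?_)
  · exact ((Q_meas hj).comp (measurable_id.sub measurable_const)).aestronglyMeasurable
  · rw [Real.norm_eq_abs, abs_of_nonneg (Q_nn j _)]
    have h2 : |x - L| ≤ |x| + |L| := abs_sub _ _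
    have := h (x - L)
    simp only [Pi.add_apply]
    linarith

lemma V_ge {j : ℕ} (hj : j ≤ 1) (h1 : Integrable (fun x : ℝ => |x|) κ) (m y : ℝ) :
    2 * Real.pi * (κ.real (Ici m) * Q j (m - Real.log y)) ≤ V κ j y := by
  unfold V
  refine mul_le_mul_of_nonneg_left ?_ (by positivity)
  have h2 : ∫ x, (Ici m).indicator (fun _ => Q j (m - Real.log y)) x ∂κ ≤
      ∫ x, Q j (x - Real.log y) ∂κ := by
    refine integral_mono ((integrable_const _).indicator measurableSet_Ici) (Q_int hj h1 _)
      fun x => ?_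
    by_cases hx : x ∈ Ici m
    · rw [indicator_of_mem hx]
      have hx' : m ≤ x := hx
      exact Q_mono hj (by linarith)
    · rw [indicator_of_notMem hx]
      exact Q_nn j _
  rw [integral_indicator_const _ measurableSet_Ici, smul_eq_mul] at h2
  exact h2

lemma exists_Ici (h0 : κ ≠ 0) : ∃ m : ℝ, 0 < κ.real (Ici m) := by
  by_contra h
  push Not at h
  apply h0
  have h2 : ∀ n : ℕ, κ (Ici (-(n : ℝ))) = 0 := by
    intro n
    have h3 := le_antisymm (h (-(n : ℝ))) measureReal_nonneg
    rwa [measureReal_def, ENNReal.toReal_eq_zero_iff, or_iff_left (measure_ne_top _ _)] at h3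
  have h3 : κ (⋃ n : ℕ, Ici (-(n : ℝ))) = 0 := measure_iUnion_null_iff.2 h2
  have h4 : (⋃ n : ℕ, Ici (-(n : ℝ))) = univ := by
    ext x
    simp only [mem_iUnion, mem_Ici, mem_univ, iff_true]
    obtain ⟨n, hn⟩ := exists_nat_ge (-x)
    exact ⟨n, by linarith⟩
  rw [h4] at h3
  exact Measure.measure_univ_eq_zero.1 h3

lemma V_anti {j : ℕ} (hj : j ≤ 1) (h1 : Integrable (fun x : ℝ => |x|) κ) {x y : ℝ} (hx : 0 < x)
    (hxy : x ≤ y) : V κ j y ≤ V κ j x := by
  unfold V
  refine mul_le_mul_of_nonneg_left ?_ (by positivity)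
  refine integral_mono (Q_int hj h1 _) (Q_int hj h1 _) fun u => ?_
  have := Real.log_le_log hx hxy
  exact Q_mono hj (by linarith)

theorem wt_of {j : ℕ} (hj : j ≤ 1) (h0 : κ ≠ 0)
    (hA : ∀ A : ℝ, 0 ≤ A → Integrable (fun x => Real.exp (A * x)) κ)
    (h1 : Integrable (fun x : ℝ => |x|) κ) : Wt (V κ j) := by
  obtain ⟨m, hm⟩ := exists_Ici h0
  have hpos : ∀ y, 0 < V κ j y := fun y =>
    lt_of_lt_of_le (by have := Q_pos hj (m - Real.log y); positivity) (V_ge hj h1 m y)
  refine ⟨fun y _ => hpos y, fun x y hx hxy => V_anti hj h1 hx hxy, ?_, ?_, ?_⟩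
  · intro A
    have hB : (1 : ℝ) ≤ (A + 1 : ℕ) := by
      push_cast
      have : (0 : ℝ) ≤ A := by positivity
      linarith
    obtain ⟨C, hC, h⟩ := Q_le_exp hj hB
    refine ⟨2 * Real.pi * ∫ x, C * Real.exp (((A + 1 : ℕ) : ℝ) * x) ∂κ, fun y hy => ?_⟩
    have hy0 : 0 < y := by linarith
    have h2 : ∫ x, Q j (x - Real.log y) ∂κ ≤
        ∫ x, C * Real.exp (((A + 1 : ℕ) : ℝ) * x) * (y ^ (A + 1))⁻¹ ∂κ := by
      refine integral_mono (Q_int hj h1 _) (((hA _ (by linarith)).const_mul C).mul_const _) fun x => ?_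
      refine (h _).trans (le_of_eq ?_)
      rw [mul_assoc, mul_sub, sub_eq_add_neg, Real.exp_add, Real.exp_neg, mul_comm _ (Real.log y),
        ← Real.rpow_def_of_pos hy0, Real.rpow_natCast]
    rw [integral_mul_const] at h2
    have h3 : 0 ≤ ∫ x, C * Real.exp (((A + 1 : ℕ) : ℝ) * x) ∂κ :=
      integral_nonneg fun x => mul_nonneg hC (Real.exp_pos _).le
    unfold V
    have h4 : (y ^ (A + 1))⁻¹ * y ^ A ≤ 1 := by
      rw [pow_succ, mul_inv, mul_comm, ← mul_assoc, mul_inv_cancel₀ (by positivity), one_mul]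
      exact inv_le_one_of_one_le₀ hy
    calc 2 * Real.pi * (∫ x, Q j (x - Real.log y) ∂κ) * y ^ A
        ≤ 2 * Real.pi * ((∫ x, C * Real.exp (((A + 1 : ℕ) : ℝ) * x) ∂κ) * (y ^ (A + 1))⁻¹) * y ^ A := by
          gcongr
      _ = 2 * Real.pi * (∫ x, C * Real.exp (((A + 1 : ℕ) : ℝ) * x) ∂κ) *
          ((y ^ (A + 1))⁻¹ * y ^ A) := by ring
      _ ≤ 2 * Real.pi * (∫ x, C * Real.exp (((A + 1 : ℕ) : ℝ) * x) ∂κ) * 1 :=
          mul_le_mul_of_nonneg_left h4 (by positivity)
      _ = _ := mul_one _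
  · obtain ⟨C, hC, h⟩ := Q_le_abs hj
    have hI : 0 ≤ ∫ x, |x| ∂κ := integral_nonneg fun x => abs_nonneg x
    have hU : 0 ≤ κ.real univ := measureReal_nonneg
    refine ⟨2 * Real.pi * (κ.real univ * (C + 1) + ∫ x, |x| ∂κ), fun y hy hy1 => ?_⟩
    have h2 : ∫ x, Q j (x - Real.log y) ∂κ ≤ ∫ x, ((C + |Real.log y|) + |x|) ∂κ := by
      refine integral_mono (Q_int hj h1 _) ((integrable_const _).add h1) fun x => ?_
      have h3 : |x - Real.log y| ≤ |x| + |Real.log y| := abs_sub _ _
      have := h (x - Real.log y)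
      linarith
    rw [integral_add (integrable_const _) h1, integral_const, smul_eq_mul] at h2
    unfold V
    rw [mul_assoc (2 * Real.pi) (κ.real univ * (C + 1) + ∫ x, |x| ∂κ) (1 + |Real.log y|)]
    refine mul_le_mul_of_nonneg_left (h2.trans ?_) (by positivity)
    have hl := abs_nonneg (Real.log y)
    nlinarith [mul_nonneg hU hC, mul_nonneg hU hl, mul_nonneg hI hl, mul_nonneg (mul_nonneg hU hC) hl]
  · intro M η hM hη
    have hU : 0 ≤ κ.real univ := measureReal_nonneg
    have hM0 : 0 < M := by linarith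
    interval_cases j
    · -- bounded case
      have hbd : ∀ y, V κ 0 y ≤ 2 * Real.pi * κ.real univ := by
        intro y
        unfold V
        refine mul_le_mul_of_nonneg_left ?_ (by positivity)
        have : ∫ x, Q 0 (x - Real.log y) ∂κ ≤ ∫ _x, (1 : ℝ) ∂κ :=
          integral_mono (Q_int hj h1 _) (integrable_const _) fun x => Q_zero_le _
        simpa using this
      have hbdd : BddAbove (V κ 0 '' Ioi 0) := by
        refine ⟨2 * Real.pi * κ.real univ, ?_⟩
        rintro _ ⟨y, _, rfl⟩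
        exact hbd y
      have hne : (V κ 0 '' Ioi 0).Nonempty := ⟨_, ⟨1, mem_Ioi.2 one_pos, rfl⟩⟩
      have hε : 0 < η * V κ 0 1 := mul_pos hη (hpos 1)
      obtain ⟨_, ⟨y1, hy1, rfl⟩, h2⟩ := exists_lt_of_lt_csSup hne
        (show sSup (V κ 0 '' Ioi 0) - η * V κ 0 1 < sSup (V κ 0 '' Ioi 0) by linarith)
      have hy1' : 0 < y1 := hy1
      refine ⟨min 1 (y1 / M), by positivity, fun y hy hy0 => ?_⟩
      have h3 : V κ 0 y ≤ sSup (V κ 0 '' Ioi 0) := le_csSup hbdd ⟨y, hy, rfl⟩
      have h4 : M * y ≤ y1 := by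
        have := hy0.trans (min_le_right _ _)
        rwa [le_div_iff₀ hM0, mul_comm] at this
      have h5 : V κ 0 y1 ≤ V κ 0 (M * y) := V_anti hj h1 (by positivity) h4
      have h6 : V κ 0 1 ≤ V κ 0 y := V_anti hj h1 hy (hy0.trans (min_le_left _ _))
      have h7 : η * V κ 0 1 ≤ η * V κ 0 y := mul_le_mul_of_nonneg_left h6 hη.le
      linarith
    · -- the case `j = 1`
      set D : ℝ := 2 * Real.pi * (κ.real univ * Real.log M) with hD
      have hlM : 0 ≤ Real.log M := Real.log_nonneg hM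
      have hD0 : 0 ≤ D := by positivity
      set c : ℝ := 2 * Real.pi * (κ.real (Ici m) * Q 0 0) with hc
      have hc0 : 0 < c := by
        have := Q_pos (j := 0) (by norm_num) 0
        positivity
      refine ⟨Real.exp (m - D / (η * c)), Real.exp_pos _, fun y hy hy0 => ?_⟩
      have h2 : V κ 1 y ≤ V κ 1 (M * y) + D := by
        unfold V
        rw [hD, ← mul_add]
        refine mul_le_mul_of_nonneg_left ?_ (by positivity)
        have h3 : ∫ x, Q 1 (x - Real.log y) ∂κ ≤
            ∫ x, (Q 1 (x - Real.log (M * y)) + Real.log M) ∂κ := by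
          refine integral_mono (Q_int hj h1 _) ((Q_int hj h1 _).add (integrable_const _)) fun x => ?_
          have := Q_one_lip (x - Real.log y) hlM
          rw [Real.log_mul hM0.ne' hy.ne']
          rw [show x - (Real.log M + Real.log y) = x - Real.log y - Real.log M by ring]
          exact this
        rw [integral_add (Q_int hj h1 _) (integrable_const _), integral_const, smul_eq_mul] at h3
        exact h3
      have h4 : D / η ≤ V κ 1 y := by
        have h5 := V_ge hj h1 m y
        have h6 := Q_one_ge (m - Real.log y)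
        have h7 : Real.log y ≤ m - D / (η * c) := by
          rw [← Real.log_exp (m - D / (η * c))]
          exact Real.log_le_log hy hy0
        have h8 : D / (η * c) ≤ m - Real.log y := by linarith
        calc D / η = c * (D / (η * c)) := by field_simp
          _ ≤ c * (m - Real.log y) := mul_le_mul_of_nonneg_left h8 hc0.le
          _ = 2 * Real.pi * (κ.real (Ici m) * (Q 0 0 * (m - Real.log y))) := by rw [hc]; ring
          _ ≤ 2 * Real.pi * (κ.real (Ici m) * Q 1 (m - Real.log y)) := by gcongr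
          _ ≤ V κ 1 y := h5
      have h5 : D ≤ η * V κ 1 y := by
        rw [div_le_iff₀ hη] at h4
        linarith
      linarith

end meas

/-! ## the measure -/

/-- the density -/
noncomputable def wd (α u : ℝ) : ℝ := 2 * (u ^ (α - 1) * Real.exp (-Real.pi * u ^ 2))

lemma wd_meas (α : ℝ) : Measurable (wd α) := by
  unfold wd
  fun_prop

lemma wd_pos {α u : ℝ} (hu : 0 < u) : 0 < wd α u := by
  unfold wd
  positivity

/-- the law of `log u` -/
noncomputable def nu (α : ℝ) : Measure ℝ :=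
  ((volume.restrict (Ioi 0)).withDensity (fun u => ENNReal.ofReal (wd α u))).map Real.log

section nu

variable {E : Type} [NormedAddCommGroup E] [NormedSpace ℝ E]

lemma nu_int_iff {α : ℝ} {g : ℝ → E} (hg : Continuous g) :
    Integrable g (nu α) ↔ IntegrableOn (fun u => wd α u • g (Real.log u)) (Ioi 0) := by
  unfold nu
  have hm : Measurable fun u => ENNReal.ofReal (wd α u) := (wd_meas α).ennreal_ofReal
  rw [integrable_map_measure]
  · rw [integrable_withDensity_iff_integrable_smul' hm (Eventually.of_forall fun _ => ENNReal.ofReal_lt_top)]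
    unfold IntegrableOn
    refine integrable_congr ?_
    filter_upwards [ae_restrict_mem measurableSet_Ioi] with u hu
    simp only [Function.comp_apply]
    rw [ENNReal.toReal_ofReal (wd_pos hu).le]
  · exact hg.aestronglyMeasurable
  · exact Real.measurable_log.aemeasurable

lemma nu_integral {α : ℝ} {g : ℝ → E} (hg : Continuous g) :
    ∫ x, g x ∂(nu α) = ∫ u in Ioi 0, wd α u • g (Real.log u) := by
  unfold nu
  have hm : Measurable fun u => ENNReal.ofReal (wd α u) := (wd_meas α).ennreal_ofReal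
  rw [integral_map Real.measurable_log.aemeasurable hg.aestronglyMeasurable,
    integral_withDensity_eq_integral_toReal_smul hm
      (Eventually.of_forall fun _ => ENNReal.ofReal_lt_top)]
  refine setIntegral_congr_fun measurableSet_Ioi fun u hu => ?_
  show (ENNReal.ofReal (wd α u)).toReal • g (Real.log u) = wd α u • g (Real.log u)
  rw [ENNReal.toReal_ofReal (wd_pos hu).le]

end nu

lemma nu_exp {α A : ℝ} (h : 0 < α + A) : Integrable (fun x => Real.exp (A * x)) (nu α) := by
  rw [nu_int_iff (by fun_prop)]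
  have h1 := (integrableOn_rpow_mul_exp_neg_mul_sq Real.pi_pos (s := α - 1 + A) (by linarith)).const_mul 2
  refine IntegrableOn.congr_fun h1 (fun u hu => ?_) measurableSet_Ioi
  have hu' : (0 : ℝ) < u := hu
  simp only [smul_eq_mul]
  unfold wd
  rw [Real.rpow_add hu', mul_comm A, ← Real.rpow_def_of_pos hu']
  ring

instance nu_fin {α : ℝ} [h : Fact (0 < α)] : IsFiniteMeasure (nu α) := by
  have h1 := nu_exp (α := α) (A := 0) (by simpa using h.out)
  simp only [zero_mul, Real.exp_zero] at h1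
  rcases integrable_const_iff.1 h1 with h2 | h2
  · exact absurd h2 one_ne_zero
  · exact h2

lemma nu_ne {α : ℝ} [h : Fact (0 < α)] : nu α ≠ 0 := by
  intro h0
  have h1 : ∫ x, (1 : ℝ) ∂(nu α) = 0 := by rw [h0, integral_zero_measure]
  rw [nu_integral continuous_const] at h1
  simp only [smul_eq_mul, mul_one] at h1
  have h2 : Integrable (fun _ : ℝ => (1 : ℝ)) (nu α) := integrable_const 1
  rw [nu_int_iff continuous_const] at h2
  simp only [smul_eq_mul, mul_one] at h2
  have h3 : 0 < ∫ u in Ioi (0 : ℝ), wd α u := by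
    rw [setIntegral_pos_iff_support_of_nonneg_ae ?_ h2]
    · have : Ioi (0 : ℝ) ⊆ Function.support (wd α) ∩ Ioi 0 := fun u hu =>
        ⟨(wd_pos hu).ne', hu⟩
      exact lt_of_lt_of_le (by simp) (measure_mono this)
    · filter_upwards [ae_restrict_mem measurableSet_Ioi] with u hu
      exact (wd_pos hu).le
  linarith

lemma nu_mom {α : ℝ} {z : ℂ} (h : 0 < (α + z).re) :
    ∫ x : ℝ, Complex.exp (z * x) ∂(nu α) = Complex.Gammaℝ (α + z) := by
  rw [nu_integral (by fun_prop)]
  have h1 := mellin_comp_rpow (fun t : ℝ => Complex.exp (-(Real.pi * t))) (α + z) 2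
  have h2 : mellin (fun t : ℝ => Complex.exp (-(Real.pi * t))) ((α + z) / 2) =
      (1 / (Real.pi : ℂ)) ^ ((α + z) / 2) * Complex.Gamma ((α + z) / 2) := by
    rw [← Complex.integral_cpow_mul_exp_neg_mul_Ioi (a := (α + z) / 2) (r := Real.pi) ?_ Real.pi_pos]
    · rfl
    · simp at h ⊢
      linarith
  have h3 : ∫ u in Ioi (0 : ℝ), wd α u • Complex.exp (z * (Real.log u : ℝ)) =
      2 * mellin (fun t : ℝ => Complex.exp (-(Real.pi * ((t ^ (2 : ℝ) : ℝ) : ℂ)))) (α + z) := by
    unfold mellin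
    rw [← integral_const_mul]
    refine setIntegral_congr_fun measurableSet_Ioi fun u hu => ?_
    have hu' : (0 : ℝ) < u := hu
    simp only [smul_eq_mul]
    rw [Complex.real_smul]
    unfold wd
    have e1 : Complex.exp (z * (Real.log u : ℝ)) = (u : ℂ) ^ z := by
      rw [Complex.cpow_def_of_ne_zero (by exact_mod_cast hu'.ne'), Complex.ofReal_log hu'.le, mul_comm]
    have e2 : ((u ^ (α - 1) : ℝ) : ℂ) = (u : ℂ) ^ ((α : ℂ) - 1) := by
      rw [Complex.ofReal_cpow hu'.le]
      push_cast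
      rfl
    rw [e1, show (α : ℂ) + z - 1 = ((α : ℂ) - 1) + z by ring,
      Complex.cpow_add _ _ (by exact_mod_cast hu'.ne'), ← e2]
    push_cast
    rw [Real.rpow_two]
    push_cast
    rw [neg_mul]
    ring
  rw [h3, h1]
  rw [show ((2 : ℝ) : ℂ) = 2 by norm_num, h2, Complex.Gammaℝ_def]
  have h4 : (1 / (Real.pi : ℂ)) ^ ((α + z) / 2) = (Real.pi : ℂ) ^ (-(α + z) / 2) := by
    rw [one_div, Complex.inv_cpow _ _ (by rw [Complex.arg_ofReal_of_nonneg Real.pi_pos.le]; exact Real.pi_pos.ne),
      ← Complex.cpow_neg]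
    congr 1
    ring
  rw [h4, Complex.real_smul, abs_of_pos (by norm_num : (0 : ℝ) < 2)]
  push_cast
  ring

/-- the law of the sum of two independent copies -/
noncomputable def ka (α : ℝ) : Measure ℝ := ((nu α).prod (nu α)).map (fun p => p.1 + p.2)

section ka

variable {α : ℝ} [h : Fact (0 < α)]

instance ka_fin : IsFiniteMeasure (ka α) := by
  unfold ka
  infer_instance

lemma ka_ne : ka α ≠ 0 := by
  intro h0
  have h1 : (ka α) univ = 0 := by rw [h0]; rfl
  unfold ka at h1
  rw [Measure.map_apply (by fun_prop) MeasurableSet.univ, preimage_univ, ← univ_prod_univ,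
    Measure.prod_prod, mul_self_eq_zero] at h1
  exact nu_ne (Measure.measure_univ_eq_zero.1 h1)

omit h in
lemma ka_exp {A : ℝ} (hA : 0 < α + A) : Integrable (fun x => Real.exp (A * x)) (ka α) := by
  unfold ka
  rw [integrable_map_measure (by fun_prop) (by fun_prop)]
  have h1 := (nu_exp hA).mul_prod (nu_exp hA)
  refine h1.congr (Eventually.of_forall fun p => ?_)
  simp only [Function.comp_apply]
  rw [← Real.exp_add]
  congr 1
  ring

lemma ka_abs : Integrable (fun x : ℝ => |x|) (ka α) := by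
  have hα := h.out
  have h1 := (ka_exp (α := α) (A := α / 2) (by linarith)).add
    (ka_exp (α := α) (A := -(α / 2)) (by linarith))
  refine (h1.const_mul (2 / α)).mono' (by fun_prop) (Eventually.of_forall fun x => ?_)
  rw [Real.norm_eq_abs, abs_abs]
  simp only [Pi.add_apply]
  have h2 : α / 2 * |x| ≤ Real.exp (α / 2 * x) + Real.exp (-(α / 2) * x) := by
    have h3 := Real.add_one_le_exp (α / 2 * x)
    have h4 := Real.add_one_le_exp (-(α / 2) * x)
    have h5 := Real.exp_pos (α / 2 * x)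
    have h6 := Real.exp_pos (-(α / 2) * x)
    rcases abs_cases x with ⟨e, _⟩ | ⟨e, _⟩ <;> rw [e] <;> linarith
  calc |x| = 2 / α * (α / 2 * |x|) := by field_simp
    _ ≤ _ := mul_le_mul_of_nonneg_left h2 (by positivity)

lemma ka_mom {z : ℂ} (hz : 0 < (α + z).re) :
    ∫ x : ℝ, Complex.exp (z * x) ∂(ka α) = Complex.Gammaℝ (α + z) ^ 2 := by
  unfold ka
  rw [integral_map (by fun_prop) (by fun_prop)]
  have e : ∀ p : ℝ × ℝ, Complex.exp (z * ((p.1 + p.2 : ℝ) : ℂ)) =
      Complex.exp (z * p.1) * Complex.exp (z * p.2) := by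
    intro p
    rw [← Complex.exp_add]
    congr 1
    push_cast
    ring
  simp only [e]
  rw [integral_prod_mul (fun x : ℝ => Complex.exp (z * x)) (fun x : ℝ => Complex.exp (z * x)),
    nu_mom hz, pow_two]

end ka

/-! ## the identity -/

theorem vc_eq {a j : ℕ} (hj : j ≤ 1) {α : ℝ} [h : Fact (0 < α)] (ha : α = 1 / 2 + a) {y : ℝ}
    (hy : 0 < y) : vc a j y = ((V (ka α) j y : ℝ) : ℂ) := by
  have hα := h.out
  set c : ℝ := 3 / 2 with hc
  set L : ℝ := Real.log y with hL
  have hpt : ∀ t : ℝ, (3 / 2 + t * Complex.I : ℂ) = pt c t := by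
    intro t
    unfold pt
    rw [hc]
    push_cast
    ring
  have h0 : ∀ t : ℝ, Complex.Gammaℝ (1 / 2 + a + (3 / 2 + t * Complex.I)) ^ 2 *
      Complex.exp ((3 / 2 + t * Complex.I) ^ 2) * (y : ℂ) ^ (-(3 / 2 + t * Complex.I : ℂ)) /
        (3 / 2 + t * Complex.I) ^ (j + 1) =
      ∫ x, Complex.exp (pt c t ^ 2 + ((x - L : ℝ) : ℂ) * pt c t) / pt c t ^ (j + 1) ∂(ka α) := by
    intro t
    rw [hpt t]
    have e1 : (1 / 2 + a + pt c t : ℂ) = (α : ℂ) + pt c t := by
      rw [ha]
      push_cast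
      ring
    rw [e1, ← ka_mom (by simp only [Complex.add_re, Complex.ofReal_re, pt_re]; rw [hc]; linarith)]
    rw [mul_assoc, mul_div_assoc, ← integral_mul_const]
    refine integral_congr_ae (Eventually.of_forall fun x => ?_)
    simp only
    rw [Complex.cpow_def_of_ne_zero (by exact_mod_cast hy.ne'), ← Complex.ofReal_log hy.le, ← hL,
      ← Complex.exp_add, ← mul_div_assoc, ← Complex.exp_add]
    congr 2
    push_cast
    ring
  unfold vc
  simp only [h0]
  rw [integral_integral_swap]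
  · simp only [kernel hj (show (0 : ℝ) < c by rw [hc]; norm_num)]
    rw [integral_const_mul, V]
    push_cast
    congr 1
    exact integral_ofReal (𝕜 := ℂ)
  · have hg : Integrable (fun p : ℝ × ℝ => Real.exp (c ^ 2 - L * c) * Real.exp (-1 * p.1 ^ 2) *
        Real.exp (c * p.2)) (volume.prod (ka α)) :=
      ((integrable_exp_neg_mul_sq (by norm_num : (0 : ℝ) < 1)).const_mul _).mul_prod
        (ka_exp (by rw [hc]; linarith))
    refine hg.mono' ?_ (Eventually.of_forall fun p => ?_)
    · have hne : ∀ p : ℝ × ℝ, pt c p.1 ^ (j + 1) ≠ 0 := by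
        intro p
        refine pow_ne_zero _ fun h0 => ?_
        have := congrArg Complex.re h0
        rw [pt_re, hc] at this
        norm_num at this
      have : Continuous (Function.uncurry fun (t x : ℝ) =>
          Complex.exp (pt c t ^ 2 + ((x - L : ℝ) : ℂ) * pt c t) / pt c t ^ (j + 1)) := by
        refine Continuous.div ?_ ?_ hne
        · unfold pt; fun_prop
        · unfold pt; fun_prop
      exact this.aestronglyMeasurable
    · unfold Function.uncurry
      simp only
      rw [norm_div, norm_gauss, norm_pow]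
      have h1 : (1 : ℝ) ≤ ‖pt c p.1‖ ^ (j + 1) := by
        refine one_le_pow₀ ?_
        have := Complex.abs_re_le_norm (pt c p.1)
        rw [pt_re, hc] at this
        rw [hc]
        refine le_trans ?_ this
        rw [abs_of_pos (by norm_num)]
        norm_num
      calc Real.exp (c ^ 2 + (p.2 - L) * c) * Real.exp (-p.1 ^ 2) / ‖pt c p.1‖ ^ (j + 1)
          ≤ Real.exp (c ^ 2 + (p.2 - L) * c) * Real.exp (-p.1 ^ 2) / 1 := by gcongr
        _ = _ := by
          rw [div_one, neg_one_mul, ← Real.exp_add, ← Real.exp_add, ← Real.exp_add]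
          congr 1
          ring

end WtH

/-- WT : the weights -/
theorem t_wt : S_wt := by
  intro a j _ hj
  have hα : (0 : ℝ) < 1 / 2 + a := by positivity
  have : Fact ((0 : ℝ) < 1 / 2 + a) := ⟨hα⟩
  refine ⟨WtH.V (WtH.ka (1 / 2 + a)) j, WtH.wt_of hj WtH.ka_ne (fun A hA => WtH.ka_exp (by linarith))
    WtH.ka_abs, fun y hy => ?_⟩
  exact WtH.vc_eq hj rfl hy

end Pool.Agent.NH12.RS
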